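import Mathlib

open MeasureTheory
open scoped ENNReal InnerProductSpace

set_option linter.unusedSectionVars false

namespace Pool.Agent.Lib_helper44

variable {E : Type*} [NormedAddCommGroup E] [InnerProductSpace ℝ E] [FiniteDimensional ℝ E]
  [MeasurableSpace E] [BorelSpace E]

/-- absolute value of the determinant of a continuous linear equivalence -/
noncomputable def adet (M : E ≃L[ℝ] E) : ℝ := |LinearMap.det (M.toLinearEquiv : E →ₗ[ℝ] E)|

theorem adet_pos (M : E ≃L[ℝ] E) : 0 < adet M := by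
  have : LinearMap.det (M.toLinearEquiv : E →ₗ[ℝ] E) ≠ 0 := M.toLinearEquiv.isUnit_det'.ne_zero
  exact abs_pos.mpr this

theorem adet_mul (M N : E ≃L[ℝ] E) : adet (M * N) = adet M * adet N := by
  unfold adet
  rw [← abs_mul, ← LinearMap.det_comp]
  rfl

theorem adet_one : adet (1 : E ≃L[ℝ] E) = 1 := by
  unfold adet
  have : ((1 : E ≃L[ℝ] E).toLinearEquiv : E →ₗ[ℝ] E) = LinearMap.id := rfl
  rw [this, LinearMap.det_id, abs_one]

theorem adet_inv (M : E ≃L[ℝ] E) : adet M⁻¹ = (adet M)⁻¹ := by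
  have h : adet M * adet M⁻¹ = 1 := by rw [← adet_mul, mul_inv_cancel, adet_one]
  exact (eq_inv_of_mul_eq_one_right h)

theorem adet_zpow (M : E ≃L[ℝ] E) (j : ℤ) : adet (M ^ j) = (adet M) ^ j := by
  let f : (E ≃L[ℝ] E) →* ℝ := ⟨⟨adet, adet_one⟩, adet_mul⟩
  exact map_zpow' f adet_inv M j

theorem map_volume_equiv (M : E ≃L[ℝ] E) :
    Measure.map M (volume : Measure E) = ENNReal.ofReal (adet M)⁻¹ • volume := by
  have h : LinearMap.det (M.toLinearEquiv : E →ₗ[ℝ] E) ≠ 0 := M.toLinearEquiv.isUnit_det'.ne_zero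
  have := Measure.map_linearMap_addHaar_eq_smul_addHaar (volume : Measure E) h
  unfold adet
  rw [← abs_inv]
  exact this

theorem integral_comp_equiv {F : Type*} [NormedAddCommGroup F] [NormedSpace ℝ F]
    (M : E ≃L[ℝ] E) (f : E → F) :
    ∫ x, f (M x) = (adet M)⁻¹ • ∫ x, f x := by
  have h1 : ∫ x, f (M x) = ∫ y, f y ∂(Measure.map M (volume : Measure E)) :=
    (integral_map_equiv M.toHomeomorph.toMeasurableEquiv f).symm
  rw [h1, map_volume_equiv, integral_smul_measure, ENNReal.toReal_ofReal]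
  exact inv_nonneg.mpr (adet_pos M).le

theorem lintegral_comp_equiv (M : E ≃L[ℝ] E) (f : E → ℝ≥0∞) :
    ∫⁻ x, f (M x) = ENNReal.ofReal (adet M)⁻¹ * ∫⁻ x, f x := by
  have h1 : ∫⁻ x, f (M x) = ∫⁻ y, f y ∂(Measure.map M (volume : Measure E)) :=
    (lintegral_map_equiv f M.toHomeomorph.toMeasurableEquiv).symm
  rw [h1, map_volume_equiv, lintegral_smul_measure, smul_eq_mul]

theorem quasiMeasurePreserving_equiv (M : E ≃L[ℝ] E) :
    Measure.QuasiMeasurePreserving M (volume : Measure E) volume := by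
  refine ⟨M.continuous.measurable, ?_⟩
  rw [map_volume_equiv]
  exact Measure.smul_absolutelyContinuous

theorem ae_comp_equiv (M : E ≃L[ℝ] E) {p : E → Prop} (h : ∀ᵐ x, p x) : ∀ᵐ x, p (M x) :=
  (quasiMeasurePreserving_equiv M).ae h

theorem ae_comp_sub (k : E) {p : E → Prop} (h : ∀ᵐ x, p x) : ∀ᵐ x : E, p (x - k) :=
  (measurePreserving_sub_right (volume : Measure E) k).quasiMeasurePreserving.ae h

theorem ae_comp_affine (M : E ≃L[ℝ] E) (k : E) {p : E → Prop} (h : ∀ᵐ x, p x) :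
    ∀ᵐ x, p (M x - k) :=
  ae_comp_equiv M (p := fun y => p (y - k)) (ae_comp_sub k h)

end Pool.Agent.Lib_helper44
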