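import Mathlib
import Pool.Agent.Lib_helper44.LinChange

open MeasureTheory SchwartzMap FourierTransform Real Complex
open scoped ENNReal InnerProductSpace

set_option linter.unusedSectionVars false

namespace Pool.Agent.Lib_helper44

variable {E : Type*} [NormedAddCommGroup E] [InnerProductSpace ℝ E] [FiniteDimensional ℝ E]
  [MeasurableSpace E] [BorelSpace E]

theorem fourier_integral_eq (f : Lp ℂ 2 (volume : Measure E)) (θ : 𝓢(E, ℂ)) :
    ∫ x, θ x * (𝓕 f : Lp ℂ 2 (volume : Measure E)) x = ∫ x, (𝓕 θ) x * f x := by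
  have h := congrArg (fun (T : 𝓢'(E, ℂ)) => T θ) (Lp.fourier_toTemperedDistribution_eq f)
  simpa using h.symm

theorem fourier_eq_of_forall (f h : Lp ℂ 2 (volume : Measure E))
    (H : ∀ θ : 𝓢(E, ℂ), ∫ x, θ x * h x = ∫ x, (𝓕 θ) x * f x) : 𝓕 f = h := by
  have h1 : (Lp.toTemperedDistributionCLM ℂ (volume : Measure E) 2) (𝓕 f - h) = 0 := by
    rw [map_sub, sub_eq_zero]
    ext θ
    simp only [Lp.toTemperedDistributionCLM_apply, Lp.toTemperedDistribution_apply, smul_eq_mul]
    rw [fourier_integral_eq, H]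
  have h2 : (𝓕 f - h) ∈ (Lp.toTemperedDistributionCLM ℂ (volume : Measure E) 2).ker := h1
  rw [Lp.ker_toTemperedDistributionCLM_eq_bot] at h2
  exact sub_eq_zero.mp h2

theorem integral_schwartz_mul_fourier (f : E → ℂ) (hf : Integrable f) (θ : 𝓢(E, ℂ)) :
    ∫ x, θ x * 𝓕 f x = ∫ x, (𝓕 θ) x * f x := by
  have h := VectorFourier.integral_fourierIntegral_smul_eq_flip (μ := (volume : Measure E))
    (ν := (volume : Measure E)) (e := Real.fourierChar) (L := innerₗ E) (f := (θ : E → ℂ)) (g := f)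
    Real.continuous_fourierChar continuous_inner θ.integrable hf
  simp only [smul_eq_mul, flip_innerₗ] at h
  exact h.symm

/-- For a function in `L¹ ∩ L²` the `L²` Fourier transform is given by the integral. -/
theorem fourier_L1L2 (f : Lp ℂ 2 (volume : Measure E)) (hf : Integrable f) :
    (𝓕 f : Lp ℂ 2 (volume : Measure E)) =ᵐ[volume] 𝓕 (f : E → ℂ) := by
  apply ae_eq_of_integral_contDiff_smul_eq
  · exact (Lp.memLp (𝓕 f)).locallyIntegrable (by norm_num)
  · have hc : Continuous (𝓕 (f : E → ℂ)) :=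
      VectorFourier.fourierIntegral_continuous Real.continuous_fourierChar
        (by exact continuous_inner) hf
    exact hc.locallyIntegrable
  · intro g g_smooth g_cpt
    have hg₁ : HasCompactSupport (Complex.ofRealCLM ∘ g) := g_cpt.comp_left rfl
    have hg₂ : ContDiff ℝ (⊤ : ℕ∞) (Complex.ofRealCLM ∘ g) := by fun_prop
    have h1 := fourier_integral_eq f (hg₁.toSchwartzMap hg₂)
    have h2 := integral_schwartz_mul_fourier (f : E → ℂ) hf (hg₁.toSchwartzMap hg₂)
    have h3 := h1.trans h2.symm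
    simpa using h3

/-- the character `ξ ↦ e^{-2πi⟨k,ξ⟩}` -/
noncomputable def chr (k ξ : E) : ℂ := (Real.fourierChar (-⟪k, ξ⟫_ℝ) : ℂ)

theorem chr_continuous (k : E) : Continuous (chr k) := by
  unfold chr
  fun_prop

theorem norm_chr (k ξ : E) : ‖chr k ξ‖ = 1 := Circle.norm_coe _

/-- modulated and dilated Schwartz functions -/
theorem exists_schwartz_mod (N : E ≃L[ℝ] E) (k : E) (θ : 𝓢(E, ℂ)) :
    ∃ Θ : 𝓢(E, ℂ), ∀ η, Θ η = θ (N η) * chr k η := by
  let θ₁ : 𝓢(E, ℂ) := compCLMOfContinuousLinearEquiv ℂ N θ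
  let θ₂ : 𝓢(E, ℂ) := 𝓕⁻ θ₁
  refine ⟨𝓕 (compSubConstCLM ℂ k θ₂), fun η => ?_⟩
  have h1 : 𝓕 θ₂ = θ₁ := by simp [θ₂]
  have h2 : (θ (N η)) = (𝓕 θ₂) η := by rw [h1]; rfl
  rw [h2, fourier_coe, fourier_coe, Real.fourier_eq, Real.fourier_eq]
  have h3 : ∫ v, Real.fourierChar (-⟪v, η⟫_ℝ) • (compSubConstCLM ℂ k θ₂) v =
      ∫ v, Real.fourierChar (-⟪v + k, η⟫_ℝ) • θ₂ v := by
    rw [← integral_add_right_eq_self (μ := (volume : Measure E))
      (fun v => Real.fourierChar (-⟪v, η⟫_ℝ) • (compSubConstCLM ℂ k θ₂) v) k]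
    congr 1
    ext v
    simp
  rw [h3, ← integral_mul_const]
  congr 1
  ext v
  rw [inner_add_left, neg_add, AddChar.map_add_eq_mul, Circle.smul_def, Circle.smul_def,
    Circle.coe_mul, smul_eq_mul, smul_eq_mul]
  unfold chr
  ring

/-- Fourier transform of `g(M x - k)`, in `L²`. -/
theorem fourier_affine (M N : E ≃L[ℝ] E) (hMN : ∀ x y, ⟪M x, y⟫_ℝ = ⟪x, N y⟫_ℝ) (k : E)
    (g h : Lp ℂ 2 (volume : Measure E))
    (hh : h =ᵐ[volume] fun x => g (M x - k)) :
    (𝓕 h : Lp ℂ 2 (volume : Measure E)) =ᵐ[volume] fun ξ =>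
      (((adet M)⁻¹ : ℝ) : ℂ) * (chr k (N.symm ξ) * (𝓕 g : Lp ℂ 2 (volume : Measure E)) (N.symm ξ)) := by
  set G : E → ℂ := fun ξ =>
      (((adet M)⁻¹ : ℝ) : ℂ) * (chr k (N.symm ξ) * (𝓕 g : Lp ℂ 2 (volume : Measure E)) (N.symm ξ))
    with hG
  have hmem : MemLp G 2 (volume : Measure E) := by
    have h1 : MemLp (fun ξ => (𝓕 g : Lp ℂ 2 (volume : Measure E)) (N.symm ξ)) 2
        (volume : Measure E) := by
      have h2 : MemLp (𝓕 g : Lp ℂ 2 (volume : Measure E)) 2
          (Measure.map N.symm (volume : Measure E)) := by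
        rw [map_volume_equiv]
        exact (Lp.memLp _).smul_measure (by simp)
      exact (memLp_map_measure_iff (by exact h2.1) N.symm.continuous.aemeasurable).1 h2
    have h3 : MemLp (fun ξ => chr k (N.symm ξ) *
        (𝓕 g : Lp ℂ 2 (volume : Measure E)) (N.symm ξ)) 2 (volume : Measure E) := by
      refine MemLp.of_le h1 ?_ ?_
      · exact ((chr_continuous k).comp N.symm.continuous).aestronglyMeasurable.mul h1.1
      · filter_upwards with ξ
        rw [norm_mul, norm_chr, one_mul]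
    exact h3.const_mul _
  have key : 𝓕 h = hmem.toLp G := by
    apply fourier_eq_of_forall
    intro θ
    obtain ⟨Θ, hΘ⟩ := exists_schwartz_mod N k θ
    have e1 : ∫ x, θ x * (hmem.toLp G) x = ∫ x, θ x * G x := by
      apply integral_congr_ae
      filter_upwards [hmem.coeFn_toLp] with x hx
      rw [hx]
    have e2 : ∫ x, (𝓕 θ) x * h x = ∫ x, (𝓕 θ) x * g (M x - k) := by
      apply integral_congr_ae
      filter_upwards [hh] with x hx
      rw [hx]
    -- change of variables on the right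
    have e3 : ∫ x, (𝓕 θ) x * g (M x - k) = (adet M)⁻¹ • ∫ u, (𝓕 θ) (M.symm (u + k)) * g u := by
      have a1 : ∫ x, (𝓕 θ) x * g (M x - k)
          = ∫ x, (fun y => (𝓕 θ) (M.symm y) * g (y - k)) (M x) := by
        simp
      refine a1.trans ((integral_comp_equiv M (fun y => (𝓕 θ) (M.symm y) * g (y - k))).trans ?_)
      have a2 := integral_add_right_eq_self (μ := (volume : Measure E))
        (fun y => (𝓕 θ) (M.symm y) * g (y - k)) k
      simp only [add_sub_cancel_right] at a2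
      rw [a2]
    -- the Fourier transform of Θ
    have e4 : ∀ u, (𝓕 Θ) u = (((adet N)⁻¹ : ℝ) : ℂ) * (𝓕 θ) (M.symm (u + k)) := by
      intro u
      rw [fourier_coe, fourier_coe, Real.fourier_eq, Real.fourier_eq]
      have b1 : ∫ v, Real.fourierChar (-⟪v, u⟫_ℝ) • Θ v
          = ∫ v, (fun w => Real.fourierChar (-⟪w, M.symm (u + k)⟫_ℝ) • θ w) (N v) := by
        congr 1
        ext v
        have c1 : ⟪N v, M.symm (u + k)⟫_ℝ = ⟪v, u + k⟫_ℝ := by
          rw [real_inner_comm, ← hMN, real_inner_comm]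
          simp
        simp only [c1, hΘ, Circle.smul_def, smul_eq_mul, chr]
        rw [inner_add_right, neg_add, AddChar.map_add_eq_mul, Circle.coe_mul,
          real_inner_comm v k]
        ring
      rw [b1, integral_comp_equiv N (fun w => Real.fourierChar (-⟪w, M.symm (u + k)⟫_ℝ) • θ w),
        Complex.real_smul]
    have e5 : ∫ x, θ x * G x = (adet M)⁻¹ • (adet N • ∫ η, Θ η * (𝓕 g : Lp ℂ 2 (volume : Measure E)) η) := by
      have a1 : ∫ η, Θ η * (𝓕 g : Lp ℂ 2 (volume : Measure E)) η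
          = ∫ η, (fun ξ => θ ξ * (chr k (N.symm ξ) * (𝓕 g : Lp ℂ 2 (volume : Measure E)) (N.symm ξ))) (N η) := by
        congr 1
        ext η
        simp only [hΘ, ContinuousLinearEquiv.symm_apply_apply]
        ring
      rw [a1, integral_comp_equiv N (fun ξ => θ ξ * (chr k (N.symm ξ) *
          (𝓕 g : Lp ℂ 2 (volume : Measure E)) (N.symm ξ))), smul_smul (adet N),
        mul_inv_cancel₀ (adet_pos N).ne', one_smul, ← integral_smul]
      congr 1
      ext ξ
      rw [hG, Complex.real_smul]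
      ring
    rw [e1, e2, e3, e5, fourier_integral_eq]
    congr 1
    rw [← integral_smul]
    congr 1
    ext u
    rw [e4, Complex.real_smul]
    have : ((adet N : ℝ) : ℂ) * (((adet N)⁻¹ : ℝ) : ℂ) = 1 := by
      rw [← Complex.ofReal_mul, mul_inv_cancel₀ (adet_pos N).ne', Complex.ofReal_one]
    rw [← mul_assoc, ← mul_assoc, this, one_mul]
  rw [key]
  exact hmem.coeFn_toLp

end Pool.Agent.Lib_helper44
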