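import Mathlib
import Pool.Agent.Lib_helper44.FTAffine

open MeasureTheory FourierTransform Real Complex
open scoped ENNReal InnerProductSpace

set_option linter.unusedSectionVars false

namespace Pool.Agent.Lib_helper44

variable {E : Type*} [NormedAddCommGroup E] [InnerProductSpace ℝ E] [FiniteDimensional ℝ E]
  [MeasurableSpace E] [BorelSpace E]

theorem memLp_comp_equiv (M : E ≃L[ℝ] E) {g : E → ℂ} (hg : MemLp g 2 (volume : Measure E)) :
    MemLp (fun x => g (M x)) 2 (volume : Measure E) := by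
  have h2 : MemLp g 2 (Measure.map M (volume : Measure E)) := by
    rw [map_volume_equiv]
    exact hg.smul_measure (by simp)
  exact (memLp_map_measure_iff (by exact h2.1) M.continuous.aemeasurable).1 h2

theorem eLpNorm_comp_equiv (M : E ≃L[ℝ] E) {g : E → ℂ} (hg : MemLp g 2 (volume : Measure E)) :
    eLpNorm (fun x => (((adet M) ^ (1 / 2 : ℝ) : ℝ) : ℂ) * g (M x)) 2 (volume : Measure E)
      = eLpNorm g 2 (volume : Measure E) := by
  have h1 : eLpNorm (fun x => (((adet M) ^ (1 / 2 : ℝ) : ℝ) : ℂ) * g (M x)) 2 (volume : Measure E)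
      = ENNReal.ofReal ((adet M) ^ (1 / 2 : ℝ)) * eLpNorm (fun x => g (M x)) 2 volume := by
    have := eLpNorm_const_smul ((((adet M) ^ (1 / 2 : ℝ) : ℝ) : ℂ)) (fun x => g (M x)) 2
      (volume : Measure E)
    simp only [Pi.smul_def, smul_eq_mul] at this
    rw [this]
    congr 1
    rw [← ofReal_norm_eq_enorm, Complex.norm_real, Real.norm_of_nonneg
      (Real.rpow_nonneg (adet_pos M).le _)]
  rw [h1]
  have h2 : eLpNorm (fun x => g (M x)) 2 (volume : Measure E)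
      = eLpNorm g 2 (Measure.map M (volume : Measure E)) := by
    rw [eLpNorm_map_measure _ M.continuous.aemeasurable]
    · rfl
    · rw [map_volume_equiv]
      exact hg.1.smul_measure _
  rw [h2, map_volume_equiv, eLpNorm_smul_measure_of_ne_top (by norm_num)]
  rw [ENNReal.ofReal_rpow_of_pos (inv_pos.mpr (adet_pos M)), smul_eq_mul, ← mul_assoc,
    ← ENNReal.ofReal_mul (Real.rpow_nonneg (adet_pos M).le _)]
  have : (adet M) ^ (1 / 2 : ℝ) * (adet M)⁻¹ ^ (1 / (2 : ℝ≥0∞)).toReal = 1 := by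
    rw [Real.inv_rpow (adet_pos M).le]
    have : (1 / (2 : ℝ≥0∞)).toReal = 1 / 2 := by simp
    rw [this]
    exact mul_inv_cancel₀ (Real.rpow_pos_of_pos (adet_pos M) _).ne'
  rw [this]
  simp

theorem memLp_dil (M : E ≃L[ℝ] E) {g : E → ℂ} (hg : MemLp g 2 (volume : Measure E)) :
    MemLp (fun x => (((adet M) ^ (1 / 2 : ℝ) : ℝ) : ℂ) * g (M x)) 2 (volume : Measure E) :=
  (memLp_comp_equiv M hg).const_mul _

/-- the dilation isometry -/
noncomputable def dilₗᵢ (M : E ≃L[ℝ] E) :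
    Lp ℂ 2 (volume : Measure E) →ₗᵢ[ℂ] Lp ℂ 2 (volume : Measure E) where
  toFun g := (memLp_dil M (Lp.memLp g)).toLp _
  map_add' f g := by
    rw [← MemLp.toLp_add]
    apply MemLp.toLp_congr
    filter_upwards [ae_comp_equiv M (Lp.coeFn_add f g)] with x hx
    simp only [Pi.add_apply] at hx ⊢
    rw [hx]
    ring
  map_smul' c f := by
    rw [RingHom.id_apply, ← MemLp.toLp_const_smul]
    apply MemLp.toLp_congr
    filter_upwards [ae_comp_equiv M (Lp.coeFn_smul c f)] with x hx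
    simp only [Pi.smul_apply, smul_eq_mul] at hx ⊢
    rw [hx]
    ring
  norm_map' f := by
    change ‖(memLp_dil M (Lp.memLp f)).toLp _‖ = ‖f‖
    rw [Lp.norm_toLp, eLpNorm_comp_equiv M (Lp.memLp f), Lp.norm_def]

theorem dil_coeFn (M : E ≃L[ℝ] E) (g : Lp ℂ 2 (volume : Measure E)) :
    dilₗᵢ M g =ᵐ[volume] fun x => (((adet M) ^ (1 / 2 : ℝ) : ℝ) : ℂ) * g (M x) :=
  (memLp_dil M (Lp.memLp g)).coeFn_toLp

theorem dil_dil_symm (M : E ≃L[ℝ] E) (g : Lp ℂ 2 (volume : Measure E)) :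
    dilₗᵢ M (dilₗᵢ M⁻¹ g) = g := by
  apply Lp.ext
  filter_upwards [dil_coeFn M (dilₗᵢ M⁻¹ g), ae_comp_equiv M (dil_coeFn M⁻¹ g)] with x h1 h2
  rw [h1, h2, adet_inv]
  have e : (M⁻¹) (M x) = x := M.symm_apply_apply x
  rw [e, ← mul_assoc, ← Complex.ofReal_mul, ← Real.mul_rpow (adet_pos M).le
    (inv_nonneg.mpr (adet_pos M).le), mul_inv_cancel₀ (adet_pos M).ne']
  simp

/-- the dilation unitary -/
noncomputable def dil (M : E ≃L[ℝ] E) :
    Lp ℂ 2 (volume : Measure E) ≃ₗᵢ[ℂ] Lp ℂ 2 (volume : Measure E) :=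
  LinearIsometryEquiv.ofSurjective (dilₗᵢ M) (fun g => ⟨dilₗᵢ M⁻¹ g, dil_dil_symm M g⟩)

theorem dil_apply (M : E ≃L[ℝ] E) (g : Lp ℂ 2 (volume : Measure E)) :
    dil M g =ᵐ[volume] fun x => (((adet M) ^ (1 / 2 : ℝ) : ℝ) : ℂ) * g (M x) :=
  dil_coeFn M g

end Pool.Agent.Lib_helper44
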