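import Mathlib
import Pool.Agent.Lib_helper44.Dilation

open MeasureTheory FourierTransform Real Complex
open scoped ENNReal InnerProductSpace

set_option linter.unusedSectionVars false

namespace Pool.Agent.Lib_helper44

variable {E : Type*} [NormedAddCommGroup E] [InnerProductSpace ℝ E] [FiniteDimensional ℝ E]
  [MeasurableSpace E] [BorelSpace E]

/-- the wavelet family in space -/
noncomputable def xfam (A : E ≃L[ℝ] E) (ψ : E → ℂ) (j : ℤ) (k : E) : E → ℂ :=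
  fun x => ((adet A ^ ((j : ℝ) / 2) : ℝ) : ℂ) * ψ ((A ^ j) x - k)

/-- the wavelet family in frequency -/
noncomputable def ffam (B : E ≃L[ℝ] E) (φ : E → ℂ) (j : ℤ) (k : E) : E → ℂ :=
  fun ξ => ((adet B ^ (-(j : ℝ) / 2) : ℝ) : ℂ) * (chr k ((B ^ (-j)) ξ) * φ ((B ^ (-j)) ξ))

/-- adjoint pairs -/
def IsAdj (A B : E ≃L[ℝ] E) : Prop := ∀ x y, ⟪A x, y⟫_ℝ = ⟪x, B y⟫_ℝ

theorem IsAdj.mul {A B A' B' : E ≃L[ℝ] E} (h : IsAdj A B) (h' : IsAdj A' B') :
    IsAdj (A * A') (B' * B) := by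
  intro x y
  change ⟪A (A' x), y⟫_ℝ = ⟪x, B' (B y)⟫_ℝ
  rw [h, h']

theorem IsAdj.one : IsAdj (1 : E ≃L[ℝ] E) 1 := fun _ _ => rfl

theorem IsAdj.inv {A B : E ≃L[ℝ] E} (h : IsAdj A B) : IsAdj A⁻¹ B⁻¹ := by
  intro x y
  have := h (A⁻¹ x) (B⁻¹ y)
  have e1 : A (A⁻¹ x) = x := A.apply_symm_apply x
  have e2 : B (B⁻¹ y) = y := B.apply_symm_apply y
  rw [e1, e2] at this
  exact this.symm

theorem IsAdj.pow {A B : E ≃L[ℝ] E} (h : IsAdj A B) (n : ℕ) : IsAdj (A ^ n) (B ^ n) := by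
  induction n with
  | zero => simpa using IsAdj.one
  | succ n ih =>
    rw [pow_succ A, pow_succ' B]
    exact ih.mul h

theorem IsAdj.zpow {A B : E ≃L[ℝ] E} (h : IsAdj A B) (j : ℤ) : IsAdj (A ^ j) (B ^ j) := by
  cases j with
  | ofNat n => simpa using h.pow n
  | negSucc n =>
    simp only [zpow_negSucc]
    exact (h.pow (n + 1)).inv

theorem IsAdj.symm {A B : E ≃L[ℝ] E} (h : IsAdj A B) : IsAdj B A := by
  intro x y
  rw [real_inner_comm, ← h, real_inner_comm]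

theorem IsAdj.adet_eq {A B : E ≃L[ℝ] E} (h : IsAdj A B) : adet A = adet B := by
  have h1 : (B.toLinearEquiv : E →ₗ[ℝ] E) = LinearMap.adjoint (A.toLinearEquiv : E →ₗ[ℝ] E) := by
    rw [LinearMap.eq_adjoint_iff]
    intro x y
    exact (h.symm x y)
  unfold adet
  rw [h1]
  let b := stdOrthonormalBasis ℝ E
  rw [← LinearMap.det_toMatrix b.toBasis, ← LinearMap.det_toMatrix b.toBasis,
    LinearMap.toMatrix_adjoint, Matrix.det_conjTranspose]
  simp

theorem equiv_symm_eq_inv (M : E ≃L[ℝ] E) (x : E) : M.symm x = (M⁻¹) x := rfl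

theorem zpow_neg_apply (M : E ≃L[ℝ] E) (j : ℤ) (x : E) : (M ^ j).symm x = (M ^ (-j)) x := by
  rw [zpow_neg]; rfl

theorem memLp_xfam (A : E ≃L[ℝ] E) {ψ : E → ℂ} (hψ : MemLp ψ 2 (volume : Measure E))
    (j : ℤ) (k : E) : MemLp (xfam A ψ j k) 2 (volume : Measure E) := by
  unfold xfam
  apply MemLp.const_mul
  have h1 : MemLp (fun x => ψ (x - k)) 2 (volume : Measure E) :=
    hψ.comp_measurePreserving (measurePreserving_sub_right (volume : Measure E) k)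
  exact memLp_comp_equiv (A ^ j) h1

/-- the Fourier transform of the wavelet family -/
theorem fourier_xfam {A B : E ≃L[ℝ] E} (hAB : IsAdj A B) (g h : Lp ℂ 2 (volume : Measure E))
    (j : ℤ) (k : E) (hh : h =ᵐ[volume] xfam A g j k) :
    (𝓕 h : Lp ℂ 2 (volume : Measure E)) =ᵐ[volume]
      ffam B (𝓕 g : Lp ℂ 2 (volume : Measure E)) j k := by
  set c : ℝ := adet A ^ ((j : ℝ) / 2) with hc
  have hc0 : c ≠ 0 := (Real.rpow_pos_of_pos (adet_pos A) _).ne'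
  set h' : Lp ℂ 2 (volume : Measure E) := ((c : ℂ)⁻¹) • h with hh'
  have e1 : h' =ᵐ[volume] fun x => g ((A ^ j) x - k) := by
    filter_upwards [Lp.coeFn_smul ((c : ℂ)⁻¹) h, hh] with x h1 h2
    rw [h1, Pi.smul_apply, h2, smul_eq_mul]
    unfold xfam
    rw [← hc, ← mul_assoc, inv_mul_cancel₀ (by exact_mod_cast hc0), one_mul]
  have e2 := fourier_affine (A ^ j) (B ^ j) (hAB.zpow j) k g h' e1
  have e3 : h = (c : ℂ) • h' := by
    rw [hh', smul_smul, mul_inv_cancel₀ (by exact_mod_cast hc0), one_smul]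
  have e4 : (𝓕 h : Lp ℂ 2 (volume : Measure E)) = (c : ℂ) • (𝓕 h' : Lp ℂ 2 (volume : Measure E)) := by
    conv_lhs => rw [e3]
    exact (Lp.fourierTransformₗᵢ E ℂ).map_smul (c : ℂ) h'
  rw [e4]
  filter_upwards [Lp.coeFn_smul (c : ℂ) (𝓕 h' : Lp ℂ 2 (volume : Measure E)), e2] with ξ h1 h2
  rw [h1, Pi.smul_apply, h2, smul_eq_mul, ← mul_assoc, ← Complex.ofReal_mul]
  unfold ffam
  rw [zpow_neg_apply]
  congr 2
  rw [hc, ← hAB.adet_eq, adet_zpow, ← Real.rpow_intCast, ← Real.rpow_neg (adet_pos A).le,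
    ← Real.rpow_add (adet_pos A)]
  congr 1
  ring

theorem fourierInv_ffam {A B : E ≃L[ℝ] E} (hAB : IsAdj A B) (g h : Lp ℂ 2 (volume : Measure E))
    (j : ℤ) (k : E) (hh : h =ᵐ[volume] ffam B (𝓕 g : Lp ℂ 2 (volume : Measure E)) j k) :
    (𝓕⁻ h : Lp ℂ 2 (volume : Measure E)) =ᵐ[volume] xfam A g j k := by
  set h0 : Lp ℂ 2 (volume : Measure E) := (memLp_xfam A (Lp.memLp g) j k).toLp _ with hh0
  have e1 : h0 =ᵐ[volume] xfam A g j k := MemLp.coeFn_toLp _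
  have e2 := fourier_xfam hAB g h0 j k e1
  have e3 : (𝓕 h0 : Lp ℂ 2 (volume : Measure E)) = h := by
    apply Lp.ext
    exact e2.trans hh.symm
  rw [← e3, fourierInv_fourier_eq]
  exact e1

theorem exists_hilbertBasis_map {ι : Type*} {H H' : Type*} [NormedAddCommGroup H]
    [InnerProductSpace ℂ H] [NormedAddCommGroup H'] [InnerProductSpace ℂ H']
    (b : HilbertBasis ι ℂ H) (U : H ≃ₗᵢ[ℂ] H') :
    ∃ b' : HilbertBasis ι ℂ H', ∀ i, b' i = U (b i) := by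
  classical
  refine ⟨HilbertBasis.ofRepr (U.symm.trans b.repr), fun i => ?_⟩
  rw [← HilbertBasis.repr_symm_single, ← HilbertBasis.repr_symm_single]
  rfl

/-- transfer of the orthonormal basis property between space and frequency -/
theorem exists_xfam_iff {ι : Type*} (γ : ι → E) {A B : E ≃L[ℝ] E} (hAB : IsAdj A B)
    (g : Lp ℂ 2 (volume : Measure E)) :
    (∃ b : HilbertBasis (ℤ × ι) ℂ (Lp ℂ 2 (volume : Measure E)),
      ∀ j k, b (j, k) =ᵐ[volume] xfam A g j (γ k)) ↔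
    (∃ b : HilbertBasis (ℤ × ι) ℂ (Lp ℂ 2 (volume : Measure E)),
      ∀ j k, b (j, k) =ᵐ[volume] ffam B (𝓕 g : Lp ℂ 2 (volume : Measure E)) j (γ k)) := by
  constructor
  · rintro ⟨b, hb⟩
    obtain ⟨b', hb'⟩ := exists_hilbertBasis_map b (Lp.fourierTransformₗᵢ E ℂ)
    refine ⟨b', fun j k => ?_⟩
    rw [hb']
    exact fourier_xfam hAB g _ j (γ k) (hb j k)
  · rintro ⟨b, hb⟩
    obtain ⟨b', hb'⟩ := exists_hilbertBasis_map b (Lp.fourierTransformₗᵢ E ℂ).symm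
    refine ⟨b', fun j k => ?_⟩
    rw [hb']
    exact fourierInv_ffam hAB g _ j (γ k) (hb j k)

end Pool.Agent.Lib_helper44
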