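import Mathlib
import Pool.Agent.Lib_helper44.Transfer

open MeasureTheory Filter Topology Complex
open scoped ENNReal NNReal ComplexConjugate InnerProductSpace

set_option linter.unusedSectionVars false

namespace Pool.Agent.Lib_helper44

variable {α : Type*} {mα : MeasurableSpace α} {μ : Measure α}
variable {β : Type*} {mβ : MeasurableSpace β} {ν : Measure β}
variable {ι κ : Type*}

/-- orthonormal basis property written with integrals -/
structure IsONB [DecidableEq ι] (μ : Measure α) (F : ι → α → ℂ) : Prop where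
  memLp : ∀ i, MemLp (F i) 2 μ
  inner : ∀ i j, ∫ x, conj (F i x) * F j x ∂μ = if i = j then 1 else 0
  total : ∀ g : α → ℂ, MemLp g 2 μ → (∀ i, ∫ x, conj (F i x) * g x ∂μ = 0) → g =ᵐ[μ] 0

theorem inner_Lp_eq (f g : Lp ℂ 2 μ) : ⟪f, g⟫_ℂ = ∫ x, conj (f x) * g x ∂μ := by
  rw [L2.inner_def]
  congr 1
  ext x
  rw [RCLike.inner_apply']

theorem inner_toLp_eq {f g : α → ℂ} (hf : MemLp f 2 μ) (hg : MemLp g 2 μ) :
    ⟪hf.toLp f, hg.toLp g⟫_ℂ = ∫ x, conj (f x) * g x ∂μ := by
  rw [inner_Lp_eq]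
  apply integral_congr_ae
  filter_upwards [hf.coeFn_toLp, hg.coeFn_toLp] with x h1 h2
  rw [h1, h2]

theorem IsONB.exists_hilbertBasis [DecidableEq ι] {F : ι → α → ℂ} (h : IsONB μ F) :
    ∃ b : HilbertBasis ι ℂ (Lp ℂ 2 μ), ∀ i, b i =ᵐ[μ] F i := by
  let v : ι → Lp ℂ 2 μ := fun i => (h.memLp i).toLp (F i)
  have hv : Orthonormal ℂ v := by
    rw [orthonormal_iff_ite]
    intro i j
    rw [inner_toLp_eq]
    exact h.inner i j
  have hbot : (Submodule.span ℂ (Set.range v))ᗮ = ⊥ := by
    rw [Submodule.eq_bot_iff]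
    intro g hg
    rw [Submodule.mem_orthogonal] at hg
    have h0 := h.total g (Lp.memLp g) (fun i => by
      have := hg (v i) (Submodule.subset_span ⟨i, rfl⟩)
      rw [inner_Lp_eq] at this
      rw [← this]
      apply integral_congr_ae
      filter_upwards [(h.memLp i).coeFn_toLp] with x h1
      rw [h1])
    apply Lp.ext
    filter_upwards [h0, Lp.coeFn_zero ℂ 2 μ] with x h1 h2
    rw [h1, h2]
  refine ⟨HilbertBasis.mkOfOrthogonalEqBot hv hbot, fun i => ?_⟩
  have : (HilbertBasis.mkOfOrthogonalEqBot hv hbot) i = v i := by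
    rw [HilbertBasis.coe_mkOfOrthogonalEqBot]
  rw [this]
  exact (h.memLp i).coeFn_toLp

theorem isONB_of_hilbertBasis [DecidableEq ι] {F : ι → α → ℂ}
    (b : HilbertBasis ι ℂ (Lp ℂ 2 μ)) (hb : ∀ i, b i =ᵐ[μ] F i) : IsONB μ F := by
  refine ⟨fun i => (memLp_congr_ae (hb i)).mp (Lp.memLp (b i)), fun i j => ?_, fun g hg h => ?_⟩
  · have h1 := orthonormal_iff_ite.mp b.orthonormal i j
    rw [inner_Lp_eq] at h1
    rw [← h1]
    apply integral_congr_ae
    filter_upwards [hb i, hb j] with x h1 h2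
    rw [h1, h2]
  · have h1 : ∀ i, ⟪b i, hg.toLp g⟫_ℂ = 0 := by
      intro i
      rw [inner_Lp_eq, ← h i]
      apply integral_congr_ae
      filter_upwards [hb i, hg.coeFn_toLp] with x h1 h2
      rw [h1, h2]
    have h2 : hg.toLp g = 0 := by
      have h3 : b.repr (hg.toLp g) = 0 := by
        ext i
        rw [HilbertBasis.repr_apply_apply, h1]
        rfl
      exact b.repr.map_eq_zero_iff.mp h3
    have h3 := hg.coeFn_toLp
    rw [h2] at h3
    exact h3.symm.trans (Lp.coeFn_zero ℂ 2 μ)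

theorem IsONB.congr [DecidableEq ι] {F G : ι → α → ℂ} (h : IsONB μ F)
    (hFG : ∀ i, F i =ᵐ[μ] G i) : IsONB μ G := by
  refine ⟨fun i => (memLp_congr_ae (hFG i)).mp (h.memLp i), fun i j => ?_, fun g hg h' => ?_⟩
  · rw [← h.inner i j]
    apply integral_congr_ae
    filter_upwards [hFG i, hFG j] with x h1 h2
    rw [h1, h2]
  · apply h.total g hg
    intro i
    rw [← h' i]
    apply integral_congr_ae
    filter_upwards [hFG i] with x h1
    rw [h1]

theorem IsONB.reindex [DecidableEq ι] [DecidableEq κ] {F : ι → α → ℂ} (h : IsONB μ F)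
    (e : κ ≃ ι) : IsONB μ (fun k => F (e k)) := by
  refine ⟨fun i => h.memLp _, fun i j => ?_, fun g hg h' => ?_⟩
  · rw [h.inner (e i) (e j)]
    simp only [EmbeddingLike.apply_eq_iff_eq]
  · apply h.total g hg
    intro i
    have := h' (e.symm i)
    rwa [e.apply_symm_apply] at this

/-- transport along a measurable equivalence multiplying the measure by a constant -/
theorem IsONB.transport [DecidableEq ι] {F : ι → α → ℂ} (h : IsONB μ F) (τ : α ≃ᵐ β)
    {C : ℝ} (hC : 0 < C) (hτ : Measure.map τ μ = ENNReal.ofReal C • ν) :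
    IsONB ν (fun i y => ((C ^ (1 / 2 : ℝ) : ℝ) : ℂ) * F i (τ.symm y)) := by
  have hC0 : ENNReal.ofReal C ≠ 0 := by simpa using hC
  have hCt : ENNReal.ofReal C ≠ ⊤ := ENNReal.ofReal_ne_top
  have hν : ν = ENNReal.ofReal C⁻¹ • Measure.map τ μ := by
    rw [hτ, smul_smul, ← ENNReal.ofReal_mul (inv_nonneg.mpr hC.le), inv_mul_cancel₀ hC.ne',
      ENNReal.ofReal_one, one_smul]
  have hint : ∀ G : β → ℂ, ∫ y, G y ∂ν = C⁻¹ • ∫ x, G (τ x) ∂μ := by
    intro G
    rw [hν, integral_smul_measure, integral_map_equiv, ENNReal.toReal_ofReal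
      (inv_nonneg.mpr hC.le)]
  have hmem : ∀ {f : α → ℂ}, MemLp f 2 μ → MemLp (fun y => f (τ.symm y)) 2 ν := by
    intro f hf
    rw [hν]
    apply MemLp.smul_measure _ ENNReal.ofReal_ne_top
    have h1 : MemLp ((fun y => f (τ.symm y)) ∘ τ) 2 μ := by
      have : (fun y => f (τ.symm y)) ∘ τ = f := by
        ext x; simp
      rw [this]; exact hf
    refine (memLp_map_measure_iff ?_ τ.measurable.aemeasurable).mpr h1
    have h3 : AEStronglyMeasurable (fun y => f (τ.symm y)) (Measure.map τ μ) := by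
      have h4 : Measure.map τ.symm (Measure.map τ μ) = μ := by
        rw [Measure.map_map τ.symm.measurable τ.measurable]
        simp
      have h5 : AEStronglyMeasurable f (Measure.map τ.symm (Measure.map τ μ)) := by
        rw [h4]; exact hf.1
      exact h5.comp_measurable τ.symm.measurable
    exact h3
  refine ⟨fun i => (hmem (h.memLp i)).const_mul _, fun i j => ?_, fun g hg H => ?_⟩
  · rw [hint, ← h.inner i j]
    have e1 : ∀ x, conj (((C ^ (1 / 2 : ℝ) : ℝ) : ℂ) * F i (τ.symm (τ x))) *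
        (((C ^ (1 / 2 : ℝ) : ℝ) : ℂ) * F j (τ.symm (τ x)))
        = (C : ℂ) * (conj (F i x) * F j x) := by
      intro x
      rw [MeasurableEquiv.symm_apply_apply, map_mul, Complex.conj_ofReal]
      have : ((C ^ (1 / 2 : ℝ) : ℝ) : ℂ) * ((C ^ (1 / 2 : ℝ) : ℝ) : ℂ) = (C : ℂ) := by
        rw [← Complex.ofReal_mul, ← Real.rpow_add hC]
        norm_num
      rw [← this]
      ring
    simp only [e1]
    rw [integral_const_mul, Complex.real_smul, ← mul_assoc, ← Complex.ofReal_mul,
      inv_mul_cancel₀ hC.ne', Complex.ofReal_one, one_mul]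
  · have h1 : MemLp (fun x => g (τ x)) 2 μ := by
      have h2 : MemLp g 2 (Measure.map τ μ) := by
        rw [hτ]; exact hg.smul_measure ENNReal.ofReal_ne_top
      exact (memLp_map_measure_iff h2.1 τ.measurable.aemeasurable).mp h2
    have h2 : (fun x => g (τ x)) =ᵐ[μ] 0 := by
      apply h.total _ h1
      intro i
      have := H i
      rw [hint] at this
      have h3 := (smul_eq_zero.mp this).resolve_left (inv_pos.mpr hC).ne'
      simp only [map_mul, Complex.conj_ofReal, MeasurableEquiv.symm_apply_apply, mul_assoc] at h3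
      rw [integral_const_mul] at h3
      exact (mul_eq_zero.mp h3).resolve_left
        (Complex.ofReal_ne_zero.mpr (Real.rpow_pos_of_pos hC _).ne')
    have h3 : g =ᵐ[Measure.map τ μ] 0 := by
      have h4 := (τ.measurableEmbedding.ae_map_iff (p := fun y => g y = 0) (μ := μ)).mpr h2
      exact h4
    rw [hν]
    exact Measure.ae_smul_measure h3 _

end Pool.Agent.Lib_helper44
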