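import Mathlib

open MeasureTheory FourierTransform
open scoped ENNReal InnerProductSpace Matrix

namespace Pool.Agent.Lib_helper44

/-- Euclidean space `ℝⁿ`. -/
abbrev Sp (n : ℕ) : Type := EuclideanSpace ℝ (Fin n)

/-- Lebesgue measure on `ℝⁿ`. -/
noncomputable abbrev leb (n : ℕ) : Measure (Sp n) := volume

/-- The Hilbert space `L²(ℝⁿ)` of complex valued functions. -/
abbrev L2 (n : ℕ) : Type := Lp ℂ 2 (leb n)

/-- Additive subgroups (`ℤ`-submodules) of `ℝⁿ`. -/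
abbrev Lat (n : ℕ) : Type := Submodule ℤ (Sp n)

/-- The image `A x` of the column vector `x` under the matrix `A`. -/
noncomputable def act {n : ℕ} (A : GL (Fin n) ℝ) (x : Sp n) : Sp n :=
  WithLp.toLp 2 ((A : Matrix (Fin n) (Fin n) ℝ) *ᵥ x.ofLp)

/-- The image `Aᵀ x` of the column vector `x` under the transpose of the matrix `A`. -/
noncomputable def actT {n : ℕ} (A : GL (Fin n) ℝ) (x : Sp n) : Sp n :=
  WithLp.toLp 2 ((A : Matrix (Fin n) (Fin n) ℝ)ᵀ *ᵥ x.ofLp)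

/-- The function `f_{j,k}(x) = |det A|^{j/2} f(A^j x - k)`. -/
noncomputable def wav {n : ℕ} (A : GL (Fin n) ℝ) (f : Sp n → ℂ) (j : ℤ) (k : Sp n) (x : Sp n) : ℂ :=
  ((|(A : Matrix (Fin n) (Fin n) ℝ).det| ^ ((j : ℝ) / 2) : ℝ) : ℂ) * f (act (A ^ j) x - k)

/-- The functions `F i` are (almost everywhere) the members of an orthonormal (Hilbert) basis of
`L²(ℝⁿ)`. -/
def IsHilbertBasisOf {n : ℕ} {ι : Type} (F : ι → Sp n → ℂ) : Prop :=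
  ∃ b : HilbertBasis ι ℂ (L2 n), ∀ i, b i =ᵐ[leb n] F i

/-- `ψ ∈ L²(ℝⁿ)` is an orthonormal wavelet associated with `(A, Γ)`: the system
`ψ_{j,k}(x) = |det A|^{j/2} ψ(A^j x - k)`, `j ∈ ℤ`, `k ∈ Γ`, is an orthonormal basis of `L²(ℝⁿ)`. -/
def IsOrthonormalWavelet {n : ℕ} (A : GL (Fin n) ℝ) (Γ : Lat n) (ψ : L2 n) : Prop :=
  IsHilbertBasisOf (fun i : ℤ × Γ => wav A ψ i.1 i.2)

/-- There is an orthonormal wavelet associated with `(A, Γ)`. -/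
def HasWavelet {n : ℕ} (A : GL (Fin n) ℝ) (Γ : Lat n) : Prop :=
  ∃ ψ : L2 n, IsOrthonormalWavelet A Γ ψ

/-- `v` lies in the dual lattice `Γ* = {ξ : ⟪γ, ξ⟫ ∈ ℤ for all γ ∈ Γ}`. -/
def InDual {n : ℕ} (Γ : Lat n) (v : Sp n) : Prop := ∀ γ ∈ Γ, ∃ q : ℤ, ⟪γ, v⟫_ℝ = q

/-- `v` is a nonzero vector of the dual lattice `Γ*` with `Aᵀ v = μ v`. -/
def DualEigen {n : ℕ} (A : GL (Fin n) ℝ) (Γ : Lat n) (v : Sp n) (μ : ℝ) : Prop :=
  v ≠ 0 ∧ InDual Γ v ∧ actT A v = μ • v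

/-- The unitary Fourier transform `ψ̂` of `ψ ∈ L²(ℝⁿ)` (Mathlib's). -/
noncomputable def FT {n : ℕ} (ψ : L2 n) : L2 n := 𝓕 ψ

/-- `ψ` is minimally supported frequency: `|ψ̂| = c · 1_W` almost everywhere for some set `W` and
some constant `c` (the constant is `1` for lattices of covolume `1`; allowing every `c` covers all
normalisations). -/
def IsMSF {n : ℕ} (ψ : L2 n) : Prop :=
  ∃ (W : Set (Sp n)) (c : ℝ), (fun ξ => ‖FT ψ ξ‖) =ᵐ[leb n] W.indicator (fun _ => c)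

/-- The Calderon sum `∑_{j ∈ ℤ} |ψ̂((Aᵀ)^j ξ)|²`, with values in `[0, ∞]`. -/
noncomputable def calderonSum {n : ℕ} (A : GL (Fin n) ℝ) (ψ : L2 n) (ξ : Sp n) : ℝ≥0∞ :=
  ∑' j : ℤ, ‖FT ψ (actT (A ^ j) ξ)‖ₑ ^ 2

/-- The Calderon sum of `ψ` is at least `c` almost everywhere. -/
def CalderonAtLeast {n : ℕ} (A : GL (Fin n) ℝ) (ψ : L2 n) (c : ℝ≥0∞) : Prop :=
  ∀ᵐ ξ ∂(leb n), c ≤ calderonSum A ψ ξ

end Pool.Agent.Lib_helper44
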