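import Mathlib
import Pool.Agent.Lib_helper44.WaveletDef
import Pool.Agent.Lib_helper44.ONB

open MeasureTheory FourierTransform Complex
open scoped ENNReal InnerProductSpace ComplexConjugate

set_option linter.unusedSectionVars false

namespace Pool.Agent.Lib_helper44

variable {n : ℕ}

/-- the continuous linear automorphism of Euclidean space given by an invertible matrix -/
noncomputable def glE : GL (Fin n) ℝ →* (EuclideanSpace ℝ (Fin n) ≃L[ℝ] EuclideanSpace ℝ (Fin n)) :=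
  (ContinuousLinearEquiv.unitsEquiv ℝ (EuclideanSpace ℝ (Fin n))).toMonoidHom.comp
    (Units.map (Matrix.toEuclideanCLM (n := Fin n) (𝕜 := ℝ)).toRingEquiv.toRingHom.toMonoidHom)

theorem glE_apply (A : GL (Fin n) ℝ) (x : EuclideanSpace ℝ (Fin n)) :
    glE A x = Matrix.toEuclideanLin (A : Matrix (Fin n) (Fin n) ℝ) x := rfl

theorem adet_glE (A : GL (Fin n) ℝ) : adet (glE A) = |(A : Matrix (Fin n) (Fin n) ℝ).det| := by
  unfold adet
  have h : ((glE A).toLinearEquiv : EuclideanSpace ℝ (Fin n) →ₗ[ℝ] EuclideanSpace ℝ (Fin n))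
      = Matrix.toLin (PiLp.basisFun 2 ℝ (Fin n)) (PiLp.basisFun 2 ℝ (Fin n))
        (A : Matrix (Fin n) (Fin n) ℝ) := rfl
  rw [h, LinearMap.det_toLin]

/-- the transpose as an element of the general linear group -/
noncomputable def glT (A : GL (Fin n) ℝ) : GL (Fin n) ℝ :=
  ⟨(A : Matrix (Fin n) (Fin n) ℝ).transpose, ((A⁻¹ : GL (Fin n) ℝ) : Matrix (Fin n) (Fin n) ℝ).transpose,
    by rw [← Matrix.transpose_mul, ← Units.val_mul, inv_mul_cancel, Units.val_one,
      Matrix.transpose_one],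
    by rw [← Matrix.transpose_mul, ← Units.val_mul, mul_inv_cancel, Units.val_one,
      Matrix.transpose_one]⟩

theorem isAdj_glE (A : GL (Fin n) ℝ) : IsAdj (glE A) (glE (glT A)) := by
  intro x y
  rw [glE_apply, glE_apply]
  simp only [EuclideanSpace.inner_eq_star_dotProduct, Matrix.toLpLin_apply, star_trivial,
    glT]
  rw [Matrix.dotProduct_mulVec, Matrix.mulVec_transpose]

theorem act_eq (A : GL (Fin n) ℝ) (x : EuclideanSpace ℝ (Fin n)) : act A x = glE A x := rfl

theorem actT_eq (A : GL (Fin n) ℝ) (x : EuclideanSpace ℝ (Fin n)) : actT A x = glE (glT A) x := rfl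

theorem isOrthonormalWavelet_iff_xfam (A : GL (Fin n) ℝ)
    (Γ : Submodule ℤ (EuclideanSpace ℝ (Fin n)))
    (ψ : Lp ℂ 2 (volume : Measure (EuclideanSpace ℝ (Fin n)))) :
    IsOrthonormalWavelet A Γ ψ ↔
      ∃ b : HilbertBasis (ℤ × Γ) ℂ (Lp ℂ 2 (volume : Measure (EuclideanSpace ℝ (Fin n)))),
      ∀ j k, b (j, k) =ᵐ[volume] xfam (glE A) ψ j (k : EuclideanSpace ℝ (Fin n)) := by
  unfold IsOrthonormalWavelet IsHilbertBasisOf wav xfam
  simp only [adet_glE, ← map_zpow, act_eq, Prod.forall]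

/-- reformulation on the frequency side -/
theorem isOrthonormalWavelet_iff_ffam (A : GL (Fin n) ℝ)
    (Γ : Submodule ℤ (EuclideanSpace ℝ (Fin n)))
    (ψ : Lp ℂ 2 (volume : Measure (EuclideanSpace ℝ (Fin n)))) [DecidableEq Γ] :
    IsOrthonormalWavelet A Γ ψ ↔
      IsONB (volume : Measure (EuclideanSpace ℝ (Fin n))) (fun (i : ℤ × Γ) =>
        ffam (glE (glT A)) (𝓕 ψ : Lp ℂ 2 (volume : Measure (EuclideanSpace ℝ (Fin n)))) i.1
          (i.2 : EuclideanSpace ℝ (Fin n))) := by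
  rw [isOrthonormalWavelet_iff_xfam, exists_xfam_iff (fun k : Γ => (k : EuclideanSpace ℝ (Fin n)))
    (isAdj_glE A) ψ]
  constructor
  · rintro ⟨b, hb⟩
    exact isONB_of_hilbertBasis b (fun i => hb i.1 i.2)
  · intro h
    obtain ⟨b, hb⟩ := h.exists_hilbertBasis
    exact ⟨b, fun j k => hb (j, k)⟩

end Pool.Agent.Lib_helper44
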