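import Mathlib

open MeasureTheory Filter Topology
open scoped ENNReal NNReal BoundedContinuousFunction

set_option linter.unusedSectionVars false

namespace Pool.Agent.Lib_helper44

variable {X : Type*} [MeasurableSpace X] {μ : Measure X} {d : Type*} [Fintype d]

theorem integrable_cont_comp {Θ : X → ℂ} (hΘ : Integrable Θ μ) {π : X → UnitAddTorus d}
    (hπ : Measurable π) (F : C(UnitAddTorus d, ℂ)) :
    Integrable (fun x => F (π x) * Θ x) μ := by
  refine hΘ.bdd_mul (c := ‖F‖) ?_ ?_
  · exact (F.continuous.measurable.comp hπ).aestronglyMeasurable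
  · filter_upwards with x
    exact F.norm_coe_le_norm (π x)

/-- If the push forward of `Θ μ` to the torus has vanishing Fourier coefficients, it vanishes
against continuous functions. -/
theorem integral_cont_eq_zero {Θ : X → ℂ} (hΘ : Integrable Θ μ) {π : X → UnitAddTorus d}
    (hπ : Measurable π)
    (H : ∀ n : d → ℤ, ∫ x, UnitAddTorus.mFourier n (π x) * Θ x ∂μ = 0)
    (F : C(UnitAddTorus d, ℂ)) : ∫ x, F (π x) * Θ x ∂μ = 0 := by
  let L : C(UnitAddTorus d, ℂ) →ₗ[ℂ] ℂ :=
    { toFun := fun F => ∫ x, F (π x) * Θ x ∂μ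
      map_add' := fun F G => by
        simp only [ContinuousMap.add_apply, add_mul]
        exact integral_add (integrable_cont_comp hΘ hπ F) (integrable_cont_comp hΘ hπ G)
      map_smul' := fun c F => by
        simp only [ContinuousMap.smul_apply, smul_eq_mul, mul_assoc, RingHom.id_apply]
        exact integral_const_mul _ _ }
  have hL : Continuous L := by
    apply AddMonoidHomClass.continuous_of_bound L (∫ x, ‖Θ x‖ ∂μ)
    intro F
    calc ‖∫ x, F (π x) * Θ x ∂μ‖ ≤ ∫ x, ‖F (π x) * Θ x‖ ∂μ := norm_integral_le_integral_norm _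
      _ ≤ ∫ x, ‖F‖ * ‖Θ x‖ ∂μ := by
          apply integral_mono (integrable_cont_comp hΘ hπ F).norm (hΘ.norm.const_mul _)
          intro x
          simp only [norm_mul]
          gcongr
          exact F.norm_coe_le_norm (π x)
      _ = (∫ x, ‖Θ x‖ ∂μ) * ‖F‖ := by rw [integral_const_mul, mul_comm]
  have h1 : (⊤ : Submodule ℂ C(UnitAddTorus d, ℂ)) ≤ LinearMap.ker L := by
    rw [← UnitAddTorus.span_mFourier_closure_eq_top]
    apply Submodule.topologicalClosure_minimal
    · rw [Submodule.span_le]
      rintro _ ⟨n, rfl⟩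
      exact H n
    · exact isClosed_singleton.preimage hL
  exact h1 (Submodule.mem_top : F ∈ ⊤)

theorem setIntegral_preimage_eq_zero {Θ : X → ℂ} (hΘ : Integrable Θ μ) {π : X → UnitAddTorus d}
    (hπ : Measurable π)
    (H : ∀ n : d → ℤ, ∫ x, UnitAddTorus.mFourier n (π x) * Θ x ∂μ = 0)
    {S : Set (UnitAddTorus d)} (hS : MeasurableSet S) : ∫ x in π ⁻¹' S, Θ x ∂μ = 0 := by
  have hclosed : ∀ C : Set (UnitAddTorus d), IsClosed C → ∫ x in π ⁻¹' C, Θ x ∂μ = 0 := by
    intro C hC
    have h1 : ∀ n : ℕ, ∫ x, ((hC.apprSeq n (π x) : ℝ) : ℂ) * Θ x ∂μ = 0 := by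
      intro n
      exact integral_cont_eq_zero hΘ hπ H
        ⟨fun y => ((hC.apprSeq n y : ℝ) : ℂ), by fun_prop⟩
    have h2 : Tendsto (fun n : ℕ => ∫ x, ((hC.apprSeq n (π x) : ℝ) : ℂ) * Θ x ∂μ) atTop
        (𝓝 (∫ x, (π ⁻¹' C).indicator Θ x ∂μ)) := by
      apply tendsto_integral_of_dominated_convergence (fun x => ‖Θ x‖)
      · intro n
        apply AEStronglyMeasurable.mul _ hΘ.1
        have : Continuous (fun y => ((hC.apprSeq n y : ℝ) : ℂ)) := by fun_prop
        exact (this.measurable.comp hπ).aestronglyMeasurable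
      · exact hΘ.norm
      · intro n
        filter_upwards with x
        rw [norm_mul, Complex.norm_real, Real.norm_of_nonneg (NNReal.coe_nonneg _)]
        have := HasOuterApproxClosed.apprSeq_apply_le_one hC n (π x)
        have h3 : ((hC.apprSeq n (π x) : ℝ≥0) : ℝ) ≤ 1 := by exact_mod_cast this
        exact mul_le_of_le_one_left (norm_nonneg _) h3
      · filter_upwards with x
        have h4 := tendsto_pi_nhds.1 (HasOuterApproxClosed.tendsto_apprSeq hC) (π x)
        have h5 : Tendsto (fun n : ℕ => ((hC.apprSeq n (π x) : ℝ) : ℂ)) atTop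
            (𝓝 (((C.indicator (fun _ => (1 : ℝ≥0)) (π x) : ℝ≥0) : ℝ) : ℂ)) := by
          exact (Complex.continuous_ofReal.tendsto _).comp
            ((NNReal.continuous_coe.tendsto _).comp h4)
        have h6 := h5.mul_const (Θ x)
        convert h6 using 2
        by_cases hx : π x ∈ C
        · rw [Set.indicator_of_mem (by exact hx), Set.indicator_of_mem hx]
          simp
        · rw [Set.indicator_of_notMem (by exact hx), Set.indicator_of_notMem hx]
          simp
    simp only [h1] at h2
    have h3 := tendsto_nhds_unique h2 tendsto_const_nhds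
    rw [integral_indicator (hπ hC.measurableSet)] at h3
    exact h3
  have hb : (inferInstance : MeasurableSpace (UnitAddTorus d)) =
      MeasurableSpace.generateFrom {s : Set (UnitAddTorus d) | IsClosed s} := by
    rw [← borel_eq_generateFrom_isClosed]
    exact BorelSpace.measurable_eq
  induction S, hS using MeasurableSpace.induction_on_inter hb isPiSystem_isClosed with
  | empty => simp
  | basic t ht => exact hclosed t ht
  | compl t ht ih =>
    have h1 : ∫ x, Θ x ∂μ = 0 := by
      have := H 0
      rw [UnitAddTorus.mFourier_zero] at this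
      simpa using this
    have h2 := integral_add_compl (hπ ht) hΘ
    rw [ih, h1, zero_add] at h2
    exact h2
  | iUnion f hd hm ih =>
    rw [Set.preimage_iUnion, integral_iUnion (fun i => hπ (hm i))
      (fun i j hij => (hd hij).preimage π) hΘ.integrableOn]
    simp [ih]

end Pool.Agent.Lib_helper44
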