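import Mathlib
import Pool.Agent.Lib_helper44.PushUnique

open MeasureTheory Filter Topology
open scoped ENNReal NNReal BoundedContinuousFunction

set_option linter.unusedSectionVars false

namespace Pool.Agent.Lib_helper44

/-- Lusin separation: a saturated measurable set is a preimage of a measurable set. -/
theorem exists_preimage_of_saturated {X Y : Type*} [MeasurableSpace X] [StandardBorelSpace X]
    [TopologicalSpace Y] [T2Space Y] [SecondCountableTopology Y] [MeasurableSpace Y] [BorelSpace Y]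
    {π : X → Y} (hπ : Measurable π) {A : Set X} (hA : MeasurableSet A)
    (hsat : ∀ x ∈ A, ∀ y, π x = π y → y ∈ A) : ∃ S : Set Y, MeasurableSet S ∧ A = π ⁻¹' S := by
  have h1 : AnalyticSet (π '' A) := hA.analyticSet_image hπ
  have h2 : AnalyticSet (π '' Aᶜ) := hA.compl.analyticSet_image hπ
  have hd : Disjoint (π '' A) (π '' Aᶜ) := by
    rw [Set.disjoint_left]
    rintro _ ⟨x, hx, rfl⟩ ⟨y, hy, hxy⟩
    exact hy (hsat x hx y hxy.symm)
  obtain ⟨u, hu1, hu2, hu3⟩ := h1.measurablySeparable h2 hd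
  refine ⟨u, hu3, ?_⟩
  ext x
  constructor
  · intro hx
    exact hu1 ⟨x, hx, rfl⟩
  · intro hx
    by_contra hxA
    exact Set.disjoint_left.1 hu2 ⟨x, hxA, rfl⟩ hx

variable {X : Type*} [MeasurableSpace X] [StandardBorelSpace X] {μ : Measure X}
  {d : Type*} [Fintype d]

theorem setIntegral_saturated_eq_zero {Θ : X → ℂ} (hΘ : Integrable Θ μ) {π : X → UnitAddTorus d}
    (hπ : Measurable π)
    (H : ∀ n : d → ℤ, ∫ x, UnitAddTorus.mFourier n (π x) * Θ x ∂μ = 0)
    {A : Set X} (hA : MeasurableSet A) (hsat : ∀ x ∈ A, ∀ y, π x = π y → y ∈ A) :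
    ∫ x in A, Θ x ∂μ = 0 := by
  obtain ⟨S, hS, rfl⟩ := exists_preimage_of_saturated hπ hA hsat
  exact setIntegral_preimage_eq_zero hΘ hπ H hS

theorem integral_saturated_eq_zero {Θ : X → ℂ} (hΘ : Integrable Θ μ) {π : X → UnitAddTorus d}
    (hπ : Measurable π)
    (H : ∀ n : d → ℤ, ∫ x, UnitAddTorus.mFourier n (π x) * Θ x ∂μ = 0)
    {m : X → ℂ} (hm : Measurable m) {C : ℝ} (hC : ∀ x, ‖m x‖ ≤ C)
    (hsat : ∀ x y, π x = π y → m x = m y) :
    ∫ x, m x * Θ x ∂μ = 0 := by
  have hint : ∀ σ : SimpleFunc ℂ ℂ, Integrable (fun x => σ (m x) * Θ x) μ := by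
    intro σ
    obtain ⟨D, hD⟩ := σ.exists_forall_norm_le
    exact hΘ.bdd_mul (c := D) ((σ.measurable.comp hm).aestronglyMeasurable)
      (Eventually.of_forall fun x => hD (m x))
  have h1 : ∀ σ : SimpleFunc ℂ ℂ, ∫ x, σ (m x) * Θ x ∂μ = 0 := by
    intro σ
    induction σ using SimpleFunc.induction with
    | @const c s hs =>
      have e : ∀ x, (SimpleFunc.piecewise s hs (SimpleFunc.const ℂ c) (SimpleFunc.const ℂ 0)) (m x)
          * Θ x = (m ⁻¹' s).indicator (fun x => c * Θ x) x := by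
        intro x
        by_cases hx : m x ∈ s
        · rw [Set.indicator_of_mem (by exact hx)]
          simp [hx]
        · rw [Set.indicator_of_notMem (by exact hx)]
          simp [hx]
      simp only [e]
      rw [integral_indicator (hm hs), integral_const_mul,
        setIntegral_saturated_eq_zero hΘ hπ H (hm hs), mul_zero]
      intro x hx y hxy
      change m y ∈ s
      rw [← hsat x y hxy]
      exact hx
    | @add f g hd hf hg =>
      simp only [SimpleFunc.coe_add, Pi.add_apply, add_mul]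
      rw [integral_add (hint f) (hint g), hf, hg, add_zero]
  let σ : ℕ → SimpleFunc ℂ ℂ := SimpleFunc.approxOn id measurable_id Set.univ 0 trivial
  have hlim : Tendsto (fun n => ∫ x, σ n (m x) * Θ x ∂μ) atTop (𝓝 (∫ x, m x * Θ x ∂μ)) := by
    apply tendsto_integral_of_dominated_convergence (fun x => (C + C) * ‖Θ x‖)
    · intro n
      exact (hint (σ n)).1
    · exact hΘ.norm.const_mul _
    · intro n
      filter_upwards with x
      rw [norm_mul]
      gcongr
      have := SimpleFunc.norm_approxOn_zero_le (f := (id : ℂ → ℂ)) measurable_id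
        (s := Set.univ) trivial (m x) n
      exact this.trans (add_le_add (hC x) (hC x))
    · filter_upwards with x
      apply Tendsto.mul_const
      exact SimpleFunc.tendsto_approxOn (f := (id : ℂ → ℂ)) measurable_id
        (s := Set.univ) (y₀ := 0) trivial (by simp)
  simp only [h1] at hlim
  exact (tendsto_nhds_unique hlim tendsto_const_nhds)

/-- uniqueness when `π` is injective -/
theorem ae_eq_zero_of_injective {Θ : X → ℂ} (hΘ : Integrable Θ μ) {π : X → UnitAddTorus d}
    (hπ : Measurable π) (hinj : Function.Injective π)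
    (H : ∀ n : d → ℤ, ∫ x, UnitAddTorus.mFourier n (π x) * Θ x ∂μ = 0) : Θ =ᵐ[μ] 0 := by
  apply hΘ.ae_eq_zero_of_forall_setIntegral_eq_zero
  intro s hs _
  exact setIntegral_saturated_eq_zero hΘ hπ H hs (fun x hx y hxy => by rwa [← hinj hxy])

/-- uniqueness when `π` is injective on a measurable set -/
theorem ae_eq_zero_of_injOn {s : Set X} (hs : MeasurableSet s) {Θ : X → ℂ}
    (hΘ : IntegrableOn Θ s μ) {π : X → UnitAddTorus d}
    (hπ : Measurable π) (hinj : Set.InjOn π s)
    (H : ∀ n : d → ℤ, ∫ x in s, UnitAddTorus.mFourier n (π x) * Θ x ∂μ = 0) :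
    Θ =ᵐ[μ.restrict s] 0 := by
  apply Integrable.ae_eq_zero_of_forall_setIntegral_eq_zero hΘ
  intro t ht _
  have h1 : AnalyticSet (π '' (s ∩ t)) := (hs.inter ht).analyticSet_image hπ
  have h2 : AnalyticSet (π '' (s \ t)) := (hs.diff ht).analyticSet_image hπ
  have hd : Disjoint (π '' (s ∩ t)) (π '' (s \ t)) := by
    rw [Set.disjoint_left]
    rintro _ ⟨x, hx, rfl⟩ ⟨y, hy, hxy⟩
    have := hinj hy.1 hx.1 hxy
    rw [this] at hy
    exact hy.2 hx.2
  obtain ⟨u, hu1, hu2, hu3⟩ := h1.measurablySeparable h2 hd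
  have h3 := setIntegral_preimage_eq_zero hΘ hπ H hu3
  have h4 : (μ.restrict s).restrict (π ⁻¹' u) = (μ.restrict s).restrict t := by
    rw [Measure.restrict_restrict (hπ hu3), Measure.restrict_restrict ht]
    congr 1
    ext x
    constructor
    · rintro ⟨hx1, hx2⟩
      refine ⟨?_, hx2⟩
      by_contra hxt
      exact Set.disjoint_left.1 hu2 ⟨x, ⟨hx2, hxt⟩, rfl⟩ hx1
    · rintro ⟨hx1, hx2⟩
      exact ⟨hu1 ⟨x, ⟨hx2, hx1⟩, rfl⟩, hx2⟩
  rw [← h4]
  exact h3

end Pool.Agent.Lib_helper44
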