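import Mathlib
import Pool.Agent.Lib_helper44.Saturated

open MeasureTheory Filter Topology Complex
open scoped ENNReal NNReal ComplexConjugate

set_option linter.unusedSectionVars false

namespace Pool.Agent.Lib_helper44

/-- `e^{2πix}` -/
noncomputable def ee (x : ℝ) : ℂ := (Real.fourierChar x : ℂ)

theorem ee_eq (x : ℝ) : ee x = Complex.exp (2 * Real.pi * x * Complex.I) := by
  unfold ee
  rw [Real.fourierChar_apply]
  push_cast
  rfl

theorem ee_add (x y : ℝ) : ee (x + y) = ee x * ee y := by
  unfold ee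
  rw [AddChar.map_add_eq_mul, Circle.coe_mul]

theorem ee_zero : ee 0 = 1 := by simp [ee_eq]

theorem norm_ee (x : ℝ) : ‖ee x‖ = 1 := Circle.norm_coe _

theorem ee_ne_zero (x : ℝ) : ee x ≠ 0 := Circle.coe_ne_zero _

theorem ee_neg (x : ℝ) : ee (-x) = (ee x)⁻¹ := by
  have h : ee x * ee (-x) = 1 := by rw [← ee_add, add_neg_cancel, ee_zero]
  exact eq_inv_of_mul_eq_one_right h

theorem conj_ee (x : ℝ) : conj (ee x) = ee (-x) := by
  rw [ee_neg]
  unfold ee
  exact (Circle.coe_inv_eq_conj _).symm

theorem conj_ee_mul (x y : ℝ) : conj (ee x) * ee y = ee (y - x) := by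
  rw [conj_ee, ← ee_add]
  congr 1
  ring

theorem ee_continuous : Continuous ee := by
  unfold ee
  fun_prop

theorem ee_int (n : ℤ) : ee n = 1 := by
  rw [ee_eq, Complex.exp_eq_one_iff]
  exact ⟨n, by push_cast; ring⟩

theorem fourier_coe_eq_ee (n : ℤ) (x : ℝ) :
    (fourier n ((x : ℝ) : AddCircle (1 : ℝ)) : ℂ) = ee (n * x) := by
  rw [fourier_coe_apply, ee_eq]
  congr 1
  push_cast
  ring

theorem chr_eq_ee {E : Type*} [NormedAddCommGroup E] [InnerProductSpace ℝ E] (k ξ : E) :
    (Real.fourierChar (-(inner ℝ k ξ)) : ℂ) = ee (-(inner ℝ k ξ)) := rfl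

/-- uniqueness of Fourier coefficients on an interval -/
theorem ae_eq_zero_of_fourier_zero {a T : ℝ} (hT : 0 < T) {f : ℝ → ℂ}
    (hf : IntegrableOn f (Set.Ico a (a + T)))
    (H : ∀ q : ℤ, ∫ x in Set.Ico a (a + T), ee (q * (x / T)) * f x = 0) :
    f =ᵐ[volume.restrict (Set.Ico a (a + T))] 0 := by
  have hms : MeasurableSet (Set.Ico a (a + T)) := measurableSet_Ico
  let π : ℝ → UnitAddTorus (Fin 1) := fun x _ => ((x / T : ℝ) : UnitAddCircle)
  have hπ : Measurable π := by
    apply measurable_pi_lambda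
    intro _
    exact (AddCircle.continuous_mk' (1 : ℝ)).measurable.comp (by fun_prop)
  have hinj : Set.InjOn π (Set.Ico a (a + T)) := by
    intro x hx y hy hxy
    have h1 := congrFun hxy 0
    simp only [π] at h1
    have h2 := (AddCircle.coe_eq_coe_iff_of_mem_Ico (p := (1 : ℝ)) (a := a / T)
        (x := x / T) (y := y / T) ⟨div_le_div_of_nonneg_right hx.1 hT.le, by
          rw [div_lt_iff₀ hT, add_mul, one_mul, div_mul_cancel₀ _ hT.ne']
          exact hx.2⟩ ⟨div_le_div_of_nonneg_right hy.1 hT.le, by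
          rw [div_lt_iff₀ hT, add_mul, one_mul, div_mul_cancel₀ _ hT.ne']
          exact hy.2⟩).1 h1
    field_simp at h2
    exact h2
  apply ae_eq_zero_of_injOn hms hf hπ hinj
  intro n
  have h1 : ∀ x : ℝ, UnitAddTorus.mFourier n (π x) * f x
      = ee ((n 0 : ℤ) * (x / T)) * f x := by
    intro x
    simp only [UnitAddTorus.mFourier, π, ContinuousMap.coe_mk, Finset.univ_unique,
      Finset.prod_singleton, Fin.default_eq_zero]
    rw [fourier_coe_eq_ee]
  simp only [h1]
  exact H (n 0)

/-- orthogonality relation on an interval -/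
theorem integral_ee_interval {a T : ℝ} (hT : 0 < T) (q : ℤ) :
    ∫ x in Set.Ico a (a + T), ee (q * (x / T)) = if q = 0 then (T : ℂ) else 0 := by
  rw [integral_Ico_eq_integral_Ioc, ← intervalIntegral.integral_of_le (by linarith)]
  split_ifs with h
  · subst h
    simp [ee_zero]
  · have h1 : ∀ x : ℝ, ee (q * (x / T)) = Complex.exp ((2 * Real.pi * q / T * Complex.I) * x) := by
      intro x
      rw [ee_eq]
      congr 1
      push_cast
      ring
    simp only [h1]
    have hc : (2 * Real.pi * q / T * Complex.I : ℂ) ≠ 0 := by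
      have : (q : ℂ) ≠ 0 := by exact_mod_cast h
      have hT' : (T : ℂ) ≠ 0 := by exact_mod_cast hT.ne'
      have hpi : (Real.pi : ℂ) ≠ 0 := by exact_mod_cast Real.pi_ne_zero
      exact mul_ne_zero (div_ne_zero (mul_ne_zero (mul_ne_zero two_ne_zero hpi) this) hT')
        Complex.I_ne_zero
    rw [integral_exp_mul_complex hc]
    have h2 : Complex.exp (2 * Real.pi * q / T * Complex.I * (a + T : ℝ))
        = Complex.exp (2 * Real.pi * q / T * Complex.I * a) := by
      rw [← h1, ← h1, add_div, div_self hT.ne', mul_add, ee_add, mul_one, ee_int, mul_one]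
    rw [h2, sub_self, zero_div]

end Pool.Agent.Lib_helper44
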