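import Mathlib
import Pool.Agent.Lib_helper44.GLE
import Pool.Agent.Lib_helper44.Interval

open MeasureTheory FourierTransform Complex
open scoped ENNReal InnerProductSpace ComplexConjugate

set_option linter.unusedSectionVars false

namespace Pool.Agent.Lib_helper44

variable {E : Type*} [NormedAddCommGroup E] [InnerProductSpace ℝ E] [FiniteDimensional ℝ E]
  [MeasurableSpace E] [BorelSpace E]
variable {F : Type*} [NormedAddCommGroup F] [NormedSpace ℝ F] [FiniteDimensional ℝ F]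
  [MeasureSpace F] [BorelSpace F] [(volume : Measure F).IsAddHaarMeasure]
variable {κ : Type*}

/-- the wavelet family on the frequency side, in linear coordinates -/
noncomputable def cfam (D : F ≃L[ℝ] F) (d : ℝ) (l : κ → F → ℝ) (φ : F → ℂ) (i : ℤ × κ) (x : F) : ℂ :=
  ((d ^ (-(i.1 : ℝ) / 2) : ℝ) : ℂ) * (ee (-(l i.2 ((D ^ (-i.1)) x))) * φ ((D ^ (-i.1)) x))

theorem exists_map_volume (τ : F ≃L[ℝ] E) : ∃ C : ℝ, 0 < C ∧
    Measure.map τ.toHomeomorph.toMeasurableEquiv (volume : Measure F)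
      = ENNReal.ofReal C • (volume : Measure E) := by
  have h1 : (Measure.map τ (volume : Measure F)).IsAddHaarMeasure :=
    ContinuousLinearEquiv.isAddHaarMeasure_map τ volume
  have hc := Measure.isAddLeftInvariant_eq_smul
    (Measure.map τ (volume : Measure F)) (volume : Measure E)
  have hpos := Measure.addHaarScalarFactor_pos_of_isAddHaarMeasure
    (Measure.map τ (volume : Measure F)) (volume : Measure E)
  refine ⟨(Measure.addHaarScalarFactor (Measure.map τ (volume : Measure F)) (volume : Measure E) :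
    NNReal), NNReal.coe_pos.mpr hpos, ?_⟩
  rw [ENNReal.ofReal_coe_nnreal]
  exact hc

theorem conj_pow {B : E ≃L[ℝ] E} {D : F ≃L[ℝ] F} {τ : F ≃L[ℝ] E} (h : ∀ x, B (τ x) = τ (D x))
    (n : ℕ) (x : F) : (B ^ n) (τ x) = τ ((D ^ n) x) := by
  induction n generalizing x with
  | zero => rfl
  | succ n ih =>
    rw [pow_succ, pow_succ]
    change (B ^ n) (B (τ x)) = τ ((D ^ n) (D x))
    rw [h, ih]

theorem conj_zpow {B : E ≃L[ℝ] E} {D : F ≃L[ℝ] F} {τ : F ≃L[ℝ] E} (h : ∀ x, B (τ x) = τ (D x))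
    (j : ℤ) (x : F) : (B ^ j) (τ x) = τ ((D ^ j) x) := by
  cases j with
  | ofNat n => simpa using conj_pow h n x
  | negSucc n =>
    simp only [zpow_negSucc]
    have h1 := conj_pow h (n + 1) (((D ^ (n + 1))⁻¹) x)
    have h2 : (D ^ (n + 1)) (((D ^ (n + 1))⁻¹) x) = x := (D ^ (n + 1)).apply_symm_apply x
    rw [h2] at h1
    rw [← h1]
    exact (B ^ (n + 1)).symm_apply_apply _

/-- transport of the orthonormal basis property to linear coordinates -/
theorem ffam_cfam_iff [DecidableEq κ] {B : E ≃L[ℝ] E} {D : F ≃L[ℝ] F} {τ : F ≃L[ℝ] E}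
    (h : ∀ x, B (τ x) = τ (D x)) {l : κ → F → ℝ} {γ : κ → E}
    (hl : ∀ k x, ⟪γ k, τ x⟫_ℝ = l k x) {C : ℝ} (hC : 0 < C)
    (hτ : Measure.map τ.toHomeomorph.toMeasurableEquiv (volume : Measure F)
      = ENNReal.ofReal C • (volume : Measure E)) (Φ : E → ℂ) :
    IsONB (volume : Measure E) (fun i : ℤ × κ => ffam B Φ i.1 (γ i.2)) ↔
    IsONB (volume : Measure F) (cfam D (adet B) l (fun x => ((C ^ (-(1 / 2) : ℝ) : ℝ) : ℂ) * Φ (τ x)))
    := by
  have key : ∀ (i : ℤ × κ) (x : F), ffam B Φ i.1 (γ i.2) (τ x)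
      = ((adet B ^ (-(i.1 : ℝ) / 2) : ℝ) : ℂ) *
        (ee (-(l i.2 ((D ^ (-i.1)) x))) * Φ (τ ((D ^ (-i.1)) x))) := by
    intro i x
    unfold ffam
    rw [conj_zpow h, chr, hl]
    rfl
  have hCC : ((C ^ (-(1 / 2) : ℝ) : ℝ) : ℂ) * ((C ^ (1 / 2 : ℝ) : ℝ) : ℂ) = 1 := by
    rw [← Complex.ofReal_mul, ← Real.rpow_add hC]
    norm_num
  constructor
  · intro H
    have hτ' : Measure.map τ.toHomeomorph.toMeasurableEquiv.symm (volume : Measure E)
        = ENNReal.ofReal C⁻¹ • (volume : Measure F) := by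
      have h1 : (volume : Measure E) = ENNReal.ofReal C⁻¹ •
          Measure.map τ.toHomeomorph.toMeasurableEquiv (volume : Measure F) := by
        rw [hτ, smul_smul, ← ENNReal.ofReal_mul (inv_nonneg.mpr hC.le), inv_mul_cancel₀ hC.ne',
          ENNReal.ofReal_one, one_smul]
      rw [h1, Measure.map_smul, Measure.map_map (MeasurableEquiv.measurable _)
        (MeasurableEquiv.measurable _)]
      simp
    have h2 := H.transport τ.toHomeomorph.toMeasurableEquiv.symm (inv_pos.mpr hC) hτ'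
    refine h2.congr (fun i => Filter.Eventually.of_forall fun x => ?_)
    unfold cfam
    have e1 : ffam B Φ i.1 (γ i.2) (τ.toHomeomorph.toMeasurableEquiv.symm.symm x)
      = ffam B Φ i.1 (γ i.2) (τ x) := rfl
    simp only [e1, key]
    rw [Real.inv_rpow hC.le, ← Real.rpow_neg hC.le]
    ring
  · intro H
    have h2 := H.transport τ.toHomeomorph.toMeasurableEquiv hC hτ
    refine h2.congr (fun i => Filter.Eventually.of_forall fun y => ?_)
    obtain ⟨x, rfl⟩ := τ.surjective y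
    have e1 : τ.toHomeomorph.toMeasurableEquiv.symm (τ x) = x := τ.symm_apply_apply x
    simp only [e1, key]
    unfold cfam
    linear_combination (((adet B ^ (-(i.1 : ℝ) / 2) : ℝ) : ℂ) *
        (ee (-(l i.2 ((D ^ (-i.1)) x))) * Φ (τ ((D ^ (-i.1)) x)))) * hCC

/-- diagonal map of the plane -/
noncomputable def dg (a b : ℝ) (ha : a ≠ 0) (hb : b ≠ 0) : (ℝ × ℝ) ≃L[ℝ] (ℝ × ℝ) :=
  (ContinuousLinearEquiv.unitsEquivAut ℝ (Units.mk0 a ha)).prodCongr
    (ContinuousLinearEquiv.unitsEquivAut ℝ (Units.mk0 b hb))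

theorem dg_apply (a b : ℝ) (ha : a ≠ 0) (hb : b ≠ 0) (p : ℝ × ℝ) :
    dg a b ha hb p = (a * p.1, b * p.2) := by
  unfold dg
  ext
  · simp [mul_comm]
  · simp [mul_comm]

theorem dg_pow (a b : ℝ) (ha : a ≠ 0) (hb : b ≠ 0) (n : ℕ) (p : ℝ × ℝ) :
    (dg a b ha hb ^ n) p = (a ^ n * p.1, b ^ n * p.2) := by
  induction n generalizing p with
  | zero =>
    simp only [pow_zero, one_mul]
    rfl
  | succ n ih =>
    rw [pow_succ]
    change (dg a b ha hb ^ n) (dg a b ha hb p) = _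
    rw [ih, dg_apply]
    ext
    · simp only; ring
    · simp only; ring

theorem dg_zpow (a b : ℝ) (ha : a ≠ 0) (hb : b ≠ 0) (j : ℤ) (p : ℝ × ℝ) :
    (dg a b ha hb ^ j) p = (a ^ j * p.1, b ^ j * p.2) := by
  cases j with
  | ofNat n => simpa using dg_pow a b ha hb n p
  | negSucc n =>
    simp only [zpow_negSucc]
    have h1 := dg_pow a b ha hb (n + 1) ((a ^ (n + 1))⁻¹ * p.1, (b ^ (n + 1))⁻¹ * p.2)
    simp only at h1
    rw [← mul_assoc, ← mul_assoc, mul_inv_cancel₀ (pow_ne_zero _ ha),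
      mul_inv_cancel₀ (pow_ne_zero _ hb), one_mul, one_mul] at h1
    have h2 : ((dg a b ha hb ^ (n + 1))⁻¹) ((dg a b ha hb ^ (n + 1))
      ((a ^ (n + 1))⁻¹ * p.1, (b ^ (n + 1))⁻¹ * p.2)) = ((a ^ (n + 1))⁻¹ * p.1, (b ^ (n + 1))⁻¹ * p.2)
      := (dg a b ha hb ^ (n + 1)).symm_apply_apply _
    rw [h1] at h2
    exact h2

end Pool.Agent.Lib_helper44
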