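import Mathlib
import Pool.Agent.Lib_helper44.Coord

open MeasureTheory Complex Module
open scoped ENNReal InnerProductSpace

set_option linter.unusedSectionVars false

namespace Pool.Agent.Lib_helper44


theorem exists_lattice_basis (Γ : Submodule ℤ (EuclideanSpace ℝ (Fin 2))) [DiscreteTopology Γ]
    [IsZLattice ℝ Γ] : Nonempty (Basis (Fin 2) ℤ Γ) := by
  have : Module.Free ℤ Γ := ZLattice.module_free ℝ Γ
  have : Module.Finite ℤ Γ := ZLattice.module_finite ℝ Γ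
  have h : Module.finrank ℤ Γ = 2 := by
    rw [ZLattice.rank ℝ Γ]
    simp
  exact ⟨Module.finBasisOfFinrankEq ℤ Γ h⟩

theorem exists_basis_adapted (Γ : Submodule ℤ (EuclideanSpace ℝ (Fin 2))) [DiscreteTopology Γ]
    [IsZLattice ℝ Γ] (v0 : EuclideanSpace ℝ (Fin 2)) (hv0 : v0 ≠ 0)
    (hdual : ∀ γ ∈ Γ, ∃ q : ℤ, ⟪γ, v0⟫_ℝ = q) :
    ∃ (g : ℝ) (v g1 g2 : EuclideanSpace ℝ (Fin 2)) (e : (ℤ × ℤ) ≃ Γ),
      g ≠ 0 ∧ v0 = g • v ∧ ⟪g1, v⟫_ℝ = 0 ∧ ⟪g2, v⟫_ℝ = 1 ∧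
      (∀ k : ℤ × ℤ, (e k : EuclideanSpace ℝ (Fin 2)) = (k.1 : ℝ) • g1 + (k.2 : ℝ) • g2) ∧
      (∀ x : EuclideanSpace ℝ (Fin 2), ⟪g1, x⟫_ℝ = 0 → ⟪g2, x⟫_ℝ = 0 → x = 0) := by
  obtain ⟨b⟩ := exists_lattice_basis Γ
  obtain ⟨a0, ha0⟩ := hdual (b 0) (b 0).2
  obtain ⟨a1, ha1⟩ := hdual (b 1) (b 1).2
  have hspan : ∀ x : EuclideanSpace ℝ (Fin 2), ⟪(b 0 : EuclideanSpace ℝ (Fin 2)), x⟫_ℝ = 0 →
      ⟪(b 1 : EuclideanSpace ℝ (Fin 2)), x⟫_ℝ = 0 → x = 0 := by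
    intro x h0 h1
    have hx : ∀ i, ⟪(b.ofZLatticeBasis ℝ Γ) i, x⟫_ℝ = 0 := by
      intro i
      rw [b.ofZLatticeBasis_apply ℝ Γ]
      fin_cases i
      · exact h0
      · exact h1
    have hs := (b.ofZLatticeBasis ℝ Γ).sum_repr x
    have h2 : ⟪x, x⟫_ℝ = 0 := by
      conv_lhs =>
        lhs
        rw [← hs]
      rw [sum_inner]
      apply Finset.sum_eq_zero
      intro i _
      rw [real_inner_smul_left, hx i, mul_zero]
    exact inner_self_eq_zero.mp h2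
  have hne : ¬ (a0 = 0 ∧ a1 = 0) := by
    rintro ⟨h0, h1⟩
    apply hv0
    apply hspan
    · rw [ha0, h0, Int.cast_zero]
    · rw [ha1, h1, Int.cast_zero]
  have hg : Int.gcd a0 a1 ≠ 0 := by
    intro h
    rw [Int.gcd_eq_zero_iff] at h
    exact hne h
  set g : ℤ := (Int.gcd a0 a1 : ℤ) with hgdef
  have hg0 : g ≠ 0 := by
    rw [hgdef]
    exact Int.natCast_ne_zero.mpr hg
  obtain ⟨c0, hc0⟩ : g ∣ a0 := Int.gcd_dvd_left a0 a1
  obtain ⟨c1, hc1⟩ : g ∣ a1 := Int.gcd_dvd_right a0 a1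
  have hbez : g = a0 * Int.gcdA a0 a1 + a1 * Int.gcdB a0 a1 := Int.gcd_eq_gcd_ab a0 a1
  set x := Int.gcdA a0 a1 with hx
  set y := Int.gcdB a0 a1 with hy
  have hbez1 : c0 * x + c1 * y = 1 := by
    have : g * (c0 * x + c1 * y) = g * 1 := by
      rw [mul_one]
      conv_rhs => rw [hbez, hc0, hc1]
      ring
    exact mul_left_cancel₀ hg0 this
  have hgR : (g : ℝ) ≠ 0 := by exact_mod_cast hg0
  have hbez2 : (c0 : ℝ) * x + c1 * y = 1 := by exact_mod_cast hbez1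
  set v : EuclideanSpace ℝ (Fin 2) := (g : ℝ)⁻¹ • v0 with hv
  have hv0v : v0 = (g : ℝ) • v := by
    rw [hv, smul_smul, mul_inv_cancel₀ hgR, one_smul]
  have hb0v : ⟪(b 0 : EuclideanSpace ℝ (Fin 2)), v⟫_ℝ = c0 := by
    rw [hv, inner_smul_right, ha0, hc0]
    push_cast
    rw [← mul_assoc, inv_mul_cancel₀ hgR, one_mul]
  have hb1v : ⟪(b 1 : EuclideanSpace ℝ (Fin 2)), v⟫_ℝ = c1 := by
    rw [hv, inner_smul_right, ha1, hc1]
    push_cast
    rw [← mul_assoc, inv_mul_cancel₀ hgR, one_mul]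
  set g1Γ : Γ := c1 • b 0 - c0 • b 1 with hg1Γ
  set g2Γ : Γ := x • b 0 + y • b 1 with hg2Γ
  have hg1 : (g1Γ : EuclideanSpace ℝ (Fin 2)) = (c1 : ℝ) • (b 0 : EuclideanSpace ℝ (Fin 2))
      - (c0 : ℝ) • (b 1 : EuclideanSpace ℝ (Fin 2)) := by
    rw [hg1Γ]
    simp only [Submodule.coe_sub, Submodule.coe_smul, Int.cast_smul_eq_zsmul]
  have hg2 : (g2Γ : EuclideanSpace ℝ (Fin 2)) = (x : ℝ) • (b 0 : EuclideanSpace ℝ (Fin 2))
      + (y : ℝ) • (b 1 : EuclideanSpace ℝ (Fin 2)) := by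
    rw [hg2Γ]
    simp only [Submodule.coe_add, Submodule.coe_smul, Int.cast_smul_eq_zsmul]
  have hrepr : ∀ γ : Γ, γ = b.repr γ 0 • b 0 + b.repr γ 1 • b 1 := by
    intro γ
    have := b.sum_repr γ
    rw [Fin.sum_univ_two] at this
    exact this.symm
  have hrepr2 : ∀ p q : ℤ, b.repr (p • b 0 + q • b 1) 0 = p ∧ b.repr (p • b 0 + q • b 1) 1 = q := by
    intro p q
    constructor
    · simp
    · simp
  -- the equivalence
  let e : (ℤ × ℤ) ≃ Γ :=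
    { toFun := fun k => k.1 • g1Γ + k.2 • g2Γ
      invFun := fun γ => (y * b.repr γ 0 - x * b.repr γ 1, c0 * b.repr γ 0 + c1 * b.repr γ 1)
      left_inv := fun k => by
        have h1 : k.1 • g1Γ + k.2 • g2Γ = (k.1 * c1 + k.2 * x) • b 0 + (-(k.1 * c0) + k.2 * y) • b 1 := by
          rw [hg1Γ, hg2Γ]
          module
        simp only [h1, (hrepr2 _ _).1, (hrepr2 _ _).2]
        ext
        · simp only
          linear_combination k.1 * hbez1
        · simp only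
          linear_combination k.2 * hbez1
      right_inv := fun γ => by
        conv_rhs => rw [hrepr γ]
        simp only
        rw [hg1Γ, hg2Γ]
        have h1 : (y * b.repr γ 0 - x * b.repr γ 1) • (c1 • b 0 - c0 • b 1) +
            (c0 * b.repr γ 0 + c1 * b.repr γ 1) • (x • b 0 + y • b 1)
            = ((c0 * x + c1 * y) * b.repr γ 0) • b 0 + ((c0 * x + c1 * y) * b.repr γ 1) • b 1 := by
          module
        rw [h1, hbez1, one_mul, one_mul] }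
  refine ⟨g, v, g1Γ, g2Γ, e, hgR, hv0v, ?_, ?_, ?_, ?_⟩
  · rw [hg1, inner_sub_left, real_inner_smul_left, real_inner_smul_left, hb0v, hb1v]
    ring
  · rw [hg2, inner_add_left, real_inner_smul_left, real_inner_smul_left, hb0v, hb1v]
    linarith
  · intro k
    change ((k.1 • g1Γ + k.2 • g2Γ : Γ) : EuclideanSpace ℝ (Fin 2)) = _
    simp only [Submodule.coe_add, Submodule.coe_smul, Int.cast_smul_eq_zsmul]
  · intro z h1 h2
    rw [hg1, inner_sub_left, real_inner_smul_left, real_inner_smul_left] at h1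
    rw [hg2, inner_add_left, real_inner_smul_left, real_inner_smul_left] at h2
    apply hspan
    · linear_combination (y : ℝ) * h1 + (c0 : ℝ) * h2 -
        ⟪(b 0 : EuclideanSpace ℝ (Fin 2)), z⟫_ℝ * hbez2
    · linear_combination (-x : ℝ) * h1 + (c1 : ℝ) * h2 -
        ⟪(b 1 : EuclideanSpace ℝ (Fin 2)), z⟫_ℝ * hbez2

end Pool.Agent.Lib_helper44
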