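import Mathlib
import Pool.Agent.Lib_helper44.Adapt

open MeasureTheory Complex Module
open scoped ENNReal InnerProductSpace

set_option linter.unusedSectionVars false

namespace Pool.Agent.Lib_helper44

/-- the coordinate isomorphism defined by two linear forms -/
theorem exists_coord_equiv (g1 g2 : EuclideanSpace ℝ (Fin 2))
    (h : ∀ x : EuclideanSpace ℝ (Fin 2), ⟪g1, x⟫_ℝ = 0 → ⟪g2, x⟫_ℝ = 0 → x = 0) :
    ∃ T : EuclideanSpace ℝ (Fin 2) ≃L[ℝ] (ℝ × ℝ), ∀ x, T x = (⟪g1, x⟫_ℝ, ⟪g2, x⟫_ℝ) := by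
  let f : EuclideanSpace ℝ (Fin 2) →ₗ[ℝ] ℝ × ℝ := ((innerₗ _ g1).prod (innerₗ _ g2))
  have hf : ∀ x, f x = (⟪g1, x⟫_ℝ, ⟪g2, x⟫_ℝ) := fun x => rfl
  have hinj : Function.Injective f := by
    rw [injective_iff_map_eq_zero]
    intro x hx
    rw [hf, Prod.mk_eq_zero] at hx
    exact h x hx.1 hx.2
  have hrank : finrank ℝ (EuclideanSpace ℝ (Fin 2)) = finrank ℝ (ℝ × ℝ) := by simp
  let T := LinearEquiv.ofInjectiveOfFinrankEq f hinj hrank
  refine ⟨T.toContinuousLinearEquiv, fun x => ?_⟩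
  rw [← hf]
  rfl

theorem exists_coord_equiv_det (B : EuclideanSpace ℝ (Fin 2) ≃L[ℝ] EuclideanSpace ℝ (Fin 2))
    (T : EuclideanSpace ℝ (Fin 2) ≃L[ℝ] (ℝ × ℝ)) (a b c d : ℝ)
    (h : ∀ x : EuclideanSpace ℝ (Fin 2), T (B x) = (a * (T x).1 + b * (T x).2,
      c * (T x).1 + d * (T x).2)) : adet B = |a * d - b * c| := by
  unfold adet
  have h1 := LinearMap.det_conj (B.toLinearEquiv :
    EuclideanSpace ℝ (Fin 2) →ₗ[ℝ] EuclideanSpace ℝ (Fin 2)) T.toLinearEquiv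
  rw [← h1, ← LinearMap.det_toMatrix (Basis.finTwoProd ℝ), Matrix.det_fin_two]
  have h2 : ∀ p : ℝ × ℝ, ((T.toLinearEquiv : EuclideanSpace ℝ (Fin 2) →ₗ[ℝ] ℝ × ℝ) ∘ₗ
    (B.toLinearEquiv : EuclideanSpace ℝ (Fin 2) →ₗ[ℝ] EuclideanSpace ℝ (Fin 2)) ∘ₗ
    (T.toLinearEquiv.symm : ℝ × ℝ →ₗ[ℝ] EuclideanSpace ℝ (Fin 2))) p
      = (a * p.1 + b * p.2, c * p.1 + d * p.2) := by
    intro p
    have := h (T.symm p)
    rw [T.apply_symm_apply] at this
    exact this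
  simp only [LinearMap.toMatrix_apply, h2, Basis.finTwoProd_zero, Basis.finTwoProd_one]
  simp only [Basis.coe_finTwoProd_repr]
  simp

theorem adapted_coords (B : EuclideanSpace ℝ (Fin 2) ≃L[ℝ] EuclideanSpace ℝ (Fin 2))
    (Γ : Submodule ℤ (EuclideanSpace ℝ (Fin 2))) [DiscreteTopology Γ]
    [IsZLattice ℝ Γ] (v0 : EuclideanSpace ℝ (Fin 2)) (hv0 : v0 ≠ 0)
    (hdual : ∀ γ ∈ Γ, ∃ q : ℤ, ⟪γ, v0⟫_ℝ = q) (mu : ℝ) (hB : B v0 = mu • v0) :
    ∃ (lam : ℝ) (hl : lam ≠ 0) (hm : mu ≠ 0), adet B = |lam * mu| ∧ (lam ≠ mu →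
      ∃ (t : ℝ) (τ : (ℝ × ℝ) ≃L[ℝ] EuclideanSpace ℝ (Fin 2)) (e : (ℤ × ℤ) ≃ Γ) (g : ℝ),
      (∀ x, B (τ x) = τ (dg lam mu hl hm x)) ∧
      (∀ (k : ℤ × ℤ) (x : ℝ × ℝ), ⟪(e k : EuclideanSpace ℝ (Fin 2)), τ x⟫_ℝ
        = (k.1 + t * k.2) * x.1 + k.2 * x.2) ∧ g ≠ 0 ∧ v0 = τ (0, g)) := by
  obtain ⟨g, v, g1, g2, e, hg0, hgv, h1v, h2v, he, hz⟩ := exists_basis_adapted Γ v0 hv0 hdual
  obtain ⟨T, hT⟩ := exists_coord_equiv g1 g2 hz
  have hv : T v = (0, 1) := by rw [hT, h1v, h2v]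
  have hBv : B v = mu • v := by
    rw [hgv, map_smul, smul_comm] at hB
    exact smul_right_injective _ hg0 hB
  set u := T.symm (1, 0) with hu
  have hTu : T u = (1, 0) := by rw [hu, T.apply_symm_apply]
  have hv' : v = T.symm (0, 1) := by rw [← hv, T.symm_apply_apply]
  set lam := (T (B u)).1 with hlam
  set bet := (T (B u)).2 with hbet
  have hBx : ∀ x, T (B x) = (lam * (T x).1 + 0 * (T x).2, bet * (T x).1 + mu * (T x).2) := by
    intro x
    have hx : x = (T x).1 • u + (T x).2 • v := by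
      apply T.injective
      rw [map_add, map_smul, map_smul, hTu, hv]
      ext <;> simp
    conv_lhs => rw [hx]
    rw [map_add, map_smul, map_smul, hBv, map_add, map_smul, map_smul, map_smul, hv]
    ext
    · simp only [Prod.fst_add, Prod.smul_fst, smul_eq_mul]
      rw [hlam]
      ring
    · simp only [Prod.snd_add, Prod.smul_snd, smul_eq_mul]
      rw [hbet]
      ring
  have hdet := exists_coord_equiv_det B T lam 0 bet mu hBx
  rw [zero_mul, sub_zero] at hdet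
  have hpos := adet_pos B
  rw [hdet] at hpos
  have hne : lam * mu ≠ 0 := abs_pos.mp hpos
  have hl : lam ≠ 0 := left_ne_zero_of_mul hne
  have hm : mu ≠ 0 := right_ne_zero_of_mul hne
  refine ⟨lam, hl, hm, hdet, fun hlm => ?_⟩
  set t : ℝ := bet / (lam - mu) with ht
  have hlm' : lam - mu ≠ 0 := sub_ne_zero.mpr hlm
  have hbt : bet = t * (lam - mu) := by rw [ht, div_mul_cancel₀ _ hlm']
  -- shear
  let S : (ℝ × ℝ) ≃ₗ[ℝ] (ℝ × ℝ) :=
    { toFun := fun p => (p.1, t * p.1 + p.2)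
      map_add' := fun p q => by ext <;> simp; ring
      map_smul' := fun c p => by ext <;> simp; ring
      invFun := fun p => (p.1, p.2 - t * p.1)
      left_inv := fun p => by ext <;> simp
      right_inv := fun p => by ext <;> simp }
  let τ : (ℝ × ℝ) ≃L[ℝ] EuclideanSpace ℝ (Fin 2) := S.toContinuousLinearEquiv.trans T.symm
  have hτ : ∀ x, T (τ x) = (x.1, t * x.1 + x.2) := by
    intro x
    change T (T.symm (S x)) = _
    rw [T.apply_symm_apply]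
    rfl
  refine ⟨t, τ, e, g, ?_, ?_, hg0, ?_⟩
  · intro x
    apply T.injective
    rw [hBx, hτ, hτ, dg_apply]
    ext
    · simp
    · simp only
      rw [hbt]
      ring
  · intro k x
    have h3 := hτ x
    rw [hT, Prod.mk.injEq] at h3
    rw [he, inner_add_left, real_inner_smul_left, real_inner_smul_left, h3.1, h3.2]
    ring
  · apply T.injective
    rw [hτ, hgv, map_smul, hv]
    ext <;> simp

end Pool.Agent.Lib_helper44
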