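import Mathlib
import Pool.Agent.Lib_helper44.Interval

open MeasureTheory Filter Topology Complex
open scoped ENNReal NNReal ComplexConjugate

set_option linter.unusedSectionVars false

namespace Pool.Agent.Lib_helper44

/-- if the Fourier coefficients of the periodization of `I` are those of `1` then the integral over
periodic sets is the measure of one period -/
theorem setIntegral_periodic {I : ℝ → ℂ} (hI : Integrable I)
    (H : ∀ k : ℤ, ∫ s, ee (k * s) * I s = if k = 0 then 1 else 0) {A : Set ℝ}
    (hA : MeasurableSet A) (hsat : ∀ x ∈ A, ∀ n : ℤ, x + n ∈ A) :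
    ∫ s in A, I s = ((volume (A ∩ Set.Ico 0 1)).toReal : ℂ) := by
  let π : ℝ → UnitAddTorus (Fin 1) := fun x _ => ((x : ℝ) : UnitAddCircle)
  have hπ : Measurable π := by
    apply measurable_pi_lambda
    intro _
    exact (AddCircle.continuous_mk' (1 : ℝ)).measurable
  have hJ : Integrable ((Set.Ico (0 : ℝ) 1).indicator (fun _ => (1 : ℂ))) := by
    rw [integrable_indicator_iff measurableSet_Ico]
    exact integrableOn_const (by simp)
  set Θ : ℝ → ℂ := fun s => I s - (Set.Ico (0 : ℝ) 1).indicator (fun _ => (1 : ℂ)) s with hΘ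
  have hΘi : Integrable Θ := hI.sub hJ
  have hee : ∀ k : ℤ, ∀ f : ℝ → ℂ, Integrable f → Integrable (fun s => ee (k * s) * f s) := by
    intro k f hf
    refine hf.bdd_mul (c := 1) ?_ ?_
    · exact (ee_continuous.comp (by fun_prop)).measurable.aestronglyMeasurable
    · filter_upwards with x
      rw [norm_ee]
  have hF : ∀ n : Fin 1 → ℤ, ∫ x, UnitAddTorus.mFourier n (π x) * Θ x = 0 := by
    intro n
    have h1 : ∀ x : ℝ, UnitAddTorus.mFourier n (π x) * Θ x
        = ee ((n 0 : ℤ) * x) * I x -
          ee ((n 0 : ℤ) * x) * (Set.Ico (0 : ℝ) 1).indicator (fun _ => (1 : ℂ)) x := by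
      intro x
      simp only [UnitAddTorus.mFourier, π, ContinuousMap.coe_mk, Finset.univ_unique,
        Finset.prod_singleton, Fin.default_eq_zero]
      rw [fourier_coe_eq_ee, hΘ]
      ring
    simp only [h1]
    rw [integral_sub (hee _ _ hI) (hee _ _ hJ), H]
    have h2 : ∀ x : ℝ, ee ((n 0 : ℤ) * x) * (Set.Ico (0 : ℝ) 1).indicator (fun _ => (1 : ℂ)) x
        = (Set.Ico (0 : ℝ) (0 + 1)).indicator (fun x => ee ((n 0 : ℤ) * (x / 1))) x := by
      intro x
      rw [zero_add]
      by_cases hx : x ∈ Set.Ico (0 : ℝ) 1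
      · rw [Set.indicator_of_mem hx, Set.indicator_of_mem hx, mul_one, div_one]
      · rw [Set.indicator_of_notMem hx, Set.indicator_of_notMem hx, mul_zero]
    simp only [h2]
    rw [integral_indicator measurableSet_Ico, integral_ee_interval zero_lt_one]
    split_ifs <;> simp
  have h3 := setIntegral_saturated_eq_zero hΘi hπ hF hA (by
    intro x hx y hxy
    have h1 := congrFun hxy 0
    simp only [π] at h1
    have h2 := (QuotientAddGroup.eq (s := AddSubgroup.zmultiples (1 : ℝ))).mp h1
    rw [AddSubgroup.mem_zmultiples_iff] at h2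
    obtain ⟨k, hk⟩ := h2
    have h4 : y = x + k := by
      have : (k : ℝ) = -x + y := by simpa using hk
      linarith
    rw [h4]
    exact hsat x hx k)
  rw [hΘ, integral_sub hI.integrableOn hJ.integrableOn, sub_eq_zero] at h3
  rw [h3, setIntegral_indicator measurableSet_Ico, setIntegral_const]
  simp [Measure.real]

theorem ae_le_one_of_periodization {I : ℝ → ℝ} (hI : Integrable I) (hnn : ∀ s, 0 ≤ I s)
    (H : ∀ k : ℤ, ∫ s, ee (k * s) * (I s : ℂ) = if k = 0 then 1 else 0) :
    ∀ᵐ s, I s ≤ 1 := by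
  have key : ∀ n : ℤ, ∀ᵐ s ∂(volume.restrict (Set.Ico (n : ℝ) (n + 1))), I s ≤ 1 := by
    intro n
    have h1 : Integrable (fun _ : ℝ => (1 : ℝ)) (volume.restrict (Set.Ico (n : ℝ) (n + 1))) := by
      rw [← IntegrableOn]
      exact integrableOn_const (by simp)
    refine ae_le_of_forall_setIntegral_le hI.integrableOn h1 ?_
    intro D hD _
    rw [Measure.restrict_restrict hD]
    set D' := D ∩ Set.Ico (n : ℝ) (n + 1) with hD'
    have hD'm : MeasurableSet D' := hD.inter measurableSet_Ico
    set A : Set ℝ := ⋃ k : ℤ, (fun x => x + (k : ℝ)) ⁻¹' D' with hA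
    have hAm : MeasurableSet A := by
      apply MeasurableSet.iUnion
      intro k
      exact (measurable_add_const (k : ℝ)) hD'm
    have hsat : ∀ x ∈ A, ∀ m : ℤ, x + m ∈ A := by
      intro x hx m
      rw [hA, Set.mem_iUnion] at hx ⊢
      obtain ⟨k, hk⟩ := hx
      refine ⟨k - m, ?_⟩
      rw [Set.mem_preimage] at hk ⊢
      have : x + (m : ℝ) + ((k - m : ℤ) : ℝ) = x + k := by push_cast; ring
      rw [this]
      exact hk
    have hDA : D' ⊆ A := by
      intro x hx
      rw [hA, Set.mem_iUnion]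
      exact ⟨0, by simpa using hx⟩
    have h2 : ∫ s in A, ((I s : ℝ) : ℂ) = ((volume (A ∩ Set.Ico 0 1)).toReal : ℂ) :=
      setIntegral_periodic (I := fun s => (I s : ℂ)) hI.ofReal H hAm hsat
    rw [integral_complex_ofReal] at h2
    have h3 : ∫ s in A, I s = (volume (A ∩ Set.Ico 0 1)).toReal := by exact_mod_cast h2
    have h4 : A ∩ Set.Ico 0 1 = (fun x => x + (n : ℝ)) ⁻¹' D' := by
      ext x
      rw [hA, Set.mem_inter_iff, Set.mem_iUnion]
      constructor
      · rintro ⟨⟨k, hk⟩, hx⟩
        have hk2 : x + k ∈ Set.Ico (n : ℝ) (n + 1) := hk.2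
        have hkn : k = n := by
          have h5 : (k : ℝ) < n + 1 := by linarith [hk2.2, hx.1]
          have h6 : (n : ℝ) - 1 < k := by linarith [hk2.1, hx.2]
          have h7 : k < n + 1 := by exact_mod_cast h5
          have h8 : n - 1 < k := by exact_mod_cast h6
          omega
        rw [← hkn]
        exact hk
      · intro hx
        refine ⟨⟨n, hx⟩, ?_⟩
        have hx2 : x + n ∈ Set.Ico (n : ℝ) (n + 1) := hx.2
        exact ⟨by linarith [hx2.1], by linarith [hx2.2]⟩
    rw [h4, measure_preimage_add_right] at h3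
    have h5 : ∫ s in D', I s ≤ ∫ s in A, I s :=
      setIntegral_mono_set hI.integrableOn (Eventually.of_forall hnn) hDA.eventuallyLE
    rw [h3] at h5
    rw [setIntegral_const, smul_eq_mul, mul_one]
    exact h5
  have hcover : (⋃ n : ℤ, Set.Ico (n : ℝ) (n + 1)) = Set.univ := by
    ext x
    simp only [Set.mem_iUnion, Set.mem_univ, iff_true]
    exact ⟨⌊x⌋, Int.floor_le x, Int.lt_floor_add_one x⟩
  rw [← Measure.restrict_univ (μ := (volume : Measure ℝ)), ← hcover, ae_restrict_iUnion_iff]
  exact key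

end Pool.Agent.Lib_helper44
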