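import Mathlib

set_option linter.unusedSectionVars false

namespace Pool.Agent.Lib_helper44

/-- an enumeration of the integer plane -/
noncomputable def enc : ℕ → ℤ × ℤ := (Denumerable.eqv (ℤ × ℤ)).symm

theorem enc_surj : Function.Surjective enc := (Denumerable.eqv (ℤ × ℤ)).symm.surjective

/-- the point `p` is not covered by the progressions chosen before stage `H` -/
def Avail (K : ℤ) {H : ℕ} (g : (h : ℕ) → h < H → ℤ × ℤ) (p : ℤ × ℤ) : Prop :=
  ∀ (h : ℕ) (hh : h < H), ¬ ((g h hh).1 = p.1 ∧ K ^ h ∣ p.2 - (g h hh).2)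

theorem exists_avail (K : ℤ) {H : ℕ} (g : (h : ℕ) → h < H → ℤ × ℤ) :
    ∃ i : ℕ, Avail K g (enc i) := by
  classical
  obtain ⟨a, ha⟩ := Infinite.exists_notMem_finset
    ((Finset.univ : Finset (Fin H)).image (fun h : Fin H => (g h.1 h.2).1))
  obtain ⟨i, hi⟩ := enc_surj (a, 0)
  refine ⟨i, fun h hh hc => ha ?_⟩
  rw [Finset.mem_image]
  refine ⟨⟨h, hh⟩, Finset.mem_univ _, ?_⟩
  have := hc.1
  rw [hi] at this
  exact this

open Classical in
/-- greedy choice of progressions -/
noncomputable def coverSeq (K : ℤ) : ℕ → ℤ × ℤ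
  | H => enc (Nat.find (exists_avail K (H := H) (fun h (_ : h < H) => coverSeq K h)))
termination_by H => H

open Classical in
theorem coverSeq_eq (K : ℤ) (H : ℕ) : coverSeq K H =
    enc (Nat.find (exists_avail K (H := H) (fun h (_ : h < H) => coverSeq K h))) := by
  rw [coverSeq]

theorem coverSeq_avail (K : ℤ) (H : ℕ) :
    Avail K (H := H) (fun h (_ : h < H) => coverSeq K h) (coverSeq K H) := by
  classical
  rw [coverSeq_eq K H]
  exact Nat.find_spec (exists_avail K (H := H) (fun h (_ : h < H) => coverSeq K h))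

theorem cover_all (K : ℤ) (i : ℕ) :
    ∃ h ≤ i, (coverSeq K h).1 = (enc i).1 ∧ K ^ h ∣ (enc i).2 - (coverSeq K h).2 := by
  classical
  -- the minimal available index at stage `H` is at least `H`
  have key : ∀ H : ℕ, H ≤ Nat.find (exists_avail K (H := H) (fun h (_ : h < H) => coverSeq K h)) := by
    intro H
    induction H with
    | zero => exact Nat.zero_le _
    | succ H ih =>
      have hs := Nat.find_spec (exists_avail K (H := H + 1) (fun h (_ : h < H + 1) => coverSeq K h))
      set j := Nat.find (exists_avail K (H := H + 1) (fun h (_ : h < H + 1) => coverSeq K h)) with hj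
      have h1 : Avail K (H := H) (fun h (_ : h < H) => coverSeq K h) (enc j) :=
        fun h hh => hs h (Nat.lt_succ_of_lt hh)
      have h2 : Nat.find (exists_avail K (H := H) (fun h (_ : h < H) => coverSeq K h)) ≤ j :=
        Nat.find_min' _ h1
      have h3 : Nat.find (exists_avail K (H := H) (fun h (_ : h < H) => coverSeq K h)) ≠ j := by
        intro h3
        have h4 := hs H (Nat.lt_succ_self H)
        apply h4
        have h5 : coverSeq K H = enc j := by rw [coverSeq_eq K H, h3]
        simp only [h5]
        simp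
      omega
  by_contra hcon
  push Not at hcon
  have h1 : Avail K (H := i + 1) (fun h (_ : h < i + 1) => coverSeq K h) (enc i) := by
    intro h hh hc
    exact hcon h (Nat.lt_succ_iff.1 hh) hc.1 hc.2
  have h2 := Nat.find_min' (exists_avail K (H := i + 1)
    (fun h (_ : h < i + 1) => coverSeq K h)) h1
  have h3 := key (i + 1)
  omega

/-- exact cover of the plane by progressions with moduli `K ^ h`, each used exactly once -/
theorem coverSeq_bijective (K : ℤ) (hK : K ≠ 0) :
    Function.Bijective
      (fun p : ℕ × ℤ => ((coverSeq K p.1).1, (coverSeq K p.1).2 + K ^ p.1 * p.2)) := by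
  constructor
  · rintro ⟨h, k⟩ ⟨h', k'⟩ heq
    simp only [Prod.mk.injEq] at heq
    have key : ∀ (h h' : ℕ) (k k' : ℤ), h < h' → (coverSeq K h).1 = (coverSeq K h').1 →
        (coverSeq K h).2 + K ^ h * k = (coverSeq K h').2 + K ^ h' * k' → False := by
      intro h h' k k' hlt h1 h2
      have ha := coverSeq_avail K h' h hlt
      apply ha
      refine ⟨h1, ?_⟩
      have hd : K ^ h ∣ K ^ h' := pow_dvd_pow K hlt.le
      have : (coverSeq K h').2 - (coverSeq K h).2 = K ^ h * k - K ^ h' * k' := by linarith
      rw [this]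
      exact dvd_sub (dvd_mul_right _ _) (hd.mul_right _)
    rcases lt_trichotomy h h' with hlt | heq' | hgt
    · exact (key h h' k k' hlt heq.1 heq.2).elim
    · subst heq'
      have h2 : K ^ h * k = K ^ h * k' := by linarith [heq.2]
      have h3 : k = k' := mul_left_cancel₀ (pow_ne_zero h hK) h2
      rw [h3]
    · exact (key h' h k' k hgt heq.1.symm heq.2.symm).elim
  · intro p
    obtain ⟨i, hi⟩ := enc_surj p
    obtain ⟨h, _, h1, h2⟩ := cover_all K i
    rw [hi] at h1 h2
    obtain ⟨k, hk⟩ := h2
    refine ⟨(h, k), ?_⟩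
    ext
    · exact h1
    · simp only
      linarith

end Pool.Agent.Lib_helper44
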