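import Mathlib
import Pool.Agent.Lib_helper44.Interval
import Pool.Agent.Lib_helper44.Cover

open MeasureTheory Filter Topology Complex
open scoped ENNReal NNReal ComplexConjugate

set_option linter.unusedSectionVars false

namespace Pool.Agent.Lib_helper44

section Cells

variable (c : ℝ) (m : ℕ)

/-- length of the cells of type `r` -/
noncomputable def len (r : ℕ) : ℝ := (|c| ^ r)⁻¹

/-- partial sums -/
noncomputable def psum (r : ℕ) : ℝ := ∑ i ∈ Finset.range r, len c i

theorem len_pos (hc : c ≠ 0) (r : ℕ) : 0 < len c r := by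
  unfold len
  have := abs_pos.mpr hc
  positivity

theorem psum_succ (r : ℕ) : psum c (r + 1) = psum c r + len c r := by
  unfold psum
  rw [Finset.sum_range_succ]

theorem psum_mono (hc : c ≠ 0) : StrictMono (psum c) := by
  apply strictMono_nat_of_lt_succ
  intro n
  rw [psum_succ]
  linarith [len_pos c hc n]

theorem psum_zero : psum c 0 = 0 := by simp [psum]

/-- left end point of the cell `(r, n)` -/
noncomputable def lend (r : ℕ) (n : ℤ) : ℝ := n * psum c m + psum c r

/-- the cell `(r, n)` -/
def cellSet (r : ℕ) (n : ℤ) : Set ℝ := Set.Ico (lend c m r n) (lend c m r n + len c r)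

theorem exists_cell (hc : c ≠ 0) (hm : 0 < m) (x : ℝ) :
    ∃ r < m, ∃ n : ℤ, x ∈ cellSet c m r n := by
  have hT : 0 < psum c m := by
    have := psum_mono c hc hm
    rwa [psum_zero] at this
  set n : ℤ := ⌊x / psum c m⌋ with hn
  set y : ℝ := x - n * psum c m with hy
  have hy0 : 0 ≤ y := by
    have h1 : (n : ℝ) ≤ x / psum c m := Int.floor_le _
    have h2 := (le_div_iff₀ hT).1 h1
    linarith
  have hy1 : y < psum c m := by
    have h1 : x / psum c m < n + 1 := Int.lt_floor_add_one _
    have h2 := (div_lt_iff₀ hT).1 h1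
    linarith
  classical
  have hex : ∃ r, y < psum c (r + 1) := ⟨m - 1, by
    rw [Nat.sub_add_cancel hm]; exact hy1⟩
  set r := Nat.find hex with hr
  have h1 : y < psum c (r + 1) := Nat.find_spec hex
  have h2 : psum c r ≤ y := by
    rcases Nat.eq_zero_or_pos r with h0 | hpos
    · rw [h0, psum_zero]; exact hy0
    · have := Nat.find_min hex (m := r - 1) (by omega)
      rw [Nat.sub_add_cancel hpos] at this
      exact not_lt.1 this
  refine ⟨r, ?_, n, ?_⟩
  · have := Nat.find_min' hex (m := m - 1) (by rw [Nat.sub_add_cancel hm]; exact hy1)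
    omega
  · unfold cellSet lend
    rw [psum_succ] at h1
    constructor <;> linarith

theorem cell_unique (hc : c ≠ 0) {r r' : ℕ} (hr : r < m) (hr' : r' < m) {n n' : ℤ} {x : ℝ}
    (hx : x ∈ cellSet c m r n) (hx' : x ∈ cellSet c m r' n') : r = r' ∧ n = n' := by
  have hT : 0 < psum c m := by
    have := psum_mono c hc (lt_of_le_of_lt (Nat.zero_le r) hr)
    rwa [psum_zero] at this
  have hmono := psum_mono c hc
  have a1 : 0 ≤ psum c r := by
    have := hmono.monotone (Nat.zero_le r); rwa [psum_zero] at this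
  have a2 : 0 ≤ psum c r' := by
    have := hmono.monotone (Nat.zero_le r'); rwa [psum_zero] at this
  have b1 : psum c (r + 1) ≤ psum c m := hmono.monotone hr
  have b2 : psum c (r' + 1) ≤ psum c m := hmono.monotone hr'
  unfold cellSet lend at hx hx'
  rw [Set.mem_Ico] at hx hx'
  rw [psum_succ] at b1 b2
  have hn : n = n' := by
    have h1 : ((n : ℝ) - n') * psum c m < 1 * psum c m := by nlinarith [hx.1, hx'.2]
    have h2 : (-1) * psum c m < ((n : ℝ) - n') * psum c m := by nlinarith [hx'.1, hx.2]
    have h3 := lt_of_mul_lt_mul_right h1 hT.le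
    have h4 := lt_of_mul_lt_mul_right h2 hT.le
    have h5 : n - n' < 1 := by exact_mod_cast h3
    have h6 : -1 < n - n' := by exact_mod_cast h4
    omega
  subst hn
  refine ⟨?_, rfl⟩
  rcases lt_trichotomy r r' with h | h | h
  · exfalso
    have := hmono.monotone (Nat.succ_le_of_lt h)
    rw [Nat.succ_eq_add_one, psum_succ] at this
    linarith [hx.2, hx'.1]
  · exact h
  · exfalso
    have := hmono.monotone (Nat.succ_le_of_lt h)
    rw [Nat.succ_eq_add_one, psum_succ] at this
    linarith [hx'.2, hx.1]

/-- the cell functions -/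
noncomputable def cell (r : ℕ) (n q : ℤ) (x : ℝ) : ℂ :=
  (cellSet c m r n).indicator
    (fun x => (((len c r)⁻¹ ^ (1 / 2 : ℝ) : ℝ) : ℂ) * ee (-(q * (c ^ r * x)))) x

/-- the sign of `c ^ r` -/
noncomputable def sgn (c : ℝ) : ℤ := if 0 < c then 1 else -1

theorem sgn_mul (hc : c ≠ 0) (r : ℕ) : ((sgn c ^ r : ℤ) : ℝ) = c ^ r * len c r := by
  unfold len sgn
  push_cast
  rw [← inv_pow, ← mul_pow]
  congr 1
  split_ifs with h
  · rw [abs_of_pos h, mul_inv_cancel₀ hc]
  · have h' : c < 0 := lt_of_le_of_ne (not_lt.1 h) hc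
    rw [abs_of_neg h', inv_neg, mul_neg, mul_inv_cancel₀ hc]

theorem pow_eq_sgn_div (hc : c ≠ 0) (r : ℕ) : c ^ r = ((sgn c ^ r : ℤ) : ℝ) / len c r := by
  rw [sgn_mul c hc, mul_div_assoc, div_self (len_pos c hc r).ne', mul_one]

theorem sgn_pow_ne (r : ℕ) : sgn c ^ r ≠ 0 := by
  apply pow_ne_zero
  unfold sgn
  split_ifs <;> norm_num

theorem cell_measurable (r : ℕ) (n q : ℤ) : Measurable (cell c m r n q) := by
  unfold cell
  apply Measurable.indicator _ measurableSet_Ico
  apply Measurable.const_mul
  exact ee_continuous.measurable.comp (by fun_prop)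

theorem cell_inner (hc : c ≠ 0) {r r' : ℕ} (hr : r < m) (hr' : r' < m) (n n' q q' : ℤ) :
    ∫ x, conj (cell c m r n q x) * cell c m r' n' q' x =
      if (r = r' ∧ n = n' ∧ q = q') then 1 else 0 := by
  by_cases h : r = r' ∧ n = n'
  · obtain ⟨rfl, rfl⟩ := h
    have h1 : ∀ x, conj (cell c m r n q x) * cell c m r n q' x
        = (cellSet c m r n).indicator (fun x => (((len c r)⁻¹ : ℝ) : ℂ) *
          ee (((q - q') * sgn c ^ r : ℤ) * (x / len c r))) x := by
      intro x
      unfold cell
      by_cases hx : x ∈ cellSet c m r n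
      · simp only [Set.indicator_of_mem hx]
        rw [map_mul, Complex.conj_ofReal]
        have e1 : (((len c r)⁻¹ ^ (1 / 2 : ℝ) : ℝ) : ℂ) * (((len c r)⁻¹ ^ (1 / 2 : ℝ) : ℝ) : ℂ)
            = (((len c r)⁻¹ : ℝ) : ℂ) := by
          rw [← Complex.ofReal_mul, ← Real.rpow_add (inv_pos.mpr (len_pos c hc r))]
          norm_num
        have e2 : conj (ee (-(q * (c ^ r * x)))) * ee (-(q' * (c ^ r * x)))
            = ee (((q - q') * sgn c ^ r : ℤ) * (x / len c r)) := by
          rw [conj_ee_mul]
          congr 1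
          rw [pow_eq_sgn_div c hc r]
          push_cast
          ring
        rw [← e1, ← e2]
        ring
      · simp only [Set.indicator_of_notMem hx]
        simp
    simp only [h1]
    rw [integral_indicator (by exact measurableSet_Ico), integral_const_mul]
    unfold cellSet
    rw [integral_ee_interval (len_pos c hc r)]
    by_cases hq : q = q'
    · subst hq
      simp only [sub_self, zero_mul, if_true, and_self]
      rw [← Complex.ofReal_mul, inv_mul_cancel₀ (len_pos c hc r).ne', Complex.ofReal_one]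
    · have : (q - q') * sgn c ^ r ≠ 0 := mul_ne_zero (sub_ne_zero.mpr hq) (sgn_pow_ne c r)
      rw [if_neg this, if_neg (by tauto), mul_zero]
  · have h1 : ∀ x, conj (cell c m r n q x) * cell c m r' n' q' x = 0 := by
      intro x
      unfold cell
      by_cases hx : x ∈ cellSet c m r n
      · have hx' : x ∉ cellSet c m r' n' := fun hx' => h (cell_unique c m hc hr hr' hx hx')
        rw [Set.indicator_of_notMem hx', mul_zero]
      · rw [Set.indicator_of_notMem hx, map_zero, zero_mul]
    simp only [h1, integral_zero]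
    rw [if_neg (by tauto)]

theorem cell_total (hc : c ≠ 0) (hm : 0 < m) {f : ℝ → ℂ} (hf : LocallyIntegrable f)
    (H : ∀ r < m, ∀ n q : ℤ, ∫ x, conj (cell c m r n q x) * f x = 0) : f =ᵐ[volume] 0 := by
  have h1 : ∀ r < m, ∀ n : ℤ, f =ᵐ[volume.restrict (cellSet c m r n)] 0 := by
    intro r hr n
    unfold cellSet
    apply ae_eq_zero_of_fourier_zero (len_pos c hc r)
    · exact (hf.integrableOn_isCompact isCompact_Icc).mono_set Set.Ico_subset_Icc_self
    · intro q
      have h2 := H r hr n (q * sgn c ^ r)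
      have h3 : ∀ x, conj (cell c m r n (q * sgn c ^ r) x) * f x
          = (cellSet c m r n).indicator (fun x => (((len c r)⁻¹ ^ (1 / 2 : ℝ) : ℝ) : ℂ) *
            (ee (q * (x / len c r)) * f x)) x := by
        intro x
        unfold cell
        by_cases hx : x ∈ cellSet c m r n
        · simp only [Set.indicator_of_mem hx]
          rw [map_mul, Complex.conj_ofReal, conj_ee, neg_neg, mul_assoc]
          congr 3
          rw [pow_eq_sgn_div c hc r]
          push_cast
          have hs : ((sgn c : ℝ) ^ r) * ((sgn c : ℝ) ^ r) = 1 := by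
            rw [← mul_pow]
            unfold sgn
            split_ifs <;> norm_num
          calc (q : ℝ) * (sgn c : ℝ) ^ r * ((sgn c : ℝ) ^ r / len c r * x)
              = q * (((sgn c : ℝ) ^ r) * ((sgn c : ℝ) ^ r)) * (x / len c r) := by ring
            _ = q * (x / len c r) := by rw [hs, mul_one]
        · simp only [Set.indicator_of_notMem hx]
          simp
      simp only [h3] at h2
      rw [integral_indicator (by exact measurableSet_Ico), integral_const_mul] at h2
      rcases mul_eq_zero.1 h2 with h4 | h4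
      · exfalso
        have : (0 : ℝ) < (len c r)⁻¹ ^ (1 / 2 : ℝ) :=
          Real.rpow_pos_of_pos (inv_pos.mpr (len_pos c hc r)) _
        exact this.ne' (by exact_mod_cast h4)
      · exact h4
  have h2 : f =ᵐ[volume.restrict (⋃ p : Fin m × ℤ, cellSet c m p.1 p.2)] 0 := by
    rw [Filter.EventuallyEq, ae_restrict_iUnion_iff]
    intro p
    exact h1 p.1 p.1.2 p.2
  have h3 : (⋃ p : Fin m × ℤ, cellSet c m p.1 p.2) = Set.univ := by
    rw [Set.eq_univ_iff_forall]
    intro x
    obtain ⟨r, hr, n, hx⟩ := exists_cell c m hc hm x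
    exact Set.mem_iUnion.2 ⟨(⟨r, hr⟩, n), hx⟩
  rw [h3, Measure.restrict_univ] at h2
  exact h2

end Cells

end Pool.Agent.Lib_helper44
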