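import Mathlib
import Pool.Agent.Lib_helper44.Cells

open MeasureTheory Filter Topology Complex
open scoped ENNReal NNReal ComplexConjugate

set_option linter.unusedSectionVars false

namespace Pool.Agent.Lib_helper44

/-- the one dimensional orthonormal basis adapted to the lattices `c ^ l ℤ` -/
noncomputable def Hf (c : ℝ) (m : ℕ) (K : ℤ) (l : ℕ) (k : ℤ) (x : ℝ) : ℂ :=
  cell c m (l % m) (coverSeq K (l / m)).1 ((coverSeq K (l / m)).2 + K ^ (l / m) * k) x

variable {c : ℝ} {m : ℕ} {K : ℤ}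

theorem Hf_mod (hcK : c ^ m = K) (l : ℕ) (k : ℤ) (x : ℝ) :
    Hf c m K l k x = Hf c m K l 0 x * ee (-(k * (c ^ l * x))) := by
  unfold Hf cell
  by_cases hx : x ∈ cellSet c m (l % m) (coverSeq K (l / m)).1
  · simp only [Set.indicator_of_mem hx]
    rw [mul_assoc, ← ee_add]
    congr 2
    have h1 : c ^ l = c ^ (l % m) * (K : ℝ) ^ (l / m) := by
      rw [← hcK, ← pow_mul, ← pow_add, Nat.mod_add_div]
    rw [h1]
    push_cast
    ring
  · simp only [Set.indicator_of_notMem hx]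
    simp

theorem Hf_inner (hc : c ≠ 0) (hm : 0 < m) (hK : K ≠ 0) (l l' : ℕ) (k k' : ℤ) :
    ∫ x, conj (Hf c m K l k x) * Hf c m K l' k' x = if (l = l' ∧ k = k') then 1 else 0 := by
  unfold Hf
  rw [cell_inner c m hc (Nat.mod_lt _ hm) (Nat.mod_lt _ hm)]
  have hiff : (l % m = l' % m ∧ (coverSeq K (l / m)).1 = (coverSeq K (l' / m)).1 ∧
      (coverSeq K (l / m)).2 + K ^ (l / m) * k = (coverSeq K (l' / m)).2 + K ^ (l' / m) * k') ↔
      (l = l' ∧ k = k') := by
    constructor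
    · rintro ⟨h1, h2, h3⟩
      have h4 : ((l / m, k) : ℕ × ℤ) = (l' / m, k') := by
        apply (coverSeq_bijective K hK).1
        simp only [Prod.mk.injEq]
        exact ⟨h2, h3⟩
      rw [Prod.mk.injEq] at h4
      refine ⟨?_, h4.2⟩
      rw [← Nat.mod_add_div l m, ← Nat.mod_add_div l' m, h1, h4.1]
    · rintro ⟨rfl, rfl⟩
      exact ⟨rfl, rfl, rfl⟩
  simp only [hiff]

theorem Hf_total (hc : c ≠ 0) (hm : 0 < m) (hK : K ≠ 0) {f : ℝ → ℂ} (hf : LocallyIntegrable f)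
    (H : ∀ (l : ℕ) (k : ℤ), ∫ x, conj (Hf c m K l k x) * f x = 0) : f =ᵐ[volume] 0 := by
  apply cell_total c m hc hm hf
  intro r hr n q
  obtain ⟨⟨h, k⟩, hk⟩ := (coverSeq_bijective K hK).2 (n, q)
  simp only [Prod.mk.injEq] at hk
  have h1 := H (r + m * h) k
  unfold Hf at h1
  have e1 : (r + m * h) % m = r := by rw [Nat.add_mul_mod_self_left, Nat.mod_eq_of_lt hr]
  have e2 : (r + m * h) / m = h := by
    rw [Nat.add_mul_div_left _ _ hm, Nat.div_eq_of_lt hr, zero_add]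
  rw [e1, e2, hk.1, hk.2] at h1
  exact h1

theorem Hf_measurable (l : ℕ) (k : ℤ) : Measurable (Hf c m K l k) :=
  cell_measurable _ _ _ _ _

theorem Hf_bound (hc : c ≠ 0) (l : ℕ) (k : ℤ) :
    ∃ C : ℝ, ∃ a b : ℝ, ∀ x, ‖Hf c m K l k x‖ ≤ (Set.Ico a b).indicator (fun _ => C) x := by
  refine ⟨(len c (l % m))⁻¹ ^ (1 / 2 : ℝ), lend c m (l % m) (coverSeq K (l / m)).1,
    lend c m (l % m) (coverSeq K (l / m)).1 + len c (l % m), fun x => ?_⟩
  unfold Hf cell
  by_cases hx : x ∈ cellSet c m (l % m) (coverSeq K (l / m)).1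
  · rw [Set.indicator_of_mem hx, Set.indicator_of_mem (by exact hx), norm_mul, norm_ee, mul_one,
      Complex.norm_real, Real.norm_of_nonneg]
    exact Real.rpow_nonneg (inv_pos.mpr (len_pos c hc _)).le _
  · rw [Set.indicator_of_notMem hx, Set.indicator_of_notMem (by exact hx), norm_zero]

theorem Hf_sq_integrable (hc : c ≠ 0) (l : ℕ) (k : ℤ) :
    Integrable (fun x => ‖Hf c m K l k x‖ ^ 2) := by
  obtain ⟨C, a, b, h⟩ := Hf_bound (m := m) (K := K) hc l k
  have h1 : Integrable ((Set.Ico a b).indicator (fun _ => C ^ 2) : ℝ → ℝ) := by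
    rw [integrable_indicator_iff measurableSet_Ico]
    exact integrableOn_const (by simp)
  refine h1.mono' ?_ ?_
  · exact ((Hf_measurable l k).norm.pow_const 2).aestronglyMeasurable
  · filter_upwards with x
    rw [Real.norm_of_nonneg (by positivity)]
    have := h x
    by_cases hx : x ∈ Set.Ico a b
    · rw [Set.indicator_of_mem hx] at this ⊢
      exact pow_le_pow_left₀ (norm_nonneg _) this 2
    · rw [Set.indicator_of_notMem hx] at this ⊢
      have h0 : ‖Hf c m K l k x‖ = 0 := le_antisymm this (norm_nonneg _)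
      rw [h0]; norm_num

theorem Hf_sq_integral (hc : c ≠ 0) (hm : 0 < m) (hK : K ≠ 0) (l : ℕ) (k : ℤ) :
    ∫ x, ‖Hf c m K l k x‖ ^ 2 = 1 := by
  have h := Hf_inner (c := c) (m := m) (K := K) hc hm hK l l k k
  simp only [and_self, if_true] at h
  have h2 : ∀ x, conj (Hf c m K l k x) * Hf c m K l k x = ((‖Hf c m K l k x‖ ^ 2 : ℝ) : ℂ) := by
    intro x
    rw [Complex.conj_mul', Complex.ofReal_pow]
  simp only [h2] at h
  rw [integral_complex_ofReal] at h
  exact_mod_cast h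

/-- rescaled versions -/
noncomputable def Hs (c : ℝ) (m : ℕ) (K : ℤ) (a : ℝ) (l : ℕ) (k : ℤ) (z : ℝ) : ℂ :=
  ((|a| ^ (1 / 2 : ℝ) : ℝ) : ℂ) * Hf c m K l k (a * z)

theorem Hs_inner (hc : c ≠ 0) (hm : 0 < m) (hK : K ≠ 0) {a : ℝ} (ha : a ≠ 0)
    (l l' : ℕ) (k k' : ℤ) :
    ∫ x, conj (Hs c m K a l k x) * Hs c m K a l' k' x = if (l = l' ∧ k = k') then 1 else 0 := by
  rw [← Hf_inner hc hm hK l l' k k']
  have h1 : ∀ x, conj (Hs c m K a l k x) * Hs c m K a l' k' x
      = (|a| : ℝ) • (fun y => conj (Hf c m K l k y) * Hf c m K l' k' y) (a * x) := by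
    intro x
    unfold Hs
    have e1 : ((|a| ^ (1 / 2 : ℝ) : ℝ) : ℂ) * ((|a| ^ (1 / 2 : ℝ) : ℝ) : ℂ) = ((|a| : ℝ) : ℂ) := by
      rw [← Complex.ofReal_mul, ← Real.rpow_add (abs_pos.mpr ha)]
      norm_num
    rw [map_mul, Complex.conj_ofReal, Complex.real_smul, ← e1]
    ring
  simp only [h1]
  rw [integral_smul, Measure.integral_comp_mul_left
    (fun y => conj (Hf c m K l k y) * Hf c m K l' k' y), smul_smul, abs_inv,
    mul_inv_cancel₀ (abs_pos.mpr ha).ne', one_smul]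

theorem Hs_sq_integral (hc : c ≠ 0) (hm : 0 < m) (hK : K ≠ 0) {a : ℝ} (ha : a ≠ 0)
    (l : ℕ) (k : ℤ) : ∫ x, ‖Hs c m K a l k x‖ ^ 2 = 1 := by
  have h := Hs_inner (c := c) (m := m) (K := K) hc hm hK ha l l k k
  simp only [and_self, if_true] at h
  have h2 : ∀ x, conj (Hs c m K a l k x) * Hs c m K a l k x
      = ((‖Hs c m K a l k x‖ ^ 2 : ℝ) : ℂ) := by
    intro x
    rw [Complex.conj_mul', Complex.ofReal_pow]
  simp only [h2] at h
  rw [integral_complex_ofReal] at h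
  exact_mod_cast h

theorem Hs_sq_integrable (hc : c ≠ 0) {a : ℝ} (ha : a ≠ 0) (l : ℕ) (k : ℤ) :
    Integrable (fun x => ‖Hs c m K a l k x‖ ^ 2) := by
  have h1 := (Hf_sq_integrable (m := m) (K := K) hc l k).comp_mul_left' ha
  have h2 := h1.const_mul (|a| ^ (1 / 2 : ℝ) * |a| ^ (1 / 2 : ℝ))
  refine h2.congr ?_
  filter_upwards with x
  unfold Hs
  rw [norm_mul, Complex.norm_real, Real.norm_of_nonneg (Real.rpow_nonneg (abs_nonneg a) _)]
  ring

theorem Hs_sq_lintegral (hc : c ≠ 0) (hm : 0 < m) (hK : K ≠ 0) {a : ℝ} (ha : a ≠ 0)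
    (l : ℕ) (k : ℤ) : ∫⁻ x, ‖Hs c m K a l k x‖ₑ ^ 2 = 1 := by
  have h1 := ofReal_integral_eq_lintegral_ofReal (Hs_sq_integrable (m := m) (K := K) hc ha l k)
    (Eventually.of_forall fun x => by positivity)
  rw [Hs_sq_integral hc hm hK ha, ENNReal.ofReal_one] at h1
  rw [h1]
  congr 1
  ext x
  rw [ENNReal.ofReal_pow (norm_nonneg _), ofReal_norm]

theorem Hs_total (hc : c ≠ 0) (hm : 0 < m) (hK : K ≠ 0) {a : ℝ} (ha : a ≠ 0) {f : ℝ → ℂ}
    (hf : LocallyIntegrable f)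
    (H : ∀ (l : ℕ) (k : ℤ), ∫ x, conj (Hs c m K a l k x) * f x = 0) : f =ᵐ[volume] 0 := by
  have hai : a⁻¹ ≠ 0 := inv_ne_zero ha
  have hg : LocallyIntegrable (fun x => f (a⁻¹ * x)) := by
    have h1 : LocallyIntegrable f (Measure.map (Homeomorph.mulLeft₀ a⁻¹ hai) volume) := by
      have h2 : Measure.map (Homeomorph.mulLeft₀ a⁻¹ hai) volume
          = ENNReal.ofReal |a⁻¹⁻¹| • (volume : Measure ℝ) := Real.map_volume_mul_left hai
      rw [h2]
      intro x
      obtain ⟨u, hu, hfu⟩ := hf x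
      refine ⟨u, hu, ?_⟩
      rw [IntegrableOn, Measure.restrict_smul]
      exact hfu.smul_measure ENNReal.ofReal_ne_top
    exact (locallyIntegrable_map_homeomorph (Homeomorph.mulLeft₀ a⁻¹ hai)).mp h1
  have h0 : (fun x => f (a⁻¹ * x)) =ᵐ[volume] 0 := by
    apply Hf_total hc hm hK hg
    intro l k
    have h1 := H l k
    have h2 : ∀ x, conj (Hs c m K a l k x) * f x
        = ((|a| ^ (1 / 2 : ℝ) : ℝ) : ℂ) * (fun y => conj (Hf c m K l k y) * f (a⁻¹ * y)) (a * x) := by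
      intro x
      unfold Hs
      simp only [map_mul, Complex.conj_ofReal]
      rw [← mul_assoc a⁻¹, inv_mul_cancel₀ ha, one_mul]
      ring
    simp only [h2] at h1
    rw [integral_const_mul, Measure.integral_comp_mul_left
      (fun y => conj (Hf c m K l k y) * f (a⁻¹ * y))] at h1
    have h3 : ((|a| ^ (1 / 2 : ℝ) : ℝ) : ℂ) ≠ 0 := by
      rw [Complex.ofReal_ne_zero]
      exact (Real.rpow_pos_of_pos (abs_pos.mpr ha) _).ne'
    have h4 := (mul_eq_zero.mp h1).resolve_left h3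
    exact (smul_eq_zero.mp h4).resolve_left (abs_pos.mpr (inv_ne_zero ha)).ne'
  have h5 : Measure.QuasiMeasurePreserving (fun x : ℝ => a * x) volume volume := by
    refine ⟨measurable_const_mul a, ?_⟩
    rw [Real.map_volume_mul_left ha]
    exact Measure.smul_absolutelyContinuous
  have h6 := h5.ae h0
  filter_upwards [h6] with x hx
  rw [← mul_assoc, inv_mul_cancel₀ ha, one_mul] at hx
  exact hx

theorem Hs_measurable (a : ℝ) (l : ℕ) (k : ℤ) : Measurable (Hs c m K a l k) :=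
  ((Hf_measurable l k).comp (measurable_const_mul a)).const_mul _

end Pool.Agent.Lib_helper44
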