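import Mathlib
import Pool.Agent.Lib_helper44.HFam

open MeasureTheory Filter Topology Complex
open scoped ENNReal NNReal ComplexConjugate

set_option linter.unusedSectionVars false

namespace Pool.Agent.Lib_helper44

/-- the dyadic type index -/
noncomputable def idx (L s : ℝ) : ℤ := ⌊-(Real.logb L (2 * |s|))⌋

theorem measurable_idx (L : ℝ) : Measurable (idx L) := by
  unfold idx Real.logb
  apply Measurable.floor
  apply Measurable.neg
  apply Measurable.div_const
  exact Real.measurable_log.comp ((measurable_const.mul continuous_abs.measurable))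

theorem le_idx_iff {L : ℝ} (hL : 1 < L) {s : ℝ} (hs : s ≠ 0) (i : ℤ) :
    i ≤ idx L s ↔ |s| ≤ L ^ (-i) / 2 := by
  unfold idx
  have h2 : 0 < 2 * |s| := by positivity
  rw [Int.le_floor, le_neg, Real.logb_le_iff_le_rpow hL h2, ← Int.cast_neg, Real.rpow_intCast,
    le_div_iff₀ (by norm_num : (0 : ℝ) < 2), mul_comm]

theorem idx_zpow_mul {a : ℝ} (ha : 1 < |a|) {s : ℝ} (hs : s ≠ 0) (j : ℤ) :
    idx |a| (a ^ j * s) = idx |a| s - j := by
  unfold idx
  have h0 : |a| ≠ 0 := by linarith
  have h1 : 2 * |a ^ j * s| = |a| ^ (j : ℝ) * (2 * |s|) := by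
    rw [abs_mul, abs_zpow, Real.rpow_intCast]
    ring
  rw [h1, Real.logb_mul (Real.rpow_pos_of_pos (by linarith) _).ne' (by positivity),
    Real.logb_rpow (by linarith) (by linarith), neg_add, add_comm, ← sub_eq_add_neg,
    Int.floor_sub_intCast]

end Pool.Agent.Lib_helper44
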