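import Mathlib
import Pool.Agent.Lib_helper44.Idx
import Pool.Agent.Lib_helper44.ONB

open MeasureTheory Filter Topology Complex
open scoped ENNReal NNReal ComplexConjugate

set_option linter.unusedSectionVars false

namespace Pool.Agent.Lib_helper44

/-- the frequency profile in adapted coordinates -/
noncomputable def Phi (lam mu : ℝ) (m : ℕ) (K : ℤ) (p : ℝ × ℝ) : ℂ :=
  if 0 ≤ idx |lam| p.1 then
    Hs mu⁻¹ m K (mu ^ idx |lam| p.1) (idx |lam| p.1).toNat 0 p.2 else 0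

/-- the wavelet family in adapted frequency coordinates -/
noncomputable def FF (lam mu t : ℝ) (m : ℕ) (K : ℤ) (i : ℤ × (ℤ × ℤ)) (p : ℝ × ℝ) : ℂ :=
  ((|lam * mu| ^ (-(i.1 : ℝ) / 2) : ℝ) : ℂ) *
   (ee (-((i.2.1 + t * i.2.2) * (lam ^ (-i.1) * p.1) + i.2.2 * (mu ^ (-i.1) * p.2))) *
    Phi lam mu m K (lam ^ (-i.1) * p.1, mu ^ (-i.1) * p.2))

variable {lam mu t : ℝ} {m : ℕ} {K : ℤ}

theorem Phi_measurable : Measurable (Phi lam mu m K) := by
  have h1 : Measurable (fun q : ℤ × ℝ => if 0 ≤ q.1 then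
      Hs mu⁻¹ m K (mu ^ q.1) (q.1).toNat 0 q.2 else 0) := by
    apply measurable_from_prod_countable_right
    intro i
    by_cases hi : 0 ≤ i
    · simp only [hi, if_true]
      exact Hs_measurable _ _ _
    · simp only [hi, if_false]
      exact measurable_const
  exact h1.comp (((measurable_idx _).comp measurable_fst).prodMk measurable_snd)

theorem FF_measurable (i : ℤ × (ℤ × ℤ)) : Measurable (FF lam mu t m K i) := by
  unfold FF
  apply Measurable.const_mul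
  apply Measurable.mul
  · apply ee_continuous.measurable.comp
    fun_prop
  · apply Phi_measurable.comp
    fun_prop

theorem FF_eq (hl : 1 < |lam|) (hmu : mu ≠ 0) (hK : mu⁻¹ ^ m = K) (j k1 k2 : ℤ) {s : ℝ}
    (hs : s ≠ 0) (z : ℝ) :
    FF lam mu t m K (j, (k1, k2)) (s, z) = if 0 ≤ idx |lam| s + j then
      ((|lam| ^ (-(j : ℝ) / 2) : ℝ) : ℂ) * ee (-((k1 + t * k2) * (lam ^ (-j) * s))) *
        Hs mu⁻¹ m K (mu ^ (idx |lam| s)) (idx |lam| s + j).toNat k2 z else 0 := by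
  have hl0 : lam ≠ 0 := by
    intro h
    rw [h, abs_zero] at hl
    linarith
  unfold FF Phi
  simp only
  rw [idx_zpow_mul hl hs, sub_neg_eq_add]
  by_cases hij : 0 ≤ idx |lam| s + j
  · rw [if_pos hij, if_pos hij]
    unfold Hs
    set i := idx |lam| s with hi
    set l := (i + j).toNat with hlij
    have hlj : ((l : ℕ) : ℤ) = i + j := Int.toNat_of_nonneg hij
    have e1 : mu ^ (i + j) * (mu ^ (-j) * z) = mu ^ i * z := by
      rw [← mul_assoc, ← zpow_add₀ hmu]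
      congr 2
      ring
    rw [e1, Hf_mod hK l k2]
    have e2 : mu⁻¹ ^ l * (mu ^ i * z) = mu ^ (-j) * z := by
      rw [← zpow_natCast, hlj, ← mul_assoc, inv_zpow', ← zpow_add₀ hmu]
      congr 2
      ring
    rw [e2]
    have e3 : ((|lam * mu| ^ (-(j : ℝ) / 2) : ℝ) : ℂ) * ((|mu ^ (i + j)| ^ (1 / 2 : ℝ) : ℝ) : ℂ)
        = ((|lam| ^ (-(j : ℝ) / 2) : ℝ) : ℂ) * ((|mu ^ i| ^ (1 / 2 : ℝ) : ℝ) : ℂ) := by
      rw [← Complex.ofReal_mul, ← Complex.ofReal_mul]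
      congr 1
      have hmu' : 0 < |mu| := abs_pos.mpr hmu
      rw [abs_mul, Real.mul_rpow (abs_nonneg _) (abs_nonneg _), mul_assoc]
      congr 1
      rw [abs_zpow, abs_zpow, ← Real.rpow_intCast, ← Real.rpow_intCast, ← Real.rpow_mul hmu'.le,
        ← Real.rpow_mul hmu'.le, ← Real.rpow_add hmu']
      congr 1
      push_cast
      ring
    have e4 : ee (-((k1 + t * k2) * (lam ^ (-j) * s) + k2 * (mu ^ (-j) * z)))
        = ee (-((k1 + t * k2) * (lam ^ (-j) * s))) * ee (-(k2 * (mu ^ (-j) * z))) := by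
      rw [← ee_add]
      congr 1
      ring
    rw [e4]
    linear_combination (ee (-((k1 + t * k2) * (lam ^ (-j) * s))) * ee (-(k2 * (mu ^ (-j) * z))) *
      Hf mu⁻¹ m K l 0 (mu ^ i * z)) * e3
  · rw [if_neg hij, if_neg hij]
    simp

/-- the set of `s` where the fibre is active -/
theorem active_iff (hl : 1 < |lam|) {s : ℝ} (hs : s ≠ 0) (j : ℤ) :
    0 ≤ idx |lam| s + j ↔ |s| ≤ |lam| ^ j / 2 := by
  rw [← neg_le_iff_add_nonneg, le_idx_iff hl hs, neg_neg]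

theorem ae_active_iff (hl : 1 < |lam|) (j : ℤ) : ∀ᵐ s : ℝ,
    s ≠ 0 ∧ (0 ≤ idx |lam| s + j ↔ s ∈ Set.Ico (-(|lam| ^ j / 2)) (-(|lam| ^ j / 2) + |lam| ^ j)) := by
  have h1 : ∀ᵐ s : ℝ, s ≠ 0 := by
    rw [ae_iff]
    simp
  have h2 : ∀ᵐ s : ℝ, s ≠ |lam| ^ j / 2 := by
    rw [ae_iff]
    simp
  filter_upwards [h1, h2] with s hs hs2
  refine ⟨hs, ?_⟩
  rw [active_iff hl hs, abs_le, Set.mem_Ico]
  constructor
  · rintro ⟨h3, h4⟩
    refine ⟨h3, ?_⟩
    rcases lt_or_eq_of_le h4 with h5 | h5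
    · linarith
    · exact absurd h5 hs2
  · rintro ⟨h3, h4⟩
    exact ⟨h3, by linarith⟩

theorem memLp_two_of_lintegral {α : Type*} {mα : MeasurableSpace α} {μ : Measure α} {f : α → ℂ}
    (hf : AEStronglyMeasurable f μ) (h : ∫⁻ x, ‖f x‖ₑ ^ 2 ∂μ < ⊤) : MemLp f 2 μ := by
  refine ⟨hf, ?_⟩
  rw [eLpNorm_lt_top_iff_lintegral_rpow_enorm_lt_top (by norm_num) (by norm_num)]
  simpa using h

theorem FF_memLp (hl : 1 < |lam|) (hmu : mu ≠ 0) (hm : 0 < m) (hK0 : K ≠ 0)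
    (hK : mu⁻¹ ^ m = K) (i : ℤ × (ℤ × ℤ)) : MemLp (FF lam mu t m K i) 2 (volume : Measure (ℝ × ℝ)) := by
  obtain ⟨j, k1, k2⟩ := i
  apply memLp_two_of_lintegral (FF_measurable _).aestronglyMeasurable
  have hmeas : Measurable fun p : ℝ × ℝ => ‖FF lam mu t m K (j, (k1, k2)) p‖ₑ ^ 2 :=
    (FF_measurable (j, (k1, k2))).enorm.pow_const 2
  rw [Measure.volume_eq_prod, lintegral_prod _ hmeas.aemeasurable]
  have hT : (0 : ℝ) < |lam| ^ j := zpow_pos (by linarith) j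
  have h1 : ∀ᵐ s : ℝ, (∫⁻ z, ‖FF lam mu t m K (j, (k1, k2)) (s, z)‖ₑ ^ 2)
      = (Set.Ico (-(|lam| ^ j / 2)) (-(|lam| ^ j / 2) + |lam| ^ j)).indicator
        (fun _ => ‖((|lam| ^ (-(j : ℝ) / 2) : ℝ) : ℂ)‖ₑ ^ 2) s := by
    filter_upwards [ae_active_iff hl j] with s hs
    obtain ⟨hs0, hs1⟩ := hs
    simp only [FF_eq hl hmu hK j k1 k2 hs0]
    by_cases h : 0 ≤ idx |lam| s + j
    · simp only [h, if_true]
      rw [Set.indicator_of_mem (hs1.mp h)]
      have e1 : ∀ z, ‖((|lam| ^ (-(j : ℝ) / 2) : ℝ) : ℂ) * ee (-((k1 + t * k2) * (lam ^ (-j) * s))) *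
        Hs mu⁻¹ m K (mu ^ (idx |lam| s)) (idx |lam| s + j).toNat k2 z‖ₑ ^ 2
        = ‖((|lam| ^ (-(j : ℝ) / 2) : ℝ) : ℂ)‖ₑ ^ 2 *
          ‖Hs mu⁻¹ m K (mu ^ (idx |lam| s)) (idx |lam| s + j).toNat k2 z‖ₑ ^ 2 := by
        intro z
        rw [enorm_mul, enorm_mul]
        have : ‖ee (-((k1 + t * k2) * (lam ^ (-j) * s)))‖ₑ = 1 := by
          rw [← ofReal_norm, norm_ee, ENNReal.ofReal_one]
        rw [this, mul_one, mul_pow]
      simp only [e1]
      rw [lintegral_const_mul _ ((Hs_measurable _ _ _).enorm.pow_const 2),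
        Hs_sq_lintegral (inv_ne_zero hmu) hm hK0 (zpow_ne_zero _ hmu), mul_one]
    · simp only [h, if_false]
      rw [Set.indicator_of_notMem (fun hh => h (hs1.mpr hh))]
      simp
  rw [lintegral_congr_ae h1, lintegral_indicator measurableSet_Ico, lintegral_const]
  apply ENNReal.mul_lt_top
  · exact ENNReal.pow_lt_top enorm_lt_top
  · rw [Measure.restrict_apply_univ]
    simp

end Pool.Agent.Lib_helper44
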