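import Mathlib
import Pool.Agent.Lib_helper44.Fiber

open MeasureTheory Filter Topology Complex
open scoped ENNReal NNReal ComplexConjugate

set_option linter.unusedSectionVars false

namespace Pool.Agent.Lib_helper44

variable {lam mu t : ℝ} {m : ℕ} {K : ℤ}

theorem integrable_conj_mul {α : Type*} {mα : MeasurableSpace α} {μ : Measure α} {f g : α → ℂ}
    (hf : MemLp f 2 μ) (hg : MemLp g 2 μ) : Integrable (fun x => conj (f x) * g x) μ := by
  have h1 : MemLp (fun x => conj (f x)) 2 μ := hf.star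
  exact h1.integrable_mul hg

/-- the fibrewise inner products -/
theorem FF_fiber_inner (hl : 1 < |lam|) (hmu : mu ≠ 0) (hm : 0 < m) (hK0 : K ≠ 0)
    (hK : mu⁻¹ ^ m = K) (j k1 k2 j' k1' k2' : ℤ) : ∀ᵐ s : ℝ,
    ∫ z, conj (FF lam mu t m K (j, (k1, k2)) (s, z)) * FF lam mu t m K (j', (k1', k2')) (s, z)
      = if j = j' ∧ k2 = k2' then
        (Set.Ico (-(|lam| ^ j / 2)) (-(|lam| ^ j / 2) + |lam| ^ j)).indicator
        (fun s => ((|lam| ^ (-j) : ℝ) : ℂ) * ee ((k1 - k1' : ℤ) * (lam ^ (-j) * s))) s else 0 := by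
  filter_upwards [ae_active_iff hl j, ae_active_iff hl j'] with s hs hs'
  obtain ⟨hs0, hs1⟩ := hs
  have hs2 := hs'.2
  have hll : 0 < |lam| := by linarith
  simp only [FF_eq hl hmu hK j k1 k2 hs0, FF_eq hl hmu hK j' k1' k2' hs0]
  by_cases h : 0 ≤ idx |lam| s + j
  · by_cases h' : 0 ≤ idx |lam| s + j'
    · simp only [h, h', if_true]
      set c1 : ℂ := ((|lam| ^ (-(j : ℝ) / 2) : ℝ) : ℂ) * ee (-((k1 + t * k2) * (lam ^ (-j) * s)))
        with hc1
      set c2 : ℂ := ((|lam| ^ (-(j' : ℝ) / 2) : ℝ) : ℂ) *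
        ee (-((k1' + t * k2') * (lam ^ (-j') * s))) with hc2
      have e1 : ∀ z, conj (c1 * Hs mu⁻¹ m K (mu ^ (idx |lam| s)) (idx |lam| s + j).toNat k2 z) *
          (c2 * Hs mu⁻¹ m K (mu ^ (idx |lam| s)) (idx |lam| s + j').toNat k2' z)
          = (conj c1 * c2) *
            (conj (Hs mu⁻¹ m K (mu ^ (idx |lam| s)) (idx |lam| s + j).toNat k2 z) *
            Hs mu⁻¹ m K (mu ^ (idx |lam| s)) (idx |lam| s + j').toNat k2' z) := by
        intro z
        rw [map_mul]
        ring
      simp only [e1]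
      rw [integral_const_mul, Hs_inner (inv_ne_zero hmu) hm hK0 (zpow_ne_zero _ hmu)]
      have e2 : ((idx |lam| s + j).toNat = (idx |lam| s + j').toNat ∧ k2 = k2') ↔
          (j = j' ∧ k2 = k2') := by
        constructor
        · rintro ⟨h1, h2⟩
          refine ⟨?_, h2⟩
          have := congrArg (fun n : ℕ => (n : ℤ)) h1
          simp only [Int.toNat_of_nonneg h, Int.toNat_of_nonneg h'] at this
          linarith
        · rintro ⟨rfl, rfl⟩
          exact ⟨rfl, rfl⟩
      simp only [e2]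
      by_cases hjk : j = j' ∧ k2 = k2'
      · rw [if_pos hjk, if_pos hjk, Set.indicator_of_mem (hs1.mp h), mul_one]
        obtain ⟨rfl, rfl⟩ := hjk
        rw [hc1, hc2, map_mul, Complex.conj_ofReal]
        have e3 : ((|lam| ^ (-(j : ℝ) / 2) : ℝ) : ℂ) * ((|lam| ^ (-(j : ℝ) / 2) : ℝ) : ℂ)
            = ((|lam| ^ (-j) : ℝ) : ℂ) := by
          rw [← Complex.ofReal_mul, ← Real.rpow_add hll, ← Real.rpow_intCast]
          congr 2
          push_cast
          ring
        have e4 : conj (ee (-((k1 + t * k2) * (lam ^ (-j) * s)))) *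
            ee (-((k1' + t * k2) * (lam ^ (-j) * s))) = ee ((k1 - k1' : ℤ) * (lam ^ (-j) * s)) := by
          rw [conj_ee_mul]
          congr 1
          push_cast
          ring
        rw [← e3, ← e4]
        ring
      · rw [if_neg hjk, if_neg hjk, mul_zero]
    · simp only [h', if_false, mul_zero, integral_zero]
      by_cases hjk : j = j' ∧ k2 = k2'
      · exact absurd (hjk.1 ▸ h) h'
      · rw [if_neg hjk]
  · simp only [h, if_false, map_zero, zero_mul, integral_zero]
    by_cases hjk : j = j' ∧ k2 = k2'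
    · rw [if_pos hjk, Set.indicator_of_notMem (fun hh => h (hs1.mpr hh))]
    · rw [if_neg hjk]

theorem lam_sign (hl : 1 < |lam|) (j : ℤ) : ∃ e : ℤ, (e = 1 ∨ e = -1) ∧
    ∀ s : ℝ, lam ^ (-j) * s = e * (s / |lam| ^ j) := by
  have hll : 0 < |lam| := by linarith
  have h0 : lam ≠ 0 := abs_pos.mp hll
  have h1 : |lam ^ j| = |lam| ^ j := abs_zpow _ _
  rcases lt_or_gt_of_ne (zpow_ne_zero j h0) with h | h
  · refine ⟨-1, Or.inr rfl, fun s => ?_⟩
    rw [← h1, abs_of_neg h, zpow_neg]
    push_cast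
    field_simp
  · refine ⟨1, Or.inl rfl, fun s => ?_⟩
    rw [← h1, abs_of_pos h, zpow_neg]
    push_cast
    field_simp

theorem FF_inner (hl : 1 < |lam|) (hmu : mu ≠ 0) (hm : 0 < m) (hK0 : K ≠ 0)
    (hK : mu⁻¹ ^ m = K) (i i' : ℤ × (ℤ × ℤ)) :
    ∫ p : ℝ × ℝ, conj (FF lam mu t m K i p) * FF lam mu t m K i' p = if i = i' then 1 else 0 := by
  have hint := integrable_conj_mul (FF_memLp (t := t) hl hmu hm hK0 hK i)
    (FF_memLp (t := t) hl hmu hm hK0 hK i')
  obtain ⟨j, k1, k2⟩ := i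
  obtain ⟨j', k1', k2'⟩ := i'
  rw [Measure.volume_eq_prod] at hint ⊢
  rw [integral_prod _ hint, integral_congr_ae (FF_fiber_inner hl hmu hm hK0 hK j k1 k2 j' k1' k2')]
  have hT : (0 : ℝ) < |lam| ^ j := zpow_pos (by linarith) j
  by_cases hjk : j = j' ∧ k2 = k2'
  · simp only [hjk, and_self, if_true]
    obtain ⟨rfl, rfl⟩ := hjk
    rw [integral_indicator measurableSet_Ico, integral_const_mul]
    obtain ⟨e, he, hes⟩ := lam_sign hl j
    have h2 : ∀ s : ℝ, ee ((k1 - k1' : ℤ) * (lam ^ (-j) * s))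
        = ee (((k1 - k1') * e : ℤ) * (s / |lam| ^ j)) := by
      intro s
      rw [hes]
      congr 1
      push_cast
      ring
    simp only [h2]
    rw [integral_ee_interval hT]
    have h3 : (k1 - k1') * e = 0 ↔ k1 = k1' := by
      rcases he with rfl | rfl
      · omega
      · omega
    simp only [h3, Prod.mk.injEq, true_and, and_true]
    split_ifs with h
    · rw [← Complex.ofReal_mul, zpow_neg, inv_mul_cancel₀ hT.ne', Complex.ofReal_one]
    · rw [mul_zero]
  · simp only [hjk, if_false, integral_zero]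
    rw [if_neg]
    intro hh
    simp only [Prod.mk.injEq] at hh
    exact hjk ⟨hh.1, hh.2.2⟩

theorem FF_total (hl : 1 < |lam|) (hmu : mu ≠ 0) (hm : 0 < m) (hK0 : K ≠ 0)
    (hK : mu⁻¹ ^ m = K) (g : ℝ × ℝ → ℂ) (hg : MemLp g 2 (volume : Measure (ℝ × ℝ)))
    (H : ∀ i, ∫ p : ℝ × ℝ, conj (FF lam mu t m K i p) * g p = 0) : g =ᵐ[volume] 0 := by
  have hll : 0 < |lam| := by linarith
  have hsq : Integrable (fun p => ‖g p‖ ^ 2) (volume : Measure (ℝ × ℝ)) :=
    (memLp_two_iff_integrable_sq_norm hg.1).mp hg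
  -- fibre integrals vanish
  have hfib : ∀ (j k2 : ℤ), ∀ᵐ s : ℝ, 0 ≤ idx |lam| s + j →
      ∫ z, conj (Hs mu⁻¹ m K (mu ^ (idx |lam| s)) (idx |lam| s + j).toNat k2 z) * g (s, z) = 0 := by
    intro j k2
    have hT : (0 : ℝ) < |lam| ^ j := zpow_pos hll j
    have hint0 := integrable_conj_mul (FF_memLp (t := t) hl hmu hm hK0 hK (j, (0, k2))) hg
    rw [Measure.volume_eq_prod] at hint0
    have hG := hint0.integral_prod_left
    set G : ℝ → ℂ := fun s => ∫ z, conj (FF lam mu t m K (j, (0, k2)) (s, z)) * g (s, z) with hGdef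
    have hG0 : G =ᵐ[volume.restrict (Set.Ico (-(|lam| ^ j / 2)) (-(|lam| ^ j / 2) + |lam| ^ j))]
        0 := by
      apply ae_eq_zero_of_fourier_zero hT hG.integrableOn
      intro q
      obtain ⟨e, he, hes⟩ := lam_sign hl j
      have hee : (e : ℝ) * e = 1 := by
        rcases he with rfl | rfl <;> norm_num
      have h1 := H (j, (e * q, k2))
      have hint1 := integrable_conj_mul (FF_memLp (t := t) hl hmu hm hK0 hK (j, (e * q, k2))) hg
      rw [Measure.volume_eq_prod] at h1 hint1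
      rw [integral_prod _ hint1] at h1
      rw [← h1, ← integral_indicator measurableSet_Ico]
      apply integral_congr_ae
      filter_upwards [ae_active_iff hl j] with s hs
      obtain ⟨hs0, hs1⟩ := hs
      by_cases h : 0 ≤ idx |lam| s + j
      · rw [Set.indicator_of_mem (hs1.mp h)]
        simp only [hGdef, FF_eq hl hmu hK j _ k2 hs0, h, if_true]
        rw [← integral_const_mul]
        congr 1
        ext z
        simp only [map_mul, conj_ee]
        have e1 : ee (q * (s / |lam| ^ j)) * ee (-(-(((0 : ℤ) + t * k2) * (lam ^ (-j) * s))))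
            = ee (-(-(((e * q : ℤ) + t * k2) * (lam ^ (-j) * s)))) := by
          rw [← ee_add]
          congr 1
          have : ((e * q : ℤ) : ℝ) * (lam ^ (-j) * s) = q * (s / |lam| ^ j) := by
            rw [hes]
            push_cast
            linear_combination (q * (s / |lam| ^ j)) * hee
          push_cast at this ⊢
          linear_combination -this
        rw [← e1]
        ring
      · rw [Set.indicator_of_notMem (fun hh => h (hs1.mpr hh))]
        simp only [FF_eq hl hmu hK j _ k2 hs0, h, if_false, map_zero, zero_mul, integral_zero]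
    rw [Filter.EventuallyEq, ae_restrict_iff' measurableSet_Ico] at hG0
    filter_upwards [hG0, ae_active_iff hl j] with s hs1 hs2 hs3
    obtain ⟨hs0, hs4⟩ := hs2
    have h5 := hs1 (hs4.mp hs3)
    simp only [hGdef, FF_eq hl hmu hK j _ k2 hs0, hs3, if_true, Pi.zero_apply, map_mul] at h5
    have h6 : ∀ z, conj ((((|lam| ^ (-(j : ℝ) / 2) : ℝ)) : ℂ)) *
        conj (ee (-(((0 : ℤ) + t * k2) * (lam ^ (-j) * s)))) *
        conj (Hs mu⁻¹ m K (mu ^ (idx |lam| s)) (idx |lam| s + j).toNat k2 z) * g (s, z)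
        = (conj ((((|lam| ^ (-(j : ℝ) / 2) : ℝ)) : ℂ)) *
        conj (ee (-(((0 : ℤ) + t * k2) * (lam ^ (-j) * s))))) *
        (conj (Hs mu⁻¹ m K (mu ^ (idx |lam| s)) (idx |lam| s + j).toNat k2 z) * g (s, z)) := by
      intro z
      ring
    simp only [h6] at h5
    rw [integral_const_mul] at h5
    refine (mul_eq_zero.mp h5).resolve_left ?_
    apply mul_ne_zero
    · rw [Complex.conj_ofReal]
      exact Complex.ofReal_ne_zero.mpr (Real.rpow_pos_of_pos hll _).ne'
    · rw [conj_ee]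
      exact ee_ne_zero _
  have hall : ∀ᵐ s : ℝ, ∀ (j k2 : ℤ), 0 ≤ idx |lam| s + j →
      ∫ z, conj (Hs mu⁻¹ m K (mu ^ (idx |lam| s)) (idx |lam| s + j).toNat k2 z) * g (s, z) = 0 := by
    rw [ae_all_iff]
    intro j
    rw [ae_all_iff]
    intro k2
    exact hfib j k2
  have hmeas : AEStronglyMeasurable g ((volume : Measure ℝ).prod (volume : Measure ℝ)) := by
    rw [← Measure.volume_eq_prod]; exact hg.1
  have hsq' : Integrable (fun p => ‖g p‖ ^ 2) ((volume : Measure ℝ).prod (volume : Measure ℝ)) := by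
    rw [← Measure.volume_eq_prod]; exact hsq
  have hzero : ∀ᵐ s : ℝ, ∀ᵐ z : ℝ, g (s, z) = 0 := by
    filter_upwards [hall, hsq'.prod_right_ae, hmeas.prodMk_left] with s h1 h2 h3
    have h4 : MemLp (fun z => g (s, z)) 2 (volume : Measure ℝ) :=
      (memLp_two_iff_integrable_sq_norm h3).mpr h2
    have h5 : LocallyIntegrable (fun z => g (s, z)) := h4.locallyIntegrable (by norm_num)
    apply Hs_total (inv_ne_zero hmu) hm hK0 (zpow_ne_zero (idx |lam| s) hmu) h5
    intro l k
    have h6 := h1 (l - idx |lam| s) k (by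
      have : (0 : ℤ) ≤ l := Int.natCast_nonneg l
      linarith)
    have h7 : (idx |lam| s + (l - idx |lam| s)).toNat = l := by
      rw [add_sub_cancel]
      exact Int.toNat_natCast l
    rw [h7] at h6
    exact h6
  have h8 : ∀ᵐ p ∂((volume : Measure ℝ).prod (volume : Measure ℝ)), ‖g p‖ₑ ^ 2 = 0 := by
    have hm2 : AEMeasurable (fun p : ℝ × ℝ => ‖g p‖ₑ ^ 2)
        ((volume : Measure ℝ).prod (volume : Measure ℝ)) := hmeas.enorm.pow_const 2
    have h9 : ∫⁻ p, ‖g p‖ₑ ^ 2 ∂((volume : Measure ℝ).prod (volume : Measure ℝ)) = 0 := by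
      rw [lintegral_prod _ hm2]
      rw [lintegral_eq_zero_iff' hm2.lintegral_prod_right']
      filter_upwards [hzero] with s hs
      rw [Pi.zero_apply]
      rw [lintegral_congr_ae (g := fun _ => 0)]
      · simp
      · filter_upwards [hs] with z hz
        rw [hz]
        simp
    exact (lintegral_eq_zero_iff' hm2).mp h9
  rw [Measure.volume_eq_prod]
  filter_upwards [h8] with p hp
  simpa using hp

theorem FF_isONB (hl : 1 < |lam|) (hmu : mu ≠ 0) (hm : 0 < m) (hK0 : K ≠ 0)
    (hK : mu⁻¹ ^ m = K) : IsONB (volume : Measure (ℝ × ℝ)) (FF lam mu t m K) :=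
  ⟨fun i => FF_memLp hl hmu hm hK0 hK i, fun i i' => FF_inner hl hmu hm hK0 hK i i',
    fun g hg H => FF_total hl hmu hm hK0 hK g hg H⟩

end Pool.Agent.Lib_helper44
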