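import Mathlib
import Pool.Agent.Lib_helper44.Adapt2
import Pool.Agent.Lib_helper44.FiberONB

open MeasureTheory FourierTransform Complex Module Filter
open scoped ENNReal InnerProductSpace ComplexConjugate

set_option linter.unusedSectionVars false

namespace Pool.Agent.Lib_helper44

section
variable {F : Type*} [NormedAddCommGroup F] [NormedSpace ℝ F] [FiniteDimensional ℝ F]
  [MeasureSpace F] [BorelSpace F] [(volume : Measure F).IsAddHaarMeasure]
variable {κ : Type*}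

theorem qmp_equiv (M : F ≃L[ℝ] F) : Measure.QuasiMeasurePreserving M (volume : Measure F) volume := by
  refine ⟨M.continuous.measurable, ?_⟩
  have h1 : (Measure.map M (volume : Measure F)).IsAddHaarMeasure :=
    ContinuousLinearEquiv.isAddHaarMeasure_map M volume
  have hc := Measure.isAddLeftInvariant_eq_smul
    (Measure.map M (volume : Measure F)) (volume : Measure F)
  rw [hc]
  exact Measure.smul_absolutelyContinuous

theorem cfam_congr {D : F ≃L[ℝ] F} {d : ℝ} {l : κ → F → ℝ} {φ φ' : F → ℂ} (h : φ =ᵐ[volume] φ')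
    (i : ℤ × κ) : cfam D d l φ i =ᵐ[volume] cfam D d l φ' i := by
  have h1 := (qmp_equiv (D ^ (-i.1))).ae h
  filter_upwards [h1] with x hx
  unfold cfam
  rw [hx]

end

/-- the general frequency side family in adapted coordinates of the plane -/
noncomputable def GG (lam mu t : ℝ) (φ : ℝ × ℝ → ℂ) (i : ℤ × (ℤ × ℤ)) (p : ℝ × ℝ) : ℂ :=
  ((|lam * mu| ^ (-(i.1 : ℝ) / 2) : ℝ) : ℂ) *
   (ee (-((i.2.1 + t * i.2.2) * (lam ^ (-i.1) * p.1) + i.2.2 * (mu ^ (-i.1) * p.2))) *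
    φ (lam ^ (-i.1) * p.1, mu ^ (-i.1) * p.2))

theorem FF_eq_GG (lam mu t : ℝ) (m : ℕ) (K : ℤ) : FF lam mu t m K = GG lam mu t (Phi lam mu m K) :=
  rfl

theorem cfam_eq_GG (lam mu t : ℝ) (hl : lam ≠ 0) (hm : mu ≠ 0) (φ : ℝ × ℝ → ℂ) :
    cfam (dg lam mu hl hm) |lam * mu| (fun (k : ℤ × ℤ) (x : ℝ × ℝ) =>
      (k.1 + t * k.2) * x.1 + k.2 * x.2) φ = GG lam mu t φ := by
  ext i p
  unfold cfam GG
  rw [dg_zpow]

theorem GG_congr {lam mu t : ℝ} (hl : lam ≠ 0) (hm : mu ≠ 0) {φ φ' : ℝ × ℝ → ℂ}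
    (h : φ =ᵐ[volume] φ') (i : ℤ × (ℤ × ℤ)) : GG lam mu t φ i =ᵐ[volume] GG lam mu t φ' i := by
  rw [← cfam_eq_GG lam mu t hl hm, ← cfam_eq_GG lam mu t hl hm]
  exact cfam_congr h i

theorem wavelet_iff_GG (A : GL (Fin 2) ℝ)
    (Γ : Submodule ℤ (EuclideanSpace ℝ (Fin 2))) {lam mu t : ℝ} (hl : lam ≠ 0) (hm : mu ≠ 0)
    (hdet : adet (glE (glT A)) = |lam * mu|)
    (τ : (ℝ × ℝ) ≃L[ℝ] EuclideanSpace ℝ (Fin 2)) (e : (ℤ × ℤ) ≃ Γ)
    (hBτ : ∀ x, glE (glT A) (τ x) = τ (dg lam mu hl hm x))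
    (he : ∀ (k : ℤ × ℤ) (x : ℝ × ℝ), ⟪(e k : EuclideanSpace ℝ (Fin 2)), τ x⟫_ℝ
        = (k.1 + t * k.2) * x.1 + k.2 * x.2) {C : ℝ} (hC : 0 < C)
    (hτ : Measure.map τ.toHomeomorph.toMeasurableEquiv (volume : Measure (ℝ × ℝ))
      = ENNReal.ofReal C • (volume : Measure (EuclideanSpace ℝ (Fin 2))))
    (ψ : Lp ℂ 2 (volume : Measure (EuclideanSpace ℝ (Fin 2)))) :
    IsOrthonormalWavelet A Γ ψ ↔ IsONB (volume : Measure (ℝ × ℝ)) (GG lam mu t (fun x =>
      ((C ^ (-(1 / 2) : ℝ) : ℝ) : ℂ) *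
        (𝓕 ψ : Lp ℂ 2 (volume : Measure (EuclideanSpace ℝ (Fin 2)))) (τ x))) := by
  classical
  rw [isOrthonormalWavelet_iff_ffam, ← cfam_eq_GG lam mu t hl hm, ← hdet,
    ← ffam_cfam_iff (γ := fun k : ℤ × ℤ => (e k : EuclideanSpace ℝ (Fin 2))) hBτ he hC hτ]
  constructor
  · intro h
    exact h.reindex ((Equiv.refl ℤ).prodCongr e)
  · intro h
    refine (h.reindex ((Equiv.refl ℤ).prodCongr e.symm)).congr (fun i => ?_)
    have : (e (((Equiv.refl ℤ).prodCongr e.symm) i).2 : EuclideanSpace ℝ (Fin 2)) = i.2 := by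
      simp
    rw [this]
    rfl

/-- every profile comes from a function -/
theorem exists_lp_profile {C : ℝ} (hC : 0 < C) (τ : (ℝ × ℝ) ≃L[ℝ] EuclideanSpace ℝ (Fin 2))
    (hτ : Measure.map τ.toHomeomorph.toMeasurableEquiv (volume : Measure (ℝ × ℝ))
      = ENNReal.ofReal C • (volume : Measure (EuclideanSpace ℝ (Fin 2))))
    {φ : ℝ × ℝ → ℂ} (hφ : MemLp φ 2 (volume : Measure (ℝ × ℝ))) :
    ∃ ψ : Lp ℂ 2 (volume : Measure (EuclideanSpace ℝ (Fin 2))),
      φ =ᵐ[volume] (fun x => ((C ^ (-(1 / 2) : ℝ) : ℝ) : ℂ) *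
        (𝓕 ψ : Lp ℂ 2 (volume : Measure (EuclideanSpace ℝ (Fin 2)))) (τ x)) := by
  set T := τ.toHomeomorph.toMeasurableEquiv with hT
  have hν : (volume : Measure (EuclideanSpace ℝ (Fin 2))) = ENNReal.ofReal C⁻¹ •
      Measure.map T (volume : Measure (ℝ × ℝ)) := by
    rw [hτ, smul_smul, ← ENNReal.ofReal_mul (inv_nonneg.mpr hC.le), inv_mul_cancel₀ hC.ne',
      ENNReal.ofReal_one, one_smul]
  have hsymm : Measure.map T.symm (Measure.map T (volume : Measure (ℝ × ℝ))) = volume := by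
    rw [Measure.map_map T.symm.measurable T.measurable]
    simp
  have h1 : MemLp (fun y => ((C ^ (1 / 2 : ℝ) : ℝ) : ℂ) * φ (T.symm y)) 2
      (volume : Measure (EuclideanSpace ℝ (Fin 2))) := by
    apply MemLp.const_mul
    rw [hν]
    apply MemLp.smul_measure _ ENNReal.ofReal_ne_top
    have h3 : AEStronglyMeasurable (fun y => φ (T.symm y)) (Measure.map T volume) := by
      have h5 : AEStronglyMeasurable φ (Measure.map T.symm (Measure.map T volume)) := by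
        rw [hsymm]; exact hφ.1
      exact h5.comp_measurable T.symm.measurable
    refine (memLp_map_measure_iff h3 T.measurable.aemeasurable).mpr ?_
    have : (fun y => φ (T.symm y)) ∘ T = φ := by
      ext x; simp
    rw [this]; exact hφ
  refine ⟨𝓕⁻ (h1.toLp _), ?_⟩
  rw [fourier_fourierInv_eq]
  have h2 := h1.coeFn_toLp
  have h3 : ∀ᵐ x : ℝ × ℝ, (h1.toLp _ : Lp ℂ 2 (volume : Measure (EuclideanSpace ℝ (Fin 2)))) (T x)
      = ((C ^ (1 / 2 : ℝ) : ℝ) : ℂ) * φ (T.symm (T x)) := by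
    have h4 : ∀ᵐ y ∂(Measure.map T (volume : Measure (ℝ × ℝ))),
        (h1.toLp _ : Lp ℂ 2 (volume : Measure (EuclideanSpace ℝ (Fin 2)))) y
        = ((C ^ (1 / 2 : ℝ) : ℝ) : ℂ) * φ (T.symm y) := by
      rw [hτ]
      exact Measure.ae_smul_measure h2 _
    exact (T.measurableEmbedding.ae_map_iff).mp h4
  filter_upwards [h3] with x hx
  have e1 : T x = τ x := rfl
  rw [T.symm_apply_apply, e1] at hx
  rw [hx, ← mul_assoc, ← Complex.ofReal_mul, ← Real.rpow_add hC]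
  norm_num

end Pool.Agent.Lib_helper44
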