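import Mathlib
import Pool.Agent.Lib_helper44.Per
import Pool.Agent.Lib_helper44.Reduce

open MeasureTheory Filter Topology Complex
open scoped ENNReal NNReal ComplexConjugate

set_option linter.unusedSectionVars false

namespace Pool.Agent.Lib_helper44

variable {lam mu t : ℝ} {φ : ℝ × ℝ → ℂ}

theorem lintegral_scale {a : ℝ} (ha : a ≠ 0) {f : ℝ → ℝ≥0∞} (hf : Measurable f) :
    ∫⁻ x, f (a * x) = ENNReal.ofReal |a|⁻¹ * ∫⁻ x, f x := by
  rw [← lintegral_map (f := f) (g := fun x => a * x) hf (measurable_const_mul a),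
    Real.map_volume_mul_left ha, lintegral_smul_measure, abs_inv, smul_eq_mul]

/-- fibre integral -/
noncomputable def fibI (φ : ℝ × ℝ → ℂ) (s : ℝ) : ℝ≥0∞ := ∫⁻ z, ‖φ (s, z)‖ₑ ^ 2

theorem measurable_fibI (hφ : Measurable φ) : Measurable (fibI φ) := by
  unfold fibI
  exact (hφ.enorm.pow_const 2).lintegral_prod_right'

theorem lintegral_fibI (hφ : Measurable φ) : ∫⁻ s, fibI φ s = ∫⁻ p, ‖φ p‖ₑ ^ 2 := by
  unfold fibI
  rw [Measure.volume_eq_prod, lintegral_prod _ (hφ.enorm.pow_const 2).aemeasurable]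

theorem enorm_sq_eq (z : ℂ) : ‖z‖ₑ ^ 2 = ENNReal.ofReal (‖z‖ ^ 2) := by
  rw [ENNReal.ofReal_pow (norm_nonneg _), ofReal_norm]

theorem lintegral_sq_of_inner {α : Type*} {mα : MeasurableSpace α} {μ : Measure α} {f : α → ℂ}
    (hf : MemLp f 2 μ) (h : ∫ x, conj (f x) * f x ∂μ = 1) : ∫⁻ x, ‖f x‖ₑ ^ 2 ∂μ = 1 := by
  have hsq : Integrable (fun p => ‖f p‖ ^ 2) μ := (memLp_two_iff_integrable_sq_norm hf.1).mp hf
  have h1 := ofReal_integral_eq_lintegral_ofReal hsq (Eventually.of_forall fun x => by positivity)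
  have h2 : ∀ x, conj (f x) * f x = ((‖f x‖ ^ 2 : ℝ) : ℂ) := by
    intro x
    rw [Complex.conj_mul', Complex.ofReal_pow]
  simp only [h2] at h
  rw [integral_complex_ofReal] at h
  have h3 : ∫ x, ‖f x‖ ^ 2 ∂μ = 1 := by exact_mod_cast h
  rw [h3, ENNReal.ofReal_one] at h1
  rw [h1]
  apply lintegral_congr
  intro x
  exact enorm_sq_eq _

theorem GG_zero (φ : ℝ × ℝ → ℂ) (p : ℝ × ℝ) (k1 k2 : ℤ) :
    GG lam mu t φ (0, (k1, k2)) p = ee (-((k1 + t * k2) * p.1 + k2 * p.2)) * φ p := by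
  unfold GG
  simp

theorem fibI_le_one (h : IsONB (volume : Measure (ℝ × ℝ)) (GG lam mu t φ)) :
    ∀ᵐ s, fibI φ s ≤ 1 := by
  have hmem : MemLp φ 2 (volume : Measure (ℝ × ℝ)) := by
    have h1 := h.memLp (0, (0, 0))
    have h2 : GG lam mu t φ (0, (0, 0)) = φ := by
      ext p
      rw [GG_zero]
      simp [ee_zero]
    rwa [h2] at h1
  have hsq : Integrable (fun p => ‖φ p‖ ^ 2) ((volume : Measure ℝ).prod (volume : Measure ℝ)) := by
    rw [← Measure.volume_eq_prod]
    exact (memLp_two_iff_integrable_sq_norm hmem.1).mp hmem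
  set I : ℝ → ℝ := fun s => ∫ z, ‖φ (s, z)‖ ^ 2 with hI
  have hIint : Integrable I := hsq.integral_prod_left
  have hInn : ∀ s, 0 ≤ I s := fun s => integral_nonneg fun z => by positivity
  have hF : ∀ k : ℤ, ∫ s, ee (k * s) * (I s : ℂ) = if k = 0 then 1 else 0 := by
    intro k
    have h1 := h.inner (0, (k, 0)) (0, (0, 0))
    have h2 : ∀ p : ℝ × ℝ, conj (GG lam mu t φ (0, (k, 0)) p) * GG lam mu t φ (0, (0, 0)) p
        = ee (k * p.1) * ((‖φ p‖ ^ 2 : ℝ) : ℂ) := by
      intro p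
      rw [GG_zero, GG_zero, map_mul, conj_ee]
      simp only [Int.cast_zero, mul_zero, add_zero, zero_mul, neg_zero, ee_zero, one_mul, neg_neg]
      rw [mul_assoc, Complex.conj_mul', Complex.ofReal_pow]
    simp only [h2] at h1
    have h3 : Integrable (fun p : ℝ × ℝ => ee (k * p.1) * ((‖φ p‖ ^ 2 : ℝ) : ℂ))
        ((volume : Measure ℝ).prod (volume : Measure ℝ)) := by
      have h4 : Integrable (fun p : ℝ × ℝ => ((‖φ p‖ ^ 2 : ℝ) : ℂ))
        ((volume : Measure ℝ).prod (volume : Measure ℝ)) := hsq.ofReal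
      refine h4.bdd_mul (c := 1) ?_ ?_
      · apply Measurable.aestronglyMeasurable
        exact ee_continuous.measurable.comp (measurable_fst.const_mul _)
      · filter_upwards with x
        rw [norm_ee]
    rw [Measure.volume_eq_prod, integral_prod _ h3] at h1
    simp only [integral_const_mul, integral_complex_ofReal] at h1
    have h4 : (((0 : ℤ), ((k : ℤ), (0 : ℤ))) = ((0 : ℤ), ((0 : ℤ), (0 : ℤ)))) ↔ k = 0 := by
      simp
    simp only [h4] at h1
    exact h1
  have h5 := ae_le_one_of_periodization hIint hInn hF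
  filter_upwards [h5, hsq.prod_right_ae] with s hs1 hs2
  unfold fibI
  simp only [enorm_sq_eq]
  rw [← ofReal_integral_eq_lintegral_ofReal hs2 (Eventually.of_forall fun z => by positivity)]
  rw [← ENNReal.ofReal_one]
  exact ENNReal.ofReal_le_ofReal hs1

/-- annuli -/
def ann (L : ℝ) (i : ℕ) : Set ℝ := {u : ℝ | L ^ i ≤ |u| ∧ |u| < L ^ (i + 1)}

theorem measurableSet_ann (L : ℝ) (i : ℕ) : MeasurableSet (ann L i) := by
  unfold ann
  apply MeasurableSet.inter
  · exact measurableSet_le measurable_const continuous_abs.measurable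
  · exact measurableSet_lt continuous_abs.measurable measurable_const

theorem ann_disjoint {L : ℝ} (hL : 1 < L) : Pairwise (Function.onFun Disjoint (ann L)) := by
  intro i j hij
  rw [Function.onFun, Set.disjoint_left]
  rintro u ⟨h1, h2⟩ ⟨h3, h4⟩
  rcases lt_or_gt_of_ne hij with h | h
  · have : L ^ (i + 1) ≤ L ^ j := pow_le_pow_right₀ hL.le h
    linarith
  · have : L ^ (j + 1) ≤ L ^ i := pow_le_pow_right₀ hL.le h
    linarith

theorem mem_ann_mul {a : ℝ} (ha : 1 < |a|) (i : ℕ) (s : ℝ) : a ^ i * s ∈ ann |a| i ↔ s ∈ ann |a| 0 := by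
  unfold ann
  have h0 : 0 < |a| ^ i := pow_pos (by linarith) i
  simp only [Set.mem_ofPred_eq, pow_zero, zero_add, pow_one, abs_mul, abs_pow]
  constructor
  · rintro ⟨h1, h2⟩
    refine ⟨?_, ?_⟩
    · by_contra h
      push Not at h
      nlinarith
    · rw [pow_succ] at h2
      exact lt_of_mul_lt_mul_left h2 h0.le
  · rintro ⟨h1, h2⟩
    refine ⟨?_, ?_⟩
    · nlinarith
    · rw [pow_succ]
      exact mul_lt_mul_of_pos_left h2 h0

theorem volume_ann_zero_pos {L : ℝ} (hL : 1 < L) : volume (ann L 0) ≠ 0 := by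
  have h1 : Set.Ioo 1 L ⊆ ann L 0 := by
    intro x hx
    unfold ann
    simp only [Set.mem_ofPred_eq, pow_zero, zero_add, pow_one]
    rw [abs_of_pos (by linarith [hx.1])]
    exact ⟨hx.1.le, hx.2⟩
  intro h
  have h2 := measure_mono_null h1 h
  rw [Real.volume_Ioo, ENNReal.ofReal_eq_zero] at h2
  linarith

theorem upper_finite (hl : 1 < |lam|) (hdet : 1 ≤ |lam * mu|) (hφ : Measurable φ)
    (hfin : ∫⁻ p, ‖φ p‖ₑ ^ 2 ≠ ⊤) :
    ∀ᵐ s ∂(volume.restrict (ann |lam| 0)),
      ∑' i : ℕ, ENNReal.ofReal |mu ^ (i : ℕ)|⁻¹ * fibI φ (lam ^ (i : ℕ) * s) < ⊤ := by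
  have hl0 : lam ≠ 0 := by
    intro h
    rw [h, abs_zero] at hl
    linarith
  have hmeas : ∀ i : ℕ, Measurable (fun s => ENNReal.ofReal |mu ^ i|⁻¹ * fibI φ (lam ^ i * s)) := by
    intro i
    exact ((measurable_fibI hφ).comp (measurable_const_mul _)).const_mul _
  apply ae_lt_top
  · exact Measurable.tsum hmeas
  · rw [lintegral_tsum (fun i => (hmeas i).aemeasurable)]
    apply ne_top_of_le_ne_top hfin
    calc ∑' i : ℕ, ∫⁻ s in ann |lam| 0, ENNReal.ofReal |mu ^ i|⁻¹ * fibI φ (lam ^ i * s)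
        ≤ ∑' i : ℕ, ∫⁻ u in ann |lam| i, fibI φ u := by
          apply ENNReal.tsum_le_tsum
          intro i
          rw [lintegral_const_mul (μ := volume.restrict (ann |lam| 0))
              (f := fun s => fibI φ (lam ^ i * s)) _
              ((measurable_fibI hφ).comp (measurable_const_mul _)),
            ← lintegral_indicator (measurableSet_ann _ _)]
          have h1 : ∀ s, (ann |lam| 0).indicator (fun s => fibI φ (lam ^ i * s)) s
              = (fun u => (ann |lam| i).indicator (fibI φ) u) (lam ^ i * s) := by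
            intro s
            by_cases hs : s ∈ ann |lam| 0
            · rw [Set.indicator_of_mem hs]
              simp only
              rw [Set.indicator_of_mem ((mem_ann_mul hl i s).mpr hs)]
            · rw [Set.indicator_of_notMem hs]
              simp only
              rw [Set.indicator_of_notMem (fun h => hs ((mem_ann_mul hl i s).mp h))]
          simp only [h1]
          rw [lintegral_scale (pow_ne_zero i hl0)
            ((measurable_fibI hφ).indicator (measurableSet_ann _ _)),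
            lintegral_indicator (measurableSet_ann _ _), ← mul_assoc,
            ← ENNReal.ofReal_mul (inv_nonneg.mpr (abs_nonneg _))]
          have h2 : |mu ^ i|⁻¹ * |lam ^ i|⁻¹ ≤ 1 := by
            rw [← mul_inv, ← abs_mul, ← mul_pow, mul_comm mu, abs_pow]
            exact inv_le_one_of_one_le₀ (one_le_pow₀ hdet)
          calc ENNReal.ofReal (|mu ^ i|⁻¹ * |lam ^ i|⁻¹) * ∫⁻ u in ann |lam| i, fibI φ u
              ≤ 1 * ∫⁻ u in ann |lam| i, fibI φ u := by
                gcongr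
                rw [← ENNReal.ofReal_one]
                exact ENNReal.ofReal_le_ofReal h2
            _ = _ := one_mul _
      _ = ∫⁻ u in ⋃ i, ann |lam| i, fibI φ u :=
          (lintegral_iUnion (fun i => measurableSet_ann _ i) (ann_disjoint hl) _).symm
      _ ≤ ∫⁻ u, fibI φ u := setLIntegral_le_lintegral _ _
      _ = ∫⁻ p, ‖φ p‖ₑ ^ 2 := lintegral_fibI hφ

theorem ae_scale {p : ℝ → Prop} (h : ∀ᵐ s, p s) {a : ℝ} (ha : a ≠ 0) : ∀ᵐ s, p (a * s) := by
  have h5 : Measure.QuasiMeasurePreserving (fun x : ℝ => a * x) volume volume := by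
    refine ⟨measurable_const_mul a, ?_⟩
    rw [Real.map_volume_mul_left ha]
    exact Measure.smul_absolutelyContinuous
  exact h5.ae h

theorem calderon_fails_aux (hl : 1 < |lam|) (hmu0 : mu ≠ 0) (hmu : |mu| < 1)
    (hdet : 1 ≤ |lam * mu|) (hφ : Measurable φ)
    (h : IsONB (volume : Measure (ℝ × ℝ)) (GG lam mu t φ)) {c : ℝ≥0∞} (hc : c ≠ 0) :
    ¬ ∀ᵐ p : ℝ × ℝ, c ≤ ∑' j : ℤ, ‖φ (lam ^ j * p.1, mu ^ j * p.2)‖ₑ ^ 2 := by
  intro H
  have hl0 : lam ≠ 0 := by
    intro h
    rw [h, abs_zero] at hl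
    linarith
  have hG0 : GG lam mu t φ (0, (0, 0)) = φ := by
    ext p
    rw [GG_zero]
    simp [ee_zero]
  have hmem : MemLp φ 2 (volume : Measure (ℝ × ℝ)) := by
    have h1 := h.memLp (0, (0, 0))
    rwa [hG0] at h1
  have hone : ∫⁻ p, ‖φ p‖ₑ ^ 2 = 1 := by
    apply lintegral_sq_of_inner hmem
    have h1 := h.inner (0, (0, 0)) (0, (0, 0))
    rw [hG0] at h1
    simpa using h1
  have hup := upper_finite hl hdet hφ (by rw [hone]; exact ENNReal.one_ne_top)
  have hI1 := fibI_le_one h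
  -- lower part
  have hlow : ∀ᵐ s : ℝ, ∀ i : ℕ, fibI φ (lam ^ (-((i : ℤ) + 1)) * s) ≤ 1 := by
    rw [ae_all_iff]
    intro i
    exact ae_scale hI1 (zpow_ne_zero _ hl0)
  rw [Measure.volume_eq_prod] at H
  have H2 : ∀ᵐ s : ℝ, ∀ᵐ z : ℝ, c ≤ ∑' j : ℤ, ‖φ (lam ^ j * s, mu ^ j * z)‖ₑ ^ 2 :=
    Measure.ae_ae_of_ae_prod H
  have hfinal : ∀ᵐ s ∂(volume.restrict (ann |lam| 0)), False := by
    filter_upwards [hup, ae_restrict_of_ae hlow, ae_restrict_of_ae H2] with s hs1 hs2 hs3
    have hm1 : ∀ j : ℤ, Measurable (fun z : ℝ => ‖φ (lam ^ j * s, mu ^ j * z)‖ₑ ^ 2) := by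
      intro j
      exact (hφ.comp (measurable_const.prodMk (measurable_const_mul _))).enorm.pow_const 2
    have h1 : ∫⁻ z : ℝ, c ≤ ∫⁻ z : ℝ, ∑' j : ℤ, ‖φ (lam ^ j * s, mu ^ j * z)‖ₑ ^ 2 :=
      lintegral_mono_ae hs3
    rw [lintegral_tsum (fun j => (hm1 j).aemeasurable)] at h1
    have h2 : ∀ j : ℤ, ∫⁻ z : ℝ, ‖φ (lam ^ j * s, mu ^ j * z)‖ₑ ^ 2
        = ENNReal.ofReal |mu ^ j|⁻¹ * fibI φ (lam ^ j * s) := by
      intro j
      rw [lintegral_scale (f := fun z => ‖φ (lam ^ j * s, z)‖ₑ ^ 2) (zpow_ne_zero j hmu0)]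
      · rfl
      · exact (hφ.comp (measurable_const.prodMk measurable_id)).enorm.pow_const 2
    simp only [h2] at h1
    rw [tsum_of_nat_of_neg_add_one ENNReal.summable ENNReal.summable, lintegral_const,
      Real.volume_univ, ENNReal.mul_top hc, top_le_iff, ENNReal.add_eq_top] at h1
    rcases h1 with h1 | h1
    · simp only [zpow_natCast] at h1
      exact hs1.ne h1
    · have h3 : ∑' n : ℕ, ENNReal.ofReal |mu ^ (-((n : ℤ) + 1))|⁻¹ *
          fibI φ (lam ^ (-((n : ℤ) + 1)) * s) ≤ ∑' n : ℕ, ENNReal.ofReal |mu| ^ n := by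
        apply ENNReal.tsum_le_tsum
        intro n
        have e1 : |mu ^ (-((n : ℤ) + 1))|⁻¹ = |mu| ^ (n + 1) := by
          rw [abs_zpow, zpow_neg, inv_inv]
          norm_cast
        rw [e1, ← ENNReal.ofReal_pow (abs_nonneg _)]
        calc ENNReal.ofReal (|mu| ^ (n + 1)) * fibI φ (lam ^ (-((n : ℤ) + 1)) * s)
            ≤ ENNReal.ofReal (|mu| ^ n) * 1 := by
              refine mul_le_mul' (ENNReal.ofReal_le_ofReal ?_) (hs2 n)
              rw [pow_succ]
              exact mul_le_of_le_one_right (pow_nonneg (abs_nonneg _) _) hmu.le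
          _ = _ := mul_one _
      rw [h1, ENNReal.tsum_geometric, top_le_iff, ENNReal.inv_eq_top] at h3
      rw [tsub_eq_zero_iff_le] at h3
      rw [← ENNReal.ofReal_one] at h3
      rw [ENNReal.ofReal_le_ofReal_iff (abs_nonneg _)] at h3
      linarith
  rw [ae_iff] at hfinal
  simp only [not_false_eq_true, Set.ofPred_true, Measure.restrict_apply_univ] at hfinal
  exact volume_ann_zero_pos hl hfinal

end Pool.Agent.Lib_helper44
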