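import Mathlib
import Pool.Agent.Lib_helper44.ONB
import Pool.Agent.Lib_helper44.N1

open MeasureTheory Filter Topology Complex
open scoped ENNReal NNReal ComplexConjugate InnerProductSpace

set_option linter.unusedSectionVars false

namespace Pool.Agent.Lib_helper44

variable {α : Type*} {mα : MeasurableSpace α} {μ : Measure α} {ι : Type*}

theorem enorm_toLp_sq {g : α → ℂ} (hg : MemLp g 2 μ) :
    ‖hg.toLp g‖ₑ ^ 2 = ∫⁻ x, ‖g x‖ₑ ^ 2 ∂μ := by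
  rw [Lp.enorm_toLp, eLpNorm_eq_lintegral_rpow_enorm_toReal (by norm_num) (by norm_num)]
  simp only [ENNReal.toReal_ofNat, ENNReal.rpow_ofNat, one_div]
  rw [← ENNReal.rpow_natCast, ← ENNReal.rpow_mul]
  norm_num

/-- Parseval -/
theorem IsONB.parseval [DecidableEq ι] {F : ι → α → ℂ} (h : IsONB μ F) {g : α → ℂ}
    (hg : MemLp g 2 μ) :
    ∑' i, ‖∫ x, conj (F i x) * g x ∂μ‖ₑ ^ 2 = ∫⁻ x, ‖g x‖ₑ ^ 2 ∂μ := by
  obtain ⟨b, hb⟩ := h.exists_hilbertBasis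
  rw [← enorm_toLp_sq hg]
  have h1 : HasSum (fun i => ‖⟪b i, hg.toLp g⟫_ℂ‖ ^ 2) (‖hg.toLp g‖ ^ 2) := by
    have h2 := b.hasSum_inner_mul_inner (hg.toLp g) (hg.toLp g)
    have h3 := (Complex.reCLM).hasSum h2
    have e1 : Complex.reCLM ⟪hg.toLp g, hg.toLp g⟫_ℂ = ‖hg.toLp g‖ ^ 2 := by
      rw [inner_self_eq_norm_sq_to_K]
      norm_cast
    rw [e1] at h3
    have e2 : (fun i => ‖⟪b i, hg.toLp g⟫_ℂ‖ ^ 2) = (fun i => Complex.reCLM
        (⟪hg.toLp g, b i⟫_ℂ * ⟪b i, hg.toLp g⟫_ℂ)) := by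
      ext i
      rw [← inner_conj_symm (hg.toLp g) (b i), Complex.conj_mul']
      norm_cast
    rw [e2]
    exact h3
  have h4 := h1.tsum_eq
  have h5 : ∀ i, ⟪b i, hg.toLp g⟫_ℂ = ∫ x, conj (F i x) * g x ∂μ := by
    intro i
    rw [inner_Lp_eq]
    apply integral_congr_ae
    filter_upwards [hb i, hg.coeFn_toLp] with x h1 h2
    rw [h1, h2]
  simp only [h5] at h1 h4
  have h6 : ∀ z : ℂ, ‖z‖ₑ ^ 2 = ENNReal.ofReal (‖z‖ ^ 2) := enorm_sq_eq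
  simp only [h6]
  rw [← ENNReal.ofReal_tsum_of_nonneg (fun i => by positivity) h1.summable, h4,
    ENNReal.ofReal_pow (norm_nonneg _), ofReal_norm]

end Pool.Agent.Lib_helper44
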