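import Mathlib
import Pool.Agent.Lib_helper44.Parseval

open MeasureTheory Filter Topology Complex Module
open scoped ENNReal NNReal ComplexConjugate InnerProductSpace

set_option linter.unusedSectionVars false

namespace Pool.Agent.Lib_helper44

variable {E : Type*} [NormedAddCommGroup E] [InnerProductSpace ℝ E] [FiniteDimensional ℝ E]
  [MeasurableSpace E] [BorelSpace E] {n : ℕ}

/-- integer combinations of the basis -/
noncomputable def kv (γ : Basis (Fin n) ℝ E) (k : Fin n → ℤ) : E := ∑ i, (k i : ℝ) • γ i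

theorem inner_kv (γ : Basis (Fin n) ℝ E) (k : Fin n → ℤ) (x : E) :
    ⟪kv γ k, x⟫_ℝ = ∑ i, (k i : ℝ) * ⟪γ i, x⟫_ℝ := by
  unfold kv
  rw [sum_inner]
  congr 1
  ext i
  rw [real_inner_smul_left]

/-- the frequency side family over the lattice spanned by a basis -/
noncomputable def fam (γ : Basis (Fin n) ℝ E) (B : E ≃L[ℝ] E) (φ : E → ℂ)
    (i : ℤ × (Fin n → ℤ)) : E → ℂ := ffam B φ i.1 (kv γ i.2)

theorem fam_apply (γ : Basis (Fin n) ℝ E) (B : E ≃L[ℝ] E) (φ : E → ℂ)
    (i : ℤ × (Fin n → ℤ)) (x : E) : fam γ B φ i x = ((adet B ^ (-(i.1 : ℝ) / 2) : ℝ) : ℂ) *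
      (ee (-⟪kv γ i.2, (B ^ (-i.1)) x⟫_ℝ) * φ ((B ^ (-i.1)) x)) := rfl

/-- the dual lattice -/
def dualL (γ : Basis (Fin n) ℝ E) : AddSubgroup E where
  carrier := {v | ∀ i, ∃ q : ℤ, ⟪γ i, v⟫_ℝ = q}
  add_mem' := by
    intro a b ha hb i
    obtain ⟨p, hp⟩ := ha i
    obtain ⟨q, hq⟩ := hb i
    exact ⟨p + q, by rw [inner_add_right, hp, hq]; push_cast; ring⟩
  zero_mem' := fun i => ⟨0, by simp⟩
  neg_mem' := by
    intro a ha i
    obtain ⟨p, hp⟩ := ha i
    exact ⟨-p, by rw [inner_neg_right, hp]; push_cast; ring⟩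

theorem mem_dualL {γ : Basis (Fin n) ℝ E} {v : E} :
    v ∈ dualL γ ↔ ∀ i, ∃ q : ℤ, ⟪γ i, v⟫_ℝ = q := Iff.rfl

/-- the dilated dual lattice `B ^ j Λ` -/
def Lj (γ : Basis (Fin n) ℝ E) (B : E ≃L[ℝ] E) (j : ℤ) : AddSubgroup E :=
  (dualL γ).comap ((B ^ (-j)).toLinearEquiv.toLinearMap.toAddMonoidHom)

theorem mem_Lj {γ : Basis (Fin n) ℝ E} {B : E ≃L[ℝ] E} {j : ℤ} {v : E} :
    v ∈ Lj γ B j ↔ (B ^ (-j)) v ∈ dualL γ := Iff.rfl

theorem ee_inner_periodic (γ : Basis (Fin n) ℝ E) (k : Fin n → ℤ) {v : E} (hv : v ∈ dualL γ)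
    (x : E) : ee (⟪kv γ k, x + v⟫_ℝ) = ee (⟪kv γ k, x⟫_ℝ) := by
  rw [inner_add_right, ee_add]
  have : ∃ q : ℤ, ⟪kv γ k, v⟫_ℝ = q := by
    choose q hq using mem_dualL.mp hv
    refine ⟨∑ i, k i * q i, ?_⟩
    rw [inner_kv]
    push_cast
    exact Finset.sum_congr rfl fun i _ => by rw [hq i]
  obtain ⟨q, hq⟩ := this
  rw [hq, ee_int, mul_one]

variable {γ : Basis (Fin n) ℝ E} {B : E ≃L[ℝ] E} {φ : E → ℂ}

theorem fam_zero (γ : Basis (Fin n) ℝ E) (B : E ≃L[ℝ] E) (φ : E → ℂ) (k : Fin n → ℤ) (x : E) :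
    fam γ B φ (0, k) x = ee (-⟪kv γ k, x⟫_ℝ) * φ x := by
  rw [fam_apply]
  simp
  rfl

theorem kv_zero (γ : Basis (Fin n) ℝ E) : kv γ 0 = 0 := by
  unfold kv
  simp

theorem memLp_of_isONB (h : IsONB (volume : Measure E) (fam γ B φ)) :
    MemLp φ 2 (volume : Measure E) := by
  have h1 := h.memLp (0, 0)
  have h2 : fam γ B φ (0, 0) = φ := by
    ext x
    rw [fam_zero, kv_zero, inner_zero_left, neg_zero, ee_zero, one_mul]
  rwa [h2] at h1

theorem memLp_dil_of_isONB (h : IsONB (volume : Measure E) (fam γ B φ)) (j : ℤ) :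
    MemLp (fun x => φ ((B ^ (-j)) x)) 2 (volume : Measure E) :=
  memLp_comp_equiv (B ^ (-j)) (memLp_of_isONB h)

/-- independence of the scale `0` and the scale `j` -/
theorem orth_saturated (h : IsONB (volume : Measure E) (fam γ B φ)) {j : ℤ} (hj : j ≠ 0)
    {m : E → ℂ} (hm : Measurable m) {C : ℝ} (hC : ∀ x, ‖m x‖ ≤ C)
    (hper : ∀ x v, v ∈ dualL γ → v ∈ Lj γ B j → m (x + v) = m x) :
    ∫ x, m x * (conj (φ ((B ^ (-j)) x)) * φ x) = 0 := by
  have hΘ : Integrable (fun x => conj (φ ((B ^ (-j)) x)) * φ x) (volume : Measure E) :=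
    integrable_conj_mul (memLp_dil_of_isONB h j) (memLp_of_isONB h)
  let π : E → UnitAddTorus (Fin n ⊕ Fin n) := fun x => Sum.elim
    (fun i => ((⟪γ i, x⟫_ℝ : ℝ) : UnitAddCircle))
    (fun i => ((⟪γ i, (B ^ (-j)) x⟫_ℝ : ℝ) : UnitAddCircle))
  have hπ : Measurable π := by
    apply measurable_pi_lambda
    intro i
    rcases i with i | i
    · apply (AddCircle.continuous_mk' (1 : ℝ)).measurable.comp
      exact (continuous_const.inner continuous_id).measurable
    · apply (AddCircle.continuous_mk' (1 : ℝ)).measurable.comp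
      exact (continuous_const.inner (B ^ (-j)).continuous).measurable
  have hfour : ∀ (N : (Fin n ⊕ Fin n) → ℤ) (x : E), UnitAddTorus.mFourier N (π x)
      = ee (⟪kv γ (fun i => N (Sum.inl i)), x⟫_ℝ) *
        ee (⟪kv γ (fun i => N (Sum.inr i)), (B ^ (-j)) x⟫_ℝ) := by
    intro N x
    have hprod : ∀ (s : Finset (Fin n)) (f : Fin n → ℝ), ∏ i ∈ s, ee (f i) = ee (∑ i ∈ s, f i) := by
      intro s f
      induction s using Finset.cons_induction with
      | empty => simp [ee_zero]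
      | cons a s ha ih => rw [Finset.prod_cons, Finset.sum_cons, ee_add, ih]
    simp only [UnitAddTorus.mFourier, π, ContinuousMap.coe_mk, Fintype.prod_sum_type, Sum.elim_inl,
      Sum.elim_inr]
    simp only [fourier_coe_eq_ee]
    rw [hprod, hprod, inner_kv, inner_kv]
  have key := integral_saturated_eq_zero (μ := (volume : Measure E)) hΘ hπ ?_ hm hC ?_
  · exact key
  · intro N
    have h1 := h.inner (j, fun i => N (Sum.inr i)) (0, fun i => -N (Sum.inl i))
    rw [if_neg (by simp [hj])] at h1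
    have h2 : ∀ x : E, conj (fam γ B φ (j, fun i => N (Sum.inr i)) x) *
        fam γ B φ (0, fun i => -N (Sum.inl i)) x
        = ((adet B ^ (-(j : ℝ) / 2) : ℝ) : ℂ) * (UnitAddTorus.mFourier N (π x) *
          (conj (φ ((B ^ (-j)) x)) * φ x)) := by
      intro x
      rw [fam_zero, fam_apply, hfour]
      have e1 : kv γ (fun i => -N (Sum.inl i)) = - kv γ (fun i => N (Sum.inl i)) := by
        unfold kv
        rw [← Finset.sum_neg_distrib]
        congr 1
        ext i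
        push_cast
        rw [neg_smul]
      rw [e1, inner_neg_left, neg_neg]
      simp only [map_mul, Complex.conj_ofReal, conj_ee, neg_neg]
      ring
    simp only [h2] at h1
    rw [integral_const_mul] at h1
    refine (mul_eq_zero.mp h1).resolve_left ?_
    exact Complex.ofReal_ne_zero.mpr (Real.rpow_pos_of_pos (adet_pos B) _).ne'
  · intro x y hxy
    have hcoe : ∀ a b : ℝ, ((a : ℝ) : UnitAddCircle) = ((b : ℝ) : UnitAddCircle) →
        ∃ q : ℤ, b - a = q := by
      intro a b hab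
      have h2 := (QuotientAddGroup.eq (s := AddSubgroup.zmultiples (1 : ℝ))).mp hab
      rw [AddSubgroup.mem_zmultiples_iff] at h2
      obtain ⟨k, hk⟩ := h2
      exact ⟨k, by
        have : (k : ℝ) = -a + b := by simpa using hk
        linarith⟩
    have h1 : y - x ∈ dualL γ := by
      intro i
      have := congrFun hxy (Sum.inl i)
      obtain ⟨q, hq⟩ := hcoe _ _ this
      exact ⟨q, by rw [inner_sub_right, hq]⟩
    have h2 : y - x ∈ Lj γ B j := by
      rw [mem_Lj]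
      intro i
      have := congrFun hxy (Sum.inr i)
      obtain ⟨q, hq⟩ := hcoe _ _ this
      exact ⟨q, by rw [map_sub, inner_sub_right, hq]⟩
    have h3 := hper x (y - x) h1 h2
    rw [add_sub_cancel] at h3
    exact h3.symm

end Pool.Agent.Lib_helper44
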