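import Mathlib
import Pool.Agent.Lib_helper44.Mach

open MeasureTheory Filter Topology Complex Module
open scoped ENNReal NNReal ComplexConjugate InnerProductSpace

set_option linter.unusedSectionVars false

namespace Pool.Agent.Lib_helper44

variable {E : Type*} [NormedAddCommGroup E] [InnerProductSpace ℝ E] [FiniteDimensional ℝ E]
  [MeasurableSpace E] [BorelSpace E] {n : ℕ}

/-- the coordinate isomorphism -/
theorem exists_coordT (γ : Basis (Fin n) ℝ E) :
    ∃ T : E ≃L[ℝ] (Fin n → ℝ), ∀ x i, T x i = ⟪γ i, x⟫_ℝ := by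
  let f : E →ₗ[ℝ] (Fin n → ℝ) := LinearMap.pi fun i => innerₗ _ (γ i)
  have hf : ∀ x i, f x i = ⟪γ i, x⟫_ℝ := fun x i => rfl
  have hinj : Function.Injective f := by
    rw [injective_iff_map_eq_zero]
    intro x hx
    have h0 : ∀ i, ⟪γ i, x⟫_ℝ = 0 := fun i => by rw [← hf, hx]; rfl
    have hs := γ.sum_repr x
    have h2 : ⟪x, x⟫_ℝ = 0 := by
      conv_lhs =>
        lhs
        rw [← hs]
      rw [sum_inner]
      apply Finset.sum_eq_zero
      intro i _
      rw [real_inner_smul_left, h0 i, mul_zero]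
    exact inner_self_eq_zero.mp h2
  have hrank : finrank ℝ E = finrank ℝ (Fin n → ℝ) := by
    rw [finrank_eq_card_basis γ]
    simp
  let T := LinearEquiv.ofInjectiveOfFinrankEq f hinj hrank
  exact ⟨T.toContinuousLinearEquiv, fun x i => by rw [← hf]; rfl⟩

noncomputable def coordT (γ : Basis (Fin n) ℝ E) : E ≃L[ℝ] (Fin n → ℝ) := (exists_coordT γ).choose

theorem coordT_apply (γ : Basis (Fin n) ℝ E) (x : E) (i : Fin n) : coordT γ x i = ⟪γ i, x⟫_ℝ :=
  (exists_coordT γ).choose_spec x i

/-- the lattice point of `x` relative to the cell `a` -/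
noncomputable def lamv (γ : Basis (Fin n) ℝ E) (a : Fin n → ℤ) (x : E) : E :=
  (coordT γ).symm (fun i => ((⌊⟪γ i, x⟫_ℝ⌋ - a i : ℤ) : ℝ))

theorem inner_lamv (γ : Basis (Fin n) ℝ E) (a : Fin n → ℤ) (x : E) (i : Fin n) :
    ⟪γ i, lamv γ a x⟫_ℝ = ((⌊⟪γ i, x⟫_ℝ⌋ - a i : ℤ) : ℝ) := by
  rw [← coordT_apply]
  unfold lamv
  rw [ContinuousLinearEquiv.apply_symm_apply]

theorem lamv_mem (γ : Basis (Fin n) ℝ E) (a : Fin n → ℤ) (x : E) : lamv γ a x ∈ dualL γ :=
  fun i => ⟨_, inner_lamv γ a x i⟩

theorem ext_inner_basis (γ : Basis (Fin n) ℝ E) {x y : E} (h : ∀ i, ⟪γ i, x⟫_ℝ = ⟪γ i, y⟫_ℝ) :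
    x = y := by
  apply (coordT γ).injective
  ext i
  rw [coordT_apply, coordT_apply, h]

theorem lamv_add (γ : Basis (Fin n) ℝ E) (a : Fin n → ℤ) (x : E) {v : E} (hv : v ∈ dualL γ) :
    lamv γ a (x + v) = lamv γ a x + v := by
  apply ext_inner_basis γ
  intro i
  rw [inner_add_right, inner_lamv, inner_lamv, inner_add_right]
  obtain ⟨q, hq⟩ := mem_dualL.mp hv i
  rw [hq, Int.floor_add_intCast]
  push_cast
  ring

theorem measurable_lamv (γ : Basis (Fin n) ℝ E) (a : Fin n → ℤ) : Measurable (lamv γ a) := by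
  unfold lamv
  apply (coordT γ).symm.continuous.measurable.comp
  apply measurable_pi_lambda
  intro i
  apply Measurable.comp (g := fun z : ℤ => ((z - a i : ℤ) : ℝ)) (measurable_from_top)
  exact (continuous_const.inner continuous_id).measurable.floor

/-- the cell -/
def cellQ (γ : Basis (Fin n) ℝ E) (a : Fin n → ℤ) : Set E := {x | lamv γ a x = 0}

/-- the remainder -/
noncomputable def remv (γ : Basis (Fin n) ℝ E) (a : Fin n → ℤ) (x : E) : E := x - lamv γ a x

theorem measurable_remv (γ : Basis (Fin n) ℝ E) (a : Fin n → ℤ) : Measurable (remv γ a) :=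
  measurable_id.sub (measurable_lamv γ a)

theorem remv_add (γ : Basis (Fin n) ℝ E) (a : Fin n → ℤ) (x : E) {v : E} (hv : v ∈ dualL γ) :
    remv γ a (x + v) = remv γ a x := by
  unfold remv
  rw [lamv_add γ a x hv]
  abel

theorem countable_dualL (γ : Basis (Fin n) ℝ E) : (dualL γ : Set E).Countable := by
  have h : (dualL γ : Set E) ⊆ Set.range (fun k : Fin n → ℤ => (coordT γ).symm (fun i => (k i : ℝ))) := by
    intro v hv
    choose q hq using mem_dualL.mp hv
    refine ⟨q, ?_⟩
    apply ext_inner_basis γ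
    intro i
    rw [← coordT_apply, ContinuousLinearEquiv.apply_symm_apply, hq]
  exact (Set.countable_range _).mono h

/-- the region attached to a subgroup -/
def regT (γ : Basis (Fin n) ℝ E) (a : Fin n → ℤ) (L : AddSubgroup E) : Set E :=
  {x | lamv γ a x ∈ L ∧ lamv γ a x ≠ 0}

theorem measurableSet_lamv_mem (γ : Basis (Fin n) ℝ E) (a : Fin n → ℤ) (S : Set E) :
    MeasurableSet {x | lamv γ a x ∈ S} := by
  have h : {x | lamv γ a x ∈ S} = lamv γ a ⁻¹' (S ∩ dualL γ) := by
    ext x
    simp only [Set.mem_ofPred_eq, Set.mem_preimage, Set.mem_inter_iff]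
    exact ⟨fun hx => ⟨hx, lamv_mem γ a x⟩, fun hx => hx.1⟩
  rw [h]
  exact measurable_lamv γ a ((countable_dualL γ).mono Set.inter_subset_right).measurableSet

theorem measurableSet_regT (γ : Basis (Fin n) ℝ E) (a : Fin n → ℤ) (L : AddSubgroup E) :
    MeasurableSet (regT γ a L) := by
  have h : regT γ a L = {x | lamv γ a x ∈ ((L : Set E) \ {0})} := by
    ext x
    simp [regT]
  rw [h]
  exact measurableSet_lamv_mem γ a _

variable {γ : Basis (Fin n) ℝ E} {B : E ≃L[ℝ] E} {φ : E → ℂ}

/-- the test functions -/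
noncomputable def tf (φ : E → ℂ) (E₀ : Set E) (y : E) (x : E) : ℂ :=
  E₀.indicator (fun x => ee (⟪y, x⟫_ℝ)) x * φ x

theorem tf_memLp (hφ : MemLp φ 2 (volume : Measure E)) {E₀ : Set E} (hE₀ : MeasurableSet E₀)
    (y : E) : MemLp (tf φ E₀ y) 2 (volume : Measure E) := by
  refine hφ.norm.mono' (g := fun x => ‖φ x‖) ?_ ?_
  · apply AEStronglyMeasurable.mul _ hφ.1
    apply Measurable.aestronglyMeasurable
    apply Measurable.indicator _ hE₀
    exact ee_continuous.measurable.comp (continuous_const.inner continuous_id).measurable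
  · filter_upwards with x
    unfold tf
    by_cases hx : x ∈ E₀
    · rw [Set.indicator_of_mem hx, norm_mul, norm_ee, one_mul]
    · rw [Set.indicator_of_notMem hx, zero_mul, norm_zero]
      exact norm_nonneg _

theorem KI
    (h : IsONB (volume : Measure E) (fam γ B φ)) (a : Fin n → ℤ)
    {E₀ : Set E} (hE₀ : MeasurableSet E₀) (hE₀a : E₀ ⊆ cellQ γ a) (L : AddSubgroup E)
    (G : Set ℤ) (hG0 : (0 : ℤ) ∉ G) (hG : ∀ j ∈ G, ∀ v, v ∈ dualL γ → v ∈ Lj γ B j → v ∈ L)
    (y : E) :
    ∑' i : ℤ × (Fin n → ℤ), G.indicator (fun _ => (1 : ℝ≥0∞)) i.1 *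
      ‖∫ x, conj (fam γ B φ i x) * tf φ E₀ y x‖ₑ ^ 2 ≤ ∫⁻ x in regT γ a L, ‖φ x‖ₑ ^ 2 := by
  classical
  -- the periodic multiplier
  let g : E → ℂ := E₀.indicator (fun x => ee (⟪y, x⟫_ℝ))
  have hgm : Measurable g := by
    apply Measurable.indicator _ hE₀
    exact ee_continuous.measurable.comp (continuous_const.inner continuous_id).measurable
  have hg1 : ∀ x, ‖g x‖ ≤ 1 := by
    intro x
    by_cases hx : x ∈ E₀
    · simp only [g]
      rw [Set.indicator_of_mem hx, norm_ee]
    · simp only [g]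
      rw [Set.indicator_of_notMem hx, norm_zero]
      exact zero_le_one
  let m : E → ℂ := fun x => {x | lamv γ a x ∈ (L : Set E)}.indicator (fun x => g (remv γ a x)) x
  have hmm : Measurable m :=
    (hgm.comp (measurable_remv γ a)).indicator (measurableSet_lamv_mem γ a _)
  have hm1 : ∀ x, ‖m x‖ ≤ 1 := by
    intro x
    by_cases hx : x ∈ {x | lamv γ a x ∈ (L : Set E)}
    · simp only [m]
      rw [Set.indicator_of_mem hx]
      exact hg1 _
    · simp only [m]
      rw [Set.indicator_of_notMem hx, norm_zero]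
      exact zero_le_one
  have hmper : ∀ x v, v ∈ dualL γ → v ∈ L → m (x + v) = m x := by
    intro x v hv hvL
    simp only [m]
    by_cases hx : lamv γ a x ∈ (L : Set E)
    · have hx' : x + v ∈ {x | lamv γ a x ∈ (L : Set E)} := by
        change lamv γ a (x + v) ∈ (L : Set E)
        rw [lamv_add γ a x hv]
        exact L.add_mem hx hvL
      rw [Set.indicator_of_mem hx', Set.indicator_of_mem (by exact hx), remv_add γ a x hv]
    · have hx' : x + v ∉ {x | lamv γ a x ∈ (L : Set E)} := by
        change ¬ (lamv γ a (x + v) ∈ (L : Set E))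
        rw [lamv_add γ a x hv]
        intro h2
        apply hx
        have := L.sub_mem h2 hvL
        rwa [add_sub_cancel_right] at this
      rw [Set.indicator_of_notMem hx', Set.indicator_of_notMem (by exact hx)]
  -- the remainder function
  let hf : E → ℂ := fun x => (regT γ a L).indicator (fun x => g (remv γ a x)) x * φ x
  have hφ := memLp_of_isONB h
  have hhf : MemLp hf 2 (volume : Measure E) := by
    refine hφ.norm.mono' (g := fun x => ‖φ x‖) ?_ ?_
    · apply AEStronglyMeasurable.mul _ hφ.1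
      apply Measurable.aestronglyMeasurable
      exact (hgm.comp (measurable_remv γ a)).indicator (measurableSet_regT γ a L)
    · filter_upwards with x
      simp only [hf]
      by_cases hx : x ∈ regT γ a L
      · rw [Set.indicator_of_mem hx, norm_mul]
        exact mul_le_of_le_one_left (norm_nonneg _) (hg1 _)
      · rw [Set.indicator_of_notMem hx, zero_mul, norm_zero]
        exact norm_nonneg _
  have hdecomp : ∀ x, m x * φ x = tf φ E₀ y x + hf x := by
    intro x
    simp only [m, hf, tf]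
    by_cases hx0 : lamv γ a x = 0
    · have h1 : x ∈ {x | lamv γ a x ∈ (L : Set E)} := by
        change lamv γ a x ∈ (L : Set E)
        rw [hx0]
        exact L.zero_mem
      have h2 : x ∉ regT γ a L := fun hh => hh.2 hx0
      rw [Set.indicator_of_mem h1, Set.indicator_of_notMem h2]
      have h3 : remv γ a x = x := by
        unfold remv
        rw [hx0, sub_zero]
      rw [h3]
      ring
    · have hxE : x ∉ E₀ := fun hh => hx0 (hE₀a hh)
      have h4 : E₀.indicator (fun x => ee (⟪y, x⟫_ℝ)) x = 0 := Set.indicator_of_notMem hxE _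
      rw [h4]
      by_cases hx : lamv γ a x ∈ (L : Set E)
      · have h2 : x ∈ regT γ a L := ⟨hx, hx0⟩
        rw [Set.indicator_of_mem (by exact hx), Set.indicator_of_mem h2]
        ring
      · have h2 : x ∉ regT γ a L := fun hh => hx hh.1
        rw [Set.indicator_of_notMem (by exact hx), Set.indicator_of_notMem h2]
        ring
  -- orthogonality
  have horth : ∀ i : ℤ × (Fin n → ℤ), i.1 ∈ G →
      ∫ x, conj (fam γ B φ i x) * tf φ E₀ y x = - ∫ x, conj (fam γ B φ i x) * hf x := by
    rintro ⟨j, k⟩ hj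
    have hj0 : j ≠ 0 := fun h0 => hG0 (h0 ▸ hj)
    have hadd : ∫ x, conj (fam γ B φ (j, k) x) * (m x * φ x) = 0 := by
      have h1 := orth_saturated h hj0
        (m := fun x => m x * (((adet B ^ (-(j : ℝ) / 2) : ℝ) : ℂ) *
          ee (⟪kv γ k, (B ^ (-j)) x⟫_ℝ))) ?_ (C := adet B ^ (-(j : ℝ) / 2)) ?_ ?_
      · rw [← h1]
        apply integral_congr_ae
        filter_upwards with x
        rw [fam_apply]
        simp only [map_mul, Complex.conj_ofReal, conj_ee, neg_neg]
        ring
      · apply hmm.mul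
        apply Measurable.const_mul
        exact ee_continuous.measurable.comp
          (continuous_const.inner (B ^ (-j)).continuous).measurable
      · intro x
        rw [norm_mul, norm_mul, norm_ee, mul_one, Complex.norm_real,
          Real.norm_of_nonneg (Real.rpow_nonneg (adet_pos B).le _)]
        exact mul_le_of_le_one_left (Real.rpow_nonneg (adet_pos B).le _) (hm1 x)
      · intro x v hv hvj
        rw [hmper x v hv (hG j hj v hv hvj), map_add, ee_inner_periodic γ k (mem_Lj.mp hvj)]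
    have h2 : ∀ x, conj (fam γ B φ (j, k) x) * (m x * φ x)
        = conj (fam γ B φ (j, k) x) * tf φ E₀ y x + conj (fam γ B φ (j, k) x) * hf x := by
      intro x
      rw [hdecomp]
      ring
    simp only [h2] at hadd
    rw [integral_add (integrable_conj_mul (h.memLp _) (tf_memLp hφ hE₀ y))
      (integrable_conj_mul (h.memLp _) hhf)] at hadd
    exact eq_neg_of_add_eq_zero_left hadd
  calc ∑' i : ℤ × (Fin n → ℤ), G.indicator (fun _ => (1 : ℝ≥0∞)) i.1 *
      ‖∫ x, conj (fam γ B φ i x) * tf φ E₀ y x‖ₑ ^ 2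
      ≤ ∑' i : ℤ × (Fin n → ℤ), ‖∫ x, conj (fam γ B φ i x) * hf x‖ₑ ^ 2 := by
        apply ENNReal.tsum_le_tsum
        intro i
        by_cases hi : i.1 ∈ G
        · rw [Set.indicator_of_mem hi, one_mul, horth i hi, enorm_neg]
        · rw [Set.indicator_of_notMem hi, zero_mul]
          exact zero_le
    _ = ∫⁻ x, ‖hf x‖ₑ ^ 2 := h.parseval hhf
    _ ≤ ∫⁻ x, (regT γ a L).indicator (fun x => ‖φ x‖ₑ ^ 2) x := by
        apply lintegral_mono
        intro x
        simp only [hf]
        by_cases hx : x ∈ regT γ a L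
        · rw [Set.indicator_of_mem hx, Set.indicator_of_mem hx, enorm_mul, mul_pow]
          have : ‖g (remv γ a x)‖ₑ ≤ 1 := by
            rw [← ofReal_norm, ← ENNReal.ofReal_one]
            exact ENNReal.ofReal_le_ofReal (hg1 _)
          calc ‖g (remv γ a x)‖ₑ ^ 2 * ‖φ x‖ₑ ^ 2 ≤ 1 ^ 2 * ‖φ x‖ₑ ^ 2 := by gcongr
            _ = _ := by rw [one_pow, one_mul]
        · rw [Set.indicator_of_notMem hx, Set.indicator_of_notMem hx, zero_mul]
          simp
    _ = ∫⁻ x in regT γ a L, ‖φ x‖ₑ ^ 2 := lintegral_indicator (measurableSet_regT γ a L) _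

end Pool.Agent.Lib_helper44
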