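import Mathlib
import Pool.Agent.Lib_helper44.KI

open MeasureTheory Filter Topology Complex Module
open scoped ENNReal NNReal ComplexConjugate InnerProductSpace

set_option linter.unusedSectionVars false

namespace Pool.Agent.Lib_helper44

variable {E : Type*} [NormedAddCommGroup E] [InnerProductSpace ℝ E] [FiniteDimensional ℝ E]
  [MeasurableSpace E] [BorelSpace E] {n : ℕ}
variable {γ : Basis (Fin n) ℝ E} {B : E ≃L[ℝ] E} {φ : E → ℂ}

/-- the tail of the energy over a set of scales -/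
noncomputable def tailSum (γ : Basis (Fin n) ℝ E) (B : E ≃L[ℝ] E) (φ : E → ℂ) (G : Set ℤ)
    (E₀ : Set E) (y : E) : ℝ≥0∞ :=
  ∑' i : ℤ × (Fin n → ℤ), G.indicator (fun _ => (1 : ℝ≥0∞)) i.1 *
      ‖∫ x, conj (fam γ B φ i x) * tf φ E₀ y x‖ₑ ^ 2

/-- uniform smallness of the tails over a set of scales -/
def TailOK (γ : Basis (Fin n) ℝ E) (B : E ≃L[ℝ] E) (φ : E → ℂ) (S : Set ℤ) : Prop :=
  ∀ (a : Fin n → ℤ) (E₀ : Set E), MeasurableSet E₀ → E₀ ⊆ cellQ γ a → ∀ ε : ℝ≥0∞, ε ≠ 0 →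
    ∃ J : ℕ, ∀ y, tailSum γ B φ {j | j ∈ S ∧ J ≤ j.natAbs} E₀ y ≤ ε

theorem tailSum_mono {G G' : Set ℤ} (h : G ⊆ G') (E₀ : Set E) (y : E) :
    tailSum γ B φ G E₀ y ≤ tailSum γ B φ G' E₀ y := by
  unfold tailSum
  apply ENNReal.tsum_le_tsum
  intro i
  gcongr

theorem tailSum_union (G G' : Set ℤ) (E₀ : Set E) (y : E) :
    tailSum γ B φ (G ∪ G') E₀ y ≤ tailSum γ B φ G E₀ y + tailSum γ B φ G' E₀ y := by
  unfold tailSum
  rw [← ENNReal.tsum_add]
  apply ENNReal.tsum_le_tsum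
  intro i
  rw [← add_mul]
  gcongr
  by_cases h1 : i.1 ∈ G
  · rw [Set.indicator_of_mem (show i.1 ∈ G ∪ G' from Or.inl h1), Set.indicator_of_mem h1]
    exact le_self_add
  · by_cases h2 : i.1 ∈ G'
    · rw [Set.indicator_of_mem (show i.1 ∈ G ∪ G' from Or.inr h2), Set.indicator_of_mem h2]
      exact le_add_self
    · rw [Set.indicator_of_notMem (by rintro (h | h); exacts [h1 h, h2 h])]
      exact zero_le

theorem TailOK.union {S S' : Set ℤ} (h : TailOK γ B φ S) (h' : TailOK γ B φ S') :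
    TailOK γ B φ (S ∪ S') := by
  intro a E₀ hE₀ hE₀a ε hε
  have hε2 : ε / 2 ≠ 0 := by
    simp [hε]
  obtain ⟨J, hJ⟩ := h a E₀ hE₀ hE₀a (ε / 2) hε2
  obtain ⟨J', hJ'⟩ := h' a E₀ hE₀ hE₀a (ε / 2) hε2
  refine ⟨max J J', fun y => ?_⟩
  have h1 : {j : ℤ | j ∈ S ∪ S' ∧ max J J' ≤ j.natAbs} ⊆
      {j | j ∈ S ∧ J ≤ j.natAbs} ∪ {j | j ∈ S' ∧ J' ≤ j.natAbs} := by
    rintro j ⟨hj | hj, hj2⟩
    · exact Or.inl ⟨hj, (le_max_left _ _).trans hj2⟩
    · exact Or.inr ⟨hj, (le_max_right _ _).trans hj2⟩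
  calc tailSum γ B φ {j : ℤ | j ∈ S ∪ S' ∧ max J J' ≤ j.natAbs} E₀ y
      ≤ _ := tailSum_mono h1 E₀ y
    _ ≤ _ := tailSum_union _ _ E₀ y
    _ ≤ ε / 2 + ε / 2 := add_le_add (hJ y) (hJ' y)
    _ = ε := ENNReal.add_halves ε

theorem TailOK.mono {S S' : Set ℤ} (h : TailOK γ B φ S') (hS : S ⊆ S') : TailOK γ B φ S := by
  intro a E₀ hE₀ hE₀a ε hε
  obtain ⟨J, hJ⟩ := h a E₀ hE₀ hE₀a ε hε
  exact ⟨J, fun y => (tailSum_mono (show {j : ℤ | j ∈ S ∧ J ≤ j.natAbs} ⊆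
    {j | j ∈ S' ∧ J ≤ j.natAbs} from fun j hj => ⟨hS hj.1, hj.2⟩) E₀ y).trans (hJ y)⟩

theorem lintegral_phi_sq (h : IsONB (volume : Measure E) (fam γ B φ)) :
    ∫⁻ x, ‖φ x‖ₑ ^ 2 = 1 := by
  have h2 : fam γ B φ (0, 0) = φ := by
    ext x
    rw [fam_zero, kv_zero, inner_zero_left, neg_zero, ee_zero, one_mul]
  apply lintegral_sq_of_inner (memLp_of_isONB h)
  have h1 := h.inner (0, 0) (0, 0)
  rw [h2] at h1
  simpa using h1

theorem tailOK_of_F1 (h : IsONB (volume : Measure E) (fam γ B φ)) (S : Set ℤ)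
    (L : ℕ → AddSubgroup E) (hL : Antitone L)
    (hinter : ∀ v ∈ dualL γ, (∀ J, v ∈ L J) → v = 0)
    (hS : ∀ j ∈ S, ∀ J ≤ j.natAbs, ∀ v, v ∈ dualL γ → v ∈ Lj γ B j → v ∈ L J) :
    TailOK γ B φ S := by
  intro a E₀ hE₀ hE₀a ε hε
  set ν : Measure E := volume.withDensity (fun x => ‖φ x‖ₑ ^ 2) with hν
  have hνfin : ν Set.univ = 1 := by
    rw [hν, withDensity_apply _ MeasurableSet.univ, Measure.restrict_univ, lintegral_phi_sq h]
  have hνapp : ∀ s, MeasurableSet s → ν s = ∫⁻ x in s, ‖φ x‖ₑ ^ 2 := fun s hs =>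
    withDensity_apply _ hs
  have hfin : IsFiniteMeasure ν := ⟨by rw [hνfin]; exact ENNReal.one_lt_top⟩
  have hempty : ⋂ J, regT γ a (L J) = ∅ := by
    ext x
    simp only [Set.mem_iInter, Set.mem_empty_iff_false, iff_false, not_forall]
    by_contra hcon
    push Not at hcon
    exact (hcon 0).2 (hinter _ (lamv_mem γ a x) (fun J => (hcon J).1))
  have hanti : Antitone (fun J => regT γ a (L J)) := by
    intro J J' hJJ' x hx
    exact ⟨hL hJJ' hx.1, hx.2⟩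
  have hlim : Tendsto (fun J => ν (regT γ a (L J))) atTop (𝓝 0) := by
    have := tendsto_measure_iInter_atTop (μ := ν)
      (fun J => (measurableSet_regT γ a (L J)).nullMeasurableSet) hanti
      ⟨0, measure_ne_top ν _⟩
    rw [hempty, measure_empty] at this
    exact this
  have hev : ∀ᶠ J in atTop, ν (regT γ a (L J)) ≤ ε := by
    have := hlim.eventually (ge_mem_nhds (pos_iff_ne_zero.mpr hε))
    exact this
  obtain ⟨J, hJ1, hJ2⟩ := (hev.and (eventually_ge_atTop 1)).exists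
  refine ⟨J, fun y => ?_⟩
  calc tailSum γ B φ {j | j ∈ S ∧ J ≤ j.natAbs} E₀ y ≤ ∫⁻ x in regT γ a (L J), ‖φ x‖ₑ ^ 2 :=
        KI h a hE₀ hE₀a (L J) _ (by
          rintro ⟨_, h0⟩
          simp at h0
          omega) (fun j hj v hv hvj => hS j hj.1 J hj.2 v hv hvj) y
    _ = ν (regT γ a (L J)) := (hνapp _ (measurableSet_regT γ a _)).symm
    _ ≤ ε := hJ1

theorem tailOK_of_F2 (hφm : Measurable φ) (h : IsONB (volume : Measure E) (fam γ B φ)) (S : Set ℤ)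
    (hS0 : (0 : ℤ) ∉ S) (C : ℕ)
    (hC : ∀ v ∈ dualL γ, v ≠ 0 → ({j | j ∈ S ∧ v ∈ Lj γ B j} : Set ℤ).encard ≤ C) :
    TailOK γ B φ S := by
  classical
  intro a E₀ hE₀ hE₀a ε hε
  -- counting function
  let N : ℕ → E → ℝ≥0∞ := fun J x => ∑' j : ℤ, ({j | j ∈ S ∧ J ≤ j.natAbs} : Set ℤ).indicator
    (fun j => (regT γ a (Lj γ B j)).indicator (fun _ => (1 : ℝ≥0∞)) x) j
  have hterm : ∀ J (j : ℤ), Measurable (fun x => ({j | j ∈ S ∧ J ≤ j.natAbs} : Set ℤ).indicator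
    (fun j => (regT γ a (Lj γ B j)).indicator (fun _ => (1 : ℝ≥0∞)) x) j) := by
    intro J j
    by_cases hj : j ∈ ({j | j ∈ S ∧ J ≤ j.natAbs} : Set ℤ)
    · simp only [Set.indicator_of_mem hj]
      exact measurable_const.indicator (measurableSet_regT γ a _)
    · simp only [Set.indicator_of_notMem hj]
      exact measurable_const
  have hNm : ∀ J, Measurable (N J) := fun J => Measurable.tsum (hterm J)
  have hNval : ∀ J x, N J x = (({j | j ∈ S ∧ J ≤ j.natAbs ∧ x ∈ regT γ a (Lj γ B j)} :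
      Set ℤ).encard : ℝ≥0∞) := by
    intro J x
    rw [← ENNReal.tsum_set_one]
    rw [tsum_subtype ({j | j ∈ S ∧ J ≤ j.natAbs ∧ x ∈ regT γ a (Lj γ B j)} : Set ℤ)
      (fun _ => (1 : ℝ≥0∞))]
    simp only [N]
    congr 1
    ext j
    by_cases hj : j ∈ ({j | j ∈ S ∧ J ≤ j.natAbs} : Set ℤ)
    · rw [Set.indicator_of_mem hj]
      by_cases hx : x ∈ regT γ a (Lj γ B j)
      · rw [Set.indicator_of_mem hx, Set.indicator_of_mem (by exact ⟨hj.1, hj.2, hx⟩)]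
      · rw [Set.indicator_of_notMem hx, Set.indicator_of_notMem (fun hh => hx hh.2.2)]
    · rw [Set.indicator_of_notMem hj, Set.indicator_of_notMem (fun hh => hj ⟨hh.1, hh.2.1⟩)]
  have hfinset : ∀ x, ({j | j ∈ S ∧ x ∈ regT γ a (Lj γ B j)} : Set ℤ).encard ≤ C := by
    intro x
    by_cases hx : lamv γ a x = 0
    · have : ({j | j ∈ S ∧ x ∈ regT γ a (Lj γ B j)} : Set ℤ) = ∅ := by
        ext j
        simp only [Set.mem_ofPred_eq, Set.mem_empty_iff_false, iff_false]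
        rintro ⟨_, hh⟩
        exact hh.2 hx
      rw [this, Set.encard_empty]
      exact zero_le
    · refine (Set.encard_le_encard ?_).trans (hC (lamv γ a x) (lamv_mem γ a x) hx)
      rintro j ⟨hj, hxj⟩
      exact ⟨hj, hxj.1⟩
  have hNC : ∀ J x, N J x ≤ C := by
    intro J x
    rw [hNval]
    have h1 : ({j | j ∈ S ∧ J ≤ j.natAbs ∧ x ∈ regT γ a (Lj γ B j)} : Set ℤ).encard ≤ C := by
      refine (Set.encard_le_encard ?_).trans (hfinset x)
      rintro j ⟨hj, _, hxj⟩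
      exact ⟨hj, hxj⟩
    exact_mod_cast h1
  have hlim : Tendsto (fun J => ∫⁻ x, N J x * ‖φ x‖ₑ ^ 2) atTop (𝓝 (∫⁻ _ : E, (0 : ℝ≥0∞))) := by
    apply tendsto_lintegral_of_dominated_convergence (fun x => (C : ℝ≥0∞) * ‖φ x‖ₑ ^ 2)
    · intro J
      exact (hNm J).mul (hφm.enorm.pow_const 2)
    · intro J
      filter_upwards with x
      gcongr
      exact hNC J x
    · rw [lintegral_const_mul _ (hφm.enorm.pow_const 2), lintegral_phi_sq h, mul_one]
      exact ENNReal.natCast_ne_top C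
    · filter_upwards with x
      have hfin : ({j | j ∈ S ∧ x ∈ regT γ a (Lj γ B j)} : Set ℤ).Finite := by
        apply Set.finite_of_encard_le_coe (hfinset x)
      obtain ⟨M, hM⟩ := (hfin.image Int.natAbs).bddAbove
      apply tendsto_const_nhds.congr'
      filter_upwards [eventually_gt_atTop M] with J hJ
      have : ({j | j ∈ S ∧ J ≤ j.natAbs ∧ x ∈ regT γ a (Lj γ B j)} : Set ℤ) = ∅ := by
        ext j
        simp only [Set.mem_ofPred_eq, Set.mem_empty_iff_false, iff_false]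
        rintro ⟨h1, h2, h3⟩
        have := hM (Set.mem_image_of_mem Int.natAbs (show j ∈ ({j | j ∈ S ∧
          x ∈ regT γ a (Lj γ B j)} : Set ℤ) from ⟨h1, h3⟩))
        omega
      rw [hNval, this]
      simp
  rw [lintegral_zero] at hlim
  have hev : ∀ᶠ J in atTop, ∫⁻ x, N J x * ‖φ x‖ₑ ^ 2 ≤ ε :=
    hlim.eventually (ge_mem_nhds (pos_iff_ne_zero.mpr hε))
  obtain ⟨J, hJ1⟩ := hev.exists
  refine ⟨J, fun y => ?_⟩
  refine le_trans ?_ hJ1
  have h1 : tailSum γ B φ {j | j ∈ S ∧ J ≤ j.natAbs} E₀ y ≤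
      ∑' j : ℤ, ({j | j ∈ S ∧ J ≤ j.natAbs} : Set ℤ).indicator
        (fun j => ∫⁻ x in regT γ a (Lj γ B j), ‖φ x‖ₑ ^ 2) j := by
    unfold tailSum
    rw [ENNReal.tsum_prod']
    apply ENNReal.tsum_le_tsum
    intro j
    by_cases hj : j ∈ ({j | j ∈ S ∧ J ≤ j.natAbs} : Set ℤ)
    · rw [Set.indicator_of_mem hj]
      have hK := KI h a hE₀ hE₀a (Lj γ B j) {j} (by
        rintro h0
        rw [Set.mem_singleton_iff] at h0
        exact hS0 (h0 ▸ hj.1)) (fun j' hj' v _ hvj => by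
          rw [Set.mem_singleton_iff] at hj'
          rw [hj'] at hvj
          exact hvj) y
      refine le_trans ?_ hK
      rw [ENNReal.tsum_prod']
      refine le_trans ?_ (ENNReal.le_tsum j)
      simp only [Set.indicator_of_mem hj, Set.indicator_of_mem (Set.mem_singleton j)]
      exact le_rfl
    · simp only [Set.indicator_of_notMem hj, zero_mul, tsum_zero]
      exact le_rfl
  refine h1.trans (le_of_eq ?_)
  have h2 : ∀ j : ℤ, ({j | j ∈ S ∧ J ≤ j.natAbs} : Set ℤ).indicator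
        (fun j => ∫⁻ x in regT γ a (Lj γ B j), ‖φ x‖ₑ ^ 2) j
      = ∫⁻ x, ({j | j ∈ S ∧ J ≤ j.natAbs} : Set ℤ).indicator
        (fun j => (regT γ a (Lj γ B j)).indicator (fun _ => (1 : ℝ≥0∞)) x) j * ‖φ x‖ₑ ^ 2 := by
    intro j
    by_cases hj : j ∈ ({j | j ∈ S ∧ J ≤ j.natAbs} : Set ℤ)
    · simp only [Set.indicator_of_mem hj]
      rw [← lintegral_indicator (measurableSet_regT γ a _)]
      congr 1
      ext x
      by_cases hx : x ∈ regT γ a (Lj γ B j)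
      · rw [Set.indicator_of_mem hx, Set.indicator_of_mem hx, one_mul]
      · rw [Set.indicator_of_notMem hx, Set.indicator_of_notMem hx, zero_mul]
    · simp only [Set.indicator_of_notMem hj, zero_mul, lintegral_zero]
  simp only [h2]
  rw [← lintegral_tsum (f := fun (j : ℤ) (x : E) => ({j | j ∈ S ∧ J ≤ j.natAbs} : Set ℤ).indicator
        (fun j => (regT γ a (Lj γ B j)).indicator (fun _ => (1 : ℝ≥0∞)) x) j * ‖φ x‖ₑ ^ 2)
    (fun j => ((hterm J j).mul (hφm.enorm.pow_const 2)).aemeasurable)]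
  congr 1
  ext x
  rw [ENNReal.tsum_mul_right]

end Pool.Agent.Lib_helper44
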