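import Mathlib
import Pool.Agent.Lib_helper44.Tail

open MeasureTheory Filter Topology Complex Module FourierTransform
open scoped ENNReal NNReal ComplexConjugate InnerProductSpace

set_option linter.unusedSectionVars false

namespace Pool.Agent.Lib_helper44

variable {E : Type*} [NormedAddCommGroup E] [InnerProductSpace ℝ E] [FiniteDimensional ℝ E]
  [MeasurableSpace E] [BorelSpace E] {n : ℕ}

/-- the integral transform -/
noncomputable def Gt (g : E → ℂ) (u : E) : ℂ := ∫ x, ee (⟪u, x⟫_ℝ) * g x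

theorem Gt_eq_fourier (g : E → ℂ) (u : E) : Gt g u = 𝓕 g (-u) := by
  unfold Gt
  rw [Real.fourier_eq']
  apply integral_congr_ae
  filter_upwards with x
  rw [ee_eq, smul_eq_mul]
  congr 2
  rw [inner_neg_right, real_inner_comm]
  push_cast
  ring

theorem Gt_continuous {g : E → ℂ} (hg : Integrable g) : Continuous (Gt g) := by
  have hc : Continuous (𝓕 g) :=
    VectorFourier.fourierIntegral_continuous Real.continuous_fourierChar
      (by exact continuous_inner) hg
  have : Gt g = fun u => 𝓕 g (-u) := by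
    ext u
    exact Gt_eq_fourier g u
  rw [this]
  exact hc.comp continuous_neg

theorem lintegral_Gt_sq {g : E → ℂ} (hg : Integrable g) (hg2 : MemLp g 2 (volume : Measure E)) :
    ∫⁻ u, ‖Gt g u‖ₑ ^ 2 = ∫⁻ x, ‖g x‖ₑ ^ 2 := by
  simp only [Gt_eq_fourier]
  rw [lintegral_neg_eq_self (μ := (volume : Measure E)) (fun u => ‖𝓕 g u‖ₑ ^ 2)]
  have hLp : Integrable (hg2.toLp g : E → ℂ) := hg.congr hg2.coeFn_toLp.symm
  have h1 := fourier_L1L2 (hg2.toLp g) hLp
  have h2 : 𝓕 (hg2.toLp g : E → ℂ) = 𝓕 g := by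
    ext w
    rw [Real.fourier_eq', Real.fourier_eq']
    apply integral_congr_ae
    filter_upwards [hg2.coeFn_toLp] with x hx
    rw [hx]
  rw [h2] at h1
  have h3 : ‖(𝓕 (hg2.toLp g) : Lp ℂ 2 (volume : Measure E))‖ₑ = ‖hg2.toLp g‖ₑ := by
    have := (Lp.fourierTransformₗᵢ E ℂ).norm_map (hg2.toLp g)
    have h4 : ‖(𝓕 (hg2.toLp g) : Lp ℂ 2 (volume : Measure E))‖ = ‖hg2.toLp g‖ := this
    rw [← ofReal_norm, ← ofReal_norm, h4]
  have h5 : ∀ f : Lp ℂ 2 (volume : Measure E), ‖f‖ₑ ^ 2 = ∫⁻ x, ‖f x‖ₑ ^ 2 := by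
    intro f
    have := enorm_toLp_sq (Lp.memLp f)
    rw [Lp.toLp_coeFn] at this
    exact this
  have h6 := h5 (𝓕 (hg2.toLp g) : Lp ℂ 2 (volume : Measure E))
  rw [h3, enorm_toLp_sq hg2] at h6
  rw [h6]
  apply lintegral_congr_ae
  filter_upwards [h1] with x hx
  rw [hx]

/-- counting points of a discrete set with disjoint cells -/
theorem count_le {κ : Type*} [Countable κ] (p : κ → E) {C₀ : Set E} (hC₀ : MeasurableSet C₀)
    (hdisj : ∀ k l : κ, k ≠ l → ∀ x, x - p k ∈ C₀ → x - p l ∉ C₀) {c : ℝ}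
    (hc : ∀ x ∈ C₀, ‖x‖ < c) (R : ℝ) (u : E) :
    (∑' k, (Metric.ball (p k) R).indicator (fun _ => (1 : ℝ≥0∞)) u) * volume C₀
      ≤ volume (Metric.ball (0 : E) (R + c)) := by
  classical
  let s : κ → Set E := fun k => if u ∈ Metric.ball (p k) R then {x | x - p k ∈ C₀} else ∅
  have hcell : ∀ k, MeasurableSet {x | x - p k ∈ C₀} := fun k => (measurable_sub_const (p k)) hC₀
  have hsm : ∀ k, MeasurableSet (s k) := by
    intro k
    simp only [s]
    split_ifs
    · exact hcell k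
    · exact MeasurableSet.empty
  have hvol : ∀ k, volume (s k) = (Metric.ball (p k) R).indicator (fun _ => (1 : ℝ≥0∞)) u *
      volume C₀ := by
    intro k
    simp only [s]
    by_cases hu : u ∈ Metric.ball (p k) R
    · rw [if_pos hu, Set.indicator_of_mem hu, one_mul]
      exact (measurePreserving_sub_right (volume : Measure E) (p k)).measure_preimage
        hC₀.nullMeasurableSet
    · rw [if_neg hu, Set.indicator_of_notMem hu, zero_mul, measure_empty]
  have hpd : Pairwise (Function.onFun Disjoint s) := by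
    intro k l hkl
    rw [Function.onFun, Set.disjoint_left]
    intro x hxk hxl
    simp only [s] at hxk hxl
    split_ifs at hxk with h1
    · split_ifs at hxl with h2
      · exact hdisj k l hkl x hxk hxl
      · exact hxl
    · exact hxk
  have hsub : (⋃ k, s k) ⊆ Metric.ball u (R + c) := by
    intro x hx
    rw [Set.mem_iUnion] at hx
    obtain ⟨k, hk⟩ := hx
    simp only [s] at hk
    split_ifs at hk with h1
    · rw [Metric.mem_ball, dist_eq_norm] at h1 ⊢
      have h2 := hc _ hk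
      have h3 : x - u = (x - p k) - (u - p k) := by abel
      calc ‖x - u‖ ≤ ‖x - p k‖ + ‖u - p k‖ := by rw [h3]; exact norm_sub_le _ _
        _ < R + c := by linarith
    · exact absurd hk (Set.notMem_empty x)
  calc (∑' k, (Metric.ball (p k) R).indicator (fun _ => (1 : ℝ≥0∞)) u) * volume C₀
      = ∑' k, volume (s k) := by
        rw [← ENNReal.tsum_mul_right]
        congr 1
        ext k
        rw [hvol]
    _ = volume (⋃ k, s k) := (measure_iUnion hpd hsm).symm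
    _ ≤ volume (Metric.ball u (R + c)) := measure_mono hsub
    _ = volume (Metric.ball (0 : E) (R + c)) := Measure.addHaar_ball_center _ _ _

theorem avg_bound {κ : Type*} [Countable κ] (p : κ → E) {C₀ : Set E} (hC₀ : MeasurableSet C₀)
    (hdisj : ∀ k l : κ, k ≠ l → ∀ x, x - p k ∈ C₀ → x - p l ∉ C₀) {c : ℝ}
    (hc : ∀ x ∈ C₀, ‖x‖ < c) (R : ℝ) {G : E → ℂ} (hG : Continuous G) :
    (∫⁻ y in Metric.ball (0 : E) R, ∑' k, ‖G (y + p k)‖ₑ ^ 2) * volume C₀
      ≤ volume (Metric.ball (0 : E) (R + c)) * ∫⁻ u, ‖G u‖ₑ ^ 2 := by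
  have hGm : Measurable (fun u => ‖G u‖ₑ ^ 2) := (hG.measurable.enorm.pow_const 2)
  rw [lintegral_tsum (f := fun k y => ‖G (y + p k)‖ₑ ^ 2)
    (fun k => (hGm.comp (measurable_add_const (p k))).aemeasurable)]
  have h1 : ∀ k, ∫⁻ y in Metric.ball (0 : E) R, ‖G (y + p k)‖ₑ ^ 2
      = ∫⁻ u, (Metric.ball (p k) R).indicator (fun _ => (1 : ℝ≥0∞)) u * ‖G u‖ₑ ^ 2 := by
    intro k
    rw [← lintegral_indicator measurableSet_ball]
    have h2 : ∀ y, (Metric.ball (0 : E) R).indicator (fun y => ‖G (y + p k)‖ₑ ^ 2) y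
        = (fun u => (Metric.ball (p k) R).indicator (fun _ => (1 : ℝ≥0∞)) u * ‖G u‖ₑ ^ 2)
          (y + p k) := by
      intro y
      have hiff : y ∈ Metric.ball (0 : E) R ↔ y + p k ∈ Metric.ball (p k) R := by
        rw [Metric.mem_ball, Metric.mem_ball, dist_zero_right, dist_eq_norm, add_sub_cancel_right]
      by_cases hy : y ∈ Metric.ball (0 : E) R
      · rw [Set.indicator_of_mem hy]
        simp only
        rw [Set.indicator_of_mem (hiff.mp hy), one_mul]
      · rw [Set.indicator_of_notMem hy]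
        simp only
        rw [Set.indicator_of_notMem (fun hh => hy (hiff.mpr hh)), zero_mul]
    simp only [h2]
    exact lintegral_add_right_eq_self (μ := (volume : Measure E))
      (fun u => (Metric.ball (p k) R).indicator (fun _ => (1 : ℝ≥0∞)) u * ‖G u‖ₑ ^ 2) (p k)
  simp only [h1]
  have him : ∀ k, Measurable (fun u => (Metric.ball (p k) R).indicator (fun _ => (1 : ℝ≥0∞)) u *
      ‖G u‖ₑ ^ 2) := fun k => (measurable_const.indicator measurableSet_ball).mul hGm
  rw [← lintegral_tsum (fun k => (him k).aemeasurable)]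
  rw [← lintegral_mul_const _ (Measurable.tsum him), ← lintegral_const_mul _ hGm]
  apply lintegral_mono
  intro u
  beta_reduce
  rw [ENNReal.tsum_mul_right, mul_assoc, mul_comm (‖G u‖ₑ ^ 2), ← mul_assoc]
  gcongr
  exact count_le p hC₀ hdisj hc R u

/-- the dilated fundamental cell -/
def dcell (γ : Basis (Fin n) ℝ E) (M : E ≃L[ℝ] E) : Set E :=
  {x | M x ∈ ZSpan.fundamentalDomain γ}

theorem measurableSet_dcell (γ : Basis (Fin n) ℝ E) (M : E ≃L[ℝ] E) :
    MeasurableSet (dcell γ M) :=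
  M.continuous.measurable (ZSpan.fundamentalDomain_measurableSet γ)

theorem dcell_disj (γ : Basis (Fin n) ℝ E) (M : E ≃L[ℝ] E) (k l : Fin n → ℤ) (hkl : k ≠ l) (x : E)
    (hk : x - M.symm (kv γ k) ∈ dcell γ M) : x - M.symm (kv γ l) ∉ dcell γ M := by
  intro hl
  apply hkl
  have hrepr : ∀ (k : Fin n → ℤ) (i : Fin n), γ.repr (kv γ k) i = k i := by
    intro k i
    unfold kv
    rw [map_sum, Finsupp.finsetSum_apply]
    simp only [map_smul, Basis.repr_self, Finsupp.smul_single, smul_eq_mul, mul_one]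
    rw [Finset.sum_eq_single i]
    · simp
    · intro b _ hb
      rw [Finsupp.single_apply, if_neg hb]
    · simp
  have hkey : ∀ (k : Fin n → ℤ), x - M.symm (kv γ k) ∈ dcell γ M →
      ∀ i, k i = ⌊γ.repr (M x) i⌋ := by
    intro k hk i
    have h1 : M (x - M.symm (kv γ k)) ∈ ZSpan.fundamentalDomain γ := hk
    rw [map_sub, M.apply_symm_apply, ZSpan.mem_fundamentalDomain] at h1
    have h2 := h1 i
    rw [map_sub, Finsupp.sub_apply, hrepr] at h2
    symm
    rw [Int.floor_eq_iff]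
    exact ⟨by linarith [h2.1], by linarith [h2.2]⟩
  ext i
  rw [hkey k hk i, hkey l hl i]

theorem dcell_bounded (γ : Basis (Fin n) ℝ E) (M : E ≃L[ℝ] E) :
    ∃ c : ℝ, 0 < c ∧ ∀ x ∈ dcell γ M, ‖x‖ < c := by
  have h1 : Bornology.IsBounded (ZSpan.fundamentalDomain γ) := ZSpan.fundamentalDomain_isBounded γ
  obtain ⟨r, hr⟩ := h1.subset_ball 0
  have hr' : ∀ z ∈ ZSpan.fundamentalDomain γ, ‖z‖ < max r 1 := by
    intro z hz
    have := hr hz
    rw [Metric.mem_ball, dist_zero_right] at this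
    exact lt_of_lt_of_le this (le_max_left _ _)
  refine ⟨(‖(M.symm : E →L[ℝ] E)‖ + 1) * max r 1, by positivity, fun x hx => ?_⟩
  have h2 : x = (M.symm : E →L[ℝ] E) (M x) := (M.symm_apply_apply x).symm
  have h3 := hr' _ hx
  have h4 : 0 ≤ ‖M x‖ := norm_nonneg _
  calc ‖x‖ = ‖(M.symm : E →L[ℝ] E) (M x)‖ := by rw [← h2]
    _ ≤ ‖(M.symm : E →L[ℝ] E)‖ * ‖M x‖ := ContinuousLinearMap.le_opNorm _ _
    _ ≤ (‖(M.symm : E →L[ℝ] E)‖ + 1) * ‖M x‖ := by nlinarith
    _ < (‖(M.symm : E →L[ℝ] E)‖ + 1) * max r 1 := by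
        apply mul_lt_mul_of_pos_left h3
        positivity

theorem volume_dcell (γ : Basis (Fin n) ℝ E) (M : E ≃L[ℝ] E) :
    volume (dcell γ M) = ENNReal.ofReal (adet M)⁻¹ * volume (ZSpan.fundamentalDomain γ) := by
  have h1 : dcell γ M = M ⁻¹' (ZSpan.fundamentalDomain γ) := rfl
  rw [h1, ← Measure.map_apply M.continuous.measurable (ZSpan.fundamentalDomain_measurableSet γ),
    map_volume_equiv]
  rfl

variable {γ : Basis (Fin n) ℝ E} {A B : E ≃L[ℝ] E} {φ : E → ℂ}

theorem coeff_eq (hAB : IsAdj A B) (E₀ : Set E) (j : ℤ) (k : Fin n → ℤ) (y : E) :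
    ∫ x, conj (fam γ B φ (j, k) x) * tf φ E₀ y x = ((adet B ^ (-(j : ℝ) / 2) : ℝ) : ℂ) *
      Gt (fun x => conj (φ ((B ^ (-j)) x)) * tf φ E₀ 0 x) (y + (A ^ j).symm (kv γ k)) := by
  unfold Gt
  rw [← integral_const_mul]
  apply integral_congr_ae
  filter_upwards with x
  rw [fam_apply]
  have h1 : ⟪y + (A ^ j).symm (kv γ k), x⟫_ℝ = ⟪y, x⟫_ℝ + ⟪kv γ k, (B ^ (-j)) x⟫_ℝ := by
    rw [inner_add_left, zpow_neg_apply, (hAB.zpow (-j)) (kv γ k) x]
  rw [h1, ee_add]
  simp only [map_mul, Complex.conj_ofReal, conj_ee, neg_neg]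
  unfold tf
  by_cases hx : x ∈ E₀
  · simp only [Set.indicator_of_mem hx, inner_zero_left, ee_zero]
    ring
  · simp only [Set.indicator_of_notMem hx]
    ring

/-- averaged upper bound for the energy at the scale `j` -/
theorem avg_scale (hAB : IsAdj A B) (h : IsONB (volume : Measure E) (fam γ B φ))
    {E₀ : Set E} (hE₀ : MeasurableSet E₀) {T : ℝ} (hT0 : 0 ≤ T) (hT : ∀ x ∈ E₀, ‖φ x‖ ≤ T)
    (j : ℤ) :
    ∃ c : ℝ, 0 < c ∧ ∀ R : ℝ,
      (∫⁻ y in Metric.ball (0 : E) R, ∑' k : Fin n → ℤ,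
        ‖∫ x, conj (fam γ B φ (j, k) x) * tf φ E₀ y x‖ₑ ^ 2) * volume (ZSpan.fundamentalDomain γ)
      ≤ volume (Metric.ball (0 : E) (R + c)) *
        ∫⁻ x, ‖φ ((B ^ (-j)) x)‖ₑ ^ 2 * ‖tf φ E₀ 0 x‖ₑ ^ 2 := by
  obtain ⟨c, hc0, hc⟩ := dcell_bounded γ (A ^ j)
  refine ⟨c, hc0, fun R => ?_⟩
  set g : E → ℂ := fun x => conj (φ ((B ^ (-j)) x)) * tf φ E₀ 0 x with hg
  have hφ := memLp_of_isONB h
  have hgi : Integrable g (volume : Measure E) :=
    integrable_conj_mul (memLp_dil_of_isONB h j) (tf_memLp hφ hE₀ 0)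
  have hg2 : MemLp g 2 (volume : Measure E) := by
    have h1 : MemLp (fun x => (T : ℝ) * ‖φ ((B ^ (-j)) x)‖) 2 (volume : Measure E) :=
      ((memLp_dil_of_isONB h j).norm).const_mul T
    refine h1.mono' hgi.1 ?_
    filter_upwards with x
    rw [hg]
    simp only
    rw [norm_mul, RCLike.norm_conj, mul_comm]
    unfold tf
    by_cases hx : x ∈ E₀
    · rw [Set.indicator_of_mem hx, norm_mul, norm_ee, one_mul]
      exact mul_le_mul_of_nonneg_right (hT x hx) (norm_nonneg _)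
    · rw [Set.indicator_of_notMem hx, zero_mul, norm_zero, zero_mul]
      exact mul_nonneg hT0 (norm_nonneg _)
  have hmain := avg_bound (fun k : Fin n → ℤ => (A ^ j).symm (kv γ k)) (measurableSet_dcell γ (A ^ j))
    (fun k l hkl x hk => dcell_disj γ (A ^ j) k l hkl x hk) hc R (Gt_continuous hgi)
  have hconst : ‖((adet B ^ (-(j : ℝ) / 2) : ℝ) : ℂ)‖ₑ ^ 2 = ENNReal.ofReal (adet (A ^ j))⁻¹ := by
    rw [enorm_sq_eq, Complex.norm_real, Real.norm_of_nonneg (Real.rpow_nonneg (adet_pos B).le _),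
      adet_zpow, hAB.adet_eq]
    congr 1
    rw [← Real.rpow_natCast, ← Real.rpow_mul (adet_pos B).le, ← zpow_neg, ← Real.rpow_intCast]
    congr 1
    push_cast
    ring
  have hcoef : ∀ y : E, ∑' k : Fin n → ℤ,
        ‖∫ x, conj (fam γ B φ (j, k) x) * tf φ E₀ y x‖ₑ ^ 2 = ENNReal.ofReal (adet (A ^ j))⁻¹ *
        ∑' k : Fin n → ℤ, ‖Gt g (y + (A ^ j).symm (kv γ k))‖ₑ ^ 2 := by
    intro y
    rw [← ENNReal.tsum_mul_left]
    congr 1
    ext k
    rw [coeff_eq hAB, enorm_mul, mul_pow, hconst]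
  simp only [hcoef]
  have hGm : Measurable (fun u => ‖Gt g u‖ₑ ^ 2) :=
    ((Gt_continuous hgi).measurable.enorm.pow_const 2)
  have hsumm : Measurable (fun y => ∑' k : Fin n → ℤ,
      ‖Gt g (y + (A ^ j).symm (kv γ k))‖ₑ ^ 2) :=
    Measurable.tsum fun k => hGm.comp (measurable_add_const ((A ^ j).symm (kv γ k)))
  rw [lintegral_const_mul _ hsumm, mul_right_comm, ← volume_dcell, mul_comm]
  refine hmain.trans ?_
  rw [lintegral_Gt_sq hgi hg2]
  gcongr with x
  rw [hg]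
  simp only
  rw [enorm_mul, mul_pow]
  gcongr
  rw [← ofReal_norm, ← ofReal_norm, RCLike.norm_conj]

end Pool.Agent.Lib_helper44
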