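import Mathlib
import Pool.Agent.Lib_helper44.Avg

open MeasureTheory Filter Topology Complex Module FourierTransform
open scoped ENNReal NNReal ComplexConjugate InnerProductSpace

set_option linter.unusedSectionVars false

namespace Pool.Agent.Lib_helper44

variable {E : Type*} [NormedAddCommGroup E] [InnerProductSpace ℝ E] [FiniteDimensional ℝ E]
  [MeasurableSpace E] [BorelSpace E] {n : ℕ}
variable {γ : Basis (Fin n) ℝ E} {A B : E ≃L[ℝ] E} {φ : E → ℂ}

theorem ratio_tendsto (c : ℝ) (hc : 0 < c) :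
    Tendsto (fun R : ℕ => volume (Metric.ball (0 : E) (R + c)) / volume (Metric.ball (0 : E) R))
      atTop (𝓝 1) := by
  have h1 : ∀ᶠ R : ℕ in atTop, volume (Metric.ball (0 : E) (R + c)) /
      volume (Metric.ball (0 : E) R) = ENNReal.ofReal ((1 + c / R) ^ finrank ℝ E) := by
    filter_upwards [eventually_gt_atTop 0] with R hR
    have hR' : (0 : ℝ) < R := by exact_mod_cast hR
    have hb1 : volume (Metric.ball (0 : E) 1) ≠ 0 := (Metric.measure_ball_pos _ _ one_pos).ne'
    have hb1' : volume (Metric.ball (0 : E) 1) ≠ ⊤ := measure_ball_lt_top.ne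
    rw [Measure.addHaar_ball_of_pos (volume : Measure E) 0 (by positivity : (0 : ℝ) < R + c),
      Measure.addHaar_ball_of_pos (volume : Measure E) 0 hR']
    rw [ENNReal.mul_div_mul_right _ _ hb1 hb1', ← ENNReal.ofReal_div_of_pos (by positivity)]
    congr 1
    rw [← div_pow]
    congr 1
    field_simp
  rw [tendsto_congr' h1]
  have h2 : Tendsto (fun R : ℕ => (1 + c / (R : ℝ)) ^ finrank ℝ E) atTop
      (𝓝 ((1 + 0) ^ finrank ℝ E)) := by
    apply Tendsto.pow
    exact tendsto_const_nhds.add (tendsto_const_div_atTop_nhds_zero_nat c)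
  rw [add_zero, one_pow] at h2
  have := (ENNReal.continuous_ofReal.tendsto 1).comp h2
  rw [ENNReal.ofReal_one] at this
  exact this

theorem enorm_tf (E₀ : Set E) (y x : E) : ‖tf φ E₀ y x‖ₑ = ‖tf φ E₀ 0 x‖ₑ := by
  unfold tf
  by_cases hx : x ∈ E₀
  · rw [Set.indicator_of_mem hx, Set.indicator_of_mem hx, enorm_mul, enorm_mul]
    have : ∀ t, ‖ee t‖ₑ = 1 := by
      intro t
      rw [← ofReal_norm, norm_ee, ENNReal.ofReal_one]
    rw [this, this]
  · rw [Set.indicator_of_notMem hx, Set.indicator_of_notMem hx]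

theorem lower_local (hAB : IsAdj A B) (h : IsONB (volume : Measure E) (fam γ B φ))
    (hφm : Measurable φ)
    (hTail : TailOK γ B φ {j | j ≠ 0}) {a : Fin n → ℤ} {E₀ : Set E} (hE₀ : MeasurableSet E₀)
    (hE₀a : E₀ ⊆ cellQ γ a) {T : ℝ} (hT0 : 0 ≤ T) (hT : ∀ x ∈ E₀, ‖φ x‖ ≤ T) :
    volume (ZSpan.fundamentalDomain γ) * ∫⁻ x, ‖tf φ E₀ 0 x‖ₑ ^ 2
      ≤ ∫⁻ x, (∑' j : ℤ, ‖φ ((B ^ (-j)) x)‖ₑ ^ 2) * ‖tf φ E₀ 0 x‖ₑ ^ 2 := by
  classical
  set K := ∫⁻ x, ‖tf φ E₀ 0 x‖ₑ ^ 2 with hK
  set v₀ := volume (ZSpan.fundamentalDomain γ) with hv₀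
  have hv₀t : v₀ ≠ ⊤ := (ZSpan.fundamentalDomain_isBounded γ).measure_lt_top.ne
  have hφ := memLp_of_isONB h
  have htfm : Measurable (fun x => ‖tf φ E₀ 0 x‖ₑ ^ 2) := by
    unfold tf
    apply Measurable.pow_const
    apply Measurable.enorm
    apply Measurable.mul _ hφm
    apply Measurable.indicator _ hE₀
    exact ee_continuous.measurable.comp (continuous_const.inner continuous_id).measurable
  have hIm : ∀ j : ℤ, Measurable (fun x => ‖φ ((B ^ (-j)) x)‖ₑ ^ 2 * ‖tf φ E₀ 0 x‖ₑ ^ 2) := by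
    intro j
    exact ((hφm.comp (B ^ (-j)).continuous.measurable).enorm.pow_const 2).mul htfm
  set I : ℤ → ℝ≥0∞ := fun j => ∫⁻ x, ‖φ ((B ^ (-j)) x)‖ₑ ^ 2 * ‖tf φ E₀ 0 x‖ₑ ^ 2 with hI
  have hsum : ∫⁻ x, (∑' j : ℤ, ‖φ ((B ^ (-j)) x)‖ₑ ^ 2) * ‖tf φ E₀ 0 x‖ₑ ^ 2 = ∑' j, I j := by
    rw [← lintegral_tsum (fun j => (hIm j).aemeasurable)]
    congr 1
    ext x
    rw [ENNReal.tsum_mul_right]
  rw [hsum]
  set cf : ℤ → (Fin n → ℤ) → E → ℝ≥0∞ := fun j k y =>
    ‖∫ x, conj (fam γ B φ (j, k) x) * tf φ E₀ y x‖ₑ ^ 2 with hcf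
  have hpars : ∀ y : E, K = ∑' i : ℤ × (Fin n → ℤ),
      ‖∫ x, conj (fam γ B φ i x) * tf φ E₀ y x‖ₑ ^ 2 := by
    intro y
    rw [h.parseval (tf_memLp hφ hE₀ y), hK]
    congr 1
    ext x
    rw [enorm_tf E₀ y x]
  -- main inequality with an error
  have key : ∀ ε : ℝ≥0∞, ε ≠ 0 → ε ≠ ⊤ → v₀ * K ≤ (∑' j, I j) + ε * v₀ := by
    intro ε hε hεt
    obtain ⟨J₀, hJ₀⟩ := hTail a E₀ hE₀ hE₀a ε hε
    set J := max J₀ 1 with hJ
    have hJy : ∀ y, tailSum γ B φ {j | j ∈ {j : ℤ | j ≠ 0} ∧ J ≤ j.natAbs} E₀ y ≤ ε := by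
      intro y
      refine (tailSum_mono ?_ E₀ y).trans (hJ₀ y)
      rintro j ⟨h1, h2⟩
      exact ⟨h1, (le_max_left _ _).trans h2⟩
    let Fs : Finset ℤ := (Finset.Icc (-(J : ℤ)) J).filter (fun j => j.natAbs < J)
    have hFs : ∀ j : ℤ, j ∈ Fs ↔ j.natAbs < J := by
      intro j
      simp only [Fs, Finset.mem_filter, Finset.mem_Icc]
      omega
    have hpt : ∀ y, K ≤ (∑ j ∈ Fs, ∑' k, cf j k y) + ε := by
      intro y
      rw [hpars y]
      calc ∑' i : ℤ × (Fin n → ℤ), ‖∫ x, conj (fam γ B φ i x) * tf φ E₀ y x‖ₑ ^ 2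
          ≤ ∑' i : ℤ × (Fin n → ℤ), ((Fs : Set ℤ).indicator (fun _ => (1 : ℝ≥0∞)) i.1 *
              ‖∫ x, conj (fam γ B φ i x) * tf φ E₀ y x‖ₑ ^ 2 +
              {j : ℤ | j ∈ {j : ℤ | j ≠ 0} ∧ J ≤ j.natAbs}.indicator (fun _ => (1 : ℝ≥0∞)) i.1 *
              ‖∫ x, conj (fam γ B φ i x) * tf φ E₀ y x‖ₑ ^ 2) := by
            apply ENNReal.tsum_le_tsum
            intro i
            by_cases hi : i.1 ∈ (Fs : Set ℤ)
            · rw [Set.indicator_of_mem hi, one_mul]
              exact le_self_add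
            · have h2 : i.1 ∈ {j : ℤ | j ∈ {j : ℤ | j ≠ 0} ∧ J ≤ j.natAbs} := by
                rw [Finset.mem_coe, hFs] at hi
                refine ⟨?_, by omega⟩
                intro h0
                have h0' : i.1 = 0 := h0
                rw [h0'] at hi
                simp only [Int.natAbs_zero] at hi
                have : 1 ≤ J := le_max_right _ _
                omega
              rw [Set.indicator_of_mem h2, one_mul]
              exact le_add_self
        _ = (∑' i : ℤ × (Fin n → ℤ), (Fs : Set ℤ).indicator (fun _ => (1 : ℝ≥0∞)) i.1 *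
              ‖∫ x, conj (fam γ B φ i x) * tf φ E₀ y x‖ₑ ^ 2) +
              tailSum γ B φ {j | j ∈ {j : ℤ | j ≠ 0} ∧ J ≤ j.natAbs} E₀ y := by
            rw [ENNReal.tsum_add]
            rfl
        _ ≤ (∑ j ∈ Fs, ∑' k, cf j k y) + ε := by
            gcongr
            · rw [ENNReal.tsum_prod']
              rw [tsum_eq_sum (s := Fs)]
              · apply Finset.sum_le_sum
                intro j hj
                have hj' : j ∈ (Fs : Set ℤ) := hj
                simp only [Set.indicator_of_mem hj', one_mul]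
                exact le_rfl
              · intro j hj
                have hj' : j ∉ (Fs : Set ℤ) := hj
                simp only [Set.indicator_of_notMem hj', zero_mul, tsum_zero]
            · exact hJy y
    choose c hc0 hc using fun j => avg_scale hAB h hE₀ hT0 hT j
    have hR : ∀ᶠ R : ℕ in atTop, v₀ * K ≤ (∑ j ∈ Fs, volume (Metric.ball (0 : E) (R + c j)) /
        volume (Metric.ball (0 : E) R) * I j) + ε * v₀ := by
      filter_upwards [eventually_gt_atTop 0] with R hR
      have hR' : (0 : ℝ) < R := by exact_mod_cast hR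
      have hb0 : volume (Metric.ball (0 : E) R) ≠ 0 := (Metric.measure_ball_pos _ _ hR').ne'
      have hbt : volume (Metric.ball (0 : E) R) ≠ ⊤ := measure_ball_lt_top.ne
      have hcm : ∀ j k, Measurable (cf j k) := by
        intro j k
        have h1 : cf j k = fun y => ‖((adet B ^ (-(j : ℝ) / 2) : ℝ) : ℂ) *
          Gt (fun x => conj (φ ((B ^ (-j)) x)) * tf φ E₀ 0 x) (y + (A ^ j).symm (kv γ k))‖ₑ ^ 2 := by
          ext y
          rw [hcf]
          simp only
          rw [coeff_eq hAB]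
        rw [h1]
        apply Measurable.pow_const
        apply Measurable.enorm
        apply Measurable.const_mul
        apply Continuous.measurable
        exact (Gt_continuous (integrable_conj_mul (memLp_dil_of_isONB h j)
          (tf_memLp hφ hE₀ 0))).comp (continuous_id.add continuous_const)
      have h1 : volume (Metric.ball (0 : E) R) * K ≤
          (∑ j ∈ Fs, ∫⁻ y in Metric.ball (0 : E) R, ∑' k, cf j k y) +
          ε * volume (Metric.ball (0 : E) R) := by
        calc volume (Metric.ball (0 : E) R) * K = ∫⁻ _ in Metric.ball (0 : E) R, K := by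
              rw [setLIntegral_const, mul_comm]
          _ ≤ ∫⁻ y in Metric.ball (0 : E) R, ((∑ j ∈ Fs, ∑' k, cf j k y) + ε) :=
              lintegral_mono fun y => hpt y
          _ = (∑ j ∈ Fs, ∫⁻ y in Metric.ball (0 : E) R, ∑' k, cf j k y) +
              ε * volume (Metric.ball (0 : E) R) := by
              rw [lintegral_add_right _ measurable_const, setLIntegral_const,
                lintegral_finsetSum _ (fun j _ => Measurable.tsum fun k => hcm j k)]
      have h2 : v₀ * (volume (Metric.ball (0 : E) R) * K) ≤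
          (∑ j ∈ Fs, volume (Metric.ball (0 : E) (R + c j)) * I j) +
          v₀ * (ε * volume (Metric.ball (0 : E) R)) := by
        calc v₀ * (volume (Metric.ball (0 : E) R) * K)
            ≤ v₀ * ((∑ j ∈ Fs, ∫⁻ y in Metric.ball (0 : E) R, ∑' k, cf j k y) +
              ε * volume (Metric.ball (0 : E) R)) := by gcongr
          _ = (∑ j ∈ Fs, (∫⁻ y in Metric.ball (0 : E) R, ∑' k, cf j k y) * v₀) +
              v₀ * (ε * volume (Metric.ball (0 : E) R)) := by
              rw [mul_add, Finset.mul_sum]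
              congr 1
              apply Finset.sum_congr rfl
              intro j _
              rw [mul_comm]
          _ ≤ _ := add_le_add (Finset.sum_le_sum fun j _ => hc j R) le_rfl
      have h3 : v₀ * K = (v₀ * (volume (Metric.ball (0 : E) R) * K)) /
          volume (Metric.ball (0 : E) R) := by
        rw [← mul_assoc, mul_right_comm, mul_div_assoc, ENNReal.div_self hb0 hbt, mul_one]
      rw [h3]
      calc (v₀ * (volume (Metric.ball (0 : E) R) * K)) / volume (Metric.ball (0 : E) R)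
          ≤ ((∑ j ∈ Fs, volume (Metric.ball (0 : E) (R + c j)) * I j) +
          v₀ * (ε * volume (Metric.ball (0 : E) R))) / volume (Metric.ball (0 : E) R) := by gcongr
        _ = _ := by
          rw [ENNReal.add_div]
          congr 1
          · simp only [div_eq_mul_inv]
            rw [Finset.sum_mul]
            apply Finset.sum_congr rfl
            intro j _
            ring
          · rw [mul_div_assoc, mul_div_assoc, ENNReal.div_self hb0 hbt, mul_one, mul_comm]
    have hlim : Tendsto (fun R : ℕ => (∑ j ∈ Fs, volume (Metric.ball (0 : E) (R + c j)) /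
        volume (Metric.ball (0 : E) R) * I j) + ε * v₀) atTop
        (𝓝 ((∑ j ∈ Fs, 1 * I j) + ε * v₀)) := by
      apply Tendsto.add _ tendsto_const_nhds
      apply tendsto_finsetSum
      intro j _
      exact ENNReal.Tendsto.mul_const (ratio_tendsto (c j) (hc0 j)) (Or.inl one_ne_zero)
    have hfin := ge_of_tendsto hlim hR
    refine hfin.trans ?_
    gcongr
    simp only [one_mul]
    exact ENNReal.sum_le_tsum Fs
  -- let the error tend to zero
  rcases eq_or_ne (∑' j, I j) ⊤ with htop | htop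
  · rw [htop]
    exact le_top
  · apply ENNReal.le_of_forall_pos_le_add
    intro δ hδ _
    rcases eq_or_ne v₀ 0 with hv | hv
    · rw [hv, zero_mul]
      exact zero_le
    · have h1 := key (δ / v₀) (by
        rw [ne_eq, ENNReal.div_eq_zero_iff, not_or]
        exact ⟨by exact_mod_cast hδ.ne', hv₀t⟩) (by
        rw [ne_eq, ENNReal.div_eq_top]
        rintro (⟨_, h2⟩ | ⟨h2, _⟩)
        · exact hv h2
        · exact ENNReal.coe_ne_top h2)
      rw [ENNReal.div_mul_cancel hv hv₀t] at h1
      exact h1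

end Pool.Agent.Lib_helper44
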