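import Mathlib
import Pool.Agent.Lib_helper44.LowerCal

open MeasureTheory Filter Topology Complex Module FourierTransform
open scoped ENNReal NNReal ComplexConjugate InnerProductSpace

set_option linter.unusedSectionVars false

namespace Pool.Agent.Lib_helper44

variable {E : Type*} [NormedAddCommGroup E] [InnerProductSpace ℝ E] [FiniteDimensional ℝ E]
  [MeasurableSpace E] [BorelSpace E] {n : ℕ}
variable {γ : Basis (Fin n) ℝ E} {A B : E ≃L[ℝ] E} {φ : E → ℂ}

/-- the Calderon sum in frequency -/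
noncomputable def calS (B : E ≃L[ℝ] E) (φ : E → ℂ) (x : E) : ℝ≥0∞ :=
  ∑' j : ℤ, ‖φ ((B ^ (-j)) x)‖ₑ ^ 2

theorem measurable_calS (hφm : Measurable φ) : Measurable (calS B φ) :=
  Measurable.tsum fun j => (hφm.comp (B ^ (-j)).continuous.measurable).enorm.pow_const 2

theorem calS_invariant (j : ℤ) (x : E) : calS B φ ((B ^ j) x) = calS B φ x := by
  unfold calS
  have h : ∀ i : ℤ, (B ^ (-i)) ((B ^ j) x) = (B ^ (-(i - j))) x := by
    intro i
    have : B ^ (-(i - j)) = B ^ (-i) * B ^ j := by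
      rw [← zpow_add]
      congr 1
      ring
    rw [this]
    rfl
  simp only [h]
  exact (Equiv.subRight j).tsum_eq (fun i : ℤ => ‖φ ((B ^ (-i)) x)‖ₑ ^ 2)

/-- the exceptional sets are null -/
theorem null_aux {S ρ : E → ℝ≥0∞} (hS : Measurable S) (hρ : Measurable ρ) {v : ℝ≥0∞} (hv : v ≠ ⊤)
    {D : Set E} (hD : MeasurableSet D) (hDS : ∀ x ∈ D, S x < v) (hDρ : ∀ x ∈ D, ρ x ≠ 0)
    (hfin : ∫⁻ x in D, ρ x ≠ ⊤) (hle : v * ∫⁻ x in D, ρ x ≤ ∫⁻ x in D, S x * ρ x) :
    volume D = 0 := by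
  have h1 : ∫⁻ x in D, v * ρ x = (∫⁻ x in D, S x * ρ x) + ∫⁻ x in D, (v - S x) * ρ x := by
    rw [← lintegral_add_left (f := fun x => S x * ρ x) (hS.mul hρ)]
    apply setLIntegral_congr_fun hD
    intro x hx
    simp only
    rw [← add_mul, add_tsub_cancel_of_le (hDS x hx).le]
  rw [lintegral_const_mul _ hρ] at h1
  have h2 : v * ∫⁻ x in D, ρ x ≠ ⊤ := ENNReal.mul_ne_top hv hfin
  have h3 : ∫⁻ x in D, (v - S x) * ρ x = 0 := by
    rw [h1] at hle h2
    have h4 : ∫⁻ x in D, S x * ρ x ≠ ⊤ := fun h => h2 (by rw [h, top_add])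
    have h5 : (∫⁻ x in D, S x * ρ x) + ∫⁻ x in D, (v - S x) * ρ x ≤ (∫⁻ x in D, S x * ρ x) + 0 := by
      rw [add_zero]; exact hle
    have h6 := (ENNReal.add_le_add_iff_left h4).mp h5
    exact le_antisymm h6 zero_le
  rw [lintegral_eq_zero_iff (f := fun x => (v - S x) * ρ x)
    ((measurable_const.sub hS).mul hρ)] at h3
  rw [Filter.EventuallyEq, ae_restrict_iff' hD] at h3
  rw [ae_iff] at h3
  refine measure_mono_null ?_ h3
  intro x hx
  simp only [Set.mem_ofPred_eq, not_forall]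
  refine ⟨hx, ?_⟩
  simp only [Pi.zero_apply, mul_eq_zero, not_or]
  exact ⟨(tsub_pos_of_lt (hDS x hx)).ne', hDρ x hx⟩

theorem lower_on_support (hAB : IsAdj A B) (h : IsONB (volume : Measure E) (fam γ B φ))
    (hφm : Measurable φ) (hTail : TailOK γ B φ {j | j ≠ 0}) :
    ∀ᵐ x, φ x ≠ 0 → volume (ZSpan.fundamentalDomain γ) ≤ calS B φ x := by
  set v₀ := volume (ZSpan.fundamentalDomain γ) with hv₀
  have hv₀t : v₀ ≠ ⊤ := (ZSpan.fundamentalDomain_isBounded γ).measure_lt_top.ne
  have hSm : Measurable (calS B φ) := measurable_calS hφm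
  -- the pieces
  let D : (Fin n → ℤ) × ℕ → Set E := fun q =>
    cellQ γ q.1 ∩ ({x | calS B φ x < v₀} ∩ ({x | φ x ≠ 0} ∩ {x | ‖φ x‖ ≤ q.2}))
  have hcellm : ∀ a, MeasurableSet (cellQ γ a) := by
    intro a
    exact measurable_lamv γ a (measurableSet_singleton 0)
  have hDm : ∀ q, MeasurableSet (D q) := by
    intro q
    refine (hcellm q.1).inter (MeasurableSet.inter ?_ (MeasurableSet.inter ?_ ?_))
    · exact measurableSet_lt hSm measurable_const
    · exact (hφm (measurableSet_singleton 0)).compl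
    · exact measurableSet_le hφm.norm measurable_const
  have hnull : ∀ q, volume (D q) = 0 := by
    intro q
    have hloc := lower_local hAB h hφm hTail (hDm q) (a := q.1) (fun x hx => hx.1)
      (T := q.2) (Nat.cast_nonneg _) (fun x hx => hx.2.2.2)
    have htf : ∀ x, ‖tf φ (D q) 0 x‖ₑ ^ 2 = (D q).indicator (fun x => ‖φ x‖ₑ ^ 2) x := by
      intro x
      unfold tf
      by_cases hx : x ∈ D q
      · rw [Set.indicator_of_mem hx, Set.indicator_of_mem hx, inner_zero_left, ee_zero, one_mul]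
      · rw [Set.indicator_of_notMem hx, Set.indicator_of_notMem hx, zero_mul]
        simp
    simp only [htf] at hloc
    have e1 : ∫⁻ x, (D q).indicator (fun x => ‖φ x‖ₑ ^ 2) x = ∫⁻ x in D q, ‖φ x‖ₑ ^ 2 :=
      lintegral_indicator (hDm q) _
    have e2 : ∫⁻ x, (∑' j : ℤ, ‖φ ((B ^ (-j)) x)‖ₑ ^ 2) * (D q).indicator (fun x => ‖φ x‖ₑ ^ 2) x
        = ∫⁻ x in D q, calS B φ x * ‖φ x‖ₑ ^ 2 := by
      rw [← lintegral_indicator (hDm q)]
      congr 1
      ext x
      by_cases hx : x ∈ D q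
      · rw [Set.indicator_of_mem hx, Set.indicator_of_mem hx]
        rfl
      · rw [Set.indicator_of_notMem hx, Set.indicator_of_notMem hx, mul_zero]
    rw [e1, e2] at hloc
    refine null_aux hSm (hφm.enorm.pow_const 2) hv₀t (hDm q) (fun x hx => hx.2.1) ?_ ?_ hloc
    · intro x hx
      have h1 : φ x ≠ 0 := hx.2.2.1
      simpa using h1
    · refine ne_top_of_le_ne_top ?_ (setLIntegral_le_lintegral _ _)
      rw [lintegral_phi_sq h]
      exact ENNReal.one_ne_top
  rw [ae_iff]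
  refine measure_mono_null ?_ (measure_iUnion_null hnull)
  intro x hx
  simp only [Set.mem_ofPred_eq, not_forall, not_le] at hx
  obtain ⟨hx1, hx2⟩ := hx
  rw [Set.mem_iUnion]
  refine ⟨(fun i => ⌊⟪γ i, x⟫_ℝ⌋, ⌈‖φ x‖⌉₊), ?_, hx2, hx1, Nat.le_ceil ‖φ x‖⟩
  change lamv γ _ x = 0
  apply ext_inner_basis γ
  intro i
  rw [inner_lamv, inner_zero_right]
  simp

/-- the dilates of the support cover -/
theorem support_cover_gen (hφm : Measurable φ) (h : IsONB (volume : Measure E) (fam γ B φ)) :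
    ∀ᵐ x : E, ∃ j : ℤ, φ ((B ^ j) x) ≠ 0 := by
  set S : Set E := {x | ∀ j : ℤ, φ ((B ^ j) x) = 0} with hS
  have hSm : MeasurableSet S := by
    have : S = ⋂ j : ℤ, (fun x : E => φ ((B ^ j) x)) ⁻¹' {0} := by
      ext p
      simp [hS]
    rw [this]
    apply MeasurableSet.iInter
    intro j
    exact (hφm.comp (B ^ j).continuous.measurable) (measurableSet_singleton 0)
  by_contra hcon
  have hSpos : volume S ≠ 0 := by
    intro h0
    apply hcon
    rw [ae_iff]
    have : {a : E | ¬ ∃ j : ℤ, φ ((B ^ j) a) ≠ 0} = S := by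
      ext p
      simp [hS]
    rw [this]
    exact h0
  obtain ⟨S', hS'm, hS'S, hS'pos0, hS'lt⟩ :=
    Measure.exists_subset_measure_lt_top hSm (pos_iff_ne_zero.mpr hSpos)
  have hg : MemLp (S'.indicator (fun _ => (1 : ℂ))) 2 (volume : Measure E) :=
    memLp_indicator_const 2 hS'm 1 (Or.inr hS'lt.ne)
  have h0 := h.total _ hg (fun i => by
    have : ∀ p : E, conj (fam γ B φ i p) * S'.indicator (fun _ => (1 : ℂ)) p = 0 := by
      intro p
      by_cases hp : p ∈ S'
      · have h1 : φ ((B ^ (-i.1)) p) = 0 := hS'S hp (-i.1)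
        rw [fam_apply, h1]
        simp
      · rw [Set.indicator_of_notMem hp, mul_zero]
    simp only [this, integral_zero])
  rw [Set.indicator_ae_eq_zero] at h0
  apply hS'pos0.ne'
  have h2 : Function.support (fun _ : E => (1 : ℂ)) = Set.univ := by
    ext p; simp
  rw [h2, Set.inter_univ] at h0
  exact h0

/-- **Lower Calderon inequality**: if the tails are uniformly small, the Calderon sum is bounded
below by the covolume of the lattice. -/
theorem lower_calderon (hAB : IsAdj A B) (h : IsONB (volume : Measure E) (fam γ B φ))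
    (hφm : Measurable φ) (hTail : TailOK γ B φ {j | j ≠ 0}) :
    ∀ᵐ x, volume (ZSpan.fundamentalDomain γ) ≤ calS B φ x := by
  have h1 := lower_on_support hAB h hφm hTail
  have h2 : ∀ᵐ x, ∀ j : ℤ, φ ((B ^ j) x) ≠ 0 →
      volume (ZSpan.fundamentalDomain γ) ≤ calS B φ ((B ^ j) x) := by
    rw [ae_all_iff]
    intro j
    exact ae_comp_equiv (B ^ j) h1
  filter_upwards [h2, support_cover_gen hφm h] with x hx1 hx2
  obtain ⟨j, hj⟩ := hx2
  rw [← calS_invariant j x]
  exact hx1 j hj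

end Pool.Agent.Lib_helper44
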