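import Mathlib
import Pool.Agent.Lib_helper44.Reduce

open MeasureTheory FourierTransform Complex Module Filter
open scoped ENNReal InnerProductSpace ComplexConjugate

set_option linter.unusedSectionVars false

namespace Pool.Agent.Lib_helper44

theorem exists_wavelet_of_integral (A : GL (Fin 2) ℝ)
    (Γ : Submodule ℤ (EuclideanSpace ℝ (Fin 2))) [DiscreteTopology Γ]
    [IsZLattice ℝ Γ] (v : EuclideanSpace ℝ (Fin 2)) (hv : v ≠ 0)
    (hdual : ∀ γ ∈ Γ, ∃ q : ℤ, ⟪γ, v⟫_ℝ = q) (mu : ℝ)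
    (hB : Matrix.toEuclideanLin (A : Matrix (Fin 2) (Fin 2) ℝ).transpose v = mu • v)
    (hdet : |mu| < |(A : Matrix (Fin 2) (Fin 2) ℝ).det|)
    (m : ℕ) (hm : 0 < m) (K : ℤ) (hK : mu ^ m * K = 1) :
    ∃ ψ : Lp ℂ 2 (volume : Measure (EuclideanSpace ℝ (Fin 2))), IsOrthonormalWavelet A Γ ψ := by
  have hB' : glE (glT A) v = mu • v := hB
  obtain ⟨lam, hl, hmu, hadet, hrest⟩ := adapted_coords (glE (glT A)) Γ v hv hdual mu hB'
  have hadet2 : adet (glE (glT A)) = |(A : Matrix (Fin 2) (Fin 2) ℝ).det| := by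
    rw [← (isAdj_glE A).adet_eq, adet_glE]
  have hmupos : 0 < |mu| := abs_pos.mpr hmu
  have hl1 : 1 < |lam| := by
    rw [← hadet2, hadet, abs_mul] at hdet
    by_contra h
    push Not at h
    have : |lam| * |mu| ≤ 1 * |mu| := mul_le_mul_of_nonneg_right h hmupos.le
    linarith
  have hK0 : K ≠ 0 := by
    intro h
    rw [h, Int.cast_zero, mul_zero] at hK
    exact zero_ne_one hK
  have hKR : (K : ℝ) ≠ 0 := by exact_mod_cast hK0
  have hK' : mu⁻¹ ^ m = K := by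
    rw [inv_pow]
    exact inv_eq_of_mul_eq_one_right hK
  have hmu1 : |mu| ≤ 1 := by
    by_contra h
    push Not at h
    have h1 : 1 < |mu| ^ m := one_lt_pow₀ h hm.ne'
    have h2 : |mu| ^ m * |(K : ℝ)| = 1 := by rw [← abs_pow, ← abs_mul, hK, abs_one]
    have h3 : (1 : ℝ) ≤ |(K : ℝ)| := by
      rw [← Int.cast_abs]
      exact_mod_cast Int.one_le_abs hK0
    nlinarith
  have hlm : lam ≠ mu := by
    rintro rfl
    linarith
  obtain ⟨t, τ, e, g, hBτ, he, -, -⟩ := hrest hlm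
  obtain ⟨C, hC, hτ⟩ := exists_map_volume τ
  have hONB := FF_isONB (t := t) hl1 hmu hm hK0 hK'
  have hPhi : MemLp (Phi lam mu m K) 2 (volume : Measure (ℝ × ℝ)) := by
    have h1 := hONB.memLp (0, (0, 0))
    have h2 : FF lam mu t m K (0, (0, 0)) = Phi lam mu m K := by
      ext p
      unfold FF
      simp [ee_zero]
    rwa [h2] at h1
  obtain ⟨ψ, hψ⟩ := exists_lp_profile hC τ hτ hPhi
  refine ⟨ψ, ?_⟩
  rw [wavelet_iff_GG A Γ hl hmu hadet τ e hBτ he hC hτ ψ]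
  rw [FF_eq_GG] at hONB
  exact hONB.congr (fun i => GG_congr hl hmu hψ i)

end Pool.Agent.Lib_helper44
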