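import Mathlib
import Pool.Agent.Lib_helper44.N1

open MeasureTheory Filter Topology Complex
open scoped ENNReal NNReal ComplexConjugate

set_option linter.unusedSectionVars false

namespace Pool.Agent.Lib_helper44

variable {lam mu t : ℝ} {φ : ℝ × ℝ → ℂ}

theorem GG_zero_eq (φ : ℝ × ℝ → ℂ) : GG lam mu t φ (0, (0, 0)) = φ := by
  ext p
  rw [GG_zero]
  simp [ee_zero]

theorem ae_dg_zpow (hl0 : lam ≠ 0) (hmu0 : mu ≠ 0) {q : ℝ × ℝ → Prop}
    (h : ∀ᵐ p : ℝ × ℝ, q p) : ∀ᵐ p : ℝ × ℝ, ∀ j : ℤ, q (lam ^ j * p.1, mu ^ j * p.2) := by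
  rw [ae_all_iff]
  intro j
  have h1 := (qmp_equiv (dg lam mu hl0 hmu0 ^ j)).ae h
  filter_upwards [h1] with p hp
  rw [dg_zpow] at hp
  exact hp

/-- the Calderon sum of an orthonormal wavelet is not bounded below -/
theorem calderon_fails (hl : 1 < |lam|) (hmu0 : mu ≠ 0) (hmu : |mu| < 1)
    (hdet : 1 ≤ |lam * mu|)
    (h : IsONB (volume : Measure (ℝ × ℝ)) (GG lam mu t φ)) {c : ℝ≥0∞} (hc : c ≠ 0) :
    ¬ ∀ᵐ p : ℝ × ℝ, c ≤ ∑' j : ℤ, ‖φ (lam ^ j * p.1, mu ^ j * p.2)‖ₑ ^ 2 := by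
  intro H
  have hl0 : lam ≠ 0 := by
    intro h
    rw [h, abs_zero] at hl
    linarith
  have hmem : MemLp φ 2 (volume : Measure (ℝ × ℝ)) := by
    have h1 := h.memLp (0, (0, 0))
    rwa [GG_zero_eq] at h1
  set φ' := hmem.1.mk φ with hφ'
  have hmeas : Measurable φ' := hmem.1.stronglyMeasurable_mk.measurable
  have hae : φ =ᵐ[volume] φ' := hmem.1.ae_eq_mk
  have h' : IsONB (volume : Measure (ℝ × ℝ)) (GG lam mu t φ') :=
    h.congr (fun i => GG_congr hl0 hmu0 hae i)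
  refine calderon_fails_aux hl hmu0 hmu hdet hmeas h' hc ?_
  filter_upwards [H, ae_dg_zpow hl0 hmu0 hae] with p h1 h2
  simp only [← h2]
  exact h1

/-- the dilates of the support of the Fourier transform cover -/
theorem support_cover (hl0 : lam ≠ 0) (hmu0 : mu ≠ 0)
    (h : IsONB (volume : Measure (ℝ × ℝ)) (GG lam mu t φ)) :
    ∀ᵐ p : ℝ × ℝ, ∃ j : ℤ, φ (lam ^ j * p.1, mu ^ j * p.2) ≠ 0 := by
  have hmem : MemLp φ 2 (volume : Measure (ℝ × ℝ)) := by
    have h1 := h.memLp (0, (0, 0))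
    rwa [GG_zero_eq] at h1
  set φ' := hmem.1.mk φ with hφ'
  have hmeas : Measurable φ' := hmem.1.stronglyMeasurable_mk.measurable
  have hae : φ =ᵐ[volume] φ' := hmem.1.ae_eq_mk
  have h' : IsONB (volume : Measure (ℝ × ℝ)) (GG lam mu t φ') :=
    h.congr (fun i => GG_congr hl0 hmu0 hae i)
  have key : ∀ᵐ p : ℝ × ℝ, ∃ j : ℤ, φ' (lam ^ j * p.1, mu ^ j * p.2) ≠ 0 := by
    set S : Set (ℝ × ℝ) := {p | ∀ j : ℤ, φ' (lam ^ j * p.1, mu ^ j * p.2) = 0} with hS
    have hSm : MeasurableSet S := by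
      have : S = ⋂ j : ℤ, (fun p : ℝ × ℝ => φ' (lam ^ j * p.1, mu ^ j * p.2)) ⁻¹' {0} := by
        ext p
        simp [hS]
      rw [this]
      apply MeasurableSet.iInter
      intro j
      exact (hmeas.comp ((measurable_fst.const_mul _).prodMk (measurable_snd.const_mul _)))
        (measurableSet_singleton 0)
    by_contra hcon
    have hSpos : volume S ≠ 0 := by
      intro h0
      apply hcon
      rw [ae_iff]
      have : {a : ℝ × ℝ | ¬ ∃ j : ℤ, φ' (lam ^ j * a.1, mu ^ j * a.2) ≠ 0} = S := by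
        ext p
        simp [hS]
      rw [this]
      exact h0
    obtain ⟨S', hS'm, hS'S, hS'pos0, hS'lt⟩ :=
      Measure.exists_subset_measure_lt_top hSm (pos_iff_ne_zero.mpr hSpos)
    have hS'pos : volume S' ≠ 0 := hS'pos0.ne'
    have hg : MemLp (S'.indicator (fun _ => (1 : ℂ))) 2 (volume : Measure (ℝ × ℝ)) :=
      memLp_indicator_const 2 hS'm 1 (Or.inr hS'lt.ne)
    have h0 := h'.total _ hg (fun i => by
      have : ∀ p : ℝ × ℝ, conj (GG lam mu t φ' i p) * S'.indicator (fun _ => (1 : ℂ)) p = 0 := by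
        intro p
        by_cases hp : p ∈ S'
        · have h1 : φ' (lam ^ (-i.1) * p.1, mu ^ (-i.1) * p.2) = 0 := hS'S hp (-i.1)
          unfold GG
          rw [h1]
          simp
        · rw [Set.indicator_of_notMem hp, mul_zero]
      simp only [this, integral_zero])
    rw [Set.indicator_ae_eq_zero] at h0
    apply hS'pos
    have h2 : Function.support (fun _ : ℝ × ℝ => (1 : ℂ)) = Set.univ := by
      ext p; simp
    rw [h2, Set.inter_univ] at h0
    exact h0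
  filter_upwards [key, ae_dg_zpow hl0 hmu0 hae] with p h1 h2
  obtain ⟨j, hj⟩ := h1
  exact ⟨j, by rw [h2]; exact hj⟩

/-- the modulus of the Fourier transform is not bounded below on its support -/
theorem not_bounded_below (hl : 1 < |lam|) (hmu0 : mu ≠ 0) (hmu : |mu| < 1)
    (hdet : 1 ≤ |lam * mu|)
    (h : IsONB (volume : Measure (ℝ × ℝ)) (GG lam mu t φ)) {c : ℝ≥0∞} (hc : c ≠ 0) :
    ¬ ∀ᵐ p : ℝ × ℝ, φ p = 0 ∨ c ≤ ‖φ p‖ₑ := by
  intro H
  have hl0 : lam ≠ 0 := by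
    intro h
    rw [h, abs_zero] at hl
    linarith
  refine calderon_fails hl hmu0 hmu hdet h (c := c ^ 2) (by simpa using hc) ?_
  filter_upwards [support_cover hl0 hmu0 h, ae_dg_zpow hl0 hmu0 H] with p h1 h2
  obtain ⟨j, hj⟩ := h1
  calc c ^ 2 ≤ ‖φ (lam ^ j * p.1, mu ^ j * p.2)‖ₑ ^ 2 := by
        gcongr
        exact (h2 j).resolve_left hj
    _ ≤ _ := ENNReal.le_tsum j

end Pool.Agent.Lib_helper44
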