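import Mathlib
import Pool.Agent.Lib_helper44.N1b
import Pool.Agent.Lib_helper44.Existence

open MeasureTheory FourierTransform Complex Module Filter
open scoped ENNReal InnerProductSpace ComplexConjugate

set_option linter.unusedSectionVars false

namespace Pool.Agent.Lib_helper44

theorem glT_zpow {n : ℕ} (A : GL (Fin n) ℝ) (j : ℤ) : glT A ^ j = glT (A ^ j) := by
  have h1 : ∀ B C : GL (Fin n) ℝ, glT (B * C) = glT C * glT B := by
    intro B C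
    ext1
    simp [glT, Matrix.transpose_mul]
  have h0 : glT (1 : GL (Fin n) ℝ) = 1 := by
    ext1
    simp [glT]
  have hpow : ∀ k : ℕ, glT A ^ k = glT (A ^ k) := by
    intro k
    induction k with
    | zero => simp [h0]
    | succ k ih => rw [pow_succ, ih, pow_succ', h1]
  have hinv : ∀ B : GL (Fin n) ℝ, (glT B)⁻¹ = glT B⁻¹ := by
    intro B
    rw [inv_eq_iff_mul_eq_one, ← h1, inv_mul_cancel, h0]
  cases j with
  | ofNat k => simpa using hpow k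
  | negSucc k =>
    simp only [zpow_negSucc]
    rw [hpow, hinv]

theorem calderonSum_eq {n : ℕ} (A : GL (Fin n) ℝ)
    (ψ : Lp ℂ 2 (volume : Measure (EuclideanSpace ℝ (Fin n)))) (ξ : EuclideanSpace ℝ (Fin n)) :
    calderonSum A ψ ξ = ∑' j : ℤ, ‖(𝓕 ψ : Lp ℂ 2 (volume : Measure (EuclideanSpace ℝ (Fin n))))
      ((glE (glT A) ^ j) ξ)‖ₑ ^ 2 := by
  unfold calderonSum
  congr 1
  ext j
  rw [← map_zpow, glT_zpow, actT_eq]
  rfl

theorem adapted_setup (A : GL (Fin 2) ℝ)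
    (Γ : Submodule ℤ (EuclideanSpace ℝ (Fin 2))) [DiscreteTopology Γ]
    [IsZLattice ℝ Γ] (v : EuclideanSpace ℝ (Fin 2)) (hv : v ≠ 0)
    (hdual : ∀ γ ∈ Γ, ∃ q : ℤ, ⟪γ, v⟫_ℝ = q) (mu : ℝ)
    (hB : Matrix.toEuclideanLin (A : Matrix (Fin 2) (Fin 2) ℝ).transpose v = mu • v)
    (hmu1 : |mu| < 1) (hdet : 1 ≤ |(A : Matrix (Fin 2) (Fin 2) ℝ).det|) :
    ∃ (lam : ℝ) (hl : lam ≠ 0) (hmu : mu ≠ 0), 1 < |lam| ∧ 1 ≤ |lam * mu| ∧
      ∃ (t : ℝ) (τ : (ℝ × ℝ) ≃L[ℝ] EuclideanSpace ℝ (Fin 2)) (C : ℝ),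
      0 < C ∧ Measure.map τ.toHomeomorph.toMeasurableEquiv (volume : Measure (ℝ × ℝ))
        = ENNReal.ofReal C • (volume : Measure (EuclideanSpace ℝ (Fin 2))) ∧
      (∀ x, glE (glT A) (τ x) = τ (dg lam mu hl hmu x)) ∧
      (∀ ψ : Lp ℂ 2 (volume : Measure (EuclideanSpace ℝ (Fin 2))),
        IsOrthonormalWavelet A Γ ψ ↔ IsONB (volume : Measure (ℝ × ℝ)) (GG lam mu t (fun x =>
      ((C ^ (-(1 / 2) : ℝ) : ℝ) : ℂ) *
        (𝓕 ψ : Lp ℂ 2 (volume : Measure (EuclideanSpace ℝ (Fin 2)))) (τ x)))) := by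
  have hB' : glE (glT A) v = mu • v := hB
  obtain ⟨lam, hl, hmu, hadet, hrest⟩ := adapted_coords (glE (glT A)) Γ v hv hdual mu hB'
  have hadet2 : adet (glE (glT A)) = |(A : Matrix (Fin 2) (Fin 2) ℝ).det| := by
    rw [← (isAdj_glE A).adet_eq, adet_glE]
  have hmupos : 0 < |mu| := abs_pos.mpr hmu
  have hdet' : 1 ≤ |lam * mu| := by rw [← hadet, hadet2]; exact hdet
  have hl1 : 1 < |lam| := by
    rw [abs_mul] at hdet'
    by_contra h
    push Not at h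
    have : |lam| * |mu| ≤ 1 * |mu| := mul_le_mul_of_nonneg_right h hmupos.le
    linarith
  have hlm : lam ≠ mu := by
    rintro rfl
    linarith
  obtain ⟨t, τ, e, g, hBτ, he, -, -⟩ := hrest hlm
  obtain ⟨C, hC, hτ⟩ := exists_map_volume τ
  exact ⟨lam, hl, hmu, hl1, hdet', t, τ, C, hC, hτ, hBτ, fun ψ =>
    wavelet_iff_GG A Γ hl hmu hadet τ e hBτ he hC hτ ψ⟩

theorem ae_pull {τ : (ℝ × ℝ) ≃L[ℝ] EuclideanSpace ℝ (Fin 2)} {C : ℝ}
    (hτ : Measure.map τ.toHomeomorph.toMeasurableEquiv (volume : Measure (ℝ × ℝ))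
        = ENNReal.ofReal C • (volume : Measure (EuclideanSpace ℝ (Fin 2))))
    {q : EuclideanSpace ℝ (Fin 2) → Prop} (h : ∀ᵐ ξ, q ξ) : ∀ᵐ p : ℝ × ℝ, q (τ p) := by
  have h4 : ∀ᵐ y ∂(Measure.map τ.toHomeomorph.toMeasurableEquiv (volume : Measure (ℝ × ℝ))),
      q y := by
    rw [hτ]
    exact Measure.ae_smul_measure h _
  exact (τ.toHomeomorph.toMeasurableEquiv.measurableEmbedding.ae_map_iff).mp h4

theorem wavelet_not_calderon (A : GL (Fin 2) ℝ)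
    (Γ : Submodule ℤ (EuclideanSpace ℝ (Fin 2))) [DiscreteTopology Γ]
    [IsZLattice ℝ Γ] (v : EuclideanSpace ℝ (Fin 2)) (hv : v ≠ 0)
    (hdual : ∀ γ ∈ Γ, ∃ q : ℤ, ⟪γ, v⟫_ℝ = q) (mu : ℝ)
    (hB : Matrix.toEuclideanLin (A : Matrix (Fin 2) (Fin 2) ℝ).transpose v = mu • v)
    (hmu1 : |mu| < 1) (hdet : 1 ≤ |(A : Matrix (Fin 2) (Fin 2) ℝ).det|)
    (ψ : Lp ℂ 2 (volume : Measure (EuclideanSpace ℝ (Fin 2)))) (h : IsOrthonormalWavelet A Γ ψ) :
    (∀ c : ℝ≥0∞, c ≠ 0 → ¬ CalderonAtLeast A ψ c) ∧ ¬ IsMSF ψ := by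
  obtain ⟨lam, hl, hmu, hl1, hdet', t, τ, C, hC, hτ, hBτ, hiff⟩ :=
    adapted_setup A Γ v hv hdual mu hB hmu1 hdet
  have hG := (hiff ψ).mp h
  have hCpos : 0 < C ^ (-(1 / 2) : ℝ) := Real.rpow_pos_of_pos hC _
  have hne : ‖((C ^ (-(1 / 2) : ℝ) : ℝ) : ℂ)‖ₑ ≠ 0 := by
    rw [enorm_ne_zero, Complex.ofReal_ne_zero]
    exact hCpos.ne'
  constructor
  · intro c hc H
    unfold CalderonAtLeast at H
    refine calderon_fails hl1 hmu hmu1 hdet' hG
      (c := ‖((C ^ (-(1 / 2) : ℝ) : ℝ) : ℂ)‖ₑ ^ 2 * c) (by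
        simp only [ne_eq, mul_eq_zero, not_or]
        exact ⟨by simpa using hne, hc⟩) ?_
    filter_upwards [ae_pull hτ H] with p hp
    rw [calderonSum_eq] at hp
    simp only [enorm_mul, mul_pow]
    rw [ENNReal.tsum_mul_left]
    gcongr
    refine hp.trans (le_of_eq ?_)
    congr 1
    ext j
    rw [conj_zpow hBτ, dg_zpow]
  · rintro ⟨W, c, hW⟩
    unfold FT at hW
    rcases le_or_gt c 0 with hc | hc
    · refine not_bounded_below hl1 hmu hmu1 hdet' hG one_ne_zero ?_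
      filter_upwards [ae_pull hτ hW] with p hp
      left
      have h0 : ‖(𝓕 ψ : Lp ℂ 2 (volume : Measure (EuclideanSpace ℝ (Fin 2)))) (τ p)‖ ≤ 0 := by
        rw [hp]
        by_cases hx : τ p ∈ W
        · rw [Set.indicator_of_mem hx]; exact hc
        · rw [Set.indicator_of_notMem hx]
      rw [norm_le_zero_iff.mp h0, mul_zero]
    · refine not_bounded_below hl1 hmu hmu1 hdet' hG
        (c := ‖((C ^ (-(1 / 2) : ℝ) : ℝ) : ℂ)‖ₑ * ENNReal.ofReal c) (by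
          simp only [ne_eq, mul_eq_zero, not_or]
          exact ⟨hne, by simpa using hc⟩) ?_
      filter_upwards [ae_pull hτ hW] with p hp
      by_cases hx : τ p ∈ W
      · right
        rw [Set.indicator_of_mem hx] at hp
        rw [enorm_mul, ← ofReal_norm ((𝓕 ψ : Lp ℂ 2 (volume : Measure (EuclideanSpace ℝ (Fin 2))))
          (τ p)), hp]
      · left
        rw [Set.indicator_of_notMem hx] at hp
        rw [norm_eq_zero.mp hp, mul_zero]

end Pool.Agent.Lib_helper44
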