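import Mathlib
import Pool.Agent.Lib_helper44.LowerGlobal
import Pool.Agent.Lib_helper44.NonMSFProof

open MeasureTheory Filter Topology Complex Module FourierTransform
open scoped ENNReal NNReal ComplexConjugate InnerProductSpace

set_option linter.unusedSectionVars false

namespace Pool.Agent.Lib_helper44

theorem wavelet_iff_fam {n : ℕ} (A : GL (Fin n) ℝ) (Γ : Submodule ℤ (EuclideanSpace ℝ (Fin n)))
    (γ : Basis (Fin n) ℝ (EuclideanSpace ℝ (Fin n))) (e : (Fin n → ℤ) ≃ Γ)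
    (he : ∀ k, (e k : EuclideanSpace ℝ (Fin n)) = kv γ k)
    (ψ : Lp ℂ 2 (volume : Measure (EuclideanSpace ℝ (Fin n)))) :
    IsOrthonormalWavelet A Γ ψ ↔ IsONB (volume : Measure (EuclideanSpace ℝ (Fin n)))
      (fam γ (glE (glT A)) (𝓕 ψ : Lp ℂ 2 (volume : Measure (EuclideanSpace ℝ (Fin n))))) := by
  classical
  rw [isOrthonormalWavelet_iff_ffam]
  constructor
  · intro h
    refine (h.reindex ((Equiv.refl ℤ).prodCongr e)).congr (fun i => ?_)
    have : ((((Equiv.refl ℤ).prodCongr e) i).2 : EuclideanSpace ℝ (Fin n)) = kv γ i.2 := he i.2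
    rw [this]
    rfl
  · intro h
    refine (h.reindex ((Equiv.refl ℤ).prodCongr e.symm)).congr (fun i => ?_)
    have h1 : (((Equiv.refl ℤ).prodCongr e.symm) i).2 = e.symm i.2 := rfl
    have h2 : kv γ (e.symm i.2) = (i.2 : EuclideanSpace ℝ (Fin n)) := by
      rw [← he, e.apply_symm_apply]
    unfold fam
    rw [h1, h2]
    rfl

theorem fam_congr {n : ℕ} {E : Type*} [NormedAddCommGroup E] [InnerProductSpace ℝ E]
    [FiniteDimensional ℝ E] [MeasurableSpace E] [BorelSpace E] {γ : Basis (Fin n) ℝ E}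
    {B : E ≃L[ℝ] E} {φ φ' : E → ℂ} (h : φ =ᵐ[volume] φ') (i : ℤ × (Fin n → ℤ)) :
    fam γ B φ i =ᵐ[volume] fam γ B φ' i := by
  filter_upwards [ae_comp_equiv (B ^ (-i.1)) h] with x hx
  rw [fam_apply, fam_apply, hx]

/-- uniform tails give a lower bound of the Calderon sum of the wavelet -/
theorem calderonAtLeast_of_tail {n : ℕ} (A : GL (Fin n) ℝ)
    (Γ : Submodule ℤ (EuclideanSpace ℝ (Fin n)))
    (γ : Basis (Fin n) ℝ (EuclideanSpace ℝ (Fin n))) (e : (Fin n → ℤ) ≃ Γ)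
    (he : ∀ k, (e k : EuclideanSpace ℝ (Fin n)) = kv γ k)
    (ψ : Lp ℂ 2 (volume : Measure (EuclideanSpace ℝ (Fin n)))) (h : IsOrthonormalWavelet A Γ ψ)
    (hTail : ∀ φ : EuclideanSpace ℝ (Fin n) → ℂ, Measurable φ →
      IsONB (volume : Measure (EuclideanSpace ℝ (Fin n))) (fam γ (glE (glT A)) φ) →
      TailOK γ (glE (glT A)) φ {j | j ≠ 0}) :
    CalderonAtLeast A ψ (volume (ZSpan.fundamentalDomain γ)) := by
  have h1 := (wavelet_iff_fam A Γ γ e he ψ).mp h
  set f : Lp ℂ 2 (volume : Measure (EuclideanSpace ℝ (Fin n))) := 𝓕 ψ with hf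
  set φ := (Lp.memLp f).1.mk f with hφ
  have hmeas : Measurable φ := (Lp.memLp f).1.stronglyMeasurable_mk.measurable
  have hae : f =ᵐ[volume] φ := (Lp.memLp f).1.ae_eq_mk
  have h2 : IsONB (volume : Measure (EuclideanSpace ℝ (Fin n))) (fam γ (glE (glT A)) φ) :=
    h1.congr (fun i => fam_congr hae i)
  have h3 := lower_calderon (isAdj_glE A) h2 hmeas (hTail φ hmeas h2)
  have h4 : ∀ᵐ x : EuclideanSpace ℝ (Fin n), ∀ j : ℤ,
      f ((glE (glT A) ^ j) x) = φ ((glE (glT A) ^ j) x) := by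
    rw [ae_all_iff]
    intro j
    exact ae_comp_equiv (glE (glT A) ^ j) hae
  unfold CalderonAtLeast
  filter_upwards [h3, h4] with x hx1 hx2
  rw [calderonSum_eq]
  refine hx1.trans (le_of_eq ?_)
  unfold calS
  simp only [← hx2]
  exact (Equiv.neg ℤ).tsum_eq (fun j : ℤ => ‖f ((glE (glT A) ^ j) x)‖ₑ ^ 2)

theorem volume_fundamentalDomain_ne_zero {n : ℕ}
    (γ : Basis (Fin n) ℝ (EuclideanSpace ℝ (Fin n))) :
    volume (ZSpan.fundamentalDomain γ) ≠ 0 :=
  ZSpan.measure_fundamentalDomain_ne_zero γ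

end Pool.Agent.Lib_helper44
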