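import Mathlib
import Pool.Agent.Lib_helper44.Adapt2
import Pool.Agent.Lib_helper44.WLower

open MeasureTheory Complex Module
open scoped ENNReal InnerProductSpace

set_option linter.unusedSectionVars false

namespace Pool.Agent.Lib_helper44

/-- adapted lattice bases as bases of the plane -/
theorem adapted_basis_ext (B : EuclideanSpace ℝ (Fin 2) ≃L[ℝ] EuclideanSpace ℝ (Fin 2))
    (Γ : Submodule ℤ (EuclideanSpace ℝ (Fin 2))) [DiscreteTopology Γ]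
    [IsZLattice ℝ Γ] (v0 : EuclideanSpace ℝ (Fin 2)) (hv0 : v0 ≠ 0)
    (hdual : ∀ γ ∈ Γ, ∃ q : ℤ, ⟪γ, v0⟫_ℝ = q) (mu : ℝ) (hB : B v0 = mu • v0) :
    ∃ (lam : ℝ) (γ : Basis (Fin 2) ℝ (EuclideanSpace ℝ (Fin 2))) (e : (Fin 2 → ℤ) ≃ Γ),
      ⟪γ 0, v0⟫_ℝ = 0 ∧ lam ≠ 0 ∧ mu ≠ 0 ∧ adet B = |lam * mu| ∧
      (∀ k, (e k : EuclideanSpace ℝ (Fin 2)) = kv γ k) ∧
      (∀ x, ⟪γ 0, B x⟫_ℝ = lam * ⟪γ 0, x⟫_ℝ) ∧
      (lam ≠ mu → ∃ t : ℝ, ∀ x, ⟪γ 1, B x⟫_ℝ - t * ⟪γ 0, B x⟫_ℝ =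
        mu * (⟪γ 1, x⟫_ℝ - t * ⟪γ 0, x⟫_ℝ)) := by
  obtain ⟨g, v, g1, g2, e, hg0, hgv, h1v, h2v, he, hz⟩ := exists_basis_adapted Γ v0 hv0 hdual
  obtain ⟨T, hT⟩ := exists_coord_equiv g1 g2 hz
  have hv : T v = (0, 1) := by rw [hT, h1v, h2v]
  have hBv : B v = mu • v := by
    rw [hgv, map_smul, smul_comm] at hB
    exact smul_right_injective _ hg0 hB
  set u := T.symm (1, 0) with hu
  have hTu : T u = (1, 0) := by rw [hu, T.apply_symm_apply]
  set lam := (T (B u)).1 with hlam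
  set bet := (T (B u)).2 with hbet
  have hBx : ∀ x, T (B x) = (lam * (T x).1 + 0 * (T x).2, bet * (T x).1 + mu * (T x).2) := by
    intro x
    have hx : x = (T x).1 • u + (T x).2 • v := by
      apply T.injective
      rw [map_add, map_smul, map_smul, hTu, hv]
      ext <;> simp
    conv_lhs => rw [hx]
    rw [map_add, map_smul, map_smul, hBv, map_add, map_smul, map_smul, map_smul, hv]
    ext
    · simp only [Prod.fst_add, Prod.smul_fst, smul_eq_mul]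
      rw [hlam]
      ring
    · simp only [Prod.snd_add, Prod.smul_snd, smul_eq_mul]
      rw [hbet]
      ring
  have hdet := exists_coord_equiv_det B T lam 0 bet mu hBx
  rw [zero_mul, sub_zero] at hdet
  have hpos := adet_pos B
  rw [hdet] at hpos
  have hne : lam * mu ≠ 0 := abs_pos.mp hpos
  -- the basis
  have hli : LinearIndependent ℝ ![g1, g2] := by
    rw [LinearIndependent.pair_iff]
    intro a b hab
    have h1 := congrArg (fun z => ⟪z, u⟫_ℝ) hab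
    have h2 := congrArg (fun z => ⟪z, v⟫_ℝ) hab
    simp only [inner_add_left, real_inner_smul_left, inner_zero_left] at h1 h2
    have h3 := hTu
    rw [hT, Prod.mk.injEq] at h3
    rw [h3.1, h3.2] at h1
    rw [h1v, h2v] at h2
    constructor
    · linarith
    · linarith
  let γ := basisOfLinearIndependentOfCardEqFinrank hli (by simp)
  have hγ0 : γ 0 = g1 := by simp [γ]
  have hγ1 : γ 1 = g2 := by simp [γ]
  let e2 : (Fin 2 → ℤ) ≃ (ℤ × ℤ) :=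
    { toFun := fun k => (k 0, k 1)
      invFun := fun p => ![p.1, p.2]
      left_inv := fun k => by
        ext i
        fin_cases i <;> rfl
      right_inv := fun p => rfl }
  refine ⟨lam, γ, e2.trans e, ?_, left_ne_zero_of_mul hne, right_ne_zero_of_mul hne, hdet, ?_, ?_, ?_⟩
  · rw [hγ0, hgv, real_inner_smul_right, h1v, mul_zero]
  · intro k
    have h1 := he (k 0, k 1)
    change ((e (k 0, k 1) : Γ) : EuclideanSpace ℝ (Fin 2)) = _
    rw [h1]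
    unfold kv
    rw [Fin.sum_univ_two, hγ0, hγ1]
  · intro x
    have h1 := hBx x
    rw [hT, hT, Prod.mk.injEq] at h1
    rw [hγ0, h1.1]
    ring
  · intro hlm
    have hlm' : lam - mu ≠ 0 := sub_ne_zero.mpr hlm
    refine ⟨bet / (lam - mu), fun x => ?_⟩
    have h1 := hBx x
    rw [hT, hT, Prod.mk.injEq] at h1
    rw [hγ0, hγ1, h1.1, h1.2]
    field_simp
    ring

/-- adapted lattice bases as bases of the plane -/
theorem adapted_basis (B : EuclideanSpace ℝ (Fin 2) ≃L[ℝ] EuclideanSpace ℝ (Fin 2))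
    (Γ : Submodule ℤ (EuclideanSpace ℝ (Fin 2))) [DiscreteTopology Γ]
    [IsZLattice ℝ Γ] (v0 : EuclideanSpace ℝ (Fin 2)) (hv0 : v0 ≠ 0)
    (hdual : ∀ γ ∈ Γ, ∃ q : ℤ, ⟪γ, v0⟫_ℝ = q) (mu : ℝ) (hB : B v0 = mu • v0) :
    ∃ (lam : ℝ) (γ : Basis (Fin 2) ℝ (EuclideanSpace ℝ (Fin 2))) (e : (Fin 2 → ℤ) ≃ Γ),
      lam ≠ 0 ∧ mu ≠ 0 ∧ adet B = |lam * mu| ∧
      (∀ k, (e k : EuclideanSpace ℝ (Fin 2)) = kv γ k) ∧
      (∀ x, ⟪γ 0, B x⟫_ℝ = lam * ⟪γ 0, x⟫_ℝ) ∧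
      (lam ≠ mu → ∃ t : ℝ, ∀ x, ⟪γ 1, B x⟫_ℝ - t * ⟪γ 0, B x⟫_ℝ =
        mu * (⟪γ 1, x⟫_ℝ - t * ⟪γ 0, x⟫_ℝ)) := by
  obtain ⟨lam, γ, e, -, h⟩ := adapted_basis_ext B Γ v0 hv0 hdual mu hB
  exact ⟨lam, γ, e, h⟩

theorem functional_zpow {E : Type*} [NormedAddCommGroup E] [InnerProductSpace ℝ E]
    {B : E ≃L[ℝ] E} {f : E → ℝ} {a : ℝ} (ha : a ≠ 0) (h : ∀ x, f (B x) = a * f x) (j : ℤ) (x : E) :
    f ((B ^ j) x) = a ^ j * f x := by
  have hpow : ∀ (n : ℕ) (x : E), f ((B ^ n) x) = a ^ n * f x := by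
    intro n
    induction n with
    | zero =>
      intro x
      simp only [pow_zero, one_mul]
      rfl
    | succ n ih =>
      intro x
      rw [pow_succ]
      change f ((B ^ n) (B x)) = _
      rw [ih, h]
      ring
  cases j with
  | ofNat n => simpa using hpow n x
  | negSucc n =>
    simp only [zpow_negSucc]
    have h1 := hpow (n + 1) (((B ^ (n + 1))⁻¹) x)
    have h2 : (B ^ (n + 1)) (((B ^ (n + 1))⁻¹) x) = x := (B ^ (n + 1)).apply_symm_apply x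
    rw [h2] at h1
    rw [h1, ← mul_assoc, inv_mul_cancel₀ (pow_ne_zero _ ha), one_mul]

end Pool.Agent.Lib_helper44
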