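import Mathlib
import Pool.Agent.Lib_helper44.Mach

open MeasureTheory Filter Topology Complex Module
open scoped ENNReal NNReal ComplexConjugate InnerProductSpace

set_option linter.unusedSectionVars false

namespace Pool.Agent.Lib_helper44

variable {E : Type*} [NormedAddCommGroup E] [InnerProductSpace ℝ E] [FiniteDimensional ℝ E]

/-- trigonometric polynomials with frequencies in `E` -/
abbrev TP (E : Type*) [NormedAddCommGroup E] := AddMonoidAlgebra ℂ E

/-- the character attached to a point -/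
noncomputable def chrE (x : E) : Multiplicative E →* ℂ where
  toFun h := ee (⟪x, Multiplicative.toAdd h⟫_ℝ)
  map_one' := by simp [ee_zero]
  map_mul' := by intro a b; rw [toAdd_mul, inner_add_right, ee_add]

/-- evaluation -/
noncomputable def ev (x : E) : TP E →ₐ[ℂ] ℂ := AddMonoidAlgebra.lift ℂ ℂ E (chrE x)

theorem ev_single (x h : E) (c : ℂ) : ev x (AddMonoidAlgebra.single h c) = c * ee (⟪x, h⟫_ℝ) := by
  unfold ev
  rw [AddMonoidAlgebra.lift_single]
  rfl

/-- the mean -/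
noncomputable def mn (P : TP E) : ℂ := P.coeff 0

theorem mn_add (P Q : TP E) : mn (P + Q) = mn P + mn Q := by
  unfold mn
  rw [AddMonoidAlgebra.coeff_add, Finsupp.add_apply]

theorem mn_zero : mn (0 : TP E) = 0 := rfl

theorem mn_sum {ι : Type*} (s : Finset ι) (f : ι → TP E) : mn (∑ i ∈ s, f i) = ∑ i ∈ s, mn (f i) := by
  unfold mn
  rw [AddMonoidAlgebra.coeff_sum, Finsupp.finsetSum_apply]

theorem mn_single [DecidableEq E] (h : E) (c : ℂ) :
    mn (AddMonoidAlgebra.single h c) = if h = 0 then c else 0 := by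
  unfold mn
  rw [AddMonoidAlgebra.coeff_single, Finsupp.single_apply]

open Classical in
/-- restriction of the spectrum -/
noncomputable def EH (H : AddSubgroup E) (P : TP E) : TP E :=
  AddMonoidAlgebra.ofCoeff (P.coeff.filter (fun h => h ∈ H))

open Classical in
theorem EH_add (H : AddSubgroup E) (P Q : TP E) : EH H (P + Q) = EH H P + EH H Q := by
  unfold EH
  rw [AddMonoidAlgebra.coeff_add, Finsupp.filter_add, AddMonoidAlgebra.ofCoeff_add]

open Classical in
theorem EH_zero (H : AddSubgroup E) : EH H (0 : TP E) = 0 := by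
  unfold EH
  rw [AddMonoidAlgebra.coeff_zero, Finsupp.filter_zero, AddMonoidAlgebra.ofCoeff_zero]

open Classical in
theorem EH_single_of_mem {H : AddSubgroup E} {h : E} (hh : h ∈ H) (c : ℂ) :
    EH H (AddMonoidAlgebra.single h c) = AddMonoidAlgebra.single h c := by
  unfold EH
  rw [AddMonoidAlgebra.coeff_single, Finsupp.filter_single_of_pos _ hh,
    AddMonoidAlgebra.ofCoeff_single]

open Classical in
theorem EH_single_of_notMem {H : AddSubgroup E} {h : E} (hh : h ∉ H) (c : ℂ) :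
    EH H (AddMonoidAlgebra.single h c) = 0 := by
  unfold EH
  rw [AddMonoidAlgebra.coeff_single, Finsupp.filter_single_of_neg _ hh,
    AddMonoidAlgebra.ofCoeff_zero]

open Classical in
theorem mn_EH (H : AddSubgroup E) (P : TP E) : mn (EH H P) = mn P := by
  unfold mn EH
  exact Finsupp.filter_apply_pos _ _ (H.zero_mem)

/-- generic vectors -/
theorem exists_generic (F : Finset E) (hF : ∀ l ∈ F, l ≠ 0) :
    ∃ u : E, ∀ l ∈ F, ee (⟪u, l⟫_ℝ) ≠ 1 := by
  classical
  obtain ⟨f, hf⟩ := Module.exists_dual_forall_apply_ne_zero (K := ℝ) (fun i : F => (i : E))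
    (fun i => hF i i.2)
  set v : E := (InnerProductSpace.toDual ℝ E).symm (LinearMap.toContinuousLinearMap f) with hv
  have hvf : ∀ x, ⟪v, x⟫_ℝ = f x := by
    intro x
    rw [hv, InnerProductSpace.toDual_symm_apply]
    rfl
  set M : ℝ := ∑ l ∈ F, |f l| + 1 with hM
  have hMpos : 0 < M := by positivity
  refine ⟨M⁻¹ • v, fun l hl => ?_⟩
  rw [real_inner_smul_left, hvf]
  have h0 : f l ≠ 0 := hf ⟨l, hl⟩
  have h1 : |f l| < M := by
    have := Finset.single_le_sum (f := fun l => |f l|) (fun i _ => abs_nonneg _) hl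
    have h2 : |f l| ≤ ∑ l ∈ F, |f l| := this
    linarith
  intro hcon
  rw [ee_eq, Complex.exp_eq_one_iff] at hcon
  obtain ⟨k, hk⟩ := hcon
  have hpi : (2 * Real.pi * Complex.I : ℂ) ≠ 0 := by
    simp [Real.pi_ne_zero]
  have h3 : ((M⁻¹ * f l : ℝ) : ℂ) = (k : ℂ) := by
    apply mul_right_cancel₀ hpi
    rw [← hk]
    ring
  have h4 : M⁻¹ * f l = (k : ℝ) := by exact_mod_cast h3
  have h5 : |M⁻¹ * f l| < 1 := by
    rw [abs_mul, abs_of_pos (inv_pos.mpr hMpos), inv_mul_lt_iff₀ hMpos, mul_one]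
    exact h1
  rw [h4] at h5
  have h6 : k = 0 := by
    have : |k| < 1 := by exact_mod_cast h5
    exact Int.abs_lt_one_iff.mp this
  rw [h6, Int.cast_zero] at h4
  rcases mul_eq_zero.mp h4 with h7 | h7
  · exact (inv_pos.mpr hMpos).ne' h7
  · exact h0 h7

theorem ev_eq_sum (x : E) (P : TP E) :
    ev x P = ∑ h ∈ P.coeff.support, P.coeff h * ee (⟪x, h⟫_ℝ) := by
  unfold ev
  rw [AddMonoidAlgebra.lift_apply]
  rfl

/-- the averages of a trigonometric polynomial along a generic sequence tend to the mean -/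
theorem tendsto_avg (P : TP E) : ∃ u : E,
    Tendsto (fun N : ℕ => (N : ℂ)⁻¹ * ∑ k ∈ Finset.range N, ev ((k : ℝ) • u) P) atTop
      (𝓝 (mn P)) := by
  classical
  obtain ⟨u, hu⟩ := exists_generic (P.coeff.support.erase 0) (fun l hl => Finset.ne_of_mem_erase hl)
  refine ⟨u, ?_⟩
  have hgeo : ∀ h : E, ee (⟪u, h⟫_ℝ) ≠ 1 → Tendsto (fun N : ℕ => (N : ℂ)⁻¹ *
      ∑ k ∈ Finset.range N, ee (⟪(k : ℝ) • u, h⟫_ℝ)) atTop (𝓝 0) := by
    intro h hh
    have h1 : ∀ k : ℕ, ee (⟪(k : ℝ) • u, h⟫_ℝ) = ee (⟪u, h⟫_ℝ) ^ k := by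
      intro k
      rw [real_inner_smul_left]
      induction k with
      | zero => simp [ee_zero]
      | succ k ih =>
        rw [pow_succ, ← ih, ← ee_add]
        congr 1
        push_cast
        ring
    simp only [h1, geom_sum_eq hh]
    have h2 : Tendsto (fun N : ℕ => (N : ℝ)⁻¹ * (2 / ‖ee (⟪u, h⟫_ℝ) - 1‖)) atTop (𝓝 0) := by
      have := (tendsto_inv_atTop_nhds_zero_nat (𝕜 := ℝ)).mul_const (2 / ‖ee (⟪u, h⟫_ℝ) - 1‖)
      rwa [zero_mul] at this
    apply squeeze_zero_norm _ h2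
    intro N
    rw [norm_mul, norm_inv, Complex.norm_natCast, norm_div]
    gcongr
    calc ‖ee (⟪u, h⟫_ℝ) ^ N - 1‖ ≤ ‖ee (⟪u, h⟫_ℝ) ^ N‖ + ‖(1 : ℂ)‖ := norm_sub_le _ _
      _ = 2 := by rw [norm_pow, norm_ee, one_pow, norm_one]; norm_num
  have hterm : ∀ h ∈ P.coeff.support, Tendsto (fun N : ℕ => (N : ℂ)⁻¹ *
      ∑ k ∈ Finset.range N, P.coeff h * ee (⟪(k : ℝ) • u, h⟫_ℝ)) atTop
      (𝓝 (if h = 0 then P.coeff 0 else 0)) := by
    intro h hh
    by_cases h0 : h = 0
    · rw [if_pos h0]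
      subst h0
      have : (fun N : ℕ => (N : ℂ)⁻¹ * ∑ k ∈ Finset.range N, P.coeff (0 : E) *
          ee (⟪(k : ℝ) • u, (0 : E)⟫_ℝ)) =ᶠ[atTop] fun _ => P.coeff 0 := by
        filter_upwards [eventually_gt_atTop 0] with N hN
        simp only [inner_zero_right, ee_zero, mul_one, Finset.sum_const, Finset.card_range,
          nsmul_eq_mul]
        rw [← mul_assoc, inv_mul_cancel₀ (by exact_mod_cast hN.ne'), one_mul]
      exact tendsto_const_nhds.congr' this.symm
    · rw [if_neg h0]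
      have h1 := (hgeo h (hu h (Finset.mem_erase.mpr ⟨h0, hh⟩))).const_mul (P.coeff h)
      rw [mul_zero] at h1
      refine h1.congr (fun N => ?_)
      rw [← Finset.mul_sum]
      ring
  have h2 := tendsto_finsetSum P.coeff.support (fun h hh => hterm h hh)
  have h3 : (fun N : ℕ => (N : ℂ)⁻¹ * ∑ k ∈ Finset.range N, ev ((k : ℝ) • u) P)
      = fun N : ℕ => ∑ h ∈ P.coeff.support, (N : ℂ)⁻¹ *
        ∑ k ∈ Finset.range N, P.coeff h * ee (⟪(k : ℝ) • u, h⟫_ℝ) := by
    ext N
    rw [← Finset.mul_sum, Finset.sum_comm]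
    simp only [ev_eq_sum]
  rw [h3]
  have h4 : mn P = ∑ h ∈ P.coeff.support, (if h = 0 then P.coeff 0 else 0) := by
    rw [Finset.sum_ite_eq']
    unfold mn
    by_cases h0 : (0 : E) ∈ P.coeff.support
    · rw [if_pos h0]
    · rw [if_neg h0]
      exact Finsupp.notMem_support_iff.mp h0
  rw [h4]
  exact h2

theorem mn_re_nonneg {P : TP E} (h : ∀ x, 0 ≤ (ev x P).re) : 0 ≤ (mn P).re := by
  obtain ⟨u, hu⟩ := tendsto_avg P
  have h1 : Tendsto (fun N : ℕ => ((N : ℂ)⁻¹ * ∑ k ∈ Finset.range N, ev ((k : ℝ) • u) P).re) atTop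
      (𝓝 (mn P).re) := (Complex.continuous_re.tendsto _).comp hu
  apply ge_of_tendsto' h1
  intro N
  have h2 : ((N : ℂ)⁻¹ * ∑ k ∈ Finset.range N, ev ((k : ℝ) • u) P).re
      = (N : ℝ)⁻¹ * ∑ k ∈ Finset.range N, (ev ((k : ℝ) • u) P).re := by
    rw [← Complex.re_sum, ← Complex.re_ofReal_mul]
    push_cast
    rfl
  rw [h2]
  exact mul_nonneg (by positivity) (Finset.sum_nonneg fun k _ => h _)

/-- Folner sets for finitely many elements of a subgroup -/
theorem exists_folner (H : AddSubgroup E) [DecidableEq E] (l : List E) (hl : ∀ h ∈ l, h ∈ H)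
    {δ : ℝ} (hδ : 0 < δ) : ∃ Q : Finset E, Q.Nonempty ∧ (∀ a ∈ Q, a ∈ H) ∧
      ∀ h ∈ l, (1 - δ) * (Q.card : ℝ) ≤ ((Q.filter (fun b => b + h ∈ Q)).card : ℝ) := by
  classical
  -- the boxes
  set r := l.length with hr
  let S : (Fin r → ℕ) → E := fun k => ∑ i, (k i : ℤ) • l.get i
  let box : ℕ → Finset (Fin r → ℕ) := fun N => Fintype.piFinset (fun _ => Finset.range N)
  let Q : ℕ → Finset E := fun N => (box N).image S
  have hQH : ∀ N, ∀ a ∈ Q N, a ∈ H := by
    intro N a ha
    obtain ⟨k, -, rfl⟩ := Finset.mem_image.mp ha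
    exact H.sum_mem fun i _ => H.zsmul_mem (hl _ (List.get_mem l i)) _
  have hQcard : ∀ N, (Q N).card ≤ N ^ r := by
    intro N
    refine Finset.card_image_le.trans (le_of_eq ?_)
    simp [box]
  have hQne : ∀ N, 0 < N → (Q N).Nonempty := by
    intro N hN
    apply Finset.Nonempty.image
    exact ⟨fun _ => 0, by simp [box, hN]⟩
  have hQmono : ∀ N, Q N ⊆ Q (N + 1) := by
    intro N
    apply Finset.image_subset_image
    intro k hk
    simp only [box, Fintype.mem_piFinset, Finset.mem_range] at hk ⊢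
    intro i
    exact (hk i).trans (Nat.lt_succ_self N)
  have hQshift : ∀ N, ∀ h ∈ l, ∀ a ∈ Q N, a + h ∈ Q (N + 1) := by
    intro N h hh a ha
    obtain ⟨k, hk, rfl⟩ := Finset.mem_image.mp ha
    obtain ⟨i, hi⟩ := List.get_of_mem hh
    refine Finset.mem_image.mpr ⟨k + Pi.single i 1, ?_, ?_⟩
    · simp only [box, Fintype.mem_piFinset, Finset.mem_range] at hk ⊢
      intro i'
      have h1 : (Pi.single i 1 : Fin r → ℕ) i' ≤ 1 := by
        by_cases h2 : i' = i
        · subst h2; simp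
        · simp [h2]
      have := hk i'
      simp only [Pi.add_apply]
      omega
    · simp only [S, Pi.add_apply]
      push_cast
      simp only [add_smul, Finset.sum_add_distrib]
      congr 1
      rw [Finset.sum_eq_single i]
      · rw [Pi.single_eq_same, ← hi]
        simp
      · intro b _ hb
        rw [Pi.single_eq_of_ne hb]
        simp
      · intro hcon
        exact absurd (Finset.mem_univ i) hcon
  -- suppose the contrary
  by_contra hcon
  push Not at hcon
  have hgrow : ∀ N, 0 < N → (1 + δ) * ((Q N).card : ℝ) ≤ ((Q (N + 1)).card : ℝ) := by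
    intro N hN
    obtain ⟨h, hh, hlt⟩ := hcon (Q N) (hQne N hN) (hQH N)
    have h1 : (Q N) ∪ (Q N).image (fun b => b + h) ⊆ Q (N + 1) := by
      intro a ha
      rcases Finset.mem_union.mp ha with ha | ha
      · exact hQmono N ha
      · obtain ⟨b, hb, rfl⟩ := Finset.mem_image.mp ha
        exact hQshift N h hh b hb
    have h2 := Finset.card_le_card h1
    have h3 : ((Q N).image (fun b => b + h)).card = (Q N).card :=
      Finset.card_image_of_injective _ (add_left_injective h)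
    have h4 := Finset.card_union_add_card_inter (Q N) ((Q N).image (fun b => b + h))
    have h5 : ((Q N) ∩ (Q N).image (fun b => b + h)).card
        = ((Q N).filter (fun b => b + h ∈ Q N)).card := by
      rw [← Finset.card_image_of_injective ((Q N).filter (fun b => b + h ∈ Q N))
        (add_left_injective h)]
      congr 1
      ext a
      simp only [Finset.mem_inter, Finset.mem_image, Finset.mem_filter]
      constructor
      · rintro ⟨ha, b, hb, rfl⟩
        exact ⟨b, ⟨hb, ha⟩, rfl⟩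
      · rintro ⟨b, ⟨hb, hbh⟩, rfl⟩
        exact ⟨hbh, b, hb, rfl⟩
    rw [h3, h5] at h4
    have h6 : ((Q N ∪ (Q N).image (fun b => b + h)).card : ℝ)
        + (((Q N).filter (fun b => b + h ∈ Q N)).card : ℝ) = (Q N).card + (Q N).card := by
      exact_mod_cast h4
    have h7 : ((Q N ∪ (Q N).image (fun b => b + h)).card : ℝ) ≤ (Q (N + 1)).card := by
      exact_mod_cast h2
    nlinarith
  have hexp : ∀ N, (1 + δ) ^ N ≤ ((Q (N + 1)).card : ℝ) := by
    intro N
    induction N with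
    | zero =>
      rw [pow_zero]
      have := (hQne 1 one_pos).card_pos
      exact_mod_cast this
    | succ N ih =>
      calc (1 + δ) ^ (N + 1) = (1 + δ) * (1 + δ) ^ N := by ring
        _ ≤ (1 + δ) * ((Q (N + 1)).card : ℝ) := by gcongr
        _ ≤ _ := hgrow (N + 1) N.succ_pos
  have hpoly : ∀ N : ℕ, (1 + δ) ^ N ≤ ((N : ℝ) + 1) ^ r := by
    intro N
    refine (hexp N).trans ?_
    have := hQcard (N + 1)
    calc ((Q (N + 1)).card : ℝ) ≤ (((N + 1) ^ r : ℕ) : ℝ) := by exact_mod_cast this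
      _ = _ := by push_cast; rfl
  -- contradiction with polynomial growth
  have hlim : Tendsto (fun N : ℕ => ((N : ℝ) + 1) ^ r / (1 + δ) ^ (N + 1)) atTop (𝓝 0) := by
    have h1 := tendsto_pow_const_div_const_pow_of_one_lt r (show (1 : ℝ) < 1 + δ by linarith)
    have h2 := h1.comp (tendsto_add_atTop_nat 1)
    refine h2.congr (fun N => ?_)
    simp only [Function.comp]
    push_cast
    rfl
  have hlim2 : Tendsto (fun N : ℕ => (1 + δ) * (((N : ℝ) + 1) ^ r / (1 + δ) ^ (N + 1))) atTop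
      (𝓝 ((1 + δ) * 0)) := hlim.const_mul _
  rw [mul_zero] at hlim2
  have hge : ∀ N : ℕ, (1 : ℝ) ≤ (1 + δ) * (((N : ℝ) + 1) ^ r / (1 + δ) ^ (N + 1)) := by
    intro N
    have h1 : (0 : ℝ) < (1 + δ) ^ N := by positivity
    have h2 : (1 + δ) * (((N : ℝ) + 1) ^ r / (1 + δ) ^ (N + 1)) = ((N : ℝ) + 1) ^ r / (1 + δ) ^ N := by
      rw [pow_succ]
      field_simp
    rw [h2, le_div_iff₀ h1, one_mul]
    exact hpoly N
  have := ge_of_tendsto' hlim2 hge
  linarith

/-- the weights -/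
noncomputable def wt (Q : Finset E) (x₀ : E) : TP E :=
  ∑ a ∈ Q, ∑ b ∈ Q, AddMonoidAlgebra.single (a - b) (((Q.card : ℂ)⁻¹) * ee (-⟪x₀, a - b⟫_ℝ))

theorem ev_wt (Q : Finset E) (x₀ x : E) :
    ev x (wt Q x₀) = (((Q.card : ℝ)⁻¹ * ‖∑ a ∈ Q, ee (⟪x - x₀, a⟫_ℝ)‖ ^ 2 : ℝ) : ℂ) := by
  unfold wt
  simp only [map_sum, ev_single]
  have h1 : ((‖∑ a ∈ Q, ee (⟪x - x₀, a⟫_ℝ)‖ ^ 2 : ℝ) : ℂ)
      = ∑ a ∈ Q, ∑ b ∈ Q, ee (⟪x - x₀, a - b⟫_ℝ) := by
    rw [Complex.ofReal_pow, ← Complex.mul_conj', map_sum, Finset.sum_mul_sum]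
    apply Finset.sum_congr rfl
    intro a _
    apply Finset.sum_congr rfl
    intro b _
    rw [conj_ee, ← ee_add, inner_sub_right]
    rfl
  rw [Complex.ofReal_mul, h1, Finset.mul_sum]
  apply Finset.sum_congr rfl
  intro a _
  rw [Finset.mul_sum]
  apply Finset.sum_congr rfl
  intro b _
  rw [mul_assoc, ← ee_add, inner_sub_left]
  push_cast
  congr 2
  ring

theorem ev_wt_re (Q : Finset E) (x₀ x : E) : 0 ≤ (ev x (wt Q x₀)).re := by
  rw [ev_wt, Complex.ofReal_re]
  positivity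

theorem ev_wt_im (Q : Finset E) (x₀ x : E) : (ev x (wt Q x₀)).im = 0 := by
  rw [ev_wt, Complex.ofReal_im]

theorem mn_single_mul_wt [DecidableEq E] (Q : Finset E) (x₀ h : E) (c : ℂ) :
    mn (AddMonoidAlgebra.single h c * wt Q x₀)
      = c * ee (⟪x₀, h⟫_ℝ) * ((Q.filter (fun b => b + h ∈ Q)).card * (Q.card : ℂ)⁻¹) := by
  unfold wt
  simp only [Finset.mul_sum, AddMonoidAlgebra.single_mul_single, mn_sum, mn_single]
  have h1 : ∀ a ∈ Q, (∑ b ∈ Q, if h + (a - b) = 0 then c * ((Q.card : ℂ)⁻¹ *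
      ee (-⟪x₀, a - b⟫_ℝ)) else 0)
      = if a + h ∈ Q then c * ee (⟪x₀, h⟫_ℝ) * (Q.card : ℂ)⁻¹ else 0 := by
    intro a _
    by_cases hah : a + h ∈ Q
    · rw [if_pos hah, Finset.sum_eq_single (a + h)]
      · rw [if_pos (by abel)]
        have : -⟪x₀, a - (a + h)⟫_ℝ = ⟪x₀, h⟫_ℝ := by
          rw [← inner_neg_right]
          congr 1
          abel
        rw [this]
        ring
      · intro b _ hb
        rw [if_neg]
        intro hcon
        apply hb
        have : b = a + h := by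
          have h2 : h + (a - b) + b = 0 + b := by rw [hcon]
          rw [zero_add] at h2
          rw [← h2]
          abel
        exact this
      · intro hcon
        exact absurd hah hcon
    · rw [if_neg hah]
      apply Finset.sum_eq_zero
      intro b hb
      rw [if_neg]
      intro hcon
      apply hah
      have : b = a + h := by
        have h2 : h + (a - b) + b = 0 + b := by rw [hcon]
        rw [zero_add] at h2
        rw [← h2]
        abel
      rwa [← this]
  rw [Finset.sum_congr rfl h1, ← Finset.sum_filter, Finset.sum_const, nsmul_eq_mul]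
  ring

theorem mn_mul_wt_sub (H : AddSubgroup E) (P : TP E) (x₀ : E) {δ : ℝ} (hδ : 0 < δ) :
    ∃ Q : Finset E, Q.Nonempty ∧ (∀ a ∈ Q, a ∈ H) ∧
      ‖mn (P * wt Q x₀) - ev x₀ (EH H P)‖ ≤ δ * ∑ h ∈ P.coeff.support, ‖P.coeff h‖ := by
  classical
  obtain ⟨Q, hQne, hQH, hQ⟩ := exists_folner H (P.coeff.support.filter (fun h => h ∈ H)).toList
    (fun h hh => by
      rw [Finset.mem_toList, Finset.mem_filter] at hh
      exact hh.2) hδ
  refine ⟨Q, hQne, hQH, ?_⟩
  have hP : P = ∑ h ∈ P.coeff.support, AddMonoidAlgebra.single h (P.coeff h) :=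
    (AddMonoidAlgebra.sum_coeff_single P).symm
  have hEHsum : ∀ (s : Finset E) (f : E → TP E), EH H (∑ h ∈ s, f h) = ∑ h ∈ s, EH H (f h) := by
    intro s f
    induction s using Finset.induction_on with
    | empty => simp [EH_zero]
    | insert a s ha ih => rw [Finset.sum_insert ha, Finset.sum_insert ha, EH_add, ih]
  have h1 : mn (P * wt Q x₀) - ev x₀ (EH H P) = ∑ h ∈ P.coeff.support,
      (mn (AddMonoidAlgebra.single h (P.coeff h) * wt Q x₀)
        - ev x₀ (EH H (AddMonoidAlgebra.single h (P.coeff h)))) := by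
    conv_lhs => rw [hP]
    rw [Finset.sum_mul, mn_sum, hEHsum, map_sum, Finset.sum_sub_distrib]
  rw [h1, Finset.mul_sum]
  refine (norm_sum_le _ _).trans (Finset.sum_le_sum fun h hh => ?_)
  rw [mn_single_mul_wt]
  have hQpos : (0 : ℝ) < Q.card := by exact_mod_cast hQne.card_pos
  by_cases hhH : h ∈ H
  · rw [EH_single_of_mem hhH, ev_single]
    have h2 := hQ h (by rw [Finset.mem_toList, Finset.mem_filter]; exact ⟨hh, hhH⟩)
    set N : ℝ := ((Q.filter (fun b => b + h ∈ Q)).card : ℝ) with hN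
    have hNle : N ≤ Q.card := by
      rw [hN]
      exact_mod_cast Finset.card_filter_le _ _
    have h3 : P.coeff h * ee (⟪x₀, h⟫_ℝ) * (((Q.filter (fun b => b + h ∈ Q)).card : ℂ) *
        (Q.card : ℂ)⁻¹) - P.coeff h * ee (⟪x₀, h⟫_ℝ)
        = P.coeff h * ee (⟪x₀, h⟫_ℝ) * ((N * (Q.card : ℝ)⁻¹ - 1 : ℝ) : ℂ) := by
      rw [hN]
      push_cast
      ring
    rw [h3, norm_mul, norm_mul, norm_ee, mul_one, Complex.norm_real, mul_comm]
    apply mul_le_mul_of_nonneg_right _ (norm_nonneg _)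
    rw [Real.norm_eq_abs, abs_le]
    constructor
    · have : (1 - δ) ≤ N * (Q.card : ℝ)⁻¹ := by
        rw [le_mul_inv_iff₀ hQpos]
        exact h2
      linarith
    · have : N * (Q.card : ℝ)⁻¹ ≤ 1 := by
        rw [mul_inv_le_iff₀ hQpos, one_mul]
        exact hNle
      linarith
  · rw [EH_single_of_notMem hhH, map_zero, sub_zero]
    have h2 : (Q.filter (fun b => b + h ∈ Q)) = ∅ := by
      rw [Finset.filter_eq_empty_iff]
      intro b hb hbh
      apply hhH
      have := H.sub_mem (hQH _ hbh) (hQH _ hb)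
      rwa [add_sub_cancel_left] at this
    rw [h2, Finset.card_empty, Nat.cast_zero, zero_mul, mul_zero, norm_zero]
    positivity

theorem ev_EH_re_nonneg (H : AddSubgroup E) (P : TP E) (x₀ : E)
    (h : ∀ Q : Finset E, Q.Nonempty → (∀ a ∈ Q, a ∈ H) → 0 ≤ (mn (P * wt Q x₀)).re) :
    0 ≤ (ev x₀ (EH H P)).re := by
  by_contra hcon
  push Not at hcon
  set S : ℝ := ∑ h ∈ P.coeff.support, ‖P.coeff h‖ with hS
  have hS0 : 0 ≤ S := Finset.sum_nonneg fun _ _ => norm_nonneg _
  set η : ℝ := -(ev x₀ (EH H P)).re with hη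
  have hη0 : 0 < η := by linarith
  obtain ⟨Q, hQne, hQH, hQ⟩ := mn_mul_wt_sub H P x₀ (δ := η / (2 * (S + 1))) (by positivity)
  have h1 := h Q hQne hQH
  have h2 : (mn (P * wt Q x₀)).re - (ev x₀ (EH H P)).re ≤ η / (2 * (S + 1)) * S := by
    rw [← Complex.sub_re]
    exact (Complex.re_le_norm _).trans hQ
  have h3 : η / (2 * (S + 1)) * S ≤ η / 2 := by
    rw [div_mul_eq_mul_div, div_le_div_iff₀ (by positivity) (by norm_num)]
    nlinarith
  linarith

theorem mn_re_nonneg_of_wt (H : AddSubgroup E) (P : TP E)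
    (h : ∀ x₀ : E, 0 ≤ (ev x₀ (EH H P)).re) : 0 ≤ (mn P).re := by
  rw [← mn_EH H P]
  exact mn_re_nonneg h

end Pool.Agent.Lib_helper44
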