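import Mathlib
import Pool.Agent.Lib_helper44.TrigP

open MeasureTheory Filter Topology Complex Module
open scoped ENNReal NNReal ComplexConjugate InnerProductSpace

set_option linter.unusedSectionVars false

namespace Pool.Agent.Lib_helper44

variable {E : Type*} [NormedAddCommGroup E] [InnerProductSpace ℝ E] [FiniteDimensional ℝ E]

/-- nonnegative trigonometric polynomials -/
def NN (P : TP E) : Prop := ∀ x, (ev x P).im = 0 ∧ 0 ≤ (ev x P).re

theorem NN.add {P Q : TP E} (hP : NN P) (hQ : NN Q) : NN (P + Q) := by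
  intro x
  rw [map_add]
  exact ⟨by rw [Complex.add_im, (hP x).1, (hQ x).1, add_zero],
    by rw [Complex.add_re]; exact add_nonneg (hP x).2 (hQ x).2⟩

theorem NN.mul {P Q : TP E} (hP : NN P) (hQ : NN Q) : NN (P * Q) := by
  intro x
  rw [map_mul]
  constructor
  · rw [Complex.mul_im, (hP x).1, (hQ x).1, mul_zero, zero_mul, add_zero]
  · rw [Complex.mul_re, (hP x).1, zero_mul, sub_zero]
    exact mul_nonneg (hP x).2 (hQ x).2

/-- constants -/
noncomputable def cst (c : ℝ) : TP E := AddMonoidAlgebra.single 0 (c : ℂ)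

theorem ev_cst (x : E) (c : ℝ) : ev x (cst c) = c := by
  unfold cst
  rw [ev_single, inner_zero_right, ee_zero, mul_one]

theorem mn_cst (c : ℝ) : mn (cst c : TP E) = c := by
  classical
  unfold cst
  rw [mn_single, if_pos rfl]

theorem NN_cst {c : ℝ} (hc : 0 ≤ c) : NN (cst c : TP E) := by
  intro x
  rw [ev_cst]
  exact ⟨Complex.ofReal_im c, by rw [Complex.ofReal_re]; exact hc⟩

theorem NN_zero : NN (0 : TP E) := by
  intro x
  rw [map_zero]
  simp

theorem NN.sum {ι : Type*} (s : Finset ι) {f : ι → TP E} (h : ∀ i ∈ s, NN (f i)) :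
    NN (∑ i ∈ s, f i) := by
  classical
  induction s using Finset.induction_on with
  | empty => simpa using NN_zero
  | insert a s ha ih =>
    rw [Finset.sum_insert ha]
    exact (h a (Finset.mem_insert_self _ _)).add
      (ih fun i hi => h i (Finset.mem_insert_of_mem hi))

theorem NN_wt (Q : Finset E) (x₀ : E) : NN (wt Q x₀) := fun x => ⟨ev_wt_im Q x₀ x, ev_wt_re Q x₀ x⟩

theorem NN.mn_nonneg {P : TP E} (h : NN P) : 0 ≤ (mn P).re := mn_re_nonneg fun x => (h x).2

theorem mn_sub (P Q : TP E) : mn (P - Q) = mn P - mn Q := by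
  have h : P = (P - Q) + Q := by abel
  conv_rhs => rw [h, mn_add]
  ring

theorem NN.mn_le {P Q : TP E} (h : NN (Q - P)) : (mn P).re ≤ (mn Q).re := by
  have := h.mn_nonneg
  rw [mn_sub, Complex.sub_re] at this
  linarith

theorem mn_wt {Q : Finset E} (hQ : Q.Nonempty) (x₀ : E) : mn (wt Q x₀) = 1 := by
  classical
  have h := mn_single_mul_wt Q x₀ 0 1
  rw [inner_zero_right, ee_zero] at h
  have h1 : (AddMonoidAlgebra.single (0 : E) (1 : ℂ)) = 1 := rfl
  rw [h1, one_mul] at h
  rw [h]
  have h2 : (Q.filter (fun b => b + 0 ∈ Q)) = Q := by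
    rw [Finset.filter_eq_self]
    intro b hb
    rwa [add_zero]
  rw [h2, one_mul, one_mul, mul_inv_cancel₀]
  exact_mod_cast hQ.card_pos.ne'

/-- the norm bound -/
noncomputable def nb (P : TP E) : ℝ := ∑ h ∈ P.coeff.support, ‖P.coeff h‖

theorem nb_nonneg (P : TP E) : 0 ≤ nb P := Finset.sum_nonneg fun _ _ => norm_nonneg _

theorem ev_le_nb (P : TP E) (x : E) : (ev x P).re ≤ nb P := by
  refine (Complex.re_le_norm _).trans ?_
  rw [ev_eq_sum]
  refine (norm_sum_le _ _).trans (le_of_eq ?_)
  unfold nb
  apply Finset.sum_congr rfl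
  intro h _
  rw [norm_mul, norm_ee, mul_one]

theorem NN_nb_sub {P : TP E} (hP : NN P) : NN (cst (nb P) - P) := by
  intro x
  rw [map_sub, ev_cst]
  constructor
  · rw [Complex.sub_im, (hP x).1, Complex.ofReal_im, sub_zero]
  · rw [Complex.sub_re, Complex.ofReal_re]
    linarith [ev_le_nb P x]

theorem EH_cst_mul (H : AddSubgroup E) (c : ℝ) (P : TP E) : EH H (cst c * P) = cst c * EH H P := by
  classical
  induction P using AddMonoidAlgebra.induction_linear with
  | zero => rw [mul_zero, EH_zero, mul_zero]
  | add x y hx hy => rw [mul_add, EH_add, hx, hy, EH_add, mul_add]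
  | single m r =>
    unfold cst
    rw [AddMonoidAlgebra.single_mul_single, zero_add]
    by_cases hm : m ∈ H
    · rw [EH_single_of_mem hm, EH_single_of_mem hm, AddMonoidAlgebra.single_mul_single, zero_add]
    · rw [EH_single_of_notMem hm, EH_single_of_notMem hm, mul_zero]

/-- the removal lemma -/
theorem removal {ι : Type*} [Fintype ι] (F : ℤ → TP E) (hF : ∀ j, NN (F j)) (m₀ : ℝ)
    (hsum : ∀ x, HasSum (fun j => (ev x (F j)).re) m₀) (S : ι → Set ℤ) (H : ι → AddSubgroup E)
    (A₁ : Finset ℤ) (hcover : ∀ j, j ∉ A₁ → ∃ e, j ∈ S e)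
    (hUT : ∀ e (x₀ : E) (ε : ℝ), 0 < ε → ∃ (A₀ : Finset ℤ) (κ : TP E), NN κ ∧
      EH (H e) κ = κ ∧ ev x₀ κ = 0 ∧ ∀ A : Finset ℤ, (∀ j ∈ A, j ∈ S e ∧ j ∉ A₀) → ∀ x,
        ∑ j ∈ A, (ev x (F j)).re ≤ ε + (ev x κ).re)
    (hTM : ∀ e, ∃ s : ℤ → ℝ, (∀ j, 0 ≤ s j) ∧ Summable s ∧ ∀ (j : ℤ) (Q : Finset E) (x₀ : E),
      Q.Nonempty → (∀ a ∈ Q, a ∈ H e) → (mn (F j * wt Q x₀)).re ≤ s j) :
    ∀ ε : ℝ, 0 < ε → ∃ A : Finset ℤ, m₀ - ε ≤ ∑ j ∈ A, (mn (F j)).re := by
  classical
  let d : Finset ℤ → TP E := fun A => cst m₀ - ∑ j ∈ A, F j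
  have hevd : ∀ A x, (ev x (d A)).re = m₀ - ∑ j ∈ A, (ev x (F j)).re := by
    intro A x
    simp only [d]
    rw [map_sub, ev_cst, Complex.sub_re, Complex.ofReal_re, map_sum, Complex.re_sum]
  have hevdim : ∀ A x, (ev x (d A)).im = 0 := by
    intro A x
    simp only [d]
    rw [map_sub, ev_cst, Complex.sub_im, Complex.ofReal_im, map_sum, Complex.im_sum,
      Finset.sum_eq_zero (fun j _ => (hF j x).1), sub_zero]
  have hdNN : ∀ A, NN (d A) := by
    intro A x
    refine ⟨hevdim A x, ?_⟩
    rw [hevd]
    have := sum_le_hasSum A (fun j _ => (hF j x).2) (hsum x)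
    linarith
  intro ε₀ hε₀
  set k : ℕ := Fintype.card ι with hk
  set ε : ℝ := ε₀ / (2 * (k + 1)) with hεdef
  have hε : 0 < ε := by positivity
  choose A₀ κ hκNN hκH hκ0 hκ using fun e x₀ => hUT e x₀ ε hε
  choose s hs0 hssum hs using hTM
  -- the claim
  have claim : ∀ T : Finset ι, ∀ (xs : ι → E) (ρ : TP E), NN ρ → ∀ δ : ℝ, 0 < δ →
      ∃ A : Finset ℤ, (mn (ρ * d A)).re
        ≤ (mn (ρ * (cst (k * ε) + ∑ i ∈ T, κ i (xs i)))).re + δ := by
    intro T
    -- induction on the complement
    induction hT : Tᶜ using Finset.induction_on generalizing T with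
    | empty =>
      have hTuniv : T = Finset.univ := by
        rwa [Finset.compl_eq_empty_iff] at hT
      subst hTuniv
      intro xs ρ hρ δ hδ
      set A : Finset ℤ := A₁ ∪ Finset.univ.biUnion (fun e => A₀ e (xs e)) with hA
      refine ⟨A, ?_⟩
      have hpt : ∀ x, (ev x (d A)).re ≤ k * ε + ∑ i, (ev x (κ i (xs i))).re := by
        intro x
        rw [hevd]
        have h1 : ∀ A' : Finset ℤ, A ⊆ A' → ∑ j ∈ A', (ev x (F j)).re - ∑ j ∈ A, (ev x (F j)).re
            ≤ k * ε + ∑ i, (ev x (κ i (xs i))).re := by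
          intro A' hAA'
          have h2 : ∑ j ∈ A', (ev x (F j)).re - ∑ j ∈ A, (ev x (F j)).re
              = ∑ j ∈ A' \ A, (ev x (F j)).re := by
            rw [← Finset.sum_sdiff hAA']
            ring
          rw [h2]
          have h3 : ∑ j ∈ A' \ A, (ev x (F j)).re
              ≤ ∑ e, ∑ j ∈ (A' \ A).filter (fun j => j ∈ S e), (ev x (F j)).re := by
            simp only [Finset.sum_filter]
            rw [Finset.sum_comm]
            apply Finset.sum_le_sum
            intro j hj
            obtain ⟨e, he⟩ := hcover j (by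
              intro hj1
              rw [Finset.mem_sdiff] at hj
              exact hj.2 (Finset.mem_union_left _ hj1))
            calc (ev x (F j)).re = if j ∈ S e then (ev x (F j)).re else 0 := by rw [if_pos he]
              _ ≤ ∑ e, if j ∈ S e then (ev x (F j)).re else 0 := by
                apply Finset.single_le_sum (f := fun e => if j ∈ S e then (ev x (F j)).re else 0)
                  (fun e _ => ?_) (Finset.mem_univ e)
                split_ifs
                · exact (hF j x).2
                · exact le_rfl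
          refine h3.trans ?_
          have h4 : (k : ℝ) * ε + ∑ i, (ev x (κ i (xs i))).re
              = ∑ i, (ε + (ev x (κ i (xs i))).re) := by
            rw [Finset.sum_add_distrib, Finset.sum_const, Finset.card_univ, nsmul_eq_mul]
          rw [h4]
          apply Finset.sum_le_sum
          intro e _
          apply hκ e (xs e)
          intro j hj
          rw [Finset.mem_filter, Finset.mem_sdiff] at hj
          refine ⟨hj.2, fun hj0 => hj.1.2 ?_⟩
          exact Finset.mem_union_right _ (Finset.mem_biUnion.mpr ⟨e, Finset.mem_univ e, hj0⟩)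
        have h5 : Tendsto (fun A' : Finset ℤ => ∑ j ∈ A', (ev x (F j)).re
            - ∑ j ∈ A, (ev x (F j)).re) atTop (𝓝 (m₀ - ∑ j ∈ A, (ev x (F j)).re)) :=
          (hsum x).sub_const _
        exact le_of_tendsto h5 (Filter.eventually_atTop.mpr ⟨A, fun A' hA' => h1 A' hA'⟩)
      have hle : (mn (ρ * d A)).re
          ≤ (mn (ρ * (cst (k * ε) + ∑ i, κ i (xs i)))).re := by
        apply NN.mn_le
        rw [← mul_sub]
        apply hρ.mul
        intro x
        rw [map_sub, map_add, ev_cst, map_sum]
        constructor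
        · rw [Complex.sub_im, Complex.add_im, Complex.ofReal_im, hevdim, Complex.im_sum,
            Finset.sum_eq_zero (fun i _ => (hκNN i (xs i) x).1)]
          norm_num
        · rw [Complex.sub_re, Complex.add_re, Complex.ofReal_re, Complex.re_sum]
          linarith [hpt x]
      linarith
    | insert e T' heT' ih =>
      have heT : e ∉ T := by
        have : e ∈ Tᶜ := by rw [hT]; exact Finset.mem_insert_self _ _
        exact Finset.mem_compl.mp this
      have hTe : (insert e T)ᶜ = T' := by
        ext i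
        rw [Finset.mem_compl, Finset.mem_insert, not_or, ← Finset.mem_compl, hT,
          Finset.mem_insert]
        constructor
        · rintro ⟨h1, h2 | h2⟩
          · exact absurd h2 h1
          · exact h2
        · intro h
          exact ⟨fun h1 => heT' (h1 ▸ h), Or.inr h⟩
      have hclaim := ih (insert e T) hTe
      intro xs ρ hρ δ hδ
      set C : ℝ := nb ρ with hC
      have hC0 : 0 ≤ C := nb_nonneg ρ
      -- the tail of the series
      obtain ⟨A, hA⟩ : ∃ A : Finset ℤ, ∀ A' : Finset ℤ, Disjoint A' A →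
          C * ∑ j ∈ A', s e j ≤ δ / 2 := by
        have hpos : 0 < δ / (2 * (C + 1)) := by positivity
        obtain ⟨A, hA⟩ := summable_iff_vanishing_norm.mp (hssum e) _ hpos
        refine ⟨A, fun A' hA' => ?_⟩
        have h1 := hA A' hA'
        have h2 : ∑ j ∈ A', s e j ≤ δ / (2 * (C + 1)) := by
          refine (le_abs_self _).trans ?_
          rw [← Real.norm_eq_abs]
          exact h1.le
        calc C * ∑ j ∈ A', s e j ≤ C * (δ / (2 * (C + 1))) := by gcongr
          _ ≤ δ / 2 := by
            rw [mul_div_assoc', div_le_div_iff₀ (by positivity) (by norm_num)]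
            nlinarith
      refine ⟨A, ?_⟩
      set Ψ : TP E := cst (k * ε) + ∑ i ∈ T, κ i (xs i) with hΨ
      have hΨNN : NN Ψ := (NN_cst (by positivity)).add (NN.sum T fun i _ => hκNN i (xs i))
      have key : 0 ≤ (mn (ρ * Ψ + cst δ - ρ * d A)).re := by
        apply mn_re_nonneg_of_wt (H e)
        intro x₀
        -- the inequality for the weights
        have hwts : ∀ Q : Finset E, Q.Nonempty → (∀ a ∈ Q, a ∈ H e) →
            0 ≤ (mn ((ρ * Ψ + cst δ - ρ * d A + cst C * κ e x₀) * wt Q x₀)).re := by
          intro Q hQne hQH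
          obtain ⟨A'', hA''⟩ := hclaim (Function.update xs e x₀) (ρ * wt Q x₀)
            (hρ.mul (NN_wt Q x₀)) (δ / 2) (by positivity)
          have hΨ' : ∑ i ∈ insert e T, κ i (Function.update xs e x₀ i)
              = κ e x₀ + ∑ i ∈ T, κ i (xs i) := by
            rw [Finset.sum_insert heT, Function.update_self]
            congr 1
            apply Finset.sum_congr rfl
            intro i hi
            rw [Function.update_of_ne]
            rintro rfl
            exact heT hi
          rw [hΨ'] at hA''
          have e1 : ρ * wt Q x₀ * (cst (↑k * ε) + (κ e x₀ + ∑ i ∈ T, κ i (xs i)))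
              = ρ * Ψ * wt Q x₀ + ρ * (κ e x₀ * wt Q x₀) := by
            rw [hΨ]; ring
          rw [e1, mn_add, Complex.add_re] at hA''
          -- compare
          have h1 : (mn (ρ * wt Q x₀ * d A)).re ≤ (mn (ρ * wt Q x₀ * d A'')).re + δ / 2 := by
            have h2 : d A = d (A ∪ A'') + ∑ j ∈ (A'' \ A), F j := by
              simp only [d]
              rw [← Finset.union_sdiff_self_eq_union, Finset.sum_union Finset.disjoint_sdiff]
              abel
            have h3 : (mn (ρ * wt Q x₀ * d (A ∪ A''))).re ≤ (mn (ρ * wt Q x₀ * d A'')).re := by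
              apply NN.mn_le
              rw [← mul_sub]
              apply (hρ.mul (NN_wt Q x₀)).mul
              have : d A'' - d (A ∪ A'') = ∑ j ∈ (A \ A''), F j := by
                simp only [d]
                rw [Finset.union_comm, ← Finset.union_sdiff_self_eq_union,
                  Finset.sum_union Finset.disjoint_sdiff]
                abel
              rw [this]
              exact NN.sum _ fun j _ => hF j
            have h4 : (mn (ρ * wt Q x₀ * ∑ j ∈ (A'' \ A), F j)).re ≤ δ / 2 := by
              rw [Finset.mul_sum, mn_sum, Complex.re_sum]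
              refine le_trans ?_ (hA (A'' \ A) Finset.sdiff_disjoint)
              rw [Finset.mul_sum]
              apply Finset.sum_le_sum
              intro j _
              have h5 : (mn (ρ * wt Q x₀ * F j)).re ≤ (mn (cst C * (F j * wt Q x₀))).re := by
                apply NN.mn_le
                have : cst C * (F j * wt Q x₀) - ρ * wt Q x₀ * F j
                    = (cst C - ρ) * (F j * wt Q x₀) := by ring
                rw [this]
                exact (NN_nb_sub hρ).mul ((hF j).mul (NN_wt Q x₀))
              have h6 : (mn (cst C * (F j * wt Q x₀))).re = C * (mn (F j * wt Q x₀)).re := by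
                have h7 : mn (cst C * (F j * wt Q x₀)) = (C : ℂ) * mn (F j * wt Q x₀) := by
                  unfold mn cst
                  rw [AddMonoidAlgebra.coeff_single_zero_mul]
                rw [h7, Complex.re_ofReal_mul]
              rw [h6] at h5
              refine h5.trans ?_
              gcongr
              exact hs e j Q x₀ hQne hQH
            rw [h2, mul_add, mn_add, Complex.add_re]
            linarith
          have h8 : (mn (ρ * (κ e x₀ * wt Q x₀))).re ≤ (mn (cst C * κ e x₀ * wt Q x₀)).re := by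
            apply NN.mn_le
            have : cst C * κ e x₀ * wt Q x₀ - ρ * (κ e x₀ * wt Q x₀)
                = (cst C - ρ) * (κ e x₀ * wt Q x₀) := by ring
            rw [this]
            exact (NN_nb_sub hρ).mul ((hκNN e x₀).mul (NN_wt Q x₀))
          have h9 : (mn (cst δ * wt Q x₀)).re = δ := by
            have h7 : mn (cst δ * wt Q x₀) = (δ : ℂ) * mn (wt Q x₀) := by
              unfold mn cst
              rw [AddMonoidAlgebra.coeff_single_zero_mul]
            rw [h7, mn_wt hQne, mul_one, Complex.ofReal_re]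
          have h10 : (ρ * Ψ + cst δ - ρ * d A + cst C * κ e x₀) * wt Q x₀
              = ρ * Ψ * wt Q x₀ + cst δ * wt Q x₀ - ρ * wt Q x₀ * d A
                + cst C * κ e x₀ * wt Q x₀ := by ring
          rw [h10, mn_add, mn_sub, mn_add, Complex.add_re, Complex.sub_re, Complex.add_re, h9]
          linarith
        have h11 := ev_EH_re_nonneg (H e) _ x₀ hwts
        rw [EH_add, map_add, EH_cst_mul, hκH, map_mul, hκ0, mul_zero, add_zero] at h11
        exact h11
      rw [mn_sub, mn_add, Complex.sub_re, Complex.add_re, mn_cst, Complex.ofReal_re] at key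
      linarith
  -- conclusion
  obtain ⟨A, hA⟩ := claim ∅ (fun _ => 0) 1 (by
    intro x
    rw [map_one]
    simp) (ε₀ / 2) (by positivity)
  refine ⟨A, ?_⟩
  rw [one_mul, one_mul, Finset.sum_empty, add_zero, mn_cst, Complex.ofReal_re] at hA
  have h1 : (mn (d A)).re = m₀ - ∑ j ∈ A, (mn (F j)).re := by
    simp only [d]
    rw [mn_sub, mn_cst, mn_sum, Complex.sub_re, Complex.ofReal_re, Complex.re_sum]
  rw [h1] at hA
  have h2 : (k : ℝ) * ε ≤ ε₀ / 2 := by
    rw [hεdef, mul_div_assoc', div_le_div_iff₀ (by positivity) (by norm_num)]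
    nlinarith
  linarith

end Pool.Agent.Lib_helper44
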