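import Mathlib
import Pool.Agent.Lib_helper44.Tail
import Pool.Agent.Lib_helper44.Coord

open MeasureTheory Filter Topology Complex Module
open scoped ENNReal NNReal ComplexConjugate InnerProductSpace

set_option linter.unusedSectionVars false

namespace Pool.Agent.Lib_helper44

variable {E : Type*} [NormedAddCommGroup E] [InnerProductSpace ℝ E] [FiniteDimensional ℝ E]
  [MeasurableSpace E] [BorelSpace E] {n : ℕ}

/-- the unit cube -/
def cubeN (n : ℕ) : Set (Fin n → ℝ) := Set.pi Set.univ (fun _ => Set.Ico (0 : ℝ) 1)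

theorem measurableSet_cubeN (n : ℕ) : MeasurableSet (cubeN n) :=
  MeasurableSet.univ_pi fun _ => measurableSet_Ico

theorem volume_cubeN (n : ℕ) : volume (cubeN n) = 1 := by
  unfold cubeN
  rw [Real.volume_pi_Ico]
  simp

/-- the basic cell `{x | 0 ≤ ⟪γ i, x⟫ < 1}` -/
abbrev Q0 (γ : Basis (Fin n) ℝ E) : Set E := cellQ γ 0

theorem Q0_eq (γ : Basis (Fin n) ℝ E) : Q0 γ = coordT γ ⁻¹' cubeN n := by
  ext x
  change lamv γ 0 x = 0 ↔ _
  constructor
  · intro h
    rw [Set.mem_preimage, cubeN, Set.mem_univ_pi]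
    intro i
    rw [coordT_apply]
    have h1 := inner_lamv γ 0 x i
    rw [h, inner_zero_right] at h1
    have h2 : ⌊⟪γ i, x⟫_ℝ⌋ = 0 := by
      simp only [Pi.zero_apply, sub_zero] at h1
      exact_mod_cast h1.symm
    rw [Int.floor_eq_zero_iff] at h2
    exact h2
  · intro h
    apply ext_inner_basis γ
    intro i
    rw [inner_lamv, inner_zero_right]
    have h1 := Set.mem_univ_pi.mp h i
    rw [coordT_apply] at h1
    have h2 : ⌊⟪γ i, x⟫_ℝ⌋ = 0 := Int.floor_eq_zero_iff.mpr h1
    rw [h2]
    simp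

theorem measurableSet_Q0 (γ : Basis (Fin n) ℝ E) : MeasurableSet (Q0 γ) := by
  rw [Q0_eq]
  exact (coordT γ).continuous.measurable (measurableSet_cubeN n)

/-- change of variables to coordinates -/
theorem map_coordT (γ : Basis (Fin n) ℝ E) :
    Measure.map (coordT γ) (volume : Measure E) = volume (Q0 γ) • (volume : Measure (Fin n → ℝ)) ∧
      volume (Q0 γ) ≠ 0 ∧ volume (Q0 γ) ≠ ⊤ := by
  have h1 : (Measure.map (coordT γ) (volume : Measure E)).IsAddHaarMeasure :=
    ContinuousLinearEquiv.isAddHaarMeasure_map (coordT γ) volume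
  have hc := Measure.isAddLeftInvariant_eq_smul
    (Measure.map (coordT γ) (volume : Measure E)) (volume : Measure (Fin n → ℝ))
  have hpos := Measure.addHaarScalarFactor_pos_of_isAddHaarMeasure
    (Measure.map (coordT γ) (volume : Measure E)) (volume : Measure (Fin n → ℝ))
  set c := Measure.addHaarScalarFactor (Measure.map (coordT γ) (volume : Measure E))
    (volume : Measure (Fin n → ℝ)) with hcdef
  have h2 : volume (Q0 γ) = c := by
    rw [Q0_eq, ← Measure.map_apply (coordT γ).continuous.measurable (measurableSet_cubeN n), hc,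
      Measure.smul_apply, volume_cubeN]
    simp
  refine ⟨?_, ?_, ?_⟩
  · rw [h2]
    exact hc
  · rw [h2]
    exact_mod_cast hpos.ne'
  · rw [h2]
    exact ENNReal.coe_ne_top

theorem integral_ee_Q0 (γ : Basis (Fin n) ℝ E) (k : Fin n → ℤ) :
    ∫ x in Q0 γ, ee (⟪kv γ k, x⟫_ℝ) = if k = 0 then ((volume (Q0 γ)).toReal : ℂ) else 0 := by
  classical
  have hprod : ∀ (s : Finset (Fin n)) (f : Fin n → ℝ), ee (∑ i ∈ s, f i) = ∏ i ∈ s, ee (f i) := by
    intro s f
    induction s using Finset.cons_induction with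
    | empty => simp [ee_zero]
    | cons a s ha ih => rw [Finset.prod_cons, Finset.sum_cons, ee_add, ih]
  have h1 : ∀ x : E, (Q0 γ).indicator (fun x => ee (⟪kv γ k, x⟫_ℝ)) x
      = (fun z : Fin n → ℝ => ∏ i, (Set.Ico (0 : ℝ) 1).indicator (fun t => ee (k i * t)) (z i))
        (coordT γ x) := by
    intro x
    simp only
    by_cases hx : x ∈ Q0 γ
    · rw [Set.indicator_of_mem hx, inner_kv, hprod]
      apply Finset.prod_congr rfl
      intro i _
      rw [Q0_eq] at hx
      have h2 := Set.mem_univ_pi.mp hx i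
      rw [Set.indicator_of_mem h2, coordT_apply]
    · rw [Set.indicator_of_notMem hx]
      rw [Q0_eq, Set.mem_preimage, cubeN, Set.mem_univ_pi, not_forall] at hx
      obtain ⟨i, hi⟩ := hx
      symm
      apply Finset.prod_eq_zero (Finset.mem_univ i)
      exact Set.indicator_of_notMem hi _
  obtain ⟨hmap, h0, ht⟩ := map_coordT γ
  rw [← integral_indicator (measurableSet_Q0 γ)]
  simp only [h1]
  have hmapi : ∀ f : (Fin n → ℝ) → ℂ, ∫ x, f (coordT γ x) = (volume (Q0 γ)).toReal • ∫ z, f z := by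
    intro f
    have h3 := (coordT γ).toHomeomorph.toMeasurableEquiv.measurableEmbedding.integral_map
      (μ := (volume : Measure E)) f
    have h4 : Measure.map (coordT γ).toHomeomorph.toMeasurableEquiv (volume : Measure E)
        = volume (Q0 γ) • (volume : Measure (Fin n → ℝ)) := hmap
    rw [h4, integral_smul_measure] at h3
    exact h3.symm
  have hmapi' := hmapi (fun z : Fin n → ℝ =>
    ∏ i, (Set.Ico (0 : ℝ) 1).indicator (fun t => ee (k i * t)) (z i))
  beta_reduce at hmapi'
  rw [hmapi', integral_fintype_prod_volume_eq_prod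
    (fun (i : Fin n) (t : ℝ) => (Set.Ico (0 : ℝ) 1).indicator (fun t => ee (k i * t)) t)]
  have h5 : ∀ i, ∫ t, (Set.Ico (0 : ℝ) 1).indicator (fun t => ee (k i * t)) t
      = if k i = 0 then 1 else 0 := by
    intro i
    rw [integral_indicator measurableSet_Ico]
    have h6 := integral_ee_interval (a := 0) (T := 1) one_pos (k i)
    simp only [zero_add, div_one, Complex.ofReal_one] at h6
    exact h6
  simp only [h5]
  by_cases hk : k = 0
  · rw [if_pos hk]
    simp [hk]
  · rw [if_neg hk]
    have : ∃ i, k i ≠ 0 := by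
      by_contra hcon
      push Not at hcon
      exact hk (funext hcon)
    obtain ⟨i, hi⟩ := this
    rw [Finset.prod_eq_zero (Finset.mem_univ i) (if_neg hi), smul_zero]

/-- the torus projection -/
noncomputable def torusP (γ : Basis (Fin n) ℝ E) (x : E) : UnitAddTorus (Fin n) :=
  fun i => ((⟪γ i, x⟫_ℝ : ℝ) : UnitAddCircle)

theorem torusP_measurable (γ : Basis (Fin n) ℝ E) : Measurable (torusP γ) := by
  apply measurable_pi_lambda
  intro i
  apply (AddCircle.continuous_mk' (1 : ℝ)).measurable.comp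
  exact (continuous_const.inner continuous_id).measurable

theorem mFourier_torusP (γ : Basis (Fin n) ℝ E) (k : Fin n → ℤ) (x : E) :
    UnitAddTorus.mFourier k (torusP γ x) = ee (⟪kv γ k, x⟫_ℝ) := by
  have hprod : ∀ (s : Finset (Fin n)) (f : Fin n → ℝ), ee (∑ i ∈ s, f i) = ∏ i ∈ s, ee (f i) := by
    intro s f
    induction s using Finset.cons_induction with
    | empty => simp [ee_zero]
    | cons a s ha ih => rw [Finset.prod_cons, Finset.sum_cons, ee_add, ih]
  simp only [UnitAddTorus.mFourier, torusP, ContinuousMap.coe_mk]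
  simp only [fourier_coe_eq_ee]
  rw [inner_kv, hprod]

theorem torusP_eq {γ : Basis (Fin n) ℝ E} {x y : E} (h : torusP γ x = torusP γ y) :
    y - x ∈ dualL γ := by
  intro i
  have h1 := congrFun h i
  have h2 := (QuotientAddGroup.eq (s := AddSubgroup.zmultiples (1 : ℝ))).mp h1
  rw [AddSubgroup.mem_zmultiples_iff] at h2
  obtain ⟨k, hk⟩ := h2
  refine ⟨k, ?_⟩
  rw [inner_sub_right]
  have : (k : ℝ) = -⟪γ i, x⟫_ℝ + ⟪γ i, y⟫_ℝ := by simpa using hk
  linarith

/-- points of a cell are inequivalent -/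
theorem eq_of_sub_mem {γ : Basis (Fin n) ℝ E} {x y : E} (hx : x ∈ Q0 γ) (hy : y ∈ Q0 γ)
    (h : y - x ∈ dualL γ) : x = y := by
  have h1 := lamv_add γ 0 x h
  have hx' : lamv γ 0 x = 0 := hx
  have hy' : lamv γ 0 y = 0 := hy
  rw [add_sub_cancel, hx', hy', zero_add] at h1
  exact (sub_eq_zero.mp h1.symm).symm

/-- the normalised exponentials on the cell -/
noncomputable def expQ (γ : Basis (Fin n) ℝ E) (k : Fin n → ℤ) (x : E) : ℂ :=
  (((volume (Q0 γ)).toReal ^ (-(1 / 2) : ℝ) : ℝ) : ℂ) * ee (-⟪kv γ k, x⟫_ℝ)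

theorem expQ_isONB (γ : Basis (Fin n) ℝ E) :
    IsONB ((volume : Measure E).restrict (Q0 γ)) (expQ γ) := by
  obtain ⟨-, hv0, hvt⟩ := map_coordT γ
  have hfin : IsFiniteMeasure ((volume : Measure E).restrict (Q0 γ)) :=
    ⟨by rw [Measure.restrict_apply_univ]; exact hvt.lt_top⟩
  set V := (volume (Q0 γ)).toReal with hV
  have hVpos : 0 < V := ENNReal.toReal_pos hv0 hvt
  have hcont : ∀ k, Continuous (expQ γ k) := by
    intro k
    unfold expQ
    exact continuous_const.mul (ee_continuous.comp (continuous_const.inner continuous_id).neg)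
  have hVV : ((V ^ (-(1 / 2) : ℝ) : ℝ) : ℂ) * ((V ^ (-(1 / 2) : ℝ) : ℝ) : ℂ) = (V : ℂ)⁻¹ := by
    rw [← Complex.ofReal_mul, ← Real.rpow_add hVpos, ← Complex.ofReal_inv]
    norm_num
    rw [Real.rpow_neg_one]
    push_cast
    rfl
  refine ⟨fun k => ?_, fun k l => ?_, fun g hg H => ?_⟩
  · apply MemLp.of_bound (hcont k).aestronglyMeasurable (V ^ (-(1 / 2) : ℝ))
    filter_upwards with x
    unfold expQ
    rw [norm_mul, norm_ee, mul_one, Complex.norm_real,
      Real.norm_of_nonneg (Real.rpow_nonneg hVpos.le _)]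
  · have h1 : ∀ x, conj (expQ γ k x) * expQ γ l x = (V : ℂ)⁻¹ * ee (⟪kv γ (k - l), x⟫_ℝ) := by
      intro x
      unfold expQ
      rw [map_mul, Complex.conj_ofReal, ← hVV]
      have h2 : conj (ee (-⟪kv γ k, x⟫_ℝ)) * ee (-⟪kv γ l, x⟫_ℝ) = ee (⟪kv γ (k - l), x⟫_ℝ) := by
        rw [conj_ee_mul, inner_kv, inner_kv, inner_kv]
        congr 1
        rw [← Finset.sum_neg_distrib, ← Finset.sum_neg_distrib, ← Finset.sum_sub_distrib]
        apply Finset.sum_congr rfl
        intro i _
        simp only [Pi.sub_apply]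
        push_cast
        ring
      rw [← h2]
      ring
    simp only [h1]
    rw [integral_const_mul, integral_ee_Q0]
    by_cases hkl : k = l
    · rw [if_pos hkl, if_pos (by rw [hkl, sub_self])]
      rw [inv_mul_cancel₀]
      exact_mod_cast hVpos.ne'
    · rw [if_neg hkl, if_neg (by rwa [sub_eq_zero]), mul_zero]
  · have hgi : IntegrableOn g (Q0 γ) := hg.integrable one_le_two
    apply ae_eq_zero_of_injOn (measurableSet_Q0 γ) hgi (torusP_measurable γ)
    · intro x hx y hy hxy
      exact eq_of_sub_mem hx hy (torusP_eq hxy)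
    · intro k
      have h1 := H k
      have h2 : ∀ x, conj (expQ γ k x) * g x
          = ((V ^ (-(1 / 2) : ℝ) : ℝ) : ℂ) * (UnitAddTorus.mFourier k (torusP γ x) * g x) := by
        intro x
        unfold expQ
        rw [mFourier_torusP, map_mul, Complex.conj_ofReal, conj_ee, neg_neg]
        ring
      simp only [h2] at h1
      rw [integral_const_mul] at h1
      refine (mul_eq_zero.mp h1).resolve_left ?_
      exact Complex.ofReal_ne_zero.mpr (Real.rpow_pos_of_pos hVpos _).ne'

end Pool.Agent.Lib_helper44
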