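import Mathlib
import Pool.Agent.Lib_helper44.CellONB

open MeasureTheory Filter Topology Complex Module
open scoped ENNReal NNReal ComplexConjugate InnerProductSpace

set_option linter.unusedSectionVars false

namespace Pool.Agent.Lib_helper44

variable {E : Type*} [NormedAddCommGroup E] [InnerProductSpace ℝ E] [FiniteDimensional ℝ E]
  [MeasurableSpace E] [BorelSpace E] {n : ℕ}

instance countable_dualL' (γ : Basis (Fin n) ℝ E) : Countable (dualL γ) :=
  (countable_dualL γ).to_subtype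

/-- packing sets -/
def IsPack (γ : Basis (Fin n) ℝ E) (D : Set E) : Prop := ∀ x ∈ D, ∀ y ∈ D, y - x ∈ dualL γ → x = y

/-- covering sets -/
def IsCover (γ : Basis (Fin n) ℝ E) (D : Set E) : Prop := ∀ x, ∃ v ∈ dualL γ, x + v ∈ D

theorem isPack_Q0 (γ : Basis (Fin n) ℝ E) : IsPack γ (Q0 γ) :=
  fun _ hx _ hy h => eq_of_sub_mem hx hy h

theorem isCover_Q0 (γ : Basis (Fin n) ℝ E) : IsCover γ (Q0 γ) := by
  intro x
  refine ⟨-lamv γ 0 x, (dualL γ).neg_mem (lamv_mem γ 0 x), ?_⟩
  change lamv γ 0 (x + -lamv γ 0 x) = 0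
  rw [lamv_add γ 0 x ((dualL γ).neg_mem (lamv_mem γ 0 x)), add_neg_cancel]

theorem isFD {γ : Basis (Fin n) ℝ E} {D : Set E} (hDm : MeasurableSet D) (hp : IsPack γ D)
    (hc : IsCover γ D) : IsAddFundamentalDomain (dualL γ) D (volume : Measure E) := by
  apply IsAddFundamentalDomain.mk' hDm.nullMeasurableSet
  intro x
  obtain ⟨v, hv, hvD⟩ := hc x
  refine ⟨⟨v, hv⟩, ?_, ?_⟩
  · change v + x ∈ D
    rwa [add_comm]
  · rintro ⟨w, hw⟩ hwD
    have hwD' : w + x ∈ D := hwD
    have h1 := hp (x + v) hvD (w + x) hwD' (by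
      have : w + x - (x + v) = w - v := by abel
      rw [this]
      exact (dualL γ).sub_mem hw hv)
    apply Subtype.ext
    change w = v
    have h2 : v = w := by
      have := congrArg (fun z => z - x) h1
      simpa using this
    exact h2.symm

theorem ee_vadd (γ : Basis (Fin n) ℝ E) (k : Fin n → ℤ) (v : dualL γ) (x : E) :
    ee (⟪kv γ k, v +ᵥ x⟫_ℝ) = ee (⟪kv γ k, x⟫_ℝ) := by
  change ee (⟪kv γ k, (v : E) + x⟫_ℝ) = _
  rw [add_comm, ee_inner_periodic γ k v.2]

theorem expQ_isONB' {γ : Basis (Fin n) ℝ E} {D : Set E} (hDm : MeasurableSet D) (hp : IsPack γ D)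
    (hc : IsCover γ D) : IsONB ((volume : Measure E).restrict D) (expQ γ) := by
  obtain ⟨-, hv0, hvt⟩ := map_coordT γ
  have hvD : volume D = volume (Q0 γ) :=
    (isFD hDm hp hc).measure_eq (isFD (measurableSet_Q0 γ) (isPack_Q0 γ) (isCover_Q0 γ))
  have hfin : IsFiniteMeasure ((volume : Measure E).restrict D) :=
    ⟨by rw [Measure.restrict_apply_univ, hvD]; exact hvt.lt_top⟩
  set V := (volume (Q0 γ)).toReal with hV
  have hVpos : 0 < V := ENNReal.toReal_pos hv0 hvt
  have hcont : ∀ k, Continuous (expQ γ k) := by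
    intro k
    unfold expQ
    exact continuous_const.mul (ee_continuous.comp (continuous_const.inner continuous_id).neg)
  have hVV : ((V ^ (-(1 / 2) : ℝ) : ℝ) : ℂ) * ((V ^ (-(1 / 2) : ℝ) : ℝ) : ℂ) = (V : ℂ)⁻¹ := by
    rw [← Complex.ofReal_mul, ← Real.rpow_add hVpos, ← Complex.ofReal_inv]
    norm_num
    rw [Real.rpow_neg_one]
    push_cast
    rfl
  refine ⟨fun k => ?_, fun k l => ?_, fun g hg H => ?_⟩
  · apply MemLp.of_bound (hcont k).aestronglyMeasurable (V ^ (-(1 / 2) : ℝ))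
    filter_upwards with x
    unfold expQ
    rw [norm_mul, norm_ee, mul_one, Complex.norm_real,
      Real.norm_of_nonneg (Real.rpow_nonneg hVpos.le _)]
  · have h1 : ∀ x, conj (expQ γ k x) * expQ γ l x = (V : ℂ)⁻¹ * ee (⟪kv γ (k - l), x⟫_ℝ) := by
      intro x
      unfold expQ
      rw [map_mul, Complex.conj_ofReal, ← hVV]
      have h2 : conj (ee (-⟪kv γ k, x⟫_ℝ)) * ee (-⟪kv γ l, x⟫_ℝ) = ee (⟪kv γ (k - l), x⟫_ℝ) := by
        rw [conj_ee_mul, inner_kv, inner_kv, inner_kv]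
        congr 1
        rw [← Finset.sum_neg_distrib, ← Finset.sum_neg_distrib, ← Finset.sum_sub_distrib]
        apply Finset.sum_congr rfl
        intro i _
        simp only [Pi.sub_apply]
        push_cast
        ring
      rw [← h2]
      ring
    simp only [h1]
    rw [integral_const_mul, (isFD hDm hp hc).setIntegral_eq
      (isFD (measurableSet_Q0 γ) (isPack_Q0 γ) (isCover_Q0 γ)) (fun v x => ee_vadd γ _ v x),
      integral_ee_Q0]
    by_cases hkl : k = l
    · rw [if_pos hkl, if_pos (by rw [hkl, sub_self])]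
      rw [inv_mul_cancel₀]
      exact_mod_cast hVpos.ne'
    · rw [if_neg hkl, if_neg (by rwa [sub_eq_zero]), mul_zero]
  · have hgi : IntegrableOn g D := hg.integrable one_le_two
    apply ae_eq_zero_of_injOn hDm hgi (torusP_measurable γ)
    · intro x hx y hy hxy
      exact hp x hx y hy (torusP_eq hxy)
    · intro k
      have h1 := H k
      have h2 : ∀ x, conj (expQ γ k x) * g x
          = ((V ^ (-(1 / 2) : ℝ) : ℝ) : ℂ) * (UnitAddTorus.mFourier k (torusP γ x) * g x) := by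
        intro x
        unfold expQ
        rw [mFourier_torusP, map_mul, Complex.conj_ofReal, conj_ee, neg_neg]
        ring
      simp only [h2] at h1
      rw [integral_const_mul] at h1
      refine (mul_eq_zero.mp h1).resolve_left ?_
      exact Complex.ofReal_ne_zero.mpr (Real.rpow_pos_of_pos hVpos _).ne'

/-- the saturation of a set -/
def satur (γ : Basis (Fin n) ℝ E) (D : Set E) : Set E := ⋃ v : dualL γ, (fun x => x + (v : E)) ⁻¹' D

theorem mem_satur {γ : Basis (Fin n) ℝ E} {D : Set E} {x : E} :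
    x ∈ satur γ D ↔ ∃ v ∈ dualL γ, x + v ∈ D := by
  unfold satur
  rw [Set.mem_iUnion]
  constructor
  · rintro ⟨v, hv⟩
    exact ⟨v, v.2, hv⟩
  · rintro ⟨v, hv, hvD⟩
    exact ⟨⟨v, hv⟩, hvD⟩

theorem measurableSet_satur (γ : Basis (Fin n) ℝ E) {D : Set E} (hD : MeasurableSet D) :
    MeasurableSet (satur γ D) :=
  MeasurableSet.iUnion fun v => (measurable_add_const (v : E)) hD

/-- every packing set is contained in a fundamental domain -/
theorem exists_domain (γ : Basis (Fin n) ℝ E) {D : Set E} (hDm : MeasurableSet D)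
    (hp : IsPack γ D) : ∃ D' : Set E, D ⊆ D' ∧ MeasurableSet D' ∧ IsPack γ D' ∧ IsCover γ D' := by
  refine ⟨D ∪ (Q0 γ \ satur γ D), Set.subset_union_left, hDm.union
    ((measurableSet_Q0 γ).diff (measurableSet_satur γ hDm)), ?_, ?_⟩
  · rintro x (hx | hx) y (hy | hy) h
    · exact hp x hx y hy h
    · exfalso
      apply hy.2
      rw [mem_satur]
      refine ⟨x - y, ?_, by rwa [add_sub_cancel]⟩
      have := (dualL γ).neg_mem h
      rwa [neg_sub] at this
    · exfalso
      apply hx.2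
      rw [mem_satur]
      exact ⟨y - x, h, by rwa [add_sub_cancel]⟩
    · exact isPack_Q0 γ x hx.1 y hy.1 h
  · intro x
    by_cases hx : x ∈ satur γ D
    · obtain ⟨v, hv, hvD⟩ := mem_satur.mp hx
      exact ⟨v, hv, Or.inl hvD⟩
    · obtain ⟨v, hv, hvQ⟩ := isCover_Q0 γ x
      refine ⟨v, hv, Or.inr ⟨hvQ, fun h2 => hx ?_⟩⟩
      obtain ⟨w, hw, hwD⟩ := mem_satur.mp h2
      rw [mem_satur]
      exact ⟨v + w, (dualL γ).add_mem hv hw, by rwa [← add_assoc]⟩

/-- Parseval's identity for functions supported in packing sets -/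
theorem pack_parseval (γ : Basis (Fin n) ℝ E) {D : Set E} (hDm : MeasurableSet D)
    (hp : IsPack γ D) {F : E → ℂ} (hF : MemLp F 2 (volume : Measure E))
    (hFD : ∀ x, x ∉ D → F x = 0) :
    ∑' k : Fin n → ℤ, ‖∫ x, ee (⟪kv γ k, x⟫_ℝ) * F x‖ₑ ^ 2
      = volume (Q0 γ) * ∫⁻ x, ‖F x‖ₑ ^ 2 := by
  classical
  obtain ⟨-, hv0, hvt⟩ := map_coordT γ
  obtain ⟨D', hDD', hD'm, hp', hc'⟩ := exists_domain γ hDm hp
  have hONB := expQ_isONB' hD'm hp' hc'
  have hFr : MemLp F 2 ((volume : Measure E).restrict D') := hF.restrict D'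
  have hpars := hONB.parseval hFr
  set V := (volume (Q0 γ)).toReal with hV
  have hVpos : 0 < V := ENNReal.toReal_pos hv0 hvt
  have h1 : ∫⁻ x in D', ‖F x‖ₑ ^ 2 = ∫⁻ x, ‖F x‖ₑ ^ 2 := by
    apply setLIntegral_eq_of_support_subset
    intro x hx
    by_contra hxD
    apply hx
    change ‖F x‖ₑ ^ 2 = 0
    rw [hFD x (fun h => hxD (hDD' h))]
    simp
  have h2 : ∀ k, ∫ x in D', conj (expQ γ k x) * F x
      = ((V ^ (-(1 / 2) : ℝ) : ℝ) : ℂ) * ∫ x, ee (⟪kv γ k, x⟫_ℝ) * F x := by
    intro k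
    rw [← integral_const_mul, setIntegral_eq_integral_of_forall_compl_eq_zero]
    · apply integral_congr_ae
      filter_upwards with x
      unfold expQ
      rw [map_mul, Complex.conj_ofReal, conj_ee, neg_neg]
      ring
    · intro x hx
      rw [hFD x (fun h => hx (hDD' h)), mul_zero]
  have h3 : ‖((V ^ (-(1 / 2) : ℝ) : ℝ) : ℂ)‖ₑ ^ 2 = (volume (Q0 γ))⁻¹ := by
    rw [enorm_sq_eq, Complex.norm_real, Real.norm_of_nonneg (Real.rpow_nonneg hVpos.le _),
      ← Real.rpow_natCast, ← Real.rpow_mul hVpos.le]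
    norm_num
    rw [Real.rpow_neg_one, ENNReal.ofReal_inv_of_pos hVpos, hV, ENNReal.ofReal_toReal hvt]
  simp only [h2, enorm_mul, mul_pow, h3] at hpars
  rw [ENNReal.tsum_mul_left, h1] at hpars
  rw [← hpars, ← mul_assoc, ENNReal.mul_inv_cancel hv0 hvt, one_mul]

end Pool.Agent.Lib_helper44
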