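import Mathlib
import Pool.Agent.Lib_helper44.Pack
import Pool.Agent.Lib_helper44.LowerGlobal

open MeasureTheory Filter Topology Complex Module
open scoped ENNReal NNReal ComplexConjugate InnerProductSpace

set_option linter.unusedSectionVars false

namespace Pool.Agent.Lib_helper44

variable {E : Type*} [NormedAddCommGroup E] [InnerProductSpace ℝ E] [FiniteDimensional ℝ E]
  [MeasurableSpace E] [BorelSpace E] {n : ℕ}
variable {γ : Basis (Fin n) ℝ E} {B : E ≃L[ℝ] E} {φ : E → ℂ}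

/-- packing at the scale `j` -/
def IsPackAt (γ : Basis (Fin n) ℝ E) (B : E ≃L[ℝ] E) (j : ℤ) (D : Set E) : Prop :=
  ∀ x ∈ D, ∀ y ∈ D, y - x ∈ Lj γ B j → x = y

theorem zpow_apply_neg (B : E ≃L[ℝ] E) (j : ℤ) (x : E) : (B ^ (-j)) ((B ^ j) x) = x := by
  have h : B ^ (-j) * B ^ j = 1 := by rw [← zpow_add, neg_add_cancel, zpow_zero]
  change (B ^ (-j) * B ^ j) x = x
  rw [h]
  rfl

theorem zpow_apply_neg' (B : E ≃L[ℝ] E) (j : ℤ) (x : E) : (B ^ j) ((B ^ (-j)) x) = x := by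
  have := zpow_apply_neg B (-j) x
  rwa [neg_neg] at this

theorem scale_energy (hφ : MemLp φ 2 (volume : Measure E)) {D : Set E} (hD : MeasurableSet D)
    (j : ℤ) (hp : IsPackAt γ B j D) :
    ∑' k : Fin n → ℤ, ‖∫ x, conj (fam γ B φ (j, k) x) * D.indicator (fun _ => (1 : ℂ)) x‖ₑ ^ 2
      = volume (Q0 γ) * ∫⁻ x in D, ‖φ ((B ^ (-j)) x)‖ₑ ^ 2 := by
  classical
  set D' : Set E := (B ^ j) ⁻¹' D with hD'
  have hD'm : MeasurableSet D' := (B ^ j).continuous.measurable hD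
  have hp' : IsPack γ D' := by
    intro x hx y hy hxy
    have h1 := hp _ hx _ hy (by
      rw [mem_Lj, map_sub, zpow_apply_neg, zpow_apply_neg]
      exact hxy)
    exact (B ^ j).injective h1
  let F : E → ℂ := D'.indicator (fun x => conj (φ x))
  have hF : MemLp F 2 (volume : Measure E) := hφ.star.indicator hD'm
  have h1 := pack_parseval γ hD'm hp' hF (fun x hx => Set.indicator_of_notMem hx _)
  have hadj : (0 : ℝ) < adet B := adet_pos B
  have h2 : ∀ k : Fin n → ℤ,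
      ∫ x, conj (fam γ B φ (j, k) x) * D.indicator (fun _ => (1 : ℂ)) x
        = ((adet B ^ ((j : ℝ) / 2) : ℝ) : ℂ) * ∫ x, ee (⟪kv γ k, x⟫_ℝ) * F x := by
    intro k
    have h3 := integral_comp_equiv (B ^ j)
      (fun x => conj (fam γ B φ (j, k) x) * D.indicator (fun _ => (1 : ℂ)) x)
    have h4 : ∀ x, conj (fam γ B φ (j, k) ((B ^ j) x)) * D.indicator (fun _ => (1 : ℂ)) ((B ^ j) x)
        = ((adet B ^ (-(j : ℝ) / 2) : ℝ) : ℂ) * (ee (⟪kv γ k, x⟫_ℝ) * F x) := by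
      intro x
      rw [fam_apply]
      simp only
      rw [zpow_apply_neg]
      by_cases hx : (B ^ j) x ∈ D
      · have hx' : x ∈ D' := hx
        simp only [F]
        rw [Set.indicator_of_mem hx, Set.indicator_of_mem hx', mul_one]
        simp only [map_mul, Complex.conj_ofReal, conj_ee, neg_neg]
      · have hx' : x ∉ D' := hx
        simp only [F]
        rw [Set.indicator_of_notMem hx, Set.indicator_of_notMem hx', mul_zero, mul_zero, mul_zero]
    simp only [h4] at h3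
    rw [integral_const_mul, adet_zpow] at h3
    have h5 : ((adet B ^ ((j : ℝ) / 2) : ℝ) : ℂ)
        = ((adet B ^ j : ℝ) : ℂ) * ((adet B ^ (-(j : ℝ) / 2) : ℝ) : ℂ) := by
      rw [← Complex.ofReal_mul, ← Real.rpow_intCast, ← Real.rpow_add hadj]
      congr 2
      ring
    rw [h5, mul_assoc, h3, Complex.real_smul, ← mul_assoc, ← Complex.ofReal_mul,
      mul_inv_cancel₀ (zpow_ne_zero _ hadj.ne'), Complex.ofReal_one, one_mul]
  simp only [h2, enorm_mul, mul_pow]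
  rw [ENNReal.tsum_mul_left, h1]
  have h6 : ‖((adet B ^ ((j : ℝ) / 2) : ℝ) : ℂ)‖ₑ ^ 2 = ENNReal.ofReal (adet B ^ j) := by
    rw [enorm_sq_eq, Complex.norm_real, Real.norm_of_nonneg (Real.rpow_nonneg hadj.le _),
      ← Real.rpow_natCast, ← Real.rpow_mul hadj.le, ← Real.rpow_intCast]
    congr 2
    push_cast
    ring
  rw [h6]
  have h7 := lintegral_comp_equiv (B ^ j) (D.indicator fun x => ‖φ ((B ^ (-j)) x)‖ₑ ^ 2)
  rw [lintegral_indicator hD] at h7
  have h8 : ∀ x, D.indicator (fun x => ‖φ ((B ^ (-j)) x)‖ₑ ^ 2) ((B ^ j) x) = ‖F x‖ₑ ^ 2 := by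
    intro x
    by_cases hx : (B ^ j) x ∈ D
    · have hx' : x ∈ D' := hx
      simp only [F]
      rw [Set.indicator_of_mem hx, Set.indicator_of_mem hx', zpow_apply_neg, ← ofReal_norm,
        ← ofReal_norm, RCLike.norm_conj]
    · have hx' : x ∉ D' := hx
      simp only [F]
      rw [Set.indicator_of_notMem hx, Set.indicator_of_notMem hx']
      simp
  simp only [h8] at h7
  rw [h7, adet_zpow]
  have h9 : ENNReal.ofReal (adet B ^ j) * ENNReal.ofReal (adet B ^ j)⁻¹ = 1 := by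
    rw [← ENNReal.ofReal_mul (zpow_pos hadj j).le, mul_inv_cancel₀ (zpow_ne_zero _ hadj.ne'),
      ENNReal.ofReal_one]
  calc ENNReal.ofReal (adet B ^ j) * (volume (Q0 γ) * (ENNReal.ofReal (adet B ^ j)⁻¹ *
        ∫⁻ x in D, ‖φ ((B ^ (-j)) x)‖ₑ ^ 2))
      = (ENNReal.ofReal (adet B ^ j) * ENNReal.ofReal (adet B ^ j)⁻¹) * (volume (Q0 γ) *
        ∫⁻ x in D, ‖φ ((B ^ (-j)) x)‖ₑ ^ 2) := by ring
    _ = _ := by rw [h9, one_mul]

/-- lattices are discrete -/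
theorem dualL_discrete (γ : Basis (Fin n) ℝ E) :
    ∃ ε : ℝ, 0 < ε ∧ ∀ v ∈ dualL γ, v ≠ 0 → ε ≤ ‖v‖ := by
  have hpos : ∀ i, 0 < ‖γ i‖ := fun i => norm_pos_iff.mpr (γ.ne_zero i)
  refine ⟨(∑ i, ‖γ i‖ + 1)⁻¹, by positivity, fun v hv hv0 => ?_⟩
  have : ∃ i, ⟪γ i, v⟫_ℝ ≠ 0 := by
    by_contra hcon
    push Not at hcon
    apply hv0
    apply ext_inner_basis γ
    intro i
    rw [hcon i, inner_zero_right]
  obtain ⟨i, hi⟩ := this
  obtain ⟨q, hq⟩ := mem_dualL.mp hv i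
  have hq0 : q ≠ 0 := by
    rintro rfl
    apply hi
    rw [hq]
    simp
  have h1 : (1 : ℝ) ≤ |⟪γ i, v⟫_ℝ| := by
    rw [hq, ← Int.cast_abs]
    exact_mod_cast Int.one_le_abs hq0
  have h2 : |⟪γ i, v⟫_ℝ| ≤ ‖γ i‖ * ‖v‖ := abs_real_inner_le_norm _ _
  have h3 : ‖γ i‖ ≤ ∑ i, ‖γ i‖ + 1 := by
    have := Finset.single_le_sum (f := fun i => ‖γ i‖) (fun i _ => norm_nonneg _)
      (Finset.mem_univ i)
    linarith
  have h4 : 0 ≤ ‖v‖ := norm_nonneg v
  rw [inv_le_iff_one_le_mul₀ (by positivity)]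
  calc (1 : ℝ) ≤ ‖γ i‖ * ‖v‖ := h1.trans h2
    _ ≤ (∑ i, ‖γ i‖ + 1) * ‖v‖ := mul_le_mul_of_nonneg_right h3 h4
    _ = ‖v‖ * (∑ i, ‖γ i‖ + 1) := mul_comm _ _

theorem Lj_discrete (γ : Basis (Fin n) ℝ E) (B : E ≃L[ℝ] E) (j : ℤ) :
    ∃ ε : ℝ, 0 < ε ∧ ∀ v ∈ Lj γ B j, v ≠ 0 → ε ≤ ‖v‖ := by
  obtain ⟨ε, hε, h⟩ := dualL_discrete γ
  refine ⟨ε / (‖((B ^ (-j) : E ≃L[ℝ] E) : E →L[ℝ] E)‖ + 1), by positivity, fun v hv hv0 => ?_⟩
  have h1 := h _ (mem_Lj.mp hv) (by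
    intro h0
    apply hv0
    have := congrArg (B ^ j) h0
    rwa [zpow_apply_neg', map_zero] at this)
  have h2 : ‖(B ^ (-j)) v‖ ≤ ‖((B ^ (-j) : E ≃L[ℝ] E) : E →L[ℝ] E)‖ * ‖v‖ :=
    ContinuousLinearMap.le_opNorm ((B ^ (-j) : E ≃L[ℝ] E) : E →L[ℝ] E) v
  rw [div_le_iff₀ (by positivity)]
  have h4 : 0 ≤ ‖v‖ := norm_nonneg v
  nlinarith

theorem Lj_discrete_finite (γ : Basis (Fin n) ℝ E) (B : E ≃L[ℝ] E) (s : Finset ℤ) :
    ∃ ε : ℝ, 0 < ε ∧ ∀ j ∈ s, ∀ v ∈ Lj γ B j, v ≠ 0 → ε ≤ ‖v‖ := by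
  classical
  induction s using Finset.induction_on with
  | empty => exact ⟨1, one_pos, by simp⟩
  | insert a s ha ih =>
    obtain ⟨ε, hε, h⟩ := ih
    obtain ⟨ε', hε', h'⟩ := Lj_discrete γ B a
    refine ⟨min ε ε', lt_min hε hε', fun j hj v hv hv0 => ?_⟩
    rcases Finset.mem_insert.mp hj with rfl | hj
    · exact (min_le_right _ _).trans (h' v hv hv0)
    · exact (min_le_left _ _).trans (h j hj v hv hv0)

theorem isPackAt_of_ball {j : ℤ} {ε : ℝ} (h : ∀ v ∈ Lj γ B j, v ≠ 0 → ε ≤ ‖v‖) {x₀ : E}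
    {D : Set E} (hD : D ⊆ Metric.ball x₀ (ε / 2)) : IsPackAt γ B j D := by
  intro x hx y hy hxy
  by_contra hne
  have h1 := h _ hxy (sub_ne_zero.mpr (Ne.symm hne))
  have h2 := hD hx
  have h3 := hD hy
  rw [Metric.mem_ball] at h2 h3
  have h4 := dist_triangle_right y x x₀
  rw [dist_eq_norm] at h4
  linarith

theorem indicator_memLp {D : Set E} (hD : MeasurableSet D) (hDt : volume D ≠ ⊤) :
    MemLp (D.indicator (fun _ => (1 : ℂ))) 2 (volume : Measure E) :=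
  memLp_indicator_const 2 hD 1 (Or.inr hDt)

theorem lintegral_indicator_sq {D : Set E} (hD : MeasurableSet D) :
    ∫⁻ x, ‖D.indicator (fun _ => (1 : ℂ)) x‖ₑ ^ 2 = volume D := by
  have h1 : ∀ x, ‖D.indicator (fun _ => (1 : ℂ)) x‖ₑ ^ 2 = D.indicator (fun _ => (1 : ℝ≥0∞)) x := by
    intro x
    by_cases hx : x ∈ D
    · rw [Set.indicator_of_mem hx, Set.indicator_of_mem hx]
      simp
    · rw [Set.indicator_of_notMem hx, Set.indicator_of_notMem hx]
      simp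
  simp only [h1]
  rw [lintegral_indicator hD, setLIntegral_one]

theorem energy_finset (h : IsONB (volume : Measure E) (fam γ B φ)) {D : Set E}
    (hD : MeasurableSet D) (hDt : volume D ≠ ⊤) (s : Finset ℤ)
    (hp : ∀ j ∈ s, IsPackAt γ B j D) :
    volume (Q0 γ) * ∑ j ∈ s, ∫⁻ x in D, ‖φ ((B ^ (-j)) x)‖ₑ ^ 2 ≤ volume D := by
  have h1 := h.parseval (indicator_memLp hD hDt)
  rw [lintegral_indicator_sq hD, ENNReal.tsum_prod'] at h1
  rw [← h1, Finset.mul_sum]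
  calc ∑ j ∈ s, volume (Q0 γ) * ∫⁻ x in D, ‖φ ((B ^ (-j)) x)‖ₑ ^ 2
      = ∑ j ∈ s, ∑' k : Fin n → ℤ,
        ‖∫ x, conj (fam γ B φ (j, k) x) * D.indicator (fun _ => (1 : ℂ)) x‖ₑ ^ 2 := by
        apply Finset.sum_congr rfl
        intro j hj
        rw [scale_energy (memLp_of_isONB h) hD j (hp j hj)]
    _ ≤ _ := ENNReal.sum_le_tsum s

/-- upper Calderon inequality -/
theorem upper_calderon (h : IsONB (volume : Measure E) (fam γ B φ)) (hφm : Measurable φ) :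
    ∀ᵐ x, calS B φ x ≤ (volume (Q0 γ))⁻¹ := by
  obtain ⟨-, hv0, hvt⟩ := map_coordT γ
  have hterm : ∀ j : ℤ, Measurable fun x => ‖φ ((B ^ (-j)) x)‖ₑ ^ 2 := fun j =>
    (hφm.comp (B ^ (-j)).continuous.measurable).enorm.pow_const 2
  have key : ∀ s : Finset ℤ, ∀ᵐ x, ∑ j ∈ s, ‖φ ((B ^ (-j)) x)‖ₑ ^ 2 ≤ (volume (Q0 γ))⁻¹ := by
    intro s
    rw [ae_iff]
    have hgm : Measurable fun x => ∑ j ∈ s, ‖φ ((B ^ (-j)) x)‖ₑ ^ 2 :=
      Finset.measurable_sum s fun j _ => hterm j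
    set g : E → ℝ≥0∞ := fun x => ∑ j ∈ s, ‖φ ((B ^ (-j)) x)‖ₑ ^ 2 with hg
    set Bad : Set E := {x | ¬ g x ≤ (volume (Q0 γ))⁻¹} with hBad
    have hBadm : MeasurableSet Bad := (measurableSet_le hgm measurable_const).compl
    obtain ⟨ε, hε, hdisc⟩ := Lj_discrete_finite γ B s
    apply measure_null_of_locally_null
    intro x _
    refine ⟨Bad ∩ Metric.ball x (ε / 2), ?_, ?_⟩
    · exact inter_mem_nhdsWithin _ (Metric.ball_mem_nhds x (by positivity))
    · set D := Bad ∩ Metric.ball x (ε / 2) with hDdef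
      have hDm : MeasurableSet D := hBadm.inter measurableSet_ball
      have hDt : volume D ≠ ⊤ :=
        ((measure_mono Set.inter_subset_right).trans_lt measure_ball_lt_top).ne
      have h1 := energy_finset h hDm hDt s (fun j hj =>
        isPackAt_of_ball (hdisc j hj) (x₀ := x) Set.inter_subset_right)
      have h2 : ∫⁻ x in D, g x ≤ (volume (Q0 γ))⁻¹ * volume D := by
        have h3 : ∫⁻ x in D, g x = ∑ j ∈ s, ∫⁻ x in D, ‖φ ((B ^ (-j)) x)‖ₑ ^ 2 :=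
          lintegral_finsetSum s fun j _ => hterm j
        rw [h3]
        calc ∑ j ∈ s, ∫⁻ x in D, ‖φ ((B ^ (-j)) x)‖ₑ ^ 2
            = (volume (Q0 γ))⁻¹ * (volume (Q0 γ) *
              ∑ j ∈ s, ∫⁻ x in D, ‖φ ((B ^ (-j)) x)‖ₑ ^ 2) := by
              rw [← mul_assoc, ENNReal.inv_mul_cancel hv0 hvt, one_mul]
          _ ≤ _ := by gcongr
      by_contra hne
      have hlt : (volume (Q0 γ))⁻¹ * volume D < ∫⁻ x in D, g x := by
        rw [← setLIntegral_const]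
        apply setLIntegral_strict_mono hDm hne hgm
        · rw [setLIntegral_const]
          exact ENNReal.mul_ne_top (ENNReal.inv_ne_top.mpr hv0) hDt
        · filter_upwards with y hy
          exact not_le.mp hy.1
      exact absurd h2 (not_le.mpr hlt)
  have h2 : ∀ᵐ x, ∀ s : Finset ℤ, ∑ j ∈ s, ‖φ ((B ^ (-j)) x)‖ₑ ^ 2 ≤ (volume (Q0 γ))⁻¹ :=
    ae_all_iff.mpr key
  filter_upwards [h2] with x hx
  unfold calS
  rw [ENNReal.tsum_eq_iSup_sum]
  exact iSup_le hx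

/-- the lattices at all scales have no short vectors -/
def NoShort (γ : Basis (Fin n) ℝ E) (B : E ≃L[ℝ] E) : Prop :=
  ∃ ε : ℝ, 0 < ε ∧ ∀ j : ℤ, ∀ v ∈ Lj γ B j, v ≠ 0 → ε ≤ ‖v‖

theorem lower_of_noShort (h : IsONB (volume : Measure E) (fam γ B φ)) (hφm : Measurable φ)
    (hSV : NoShort γ B) : ∀ᵐ x, (volume (Q0 γ))⁻¹ ≤ calS B φ x := by
  obtain ⟨-, hv0, hvt⟩ := map_coordT γ
  obtain ⟨ε, hε, hdisc⟩ := hSV
  have hgm : Measurable (calS B φ) := measurable_calS hφm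
  have hterm : ∀ j : ℤ, Measurable fun x => ‖φ ((B ^ (-j)) x)‖ₑ ^ 2 := fun j =>
    (hφm.comp (B ^ (-j)).continuous.measurable).enorm.pow_const 2
  rw [ae_iff]
  set Bad : Set E := {x | ¬ (volume (Q0 γ))⁻¹ ≤ calS B φ x} with hBad
  have hBadm : MeasurableSet Bad := (measurableSet_le measurable_const hgm).compl
  apply measure_null_of_locally_null
  intro x _
  refine ⟨Bad ∩ Metric.ball x (ε / 2), ?_, ?_⟩
  · exact inter_mem_nhdsWithin _ (Metric.ball_mem_nhds x (by positivity))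
  · set D := Bad ∩ Metric.ball x (ε / 2) with hDdef
    have hDm : MeasurableSet D := hBadm.inter measurableSet_ball
    have hDt : volume D ≠ ⊤ :=
      ((measure_mono Set.inter_subset_right).trans_lt measure_ball_lt_top).ne
    have h1 := h.parseval (indicator_memLp hDm hDt)
    rw [lintegral_indicator_sq hDm, ENNReal.tsum_prod'] at h1
    have h2 : ∀ j : ℤ, ∑' k : Fin n → ℤ,
        ‖∫ x, conj (fam γ B φ (j, k) x) * D.indicator (fun _ => (1 : ℂ)) x‖ₑ ^ 2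
        = volume (Q0 γ) * ∫⁻ x in D, ‖φ ((B ^ (-j)) x)‖ₑ ^ 2 := fun j =>
      scale_energy (memLp_of_isONB h) hDm j
        (isPackAt_of_ball (hdisc j) (x₀ := x) Set.inter_subset_right)
    simp only [h2] at h1
    rw [ENNReal.tsum_mul_left, ← lintegral_tsum (fun j => (hterm j).aemeasurable)] at h1
    change volume (Q0 γ) * ∫⁻ x in D, calS B φ x = volume D at h1
    by_contra hne
    have hlt : ∫⁻ x in D, calS B φ x < ∫⁻ _ in D, (volume (Q0 γ))⁻¹ := by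
      apply setLIntegral_strict_mono hDm hne measurable_const
      · intro htop
        rw [htop, ENNReal.mul_top hv0] at h1
        exact hDt h1.symm
      · filter_upwards with y hy
        exact not_le.mp hy.1
    rw [setLIntegral_const] at hlt
    have h3 : volume D < volume D := by
      calc volume D = volume (Q0 γ) * ∫⁻ x in D, calS B φ x := h1.symm
        _ < volume (Q0 γ) * ((volume (Q0 γ))⁻¹ * volume D) :=
            (ENNReal.mul_lt_mul_iff_right hv0 hvt).mpr hlt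
        _ = volume D := by rw [← mul_assoc, ENNReal.mul_inv_cancel hv0 hvt, one_mul]
    exact lt_irrefl _ h3

end Pool.Agent.Lib_helper44
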