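import Mathlib
import Pool.Agent.Lib_helper44.Removal
import Pool.Agent.Lib_helper44.Upper

open MeasureTheory Filter Topology Complex Module
open scoped ENNReal NNReal ComplexConjugate InnerProductSpace

set_option linter.unusedSectionVars false

namespace Pool.Agent.Lib_helper44

variable {E : Type*} [NormedAddCommGroup E] [InnerProductSpace ℝ E] [FiniteDimensional ℝ E]
  [MeasurableSpace E] [BorelSpace E] {n : ℕ}
variable {γ : Basis (Fin n) ℝ E} {B : E ≃L[ℝ] E} {φ : E → ℂ}

theorem exists_lam_finset (γ : Basis (Fin n) ℝ E) {D : Set E} {R : ℝ} (hD : ∀ x ∈ D, ‖x‖ ≤ R) :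
    ∃ Fs : Finset E, (∀ v ∈ Fs, v ∈ dualL γ) ∧ ∀ x ∈ D, lamv γ 0 x ∈ Fs := by
  classical
  set M : ℤ := ⌈(∑ i, ‖γ i‖) * R⌉ + 1 with hM
  let G : (Fin n → ℤ) → E := fun q => (coordT γ).symm (fun i => (q i : ℝ))
  refine ⟨(Fintype.piFinset (fun _ : Fin n => Finset.Icc (-M) M)).image G, ?_, ?_⟩
  · intro v hv
    obtain ⟨q, -, rfl⟩ := Finset.mem_image.mp hv
    intro i
    refine ⟨q i, ?_⟩
    rw [← coordT_apply]
    simp only [G]
    rw [ContinuousLinearEquiv.apply_symm_apply]
  · intro x hx
    refine Finset.mem_image.mpr ⟨fun i => ⌊⟪γ i, x⟫_ℝ⌋ - (0 : Fin n → ℤ) i, ?_, rfl⟩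
    rw [Fintype.mem_piFinset]
    intro i
    have h1 : |⟪γ i, x⟫_ℝ| ≤ (∑ i, ‖γ i‖) * R := by
      have h2 : |⟪γ i, x⟫_ℝ| ≤ ‖γ i‖ * ‖x‖ := abs_real_inner_le_norm _ _
      have h3 : ‖γ i‖ ≤ ∑ i, ‖γ i‖ :=
        Finset.single_le_sum (f := fun i => ‖γ i‖) (fun i _ => norm_nonneg _) (Finset.mem_univ i)
      have h4 := hD x hx
      have h5 : 0 ≤ ‖x‖ := norm_nonneg x
      have h6 : 0 ≤ ‖γ i‖ := norm_nonneg _
      nlinarith
    have h7 := Int.le_ceil ((∑ i, ‖γ i‖) * R)
    rw [abs_le] at h1
    rw [Finset.mem_Icc]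
    simp only [Pi.zero_apply, sub_zero]
    constructor
    · rw [hM]
      apply Int.le_floor.mpr
      push_cast
      linarith [h1.1]
    · have h8 : ((⌊⟪γ i, x⟫_ℝ⌋ : ℤ) : ℝ) ≤ M := by
        refine (Int.floor_le _).trans ?_
        rw [hM]
        push_cast
        linarith [h1.2]
      exact_mod_cast h8

theorem integral_cells (γ : Basis (Fin n) ℝ E) {g : E → ℂ} (hg : Integrable g)
    {Fs : Finset E} (hFs : ∀ v ∈ Fs, v ∈ dualL γ) (hlam : ∀ x, g x ≠ 0 → lamv γ 0 x ∈ Fs) :
    ∫ x, g x = ∑ v ∈ Fs, ∫ x in Q0 γ, g (x + v) := by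
  classical
  have hm : ∀ v : E, MeasurableSet {x | lamv γ 0 x = v} := fun v =>
    measurable_lamv γ 0 (measurableSet_singleton v)
  have h1 : ∀ x, g x = ∑ v ∈ Fs, {x | lamv γ 0 x = v}.indicator g x := by
    intro x
    by_cases hx : g x = 0
    · rw [hx]
      symm
      apply Finset.sum_eq_zero
      intro v _
      by_cases hv : x ∈ {x | lamv γ 0 x = v}
      · rw [Set.indicator_of_mem hv, hx]
      · rw [Set.indicator_of_notMem hv]
    · rw [Finset.sum_eq_single_of_mem (lamv γ 0 x) (hlam x hx)]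
      · rw [Set.indicator_of_mem (by exact rfl)]
      · intro v _ hv
        rw [Set.indicator_of_notMem]
        intro h
        exact hv (h : lamv γ 0 x = v).symm
  have h2 : ∫ x, g x = ∫ x, ∑ v ∈ Fs, {x | lamv γ 0 x = v}.indicator g x := by
    apply integral_congr_ae
    filter_upwards with x
    exact h1 x
  rw [h2, integral_finsetSum Fs (fun v _ => hg.indicator (hm v))]
  apply Finset.sum_congr rfl
  intro v hv
  rw [← integral_add_right_eq_self (μ := (volume : Measure E)) _ v, ← integral_indicator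
    (measurableSet_Q0 γ)]
  apply integral_congr_ae
  filter_upwards with x
  have hiff : x + v ∈ {x | lamv γ 0 x = v} ↔ x ∈ Q0 γ := by
    change lamv γ 0 (x + v) = v ↔ lamv γ 0 x = 0
    rw [lamv_add γ 0 x (hFs v hv)]
    constructor
    · intro h
      have := congrArg (fun z => z - v) h
      simpa using this
    · intro h
      rw [h, zero_add]
  by_cases hx : x ∈ Q0 γ
  · rw [Set.indicator_of_mem (hiff.mpr hx), Set.indicator_of_mem hx]
  · rw [Set.indicator_of_notMem (fun h => hx (hiff.mp h)), Set.indicator_of_notMem hx]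

/-- coefficients of nonnegative trigonometric polynomials are bounded by the mean -/
theorem NN.coeff_le {P : TP E} (hP : NN P) (m : E) : ‖P.coeff m‖ ≤ (mn P).re := by
  classical
  -- choose the unimodular constant
  rcases eq_or_ne (P.coeff m) 0 with h0 | h0
  · rw [h0, norm_zero]
    exact hP.mn_nonneg
  set c : ℂ := conj (P.coeff m) / ‖P.coeff m‖ with hc
  have hnorm : ‖P.coeff m‖ ≠ 0 := norm_ne_zero_iff.mpr h0
  have hcn : ‖c‖ = 1 := by
    rw [hc, norm_div, RCLike.norm_conj, Complex.norm_real, norm_norm, div_self hnorm]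
  have hcP : c * P.coeff m = ‖P.coeff m‖ := by
    rw [hc, div_mul_eq_mul_div, ← Complex.normSq_eq_conj_mul_self, Complex.normSq_eq_norm_sq]
    have : (‖P.coeff m‖ : ℂ) ≠ 0 := by exact_mod_cast hnorm
    field_simp
    push_cast
    ring
  set R : TP E := cst 1 - AddMonoidAlgebra.single (-m) c with hR
  have h1 : 0 ≤ (mn (P * R)).re := by
    apply mn_re_nonneg
    intro x
    rw [map_mul, Complex.mul_re, (hP x).1, zero_mul, sub_zero]
    apply mul_nonneg (hP x).2
    rw [hR, map_sub, ev_cst, ev_single, Complex.sub_re, Complex.ofReal_re]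
    have h2 := Complex.re_le_norm (c * ee (⟪x, -m⟫_ℝ))
    rw [norm_mul, hcn, norm_ee, mul_one] at h2
    linarith
  have h3 : mn (P * R) = mn P - c * P.coeff m := by
    rw [hR, mul_sub, mn_sub]
    congr 1
    · have : (cst 1 : TP E) = 1 := by
        unfold cst
        rw [Complex.ofReal_one]
        rfl
      rw [this, mul_one]
    · unfold mn
      rw [AddMonoidAlgebra.coeff_mul_single_eq_coeff_mul m]
      · ring
      · intro m' _
        constructor
        · intro h
          exact add_neg_eq_zero.mp h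
        · rintro rfl
          exact add_neg_cancel _
  rw [h3, hcP, Complex.sub_re, Complex.ofReal_re] at h1
  linarith

/-- the energy at the scale `j` -/
noncomputable def en (γ : Basis (Fin n) ℝ E) (B : E ≃L[ℝ] E) (φ : E → ℂ) (j : ℤ) (g : E → ℂ) :
    ℝ≥0∞ := ∑' k : Fin n → ℤ, ‖∫ x, conj (fam γ B φ (j, k) x) * g x‖ₑ ^ 2

/-- the modulated indicator -/
noncomputable def mi (E₀ : Set E) (y : E) (x : E) : ℂ := E₀.indicator (fun x => ee (⟪y, x⟫_ℝ)) x

theorem exists_energyTP (hφ : MemLp φ 2 (volume : Measure E)) {E₀ : Set E}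
    (hE₀ : MeasurableSet E₀) {ρ : ℝ} (hb : ∀ x ∈ E₀, ‖x‖ ≤ ρ) (j : ℤ) :
    ∃ P : TP E, NN P ∧ (∀ x, ENNReal.ofReal (ev x P).re = en γ B φ j (mi E₀ x)) ∧
      ENNReal.ofReal (mn P).re = volume (Q0 γ) * ∫⁻ x in E₀, ‖φ ((B ^ (-j)) x)‖ₑ ^ 2 ∧
      ∀ m, P.coeff m ≠ 0 → m ∈ Lj γ B j ∧ ‖m‖ ≤ 2 * ρ := by
  classical
  obtain ⟨-, hv0, hvt⟩ := map_coordT γ
  set D' : Set E := (B ^ j) ⁻¹' E₀ with hD'
  have hD'm : MeasurableSet D' := (B ^ j).continuous.measurable hE₀
  set h : E → ℂ := D'.indicator (fun x => conj (φ x)) with hh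
  have hhL : MemLp h 2 (volume : Measure E) := hφ.star.indicator hD'm
  -- the finite set of lattice points
  obtain ⟨Fs, hFs, hlam⟩ := exists_lam_finset γ (D := D')
    (R := ‖((B ^ (-j) : E ≃L[ℝ] E) : E →L[ℝ] E)‖ * ρ) (by
      intro x hx
      have h1 := hb _ hx
      have h2 : x = ((B ^ (-j) : E ≃L[ℝ] E) : E →L[ℝ] E) ((B ^ j) x) := (zpow_apply_neg B j x).symm
      calc ‖x‖ = ‖((B ^ (-j) : E ≃L[ℝ] E) : E →L[ℝ] E) ((B ^ j) x)‖ := by rw [← h2]
        _ ≤ ‖((B ^ (-j) : E ≃L[ℝ] E) : E →L[ℝ] E)‖ * ‖(B ^ j) x‖ :=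
          ContinuousLinearMap.le_opNorm _ _
        _ ≤ _ := by gcongr)
  have hadj : (0 : ℝ) < adet B := adet_pos B
  set V := (volume (Q0 γ)).toReal with hV
  have hVpos : 0 < V := ENNReal.toReal_pos hv0 hvt
  set C : ℝ := adet B ^ j * V with hC
  have hCpos : 0 < C := mul_pos (zpow_pos hadj j) hVpos
  have hhv : ∀ v : E, MemLp (fun x => h (x + v)) 2 (volume : Measure E) := fun v =>
    hhL.comp_measurePreserving (measurePreserving_add_right (volume : Measure E) v)
  set a : E → E → ℂ := fun l m => ∫ x in Q0 γ, h (x + l) * conj (h (x + m)) with ha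
  have hint : ∀ l m : E, Integrable (fun x => h (x + l) * conj (h (x + m))) (volume : Measure E) := by
    intro l m
    have := integrable_conj_mul (hhv m) (hhv l)
    refine this.congr ?_
    filter_upwards with x
    ring
  set P : TP E := ∑ l ∈ Fs, ∑ m ∈ Fs, AddMonoidAlgebra.single ((B ^ j) (l - m)) ((C : ℂ) * a l m)
    with hP
  -- evaluation
  set G : E → E → ℂ := fun x η => ∑ l ∈ Fs, h (η + l) * ee (⟪x, (B ^ j) (η + l)⟫_ℝ) with hG
  have hevP : ∀ x, ev x P = ((C * ∫ η in Q0 γ, ‖G x η‖ ^ 2 : ℝ) : ℂ) := by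
    intro x
    rw [hP]
    simp only [map_sum, ev_single]
    rw [Complex.ofReal_mul C, ← integral_complex_ofReal]
    have h1 : ∀ η, ((‖G x η‖ ^ 2 : ℝ) : ℂ) = ∑ l ∈ Fs, ∑ m ∈ Fs,
        ee (⟪x, (B ^ j) (l - m)⟫_ℝ) * (h (η + l) * conj (h (η + m))) := by
      intro η
      rw [Complex.ofReal_pow, ← Complex.mul_conj', hG]
      simp only
      rw [map_sum, Finset.sum_mul_sum]
      apply Finset.sum_congr rfl
      intro l _
      apply Finset.sum_congr rfl
      intro m _
      rw [map_mul, conj_ee]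
      have h2 : ee (⟪x, (B ^ j) (l - m)⟫_ℝ)
          = ee (⟪x, (B ^ j) (η + l)⟫_ℝ) * ee (-⟪x, (B ^ j) (η + m)⟫_ℝ) := by
        rw [← ee_add, ← inner_neg_right, ← inner_add_right, ← map_neg, ← map_add]
        congr 3
        abel
      rw [h2]
      ring
    simp only [h1]
    rw [integral_finsetSum Fs (fun l _ => integrable_finsetSum Fs
      (fun m _ => ((hint l m).const_mul _).integrableOn)), Finset.mul_sum]
    apply Finset.sum_congr rfl
    intro l _
    rw [integral_finsetSum Fs (fun m _ => ((hint l m).const_mul _).integrableOn), Finset.mul_sum]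
    apply Finset.sum_congr rfl
    intro m _
    rw [integral_const_mul]
    simp only [ha]
    ring
  have hNN : NN P := by
    intro x
    rw [hevP]
    refine ⟨Complex.ofReal_im _, ?_⟩
    rw [Complex.ofReal_re]
    exact mul_nonneg hCpos.le (integral_nonneg fun η => by positivity)
  -- square integrability
  have hGL : ∀ x, MemLp (G x) 2 (volume : Measure E) := by
    intro x
    have h1 : G x = fun η => ∑ l ∈ Fs, h (η + l) * ee (⟪x, (B ^ j) (η + l)⟫_ℝ) := rfl
    rw [h1]
    apply memLp_finsetSum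
    intro l _
    refine (hhv l).norm.mono' ?_ ?_
    · apply (hhv l).1.mul
      apply Measurable.aestronglyMeasurable
      apply ee_continuous.measurable.comp
      exact (continuous_const.inner ((B ^ j).continuous.comp
        (continuous_id.add continuous_const))).measurable
    · filter_upwards with η
      rw [norm_mul, norm_ee, mul_one]
  refine ⟨P, hNN, ?_, ?_, ?_⟩
  · intro x
    have hcoef : ∀ k : Fin n → ℤ, ∫ ξ, conj (fam γ B φ (j, k) ξ) * mi E₀ x ξ
        = ((adet B ^ ((j : ℝ) / 2) : ℝ) : ℂ) *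
          ∫ η, ee (⟪kv γ k, η⟫_ℝ) * ((Q0 γ).indicator (G x) η) := by
      intro k
      have h3 := integral_comp_equiv (B ^ j)
        (fun ξ => conj (fam γ B φ (j, k) ξ) * mi E₀ x ξ)
      have h4 : ∀ η, conj (fam γ B φ (j, k) ((B ^ j) η)) * mi E₀ x ((B ^ j) η)
          = ((adet B ^ (-(j : ℝ) / 2) : ℝ) : ℂ) * (ee (⟪kv γ k, η⟫_ℝ) *
            (h η * ee (⟪x, (B ^ j) η⟫_ℝ))) := by
        intro η
        rw [fam_apply]
        simp only
        rw [zpow_apply_neg]
        unfold mi
        by_cases hx : (B ^ j) η ∈ E₀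
        · have hx' : η ∈ D' := hx
          simp only [hh]
          rw [Set.indicator_of_mem hx, Set.indicator_of_mem hx']
          simp only [map_mul, Complex.conj_ofReal, conj_ee, neg_neg]
          ring
        · have hx' : η ∉ D' := hx
          simp only [hh]
          rw [Set.indicator_of_notMem hx, Set.indicator_of_notMem hx', mul_zero, zero_mul,
            mul_zero, mul_zero]
      simp only [h4] at h3
      rw [integral_const_mul, adet_zpow] at h3
      have h5 : ((adet B ^ ((j : ℝ) / 2) : ℝ) : ℂ)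
          = ((adet B ^ j : ℝ) : ℂ) * ((adet B ^ (-(j : ℝ) / 2) : ℝ) : ℂ) := by
        rw [← Complex.ofReal_mul, ← Real.rpow_intCast, ← Real.rpow_add hadj]
        congr 2
        ring
      have h6 : ∫ ξ, conj (fam γ B φ (j, k) ξ) * mi E₀ x ξ
          = ((adet B ^ ((j : ℝ) / 2) : ℝ) : ℂ) *
            ∫ η, ee (⟪kv γ k, η⟫_ℝ) * (h η * ee (⟪x, (B ^ j) η⟫_ℝ)) := by
        rw [h5, mul_assoc, h3, Complex.real_smul, ← mul_assoc, ← Complex.ofReal_mul,
          mul_inv_cancel₀ (zpow_ne_zero _ hadj.ne'), Complex.ofReal_one, one_mul]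
      rw [h6]
      congr 1
      -- split into cells
      have hhint : Integrable h (volume : Measure E) := by
        have hD'b : volume D' ≠ ⊤ := by
          have h7 : D' ⊆ Metric.closedBall 0 (‖((B ^ (-j) : E ≃L[ℝ] E) : E →L[ℝ] E)‖ * ρ) := by
            intro y hy
            rw [mem_closedBall_zero_iff]
            have h1 := hb _ hy
            have h2 : y = ((B ^ (-j) : E ≃L[ℝ] E) : E →L[ℝ] E) ((B ^ j) y) :=
              (zpow_apply_neg B j y).symm
            calc ‖y‖ = ‖((B ^ (-j) : E ≃L[ℝ] E) : E →L[ℝ] E) ((B ^ j) y)‖ := by rw [← h2]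
              _ ≤ ‖((B ^ (-j) : E ≃L[ℝ] E) : E →L[ℝ] E)‖ * ‖(B ^ j) y‖ :=
                ContinuousLinearMap.le_opNorm _ _
              _ ≤ _ := by gcongr
          exact ((measure_mono h7).trans_lt measure_closedBall_lt_top).ne
        have h8 : Integrable (fun x => conj (D'.indicator (fun _ => (1 : ℂ)) x) * h x)
            (volume : Measure E) :=
          integrable_conj_mul (memLp_indicator_const 2 hD'm 1 (Or.inr hD'b)) hhL
        refine h8.congr ?_
        filter_upwards with y
        by_cases hy : y ∈ D'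
        · rw [Set.indicator_of_mem hy, map_one, one_mul]
        · simp only [hh]
          rw [Set.indicator_of_notMem hy, Set.indicator_of_notMem hy, mul_zero]
      have hgi : Integrable (fun η => ee (⟪kv γ k, η⟫_ℝ) * (h η * ee (⟪x, (B ^ j) η⟫_ℝ)))
          (volume : Measure E) := by
        refine hhint.norm.mono' ?_ ?_
        · apply AEStronglyMeasurable.mul
          · apply Measurable.aestronglyMeasurable
            exact ee_continuous.measurable.comp (continuous_const.inner continuous_id).measurable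
          · apply hhint.1.mul
            apply Measurable.aestronglyMeasurable
            apply ee_continuous.measurable.comp
            exact (continuous_const.inner (B ^ j).continuous).measurable
        · filter_upwards with η
          rw [norm_mul, norm_mul, norm_ee, norm_ee, one_mul, mul_one]
      rw [integral_cells γ hgi hFs]
      · have h9 : ∀ l ∈ Fs, ∫ η in Q0 γ, ee (⟪kv γ k, η + l⟫_ℝ) *
            (h (η + l) * ee (⟪x, (B ^ j) (η + l)⟫_ℝ))
            = ∫ η in Q0 γ, ee (⟪kv γ k, η⟫_ℝ) * (h (η + l) * ee (⟪x, (B ^ j) (η + l)⟫_ℝ)) := by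
          intro l hl
          apply integral_congr_ae
          filter_upwards with η
          rw [ee_inner_periodic γ k (hFs l hl)]
        rw [Finset.sum_congr rfl h9, ← integral_finsetSum]
        · rw [← integral_indicator (measurableSet_Q0 γ)]
          apply integral_congr_ae
          filter_upwards with η
          by_cases hη : η ∈ Q0 γ
          · rw [Set.indicator_of_mem hη, Set.indicator_of_mem hη, ← Finset.mul_sum]
          · rw [Set.indicator_of_notMem hη, Set.indicator_of_notMem hη, mul_zero]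
        · intro l hl
          have h10 := hgi.comp_add_right l
          refine (h10.congr ?_).integrableOn
          filter_upwards with η
          rw [ee_inner_periodic γ k (hFs l hl)]
      · intro η hη
        apply hlam
        by_contra hcon
        apply hη
        simp only [hh]
        rw [Set.indicator_of_notMem hcon, zero_mul, mul_zero]
    unfold en
    simp only [hcoef, enorm_mul, mul_pow]
    rw [ENNReal.tsum_mul_left, pack_parseval γ (measurableSet_Q0 γ) (isPack_Q0 γ)
      ((hGL x).indicator (measurableSet_Q0 γ)) (fun η hη => Set.indicator_of_notMem hη _)]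
    have h6 : ‖((adet B ^ ((j : ℝ) / 2) : ℝ) : ℂ)‖ₑ ^ 2 = ENNReal.ofReal (adet B ^ j) := by
      rw [enorm_sq_eq, Complex.norm_real, Real.norm_of_nonneg (Real.rpow_nonneg hadj.le _),
        ← Real.rpow_natCast, ← Real.rpow_mul hadj.le, ← Real.rpow_intCast]
      congr 2
      push_cast
      ring
    rw [h6, hevP, Complex.ofReal_re, hC, ← mul_assoc]
    have h7 : ∫⁻ η, ‖(Q0 γ).indicator (G x) η‖ₑ ^ 2
        = ENNReal.ofReal (∫ η in Q0 γ, ‖G x η‖ ^ 2) := by
      rw [ofReal_integral_eq_lintegral_ofReal]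
      · rw [← lintegral_indicator (measurableSet_Q0 γ)]
        apply lintegral_congr
        intro η
        by_cases hη : η ∈ Q0 γ
        · rw [Set.indicator_of_mem hη, Set.indicator_of_mem hη, enorm_sq_eq]
        · rw [Set.indicator_of_notMem hη, Set.indicator_of_notMem hη]
          simp
      · exact ((hGL x).integrable_norm_pow two_ne_zero).integrableOn
      · filter_upwards with η
        positivity
    rw [h7, ENNReal.ofReal_mul (by positivity), ENNReal.ofReal_mul (by positivity), hV,
      ENNReal.ofReal_toReal hvt]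
  · -- the mean
    have hmn : mn P = ((C * ∫ η, ‖h η‖ ^ 2 : ℝ) : ℂ) := by
      rw [hP, mn_sum]
      have h1 : ∀ l ∈ Fs, mn (∑ m ∈ Fs, AddMonoidAlgebra.single ((B ^ j) (l - m))
          ((C : ℂ) * a l m)) = (C : ℂ) * a l l := by
        intro l hl
        rw [mn_sum, Finset.sum_eq_single_of_mem l hl]
        · rw [mn_single, sub_self, map_zero, if_pos rfl]
        · intro m _ hm
          rw [mn_single, if_neg]
          intro hcon
          apply hm
          have := (B ^ j).injective (hcon.trans (map_zero (B ^ j)).symm)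
          exact (sub_eq_zero.mp this).symm
      rw [Finset.sum_congr rfl h1, ← Finset.mul_sum, Complex.ofReal_mul C,
        ← integral_complex_ofReal]
      congr 1
      have h2 : Integrable (fun η => ((‖h η‖ ^ 2 : ℝ) : ℂ)) (volume : Measure E) := by
        exact (hhL.integrable_norm_pow two_ne_zero).ofReal
      rw [integral_cells γ h2 hFs]
      · apply Finset.sum_congr rfl
        intro l _
        simp only [ha]
        apply integral_congr_ae
        filter_upwards with η
        rw [Complex.mul_conj', Complex.ofReal_pow]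
      · intro η hη
        apply hlam
        by_contra hcon
        apply hη
        simp only [hh]
        rw [Set.indicator_of_notMem hcon]
        simp
    rw [hmn, Complex.ofReal_re, hC, mul_assoc, ENNReal.ofReal_mul (by positivity),
      ENNReal.ofReal_mul hVpos.le, hV, ENNReal.ofReal_toReal hvt]
    have h7 := lintegral_comp_equiv (B ^ j) (E₀.indicator fun x => ‖φ ((B ^ (-j)) x)‖ₑ ^ 2)
    rw [lintegral_indicator hE₀] at h7
    have h8 : ∀ x, E₀.indicator (fun x => ‖φ ((B ^ (-j)) x)‖ₑ ^ 2) ((B ^ j) x) = ‖h x‖ₑ ^ 2 := by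
      intro x
      by_cases hx : (B ^ j) x ∈ E₀
      · have hx' : x ∈ D' := hx
        simp only [hh]
        rw [Set.indicator_of_mem hx, Set.indicator_of_mem hx', zpow_apply_neg, ← ofReal_norm,
          ← ofReal_norm, RCLike.norm_conj]
      · have hx' : x ∉ D' := hx
        simp only [hh]
        rw [Set.indicator_of_notMem hx, Set.indicator_of_notMem hx']
        simp
    simp only [h8] at h7
    have h9 : ENNReal.ofReal (∫ η, ‖h η‖ ^ 2) = ∫⁻ η, ‖h η‖ₑ ^ 2 := by
      rw [ofReal_integral_eq_lintegral_ofReal]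
      · apply lintegral_congr
        intro η
        rw [enorm_sq_eq]
      · exact hhL.integrable_norm_pow two_ne_zero
      · filter_upwards with η
        positivity
    have h10 : ENNReal.ofReal (adet B ^ j) * ENNReal.ofReal (adet B ^ j)⁻¹ = 1 := by
      rw [← ENNReal.ofReal_mul (zpow_pos hadj j).le, mul_inv_cancel₀ (zpow_ne_zero _ hadj.ne'),
        ENNReal.ofReal_one]
    rw [h9, h7, adet_zpow]
    calc ENNReal.ofReal (adet B ^ j) * (volume (Q0 γ) * (ENNReal.ofReal (adet B ^ j)⁻¹ *
          ∫⁻ x in E₀, ‖φ ((B ^ (-j)) x)‖ₑ ^ 2))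
        = (ENNReal.ofReal (adet B ^ j) * ENNReal.ofReal (adet B ^ j)⁻¹) * (volume (Q0 γ) *
          ∫⁻ x in E₀, ‖φ ((B ^ (-j)) x)‖ₑ ^ 2) := by ring
      _ = _ := by rw [h10, one_mul]
  · -- the support
    intro m hm
    have h1 : ∃ l ∈ Fs, ∃ l' ∈ Fs, (B ^ j) (l - l') = m ∧ a l l' ≠ 0 := by
      by_contra hcon
      push Not at hcon
      apply hm
      rw [hP]
      simp only [AddMonoidAlgebra.coeff_sum, Finsupp.finsetSum_apply,
        AddMonoidAlgebra.coeff_single]
      apply Finset.sum_eq_zero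
      intro l hl
      apply Finset.sum_eq_zero
      intro l' hl'
      rw [Finsupp.single_apply]
      split_ifs with h2
      · rw [hcon l hl l' hl' h2, mul_zero]
      · rfl
    obtain ⟨l, hl, l', hl', hml, hall'⟩ := h1
    constructor
    · rw [← hml, mem_Lj, zpow_apply_neg]
      exact (dualL γ).sub_mem (hFs l hl) (hFs l' hl')
    · have h2 : ∃ η, h (η + l) * conj (h (η + l')) ≠ 0 := by
        by_contra hcon
        push Not at hcon
        apply hall'
        simp only [ha, hcon, integral_zero]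
      obtain ⟨η, hη⟩ := h2
      have h3 : η + l ∈ D' := by
        by_contra hcon
        apply hη
        simp only [hh]
        rw [Set.indicator_of_notMem hcon, zero_mul]
      have h4 : η + l' ∈ D' := by
        by_contra hcon
        apply hη
        simp only [hh]
        rw [Set.indicator_of_notMem hcon, map_zero, mul_zero]
      have h5 := hb _ h3
      have h6 := hb _ h4
      have h7 : m = (B ^ j) (η + l) - (B ^ j) (η + l') := by
        rw [← hml, ← map_sub]
        congr 1
        abel
      rw [h7]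
      calc ‖(B ^ j) (η + l) - (B ^ j) (η + l')‖ ≤ ‖(B ^ j) (η + l)‖ + ‖(B ^ j) (η + l')‖ :=
            norm_sub_le _ _
        _ ≤ 2 * ρ := by linarith

end Pool.Agent.Lib_helper44
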