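import Mathlib
import Pool.Agent.Lib_helper44.EnergyTP

open MeasureTheory Filter Topology Complex Module
open scoped ENNReal NNReal ComplexConjugate InnerProductSpace

set_option linter.unusedSectionVars false

namespace Pool.Agent.Lib_helper44

variable {E : Type*} [NormedAddCommGroup E] [InnerProductSpace ℝ E] [FiniteDimensional ℝ E]
  [MeasurableSpace E] [BorelSpace E] {n : ℕ}
variable {γ : Basis (Fin n) ℝ E} {B : E ≃L[ℝ] E} {φ : E → ℂ}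

theorem enorm_add_sq_le (a b : ℂ) : ‖a + b‖ₑ ^ 2 ≤ 2 * ‖a‖ₑ ^ 2 + 2 * ‖b‖ₑ ^ 2 := by
  have h1 : ‖a + b‖ ^ 2 ≤ 2 * ‖a‖ ^ 2 + 2 * ‖b‖ ^ 2 := by
    have := norm_add_le a b
    nlinarith [sq_nonneg (‖a‖ - ‖b‖), norm_nonneg a, norm_nonneg b, norm_nonneg (a + b)]
  rw [enorm_sq_eq, enorm_sq_eq, enorm_sq_eq]
  calc ENNReal.ofReal (‖a + b‖ ^ 2) ≤ ENNReal.ofReal (2 * ‖a‖ ^ 2 + 2 * ‖b‖ ^ 2) :=
        ENNReal.ofReal_le_ofReal h1
    _ = _ := by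
      rw [ENNReal.ofReal_add (by positivity) (by positivity), ENNReal.ofReal_mul (by norm_num),
        ENNReal.ofReal_mul (by norm_num)]
      norm_num

theorem enorm_sum_sq_le {ι : Type*} (s : Finset ι) (f : ι → ℂ) :
    ‖∑ i ∈ s, f i‖ₑ ^ 2 ≤ (s.card : ℝ≥0∞) * ∑ i ∈ s, ‖f i‖ₑ ^ 2 := by
  have h1 : ‖∑ i ∈ s, f i‖ ^ 2 ≤ s.card * ∑ i ∈ s, ‖f i‖ ^ 2 := by
    have h2 : ‖∑ i ∈ s, f i‖ ≤ ∑ i ∈ s, ‖f i‖ := norm_sum_le _ _
    calc ‖∑ i ∈ s, f i‖ ^ 2 ≤ (∑ i ∈ s, ‖f i‖) ^ 2 := by gcongr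
      _ ≤ s.card * ∑ i ∈ s, ‖f i‖ ^ 2 := sq_sum_le_card_mul_sum_sq
  rw [enorm_sq_eq]
  calc ENNReal.ofReal (‖∑ i ∈ s, f i‖ ^ 2) ≤ ENNReal.ofReal (s.card * ∑ i ∈ s, ‖f i‖ ^ 2) :=
        ENNReal.ofReal_le_ofReal h1
    _ = _ := by
      rw [ENNReal.ofReal_mul (by positivity), ENNReal.ofReal_natCast,
        ENNReal.ofReal_sum_of_nonneg (fun i _ => by positivity)]
      simp only [enorm_sq_eq]

theorem en_add_le (h : IsONB (volume : Measure E) (fam γ B φ)) (j : ℤ) {f g : E → ℂ}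
    (hf : MemLp f 2 (volume : Measure E)) (hg : MemLp g 2 (volume : Measure E)) :
    en γ B φ j (fun x => f x + g x) ≤ 2 * en γ B φ j f + 2 * en γ B φ j g := by
  unfold en
  rw [← ENNReal.tsum_mul_left, ← ENNReal.tsum_mul_left, ← ENNReal.tsum_add]
  apply ENNReal.tsum_le_tsum
  intro k
  have h1 : ∫ x, conj (fam γ B φ (j, k) x) * (f x + g x)
      = (∫ x, conj (fam γ B φ (j, k) x) * f x) + ∫ x, conj (fam γ B φ (j, k) x) * g x := by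
    rw [← integral_add (integrable_conj_mul (h.memLp _) hf) (integrable_conj_mul (h.memLp _) hg)]
    congr 1
    ext x
    ring
  rw [h1]
  exact enorm_add_sq_le _ _

theorem en_sum_le (h : IsONB (volume : Measure E) (fam γ B φ)) (j : ℤ) {ι : Type*} (s : Finset ι)
    {f : ι → E → ℂ} (hf : ∀ i ∈ s, MemLp (f i) 2 (volume : Measure E)) :
    en γ B φ j (fun x => ∑ i ∈ s, f i x) ≤ (s.card : ℝ≥0∞) * ∑ i ∈ s, en γ B φ j (f i) := by
  unfold en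
  rw [← Summable.tsum_finsetSum (fun i _ => ENNReal.summable), ← ENNReal.tsum_mul_left]
  apply ENNReal.tsum_le_tsum
  intro k
  have h1 : ∫ x, conj (fam γ B φ (j, k) x) * ∑ i ∈ s, f i x
      = ∑ i ∈ s, ∫ x, conj (fam γ B φ (j, k) x) * f i x := by
    rw [← integral_finsetSum s (fun i hi => integrable_conj_mul (h.memLp _) (hf i hi))]
    congr 1
    ext x
    rw [Finset.mul_sum]
  rw [h1]
  exact enorm_sum_sq_le _ _

theorem en_const_mul (j : ℤ) (c : ℂ) (f : E → ℂ) :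
    en γ B φ j (fun x => c * f x) = ‖c‖ₑ ^ 2 * en γ B φ j f := by
  unfold en
  rw [← ENNReal.tsum_mul_left]
  congr 1
  ext k
  rw [← mul_pow, ← enorm_mul, ← integral_const_mul]
  congr 3
  ext x
  ring

theorem en_congr (j : ℤ) {f g : E → ℂ} (hfg : f =ᵐ[volume] g) : en γ B φ j f = en γ B φ j g := by
  unfold en
  congr 1
  ext k
  congr 2
  apply integral_congr_ae
  filter_upwards [hfg] with x hx
  rw [hx]

theorem tsum_en (h : IsONB (volume : Measure E) (fam γ B φ)) {f : E → ℂ}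
    (hf : MemLp f 2 (volume : Measure E)) : ∑' j, en γ B φ j f = ∫⁻ x, ‖f x‖ₑ ^ 2 := by
  classical
  rw [← h.parseval hf, ENNReal.tsum_prod']
  rfl

theorem sum_en_le (h : IsONB (volume : Measure E) (fam γ B φ)) {f : E → ℂ}
    (hf : MemLp f 2 (volume : Measure E)) (A : Finset ℤ) :
    ∑ j ∈ A, en γ B φ j f ≤ ∫⁻ x, ‖f x‖ₑ ^ 2 := by
  rw [← tsum_en h hf]
  exact ENNReal.sum_le_tsum A

theorem en_le (h : IsONB (volume : Measure E) (fam γ B φ)) {f : E → ℂ}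
    (hf : MemLp f 2 (volume : Measure E)) (j : ℤ) :
    en γ B φ j f ≤ ∫⁻ x, ‖f x‖ₑ ^ 2 := by
  have := sum_en_le h hf {j}
  rwa [Finset.sum_singleton] at this

theorem memLp_ee_mul {f : E → ℂ} (hf : MemLp f 2 (volume : Measure E)) (y : E) :
    MemLp (fun x => ee (⟪y, x⟫_ℝ) * f x) 2 (volume : Measure E) := by
  refine hf.norm.mono' ?_ ?_
  · apply AEStronglyMeasurable.mul _ hf.1
    apply Measurable.aestronglyMeasurable
    exact ee_continuous.measurable.comp (continuous_const.inner continuous_id).measurable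
  · filter_upwards with x
    rw [norm_mul, norm_ee, one_mul]

theorem memLp_bdd_mul {f m : E → ℂ} (hf : MemLp f 2 (volume : Measure E)) (hm : Measurable m)
    {C : ℝ} (hC : ∀ x, ‖m x‖ ≤ C) : MemLp (fun x => m x * f x) 2 (volume : Measure E) := by
  refine (hf.norm.const_mul C).mono' (hm.aestronglyMeasurable.mul hf.1) ?_
  filter_upwards with x
  rw [norm_mul]
  exact mul_le_mul_of_nonneg_right (hC x) (norm_nonneg _)

/-- late energies are controlled modulo `H` -/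
def LateOK (γ : Basis (Fin n) ℝ E) (B : E ≃L[ℝ] E) (φ : E → ℂ) (S : Set ℤ) (H : AddSubgroup E)
    (g : E → ℂ) : Prop :=
  ∀ ε : ℝ≥0∞, ε ≠ 0 → ∃ (A₀ : Finset ℤ) (R : Finset E) (C : ℝ≥0), (∀ r ∈ R, r ∈ H) ∧
    ∀ (y : E) (A : Finset ℤ), (∀ j ∈ A, j ∈ S ∧ j ∉ A₀) →
      ∑ j ∈ A, en γ B φ j (fun x => ee (⟪y, x⟫_ℝ) * g x)
        ≤ ε + C * ∑ r ∈ R, ‖ee (⟪y, r⟫_ℝ) - 1‖ₑ ^ 2

theorem LateOK.congr {S : Set ℤ} {H : AddSubgroup E} {f g : E → ℂ} (hf : LateOK γ B φ S H f)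
    (hfg : f =ᵐ[volume] g) : LateOK γ B φ S H g := by
  intro ε hε
  obtain ⟨A₀, R, C, hR, hA⟩ := hf ε hε
  refine ⟨A₀, R, C, hR, fun y A hAS => ?_⟩
  rw [← Finset.sum_congr rfl (fun j _ => en_congr (γ := γ) (B := B) (φ := φ) j
    (show (fun x => ee (⟪y, x⟫_ℝ) * f x) =ᵐ[volume] fun x => ee (⟪y, x⟫_ℝ) * g x by
      filter_upwards [hfg] with x hx
      rw [hx]))]
  exact hA y A hAS

theorem LateOK.zero (S : Set ℤ) (H : AddSubgroup E) :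
    LateOK γ B φ S H (fun _ => 0) := by
  intro ε _
  refine ⟨∅, ∅, 0, by simp, fun y A _ => ?_⟩
  have : ∀ j, en γ B φ j (fun x => ee (⟪y, x⟫_ℝ) * (0 : ℂ)) = 0 := by
    intro j
    unfold en
    simp
  simp only [this]
  simp

theorem LateOK.const_mul {S : Set ℤ} {H : AddSubgroup E} {f : E → ℂ}
    (hf : LateOK γ B φ S H f) (c : ℂ) : LateOK γ B φ S H (fun x => c * f x) := by
  rcases eq_or_ne c 0 with rfl | hc
  · simp only [zero_mul]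
    exact LateOK.zero S H
  intro ε hε
  have hc0 : ‖c‖ₑ ^ 2 ≠ 0 := by simpa using hc
  have hct : ‖c‖ₑ ^ 2 ≠ ⊤ := by simp
  obtain ⟨A₀, R, C, hR, hA⟩ := hf (ε / ‖c‖ₑ ^ 2) (by
    rw [ne_eq, ENNReal.div_eq_zero_iff, not_or]
    exact ⟨hε, hct⟩)
  refine ⟨A₀, R, ‖c‖₊ ^ 2 * C, hR, fun y A hAS => ?_⟩
  have h1 : ∀ j, en γ B φ j (fun x => ee (⟪y, x⟫_ℝ) * (c * f x))
      = ‖c‖ₑ ^ 2 * en γ B φ j (fun x => ee (⟪y, x⟫_ℝ) * f x) := by
    intro j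
    rw [← en_const_mul]
    congr 1
    ext x
    ring
  simp only [h1]
  rw [← Finset.mul_sum]
  calc ‖c‖ₑ ^ 2 * ∑ j ∈ A, en γ B φ j (fun x => ee (⟪y, x⟫_ℝ) * f x)
      ≤ ‖c‖ₑ ^ 2 * (ε / ‖c‖ₑ ^ 2 + C * ∑ r ∈ R, ‖ee (⟪y, r⟫_ℝ) - 1‖ₑ ^ 2) := by
        gcongr
        exact hA y A hAS
    _ = _ := by
      rw [mul_add, ENNReal.mul_div_cancel hc0 hct, ← mul_assoc]
      congr 2

theorem LateOK.add (h : IsONB (volume : Measure E) (fam γ B φ)) {S : Set ℤ} {H : AddSubgroup E}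
    {f g : E → ℂ} (hfm : MemLp f 2 (volume : Measure E)) (hgm : MemLp g 2 (volume : Measure E))
    (hf : LateOK γ B φ S H f) (hg : LateOK γ B φ S H g) :
    LateOK γ B φ S H (fun x => f x + g x) := by
  classical
  intro ε hε
  have hε4 : ε / 4 ≠ 0 := by
    rw [ne_eq, ENNReal.div_eq_zero_iff, not_or]
    exact ⟨hε, by norm_num⟩
  obtain ⟨A₁, R₁, C₁, hR₁, hA₁⟩ := hf (ε / 4) hε4
  obtain ⟨A₂, R₂, C₂, hR₂, hA₂⟩ := hg (ε / 4) hε4
  refine ⟨A₁ ∪ A₂, R₁ ∪ R₂, 2 * C₁ + 2 * C₂, ?_, fun y A hAS => ?_⟩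
  · intro r hr
    rcases Finset.mem_union.mp hr with hr | hr
    · exact hR₁ r hr
    · exact hR₂ r hr
  have h1 : ∀ j, en γ B φ j (fun x => ee (⟪y, x⟫_ℝ) * (f x + g x))
      ≤ 2 * en γ B φ j (fun x => ee (⟪y, x⟫_ℝ) * f x)
        + 2 * en γ B φ j (fun x => ee (⟪y, x⟫_ℝ) * g x) := by
    intro j
    have := en_add_le h j (memLp_ee_mul hfm y) (memLp_ee_mul hgm y)
    simp only [mul_add]
    exact this
  have e1 := hA₁ y A (fun j hj => ⟨(hAS j hj).1, fun h2 => (hAS j hj).2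
    (Finset.mem_union_left _ h2)⟩)
  have e2 := hA₂ y A (fun j hj => ⟨(hAS j hj).1, fun h2 => (hAS j hj).2
    (Finset.mem_union_right _ h2)⟩)
  set T : ℝ≥0∞ := ∑ r ∈ R₁ ∪ R₂, ‖ee (⟪y, r⟫_ℝ) - 1‖ₑ ^ 2 with hT
  have hT1 : ∑ r ∈ R₁, ‖ee (⟪y, r⟫_ℝ) - 1‖ₑ ^ 2 ≤ T :=
    Finset.sum_le_sum_of_subset Finset.subset_union_left
  have hT2 : ∑ r ∈ R₂, ‖ee (⟪y, r⟫_ℝ) - 1‖ₑ ^ 2 ≤ T :=
    Finset.sum_le_sum_of_subset Finset.subset_union_right
  calc ∑ j ∈ A, en γ B φ j (fun x => ee (⟪y, x⟫_ℝ) * (f x + g x))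
      ≤ ∑ j ∈ A, (2 * en γ B φ j (fun x => ee (⟪y, x⟫_ℝ) * f x)
        + 2 * en γ B φ j (fun x => ee (⟪y, x⟫_ℝ) * g x)) := Finset.sum_le_sum fun j _ => h1 j
    _ = 2 * ∑ j ∈ A, en γ B φ j (fun x => ee (⟪y, x⟫_ℝ) * f x)
        + 2 * ∑ j ∈ A, en γ B φ j (fun x => ee (⟪y, x⟫_ℝ) * g x) := by
        rw [Finset.sum_add_distrib, Finset.mul_sum, Finset.mul_sum]
    _ ≤ 2 * (ε / 4 + C₁ * T) + 2 * (ε / 4 + C₂ * T) := by
        gcongr
        · exact e1.trans (by gcongr)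
        · exact e2.trans (by gcongr)
    _ = ε + ((2 * C₁ + 2 * C₂ : ℝ≥0) : ℝ≥0∞) * T := by
        have h4 : ε = 4 * (ε / 4) := (ENNReal.mul_div_cancel (by norm_num) (by norm_num)).symm
        push_cast
        conv_rhs => rw [h4]
        ring

theorem LateOK.of_approx (h : IsONB (volume : Measure E) (fam γ B φ)) {S : Set ℤ}
    {H : AddSubgroup E} {f : E → ℂ} (hfm : MemLp f 2 (volume : Measure E))
    (happ : ∀ ε : ℝ≥0∞, ε ≠ 0 → ∃ g, MemLp g 2 (volume : Measure E) ∧ LateOK γ B φ S H g ∧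
      ∫⁻ x, ‖f x - g x‖ₑ ^ 2 ≤ ε) : LateOK γ B φ S H f := by
  classical
  intro ε hε
  have hε4 : ε / 4 ≠ 0 := by
    rw [ne_eq, ENNReal.div_eq_zero_iff, not_or]
    exact ⟨hε, by norm_num⟩
  obtain ⟨g, hgm, hgL, hfg⟩ := happ (ε / 4) hε4
  obtain ⟨A₁, R₁, C₁, hR₁, hA₁⟩ := hgL (ε / 4) hε4
  refine ⟨A₁, R₁, 2 * C₁, hR₁, fun y A hAS => ?_⟩
  have hsub : MemLp (fun x => f x - g x) 2 (volume : Measure E) := hfm.sub hgm
  have h1 : ∀ j, en γ B φ j (fun x => ee (⟪y, x⟫_ℝ) * f x)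
      ≤ 2 * en γ B φ j (fun x => ee (⟪y, x⟫_ℝ) * (f x - g x))
        + 2 * en γ B φ j (fun x => ee (⟪y, x⟫_ℝ) * g x) := by
    intro j
    have := en_add_le h j (memLp_ee_mul hsub y) (memLp_ee_mul hgm y)
    refine le_trans (le_of_eq ?_) this
    congr 1
    ext x
    ring
  have e1 := sum_en_le h (memLp_ee_mul hsub y) A
  have e2 := hA₁ y A hAS
  have e3 : ∫⁻ x, ‖ee (⟪y, x⟫_ℝ) * (f x - g x)‖ₑ ^ 2 = ∫⁻ x, ‖f x - g x‖ₑ ^ 2 := by
    congr 1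
    ext x
    rw [enorm_mul, ← ofReal_norm (ee _), norm_ee, ENNReal.ofReal_one, one_mul]
  rw [e3] at e1
  calc ∑ j ∈ A, en γ B φ j (fun x => ee (⟪y, x⟫_ℝ) * f x)
      ≤ ∑ j ∈ A, (2 * en γ B φ j (fun x => ee (⟪y, x⟫_ℝ) * (f x - g x))
        + 2 * en γ B φ j (fun x => ee (⟪y, x⟫_ℝ) * g x)) := Finset.sum_le_sum fun j _ => h1 j
    _ = 2 * ∑ j ∈ A, en γ B φ j (fun x => ee (⟪y, x⟫_ℝ) * (f x - g x))
        + 2 * ∑ j ∈ A, en γ B φ j (fun x => ee (⟪y, x⟫_ℝ) * g x) := by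
        rw [Finset.sum_add_distrib, Finset.mul_sum, Finset.mul_sum]
    _ ≤ 2 * (ε / 4) + 2 * (ε / 4 + C₁ * ∑ r ∈ R₁, ‖ee (⟪y, r⟫_ℝ) - 1‖ₑ ^ 2) := by
        gcongr
        exact e1.trans hfg
    _ = ε + ((2 * C₁ : ℝ≥0) : ℝ≥0∞) * ∑ r ∈ R₁, ‖ee (⟪y, r⟫_ℝ) - 1‖ₑ ^ 2 := by
        have h4 : ε = 4 * (ε / 4) := (ENNReal.mul_div_cancel (by norm_num) (by norm_num)).symm
        push_cast
        conv_rhs => rw [h4]
        ring

/-- it suffices to treat the members of the family -/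
theorem LateOK.of_fam (h : IsONB (volume : Measure E) (fam γ B φ)) {S : Set ℤ}
    {H : AddSubgroup E} (hfam : ∀ i, LateOK γ B φ S H (fam γ B φ i)) {f : E → ℂ}
    (hfm : MemLp f 2 (volume : Measure E)) : LateOK γ B φ S H f := by
  classical
  obtain ⟨b, hb⟩ := h.exists_hilbertBasis
  have hspan : ∀ g : Lp ℂ 2 (volume : Measure E), g ∈ Submodule.span ℂ (Set.range b) →
      LateOK γ B φ S H g := by
    intro g hg
    induction hg using Submodule.span_induction with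
    | mem x hx =>
      obtain ⟨i, rfl⟩ := hx
      exact (hfam i).congr (hb i).symm
    | zero => exact (LateOK.zero S H).congr (Lp.coeFn_zero ℂ 2 volume).symm
    | add x y _ _ hx hy =>
      exact (LateOK.add h (Lp.memLp x) (Lp.memLp y) hx hy).congr (Lp.coeFn_add x y).symm
    | smul c x _ hx => exact (hx.const_mul c).congr (Lp.coeFn_smul c x).symm
  apply LateOK.of_approx h hfm
  intro ε hε
  have hdense : Dense ((Submodule.span ℂ (Set.range b) : Submodule ℂ _) :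
      Set (Lp ℂ 2 (volume : Measure E))) := by
    have := b.dense_span
    rw [Submodule.dense_iff_topologicalClosure_eq_top]
    exact this
  -- choose a real number
  set δ : ℝ≥0∞ := min ε 1 with hδ
  have hδ0 : δ ≠ 0 := by
    rw [hδ]
    simp only [ne_eq]
    intro hcon
    rcases min_eq_iff.mp hcon with ⟨h1, -⟩ | ⟨h1, -⟩
    · exact hε h1
    · exact one_ne_zero h1
  have hδt : δ ≠ ⊤ := ne_top_of_le_ne_top ENNReal.one_ne_top (min_le_right _ _)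
  have hδpos : 0 < δ.toReal := ENNReal.toReal_pos hδ0 hδt
  obtain ⟨g, hg, hdist⟩ := Metric.dense_iff.mp hdense (hfm.toLp f) (Real.sqrt δ.toReal)
    (Real.sqrt_pos.mpr hδpos)
  refine ⟨g, Lp.memLp g, hspan g hdist, ?_⟩
  have h1 : ∫⁻ x, ‖f x - g x‖ₑ ^ 2 = ‖hfm.toLp f - g‖ₑ ^ 2 := by
    have h2 := enorm_toLp_sq (Lp.memLp (hfm.toLp f - g))
    rw [Lp.toLp_coeFn] at h2
    rw [h2]
    apply lintegral_congr_ae
    filter_upwards [Lp.coeFn_sub (hfm.toLp f) g, hfm.coeFn_toLp] with x hx1 hx2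
    rw [hx1, Pi.sub_apply, hx2]
  have h3 : ‖hfm.toLp f - g‖ < Real.sqrt δ.toReal := by
    have := Metric.mem_ball.mp hg
    rwa [dist_comm, dist_eq_norm] at this
  have h4 : ‖hfm.toLp f - g‖ ^ 2 ≤ δ.toReal := by
    have h5 := Real.sq_sqrt hδpos.le
    have h6 : 0 ≤ ‖hfm.toLp f - g‖ := norm_nonneg _
    calc ‖hfm.toLp f - g‖ ^ 2 ≤ (Real.sqrt δ.toReal) ^ 2 := by gcongr
      _ = δ.toReal := h5
  rw [h1, ← ofReal_norm, ← ENNReal.ofReal_pow (norm_nonneg _)]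
  calc ENNReal.ofReal (‖hfm.toLp f - g‖ ^ 2) ≤ ENNReal.ofReal δ.toReal :=
        ENNReal.ofReal_le_ofReal h4
    _ = δ := ENNReal.ofReal_toReal hδt
    _ ≤ ε := min_le_left _ _

end Pool.Agent.Lib_helper44
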