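import Mathlib
import Pool.Agent.Lib_helper44.Late

open MeasureTheory Filter Topology Complex Module
open scoped ENNReal NNReal ComplexConjugate InnerProductSpace

set_option linter.unusedSectionVars false

namespace Pool.Agent.Lib_helper44

variable {E : Type*} [NormedAddCommGroup E] [InnerProductSpace ℝ E] [FiniteDimensional ℝ E]
  [MeasurableSpace E] [BorelSpace E] {n : ℕ}
variable {γ : Basis (Fin n) ℝ E} {B : E ≃L[ℝ] E} {φ : E → ℂ}

/-- masks -/
def msk (γ : Basis (Fin n) ℝ E) (Z : Set E) : Set E := {x | lamv γ 0 x ∈ Z}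

theorem measurableSet_msk (γ : Basis (Fin n) ℝ E) (Z : Set E) : MeasurableSet (msk γ Z) :=
  measurableSet_lamv_mem γ 0 Z

theorem orth_mask (h : IsONB (volume : Measure E) (fam γ B φ)) {j : ℤ} (hj : j ≠ 0) {Z : Set E}
    (hZ : ∀ v, v ∈ dualL γ → v ∈ Lj γ B j → ∀ z ∈ dualL γ, z ∈ Z → z + v ∈ Z)
    {m : E → ℂ} (hm : Measurable m) (hm1 : ∀ x, ‖m x‖ ≤ 1)
    (hper : ∀ x v, v ∈ dualL γ → m (x + v) = m x) (k : Fin n → ℤ) :
    ∫ x, conj (fam γ B φ (j, k) x) * (msk γ Z).indicator (fun x => m x * φ x) x = 0 := by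
  have h1 := orth_saturated h hj
    (m := fun x => (msk γ Z).indicator m x * (((adet B ^ (-(j : ℝ) / 2) : ℝ) : ℂ) *
      ee (⟪kv γ k, (B ^ (-j)) x⟫_ℝ))) ?_ (C := adet B ^ (-(j : ℝ) / 2)) ?_ ?_
  · rw [← h1]
    apply integral_congr_ae
    filter_upwards with x
    rw [fam_apply]
    by_cases hx : x ∈ msk γ Z
    · rw [Set.indicator_of_mem hx, Set.indicator_of_mem hx]
      simp only [map_mul, Complex.conj_ofReal, conj_ee, neg_neg]
      ring
    · rw [Set.indicator_of_notMem hx, Set.indicator_of_notMem hx]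
      ring
  · apply (hm.indicator (measurableSet_msk γ Z)).mul
    apply Measurable.const_mul
    exact ee_continuous.measurable.comp
      (continuous_const.inner (B ^ (-j)).continuous).measurable
  · intro x
    rw [norm_mul, norm_mul, norm_ee, mul_one, Complex.norm_real,
      Real.norm_of_nonneg (Real.rpow_nonneg (adet_pos B).le _)]
    apply mul_le_of_le_one_left (Real.rpow_nonneg (adet_pos B).le _)
    by_cases hx : x ∈ msk γ Z
    · rw [Set.indicator_of_mem hx]
      exact hm1 x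
    · rw [Set.indicator_of_notMem hx, norm_zero]
      exact zero_le_one
  · intro x v hv hvj
    rw [map_add, ee_inner_periodic γ k (mem_Lj.mp hvj)]
    congr 1
    have hiff : x + v ∈ msk γ Z ↔ x ∈ msk γ Z := by
      change lamv γ 0 (x + v) ∈ Z ↔ lamv γ 0 x ∈ Z
      rw [lamv_add γ 0 x hv]
      constructor
      · intro hz
        have h3 := hZ (-v) ((dualL γ).neg_mem hv) ((Lj γ B j).neg_mem hvj) _
          ((dualL γ).add_mem (lamv_mem γ 0 x) hv) hz
        rwa [add_neg_cancel_right] at h3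
      · exact hZ v hv hvj _ (lamv_mem γ 0 x)
    by_cases hx : x ∈ msk γ Z
    · rw [Set.indicator_of_mem hx, Set.indicator_of_mem (hiff.mpr hx), hper x v hv]
    · rw [Set.indicator_of_notMem hx, Set.indicator_of_notMem (fun h => hx (hiff.mp h))]

theorem memLp_mask (hφ : MemLp φ 2 (volume : Measure E)) (Z : Set E) {m : E → ℂ}
    (hm : Measurable m) (hm1 : ∀ x, ‖m x‖ ≤ 1) :
    MemLp ((msk γ Z).indicator (fun x => m x * φ x)) 2 (volume : Measure E) :=
  (memLp_bdd_mul hφ hm hm1).indicator (measurableSet_msk γ Z)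

theorem lintegral_mask_le (Z : Set E) {m : E → ℂ} (hm1 : ∀ x, ‖m x‖ ≤ 1) :
    ∫⁻ x, ‖(msk γ Z).indicator (fun x => m x * φ x) x‖ₑ ^ 2 ≤ ∫⁻ x in msk γ Z, ‖φ x‖ₑ ^ 2 := by
  rw [← lintegral_indicator (measurableSet_msk γ Z)]
  apply lintegral_mono
  intro x
  beta_reduce
  by_cases hx : x ∈ msk γ Z
  · rw [Set.indicator_of_mem hx, Set.indicator_of_mem hx, enorm_mul, mul_pow]
    have : ‖m x‖ₑ ≤ 1 := by
      rw [← ofReal_norm, ← ENNReal.ofReal_one]
      exact ENNReal.ofReal_le_ofReal (hm1 x)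
    calc ‖m x‖ₑ ^ 2 * ‖φ x‖ₑ ^ 2 ≤ 1 ^ 2 * ‖φ x‖ₑ ^ 2 := by gcongr
      _ = _ := by rw [one_pow, one_mul]
  · rw [Set.indicator_of_notMem hx, Set.indicator_of_notMem hx]
    simp

/-- the arithmetic hypothesis on the scales `S` and the subgroup `H` -/
def ArithOK (γ : Basis (Fin n) ℝ E) (B : E ≃L[ℝ] E) (S : Set ℤ) (H : AddSubgroup E) : Prop :=
  ∃ (X' : AddSubgroup E) (K : ℕ → AddSubgroup E) (C : ℕ),
    (∀ v ∈ dualL γ, v ∈ H → v ∈ X') ∧ Antitone K ∧ (∀ J, K J ≤ X') ∧ (∀ J, K J ≤ dualL γ) ∧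
    (∀ j ∈ S, ∀ J : ℕ, J ≤ j.natAbs → ∀ v ∈ dualL γ, v ∈ X' → v ∈ Lj γ B j → v ∈ K J) ∧
    (∀ v ∈ dualL γ, (∀ J, v ∈ (dualL γ ⊓ H) ⊔ K J) → v ∈ H) ∧
    (∀ v ∈ dualL γ, v ∉ X' →
      ({j | j ∈ S ∧ ∃ l ∈ dualL γ, l ∈ Lj γ B j ∧ v - l ∈ X'} : Set ℤ).encard ≤ C)

/-- the mass of the decreasing sets tends to zero -/
theorem mass_tendsto (hφ2 : ∫⁻ x, ‖φ x‖ₑ ^ 2 ≠ ⊤) {s : ℕ → Set E} (hs : ∀ J, MeasurableSet (s J))
    (hanti : Antitone s) (hempty : ⋂ J, s J = ∅) {ε : ℝ≥0∞} (hε : ε ≠ 0) :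
    ∃ J, ∫⁻ x in s J, ‖φ x‖ₑ ^ 2 ≤ ε := by
  set ν : Measure E := volume.withDensity (fun x => ‖φ x‖ₑ ^ 2) with hν
  have hνapp : ∀ t, MeasurableSet t → ν t = ∫⁻ x in t, ‖φ x‖ₑ ^ 2 := fun t ht =>
    withDensity_apply _ ht
  have hfin : IsFiniteMeasure ν := ⟨by
    rw [hνapp _ MeasurableSet.univ, Measure.restrict_univ]
    exact hφ2.lt_top⟩
  have hlim : Tendsto (fun J => ν (s J)) atTop (𝓝 0) := by
    have := tendsto_measure_iInter_atTop (μ := ν) (fun J => (hs J).nullMeasurableSet) hanti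
      ⟨0, measure_ne_top ν _⟩
    rw [hempty, measure_empty] at this
    exact this
  obtain ⟨J, hJ⟩ := (hlim.eventually (ge_mem_nhds (pos_iff_ne_zero.mpr hε))).exists
  exact ⟨J, by rw [← hνapp _ (hs J)]; exact hJ⟩

theorem late_piece (hφm : Measurable φ) (h : IsONB (volume : Measure E) (fam γ B φ))
    {S : Set ℤ} {H : AddSubgroup E} (hAr : ArithOK γ B S H) {b : E} (hb : b ∈ dualL γ)
    {ε : ℝ≥0∞} (hε : ε ≠ 0) :
    ∃ A₀ : Finset ℤ, ∀ m : E → ℂ, Measurable m → (∀ x, ‖m x‖ ≤ 1) →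
      (∀ x v, v ∈ dualL γ → m (x + v) = m x) → ∀ A : Finset ℤ, (∀ j ∈ A, j ∈ S ∧ j ∉ A₀) →
      ∑ j ∈ A, en γ B φ j ((msk γ {z | z - b ∈ dualL γ ⊓ H}).indicator (fun x => m x * φ x))
        ≤ ε := by
  classical
  obtain ⟨X', K, C, hHX, hKanti, hKX, hKΛ, hSK, hKH, hcount⟩ := hAr
  set R : AddSubgroup E := dualL γ ⊓ H with hR
  have hRX : R ≤ X' := fun v hv => hHX v hv.1 hv.2
  have hφ := memLp_of_isONB h
  have hφ2 : ∫⁻ x, ‖φ x‖ₑ ^ 2 ≠ ⊤ := by
    rw [lintegral_phi_sq h]
    exact ENNReal.one_ne_top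
  have hε4 : ε / 4 ≠ 0 := by
    rw [ne_eq, ENNReal.div_eq_zero_iff, not_or]
    exact ⟨hε, by norm_num⟩
  -- the first error set
  obtain ⟨J, hJ⟩ := mass_tendsto (φ := φ) hφ2
    (s := fun J => msk γ {z | z - b ∈ R ⊔ K J ∧ z - b ∉ R}) (fun J => measurableSet_msk γ _)
    (by
      intro J J' hJJ' x hx
      exact ⟨sup_le_sup_left (hKanti hJJ') R hx.1, hx.2⟩)
    (by
      ext x
      simp only [Set.mem_iInter, Set.mem_empty_iff_false, iff_false, not_forall]
      by_contra hcon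
      push Not at hcon
      have hmem : lamv γ 0 x - b ∈ dualL γ := (dualL γ).sub_mem (lamv_mem γ 0 x) hb
      apply (hcon 0).2
      exact ⟨hmem, hKH _ hmem fun J => (hcon J).1⟩) hε4
  -- the second error sets
  let T : ℤ → Set E := fun j => msk γ {z | z - b ∉ X' ∧ ∃ l ∈ dualL γ, l ∈ Lj γ B j ∧
    z - b - l ∈ X'}
  have hTm : ∀ j, MeasurableSet (T j) := fun j => measurableSet_msk γ _
  have hTsum : ∑' j : ℤ, S.indicator (fun j => ∫⁻ x in T j, ‖φ x‖ₑ ^ 2) j ≠ ⊤ := by
    have h1 : ∀ j : ℤ, S.indicator (fun j => ∫⁻ x in T j, ‖φ x‖ₑ ^ 2) j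
        = ∫⁻ x, S.indicator (fun j => (T j).indicator (fun _ => (1 : ℝ≥0∞)) x) j
          * ‖φ x‖ₑ ^ 2 := by
      intro j
      by_cases hj : j ∈ S
      · simp only [Set.indicator_of_mem hj]
        rw [← lintegral_indicator (hTm j)]
        congr 1
        ext x
        by_cases hx : x ∈ T j
        · rw [Set.indicator_of_mem hx, Set.indicator_of_mem hx, one_mul]
        · rw [Set.indicator_of_notMem hx, Set.indicator_of_notMem hx, zero_mul]
      · simp only [Set.indicator_of_notMem hj, zero_mul, lintegral_zero]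
    simp only [h1]
    have hterm : ∀ j : ℤ, Measurable (fun x => S.indicator
        (fun j => (T j).indicator (fun _ => (1 : ℝ≥0∞)) x) j) := by
      intro j
      by_cases hj : j ∈ S
      · simp only [Set.indicator_of_mem hj]
        exact measurable_const.indicator (hTm j)
      · simp only [Set.indicator_of_notMem hj]
        exact measurable_const
    rw [← lintegral_tsum (f := fun (j : ℤ) (x : E) => S.indicator
        (fun j => (T j).indicator (fun _ => (1 : ℝ≥0∞)) x) j * ‖φ x‖ₑ ^ 2)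
      (fun j => ((hterm j).mul (hφm.enorm.pow_const 2)).aemeasurable)]
    have h2 : ∀ x, ∑' j : ℤ, S.indicator (fun j => (T j).indicator (fun _ => (1 : ℝ≥0∞)) x) j
        ≤ C := by
      intro x
      by_cases hx : lamv γ 0 x - b ∈ X'
      · have h3 : ∀ j, S.indicator (fun j => (T j).indicator (fun _ => (1 : ℝ≥0∞)) x) j = 0 := by
          intro j
          by_cases hj : j ∈ S
          · rw [Set.indicator_of_mem hj, Set.indicator_of_notMem]
            exact fun hh => hh.1 hx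
          · rw [Set.indicator_of_notMem hj]
        simp only [h3, tsum_zero]
        exact zero_le
      · have h4 := hcount (lamv γ 0 x - b) ((dualL γ).sub_mem (lamv_mem γ 0 x) hb) hx
        have h5 : ∑' j : ℤ, S.indicator (fun j => (T j).indicator (fun _ => (1 : ℝ≥0∞)) x) j
            = ((({j | j ∈ S ∧ x ∈ T j} : Set ℤ).encard : ℕ∞) : ℝ≥0∞) := by
          rw [← ENNReal.tsum_set_one]
          rw [tsum_subtype ({j | j ∈ S ∧ x ∈ T j} : Set ℤ) (fun _ => (1 : ℝ≥0∞))]
          congr 1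
          ext j
          by_cases hj : j ∈ S
          · rw [Set.indicator_of_mem hj]
            by_cases hxj : x ∈ T j
            · rw [Set.indicator_of_mem hxj, Set.indicator_of_mem (by exact ⟨hj, hxj⟩)]
            · rw [Set.indicator_of_notMem hxj, Set.indicator_of_notMem (fun hh => hxj hh.2)]
          · rw [Set.indicator_of_notMem hj, Set.indicator_of_notMem (fun hh => hj hh.1)]
        rw [h5]
        have h6 : ({j | j ∈ S ∧ x ∈ T j} : Set ℤ).encard ≤ C := by
          refine (Set.encard_le_encard ?_).trans h4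
          rintro j ⟨hj, -, l, hl1, hl2, hl3⟩
          exact ⟨hj, l, hl1, hl2, hl3⟩
        exact_mod_cast h6
    refine ne_top_of_le_ne_top (ENNReal.mul_ne_top (ENNReal.natCast_ne_top C) hφ2) ?_
    rw [← lintegral_const_mul _ (hφm.enorm.pow_const 2)]
    apply lintegral_mono
    intro x
    simp only
    rw [ENNReal.tsum_mul_right]
    gcongr
    exact h2 x
  obtain ⟨A₁, hA₁⟩ : ∃ A₁ : Finset ℤ, ∑' j : {j // j ∉ A₁},
      S.indicator (fun j => ∫⁻ x in T j, ‖φ x‖ₑ ^ 2) j ≤ ε / 4 :=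
    ((ENNReal.tendsto_tsum_compl_atTop_zero hTsum).eventually
      (ge_mem_nhds (pos_iff_ne_zero.mpr hε4))).exists
  refine ⟨A₁ ∪ Finset.Icc (-(J : ℤ)) J, fun m hm hm1 hper A hAS => ?_⟩
  -- each scale
  have hscale : ∀ j ∈ A, en γ B φ j ((msk γ {z | z - b ∈ R}).indicator (fun x => m x * φ x))
      ≤ 2 * en γ B φ j ((msk γ {z | z - b ∈ R ⊔ K J ∧ z - b ∉ R}).indicator
        (fun x => m x * φ x)) + 2 * ∫⁻ x in T j, ‖φ x‖ₑ ^ 2 := by
    intro j hj
    obtain ⟨hjS, hjA⟩ := hAS j hj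
    rw [Finset.mem_union, not_or] at hjA
    have hjJ : J ≤ j.natAbs := by
      by_contra hcon
      apply hjA.2
      rw [Finset.mem_Icc]
      omega
    have hj0 : j ≠ 0 := by
      rintro rfl
      apply hjA.2
      rw [Finset.mem_Icc]
      omega
    set Z : Set E := {z | z - b ∈ (R ⊔ K J) ⊔ (dualL γ ⊓ Lj γ B j)} with hZ
    set Z2 : Set E := {z | z - b ∈ (R ⊔ K J) ⊔ (dualL γ ⊓ Lj γ B j) ∧ z - b ∉ R ⊔ K J} with hZ2
    have hZinv : ∀ v, v ∈ dualL γ → v ∈ Lj γ B j → ∀ z ∈ dualL γ, z ∈ Z → z + v ∈ Z := by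
      intro v hv hvj z _ hz
      have h1 : z + v - b = (z - b) + v := by abel
      change z + v - b ∈ (R ⊔ K J) ⊔ (dualL γ ⊓ Lj γ B j)
      rw [h1]
      exact AddSubgroup.add_mem _ hz (AddSubgroup.mem_sup_right ⟨hv, hvj⟩)
    have hZ2T : msk γ Z2 ⊆ T j := by
      intro x hx
      obtain ⟨hx1, hx2⟩ := hx
      rw [AddSubgroup.mem_sup] at hx1
      obtain ⟨p, hp, l, hl, hpl⟩ := hx1
      have hRKX : R ⊔ K J ≤ X' := sup_le hRX (hKX J)
      have hlX : l ∉ X' := by
        intro hlX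
        apply hx2
        rw [← hpl]
        exact AddSubgroup.add_mem _ hp
          (AddSubgroup.mem_sup_right (hSK j hjS J hjJ l hl.1 hlX hl.2))
      refine ⟨?_, l, hl.1, hl.2, ?_⟩
      · intro hcon
        apply hlX
        have : l = (lamv γ 0 x - b) - p := by rw [← hpl]; abel
        rw [this]
        exact X'.sub_mem hcon (hRKX hp)
      · have : lamv γ 0 x - b - l = p := by rw [← hpl]; abel
        rw [this]
        exact hRKX hp
    have hdecomp : ∀ x, (msk γ Z).indicator (fun x => m x * φ x) x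
        = (msk γ {z | z - b ∈ R}).indicator (fun x => m x * φ x) x
          + ((msk γ {z | z - b ∈ R ⊔ K J ∧ z - b ∉ R}).indicator (fun x => m x * φ x) x
          + (msk γ Z2).indicator (fun x => m x * φ x) x) := by
      intro x
      by_cases h1 : lamv γ 0 x - b ∈ R
      · have hm1 : x ∈ msk γ Z := by
          change lamv γ 0 x - b ∈ (R ⊔ K J) ⊔ (dualL γ ⊓ Lj γ B j)
          exact AddSubgroup.mem_sup_left (AddSubgroup.mem_sup_left h1)
        have hm2 : x ∈ msk γ {z | z - b ∈ R} := h1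
        have hm3 : x ∉ msk γ {z | z - b ∈ R ⊔ K J ∧ z - b ∉ R} := fun hh => hh.2 h1
        have hm4 : x ∉ msk γ Z2 := fun hh => hh.2 (AddSubgroup.mem_sup_left h1)
        rw [Set.indicator_of_mem hm1, Set.indicator_of_mem hm2, Set.indicator_of_notMem hm3,
          Set.indicator_of_notMem hm4]
        ring
      · have hm2 : x ∉ msk γ {z | z - b ∈ R} := h1
        by_cases h2 : lamv γ 0 x - b ∈ R ⊔ K J
        · have hm1 : x ∈ msk γ Z := by
            change lamv γ 0 x - b ∈ (R ⊔ K J) ⊔ (dualL γ ⊓ Lj γ B j)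
            exact AddSubgroup.mem_sup_left h2
          have hm3 : x ∈ msk γ {z | z - b ∈ R ⊔ K J ∧ z - b ∉ R} := ⟨h2, h1⟩
          have hm4 : x ∉ msk γ Z2 := fun hh => hh.2 h2
          rw [Set.indicator_of_mem hm1, Set.indicator_of_notMem hm2, Set.indicator_of_mem hm3,
            Set.indicator_of_notMem hm4]
          ring
        · have hm3 : x ∉ msk γ {z | z - b ∈ R ⊔ K J ∧ z - b ∉ R} := fun hh => h2 hh.1
          by_cases h3 : lamv γ 0 x - b ∈ (R ⊔ K J) ⊔ (dualL γ ⊓ Lj γ B j)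
          · have hm1 : x ∈ msk γ Z := h3
            have hm4 : x ∈ msk γ Z2 := ⟨h3, h2⟩
            rw [Set.indicator_of_mem hm1, Set.indicator_of_notMem hm2,
              Set.indicator_of_notMem hm3, Set.indicator_of_mem hm4]
            ring
          · have hm1 : x ∉ msk γ Z := h3
            have hm4 : x ∉ msk γ Z2 := fun hh => h3 hh.1
            rw [Set.indicator_of_notMem hm1, Set.indicator_of_notMem hm2,
              Set.indicator_of_notMem hm3, Set.indicator_of_notMem hm4]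
            ring
    have hL1 := memLp_mask (γ := γ) hφ {z | z - b ∈ R} hm hm1
    have hL2 := memLp_mask (γ := γ) hφ {z | z - b ∈ R ⊔ K J ∧ z - b ∉ R} hm hm1
    have hL3 := memLp_mask (γ := γ) hφ Z2 hm hm1
    have hL23 : MemLp (fun x => (msk γ {z | z - b ∈ R ⊔ K J ∧ z - b ∉ R}).indicator
        (fun x => m x * φ x) x + (msk γ Z2).indicator (fun x => m x * φ x) x) 2
        (volume : Measure E) := hL2.add hL3
    have hneg : en γ B φ j ((msk γ {z | z - b ∈ R}).indicator (fun x => m x * φ x))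
        = en γ B φ j (fun x => (msk γ {z | z - b ∈ R ⊔ K J ∧ z - b ∉ R}).indicator
          (fun x => m x * φ x) x + (msk γ Z2).indicator (fun x => m x * φ x) x) := by
      unfold en
      congr 1
      ext k
      have h1 := orth_mask h hj0 hZinv hm hm1 hper k
      have h2 : ∫ x, conj (fam γ B φ (j, k) x) * (msk γ Z).indicator (fun x => m x * φ x) x
          = (∫ x, conj (fam γ B φ (j, k) x) *
              (msk γ {z | z - b ∈ R}).indicator (fun x => m x * φ x) x)
            + ∫ x, conj (fam γ B φ (j, k) x) *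
              ((msk γ {z | z - b ∈ R ⊔ K J ∧ z - b ∉ R}).indicator (fun x => m x * φ x) x
              + (msk γ Z2).indicator (fun x => m x * φ x) x) := by
        rw [← integral_add (integrable_conj_mul (h.memLp _) hL1)
          (integrable_conj_mul (h.memLp _) hL23)]
        congr 1
        ext x
        rw [hdecomp]
        ring
      rw [h1] at h2
      rw [eq_neg_of_add_eq_zero_left h2.symm, enorm_neg]
    rw [hneg]
    refine (en_add_le h j hL2 hL3).trans ?_
    gcongr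
    refine (en_le h hL3 j).trans ((lintegral_mask_le Z2 hm1).trans ?_)
    exact lintegral_mono_set hZ2T
  calc ∑ j ∈ A, en γ B φ j ((msk γ {z | z - b ∈ R}).indicator (fun x => m x * φ x))
      ≤ ∑ j ∈ A, (2 * en γ B φ j ((msk γ {z | z - b ∈ R ⊔ K J ∧ z - b ∉ R}).indicator
        (fun x => m x * φ x)) + 2 * ∫⁻ x in T j, ‖φ x‖ₑ ^ 2) := Finset.sum_le_sum hscale
    _ = 2 * ∑ j ∈ A, en γ B φ j ((msk γ {z | z - b ∈ R ⊔ K J ∧ z - b ∉ R}).indicator
        (fun x => m x * φ x)) + 2 * ∑ j ∈ A, ∫⁻ x in T j, ‖φ x‖ₑ ^ 2 := by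
        rw [Finset.sum_add_distrib, Finset.mul_sum, Finset.mul_sum]
    _ ≤ 2 * (ε / 4) + 2 * (ε / 4) := by
        gcongr
        · refine (sum_en_le h (memLp_mask (γ := γ) hφ _ hm hm1) A).trans ?_
          exact (lintegral_mask_le _ hm1).trans hJ
        · refine le_trans ?_ hA₁
          have hsub := tsum_subtype {j : ℤ | j ∉ A₁}
            (fun j => S.indicator (fun j => ∫⁻ x in T j, ‖φ x‖ₑ ^ 2) j)
          refine le_trans ?_ (le_of_eq hsub.symm)
          refine le_trans ?_ (ENNReal.sum_le_tsum A)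
          apply Finset.sum_le_sum
          intro j hj
          obtain ⟨hjS, hjA⟩ := hAS j hj
          rw [Finset.mem_union, not_or] at hjA
          rw [Set.indicator_of_mem (by exact hjA.1), Set.indicator_of_mem hjS]
    _ = ε := by
        have h4 : ε = 4 * (ε / 4) := (ENNReal.mul_div_cancel (by norm_num) (by norm_num)).symm
        conv_rhs => rw [h4]
        ring

end Pool.Agent.Lib_helper44
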