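import Mathlib
import Pool.Agent.Lib_helper44.Late2

open MeasureTheory Filter Topology Complex Module
open scoped ENNReal NNReal ComplexConjugate InnerProductSpace

set_option linter.unusedSectionVars false

namespace Pool.Agent.Lib_helper44

variable {E : Type*} [NormedAddCommGroup E] [InnerProductSpace ℝ E] [FiniteDimensional ℝ E]
  [MeasurableSpace E] [BorelSpace E] {n : ℕ}
variable {γ : Basis (Fin n) ℝ E} {B : E ≃L[ℝ] E} {φ : E → ℂ}

/-- a section of the quotient by a subgroup -/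
theorem exists_section (R : AddSubgroup E) : ∃ s : E → E, (∀ v, s v - v ∈ R) ∧
    ∀ v w, v - w ∈ R → s v = s w := by
  refine ⟨fun v => Quotient.out (QuotientAddGroup.mk v : E ⧸ R), fun v => ?_, fun v w hvw => ?_⟩
  · have h1 : (QuotientAddGroup.mk (Quotient.out (QuotientAddGroup.mk v : E ⧸ R)) : E ⧸ R)
        = QuotientAddGroup.mk v := QuotientAddGroup.out_eq' _
    have h2 := QuotientAddGroup.eq.mp h1
    have h3 := R.neg_mem h2
    rwa [neg_add, neg_neg, ← sub_eq_add_neg] at h3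
  · have h1 : (QuotientAddGroup.mk v : E ⧸ R) = QuotientAddGroup.mk w := by
      rw [QuotientAddGroup.eq]
      have := R.neg_mem hvw
      rwa [neg_sub, sub_eq_neg_add] at this
    simp only [h1]

theorem lateOK_periodic (hφm : Measurable φ) (h : IsONB (volume : Measure E) (fam γ B φ))
    {S : Set ℤ} {H : AddSubgroup E} (hAr : ArithOK γ B S H) {χ : E → ℂ} (hχ : Measurable χ)
    (hχ1 : ∀ x, ‖χ x‖ ≤ 1) (hχper : ∀ x v, v ∈ dualL γ → χ (x + v) = χ x) :
    LateOK γ B φ S H (fun x => χ x * φ x) := by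
  classical
  intro ε hε
  have hφ := memLp_of_isONB h
  have hφ2 : ∫⁻ x, ‖φ x‖ₑ ^ 2 ≠ ⊤ := by
    rw [lintegral_phi_sq h]
    exact ENNReal.one_ne_top
  have hε16 : ε / 16 ≠ 0 := by
    rw [ne_eq, ENNReal.div_eq_zero_iff, not_or]
    exact ⟨hε, by norm_num⟩
  obtain ⟨J, hJ⟩ := mass_tendsto (φ := φ) hφ2 (s := fun J : ℕ => {x : E | (J : ℝ) < ‖x‖})
    (fun J => measurableSet_lt measurable_const measurable_norm)
    (by
      intro J J' hJJ' x hx
      have h1 : (J : ℝ) ≤ J' := by exact_mod_cast hJJ'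
      exact lt_of_le_of_lt h1 hx)
    (by
      ext x
      simp only [Set.mem_iInter, Set.mem_empty_iff_false, iff_false, not_forall]
      obtain ⟨J, hJ⟩ := exists_nat_ge ‖x‖
      exact ⟨J, fun hx => absurd hJ (not_le.mpr hx)⟩) hε16
  obtain ⟨Fs, hFs, hlam⟩ := exists_lam_finset γ (D := Metric.closedBall (0 : E) J) (R := J)
    (fun x hx => by rwa [mem_closedBall_zero_iff] at hx)
  set R0 : AddSubgroup E := dualL γ ⊓ H with hR0
  obtain ⟨s, hs1, hs2⟩ := exists_section R0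
  set bs : Finset E := Fs.image s with hbs
  set N : ℕ := bs.card with hN
  have hbsΛ : ∀ b ∈ bs, b ∈ dualL γ := by
    intro b hb
    obtain ⟨v, hv, rfl⟩ := Finset.mem_image.mp hb
    have h1 : s v = v + (s v - v) := by abel
    rw [h1]
    exact (dualL γ).add_mem (hFs v hv) (hs1 v).1
  set K : ℝ≥0∞ := 2 * ((N : ℝ≥0∞) + 1) * ((N : ℝ≥0∞) + 1) with hK
  have hK0 : K ≠ 0 := by
    rw [hK]
    positivity
  have hKt : K ≠ ⊤ := by
    rw [hK]
    finiteness
  have hεb : ε / 2 / K ≠ 0 := by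
    rw [ne_eq, ENNReal.div_eq_zero_iff, not_or]
    refine ⟨?_, hKt⟩
    rw [ENNReal.div_eq_zero_iff, not_or]
    exact ⟨hε, by norm_num⟩
  have hpiece : ∀ b, b ∈ dualL γ → ∃ A₀ : Finset ℤ, ∀ m : E → ℂ, Measurable m →
      (∀ x, ‖m x‖ ≤ 1) → (∀ x v, v ∈ dualL γ → m (x + v) = m x) → ∀ A : Finset ℤ,
      (∀ j ∈ A, j ∈ S ∧ j ∉ A₀) →
      ∑ j ∈ A, en γ B φ j ((msk γ {z | z - b ∈ dualL γ ⊓ H}).indicator (fun x => m x * φ x))
        ≤ ε / 2 / K := fun b hb => late_piece hφm h hAr hb hεb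
  choose! A₀ hA₀ using hpiece
  refine ⟨bs.biUnion A₀, Fs.image (fun v => s v - v), 2, ?_, fun y A hAS => ?_⟩
  · intro r hr
    obtain ⟨v, -, rfl⟩ := Finset.mem_image.mp hr
    exact (hs1 v).2
  set T : ℝ≥0∞ := ∑ r ∈ Fs.image (fun v => s v - v), ‖ee (⟪y, r⟫_ℝ) - 1‖ₑ ^ 2 with hT
  let m : E → E → ℂ := fun b x => ee (⟪y, remv γ 0 x + b⟫_ℝ) * χ x
  have hmm : ∀ b, Measurable (m b) := by
    intro b
    apply Measurable.mul _ hχ
    apply ee_continuous.measurable.comp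
    exact (continuous_const.inner continuous_id).measurable.comp
      ((measurable_remv γ 0).add_const b)
  have hm1 : ∀ b x, ‖m b x‖ ≤ 1 := by
    intro b x
    simp only [m]
    rw [norm_mul, norm_ee, one_mul]
    exact hχ1 x
  have hmper : ∀ b x v, v ∈ dualL γ → m b (x + v) = m b x := by
    intro b x v hv
    simp only [m]
    rw [remv_add γ 0 x hv, hχper x v hv]
  let p : E → E → ℂ := fun b => (msk γ {z | z - b ∈ dualL γ ⊓ H}).indicator
    (fun x => m b x * φ x)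
  have hpL : ∀ b, MemLp (p b) 2 (volume : Measure E) := fun b =>
    memLp_mask hφ _ (hmm b) (hm1 b)
  let g : E → ℂ := fun x => ee (⟪y, x⟫_ℝ) * (χ x * φ x)
  have hgL : MemLp g 2 (volume : Measure E) := memLp_ee_mul (memLp_bdd_mul hφ hχ hχ1) y
  let G : E → ℂ := fun x => g x - ∑ b ∈ bs, p b x
  have hsumL : MemLp (fun x => ∑ b ∈ bs, p b x) 2 (volume : Measure E) :=
    memLp_finsetSum bs fun b _ => hpL b
  have hGL : MemLp G 2 (volume : Measure E) := hgL.sub hsumL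
  -- the sum of the pieces
  have huniq : ∀ x, ∀ b ∈ bs, lamv γ 0 x - b ∈ dualL γ ⊓ H → b = s (lamv γ 0 x) := by
    intro x b hb hxb
    obtain ⟨v, hv, rfl⟩ := Finset.mem_image.mp hb
    symm
    apply hs2
    have h1 : lamv γ 0 x - v = (lamv γ 0 x - s v) + (s v - v) := by abel
    rw [h1]
    exact R0.add_mem hxb (hs1 v)
  have hsum1 : ∀ x, s (lamv γ 0 x) ∈ bs → ∑ b ∈ bs, p b x = m (s (lamv γ 0 x)) x * φ x := by
    intro x hx
    rw [Finset.sum_eq_single_of_mem _ hx]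
    · simp only [p]
      rw [Set.indicator_of_mem]
      change lamv γ 0 x - s (lamv γ 0 x) ∈ R0
      have := R0.neg_mem (hs1 (lamv γ 0 x))
      rwa [neg_sub] at this
    · intro b hb hne
      simp only [p]
      rw [Set.indicator_of_notMem]
      intro hcon
      exact hne (huniq x b hb hcon)
  have hsum2 : ∀ x, s (lamv γ 0 x) ∉ bs → ∑ b ∈ bs, p b x = 0 := by
    intro x hx
    apply Finset.sum_eq_zero
    intro b hb
    simp only [p]
    rw [Set.indicator_of_notMem]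
    intro hcon
    apply hx
    rw [← huniq x b hb hcon]
    exact hb
  have hsumle : ∀ x, ‖∑ b ∈ bs, p b x‖ ≤ ‖φ x‖ := by
    intro x
    by_cases hx : s (lamv γ 0 x) ∈ bs
    · rw [hsum1 x hx, norm_mul]
      exact mul_le_of_le_one_left (norm_nonneg _) (hm1 _ _)
    · rw [hsum2 x hx, norm_zero]
      exact norm_nonneg _
  -- pointwise bound
  have hpt : ∀ x, ‖G x‖ₑ ^ 2 ≤ T * ‖φ x‖ₑ ^ 2
      + 4 * ({x : E | (J : ℝ) < ‖x‖}.indicator (fun x => ‖φ x‖ₑ ^ 2) x) := by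
    intro x
    by_cases hx : (J : ℝ) < ‖x‖
    · rw [Set.indicator_of_mem (by exact hx)]
      refine le_trans ?_ le_add_self
      have h1 : ‖G x‖ ≤ 2 * ‖φ x‖ := by
        simp only [G]
        refine (norm_sub_le _ _).trans ?_
        have h2 : ‖g x‖ ≤ ‖φ x‖ := by
          simp only [g]
          rw [norm_mul, norm_ee, one_mul, norm_mul]
          exact mul_le_of_le_one_left (norm_nonneg _) (hχ1 x)
        linarith [hsumle x]
      rw [enorm_sq_eq, enorm_sq_eq]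
      calc ENNReal.ofReal (‖G x‖ ^ 2) ≤ ENNReal.ofReal ((2 * ‖φ x‖) ^ 2) := by
            apply ENNReal.ofReal_le_ofReal
            gcongr
        _ = _ := by
            rw [mul_pow, ENNReal.ofReal_mul (by norm_num)]
            norm_num
    · rw [Set.indicator_of_notMem (by exact hx), mul_zero, add_zero]
      have hxF : lamv γ 0 x ∈ Fs := by
        apply hlam
        rw [mem_closedBall_zero_iff]
        exact not_lt.mp hx
      have hb0 : s (lamv γ 0 x) ∈ bs := Finset.mem_image_of_mem s hxF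
      simp only [G]
      rw [hsum1 x hb0]
      have h1 : g x - m (s (lamv γ 0 x)) x * φ x
          = -(ee (⟪y, x⟫_ℝ) * (χ x * φ x)) * (ee (⟪y, s (lamv γ 0 x) - lamv γ 0 x⟫_ℝ) - 1) := by
        simp only [g, m]
        have h2 : ee (⟪y, remv γ 0 x + s (lamv γ 0 x)⟫_ℝ)
            = ee (⟪y, x⟫_ℝ) * ee (⟪y, s (lamv γ 0 x) - lamv γ 0 x⟫_ℝ) := by
          rw [← ee_add, ← inner_add_right]
          congr 2
          unfold remv
          abel
        rw [h2]
        ring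
      rw [h1, enorm_mul, enorm_neg, enorm_mul, enorm_mul]
      have h3 : ‖ee (⟪y, x⟫_ℝ)‖ₑ = 1 := by rw [← ofReal_norm, norm_ee, ENNReal.ofReal_one]
      have h4 : ‖χ x‖ₑ ≤ 1 := by
        rw [← ofReal_norm, ← ENNReal.ofReal_one]
        exact ENNReal.ofReal_le_ofReal (hχ1 x)
      rw [h3, one_mul, mul_pow, mul_pow]
      have h5 : ‖ee (⟪y, s (lamv γ 0 x) - lamv γ 0 x⟫_ℝ) - 1‖ₑ ^ 2 ≤ T := by
        rw [hT]
        exact Finset.single_le_sum (f := fun r => ‖ee (⟪y, r⟫_ℝ) - 1‖ₑ ^ 2)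
          (fun _ _ => zero_le) (Finset.mem_image_of_mem (fun v => s v - v) hxF)
      calc ‖χ x‖ₑ ^ 2 * ‖φ x‖ₑ ^ 2 * ‖ee (⟪y, s (lamv γ 0 x) - lamv γ 0 x⟫_ℝ) - 1‖ₑ ^ 2
          ≤ 1 ^ 2 * ‖φ x‖ₑ ^ 2 * T := by gcongr
        _ = T * ‖φ x‖ₑ ^ 2 := by ring
  have hGint : ∫⁻ x, ‖G x‖ₑ ^ 2 ≤ T + 4 * (ε / 16) := by
    have hmeas : Measurable (fun x : E => ‖φ x‖ₑ ^ 2) := hφm.enorm.pow_const 2
    have hset : MeasurableSet {x : E | (J : ℝ) < ‖x‖} :=
      measurableSet_lt measurable_const measurable_norm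
    calc ∫⁻ x, ‖G x‖ₑ ^ 2 ≤ ∫⁻ x, (T * ‖φ x‖ₑ ^ 2
          + 4 * ({x : E | (J : ℝ) < ‖x‖}.indicator (fun x => ‖φ x‖ₑ ^ 2) x)) :=
          lintegral_mono hpt
      _ = T * (∫⁻ x, ‖φ x‖ₑ ^ 2) + 4 * ∫⁻ x in {x : E | (J : ℝ) < ‖x‖}, ‖φ x‖ₑ ^ 2 := by
          rw [lintegral_add_left (hmeas.const_mul T), lintegral_const_mul _ hmeas,
            lintegral_const_mul _ (hmeas.indicator hset), lintegral_indicator hset]
      _ ≤ T + 4 * (ε / 16) := by
          rw [lintegral_phi_sq h, mul_one]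
          gcongr
  -- the energies
  have hscale : ∀ j ∈ A, en γ B φ j g ≤ 2 * en γ B φ j G
      + 2 * ((N : ℝ≥0∞) * ∑ b ∈ bs, en γ B φ j (p b)) := by
    intro j _
    have h1 := en_add_le h j hGL hsumL
    have h2 : (fun x => G x + ∑ b ∈ bs, p b x) = g := by
      ext x
      simp only [G]
      ring
    rw [h2] at h1
    refine h1.trans ?_
    gcongr
    exact en_sum_le h j bs fun b _ => hpL b
  have hpsum : ∀ b ∈ bs, ∑ j ∈ A, en γ B φ j (p b) ≤ ε / 2 / K := by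
    intro b hb
    apply hA₀ b (hbsΛ b hb) (m b) (hmm b) (hm1 b) (hmper b) A
    intro j hj
    obtain ⟨h1, h2⟩ := hAS j hj
    exact ⟨h1, fun h3 => h2 (Finset.mem_biUnion.mpr ⟨b, hb, h3⟩)⟩
  calc ∑ j ∈ A, en γ B φ j g
      ≤ ∑ j ∈ A, (2 * en γ B φ j G + 2 * ((N : ℝ≥0∞) * ∑ b ∈ bs, en γ B φ j (p b))) :=
        Finset.sum_le_sum hscale
    _ = 2 * ∑ j ∈ A, en γ B φ j G + 2 * (N : ℝ≥0∞) * ∑ b ∈ bs, ∑ j ∈ A, en γ B φ j (p b) := by
        rw [Finset.sum_add_distrib, ← Finset.mul_sum, ← Finset.mul_sum, ← Finset.mul_sum,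
          Finset.sum_comm, mul_assoc]
    _ ≤ 2 * (T + 4 * (ε / 16)) + 2 * (N : ℝ≥0∞) * ∑ b ∈ bs, (ε / 2 / K) := by
        gcongr
        · exact (sum_en_le h hGL A).trans hGint
        · rename_i b hb
          exact hpsum b hb
    _ = 2 * (T + 4 * (ε / 16)) + 2 * (N : ℝ≥0∞) * ((N : ℝ≥0∞) * (ε / 2 / K)) := by
        rw [Finset.sum_const, nsmul_eq_mul]
    _ ≤ 2 * (T + 4 * (ε / 16)) + ε / 2 := by
        gcongr
        calc 2 * (N : ℝ≥0∞) * ((N : ℝ≥0∞) * (ε / 2 / K))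
            = 2 * (N : ℝ≥0∞) * (N : ℝ≥0∞) * (ε / 2 / K) := by ring
          _ ≤ K * (ε / 2 / K) := by
            rw [hK]
            gcongr
            · exact le_self_add
            · exact le_self_add
          _ = ε / 2 := ENNReal.mul_div_cancel hK0 hKt
    _ = ε + ((2 : ℝ≥0) : ℝ≥0∞) * T := by
        have h4 : ε = 16 * (ε / 16) := (ENNReal.mul_div_cancel (by norm_num) (by norm_num)).symm
        have h5 : ε / 2 = 8 * (ε / 16) := by
          rw [ENNReal.div_eq_inv_mul, ENNReal.div_eq_inv_mul, ← mul_assoc]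
          congr 1
          rw [← ENNReal.toReal_eq_toReal_iff' (by norm_num) (by finiteness)]
          simp
          norm_num
        rw [h5]
        conv_rhs => rw [h4]
        push_cast
        ring

theorem lateOK_fam_zero (hφm : Measurable φ) (h : IsONB (volume : Measure E) (fam γ B φ))
    {S : Set ℤ} {H : AddSubgroup E} (hAr : ArithOK γ B S H) (k : Fin n → ℤ) :
    LateOK γ B φ S H (fam γ B φ (0, k)) := by
  have h1 := lateOK_periodic hφm h hAr (χ := fun x => ee (-⟪kv γ k, x⟫_ℝ))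
    (ee_continuous.measurable.comp (continuous_const.inner continuous_id).neg.measurable)
    (fun x => by rw [norm_ee]) (fun x v hv => by
      rw [← conj_ee, ← conj_ee, ee_inner_periodic γ k hv])
  have h2 : fam γ B φ (0, k) = fun x => ee (-⟪kv γ k, x⟫_ℝ) * φ x := by
    ext x
    exact fam_zero γ B φ k x
  rw [h2]
  exact h1

end Pool.Agent.Lib_helper44
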