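import Mathlib
import Pool.Agent.Lib_helper44.Late3

open MeasureTheory Filter Topology Complex Module
open scoped ENNReal NNReal ComplexConjugate InnerProductSpace

set_option linter.unusedSectionVars false

namespace Pool.Agent.Lib_helper44

variable {E : Type*} [NormedAddCommGroup E] [InnerProductSpace ℝ E] [FiniteDimensional ℝ E]
  [MeasurableSpace E] [BorelSpace E] {n : ℕ}
variable {γ : Basis (Fin n) ℝ E} {A B : E ≃L[ℝ] E} {φ : E → ℂ}

theorem fam_dil (γ : Basis (Fin n) ℝ E) (B : E ≃L[ℝ] E) (φ : E → ℂ) (i j : ℤ) (k : Fin n → ℤ)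
    (x : E) : fam γ B φ (j, k) ((B ^ i) x)
      = ((adet B ^ (-(i : ℝ) / 2) : ℝ) : ℂ) * fam γ B φ (j - i, k) x := by
  rw [fam_apply, fam_apply]
  simp only
  have h1 : (B ^ (-j)) ((B ^ i) x) = (B ^ (-(j - i))) x := by
    have : B ^ (-(j - i)) = B ^ (-j) * B ^ i := by
      rw [← zpow_add]
      congr 1
      ring
    rw [this]
    rfl
  have h2 : ((adet B ^ (-(j : ℝ) / 2) : ℝ) : ℂ) = ((adet B ^ (-(i : ℝ) / 2) : ℝ) : ℂ) *
      ((adet B ^ (-((j - i : ℤ) : ℝ) / 2) : ℝ) : ℂ) := by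
    rw [← Complex.ofReal_mul, ← Real.rpow_add (adet_pos B)]
    congr 2
    push_cast
    ring
  rw [h1, h2]
  ring

theorem en_dil (hAB : IsAdj A B) (i j : ℤ) (k : Fin n → ℤ) (y : E) :
    en γ B φ j (fun x => ee (⟪y, x⟫_ℝ) * fam γ B φ (i, k) x)
      = en γ B φ (j - i) (fun x => ee (⟪(A ^ i) y, x⟫_ℝ) * fam γ B φ (0, k) x) := by
  unfold en
  congr 1
  ext k'
  congr 2
  have h3 := integral_comp_equiv (B ^ i)
    (fun x => conj (fam γ B φ (j, k') x) * (ee (⟪y, x⟫_ℝ) * fam γ B φ (i, k) x))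
  have h4 : ∀ x, conj (fam γ B φ (j, k') ((B ^ i) x)) *
      (ee (⟪y, (B ^ i) x⟫_ℝ) * fam γ B φ (i, k) ((B ^ i) x))
      = ((adet B ^ (-(i : ℝ)) : ℝ) : ℂ) * (conj (fam γ B φ (j - i, k') x) *
        (ee (⟪(A ^ i) y, x⟫_ℝ) * fam γ B φ (0, k) x)) := by
    intro x
    rw [fam_dil, fam_dil, sub_self, hAB.zpow i y x, map_mul, Complex.conj_ofReal]
    have : ((adet B ^ (-(i : ℝ)) : ℝ) : ℂ) = ((adet B ^ (-(i : ℝ) / 2) : ℝ) : ℂ) *
        ((adet B ^ (-(i : ℝ) / 2) : ℝ) : ℂ) := by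
      rw [← Complex.ofReal_mul, ← Real.rpow_add (adet_pos B)]
      congr 2
      ring
    rw [this]
    ring
  simp only [h4] at h3
  rw [integral_const_mul, adet_zpow, Complex.real_smul] at h3
  have h5 : ((adet B ^ (-(i : ℝ)) : ℝ) : ℂ) = (((adet B ^ i)⁻¹ : ℝ) : ℂ) := by
    rw [Real.rpow_neg (adet_pos B).le, Real.rpow_intCast]
  rw [h5] at h3
  have h6 : (((adet B ^ i)⁻¹ : ℝ) : ℂ) ≠ 0 := by
    rw [Complex.ofReal_ne_zero]
    exact inv_ne_zero (zpow_ne_zero _ (adet_pos B).ne')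
  exact (mul_left_cancel₀ h6 h3).symm

theorem lateOK_fam (hAB : IsAdj A B) (hφm : Measurable φ)
    (h : IsONB (volume : Measure E) (fam γ B φ)) {S : Set ℤ} {H : AddSubgroup E} (i : ℤ)
    (hAr : ArithOK γ B {j | j + i ∈ S}
      (H.comap ((B ^ i).toLinearEquiv.toLinearMap.toAddMonoidHom))) (k : Fin n → ℤ) :
    LateOK γ B φ S H (fam γ B φ (i, k)) := by
  classical
  intro ε hε
  obtain ⟨A₀, R, C, hR, hA⟩ := lateOK_fam_zero hφm h hAr k ε hε
  refine ⟨A₀.image (fun j => j + i), R.image (fun r => (B ^ i) r), C, ?_, fun y F hFS => ?_⟩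
  · intro r hr
    obtain ⟨r', hr', rfl⟩ := Finset.mem_image.mp hr
    exact hR r' hr'
  · rw [Finset.sum_congr rfl (fun j _ => en_dil (γ := γ) (φ := φ) hAB i j k y)]
    have h1 := hA ((A ^ i) y) (F.image (fun j => j - i)) (by
      intro j hj
      obtain ⟨j', hj', rfl⟩ := Finset.mem_image.mp hj
      obtain ⟨h2, h3⟩ := hFS j' hj'
      refine ⟨?_, fun h4 => h3 ?_⟩
      · change j' - i + i ∈ S
        rwa [sub_add_cancel]
      · rw [Finset.mem_image]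
        exact ⟨j' - i, h4, by ring⟩)
    rw [Finset.sum_image (fun a _ b _ hab => by
      have : a - i = b - i := hab
      omega)] at h1
    refine h1.trans (le_of_eq ?_)
    congr 2
    rw [Finset.sum_image (fun a _ b _ hab => (B ^ i).injective hab)]
    apply Finset.sum_congr rfl
    intro r _
    rw [hAB.zpow i y r]

/-- late energies of all square integrable functions -/
theorem lateOK_all (hAB : IsAdj A B) (hφm : Measurable φ)
    (h : IsONB (volume : Measure E) (fam γ B φ)) {S : Set ℤ} {H : AddSubgroup E}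
    (hAr : ∀ i : ℤ, ArithOK γ B {j | j + i ∈ S}
      (H.comap ((B ^ i).toLinearEquiv.toLinearMap.toAddMonoidHom))) {f : E → ℂ}
    (hf : MemLp f 2 (volume : Measure E)) : LateOK γ B φ S H f :=
  LateOK.of_fam h (fun ⟨i, k⟩ => lateOK_fam hAB hφm h i (hAr i) k) hf

/-- the trigonometric polynomial controlling the distance to the base point -/
noncomputable def kap (C : ℝ) (R : Finset E) (x₀ : E) : TP E :=
  ∑ r ∈ R, cst C * (cst 2 - AddMonoidAlgebra.single r (ee (-⟪x₀, r⟫_ℝ))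
    - AddMonoidAlgebra.single (-r) (ee (⟪x₀, r⟫_ℝ)))

theorem ev_kap (C : ℝ) (R : Finset E) (x₀ x : E) :
    ev x (kap C R x₀) = ((C * ∑ r ∈ R, ‖ee (⟪x - x₀, r⟫_ℝ) - 1‖ ^ 2 : ℝ) : ℂ) := by
  unfold kap
  rw [map_sum, Finset.mul_sum, Complex.ofReal_sum]
  apply Finset.sum_congr rfl
  intro r _
  rw [map_mul, map_sub, map_sub, ev_cst, ev_cst, ev_single, ev_single, Complex.ofReal_mul]
  congr 1
  rw [Complex.ofReal_pow, ← Complex.mul_conj', map_sub, map_one, conj_ee, ← ee_add, ← ee_add,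
    inner_neg_right]
  have h1 : ee (-⟪x₀, r⟫_ℝ + ⟪x, r⟫_ℝ) = ee (⟪x - x₀, r⟫_ℝ) := by
    rw [inner_sub_left]; congr 1; ring
  have h2 : ee (⟪x₀, r⟫_ℝ + -⟪x, r⟫_ℝ) = ee (-⟪x - x₀, r⟫_ℝ) := by
    rw [inner_sub_left]; congr 1; ring
  rw [h1, h2]
  have h3 : ee (⟪x - x₀, r⟫_ℝ) * ee (-⟪x - x₀, r⟫_ℝ) = 1 := by
    rw [← ee_add, add_neg_cancel, ee_zero]
  push_cast
  linear_combination -h3

theorem kap_NN {C : ℝ} (hC : 0 ≤ C) (R : Finset E) (x₀ : E) : NN (kap C R x₀) := by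
  intro x
  rw [ev_kap]
  refine ⟨Complex.ofReal_im _, ?_⟩
  rw [Complex.ofReal_re]
  positivity

theorem kap_base (C : ℝ) (R : Finset E) (x₀ : E) : ev x₀ (kap C R x₀) = 0 := by
  rw [ev_kap]
  simp [ee_zero]

theorem EH_sum (H : AddSubgroup E) {ι : Type*} (s : Finset ι) (f : ι → TP E) :
    EH H (∑ i ∈ s, f i) = ∑ i ∈ s, EH H (f i) := by
  classical
  induction s using Finset.induction_on with
  | empty => simp [EH_zero]
  | insert a s ha ih => rw [Finset.sum_insert ha, Finset.sum_insert ha, EH_add, ih]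

theorem EH_sub (H : AddSubgroup E) (P Q : TP E) : EH H (P - Q) = EH H P - EH H Q := by
  have h : P = (P - Q) + Q := by abel
  conv_rhs => rw [h, EH_add]
  abel

theorem kap_EH {H : AddSubgroup E} (C : ℝ) {R : Finset E} (hR : ∀ r ∈ R, r ∈ H) (x₀ : E) :
    EH H (kap C R x₀) = kap C R x₀ := by
  unfold kap
  rw [EH_sum]
  apply Finset.sum_congr rfl
  intro r hr
  have h0 : EH H (cst 2 : TP E) = cst 2 := by
    unfold cst
    exact EH_single_of_mem H.zero_mem _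
  rw [EH_cst_mul, EH_sub, EH_sub, h0, EH_single_of_mem (hR r hr),
    EH_single_of_mem (H.neg_mem (hR r hr))]

theorem mi_memLp {E₀ : Set E} (hE₀ : MeasurableSet E₀) (ht : volume E₀ ≠ ⊤) (y : E) :
    MemLp (mi E₀ y) 2 (volume : Measure E) := by
  have h1 := memLp_ee_mul (indicator_memLp hE₀ ht) y
  refine h1.ae_eq ?_
  filter_upwards with x
  unfold mi
  by_cases hx : x ∈ E₀
  · rw [Set.indicator_of_mem hx, Set.indicator_of_mem hx, mul_one]
  · rw [Set.indicator_of_notMem hx, Set.indicator_of_notMem hx, mul_zero]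

theorem mi_shift (E₀ : Set E) (x₀ x : E) :
    mi E₀ x = fun ξ => ee (⟪x - x₀, ξ⟫_ℝ) * mi E₀ x₀ ξ := by
  ext ξ
  unfold mi
  by_cases hξ : ξ ∈ E₀
  · rw [Set.indicator_of_mem hξ, Set.indicator_of_mem hξ, ← ee_add, ← inner_add_left,
      sub_add_cancel]
  · rw [Set.indicator_of_notMem hξ, Set.indicator_of_notMem hξ, mul_zero]

/-- the hypothesis (UT) of the removal lemma -/
theorem UT_of_late {E₀ : Set E} {S : Set ℤ} {H : AddSubgroup E}
    (hL : ∀ x₀, LateOK γ B φ S H (mi E₀ x₀)) {F : ℤ → TP E} (hFNN : ∀ j, NN (F j))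
    (hF : ∀ j x, ENNReal.ofReal (ev x (F j)).re = en γ B φ j (mi E₀ x)) (x₀ : E) {ε : ℝ}
    (hε : 0 < ε) :
    ∃ (A₀ : Finset ℤ) (κ : TP E), NN κ ∧ EH H κ = κ ∧ ev x₀ κ = 0 ∧
      ∀ A : Finset ℤ, (∀ j ∈ A, j ∈ S ∧ j ∉ A₀) → ∀ x,
        ∑ j ∈ A, (ev x (F j)).re ≤ ε + (ev x κ).re := by
  obtain ⟨A₀, R, C, hR, hA⟩ := hL x₀ (ENNReal.ofReal ε) (by
    rw [ne_eq, ENNReal.ofReal_eq_zero, not_le]
    exact hε)
  refine ⟨A₀, kap C R x₀, kap_NN C.2 R x₀, kap_EH C hR x₀, kap_base C R x₀, fun A hAS x => ?_⟩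
  have h1 := hA (x - x₀) A hAS
  rw [← mi_shift E₀ x₀ x] at h1
  simp only [← hF] at h1
  rw [← ENNReal.ofReal_sum_of_nonneg (fun j _ => (hFNN j x).2)] at h1
  rw [ev_kap, Complex.ofReal_re]
  have hnn : 0 ≤ (C : ℝ) * ∑ r ∈ R, ‖ee (⟪x - x₀, r⟫_ℝ) - 1‖ ^ 2 := by positivity
  have h2 : ENNReal.ofReal ε + C * ∑ r ∈ R, ‖ee (⟪x - x₀, r⟫_ℝ) - 1‖ₑ ^ 2
      = ENNReal.ofReal (ε + C * ∑ r ∈ R, ‖ee (⟪x - x₀, r⟫_ℝ) - 1‖ ^ 2) := by
    rw [ENNReal.ofReal_add hε.le hnn, ENNReal.ofReal_mul (NNReal.coe_nonneg C),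
      ENNReal.ofReal_coe_nnreal,
      ENNReal.ofReal_sum_of_nonneg (fun r _ => by positivity)]
    simp only [enorm_sq_eq]
  rw [h2] at h1
  exact (ENNReal.ofReal_le_ofReal_iff (by positivity)).mp h1

end Pool.Agent.Lib_helper44
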