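import Mathlib
import Pool.Agent.Lib_helper44.Late4

open MeasureTheory Filter Topology Complex Module
open scoped ENNReal NNReal ComplexConjugate InnerProductSpace

set_option linter.unusedSectionVars false

namespace Pool.Agent.Lib_helper44

variable {E : Type*} [NormedAddCommGroup E] [InnerProductSpace ℝ E] [FiniteDimensional ℝ E]
  [MeasurableSpace E] [BorelSpace E] {n : ℕ}
variable {γ : Basis (Fin n) ℝ E} {A B : E ≃L[ℝ] E} {φ : E → ℂ}

open Classical in
theorem NN.mn_mul_wt_le {P : TP E} (hP : NN P) {H : AddSubgroup E} {Q : Finset E}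
    (hQ : Q.Nonempty) (hQH : ∀ a ∈ Q, a ∈ H) (x₀ : E) :
    (mn (P * wt Q x₀)).re
      ≤ ((P.coeff.support.filter (fun h => h ∈ H)).card : ℝ) * (mn P).re := by
  have hPs : P = ∑ h ∈ P.coeff.support, AddMonoidAlgebra.single h (P.coeff h) :=
    (AddMonoidAlgebra.sum_coeff_single P).symm
  have h1 : mn (P * wt Q x₀) = ∑ h ∈ P.coeff.support,
      mn (AddMonoidAlgebra.single h (P.coeff h) * wt Q x₀) := by
    conv_lhs => rw [hPs]
    rw [Finset.sum_mul, mn_sum]
  refine (Complex.re_le_norm _).trans ?_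
  rw [h1]
  refine (norm_sum_le _ _).trans ?_
  have hQpos : (0 : ℝ) < Q.card := by exact_mod_cast hQ.card_pos
  have h2 : ∀ h ∈ P.coeff.support, ‖mn (AddMonoidAlgebra.single h (P.coeff h) * wt Q x₀)‖
      ≤ if h ∈ H then (mn P).re else 0 := by
    intro h _
    rw [mn_single_mul_wt]
    by_cases hh : h ∈ H
    · rw [if_pos hh, norm_mul, norm_mul, norm_ee, mul_one]
      have h3 : ‖(((Q.filter (fun b => b + h ∈ Q)).card : ℂ) * (Q.card : ℂ)⁻¹)‖ ≤ 1 := by
        rw [norm_mul, norm_inv, Complex.norm_natCast, Complex.norm_natCast, mul_inv_le_iff₀ hQpos,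
          one_mul]
        exact_mod_cast Finset.card_filter_le _ _
      calc ‖P.coeff h‖ * ‖(((Q.filter (fun b => b + h ∈ Q)).card : ℂ) * (Q.card : ℂ)⁻¹)‖
          ≤ (mn P).re * 1 := by
            apply mul_le_mul (hP.coeff_le h) h3 (norm_nonneg _) hP.mn_nonneg
        _ = (mn P).re := mul_one _
    · rw [if_neg hh]
      have h2 : (Q.filter (fun b => b + h ∈ Q)) = ∅ := by
        rw [Finset.filter_eq_empty_iff]
        intro b hb hbh
        apply hh
        have := H.sub_mem (hQH _ hbh) (hQH _ hb)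
        rwa [add_sub_cancel_left] at this
      rw [h2, Finset.card_empty, Nat.cast_zero, zero_mul, mul_zero, norm_zero]
  refine (Finset.sum_le_sum h2).trans ?_
  rw [← Finset.sum_filter, Finset.sum_const, nsmul_eq_mul]

/-- **Calderon inequality from the ends.** -/
theorem calderon_ends {ι : Type*} [Fintype ι] (hAB : IsAdj A B) (hφm : Measurable φ)
    (h : IsONB (volume : Measure E) (fam γ B φ)) (S : ι → Set ℤ) (H : ι → AddSubgroup E)
    (A₁ : Finset ℤ) (hcover : ∀ j, j ∉ A₁ → ∃ e, j ∈ S e)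
    (hAr : ∀ e, ∀ i : ℤ, ArithOK γ B {j | j + i ∈ S e}
      ((H e).comap ((B ^ i).toLinearEquiv.toLinearMap.toAddMonoidHom)))
    {E₀ : Set E} (hE₀ : MeasurableSet E₀) {ρ : ℝ} (hb : ∀ x ∈ E₀, ‖x‖ ≤ ρ)
    (hTM : ∀ e, ∑' j : ℤ, ((({m | m ∈ Lj γ B j ∧ m ∈ H e ∧ ‖m‖ ≤ 2 * ρ} : Set E).encard : ℕ∞) :
      ℝ≥0∞) * ∫⁻ x in E₀, ‖φ ((B ^ (-j)) x)‖ₑ ^ 2 ≠ ⊤) :
    volume E₀ ≤ volume (Q0 γ) * ∫⁻ x in E₀, calS B φ x := by
  classical
  obtain ⟨-, hv0, hvt⟩ := map_coordT γ
  have hφ := memLp_of_isONB h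
  have hEt : volume E₀ ≠ ⊤ := by
    have : E₀ ⊆ Metric.closedBall 0 ρ := fun x hx => by
      rw [mem_closedBall_zero_iff]
      exact hb x hx
    exact ((measure_mono this).trans_lt measure_closedBall_lt_top).ne
  choose F hFNN hFen hFmn hFsupp using fun j => exists_energyTP (γ := γ) (B := B) hφ hE₀ hb j
  have hL2 : ∀ x, MemLp (mi E₀ x) 2 (volume : Measure E) := fun x => mi_memLp hE₀ hEt x
  have hmi : ∀ x, ∫⁻ ξ, ‖mi E₀ x ξ‖ₑ ^ 2 = volume E₀ := by
    intro x
    rw [← setLIntegral_one, ← lintegral_indicator hE₀]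
    congr 1
    ext ξ
    unfold mi
    by_cases hξ : ξ ∈ E₀
    · rw [Set.indicator_of_mem hξ, Set.indicator_of_mem hξ, ← ofReal_norm, norm_ee,
        ENNReal.ofReal_one, one_pow]
    · rw [Set.indicator_of_notMem hξ, Set.indicator_of_notMem hξ]
      simp
  have hsum : ∀ x, HasSum (fun j => (ev x (F j)).re) (volume E₀).toReal := by
    intro x
    have h1 : ∑' j, ENNReal.ofReal (ev x (F j)).re = volume E₀ := by
      simp only [hFen]
      rw [tsum_en h (hL2 x), hmi]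
    have h2 : ∀ j, (ENNReal.ofReal (ev x (F j)).re).toReal = (ev x (F j)).re := fun j =>
      ENNReal.toReal_ofReal (hFNN j x).2
    have h3 : Summable (fun j => (ENNReal.ofReal (ev x (F j)).re).toReal) :=
      ENNReal.summable_toReal (by rw [h1]; exact hEt)
    have h4 := h3.hasSum
    rw [← ENNReal.tsum_toReal_eq (fun j => ENNReal.ofReal_ne_top), h1] at h4
    simpa only [h2] using h4
  have hrem := removal F hFNN (volume E₀).toReal hsum S H A₁ hcover
    (fun e x₀ ε hε => UT_of_late (fun x₀ => lateOK_all hAB hφm h (hAr e) (hL2 x₀)) hFNN hFen x₀ hε)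
    (fun e => by
      set t : ℤ → ℝ≥0∞ := fun j => ((({m | m ∈ Lj γ B j ∧ m ∈ H e ∧ ‖m‖ ≤ 2 * ρ} :
        Set E).encard : ℕ∞) : ℝ≥0∞) *
        (volume (Q0 γ) * ∫⁻ x in E₀, ‖φ ((B ^ (-j)) x)‖ₑ ^ 2) with ht
      have htsum : ∑' j, t j ≠ ⊤ := by
        have h1 : ∀ j, t j = volume (Q0 γ) *
            (((({m | m ∈ Lj γ B j ∧ m ∈ H e ∧ ‖m‖ ≤ 2 * ρ} : Set E).encard : ℕ∞) : ℝ≥0∞) *
              ∫⁻ x in E₀, ‖φ ((B ^ (-j)) x)‖ₑ ^ 2) := by
          intro j
          rw [ht]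
          ring
        simp only [h1]
        rw [ENNReal.tsum_mul_left]
        exact ENNReal.mul_ne_top hvt (hTM e)
      have htj : ∀ j, t j ≠ ⊤ := fun j => ne_top_of_le_ne_top htsum (ENNReal.le_tsum j)
      refine ⟨fun j => (t j).toReal, fun j => ENNReal.toReal_nonneg,
        ENNReal.summable_toReal htsum, fun j Q x₀ hQ hQH => ?_⟩
      have h1 := (hFNN j).mn_mul_wt_le hQ hQH x₀
      rw [← ENNReal.ofReal_le_iff_le_toReal (htj j)]
      refine (ENNReal.ofReal_le_ofReal h1).trans ?_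
      rw [ENNReal.ofReal_mul (by positivity), hFmn, ENNReal.ofReal_natCast]
      simp only [ht]
      refine mul_le_mul_left ?_ _
      have h2 : (((F j).coeff.support.filter (fun m => m ∈ H e) : Finset E) : Set E)
          ⊆ {m | m ∈ Lj γ B j ∧ m ∈ H e ∧ ‖m‖ ≤ 2 * ρ} := by
        intro m hm
        rw [Finset.mem_coe, Finset.mem_filter, Finsupp.mem_support_iff] at hm
        obtain ⟨h3, h4⟩ := hm
        obtain ⟨h5, h6⟩ := hFsupp j m h3
        exact ⟨h5, h4, h6⟩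
      have h3 := Set.encard_le_encard h2
      rw [Set.encard_coe_eq_coe_finsetCard] at h3
      have h4 : (((F j).coeff.support.filter (fun m => m ∈ H e)).card : ℝ≥0∞)
          = (((((F j).coeff.support.filter (fun m => m ∈ H e)).card : ℕ) : ℕ∞) : ℝ≥0∞) := by
        simp
      rw [h4]
      exact_mod_cast h3)
  -- conclusion
  have hterm : ∀ j : ℤ, Measurable fun x => ‖φ ((B ^ (-j)) x)‖ₑ ^ 2 := fun j =>
    (hφm.comp (B ^ (-j)).continuous.measurable).enorm.pow_const 2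
  have hbound : ∀ F' : Finset ℤ, ENNReal.ofReal (∑ j ∈ F', (mn (F j)).re)
      ≤ volume (Q0 γ) * ∫⁻ x in E₀, calS B φ x := by
    intro F'
    rw [ENNReal.ofReal_sum_of_nonneg (fun j _ => (hFNN j).mn_nonneg)]
    simp only [hFmn]
    rw [← Finset.mul_sum]
    gcongr
    have h1 : ∫⁻ x in E₀, calS B φ x = ∑' j : ℤ, ∫⁻ x in E₀, ‖φ ((B ^ (-j)) x)‖ₑ ^ 2 := by
      unfold calS
      rw [lintegral_tsum (fun j => (hterm j).aemeasurable)]
    rw [h1]
    exact ENNReal.sum_le_tsum F'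
  apply ENNReal.le_of_forall_pos_le_add
  intro ε hε _
  obtain ⟨F', hF'⟩ := hrem ε hε
  have h1 : volume E₀ = ENNReal.ofReal (volume E₀).toReal := (ENNReal.ofReal_toReal hEt).symm
  rw [h1]
  calc ENNReal.ofReal (volume E₀).toReal
      ≤ ENNReal.ofReal (∑ j ∈ F', (mn (F j)).re + ε) := by
        apply ENNReal.ofReal_le_ofReal
        linarith
    _ ≤ ENNReal.ofReal (∑ j ∈ F', (mn (F j)).re) + ENNReal.ofReal ε := ENNReal.ofReal_add_le
    _ ≤ volume (Q0 γ) * (∫⁻ x in E₀, calS B φ x) + ε := by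
        rw [ENNReal.ofReal_coe_nnreal]
        exact add_le_add_left (hbound F') _

end Pool.Agent.Lib_helper44
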