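import Mathlib

open Polynomial Matrix

set_option linter.unusedSectionVars false

namespace Pool.Agent.Lib_helper44

section padic

variable {p : ℕ} [hp : Fact p.Prime]

/-- `p`-adic size of `p ^ i / i !` -/
theorem padic_fact_lt {D s i : ℕ} (hD : D + 2 ≤ p) (hs : s < D) (hi : s < i) :
    ‖((p : ℚ_[p]) ^ i / (i.factorial : ℚ_[p]))‖ < ‖((p : ℚ_[p]) ^ s / (s.factorial : ℚ_[p]))‖ := by
  have hp1 : (1 : ℝ) < p := by exact_mod_cast hp.1.one_lt
  have hp0 : (0 : ℝ) < p := by positivity
  have hsfac : ‖(s.factorial : ℚ_[p])‖ = 1 := by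
    rw [Padic.norm_natCast_eq_one_iff]
    rw [Nat.Prime.coprime_iff_not_dvd hp.1, hp.1.dvd_factorial]
    omega
  have hifac : ‖(i.factorial : ℚ_[p])‖ = (p : ℝ) ^ (-(padicValNat p i.factorial : ℤ)) := by
    have h1 : ((i.factorial : ℚ) : ℚ_[p]) = (i.factorial : ℚ_[p]) := by norm_cast
    rw [← h1, Padic.eq_padicNorm, padicNorm.eq_zpow_of_nonzero]
    · push_cast
      congr 2
    · exact_mod_cast i.factorial_ne_zero
  have hval : (s : ℤ) < i - padicValNat p i.factorial := by
    have hi0 : i ≠ 0 := by omega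
    by_cases hip : i < p
    · have : padicValNat p i.factorial = 0 := by
        apply padicValNat.eq_zero_of_not_dvd
        rw [hp.1.dvd_factorial]
        omega
      rw [this]
      push_cast
      omega
    · have h2 := sub_one_mul_padicValNat_factorial_lt_of_ne_zero p hi0
      have h3 : (p : ℤ) - 1 = ((p - 1 : ℕ) : ℤ) := by
        have := hp.1.one_lt
        push_cast [Nat.cast_sub this.le]
        ring
      set v := padicValNat p i.factorial with hv
      have h4 : ((p : ℤ) - 1) * v < i := by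
        rw [h3]
        exact_mod_cast h2
      push Not at hip
      have h5 : (p : ℤ) ≤ i := by exact_mod_cast hip
      have h6 : (D : ℤ) + 2 ≤ p := by exact_mod_cast hD
      have h7 : (s : ℤ) < D := by exact_mod_cast hs
      by_contra hcon
      push Not at hcon
      -- i - v ≤ s ≤ p - 3
      have h8 : (i : ℤ) - s ≤ v := by linarith
      have h9 : ((p : ℤ) - 1) * (i - s) ≤ ((p : ℤ) - 1) * v := by
        apply mul_le_mul_of_nonneg_left h8
        linarith
      nlinarith
  rw [norm_div, norm_div, hsfac, hifac, div_one, Padic.norm_p_pow, Padic.norm_p_pow,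
    ← zpow_sub₀ hp0.ne']
  apply zpow_lt_zpow_right₀ hp1
  omega

theorem padic_zeros {D : ℕ} (hD : D + 2 ≤ p) (a : ℕ → ℚ_[p]) (c : ℕ → ℤ_[p])
    (hrec : ∀ i, a (i + D) = ∑ s ∈ Finset.range D, (c s : ℚ_[p]) * a (i + s))
    (t : Finset ℕ) (ht : D ≤ t.card)
    (hf : ∀ k ∈ t, ∑ i ∈ Finset.range (k + 1), (k.choose i : ℚ_[p]) * (p : ℚ_[p]) ^ i * a i = 0) :
    ∀ i, a i = 0 := by
  classical
  -- it suffices to treat the first terms
  suffices hfirst : ∀ s < D, a s = 0 by
    intro i
    induction i using Nat.strong_induction_on with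
    | _ i ih =>
      by_cases hi : i < D
      · exact hfirst i hi
      · obtain ⟨i', rfl⟩ := Nat.exists_eq_add_of_le (not_lt.mp hi)
        rw [add_comm D i', hrec]
        apply Finset.sum_eq_zero
        intro s hs
        rw [Finset.mem_range] at hs
        rw [ih (i' + s) (by omega), mul_zero]
  by_contra hcon
  push Not at hcon
  obtain ⟨s₀, hs₀, has₀⟩ := hcon
  obtain ⟨s, hs, hmax⟩ := Finset.exists_max_image (Finset.range D) (fun s => ‖a s‖)
    ⟨s₀, Finset.mem_range.mpr hs₀⟩
  rw [Finset.mem_range] at hs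
  set M : ℝ := ‖a s‖ with hM
  have hMpos : 0 < M := by
    have := hmax s₀ (Finset.mem_range.mpr hs₀)
    exact lt_of_lt_of_le (norm_pos_iff.mpr has₀) this
  have hbound : ∀ i, ‖a i‖ ≤ M := by
    intro i
    induction i using Nat.strong_induction_on with
    | _ i ih =>
      by_cases hi : i < D
      · exact hmax i (Finset.mem_range.mpr hi)
      · obtain ⟨i', rfl⟩ := Nat.exists_eq_add_of_le (not_lt.mp hi)
        rw [add_comm D i', hrec]
        apply IsUltrametricDist.norm_sum_le_of_forall_le_of_nonneg hMpos.le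
        intro s' hs'
        rw [Finset.mem_range] at hs'
        rw [norm_mul]
        calc ‖(c s' : ℚ_[p])‖ * ‖a (i' + s')‖ ≤ 1 * M := by
              apply mul_le_mul (PadicInt.norm_le_one _) (ih (i' + s') (by omega))
                (norm_nonneg _) zero_le_one
          _ = M := one_mul M
  -- choose the zeros
  obtain ⟨t', ht't, ht'card⟩ := Finset.exists_subset_card_eq (show s + 1 ≤ t.card by omega)
  obtain ⟨K, hK⟩ : ∃ K, ∀ κ ∈ t', κ ≤ K := ⟨t'.sup id, fun κ hκ => Finset.le_sup (f := id) hκ⟩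
  have hsK : s ≤ K := by
    have h1 : t' ⊆ Finset.range (K + 1) := fun κ hκ => Finset.mem_range.mpr (by
      have := hK κ hκ; omega)
    have h2 := Finset.card_le_card h1
    rw [ht'card, Finset.card_range] at h2
    omega
  set W : ℤ[X] := ∏ κ ∈ t', (X - C (κ : ℤ)) with hW
  have hWmonic : W.Monic := monic_prod_of_monic _ _ fun κ _ => monic_X_sub_C _
  have hWdeg : W.natDegree = s + 1 := by
    rw [hW, natDegree_prod_of_monic _ _ (fun κ _ => monic_X_sub_C _)]
    have h1 : ∀ κ ∈ t', (X - C ((κ : ℕ) : ℤ)).natDegree = 1 := fun κ _ => natDegree_X_sub_C _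
    rw [Finset.sum_congr rfl h1, Finset.sum_const, ht'card, smul_eq_mul, mul_one]
  have hWroot : ∀ κ ∈ t', W.eval (κ : ℤ) = 0 := by
    intro κ hκ
    rw [hW, eval_prod]
    apply Finset.prod_eq_zero hκ
    simp
  let ρ : ℕ → ℤ[X] := fun i => descPochhammer ℤ i %ₘ W
  have hρdeg : ∀ i, (ρ i).natDegree ≤ s := by
    intro i
    have := natDegree_modByMonic_lt (descPochhammer ℤ i) hWmonic (by
      intro h1
      rw [h1] at hWdeg
      simp at hWdeg)
    rw [hWdeg] at this
    exact Nat.lt_succ_iff.mp this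
  have hρeval : ∀ i, ∀ κ ∈ t', (ρ i).eval (κ : ℤ) = (κ.descFactorial i : ℤ) := by
    intro i κ hκ
    have h1 := congrArg (fun P => eval (κ : ℤ) P) (modByMonic_add_div (descPochhammer ℤ i) W)
    simp only [eval_add, eval_mul] at h1
    rw [hWroot κ hκ, zero_mul, add_zero] at h1
    rw [h1, descPochhammer_eval_eq_descFactorial]
  have hρlow : ∀ i ≤ s, ρ i = descPochhammer ℤ i := by
    intro i hi
    apply (modByMonic_eq_self_iff hWmonic).mpr
    apply degree_lt_degree
    rw [hWdeg, descPochhammer_natDegree]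
    omega
  -- the polynomial
  let G : ℚ_[p][X] := ∑ i ∈ Finset.range (K + 1),
    C ((p : ℚ_[p]) ^ i / (i.factorial : ℚ_[p]) * a i) * (ρ i).map (Int.castRingHom ℚ_[p])
  have hGdeg : G.natDegree ≤ s := by
    apply natDegree_sum_le_of_forall_le
    intro i _
    refine (natDegree_C_mul_le _ _).trans ?_
    exact (natDegree_map_le).trans (hρdeg i)
  have hGeval : ∀ κ ∈ t', G.eval (κ : ℚ_[p]) = 0 := by
    intro κ hκ
    have h1 : ∀ i, ((ρ i).map (Int.castRingHom ℚ_[p])).eval (κ : ℚ_[p])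
        = (κ.descFactorial i : ℚ_[p]) := by
      intro i
      have h2 := eval_intCast_map (Int.castRingHom ℚ_[p]) (ρ i) (κ : ℤ)
      have h3 : eval ((κ : ℤ) : ℤ) (ρ i) = (κ.descFactorial i : ℤ) := hρeval i κ hκ
      simp only [Int.cast_id] at h2
      rw [h3] at h2
      push_cast at h2
      exact h2
    simp only [G, eval_finsetSum, eval_mul, eval_C, h1]
    rw [← hf κ (ht't hκ)]
    have hκK := hK κ hκ
    have hsub : Finset.range (κ + 1) ⊆ Finset.range (K + 1) :=
      Finset.range_subset_range.mpr (by omega)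
    symm
    rw [← Finset.sum_subset hsub]
    · apply Finset.sum_congr rfl
      intro i _
      rw [Nat.descFactorial_eq_factorial_mul_choose]
      have h3 : (i.factorial : ℚ_[p]) ≠ 0 := by exact_mod_cast i.factorial_ne_zero
      push_cast
      field_simp
    · intro i _ hi
      rw [Finset.mem_range, not_lt] at hi
      rw [Nat.descFactorial_eq_zero_iff_lt.mpr (by omega), Nat.cast_zero, mul_zero]
  have hG0 : G = 0 := by
    apply eq_zero_of_natDegree_lt_card_of_eval_eq_zero' G (t'.image (fun κ : ℕ => (κ : ℚ_[p])))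
    · intro x hx
      obtain ⟨κ, hκ, rfl⟩ := Finset.mem_image.mp hx
      exact hGeval κ hκ
    · rw [Finset.card_image_of_injective _ Nat.cast_injective, ht'card]
      omega
  have hcoef : ∑ i ∈ Finset.range (K + 1),
      (p : ℚ_[p]) ^ i / (i.factorial : ℚ_[p]) * a i * ((ρ i).coeff s : ℚ_[p]) = 0 := by
    have h1 := congrArg (fun P => P.coeff s) hG0
    simp only [G, finsetSum_coeff, coeff_C_mul, coeff_map, coeff_zero] at h1
    exact h1
  rw [← Finset.sum_erase_add _ _ (Finset.mem_range.mpr (by omega : s < K + 1))] at hcoef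
  have hρs : ((ρ s).coeff s : ℚ_[p]) = 1 := by
    rw [hρlow s le_rfl]
    have h1 := (monic_descPochhammer ℤ s).coeff_natDegree
    rw [descPochhammer_natDegree] at h1
    rw [h1]
    simp
  rw [hρs, mul_one] at hcoef
  have hlt : ‖∑ i ∈ (Finset.range (K + 1)).erase s,
      (p : ℚ_[p]) ^ i / (i.factorial : ℚ_[p]) * a i * ((ρ i).coeff s : ℚ_[p])‖
      < ‖(p : ℚ_[p]) ^ s / (s.factorial : ℚ_[p]) * a s‖ := by
    have hpos : 0 < ‖(p : ℚ_[p]) ^ s / (s.factorial : ℚ_[p]) * a s‖ := by
      rw [norm_mul]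
      apply mul_pos _ hMpos
      rw [norm_pos_iff]
      apply div_ne_zero
      · exact pow_ne_zero _ (by exact_mod_cast hp.1.ne_zero)
      · exact_mod_cast s.factorial_ne_zero
    rcases (Finset.eq_empty_or_nonempty ((Finset.range (K + 1)).erase s)) with he | hne
    · rw [he, Finset.sum_empty, norm_zero]
      exact hpos
    · obtain ⟨i, hi, hle⟩ := IsUltrametricDist.exists_norm_finsetSum_le_of_nonempty hne
        (fun i => (p : ℚ_[p]) ^ i / (i.factorial : ℚ_[p]) * a i * ((ρ i).coeff s : ℚ_[p]))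
      refine lt_of_le_of_lt hle ?_
      rw [Finset.mem_erase, Finset.mem_range] at hi
      rcases lt_or_gt_of_ne hi.1 with his | his
      · have h1 : (ρ i).coeff s = 0 := by
          rw [hρlow i his.le]
          apply coeff_eq_zero_of_natDegree_lt
          rwa [descPochhammer_natDegree]
        rw [h1]
        simpa using hpos
      · rw [norm_mul, norm_mul, norm_mul]
        have h1 := padic_fact_lt (p := p) hD hs his
        have h2 : ‖((ρ i).coeff s : ℚ_[p])‖ ≤ 1 := Padic.norm_int_le_one _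
        calc ‖(p : ℚ_[p]) ^ i / (i.factorial : ℚ_[p])‖ * ‖a i‖ * ‖((ρ i).coeff s : ℚ_[p])‖
            ≤ ‖(p : ℚ_[p]) ^ i / (i.factorial : ℚ_[p])‖ * M * 1 := by
              gcongr
              exact hbound i
          _ = ‖(p : ℚ_[p]) ^ i / (i.factorial : ℚ_[p])‖ * M := mul_one _
          _ < ‖(p : ℚ_[p]) ^ s / (s.factorial : ℚ_[p])‖ * M :=
              mul_lt_mul_of_pos_right h1 hMpos
  rw [eq_neg_of_add_eq_zero_left hcoef, norm_neg] at hlt
  exact lt_irrefl _ hlt

end padic

theorem skolem_matrix (D : ℕ) (M Mi : Matrix (Fin D) (Fin D) ℚ) (h1 : M * Mi = 1)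
    (h2 : Mi * M = 1) :
    ∃ q : ℕ, 0 < q ∧ ∀ u w : Fin D → ℚ, ∀ t : Finset ℕ, D ≤ t.card →
      (∀ k ∈ t, u ⬝ᵥ ((M ^ (q * k)) *ᵥ w) = 0) → ∀ k : ℕ, u ⬝ᵥ ((M ^ (q * k)) *ᵥ w) = 0 := by
  classical
  -- the prime
  set N : ℕ := ∏ i, ∏ j, ((M i j).den * (Mi i j).den) with hN
  have hNpos : 0 < N := by
    apply Finset.prod_pos
    intro i _
    apply Finset.prod_pos
    intro j _
    exact Nat.mul_pos (Rat.den_pos _) (Rat.den_pos _)
  obtain ⟨p, hpge, hpprime⟩ := Nat.exists_infinite_primes (max (N + 1) (D + 2))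
  have hp : Fact p.Prime := ⟨hpprime⟩
  have hpN : N < p := by
    have := le_max_left (N + 1) (D + 2)
    omega
  have hpD : D + 2 ≤ p := (le_max_right _ _).trans hpge
  have hden : ∀ i j, ¬ p ∣ (M i j).den ∧ ¬ p ∣ (Mi i j).den := by
    intro i j
    have hd : (M i j).den * (Mi i j).den ∣ N := by
      have h3 : ∏ j, ((M i j).den * (Mi i j).den) ∣ N :=
        Finset.dvd_prod_of_mem (fun i => ∏ j, ((M i j).den * (Mi i j).den)) (Finset.mem_univ i)
      exact (Finset.dvd_prod_of_mem (fun j => (M i j).den * (Mi i j).den)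
        (Finset.mem_univ j)).trans h3
    constructor
    · intro hcon
      have := Nat.le_of_dvd hNpos ((hcon.trans (dvd_mul_right _ _)).trans hd)
      omega
    · intro hcon
      have := Nat.le_of_dvd hNpos ((hcon.trans (dvd_mul_left _ _)).trans hd)
      omega
  let M' : Matrix (Fin D) (Fin D) ℤ_[p] := fun i j => ⟨(M i j : ℚ_[p]),
    Padic.norm_rat_le_one (hden i j).1⟩
  let Mi' : Matrix (Fin D) (Fin D) ℤ_[p] := fun i j => ⟨(Mi i j : ℚ_[p]),
    Padic.norm_rat_le_one (hden i j).2⟩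
  let ι : ℤ_[p] →+* ℚ_[p] := PadicInt.Coe.ringHom
  let r : ℚ →+* ℚ_[p] := Rat.castHom ℚ_[p]
  have hιinj : Function.Injective ι := fun a b hab => Subtype.ext hab
  have hM' : ι.mapMatrix M' = r.mapMatrix M := by
    ext i j
    rfl
  have hMi' : ι.mapMatrix Mi' = r.mapMatrix Mi := by
    ext i j
    rfl
  have hinjm : Function.Injective (ι.mapMatrix (m := Fin D)) := by
    intro a b hab
    ext1 i j
    apply hιinj
    have := congrFun (congrFun hab i) j
    exact this
  have h1' : M' * Mi' = 1 := by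
    apply hinjm
    rw [map_mul, hM', hMi', ← map_mul, h1, map_one, map_one]
  have h2' : Mi' * M' = 1 := by
    apply hinjm
    rw [map_mul, hM', hMi', ← map_mul, h2, map_one, map_one]
  -- the order modulo p
  let z : ℤ_[p] →+* ZMod p := PadicInt.toZMod
  let U : (Matrix (Fin D) (Fin D) (ZMod p))ˣ :=
    ⟨z.mapMatrix M', z.mapMatrix Mi', by rw [← map_mul, h1', map_one],
      by rw [← map_mul, h2', map_one]⟩
  obtain ⟨q, hq0, hq⟩ := (isOfFinOrder_iff_pow_eq_one).mp (isOfFinOrder_of_finite U)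
  have hq' : z.mapMatrix (M' ^ q) = 1 := by
    rw [map_pow]
    have h3 := congrArg Units.val hq
    rw [Units.val_pow_eq_pow_val, Units.val_one] at h3
    exact h3
  have hdvd : ∀ i j, (p : ℤ_[p]) ∣ (M' ^ q - 1) i j := by
    intro i j
    rw [← Ideal.mem_span_singleton, ← PadicInt.maximalIdeal_eq_span_p, ← PadicInt.ker_toZMod,
      RingHom.mem_ker]
    have h3 : z.mapMatrix (M' ^ q - 1) = 0 := by rw [map_sub, hq', map_one, sub_self]
    exact congrFun (congrFun h3 i) j
  choose X hX using hdvd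
  have hMq : M' ^ q = (p : ℤ_[p]) • (Matrix.of X) + 1 := by
    have : M' ^ q - 1 = (p : ℤ_[p]) • (Matrix.of X) := by
      ext1 i j
      rw [Matrix.smul_apply, smul_eq_mul]
      exact hX i j
    rw [← this]
    abel
  set Xm : Matrix (Fin D) (Fin D) ℤ_[p] := Matrix.of X with hXm
  refine ⟨q, hq0, fun u w t ht hzero k => ?_⟩
  -- the functional
  let L : Matrix (Fin D) (Fin D) ℤ_[p] →+ ℚ_[p] :=
    { toFun := fun A => ∑ i, ∑ j, (u i : ℚ_[p]) * ((A i j : ℤ_[p]) : ℚ_[p]) * (w j : ℚ_[p])
      map_zero' := by simp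
      map_add' := by
        intro A A'
        rw [← Finset.sum_add_distrib]
        apply Finset.sum_congr rfl
        intro i _
        rw [← Finset.sum_add_distrib]
        apply Finset.sum_congr rfl
        intro j _
        rw [Matrix.add_apply]
        push_cast
        ring }
  have hLapp : ∀ A, L A = ∑ i, ∑ j, (u i : ℚ_[p]) * ((A i j : ℤ_[p]) : ℚ_[p]) * (w j : ℚ_[p]) :=
    fun A => rfl
  have hLsmul : ∀ (c : ℤ_[p]) A, L (c • A) = (c : ℚ_[p]) * L A := by
    intro c A
    rw [hLapp, hLapp, Finset.mul_sum]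
    apply Finset.sum_congr rfl
    intro i _
    rw [Finset.mul_sum]
    apply Finset.sum_congr rfl
    intro j _
    rw [Matrix.smul_apply, smul_eq_mul]
    push_cast
    ring
  have hLM : ∀ m : ℕ, L (M' ^ m) = ((u ⬝ᵥ ((M ^ m) *ᵥ w) : ℚ) : ℚ_[p]) := by
    intro m
    have h3 : ι.mapMatrix (M' ^ m) = r.mapMatrix (M ^ m) := by
      rw [map_pow, map_pow, hM']
    have h4 : ∀ i j, (((M' ^ m) i j : ℤ_[p]) : ℚ_[p]) = (((M ^ m) i j : ℚ) : ℚ_[p]) := by
      intro i j
      exact congrFun (congrFun h3 i) j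
    rw [hLapp]
    simp only [h4, dotProduct, mulVec]
    push_cast
    apply Finset.sum_congr rfl
    intro i _
    rw [Finset.mul_sum]
    apply Finset.sum_congr rfl
    intro j _
    ring
  have hbin : ∀ m : ℕ, L (M' ^ (q * m)) = ∑ i ∈ Finset.range (m + 1),
      (m.choose i : ℚ_[p]) * (p : ℚ_[p]) ^ i * L (Xm ^ i) := by
    intro m
    rw [pow_mul, hMq, Commute.add_pow (Commute.one_right _), map_sum]
    apply Finset.sum_congr rfl
    intro i _
    rw [one_pow, mul_one]
    have h3 : ((p : ℤ_[p]) • Xm) ^ i * ((m.choose i : ℕ) : Matrix (Fin D) (Fin D) ℤ_[p])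
        = (((m.choose i : ℕ) : ℤ_[p]) * (p : ℤ_[p]) ^ i) • Xm ^ i := by
      rw [_root_.smul_pow, ← nsmul_eq_mul', mul_smul, ← Nat.cast_smul_eq_nsmul ℤ_[p]]
    rw [h3, hLsmul]
    push_cast
    ring
  -- the recurrence
  have hrec : ∀ i, L (Xm ^ (i + D)) = ∑ s ∈ Finset.range D,
      ((-(Xm.charpoly.coeff s) : ℤ_[p]) : ℚ_[p]) * L (Xm ^ (i + s)) := by
    intro i
    have h3 := Matrix.aeval_self_charpoly Xm
    rw [aeval_eq_sum_range, Matrix.charpoly_natDegree_eq_dim, Fintype.card_fin,
      Finset.sum_range_succ] at h3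
    have h4 : Xm.charpoly.coeff D = 1 := by
      have h5 := (Matrix.charpoly_monic Xm).coeff_natDegree
      rwa [Matrix.charpoly_natDegree_eq_dim, Fintype.card_fin] at h5
    rw [h4, one_smul] at h3
    have h5 : Xm ^ (i + D) = ∑ s ∈ Finset.range D, (-(Xm.charpoly.coeff s)) • Xm ^ (i + s) := by
      rw [pow_add, eq_neg_of_add_eq_zero_right h3, mul_neg, Finset.mul_sum,
        ← Finset.sum_neg_distrib]
      apply Finset.sum_congr rfl
      intro s _
      rw [mul_smul_comm, ← pow_add, neg_smul]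
    rw [h5, map_sum]
    apply Finset.sum_congr rfl
    intro s _
    rw [hLsmul]
  have hall := padic_zeros (p := p) hpD (fun i => L (Xm ^ i)) (fun s => -(Xm.charpoly.coeff s))
    hrec t ht (fun k hk => by
      rw [← hbin, hLM, hzero k hk]
      simp)
  have hfin : ((u ⬝ᵥ ((M ^ (q * k)) *ᵥ w) : ℚ) : ℚ_[p]) = 0 := by
    rw [← hLM, hbin]
    apply Finset.sum_eq_zero
    intro i _
    rw [hall i, mul_zero]
  exact_mod_cast hfin

end Pool.Agent.Lib_helper44
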