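import Mathlib
import Pool.Agent.Lib_helper44.Skolem

open scoped Matrix

set_option linter.unusedSectionVars false

namespace Pool.Agent.Lib_helper44

section fd

variable {Y : Type*} [AddCommGroup Y] [Module ℚ Y]

theorem skolem_fd [FiniteDimensional ℚ Y] (τ : Y ≃ₗ[ℚ] Y) (V : Submodule ℚ Y) :
    ∃ (q : ℕ) (C : ℕ), 0 < q ∧ ∀ y : Y, (∀ k : ℤ, (τ ^ ((q : ℤ) * k)) y ∈ V) ∨
      ({k : ℤ | (τ ^ ((q : ℤ) * k)) y ∈ V} : Set ℤ).encard ≤ C := by
  classical
  set D := Module.finrank ℚ Y with hD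
  let b : Module.Basis (Fin D) ℚ Y := Module.finBasis ℚ Y
  set M : Matrix (Fin D) (Fin D) ℚ := LinearMap.toMatrixAlgEquiv b (τ : Y →ₗ[ℚ] Y) with hM
  set Mi : Matrix (Fin D) (Fin D) ℚ := LinearMap.toMatrixAlgEquiv b (τ.symm : Y →ₗ[ℚ] Y) with hMi
  have e1 : (τ : Y →ₗ[ℚ] Y) * (τ.symm : Y →ₗ[ℚ] Y) = 1 := by
    ext x
    simp
  have e2 : (τ.symm : Y →ₗ[ℚ] Y) * (τ : Y →ₗ[ℚ] Y) = 1 := by
    ext x
    simp
  have h1 : M * Mi = 1 := by rw [hM, hMi, ← map_mul, e1, map_one]
  have h2 : Mi * M = 1 := by rw [hM, hMi, ← map_mul, e2, map_one]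
  obtain ⟨q, hq0, hq⟩ := skolem_matrix D M Mi h1 h2
  refine ⟨q, D, hq0, fun y => ?_⟩
  by_cases hle : ({k : ℤ | (τ ^ ((q : ℤ) * k)) y ∈ V} : Set ℤ).encard ≤ D
  · exact Or.inr hle
  left
  intro k₁
  rw [not_le] at hle
  obtain ⟨t₀, ht₀s, ht₀⟩ := Set.exists_subset_encard_eq hle.le
  have ht₀fin : t₀.Finite := Set.finite_of_encard_eq_coe ht₀
  set t : Finset ℤ := ht₀fin.toFinset with ht
  have htcard : t.card = D := by
    have h3 : ((t : Set ℤ)).encard = D := by rw [ht, Set.Finite.coe_toFinset, ht₀]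
    rw [Set.encard_coe_eq_coe_finsetCard] at h3
    exact_mod_cast h3
  have htmem : ∀ k ∈ t, (τ ^ ((q : ℤ) * k)) y ∈ V := by
    intro k hk
    exact ht₀s (ht₀fin.mem_toFinset.mp hk)
  obtain ⟨k₀, hk₀1, hk₀t⟩ : ∃ k₀ : ℤ, k₀ ≤ k₁ ∧ ∀ k ∈ t, k₀ ≤ k := by
    refine ⟨(insert k₁ t).min' (Finset.insert_nonempty _ _), ?_, fun k hk => ?_⟩
    · exact Finset.min'_le _ _ (Finset.mem_insert_self _ _)
    · exact Finset.min'_le _ _ (Finset.mem_insert_of_mem hk)
  set y' := (τ ^ ((q : ℤ) * k₀)) y with hy'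
  have hshift : ∀ k : ℤ, k₀ ≤ k → (τ ^ ((q : ℤ) * k)) y = ((τ : Y →ₗ[ℚ] Y) ^ (q * (k - k₀).toNat)) y' := by
    intro k hk
    have h3 : (q : ℤ) * k = ((q * (k - k₀).toNat : ℕ) : ℤ) + (q : ℤ) * k₀ := by
      push_cast
      rw [Int.toNat_of_nonneg (by omega)]
      ring
    rw [h3, zpow_add, zpow_natCast, hy']
    have h4 : ∀ (m : ℕ) (x : Y), (τ ^ m) x = ((τ : Y →ₗ[ℚ] Y) ^ m) x := by
      intro m
      induction m with
      | zero => intro x; rfl
      | succ m ih =>
        intro x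
        rw [pow_succ, pow_succ]
        exact ih (τ x)
    exact h4 _ _
  have hfun : ∀ (l : Module.Dual ℚ Y) (m : ℕ), l (((τ : Y →ₗ[ℚ] Y) ^ m) y')
      = (fun i => l (b i)) ⬝ᵥ ((M ^ m) *ᵥ (fun i => b.repr y' i)) := by
    intro l m
    have h3 : (M ^ m) *ᵥ (fun i => b.repr y' i) = fun i => b.repr (((τ : Y →ₗ[ℚ] Y) ^ m) y') i := by
      rw [hM, ← map_pow]
      exact LinearMap.toMatrix_mulVec_repr b b _ y'
    rw [h3]
    have h5 := b.sum_repr (((τ : Y →ₗ[ℚ] Y) ^ m) y')
    conv_lhs => rw [← h5]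
    rw [map_sum]
    simp only [dotProduct, map_smul, smul_eq_mul]
    apply Finset.sum_congr rfl
    intro i _
    ring
  rw [← Subspace.forall_mem_dualAnnihilator_apply_eq_zero_iff]
  intro l hl
  rw [hshift k₁ hk₀1, hfun]
  apply hq _ _ (t.image (fun k => (k - k₀).toNat))
  · rw [Finset.card_image_of_injOn, htcard]
    intro a ha c hc hac
    have h3 := hk₀t a ha
    have h4 := hk₀t c hc
    simp only at hac
    omega
  · intro m hm
    obtain ⟨k, hk, rfl⟩ := Finset.mem_image.mp hm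
    rw [← hfun, ← hshift k (hk₀t k hk)]
    rw [Submodule.mem_dualAnnihilator] at hl
    exact hl _ (htmem k hk)

end fd

section gen

variable {E : Type*} [AddCommGroup E] [Module ℚ E]

/-- the span of the orbit -/
def orb (τ : E ≃ₗ[ℚ] E) (v : E) : Submodule ℚ E := Submodule.span ℚ (Set.range fun k : ℤ => (τ ^ k) v)

theorem mem_orb (τ : E ≃ₗ[ℚ] E) (v : E) (k : ℤ) : (τ ^ k) v ∈ orb τ v :=
  Submodule.subset_span ⟨k, rfl⟩

theorem self_mem_orb (τ : E ≃ₗ[ℚ] E) (v : E) : v ∈ orb τ v := by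
  have := mem_orb τ v 0
  simpa using this

theorem orb_stable (τ : E ≃ₗ[ℚ] E) (v : E) (m : ℤ) {x : E} (hx : x ∈ orb τ v) :
    (τ ^ m) x ∈ orb τ v := by
  induction hx using Submodule.span_induction with
  | mem x hx =>
    obtain ⟨k, rfl⟩ := hx
    have : (τ ^ m) ((τ ^ k) v) = (τ ^ (m + k)) v := by rw [zpow_add]; rfl
    simp only
    rw [this]
    exact mem_orb τ v _
  | zero => rw [map_zero]; exact Submodule.zero_mem _
  | add x y _ _ hx hy => rw [map_add]; exact Submodule.add_mem _ hx hy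
  | smul c x _ hx => rw [map_smul]; exact Submodule.smul_mem _ _ hx

theorem orb_le {τ : E ≃ₗ[ℚ] E} {v : E} {W : Submodule ℚ E} (hv : v ∈ W)
    (h1 : ∀ x ∈ W, τ x ∈ W) (h2 : ∀ x ∈ W, τ.symm x ∈ W) : orb τ v ≤ W := by
  rw [orb, Submodule.span_le]
  rintro _ ⟨k, rfl⟩
  have hnat : ∀ m : ℕ, ∀ x ∈ W, (τ ^ m) x ∈ W := by
    intro m
    induction m with
    | zero => intro x hx; simpa using hx
    | succ m ih =>
      intro x hx
      rw [pow_succ]
      exact ih _ (h1 x hx)
  have hneg : ∀ m : ℕ, ∀ x ∈ W, ((τ⁻¹) ^ m) x ∈ W := by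
    intro m
    induction m with
    | zero => intro x hx; simpa using hx
    | succ m ih =>
      intro x hx
      rw [pow_succ]
      exact ih _ (h2 x hx)
  rcases Int.eq_nat_or_neg k with ⟨m, rfl | rfl⟩
  · simp only [zpow_natCast]
    exact hnat m v hv
  · simp only [zpow_neg, zpow_natCast]
    rw [← inv_pow]
    exact hneg m v hv

/-- a nontrivial relation makes the orbit finite dimensional -/
theorem orb_fd {τ : E ≃ₗ[ℚ] E} {v : E} {t : Finset ℤ} {g : ℤ → ℚ}
    (hrel : ∑ k ∈ t, g k • (τ ^ k) v = 0) (hne : ∃ k ∈ t, g k ≠ 0) :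
    FiniteDimensional ℚ (orb τ v) := by
  classical
  set t' := t.filter (fun k => g k ≠ 0) with ht'
  have ht'ne : t'.Nonempty := by
    obtain ⟨k, hk, hgk⟩ := hne
    exact ⟨k, Finset.mem_filter.mpr ⟨hk, hgk⟩⟩
  have hrel' : ∑ k ∈ t', g k • (τ ^ k) v = 0 := by
    rw [ht', Finset.sum_filter_of_ne]
    · exact hrel
    · intro k _ hk hgk
      apply hk
      rw [hgk, zero_smul]
  set a := t'.min' ht'ne with ha
  set b := t'.max' ht'ne with hb
  have hat : a ∈ t' := Finset.min'_mem _ _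
  have hbt : b ∈ t' := Finset.max'_mem _ _
  have hga : g a ≠ 0 := (Finset.mem_filter.mp hat).2
  have hgb : g b ≠ 0 := (Finset.mem_filter.mp hbt).2
  set W : Submodule ℚ E := Submodule.span ℚ ((fun k : ℤ => (τ ^ k) v) '' (Set.Icc a b)) with hW
  have hWfd : FiniteDimensional ℚ W := by
    apply FiniteDimensional.span_of_finite
    exact (Set.finite_Icc a b).image _
  have hmemW : ∀ k, a ≤ k → k ≤ b → (τ ^ k) v ∈ W := fun k h1 h2 =>
    Submodule.subset_span ⟨k, ⟨h1, h2⟩, rfl⟩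
  have hab : a ≤ b := Finset.min'_le _ _ hbt
  have hcomp : ∀ (m k : ℤ), (τ ^ m) ((τ ^ k) v) = (τ ^ (m + k)) v := by
    intro m k
    rw [zpow_add]
    rfl
  -- the end terms
  have hendb : (τ ^ (b + 1)) v ∈ W := by
    have h1 : g b • (τ ^ b) v = -∑ k ∈ t'.erase b, g k • (τ ^ k) v := by
      rw [← Finset.sum_erase_add _ _ hbt] at hrel'
      exact eq_neg_of_add_eq_zero_right hrel'
    have h2 : g b • (τ ^ (b + 1)) v = -∑ k ∈ t'.erase b, g k • (τ ^ (k + 1)) v := by
      have h3 := congrArg (fun x => (τ ^ (1 : ℤ)) x) h1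
      simp only [map_smul, map_neg, map_sum, hcomp] at h3
      rw [add_comm b 1, h3]
      congr 1
      apply Finset.sum_congr rfl
      intro k _
      rw [add_comm 1 k]
    have h4 : (τ ^ (b + 1)) v = (g b)⁻¹ • (g b • (τ ^ (b + 1)) v) := by
      rw [smul_smul, inv_mul_cancel₀ hgb, one_smul]
    rw [h4, h2]
    apply Submodule.smul_mem
    apply Submodule.neg_mem
    apply Submodule.sum_mem
    intro k hk
    apply Submodule.smul_mem
    have hk1 := Finset.mem_erase.mp hk
    have hka : a ≤ k := Finset.min'_le _ _ hk1.2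
    have hkb : k ≤ b := Finset.le_max' _ _ hk1.2
    exact hmemW _ (by omega) (by have := hk1.1; omega)
  have henda : (τ ^ (a - 1)) v ∈ W := by
    have h1 : g a • (τ ^ a) v = -∑ k ∈ t'.erase a, g k • (τ ^ k) v := by
      rw [← Finset.sum_erase_add _ _ hat] at hrel'
      exact eq_neg_of_add_eq_zero_right hrel'
    have h2 : g a • (τ ^ (a - 1)) v = -∑ k ∈ t'.erase a, g k • (τ ^ (k - 1)) v := by
      have h3 := congrArg (fun x => (τ ^ (-1 : ℤ)) x) h1
      simp only [map_smul, map_neg, map_sum, hcomp] at h3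
      rw [sub_eq_neg_add, h3]
      congr 1
      apply Finset.sum_congr rfl
      intro k _
      rw [sub_eq_neg_add]
    have h4 : (τ ^ (a - 1)) v = (g a)⁻¹ • (g a • (τ ^ (a - 1)) v) := by
      rw [smul_smul, inv_mul_cancel₀ hga, one_smul]
    rw [h4, h2]
    apply Submodule.smul_mem
    apply Submodule.neg_mem
    apply Submodule.sum_mem
    intro k hk
    apply Submodule.smul_mem
    have hk1 := Finset.mem_erase.mp hk
    have hka : a ≤ k := Finset.min'_le _ _ hk1.2
    have hkb : k ≤ b := Finset.le_max' _ _ hk1.2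
    exact hmemW _ (by have := hk1.1; omega) (by omega)
  have hst1 : ∀ x ∈ W, τ x ∈ W := by
    intro x hx
    induction hx using Submodule.span_induction with
    | mem x hx =>
      obtain ⟨k, ⟨hk1, hk2⟩, rfl⟩ := hx
      have : τ ((τ ^ k) v) = (τ ^ (k + 1)) v := by
        rw [add_comm, ← hcomp]
        simp
      simp only
      rw [this]
      rcases eq_or_lt_of_le hk2 with rfl | hlt
      · exact hendb
      · exact hmemW _ (by omega) (by omega)
    | zero => rw [map_zero]; exact Submodule.zero_mem _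
    | add x y _ _ hx hy => rw [map_add]; exact Submodule.add_mem _ hx hy
    | smul c x _ hx => rw [map_smul]; exact Submodule.smul_mem _ _ hx
  have hst2 : ∀ x ∈ W, τ.symm x ∈ W := by
    intro x hx
    induction hx using Submodule.span_induction with
    | mem x hx =>
      obtain ⟨k, ⟨hk1, hk2⟩, rfl⟩ := hx
      have : τ.symm ((τ ^ k) v) = (τ ^ (k - 1)) v := by
        rw [sub_eq_neg_add, ← hcomp]
        simp
      simp only
      rw [this]
      rcases eq_or_lt_of_le hk1 with heq | hlt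
      · rw [← heq]
        exact henda
      · exact hmemW _ (by omega) (by omega)
    | zero => rw [map_zero]; exact Submodule.zero_mem _
    | add x y _ _ hx hy => rw [map_add]; exact Submodule.add_mem _ hx hy
    | smul c x _ hx => rw [map_smul]; exact Submodule.smul_mem _ _ hx
  have hle : orb τ ((τ ^ a) v) ≤ W := orb_le (hmemW a le_rfl hab) hst1 hst2
  have hle2 : orb τ v ≤ orb τ ((τ ^ a) v) := by
    rw [orb, Submodule.span_le]
    rintro _ ⟨k, rfl⟩
    have : (τ ^ k) v = (τ ^ (k - a)) ((τ ^ a) v) := by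
      rw [hcomp, sub_add_cancel]
    simp only
    rw [this]
    exact mem_orb τ _ _
  exact Submodule.finiteDimensional_of_le (hle2.trans hle)

theorem skolem_gen (τ : E ≃ₗ[ℚ] E) (V : Submodule ℚ E) [FiniteDimensional ℚ V] :
    ∃ (q : ℕ) (C : ℕ), 0 < q ∧ ∀ v : E, (∀ k : ℤ, (τ ^ ((q : ℤ) * k)) v ∈ V) ∨
      ({k : ℤ | (τ ^ ((q : ℤ) * k)) v ∈ V} : Set ℤ).encard ≤ C := by
  classical
  -- the torsion part
  let T : Submodule ℚ E :=
    { carrier := {v | v ∈ V ∧ FiniteDimensional ℚ (orb τ v)}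
      zero_mem' := by
        refine ⟨V.zero_mem, ?_⟩
        have h0 : orb τ (0 : E) = ⊥ := by
          rw [orb, Submodule.span_eq_bot]
          rintro _ ⟨k, rfl⟩
          exact map_zero _
        rw [h0]
        infer_instance
      add_mem' := by
        rintro v w ⟨hv, hv2⟩ ⟨hw, hw2⟩
        refine ⟨V.add_mem hv hw, ?_⟩
        have hle : orb τ (v + w) ≤ orb τ v ⊔ orb τ w := by
          rw [orb, Submodule.span_le]
          rintro _ ⟨k, rfl⟩
          simp only [map_add]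
          exact Submodule.add_mem_sup (mem_orb τ v k) (mem_orb τ w k)
        exact Submodule.finiteDimensional_of_le hle
      smul_mem' := by
        rintro c v ⟨hv, hv2⟩
        refine ⟨V.smul_mem c hv, ?_⟩
        have hle : orb τ (c • v) ≤ orb τ v := by
          rw [orb, Submodule.span_le]
          rintro _ ⟨k, rfl⟩
          simp only [map_smul]
          exact Submodule.smul_mem _ _ (mem_orb τ v k)
        exact Submodule.finiteDimensional_of_le hle }
  have hTV : T ≤ V := fun v hv => hv.1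
  have hTfd : FiniteDimensional ℚ T := Submodule.finiteDimensional_of_le hTV
  obtain ⟨s, hs⟩ := (Submodule.fg_iff_finiteDimensional T).mpr hTfd
  have hsT : ∀ v ∈ s, v ∈ T := by
    intro v hv
    rw [← hs]
    exact Submodule.subset_span hv
  let Y : Submodule ℚ E := s.sup (orb τ)
  have hYfd : FiniteDimensional ℚ Y := by
    have hgen : ∀ s' : Finset E, s' ⊆ s → FiniteDimensional ℚ (s'.sup (orb τ) : Submodule ℚ E) := by
      intro s'
      induction s' using Finset.induction_on with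
      | empty =>
        intro _
        rw [Finset.sup_empty]
        infer_instance
      | insert a s' ha ih =>
        intro hsub
        rw [Finset.sup_insert]
        have h1 := ih (fun x hx => hsub (Finset.mem_insert_of_mem hx))
        have h2 : FiniteDimensional ℚ (orb τ a) := (hsT a (hsub (Finset.mem_insert_self _ _))).2
        exact Submodule.finiteDimensional_sup _ _
    exact hgen s (Finset.Subset.refl _)
  have hTY : T ≤ Y := by
    rw [← hs, Submodule.span_le]
    intro v hv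
    exact (Finset.le_sup (f := orb τ) hv) (self_mem_orb τ v)
  have hYst : ∀ m : ℤ, ∀ x ∈ Y, (τ ^ m) x ∈ Y := by
    intro m
    have hle : Y ≤ Y.comap ((τ ^ m : E ≃ₗ[ℚ] E) : E →ₗ[ℚ] E) := by
      apply Finset.sup_le
      intro v hv x hx
      rw [Submodule.mem_comap]
      exact (Finset.le_sup (f := orb τ) hv) (orb_stable τ v m hx)
    intro x hx
    exact hle hx
  let τY : Y ≃ₗ[ℚ] Y := LinearEquiv.ofLinearMap
    ((τ : E →ₗ[ℚ] E).restrict (fun x hx => by simpa using hYst 1 x hx))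
    ((τ.symm : E →ₗ[ℚ] E).restrict (fun x hx => by
      have := hYst (-1) x hx
      rw [zpow_neg, zpow_one] at this
      exact this))
    (by ext x; simp)
    (by ext x; simp)
  have hτY : ∀ y : Y, ((τY y : Y) : E) = τ (y : E) := fun y => rfl
  have hτYs : ∀ y : Y, ((τY.symm y : Y) : E) = τ.symm (y : E) := fun y => rfl
  have hτYk : ∀ (k : ℤ) (y : Y), (((τY ^ k) y : Y) : E) = (τ ^ k) (y : E) := by
    have hnat : ∀ (m : ℕ) (y : Y), (((τY ^ m) y : Y) : E) = (τ ^ m) (y : E) := by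
      intro m
      induction m with
      | zero => intro y; rfl
      | succ m ih =>
        intro y
        rw [pow_succ, pow_succ]
        change (((τY ^ m) (τY y) : Y) : E) = (τ ^ m) (τ (y : E))
        rw [ih, hτY]
    have hneg : ∀ (m : ℕ) (y : Y), ((((τY⁻¹) ^ m) y : Y) : E) = ((τ⁻¹) ^ m) (y : E) := by
      intro m
      induction m with
      | zero => intro y; rfl
      | succ m ih =>
        intro y
        rw [pow_succ, pow_succ]
        change ((((τY⁻¹) ^ m) (τY⁻¹ y) : Y) : E) = ((τ⁻¹) ^ m) (τ⁻¹ (y : E))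
        rw [ih]
        rfl
    intro k y
    rcases Int.eq_nat_or_neg k with ⟨m, rfl | rfl⟩
    · simp only [zpow_natCast]
      exact hnat m y
    · simp only [zpow_neg, zpow_natCast]
      rw [← inv_pow, ← inv_pow]
      exact hneg m y
  obtain ⟨q, C, hq0, hq⟩ := skolem_fd τY (V.comap Y.subtype)
  refine ⟨q, max C (Module.finrank ℚ V), hq0, fun v => ?_⟩
  by_cases hle : ({k : ℤ | (τ ^ ((q : ℤ) * k)) v ∈ V} : Set ℤ).encard
      ≤ ((max C (Module.finrank ℚ V) : ℕ) : ℕ∞)
  · exact Or.inr hle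
  rw [not_le] at hle
  -- the vector lies in `Y`
  have hvY : v ∈ Y := by
    have h1 : ((Module.finrank ℚ V + 1 : ℕ) : ℕ∞)
        ≤ ({k : ℤ | (τ ^ ((q : ℤ) * k)) v ∈ V} : Set ℤ).encard := by
      have h2 : ((Module.finrank ℚ V : ℕ) : ℕ∞)
          < ({k : ℤ | (τ ^ ((q : ℤ) * k)) v ∈ V} : Set ℤ).encard :=
        lt_of_le_of_lt (by exact_mod_cast le_max_right _ _) hle
      push_cast
      exact Order.add_one_le_of_lt h2
    obtain ⟨t₀, ht₀s, ht₀⟩ := Set.exists_subset_encard_eq h1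
    have ht₀fin : t₀.Finite := Set.finite_of_encard_eq_coe ht₀
    set t : Finset ℤ := ht₀fin.toFinset with ht
    have htcard : t.card = Module.finrank ℚ V + 1 := by
      have h3 : ((t : Set ℤ)).encard = ((Module.finrank ℚ V + 1 : ℕ) : ℕ∞) := by
        rw [ht, Set.Finite.coe_toFinset, ht₀]
      rw [Set.encard_coe_eq_coe_finsetCard] at h3
      exact_mod_cast h3
    have htmem : ∀ k ∈ t, (τ ^ ((q : ℤ) * k)) v ∈ V := by
      intro k hk
      exact ht₀s (ht₀fin.mem_toFinset.mp hk)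
    let w : t → V := fun k => ⟨(τ ^ ((q : ℤ) * (k : ℤ))) v, htmem k k.2⟩
    have hdep : ¬ LinearIndependent ℚ w := by
      intro hli
      have := hli.fintype_card_le_finrank
      rw [Fintype.card_coe, htcard] at this
      omega
    rw [Fintype.not_linearIndependent_iff] at hdep
    obtain ⟨g, hg, i₀, hi₀⟩ := hdep
    have hq0' : (q : ℤ) ≠ 0 := by exact_mod_cast hq0.ne'
    let g' : ℤ → ℚ := fun m => if hm : m / (q : ℤ) ∈ t then g ⟨m / (q : ℤ), hm⟩ else 0
    have hg' : ∀ k : t, g' ((q : ℤ) * (k : ℤ)) = g k := by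
      intro k
      simp only [g']
      have h3 : (q : ℤ) * (k : ℤ) / (q : ℤ) = k := Int.mul_ediv_cancel_left _ hq0'
      rw [dif_pos (by rw [h3]; exact k.2)]
      congr 1
      exact Subtype.ext h3
    have hinj : Set.InjOn (fun k : ℤ => (q : ℤ) * k) (t : Set ℤ) := by
      intro a _ c _ hac
      exact mul_left_cancel₀ hq0' hac
    have hfd : FiniteDimensional ℚ (orb τ v) := by
      apply orb_fd (t := t.image (fun k => (q : ℤ) * k)) (g := g')
      · rw [Finset.sum_image hinj]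
        have h4 := congrArg (fun x : V => (x : E)) hg
        simp only [Submodule.coe_zero] at h4
        rw [AddSubmonoidClass.coe_finset_sum] at h4
        rw [← h4, ← Finset.sum_coe_sort t]
        apply Finset.sum_congr rfl
        intro k _
        rw [hg' k]
        rfl
      · refine ⟨(q : ℤ) * (i₀ : ℤ), Finset.mem_image_of_mem _ i₀.2, ?_⟩
        rw [hg' i₀]
        exact hi₀
    have hv1 : (τ ^ ((q : ℤ) * (i₀ : ℤ))) v ∈ T := by
      refine ⟨htmem i₀ i₀.2, ?_⟩
      have hle1 : orb τ ((τ ^ ((q : ℤ) * (i₀ : ℤ))) v) ≤ orb τ v := by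
        rw [orb, Submodule.span_le]
        rintro _ ⟨k, rfl⟩
        exact orb_stable τ v k (mem_orb τ v _)
      exact Submodule.finiteDimensional_of_le hle1
    have hv2 := hYst (-((q : ℤ) * (i₀ : ℤ))) _ (hTY hv1)
    have hv3 : (τ ^ (-((q : ℤ) * (i₀ : ℤ)))) ((τ ^ ((q : ℤ) * (i₀ : ℤ))) v) = v := by
      have : (τ ^ (-((q : ℤ) * (i₀ : ℤ)))) * (τ ^ ((q : ℤ) * (i₀ : ℤ))) = 1 := by
        rw [← zpow_add, neg_add_cancel, zpow_zero]
      have h5 := congrArg (fun f : E ≃ₗ[ℚ] E => f v) this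
      exact h5
    rwa [hv3] at hv2
  left
  have hset : ({k : ℤ | (τY ^ ((q : ℤ) * k)) ⟨v, hvY⟩ ∈ V.comap Y.subtype} : Set ℤ)
      = {k : ℤ | (τ ^ ((q : ℤ) * k)) v ∈ V} := by
    ext k
    change (((τY ^ ((q : ℤ) * k)) ⟨v, hvY⟩ : Y) : E) ∈ V ↔ _
    rw [hτYk]
    rfl
  rcases hq ⟨v, hvY⟩ with h1 | h1
  · intro k
    have h2 := h1 k
    change (((τY ^ ((q : ℤ) * k)) ⟨v, hvY⟩ : Y) : E) ∈ V at h2
    rw [hτYk] at h2
    exact h2
  · exfalso
    rw [hset] at h1
    have h2 := lt_of_lt_of_le hle h1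
    have h3 : ((C : ℕ) : ℕ∞) ≤ ((max C (Module.finrank ℚ V) : ℕ) : ℕ∞) := by
      exact_mod_cast le_max_left _ _
    exact absurd (lt_of_lt_of_le h2 h3) (lt_irrefl _)

end gen

end Pool.Agent.Lib_helper44
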