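import Mathlib
import Pool.Agent.Lib_helper44.Skolem2

open Polynomial

set_option linter.unusedSectionVars false

namespace Pool.Agent.Lib_helper44

/-- a form of Krull's intersection theorem -/
theorem krull_end {Q : Type*} [AddCommGroup Q] (σ : Module.End ℤ Q) (G : Set Q) (hG : G.Finite)
    (v : Q) (h : ∀ k : ℕ, v ∈ Submodule.span ℤ {x | ∃ g ∈ G, ∃ m : ℕ, k ≤ m ∧ x = (σ ^ m) g}) :
    ∃ a : ℤ[X], (aeval σ (X * a)) v = v := by
  classical
  let of := Module.AEval'.of σ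
  set N : Submodule ℤ[X] (Module.AEval' σ) := Submodule.span ℤ[X] (of '' G) with hN
  have hNfin : Module.Finite ℤ[X] N := by
    apply Module.Finite.of_fg
    exact Submodule.fg_span (hG.image _)
  have key : ∀ k : ℕ, ∀ x ∈ Submodule.span ℤ {x | ∃ g ∈ G, ∃ m : ℕ, k ≤ m ∧ x = (σ ^ m) g},
      ∃ y ∈ N, of x = (X ^ k : ℤ[X]) • y := by
    intro k x hx
    induction hx using Submodule.span_induction with
    | mem x hx =>
      obtain ⟨g, hg, m, hm, rfl⟩ := hx
      refine ⟨(X ^ (m - k) : ℤ[X]) • of g, N.smul_mem _ (Submodule.subset_span ⟨g, hg, rfl⟩), ?_⟩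
      rw [smul_smul, ← pow_add, Nat.add_sub_cancel' hm]
      exact (Module.AEval'.X_pow_smul_of σ g m).symm
    | zero => exact ⟨0, N.zero_mem, by rw [map_zero, smul_zero]⟩
    | add x y _ _ hx hy =>
      obtain ⟨a, ha, hxa⟩ := hx
      obtain ⟨b, hb, hyb⟩ := hy
      exact ⟨a + b, N.add_mem ha hb, by rw [map_add, hxa, hyb, smul_add]⟩
    | smul c x _ hx =>
      obtain ⟨a, ha, hxa⟩ := hx
      refine ⟨(C c : ℤ[X]) • a, N.smul_mem _ ha, ?_⟩
      rw [map_smul, hxa, smul_smul, mul_comm, mul_smul, Module.AEval.C_smul]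
      rfl
  have hvN : of v ∈ N := by
    obtain ⟨y, hy, hvy⟩ := key 0 v (h 0)
    rw [hvy]
    exact N.smul_mem _ hy
  have hmem : (⟨of v, hvN⟩ : N) ∈ (⨅ i : ℕ, (Ideal.span {(X : ℤ[X])}) ^ i • (⊤ : Submodule ℤ[X] N)) := by
    rw [Submodule.mem_iInf]
    intro i
    obtain ⟨y, hy, hvy⟩ := key i v (h i)
    have h1 : (⟨of v, hvN⟩ : N) = (X ^ i : ℤ[X]) • (⟨y, hy⟩ : N) := Subtype.ext hvy
    rw [h1]
    apply Submodule.smul_mem_smul
    · exact Ideal.pow_mem_pow (Ideal.mem_span_singleton_self _) i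
    · exact Submodule.mem_top
  obtain ⟨⟨r, hr⟩, hrv⟩ := (Ideal.mem_iInf_smul_pow_eq_bot_iff _ _).mp hmem
  obtain ⟨a, rfl⟩ := Ideal.mem_span_singleton'.mp hr
  refine ⟨a, ?_⟩
  have h2 := congrArg (Subtype.val) hrv
  have h3 : (a * X : ℤ[X]) • of v = of v := h2
  have h4 : of ((aeval σ (a * X)) v) = (a * X : ℤ[X]) • of v := Module.AEval.of_aeval_smul ..
  rw [h3] at h4
  rw [mul_comm]
  exact of.injective h4

end Pool.Agent.Lib_helper44
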