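import Mathlib
import Pool.Agent.Lib_helper44.Krull
import Pool.Agent.Lib_helper44.Cald

open Polynomial Module
open scoped InnerProductSpace

set_option linter.unusedSectionVars false

namespace Pool.Agent.Lib_helper44

variable {E : Type*} [NormedAddCommGroup E] [InnerProductSpace ℝ E] [FiniteDimensional ℝ E]

/-- the rational span of a subgroup -/
def QV (Λ : AddSubgroup E) : AddSubgroup E where
  carrier := {v | ∃ N : ℕ, 0 < N ∧ N • v ∈ Λ}
  zero_mem' := ⟨1, one_pos, by rw [smul_zero]; exact Λ.zero_mem⟩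
  add_mem' := by
    rintro v w ⟨N, hN, hv⟩ ⟨M, hM, hw⟩
    refine ⟨N * M, Nat.mul_pos hN hM, ?_⟩
    rw [smul_add]
    apply Λ.add_mem
    · rw [mul_comm, mul_smul]
      exact Λ.nsmul_mem hv M
    · rw [mul_smul]
      exact Λ.nsmul_mem hw N
  neg_mem' := by
    rintro v ⟨N, hN, hv⟩
    exact ⟨N, hN, by rw [smul_neg]; exact Λ.neg_mem hv⟩

theorem mem_QV {Λ : AddSubgroup E} {v : E} : v ∈ QV Λ ↔ ∃ N : ℕ, 0 < N ∧ N • v ∈ Λ := Iff.rfl

theorem le_QV (Λ : AddSubgroup E) : Λ ≤ QV Λ := fun v hv => ⟨1, one_pos, by rwa [one_smul]⟩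

theorem QV_of_nsmul {Λ : AddSubgroup E} {v : E} {N : ℕ} (hN : 0 < N) (h : N • v ∈ QV Λ) :
    v ∈ QV Λ := by
  obtain ⟨M, hM, h2⟩ := h
  exact ⟨M * N, Nat.mul_pos hM hN, by rwa [mul_smul]⟩

theorem zcomp (B : E ≃L[ℝ] E) (a b : ℤ) (v : E) : (B ^ a) ((B ^ b) v) = (B ^ (a + b)) v := by
  rw [zpow_add]
  rfl

@[simp] theorem one_app (v : E) : (1 : E ≃L[ℝ] E) v = v := rfl

theorem zcancel (B : E ≃L[ℝ] E) (a : ℤ) (v : E) : (B ^ a) ((B ^ (-a)) v) = v := by
  rw [zcomp, add_neg_cancel, zpow_zero, one_app]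

theorem zcancel' (B : E ≃L[ℝ] E) (a : ℤ) (v : E) : (B ^ (-a)) ((B ^ a) v) = v := by
  rw [zcomp, neg_add_cancel, zpow_zero, one_app]

theorem znsmul (B : E ≃L[ℝ] E) (a : ℤ) (N : ℕ) (v : E) : (B ^ a) (N • v) = N • (B ^ a) v :=
  map_nsmul (B ^ a) N v

/-- common denominators -/
theorem exists_common {Λ : AddSubgroup E} {f : ℕ → E} (hf : ∀ m, f m ∈ QV Λ) (d : ℕ) :
    ∃ N : ℕ, 0 < N ∧ ∀ m < d, N • f m ∈ Λ := by
  induction d with
  | zero => exact ⟨1, one_pos, fun m hm => absurd hm (Nat.not_lt_zero m)⟩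
  | succ d ih =>
    obtain ⟨N, hN, h1⟩ := ih
    obtain ⟨M, hM, h2⟩ := hf d
    refine ⟨N * M, Nat.mul_pos hN hM, fun m hm => ?_⟩
    rcases Nat.lt_succ_iff_lt_or_eq.mp hm with h | rfl
    · rw [mul_comm, mul_smul]
      exact Λ.nsmul_mem (h1 m h) M
    · rw [mul_smul]
      exact Λ.nsmul_mem h2 N

/-- the bi-invariant part -/
def X0 (B : E ≃L[ℝ] E) (Λ : AddSubgroup E) (q : ℕ) : AddSubgroup E where
  carrier := {v | ∀ k : ℤ, (B ^ ((q : ℤ) * k)) v ∈ QV Λ}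
  zero_mem' := fun k => by rw [map_zero]; exact (QV Λ).zero_mem
  add_mem' := fun hv hw k => by rw [map_add]; exact (QV Λ).add_mem (hv k) (hw k)
  neg_mem' := fun hv k => by rw [map_neg]; exact (QV Λ).neg_mem (hv k)

theorem mem_X0 {B : E ≃L[ℝ] E} {Λ : AddSubgroup E} {q : ℕ} {v : E} :
    v ∈ X0 B Λ q ↔ ∀ k : ℤ, (B ^ ((q : ℤ) * k)) v ∈ QV Λ := Iff.rfl

theorem X0_le (B : E ≃L[ℝ] E) (Λ : AddSubgroup E) (q : ℕ) : X0 B Λ q ≤ QV Λ := by
  intro v hv
  have := hv 0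
  simpa using this

theorem X0_stable {B : E ≃L[ℝ] E} {Λ : AddSubgroup E} {q : ℕ} (m : ℤ) {v : E}
    (hv : v ∈ X0 B Λ q) : (B ^ ((q : ℤ) * m)) v ∈ X0 B Λ q := by
  intro k
  rw [zcomp, ← mul_add]
  exact hv _

/-- the integral part -/
def UQ (B : E ≃L[ℝ] E) (Λ : AddSubgroup E) (q : ℕ) : AddSubgroup E where
  carrier := {v | v ∈ X0 B Λ q ∧ ∃ N : ℕ, 0 < N ∧ ∀ k : ℕ, N • (B ^ (-((q : ℤ) * k))) v ∈ Λ}
  zero_mem' := ⟨(X0 B Λ q).zero_mem, 1, one_pos, fun k => by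
    rw [map_zero, smul_zero]; exact Λ.zero_mem⟩
  add_mem' := by
    rintro v w ⟨hv, N, hN, h1⟩ ⟨hw, M, hM, h2⟩
    refine ⟨(X0 B Λ q).add_mem hv hw, N * M, Nat.mul_pos hN hM, fun k => ?_⟩
    rw [map_add, smul_add]
    apply Λ.add_mem
    · rw [mul_comm, mul_smul]
      exact Λ.nsmul_mem (h1 k) M
    · rw [mul_smul]
      exact Λ.nsmul_mem (h2 k) N
  neg_mem' := by
    rintro v ⟨hv, N, hN, h1⟩
    exact ⟨(X0 B Λ q).neg_mem hv, N, hN, fun k => by
      rw [map_neg, smul_neg]; exact Λ.neg_mem (h1 k)⟩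

theorem mem_UQ {B : E ≃L[ℝ] E} {Λ : AddSubgroup E} {q : ℕ} {v : E} :
    v ∈ UQ B Λ q ↔ v ∈ X0 B Λ q ∧ ∃ N : ℕ, 0 < N ∧ ∀ k : ℕ, N • (B ^ (-((q : ℤ) * k))) v ∈ Λ :=
  Iff.rfl

theorem UQ_neg_stable {B : E ≃L[ℝ] E} {Λ : AddSubgroup E} {q : ℕ} {v : E}
    (hv : v ∈ UQ B Λ q) : (B ^ (-(q : ℤ))) v ∈ UQ B Λ q := by
  obtain ⟨h1, N, hN, h2⟩ := hv
  refine ⟨?_, N, hN, fun k => ?_⟩
  · have := X0_stable (-1) h1
    rwa [mul_neg, mul_one] at this
  · have := h2 (k + 1)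
    rw [zcomp]
    convert this using 4
    push_cast
    ring

theorem UQ_pos_stable {B : E ≃L[ℝ] E} {Λ : AddSubgroup E} {q : ℕ} {v : E}
    (hv : v ∈ UQ B Λ q) : (B ^ (q : ℤ)) v ∈ UQ B Λ q := by
  obtain ⟨h1, N, hN, h2⟩ := hv
  have h3 : (B ^ (q : ℤ)) v ∈ X0 B Λ q := by
    have := X0_stable 1 h1
    rwa [mul_one] at this
  obtain ⟨M, hM, h4⟩ := X0_le B Λ q h3
  refine ⟨h3, N * M, Nat.mul_pos hN hM, fun k => ?_⟩
  cases k with
  | zero =>
    rw [mul_smul]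
    simpa using Λ.nsmul_mem h4 N
  | succ k =>
    rw [mul_comm, mul_smul, zcomp]
    apply Λ.nsmul_mem
    have := h2 k
    convert this using 4
    push_cast
    ring

theorem UQ_stable {B : E ≃L[ℝ] E} {Λ : AddSubgroup E} {q : ℕ} (m : ℤ) {v : E}
    (hv : v ∈ UQ B Λ q) : (B ^ ((q : ℤ) * m)) v ∈ UQ B Λ q := by
  induction m using Int.induction_on with
  | zero => simpa using hv
  | succ i ih =>
    have := UQ_pos_stable ih
    rw [zcomp] at this
    convert this using 3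
    ring
  | pred i ih =>
    have := UQ_neg_stable ih
    rw [zcomp] at this
    convert this using 3
    ring

theorem UQ_of_nsmul {B : E ≃L[ℝ] E} {Λ : AddSubgroup E} {q : ℕ} {v : E} {N : ℕ} (hN : 0 < N)
    (h : N • v ∈ UQ B Λ q) : v ∈ UQ B Λ q := by
  obtain ⟨h1, M, hM, h2⟩ := h
  refine ⟨fun k => ?_, M * N, Nat.mul_pos hM hN, fun k => ?_⟩
  · have := h1 k
    rw [znsmul] at this
    exact QV_of_nsmul hN this
  · have := h2 k
    rwa [znsmul, ← mul_smul] at this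

/-- `B ^ q` as a `ℤ`-linear map -/
noncomputable def BZ (B : E ≃L[ℝ] E) (q : ℕ) : Module.End ℤ E :=
  (B ^ (q : ℤ)).toLinearEquiv.toLinearMap.toAddMonoidHom.toIntLinearMap

theorem BZ_apply (B : E ≃L[ℝ] E) (q : ℕ) (v : E) : BZ B q v = (B ^ (q : ℤ)) v := rfl

theorem BZ_pow (B : E ≃L[ℝ] E) (q m : ℕ) (v : E) : ((BZ B q) ^ m) v = (B ^ ((q : ℤ) * m)) v := by
  induction m generalizing v with
  | zero => simp
  | succ m ih =>
    rw [pow_succ]
    change ((BZ B q) ^ m) (BZ B q v) = _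
    have h1 : (q : ℤ) * ((m + 1 : ℕ) : ℤ) = (q : ℤ) * m + q := by push_cast; ring
    rw [ih, BZ_apply, zcomp, h1]

/-- closedness of the integral part -/
theorem UQ_closed {B : E ≃L[ℝ] E} {Λ : AddSubgroup E} {q : ℕ} {v : E} (hv : v ∈ X0 B Λ q)
    (a : ℤ[X]) (h : v - (aeval (BZ B q) (X * a)) v ∈ UQ B Λ q) : v ∈ UQ B Λ q := by
  classical
  obtain ⟨hw0, N, hN, hw⟩ := h
  set w := v - (aeval (BZ B q) (X * a)) v with hwdef
  set d := (X * a : ℤ[X]).natDegree + 1 with hd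
  have hsum : (aeval (BZ B q) (X * a)) v
      = ∑ i ∈ Finset.range d, ((X * a : ℤ[X]).coeff i) • (B ^ ((q : ℤ) * i)) v := by
    rw [aeval_eq_sum_range, LinearMap.sum_apply]
    apply Finset.sum_congr rfl
    intro i _
    rw [LinearMap.smul_apply, BZ_pow]
  have hvw : v = w + ∑ i ∈ Finset.range d, ((X * a : ℤ[X]).coeff i) • (B ^ ((q : ℤ) * i)) v := by
    rw [hwdef, hsum]
    abel
  obtain ⟨M, hM, hMv⟩ := exists_common (Λ := Λ) (f := fun m : ℕ => (B ^ (-((q : ℤ) * m))) v)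
    (fun m => by
      have := hv (-(m : ℤ))
      rwa [mul_neg] at this) d
  refine ⟨hv, N * M, Nat.mul_pos hN hM, fun k => ?_⟩
  induction k using Nat.strong_induction_on with
  | _ k ih =>
    by_cases hk : k < d
    · rw [mul_smul]
      exact Λ.nsmul_mem (hMv k hk) N
    · push Not at hk
      have h1 : (B ^ (-((q : ℤ) * k))) v = (B ^ (-((q : ℤ) * k))) w
          + ∑ i ∈ Finset.range d, ((X * a : ℤ[X]).coeff i) • (B ^ (-((q : ℤ) * ((k - i : ℕ) : ℤ)))) v := by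
        conv_lhs => rw [hvw]
        rw [map_add, map_sum]
        congr 1
        apply Finset.sum_congr rfl
        intro i hi
        rw [Finset.mem_range] at hi
        rw [map_zsmul, zcomp]
        congr 3
        push_cast [Nat.cast_sub (show i ≤ k by omega)]
        ring
      rw [h1, smul_add, Finset.smul_sum]
      apply Λ.add_mem
      · rw [mul_comm, mul_smul]
        exact Λ.nsmul_mem (hw k) M
      · apply Λ.sum_mem
        intro i hi
        rw [Finset.mem_range] at hi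
        rcases Nat.eq_zero_or_pos i with rfl | hi0
        · rw [coeff_X_mul_zero, zero_smul, smul_zero]
          exact Λ.zero_mem
        · rw [smul_comm]
          exact Λ.zsmul_mem (ih (k - i) (by omega)) _

/-- the key intersection property -/
theorem UQ_inter {B : E ≃L[ℝ] E} {Λ : AddSubgroup E} (hΛ : ∀ L : AddSubgroup E, L ≤ Λ → L.FG)
    {q : ℕ} {v : E} (hv : v ∈ X0 B Λ q)
    (h : ∀ k : ℕ, v ∈ UQ B Λ q ⊔ AddSubgroup.closure
      {u | u ∈ X0 B Λ q ∧ ∃ m : ℕ, k ≤ m ∧ (B ^ (-((q : ℤ) * m))) u ∈ Λ}) :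
    v ∈ UQ B Λ q := by
  classical
  obtain ⟨G, hG⟩ := hΛ (Λ ⊓ X0 B Λ q) inf_le_left
  set U := UQ B Λ q with hU
  -- the induced endomorphism
  have hUle : U ≤ U.comap ((BZ B q : E →ₗ[ℤ] E).toAddMonoidHom) := fun u hu => UQ_pos_stable hu
  let σ : Module.End ℤ (E ⧸ U) := (QuotientAddGroup.map U U
    ((BZ B q : E →ₗ[ℤ] E).toAddMonoidHom) hUle).toIntLinearMap
  let π : E →ₗ[ℤ] (E ⧸ U) := (QuotientAddGroup.mk' U).toIntLinearMap
  have hσπ : ∀ x, σ (π x) = π (BZ B q x) := fun x => rfl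
  have hσπpow : ∀ (m : ℕ) x, (σ ^ m) (π x) = π (((BZ B q) ^ m) x) := by
    intro m
    induction m with
    | zero => intro x; rfl
    | succ m ih =>
      intro x
      rw [pow_succ, pow_succ]
      change (σ ^ m) (σ (π x)) = π (((BZ B q) ^ m) (BZ B q x))
      rw [hσπ, ih]
  have hπ0 : ∀ x, π x = 0 ↔ x ∈ U := fun x => QuotientAddGroup.eq_zero_iff x
  have hkr := krull_end σ (π '' (G : Set E)) (G.finite_toSet.image _) (π v) (by
    intro k
    have h1 := h k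
    rw [AddSubgroup.mem_sup] at h1
    obtain ⟨u, hu, y, hy, huy⟩ := h1
    have h2 : π v = π y := by
      rw [← huy, map_add, (hπ0 u).mpr hu, zero_add]
    rw [h2]
    clear h2 huy
    induction hy using AddSubgroup.closure_induction with
    | mem y hy =>
      obtain ⟨hy0, m, hm, hyΛ⟩ := hy
      have h3 : (B ^ (-((q : ℤ) * m))) y ∈ Λ ⊓ X0 B Λ q := by
        refine ⟨hyΛ, ?_⟩
        have := X0_stable (-(m : ℤ)) hy0
        rwa [mul_neg] at this
      have h4 : y = ((BZ B q) ^ m) ((B ^ (-((q : ℤ) * m))) y) := by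
        rw [BZ_pow, zcancel]
      rw [h4, ← hσπpow]
      rw [← hG] at h3
      generalize (B ^ (-((q : ℤ) * m))) y = z at h3
      induction h3 using AddSubgroup.closure_induction with
      | mem g hg => exact Submodule.subset_span ⟨π g, ⟨g, hg, rfl⟩, m, hm, rfl⟩
      | zero => rw [map_zero, map_zero]; exact Submodule.zero_mem _
      | add a b _ _ ha hb => rw [map_add, map_add]; exact Submodule.add_mem _ ha hb
      | neg a _ ha => rw [map_neg, map_neg]; exact Submodule.neg_mem _ ha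
    | zero => rw [map_zero]; exact Submodule.zero_mem _
    | add a b _ _ ha hb => rw [map_add]; exact Submodule.add_mem _ ha hb
    | neg a _ ha => rw [map_neg]; exact Submodule.neg_mem _ ha)
  obtain ⟨a, ha⟩ := hkr
  apply UQ_closed hv a
  rw [← hU, ← hπ0, map_sub, sub_eq_zero]
  have hae : ∀ (P : ℤ[X]) (x : E), (aeval σ P) (π x) = π ((aeval (BZ B q) P) x) := by
    intro P x
    rw [aeval_eq_sum_range, aeval_eq_sum_range, LinearMap.sum_apply, LinearMap.sum_apply, map_sum]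
    apply Finset.sum_congr rfl
    intro i _
    rw [LinearMap.smul_apply, LinearMap.smul_apply, map_zsmul, hσπpow]
  rw [← hae, ha]

end Pool.Agent.Lib_helper44
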