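import Mathlib
import Pool.Agent.Lib_helper44.Arith

open Polynomial Module
open scoped InnerProductSpace

set_option linter.unusedSectionVars false

namespace Pool.Agent.Lib_helper44

variable {E : Type*} [NormedAddCommGroup E] [InnerProductSpace ℝ E] [FiniteDimensional ℝ E]
  [MeasurableSpace E] [BorelSpace E]

theorem dualL_fg {n : ℕ} (γ : Basis (Fin n) ℝ E) : ∀ L : AddSubgroup E, L ≤ dualL γ → L.FG := by
  intro L hL
  let f : (Fin n → ℤ) →+ E :=
    { toFun := fun k => (coordT γ).symm (fun i => (k i : ℝ))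
      map_zero' := by
        have : (fun i => (((0 : Fin n → ℤ) i : ℤ) : ℝ)) = (0 : Fin n → ℝ) := by
          ext i; simp
        rw [this, map_zero]
      map_add' := by
        intro a b
        rw [← map_add]
        congr 1
        ext i
        simp }
  have hrange : ∀ v ∈ dualL γ, ∃ k, f k = v := by
    intro v hv
    choose k hk using mem_dualL.mp hv
    refine ⟨k, ?_⟩
    change (coordT γ).symm (fun i => (k i : ℝ)) = v
    apply ext_inner_basis γ
    intro i
    rw [← coordT_apply, ContinuousLinearEquiv.apply_symm_apply, hk]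
  have h1 : (L.comap f).FG := by
    have h2 : (AddSubgroup.toIntSubmodule (L.comap f)).FG := IsNoetherian.noetherian _
    exact (Submodule.fg_iff_addSubgroup_fg _).mp h2
  have h2 : (L.comap f).map f = L := by
    apply le_antisymm
    · exact AddSubgroup.map_comap_le f L
    · intro v hv
      obtain ⟨k, rfl⟩ := hrange v (hL hv)
      exact ⟨k, hv, rfl⟩
  rw [← h2]
  classical
  obtain ⟨s, hs⟩ := h1
  refine ⟨s.image f, ?_⟩
  rw [Finset.coe_image, ← AddMonoidHom.map_closure, hs]

theorem skolem_E (B : E ≃L[ℝ] E) (Λ : AddSubgroup E) (hΛ : Λ.FG) :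
    ∃ (q : ℕ) (C : ℕ), 0 < q ∧ ∀ v : E, (∀ k : ℤ, (B ^ ((q : ℤ) * k)) v ∈ QV Λ) ∨
      ({k : ℤ | (B ^ ((q : ℤ) * k)) v ∈ QV Λ} : Set ℤ).encard ≤ C := by
  classical
  let _ : Module ℚ E := Module.compHom E (algebraMap ℚ ℝ)
  have hsm : ∀ (c : ℚ) (x : E), c • x = (c : ℝ) • x := fun c x => rfl
  let τ : E ≃ₗ[ℚ] E :=
    { toFun := B
      invFun := B.symm
      map_add' := map_add B
      map_smul' := by
        intro c x
        rw [hsm, map_smul]
        rfl
      left_inv := B.symm_apply_apply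
      right_inv := B.apply_symm_apply }
  have hτ : ∀ x, τ x = B x := fun x => rfl
  have hτk : ∀ (k : ℤ) (x : E), (τ ^ k) x = (B ^ k) x := by
    have hnat : ∀ (m : ℕ) (y : E), (τ ^ m) y = (B ^ m) y := by
      intro m
      induction m with
      | zero => intro y; rfl
      | succ m ih =>
        intro y
        rw [pow_succ, pow_succ]
        change (τ ^ m) (τ y) = (B ^ m) (B y)
        rw [ih, hτ]
    have hneg : ∀ (m : ℕ) (y : E), ((τ⁻¹) ^ m) y = ((B⁻¹) ^ m) y := by
      intro m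
      induction m with
      | zero => intro y; rfl
      | succ m ih =>
        intro y
        rw [pow_succ, pow_succ]
        change ((τ⁻¹) ^ m) (τ⁻¹ y) = ((B⁻¹) ^ m) (B⁻¹ y)
        rw [ih]
        rfl
    intro k y
    rcases Int.eq_nat_or_neg k with ⟨m, rfl | rfl⟩
    · simp only [zpow_natCast]
      exact hnat m y
    · simp only [zpow_neg, zpow_natCast]
      rw [← inv_pow, ← inv_pow]
      exact hneg m y
  let V : Submodule ℚ E := Submodule.span ℚ (Λ : Set E)
  have hVmem : ∀ v, v ∈ V ↔ v ∈ QV Λ := by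
    intro v
    constructor
    · intro hv
      induction hv using Submodule.span_induction with
      | mem x hx => exact le_QV Λ hx
      | zero => exact (QV Λ).zero_mem
      | add x y _ _ hx hy => exact (QV Λ).add_mem hx hy
      | smul c x _ hx =>
        obtain ⟨N, hN, h⟩ := hx
        refine ⟨c.den * N, Nat.mul_pos c.den_pos hN, ?_⟩
        have h1 : (c.den * N) • (c • x) = c.num • (N • x) := by
          rw [hsm, ← Nat.cast_smul_eq_nsmul ℝ, ← Int.cast_smul_eq_zsmul ℝ,
            ← Nat.cast_smul_eq_nsmul ℝ, smul_smul, smul_smul]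
          congr 1
          have h2 : ((c.den : ℝ)) * (c : ℝ) = (c.num : ℝ) := by
            have h3 := Rat.den_mul_eq_num c
            exact_mod_cast h3
          push_cast
          rw [mul_right_comm, h2]
        rw [h1]
        exact Λ.zsmul_mem h _
    · rintro ⟨N, hN, h⟩
      have hN' : (N : ℝ) ≠ 0 := by exact_mod_cast hN.ne'
      have h1 : v = ((N : ℚ)⁻¹) • (N • v) := by
        rw [hsm, ← Nat.cast_smul_eq_nsmul ℝ, smul_smul]
        push_cast
        rw [inv_mul_cancel₀ hN', one_smul]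
      rw [h1]
      exact Submodule.smul_mem _ _ (Submodule.subset_span h)
  have hfd : FiniteDimensional ℚ V := by
    obtain ⟨s, hs⟩ := hΛ
    have h1 : V = Submodule.span ℚ (s : Set E) := by
      apply le_antisymm
      · rw [Submodule.span_le]
        intro x hx
        rw [SetLike.mem_coe, ← hs] at hx
        induction hx using AddSubgroup.closure_induction with
        | mem x hx => exact Submodule.subset_span hx
        | zero => exact Submodule.zero_mem _
        | add a b _ _ ha hb => exact Submodule.add_mem _ ha hb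
        | neg a _ ha => exact Submodule.neg_mem _ ha
      · apply Submodule.span_mono
        intro x hx
        rw [SetLike.mem_coe, ← hs]
        exact AddSubgroup.subset_closure hx
    rw [h1]
    exact FiniteDimensional.span_of_finite ℚ s.finite_toSet
  obtain ⟨q, C, hq0, hq⟩ := skolem_gen τ V
  refine ⟨q, C, hq0, fun v => ?_⟩
  have h1 := hq v
  simp only [hτk, hVmem] at h1
  exact h1

/-- the exponents -/
def GoodQ (B : E ≃L[ℝ] E) (Λ : AddSubgroup E) (q C : ℕ) : Prop :=
  0 < q ∧ ∀ v : E, (∀ k : ℤ, (B ^ ((q : ℤ) * k)) v ∈ QV Λ) ∨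
      ({k : ℤ | (B ^ ((q : ℤ) * k)) v ∈ QV Λ} : Set ℤ).encard ≤ C

/-- the subgroup attached to an end -/
def HE (B : E ≃L[ℝ] E) (Λ : AddSubgroup E) (q : ℕ) (c : ℤ) : AddSubgroup E :=
  (UQ B Λ q).comap ((B ^ (-c)).toLinearEquiv.toLinearMap.toAddMonoidHom)

theorem mem_HE {B : E ≃L[ℝ] E} {Λ : AddSubgroup E} {q : ℕ} {c : ℤ} {v : E} :
    v ∈ HE B Λ q c ↔ (B ^ (-c)) v ∈ UQ B Λ q := Iff.rfl

/-- the scales attached to an end -/
def SE (q : ℕ) (c M : ℤ) : Set ℤ := {j | (∃ m : ℤ, j = c + q * m) ∧ M ≤ j}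

theorem arithOK_HE {n : ℕ} (γ : Basis (Fin n) ℝ E) (B : E ≃L[ℝ] E) {q C : ℕ}
    (hq : GoodQ B (dualL γ) q C) (c M : ℤ) :
    ArithOK γ B (SE q c M) (HE B (dualL γ) q c) := by
  classical
  obtain ⟨hq0, hqC⟩ := hq
  have hq0' : (0 : ℤ) < q := by exact_mod_cast hq0
  set Λ := dualL γ with hΛ
  let X' : AddSubgroup E :=
    Λ ⊓ (X0 B Λ q).comap ((B ^ (-c)).toLinearEquiv.toLinearMap.toAddMonoidHom)
  have hX' : ∀ v, v ∈ X' ↔ v ∈ Λ ∧ (B ^ (-c)) v ∈ X0 B Λ q := fun v => Iff.rfl
  let gen : ℕ → Set E := fun J => {v | v ∈ X' ∧ ∃ j ∈ SE q c M, J ≤ j.natAbs ∧ v ∈ Lj γ B j}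
  let K : ℕ → AddSubgroup E := fun J => AddSubgroup.closure (gen J)
  have hKX : ∀ J, K J ≤ X' := by
    intro J
    rw [AddSubgroup.closure_le]
    rintro v ⟨hv, -⟩
    exact hv
  refine ⟨X', K, C, ?_, ?_, hKX, ?_, ?_, ?_, ?_⟩
  · intro v hv hvH
    exact ⟨hv, hvH.1⟩
  · intro J J' hJJ'
    apply AddSubgroup.closure_mono
    rintro v ⟨hv, j, hj, hjJ, hvj⟩
    exact ⟨hv, j, hj, hJJ'.trans hjJ, hvj⟩
  · intro J v hv
    exact (hKX J hv).1
  · intro j hj J hJ v hv hvX hvj
    exact AddSubgroup.subset_closure ⟨hvX, j, hj, hJ, hvj⟩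
  · intro v hv hall
    rw [mem_HE]
    have hvX : v ∈ X' := by
      have h1 := hall 0
      have h2 : (Λ ⊓ HE B Λ q c) ⊔ K 0 ≤ X' := by
        apply sup_le
        · rintro u ⟨hu, huH⟩
          exact ⟨hu, huH.1⟩
        · exact hKX 0
      exact h2 h1
    apply UQ_inter (dualL_fg γ) hvX.2
    intro k
    obtain ⟨J, hJ⟩ : ∃ J : ℕ, ∀ j : ℤ, M ≤ j → J ≤ j.natAbs → c + q * k ≤ j := by
      refine ⟨M.natAbs + (c + q * k).natAbs + 1, fun j hMj hj => ?_⟩
      generalize c + (q : ℤ) * k = a at hj ⊢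
      omega
    have h1 := hall J
    rw [AddSubgroup.mem_sup] at h1
    obtain ⟨u, hu, y, hy, huy⟩ := h1
    rw [← huy, map_add]
    apply AddSubgroup.add_mem
    · exact AddSubgroup.mem_sup_left hu.2
    · apply AddSubgroup.mem_sup_right
      clear huy
      induction hy using AddSubgroup.closure_induction with
      | mem y hy =>
        obtain ⟨hyX, j, ⟨⟨m, hm⟩, hMj⟩, hjJ, hyj⟩ := hy
        apply AddSubgroup.subset_closure
        have h2 := hJ j hMj hjJ
        have h3 : (k : ℤ) ≤ m := by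
          rw [hm] at h2
          have : (q : ℤ) * k ≤ q * m := by linarith
          exact le_of_mul_le_mul_left this hq0'
        refine ⟨hyX.2, m.toNat, by omega, ?_⟩
        rw [Int.toNat_of_nonneg (by omega)]
        change (B ^ (-((q : ℤ) * m))) ((B ^ (-c)) y) ∈ dualL γ
        rw [zcomp]
        have h4 : -((q : ℤ) * m) + -c = -j := by rw [hm]; ring
        rw [h4]
        exact hyj
      | zero => rw [map_zero]; exact AddSubgroup.zero_mem _
      | add a b _ _ ha hb => rw [map_add]; exact AddSubgroup.add_mem _ ha hb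
      | neg a _ ha => rw [map_neg]; exact AddSubgroup.neg_mem _ ha
  · intro v hv hvX
    have hv0 : (B ^ (-c)) v ∉ X0 B Λ q := fun hcon => hvX ⟨hv, hcon⟩
    rcases hqC ((B ^ (-c)) v) with h1 | h1
    · exact absurd h1 hv0
    · refine le_trans ?_ h1
      -- injection
      have hmaps : ∀ j ∈ ({j | j ∈ SE q c M ∧ ∃ l ∈ Λ, l ∈ Lj γ B j ∧ v - l ∈ X'} : Set ℤ),
          -((j - c) / q) ∈ ({k : ℤ | (B ^ ((q : ℤ) * k)) ((B ^ (-c)) v) ∈ QV Λ} : Set ℤ) := by
        rintro j ⟨⟨⟨m, hm⟩, -⟩, l, hl, hlj, hvl⟩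
        have h2 : (j - c) / q = m := by
          rw [hm, add_sub_cancel_left]
          exact Int.mul_ediv_cancel_left _ hq0'.ne'
        change (B ^ ((q : ℤ) * (-((j - c) / q)))) ((B ^ (-c)) v) ∈ QV Λ
        rw [h2, zcomp]
        have h3 : (q : ℤ) * -m + -c = -j := by rw [hm]; ring
        rw [h3]
        have h4 : v = (v - l) + l := by abel
        rw [h4, map_add]
        apply (QV Λ).add_mem
        · have h5 := X0_le B Λ q (X0_stable (-m) hvl.2)
          change (B ^ ((q : ℤ) * -m)) ((B ^ (-c)) (v - l)) ∈ QV Λ at h5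
          rw [zcomp, h3] at h5
          exact h5
        · exact le_QV Λ hlj
      apply Set.encard_le_encard_of_injOn hmaps
      rintro j ⟨⟨⟨m, hm⟩, -⟩, -⟩ j' ⟨⟨⟨m', hm'⟩, -⟩, -⟩ hjj'
      have h2 : (j - c) / q = m := by
        rw [hm, add_sub_cancel_left]
        exact Int.mul_ediv_cancel_left _ hq0'.ne'
      have h3 : (j' - c) / q = m' := by
        rw [hm', add_sub_cancel_left]
        exact Int.mul_ediv_cancel_left _ hq0'.ne'
      simp only [h2, h3] at hjj'
      rw [hm, hm', neg_injective hjj']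

end Pool.Agent.Lib_helper44
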