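import Mathlib
import Pool.Agent.Lib_helper44.Upper

open MeasureTheory Filter Topology Complex Module
open scoped ENNReal NNReal ComplexConjugate InnerProductSpace

set_option linter.unusedSectionVars false

namespace Pool.Agent.Lib_helper44

variable {E : Type*} [NormedAddCommGroup E] [InnerProductSpace ℝ E] [FiniteDimensional ℝ E]
  [MeasurableSpace E] [BorelSpace E] {n : ℕ}
variable {γ : Basis (Fin n) ℝ E} {B : E ≃L[ℝ] E} {φ : E → ℂ}

/-- doubling -/
noncomputable def dbl (E : Type*) [NormedAddCommGroup E] [InnerProductSpace ℝ E]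
    [FiniteDimensional ℝ E] : E ≃L[ℝ] E :=
  (LinearEquiv.smulOfNeZero ℝ E (2 : ℝ) two_ne_zero).toContinuousLinearEquiv

theorem dbl_apply (x : E) : dbl E x = (2 : ℝ) • x := rfl

theorem adet_dbl : adet (dbl E) = 2 ^ finrank ℝ E := by
  unfold adet
  have h1 : ((dbl E).toLinearEquiv : E →ₗ[ℝ] E) = (2 : ℝ) • LinearMap.id := by
    ext x
    rfl
  rw [h1, LinearMap.det_smul, LinearMap.det_id, mul_one, abs_of_pos (by positivity)]

theorem dbl_comm (B : E ≃L[ℝ] E) (x : E) : B (dbl E x) = dbl E (B x) := by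
  rw [dbl_apply, dbl_apply, map_smul]

/-- a measure preserving linear map has no integrable nonnegative function whose orbit sums are
one -/
theorem no_integrable_section [Nontrivial E] (hB : adet B = 1) {h : E → ℝ≥0∞} (hm : Measurable h)
    (hsum : ∀ᵐ x, ∑' j : ℤ, h ((B ^ (-j)) x) = 1) (hfin : ∫⁻ x, h x ≠ ⊤) : False := by
  have hBj : ∀ (j : ℤ) (f : E → ℝ≥0∞), ∫⁻ x, f ((B ^ j) x) = ∫⁻ x, f x := by
    intro j f
    rw [lintegral_comp_equiv, adet_zpow, hB, one_zpow, inv_one, ENNReal.ofReal_one, one_mul]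
  have hcomm : ∀ (j : ℤ) (x : E), (B ^ j) (dbl E x) = dbl E ((B ^ j) x) := by
    intro j x
    exact dbl_comm (B ^ j) x
  set h2 : E → ℝ≥0∞ := fun x => h (dbl E x) with hh2
  have hm2 : Measurable h2 := hm.comp (dbl E).continuous.measurable
  have hsum2 : ∀ᵐ x, ∑' j : ℤ, h2 ((B ^ (-j)) x) = 1 := by
    filter_upwards [ae_comp_equiv (dbl E) hsum] with x hx
    rw [← hx]
    congr 1
    ext j
    rw [hh2]
    simp only
    rw [hcomm]
  have hterm : ∀ j : ℤ, Measurable fun x => h ((B ^ j) x) := fun j =>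
    hm.comp (B ^ j).continuous.measurable
  have hterm2 : ∀ j : ℤ, Measurable fun x => h2 ((B ^ j) x) := fun j =>
    hm2.comp (B ^ j).continuous.measurable
  have e1 : ∫⁻ x, h x = ∑' j : ℤ, ∫⁻ x, h x * h2 ((B ^ (-j)) x) := by
    rw [← lintegral_tsum (f := fun (j : ℤ) (x : E) => h x * h2 ((B ^ (-j)) x))
      (fun j => (hm.mul (hterm2 (-j))).aemeasurable)]
    apply lintegral_congr_ae
    filter_upwards [hsum2] with x hx
    rw [ENNReal.tsum_mul_left, hx, mul_one]
  have e2 : ∫⁻ x, h2 x = ∑' j : ℤ, ∫⁻ x, h2 x * h ((B ^ (-j)) x) := by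
    rw [← lintegral_tsum (f := fun (j : ℤ) (x : E) => h2 x * h ((B ^ (-j)) x))
      (fun j => (hm2.mul (hterm (-j))).aemeasurable)]
    apply lintegral_congr_ae
    filter_upwards [hsum] with x hx
    rw [ENNReal.tsum_mul_left, hx, mul_one]
  have e3 : ∫⁻ x, h x = ∫⁻ x, h2 x := by
    rw [e1, e2, ← (Equiv.neg ℤ).tsum_eq (fun j : ℤ => ∫⁻ x, h2 x * h ((B ^ (-j)) x))]
    congr 1
    ext j
    have h5 := hBj j (fun x => h x * h2 ((B ^ (-j)) x))
    rw [← h5]
    congr 1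
    ext x
    simp only [Equiv.neg_apply, neg_neg]
    rw [zpow_apply_neg, mul_comm]
  have e4 : ∫⁻ x, h2 x = ENNReal.ofReal (2 ^ finrank ℝ E)⁻¹ * ∫⁻ x, h x := by
    rw [← adet_dbl, ← lintegral_comp_equiv (dbl E) h]
  have hne : ∫⁻ x, h x ≠ 0 := by
    intro h0
    rw [lintegral_eq_zero_iff hm] at h0
    have h6 : ∀ᵐ x : E, ∀ j : ℤ, h ((B ^ (-j)) x) = 0 := by
      rw [ae_all_iff]
      intro j
      exact ae_comp_equiv (B ^ (-j)) h0
    have h7 : ∀ᵐ _ : E, False := by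
      filter_upwards [h6, hsum] with x hx1 hx2
      simp only [hx1, tsum_zero] at hx2
      exact zero_ne_one hx2
    rw [ae_iff] at h7
    simp only [not_false_eq_true, Set.ofPred_true] at h7
    exact (NeZero.ne (volume : Measure E)) (Measure.measure_univ_eq_zero.mp h7)
  rw [← e3] at e4
  have hlt : ENNReal.ofReal (2 ^ finrank ℝ E)⁻¹ < 1 := by
    rw [ENNReal.ofReal_lt_one]
    apply inv_lt_one_of_one_lt₀
    exact one_lt_pow₀ one_lt_two (Module.finrank_pos.ne')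
  have h8 : ENNReal.ofReal (2 ^ finrank ℝ E)⁻¹ * ∫⁻ x, h x < 1 * ∫⁻ x, h x :=
    (ENNReal.mul_lt_mul_iff_left hne hfin).mpr hlt
  rw [one_mul, ← e4] at h8
  exact lt_irrefl _ h8

/-- no wavelet with a lower Calderon bound for volume preserving dilations -/
theorem no_wavelet_of_lower [Nontrivial E] (hB : adet B = 1)
    (h : IsONB (volume : Measure E) (fam γ B φ)) (hφm : Measurable φ) {c : ℝ≥0∞} (hc : c ≠ 0)
    (hlow : ∀ᵐ x, c ≤ calS B φ x) : False := by
  obtain ⟨-, hv0, hvt⟩ := map_coordT γ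
  have hup := upper_calderon h hφm
  have hSm : Measurable (calS B φ) := measurable_calS hφm
  have hsq : Measurable fun x => ‖φ x‖ₑ ^ 2 := hφm.enorm.pow_const 2
  refine no_integrable_section hB (h := fun x => ‖φ x‖ₑ ^ 2 * (calS B φ x)⁻¹)
    (hsq.mul hSm.inv) ?_ ?_
  · filter_upwards [hup, hlow] with x hx1 hx2
    have h1 : ∀ j : ℤ, ‖φ ((B ^ (-j)) x)‖ₑ ^ 2 * (calS B φ ((B ^ (-j)) x))⁻¹
        = ‖φ ((B ^ (-j)) x)‖ₑ ^ 2 * (calS B φ x)⁻¹ := by
      intro j
      rw [calS_invariant]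
    simp only [h1]
    rw [ENNReal.tsum_mul_right]
    apply ENNReal.mul_inv_cancel
    · exact (lt_of_lt_of_le (pos_iff_ne_zero.mpr hc) hx2).ne'
    · exact ne_top_of_le_ne_top (ENNReal.inv_ne_top.mpr hv0) hx1
  · have h1 : ∫⁻ x, ‖φ x‖ₑ ^ 2 * (calS B φ x)⁻¹ ≤ ∫⁻ x, ‖φ x‖ₑ ^ 2 * c⁻¹ := by
      apply lintegral_mono_ae
      filter_upwards [hlow] with x hx
      gcongr
    refine ne_top_of_le_ne_top ?_ h1
    rw [lintegral_mul_const _ hsq, lintegral_phi_sq h, one_mul]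
    exact ENNReal.inv_ne_top.mpr hc

theorem no_wavelet_of_noShort [Nontrivial E] (hB : adet B = 1) (hSV : NoShort γ B)
    (h : IsONB (volume : Measure E) (fam γ B φ)) (hφm : Measurable φ) : False := by
  obtain ⟨-, hv0, hvt⟩ := map_coordT γ
  exact no_wavelet_of_lower hB h hφm (ENNReal.inv_ne_zero.mpr hvt) (lower_of_noShort h hφm hSV)

theorem no_wavelet_of_tail [Nontrivial E] {A : E ≃L[ℝ] E} (hAB : IsAdj A B) (hB : adet B = 1)
    (hTail : TailOK γ B φ {j | j ≠ 0})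
    (h : IsONB (volume : Measure E) (fam γ B φ)) (hφm : Measurable φ) : False :=
  no_wavelet_of_lower hB h hφm (ZSpan.measure_fundamentalDomain_ne_zero γ)
    (lower_calderon hAB h hφm hTail)

end Pool.Agent.Lib_helper44
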