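import Mathlib
import Pool.Agent.Lib_helper44.Arith2
import Pool.Agent.Lib_helper44.Det1

open MeasureTheory Filter Topology Complex Module
open scoped ENNReal NNReal ComplexConjugate InnerProductSpace

set_option linter.unusedSectionVars false

namespace Pool.Agent.Lib_helper44

variable {E : Type*} [NormedAddCommGroup E] [InnerProductSpace ℝ E] [FiniteDimensional ℝ E]
  [MeasurableSpace E] [BorelSpace E] {n : ℕ}
variable {γ : Basis (Fin n) ℝ E} {A B : E ≃L[ℝ] E} {φ : E → ℂ}

/-- the mass of `φ` on a periodic set -/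
theorem mass_periodic (h : IsONB (volume : Measure E) (fam γ B φ)) {W : Set E}
    (hW : MeasurableSet W) (hper : ∀ x ∈ W, ∀ v ∈ dualL γ, x + v ∈ W) :
    ∫⁻ x in W, ‖φ x‖ₑ ^ 2 = (volume (Q0 γ))⁻¹ * volume (Q0 γ ∩ W) := by
  classical
  obtain ⟨-, hv0, hvt⟩ := map_coordT γ
  set V := (volume (Q0 γ)).toReal with hV
  have hVpos : 0 < V := ENNReal.toReal_pos hv0 hvt
  have hφ := memLp_of_isONB h
  have hint1 : Integrable (fun x => conj (φ x) * φ x) (volume : Measure E) :=
    integrable_conj_mul hφ hφ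
  have hint2 : Integrable ((Q0 γ).indicator (fun _ => ((V⁻¹ : ℝ) : ℂ))) (volume : Measure E) :=
    (integrable_indicator_iff (measurableSet_Q0 γ)).mpr (integrableOn_const hvt)
  have hΘ := hint1.sub hint2
  have key := setIntegral_saturated_eq_zero hΘ (torusP_measurable γ) ?_ hW ?_
  · simp only [Pi.sub_apply] at key
    rw [integral_sub hint1.integrableOn hint2.integrableOn, sub_eq_zero] at key
    have h1 : ∫ x in W, (Q0 γ).indicator (fun _ => ((V⁻¹ : ℝ) : ℂ)) x
        = (((volume (Q0 γ ∩ W)).toReal * V⁻¹ : ℝ) : ℂ) := by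
      rw [integral_indicator (measurableSet_Q0 γ), Measure.restrict_restrict (measurableSet_Q0 γ),
        setIntegral_const]
      rw [Complex.real_smul, ← Complex.ofReal_mul]
      rfl
    have h2 : ∫ x in W, conj (φ x) * φ x = ((∫ x in W, ‖φ x‖ ^ 2 : ℝ) : ℂ) := by
      rw [← integral_complex_ofReal]
      congr 1
      ext x
      rw [Complex.conj_mul']
      push_cast
      rfl
    rw [h1, h2] at key
    have h3 : ∫ x in W, ‖φ x‖ ^ 2 = (volume (Q0 γ ∩ W)).toReal * V⁻¹ := by exact_mod_cast key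
    have hi : Integrable (fun x => ‖φ x‖ ^ 2) (volume.restrict W) :=
      (hφ.integrable_norm_pow two_ne_zero).integrableOn
    have h4 : ∫⁻ x in W, ‖φ x‖ₑ ^ 2 = ENNReal.ofReal (∫ x in W, ‖φ x‖ ^ 2) := by
      rw [ofReal_integral_eq_lintegral_ofReal hi (Eventually.of_forall fun x => by positivity)]
      congr 1
      ext x
      rw [enorm_sq_eq]
    rw [h4, h3, mul_comm, ENNReal.ofReal_mul (inv_nonneg.mpr hVpos.le),
      ENNReal.ofReal_inv_of_pos hVpos, hV, ENNReal.ofReal_toReal hvt, ENNReal.ofReal_toReal]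
    exact ((measure_mono Set.inter_subset_left).trans_lt hvt.lt_top).ne
  · intro N
    have hee : ∀ x, UnitAddTorus.mFourier N (torusP γ x) = ee (⟪kv γ N, x⟫_ℝ) :=
      fun x => mFourier_torusP γ N x
    simp only [hee, Pi.sub_apply, mul_sub]
    have hb1 : Integrable (fun x => ee (⟪kv γ N, x⟫_ℝ) * (conj (φ x) * φ x)) volume := by
      refine hint1.bdd_mul (c := 1) ?_ ?_
      · exact (ee_continuous.comp (continuous_const.inner continuous_id)).aestronglyMeasurable
      · exact Eventually.of_forall fun x => (norm_ee _).le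
    have hb2 : Integrable (fun x => ee (⟪kv γ N, x⟫_ℝ) *
        (Q0 γ).indicator (fun _ => ((V⁻¹ : ℝ) : ℂ)) x) volume := by
      refine hint2.bdd_mul (c := 1) ?_ ?_
      · exact (ee_continuous.comp (continuous_const.inner continuous_id)).aestronglyMeasurable
      · exact Eventually.of_forall fun x => (norm_ee _).le
    rw [integral_sub hb1 hb2]
    have h1 := h.inner (0, N) (0, 0)
    have h2 : ∀ x, conj (fam γ B φ (0, N) x) * fam γ B φ (0, 0) x
        = ee (⟪kv γ N, x⟫_ℝ) * (conj (φ x) * φ x) := by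
      intro x
      rw [fam_zero, fam_zero, kv_zero, inner_zero_left, neg_zero, ee_zero, one_mul, map_mul,
        conj_ee, neg_neg]
      ring
    simp only [h2] at h1
    rw [h1]
    have h3 : ∀ x, ee (⟪kv γ N, x⟫_ℝ) * (Q0 γ).indicator (fun _ => ((V⁻¹ : ℝ) : ℂ)) x
        = (Q0 γ).indicator (fun x => ((V⁻¹ : ℝ) : ℂ) * ee (⟪kv γ N, x⟫_ℝ)) x := by
      intro x
      by_cases hx : x ∈ Q0 γ
      · rw [Set.indicator_of_mem hx, Set.indicator_of_mem hx, mul_comm]
      · rw [Set.indicator_of_notMem hx, Set.indicator_of_notMem hx, mul_zero]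
    simp only [h3]
    rw [integral_indicator (measurableSet_Q0 γ), integral_const_mul, integral_ee_Q0]
    by_cases hN : N = 0
    · subst hN
      rw [if_pos rfl, if_pos rfl, ← Complex.ofReal_mul, inv_mul_cancel₀ hVpos.ne',
        Complex.ofReal_one, sub_self]
    · rw [if_neg hN, if_neg (by simpa using hN), mul_zero, sub_zero]
  · intro x hx y hxy
    have h1 := hper x hx (y - x) (torusP_eq hxy)
    rwa [add_sub_cancel] at h1

/-- unfolding the volume over the basic cell -/
theorem volume_unfold (γ : Basis (Fin n) ℝ E) {D : Set E} (hD : MeasurableSet D) :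
    volume D = ∫⁻ x in Q0 γ, ∑' v : dualL γ, D.indicator (fun _ => (1 : ℝ≥0∞)) (x + v) := by
  have h1 := (isFD (measurableSet_Q0 γ) (isPack_Q0 γ) (isCover_Q0 γ)).lintegral_eq_tsum''
    (D.indicator (fun _ => (1 : ℝ≥0∞)))
  rw [lintegral_indicator hD, setLIntegral_one] at h1
  rw [h1, lintegral_tsum]
  · congr 1
    ext v
    apply lintegral_congr
    intro x
    change D.indicator (fun _ => (1 : ℝ≥0∞)) ((v : E) + x) = _
    rw [add_comm]
  · intro v
    exact ((measurable_const.indicator hD).comp (measurable_add_const (v : E))).aemeasurable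

/-- **counting bound** for the mass of the dilates of `φ` -/
theorem mass_count (h : IsONB (volume : Measure E) (fam γ B φ)) (j : ℤ)
    {K K' : Set E} (hK : MeasurableSet K) (hK' : MeasurableSet K') (s : Finset E)
    (hs : ∀ v ∈ s, v ∈ dualL γ) (hKK' : ∀ x ∈ K, ∀ v ∈ s, x + (B ^ j) v ∈ K') :
    (s.card : ℝ≥0∞) * ∫⁻ x in K, ‖φ ((B ^ (-j)) x)‖ₑ ^ 2 ≤ (volume (Q0 γ))⁻¹ * volume K' := by
  classical
  obtain ⟨-, hv0, hvt⟩ := map_coordT γ
  set D : Set E := (B ^ j) ⁻¹' K with hD
  set D' : Set E := (B ^ j) ⁻¹' K' with hD'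
  have hDm : MeasurableSet D := (B ^ j).continuous.measurable hK
  have hD'm : MeasurableSet D' := (B ^ j).continuous.measurable hK'
  set W := satur γ D with hW
  have hWm : MeasurableSet W := measurableSet_satur γ hDm
  have hDW : D ⊆ W := by
    intro x hx
    rw [hW, mem_satur]
    exact ⟨0, (dualL γ).zero_mem, by rwa [add_zero]⟩
  have hWper : ∀ x ∈ W, ∀ v ∈ dualL γ, x + v ∈ W := by
    intro x hx v hv
    rw [hW, mem_satur] at hx ⊢
    obtain ⟨w, hw, hwD⟩ := hx
    refine ⟨w - v, (dualL γ).sub_mem hw hv, ?_⟩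
    have : x + v + (w - v) = x + w := by abel
    rwa [this]
  -- change of variables
  set d : ℝ≥0∞ := ENNReal.ofReal (adet (B ^ (-j)))⁻¹ with hd
  have h1 : ∫⁻ x in K, ‖φ ((B ^ (-j)) x)‖ₑ ^ 2 = d * ∫⁻ y in D, ‖φ y‖ₑ ^ 2 := by
    rw [← lintegral_indicator hK, ← lintegral_indicator hDm,
      ← lintegral_comp_equiv (B ^ (-j)) (D.indicator fun y => ‖φ y‖ₑ ^ 2)]
    congr 1
    ext x
    by_cases hx : x ∈ K
    · have hx' : (B ^ (-j)) x ∈ D := by
        change (B ^ j) ((B ^ (-j)) x) ∈ K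
        rwa [zcancel]
      rw [Set.indicator_of_mem hx, Set.indicator_of_mem hx']
    · have hx' : (B ^ (-j)) x ∉ D := by
        intro hcon
        apply hx
        have h3 : (B ^ j) ((B ^ (-j)) x) ∈ K := hcon
        rwa [zcancel] at h3
      rw [Set.indicator_of_notMem hx, Set.indicator_of_notMem hx']
  have h2 : volume K' = d * volume D' := by
    rw [← setLIntegral_one K', ← setLIntegral_one D', ← lintegral_indicator hK',
      ← lintegral_indicator hD'm,
      ← lintegral_comp_equiv (B ^ (-j)) (D'.indicator fun _ => (1 : ℝ≥0∞))]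
    congr 1
    ext x
    by_cases hx : x ∈ K'
    · have hx' : (B ^ (-j)) x ∈ D' := by
        change (B ^ j) ((B ^ (-j)) x) ∈ K'
        rwa [zcancel]
      rw [Set.indicator_of_mem hx, Set.indicator_of_mem hx']
    · have hx' : (B ^ (-j)) x ∉ D' := by
        intro hcon
        apply hx
        have h3 : (B ^ j) ((B ^ (-j)) x) ∈ K' := hcon
        rwa [zcancel] at h3
      rw [Set.indicator_of_notMem hx, Set.indicator_of_notMem hx']
  have h3 : ∫⁻ y in D, ‖φ y‖ₑ ^ 2 ≤ (volume (Q0 γ))⁻¹ * volume (Q0 γ ∩ W) := by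
    rw [← mass_periodic h hWm hWper]
    exact lintegral_mono_set hDW
  have h4 : (s.card : ℝ≥0∞) * volume (Q0 γ ∩ W) ≤ volume D' := by
    rw [volume_unfold γ hD'm]
    calc (s.card : ℝ≥0∞) * volume (Q0 γ ∩ W)
        = ∫⁻ x in Q0 γ, W.indicator (fun _ => (s.card : ℝ≥0∞)) x := by
          rw [lintegral_indicator hWm, Measure.restrict_restrict hWm, setLIntegral_const,
            Set.inter_comm]
      _ ≤ _ := by
          apply lintegral_mono
          intro x
          by_cases hx : x ∈ W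
          · rw [Set.indicator_of_mem hx]
            rw [hW, mem_satur] at hx
            obtain ⟨w, hw, hwD⟩ := hx
            -- the injection
            let f : E → dualL γ := fun v => if hv : v ∈ dualL γ then ⟨w + v, (dualL γ).add_mem hw hv⟩
              else 0
            have hf : ∀ v ∈ s, (f v : E) = w + v := by
              intro v hv
              simp only [f, dif_pos (hs v hv)]
            have hinj : Set.InjOn f s := by
              intro v hv v' hv' hvv'
              have h5 : (f v : E) = f v' := by rw [hvv']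
              rw [hf v hv, hf v' hv'] at h5
              exact add_left_cancel h5
            calc (s.card : ℝ≥0∞) = ∑ v ∈ s.image f, (1 : ℝ≥0∞) := by
                  rw [Finset.sum_const, Finset.card_image_of_injOn hinj, nsmul_eq_mul, mul_one]
              _ ≤ ∑ v ∈ s.image f, D'.indicator (fun _ => (1 : ℝ≥0∞)) (x + v) := by
                  apply Finset.sum_le_sum
                  intro u hu
                  obtain ⟨v, hv, rfl⟩ := Finset.mem_image.mp hu
                  have h6 : x + (f v : E) ∈ D' := by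
                    rw [hf v hv, ← add_assoc]
                    change (B ^ j) (x + w + v) ∈ K'
                    rw [map_add]
                    exact hKK' _ hwD v hv
                  rw [Set.indicator_of_mem h6]
              _ ≤ _ := ENNReal.sum_le_tsum _
          · rw [Set.indicator_of_notMem hx]
            exact zero_le
  calc (s.card : ℝ≥0∞) * ∫⁻ x in K, ‖φ ((B ^ (-j)) x)‖ₑ ^ 2
      = d * ((s.card : ℝ≥0∞) * ∫⁻ y in D, ‖φ y‖ₑ ^ 2) := by rw [h1]; ring
    _ ≤ d * ((s.card : ℝ≥0∞) * ((volume (Q0 γ))⁻¹ * volume (Q0 γ ∩ W))) := by gcongr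
    _ = (volume (Q0 γ))⁻¹ * (d * ((s.card : ℝ≥0∞) * volume (Q0 γ ∩ W))) := by ring
    _ ≤ (volume (Q0 γ))⁻¹ * (d * volume D') := by gcongr
    _ = _ := by rw [h2]

/-- the number of vectors of `L` that `B ^ j` maps into the ball of radius `R` -/
noncomputable def cn (B : E ≃L[ℝ] E) (L : AddSubgroup E) (j : ℤ) (R : ℝ) : ℕ∞ :=
  ({v | v ∈ L ∧ ‖(B ^ j) v‖ ≤ R} : Set E).encard

theorem finite_lattice_ball (γ : Basis (Fin n) ℝ E) (R : ℝ) :
    ({v | v ∈ dualL γ ∧ ‖v‖ ≤ R} : Set E).Finite := by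
  obtain ⟨Fs, -, h2⟩ := exists_lam_finset γ (D := {v | ‖v‖ ≤ R}) (R := R) (fun x hx => hx)
  apply (Fs.finite_toSet).subset
  rintro v ⟨hv, hvR⟩
  have h3 := h2 v hvR
  have h4 : lamv γ 0 v = v := by
    have h5 := lamv_add γ 0 0 hv
    have h6 : lamv γ 0 0 = 0 := by
      have h7 : (0 : E) ∈ Q0 γ := by
        rw [Q0_eq, Set.mem_preimage, map_zero, cubeN, Set.mem_univ_pi]
        intro i
        simp
      exact h7
    rwa [h6, zero_add] at h5
  rwa [h4] at h3

theorem zpow_norm_le (B : E ≃L[ℝ] E) (j : ℤ) (v : E) :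
    ‖(B ^ j) v‖ ≤ ‖((B ^ j : E ≃L[ℝ] E) : E →L[ℝ] E)‖ * ‖v‖ :=
  ContinuousLinearMap.le_opNorm ((B ^ j : E ≃L[ℝ] E) : E →L[ℝ] E) v

theorem finite_lattice_dil (γ : Basis (Fin n) ℝ E) (B : E ≃L[ℝ] E) (j : ℤ) (R : ℝ) :
    ({v | v ∈ dualL γ ∧ ‖(B ^ j) v‖ ≤ R} : Set E).Finite := by
  apply (finite_lattice_ball γ (‖((B ^ (-j) : E ≃L[ℝ] E) : E →L[ℝ] E)‖ * R)).subset
  rintro v ⟨hv, hvR⟩
  refine ⟨hv, ?_⟩
  have h1 := zpow_norm_le B (-j) ((B ^ j) v)
  rw [zcancel'] at h1
  refine h1.trans ?_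
  gcongr

theorem cn_ne_top {L : AddSubgroup E} (hL : L ≤ dualL γ) (j : ℤ) (R : ℝ) : cn B L j R ≠ ⊤ := by
  unfold cn
  rw [Set.encard_ne_top_iff]
  apply (finite_lattice_dil γ B j R).subset
  rintro v ⟨hv, hvR⟩
  exact ⟨hL hv, hvR⟩

theorem cn_mono {L : AddSubgroup E} (j : ℤ) {R R' : ℝ} (h : R ≤ R') : cn B L j R ≤ cn B L j R' := by
  apply Set.encard_le_encard
  rintro v ⟨hv, hvR⟩
  exact ⟨hv, hvR.trans h⟩

theorem one_le_cn {L : AddSubgroup E} (j : ℤ) {R : ℝ} (hR : 0 ≤ R) : 1 ≤ cn B L j R := by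
  unfold cn
  rw [Set.one_le_encard_iff_nonempty]
  exact ⟨0, L.zero_mem, by rwa [map_zero, norm_zero]⟩

/-- (P1) changing the radius costs a constant -/
theorem exists_cn_scale (E : Type*) [NormedAddCommGroup E] [InnerProductSpace ℝ E]
    [FiniteDimensional ℝ E] (R : ℝ) {δ : ℝ} (hδ : 0 < δ) :
    ∃ C : ℕ, ∀ (B : E ≃L[ℝ] E) (L : AddSubgroup E) (j : ℤ), cn B L j R ≤ C * cn B L j δ := by
  classical
  have hcomp : IsCompact (Metric.closedBall (0 : E) R) := isCompact_closedBall _ _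
  obtain ⟨t, ht, htf, hcov⟩ := hcomp.finite_cover_balls (half_pos hδ)
  have htfin : t.Finite := htf
  set T := htfin.toFinset with hT
  refine ⟨T.card, fun B L j => ?_⟩
  have hsub : ({v | v ∈ L ∧ ‖(B ^ j) v‖ ≤ R} : Set E)
      ⊆ ⋃ x ∈ T, {v | v ∈ L ∧ ‖(B ^ j) v - x‖ < δ / 2} := by
    rintro v ⟨hv, hvR⟩
    have h1 : (B ^ j) v ∈ Metric.closedBall (0 : E) R := by
      rwa [mem_closedBall_zero_iff]
    have h2 := hcov h1
    rw [Set.mem_iUnion₂] at h2 ⊢
    obtain ⟨x, hx, hxv⟩ := h2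
    refine ⟨x, by rwa [hT, Set.Finite.mem_toFinset], hv, ?_⟩
    rwa [← dist_eq_norm]
  have hpiece : ∀ x ∈ T, ({v | v ∈ L ∧ ‖(B ^ j) v - x‖ < δ / 2} : Set E).encard ≤ cn B L j δ := by
    intro x _
    rcases Set.eq_empty_or_nonempty ({v | v ∈ L ∧ ‖(B ^ j) v - x‖ < δ / 2} : Set E) with h0 | h0
    · rw [h0, Set.encard_empty]
      exact zero_le
    · obtain ⟨v₀, hv₀, hv₀x⟩ := h0
      unfold cn
      have hmaps : ∀ v ∈ ({v | v ∈ L ∧ ‖(B ^ j) v - x‖ < δ / 2} : Set E),
          v - v₀ ∈ ({v | v ∈ L ∧ ‖(B ^ j) v‖ ≤ δ} : Set E) := by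
        rintro v ⟨hv, hvx⟩
        refine ⟨L.sub_mem hv hv₀, ?_⟩
        rw [map_sub]
        have h3 : (B ^ j) v - (B ^ j) v₀ = ((B ^ j) v - x) - ((B ^ j) v₀ - x) := by abel
        rw [h3]
        refine (norm_sub_le _ _).trans ?_
        linarith
      exact Set.encard_le_encard_of_injOn hmaps (fun a _ b _ hab => by simpa using hab)
  calc cn B L j R ≤ (⋃ x ∈ T, {v | v ∈ L ∧ ‖(B ^ j) v - x‖ < δ / 2} : Set E).encard :=
        Set.encard_le_encard hsub
    _ ≤ ∑ x ∈ T, ({v | v ∈ L ∧ ‖(B ^ j) v - x‖ < δ / 2} : Set E).encard := by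
        clear hsub hpiece hcov
        induction T using Finset.induction_on with
        | empty => simp
        | insert a s ha ih =>
          rw [Finset.sum_insert ha]
          have : (⋃ x ∈ insert a s, {v | v ∈ L ∧ ‖(B ^ j) v - x‖ < δ / 2} : Set E)
              = {v | v ∈ L ∧ ‖(B ^ j) v - a‖ < δ / 2} ∪
                (⋃ x ∈ s, {v | v ∈ L ∧ ‖(B ^ j) v - x‖ < δ / 2}) := by
            ext v
            simp
          rw [this]
          exact (Set.encard_union_le _ _).trans (by gcongr)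
    _ ≤ ∑ x ∈ T, cn B L j δ := Finset.sum_le_sum hpiece
    _ = T.card * cn B L j δ := by rw [Finset.sum_const, nsmul_eq_mul]

end Pool.Agent.Lib_helper44
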