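import Mathlib
import Pool.Agent.Lib_helper44.Count

open MeasureTheory Filter Topology Complex Module
open scoped ENNReal NNReal ComplexConjugate InnerProductSpace

set_option linter.unusedSectionVars false

namespace Pool.Agent.Lib_helper44

variable {E : Type*} [NormedAddCommGroup E] [InnerProductSpace ℝ E] [FiniteDimensional ℝ E]
  [MeasurableSpace E] [BorelSpace E] {n : ℕ}
variable {γ : Basis (Fin n) ℝ E} {A B : E ≃L[ℝ] E} {φ : E → ℂ}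

/-- uniform denominators on finitely generated groups -/
theorem fg_common {κ : Type*} {G Λ : AddSubgroup E} (hG : G.FG) (T : κ → E ≃L[ℝ] E)
    (h : ∀ g ∈ G, ∃ N : ℕ, 0 < N ∧ ∀ k, N • (T k) g ∈ Λ) :
    ∃ N : ℕ, 0 < N ∧ ∀ g ∈ G, ∀ k, N • (T k) g ∈ Λ := by
  classical
  obtain ⟨s, hs⟩ := hG
  have h1 : ∀ t : Finset E, (∀ g ∈ t, g ∈ G) →
      ∃ N : ℕ, 0 < N ∧ ∀ g ∈ t, ∀ k, N • (T k) g ∈ Λ := by
    intro t
    induction t using Finset.induction_on with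
    | empty => exact fun _ => ⟨1, one_pos, fun g hg => absurd hg (Finset.notMem_empty g)⟩
    | insert a t ha ih =>
      intro hat
      obtain ⟨N, hN, h2⟩ := ih (fun g hg => hat g (Finset.mem_insert_of_mem hg))
      obtain ⟨M, hM, h3⟩ := h a (hat a (Finset.mem_insert_self a t))
      refine ⟨N * M, Nat.mul_pos hN hM, fun g hg k => ?_⟩
      rcases Finset.mem_insert.mp hg with rfl | hg
      · rw [mul_smul]
        exact Λ.nsmul_mem (h3 k) N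
      · rw [mul_comm, mul_smul]
        exact Λ.nsmul_mem (h2 g hg k) M
  obtain ⟨N, hN, h2⟩ := h1 s (fun g hg => by rw [← hs]; exact AddSubgroup.subset_closure hg)
  refine ⟨N, hN, fun g hg k => ?_⟩
  rw [← hs] at hg
  induction hg using AddSubgroup.closure_induction with
  | mem x hx => exact h2 x hx k
  | zero => rw [map_zero, smul_zero]; exact Λ.zero_mem
  | add a b _ _ ha hb => rw [map_add, smul_add]; exact Λ.add_mem ha hb
  | neg a _ ha => rw [map_neg, smul_neg]; exact Λ.neg_mem ha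

/-- the group `R` -/
def RQ (B : E ≃L[ℝ] E) (Λ : AddSubgroup E) (q : ℕ) : AddSubgroup E := Λ ⊓ UQ B Λ q

/-- (N1) -/
theorem exists_cn_HE (γ : Basis (Fin n) ℝ E) (B : E ≃L[ℝ] E) {q : ℕ} (hq0 : 0 < q) :
    ∃ κ : ℝ, 0 ≤ κ ∧ ∀ (c j : ℤ) (R : ℝ), 0 ≤ R →
      ({m | m ∈ Lj γ B j ∧ m ∈ HE B (dualL γ) q c ∧ ‖m‖ ≤ R} : Set E).encard
        ≤ cn B (RQ B (dualL γ) q) j (κ * R) := by
  classical
  have hq0' : (0 : ℤ) < q := by exact_mod_cast hq0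
  have h1 : ∀ i : ℕ, ∃ N : ℕ, 0 < N ∧ ∀ g ∈ dualL γ ⊓
      (UQ B (dualL γ) q).comap ((B ^ (i : ℤ)).toLinearEquiv.toLinearMap.toAddMonoidHom),
      N • (B ^ (i : ℤ)) g ∈ dualL γ := by
    intro i
    obtain ⟨N, hN, h2⟩ := fg_common (κ := Unit) (Λ := dualL γ)
      (dualL_fg γ (dualL γ ⊓ (UQ B (dualL γ) q).comap
        ((B ^ (i : ℤ)).toLinearEquiv.toLinearMap.toAddMonoidHom)) inf_le_left)
      (fun _ => B ^ (i : ℤ)) (by
        rintro g ⟨-, hg⟩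
        have h3 : (B ^ (i : ℤ)) g ∈ UQ B (dualL γ) q := hg
        obtain ⟨N, hN, h4⟩ := X0_le B (dualL γ) q h3.1
        exact ⟨N, hN, fun _ => h4⟩)
    exact ⟨N, hN, fun g hg => h2 g hg ()⟩
  choose N hN hNg using h1
  set κ : ℝ := ∑ i ∈ Finset.range q, (N i : ℝ) * ‖((B ^ (i : ℤ) : E ≃L[ℝ] E) : E →L[ℝ] E)‖ with hκ
  refine ⟨κ, Finset.sum_nonneg fun i _ => by positivity, fun c j R hR => ?_⟩
  set i : ℕ := ((j - c) % q).toNat with hi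
  have hi0 : 0 ≤ (j - c) % q := Int.emod_nonneg _ hq0'.ne'
  have hiq : (j - c) % q < q := Int.emod_lt_of_pos _ hq0'
  have hic : (i : ℤ) = (j - c) % q := Int.toNat_of_nonneg hi0
  have hiq' : i < q := by omega
  have hexp : (q : ℤ) * (-((j - c) / q)) + -c = i - j := by
    have h2 := Int.emod_add_mul_ediv (j - c) q
    rw [hic]
    linarith
  have hmem : ∀ m, m ∈ Lj γ B j → m ∈ HE B (dualL γ) q c →
      (B ^ (i : ℤ)) ((B ^ (-j)) m) ∈ UQ B (dualL γ) q := by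
    intro m _ hm
    have h2 := UQ_stable (-((j - c) / q)) (mem_HE.mp hm)
    rw [zcomp, hexp] at h2
    rw [zcomp]
    have : (i : ℤ) + -j = i - j := by ring
    rwa [this]
  unfold cn
  have hmaps : ∀ m ∈ ({m | m ∈ Lj γ B j ∧ m ∈ HE B (dualL γ) q c ∧ ‖m‖ ≤ R} : Set E),
      N i • (B ^ (i : ℤ)) ((B ^ (-j)) m) ∈
        ({v | v ∈ RQ B (dualL γ) q ∧ ‖(B ^ j) v‖ ≤ κ * R} : Set E) := by
    rintro m ⟨hm1, hm2, hm3⟩
    have h2 := hmem m hm1 hm2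
    refine ⟨⟨hNg i _ ⟨hm1, h2⟩, (UQ B (dualL γ) q).nsmul_mem h2 _⟩, ?_⟩
    rw [map_nsmul, zcomp, zcomp]
    have h3 : j + (i : ℤ) + -j = i := by ring
    have h3' : j + ((i : ℤ) + -j) = i := by ring
    have h4 : (B ^ (j + ((i : ℤ) + -j))) m = (B ^ (i : ℤ)) m := by rw [h3']
    first
      | rw [h4]
      | rw [h3]
    rw [← Nat.cast_smul_eq_nsmul ℝ, norm_smul, Real.norm_natCast]
    calc (N i : ℝ) * ‖(B ^ (i : ℤ)) m‖
        ≤ (N i : ℝ) * (‖((B ^ (i : ℤ) : E ≃L[ℝ] E) : E →L[ℝ] E)‖ * ‖m‖) := by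
          gcongr
          exact zpow_norm_le B i m
      _ = ((N i : ℝ) * ‖((B ^ (i : ℤ) : E ≃L[ℝ] E) : E →L[ℝ] E)‖) * ‖m‖ := by ring
      _ ≤ κ * R := by
          apply mul_le_mul _ hm3 (norm_nonneg _)
            (Finset.sum_nonneg fun i _ => by positivity)
          exact Finset.single_le_sum
            (f := fun i : ℕ => (N i : ℝ) * ‖((B ^ (i : ℤ) : E ≃L[ℝ] E) : E →L[ℝ] E)‖)
            (fun i _ => by positivity) (Finset.mem_range.mpr hiq')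
  apply Set.encard_le_encard_of_injOn hmaps
  intro m _ m' _ hmm'
  have h2 : ((N i : ℝ)) • (B ^ (i : ℤ)) ((B ^ (-j)) m)
      = ((N i : ℝ)) • (B ^ (i : ℤ)) ((B ^ (-j)) m') := by
    rw [Nat.cast_smul_eq_nsmul, Nat.cast_smul_eq_nsmul]
    exact hmm'
  have hN0 : (N i : ℝ) ≠ 0 := by exact_mod_cast (hN i).ne'
  have h3 := smul_right_injective E hN0 h2
  exact (B ^ (-j)).injective ((B ^ (i : ℤ)).injective h3)

/-- boundedness of the count on the negative side -/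
theorem exists_cn_bdd (γ : Basis (Fin n) ℝ E) (B : E ≃L[ℝ] E) {q : ℕ} (hq0 : 0 < q) (R : ℝ) :
    ∃ C : ℕ, ∀ j : ℤ, j ≤ 0 → cn B (RQ B (dualL γ) q) j R ≤ C := by
  classical
  have hq0' : (0 : ℤ) < q := by exact_mod_cast hq0
  obtain ⟨N, hN, hNg⟩ := fg_common (κ := ℕ) (Λ := dualL γ)
    (dualL_fg γ (RQ B (dualL γ) q) inf_le_left) (fun k => B ^ (-((q : ℤ) * k))) (by
      rintro g ⟨-, hg⟩
      exact hg.2)
  set M : ℝ := ∑ i ∈ Finset.range q, ‖((B ^ (i : ℤ) : E ≃L[ℝ] E) : E →L[ℝ] E)‖ with hM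
  have hM0 : 0 ≤ M := Finset.sum_nonneg fun i _ => norm_nonneg _
  have hfin := finite_lattice_ball γ ((N : ℝ) * (M * R))
  refine ⟨hfin.toFinset.card, fun j hj => ?_⟩
  set i : ℕ := ((-j) % q).toNat with hi
  have hi0 : 0 ≤ (-j) % q := Int.emod_nonneg _ hq0'.ne'
  have hiq : (-j) % q < q := Int.emod_lt_of_pos _ hq0'
  have hic : (i : ℤ) = (-j) % q := Int.toNat_of_nonneg hi0
  set k : ℕ := ((-j) / q).toNat with hk
  have hk0 : 0 ≤ (-j) / q := Int.ediv_nonneg (by omega) hq0'.le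
  have hkc : (k : ℤ) = (-j) / q := Int.toNat_of_nonneg hk0
  have hexp : -((q : ℤ) * k) = i + j := by
    have h2 := Int.emod_add_mul_ediv (-j) q
    rw [hkc, hic]
    linarith
  have hcard : ((hfin.toFinset.card : ℕ) : ℕ∞)
      = ({v | v ∈ dualL γ ∧ ‖v‖ ≤ (N : ℝ) * (M * R)} : Set E).encard := by
    rw [← Set.encard_coe_eq_coe_finsetCard, Set.Finite.coe_toFinset]
  rw [hcard]
  unfold cn
  have hmaps : ∀ v ∈ ({v | v ∈ RQ B (dualL γ) q ∧ ‖(B ^ j) v‖ ≤ R} : Set E),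
      N • (B ^ (-((q : ℤ) * k))) v ∈ ({v | v ∈ dualL γ ∧ ‖v‖ ≤ (N : ℝ) * (M * R)} : Set E) := by
    rintro v ⟨hv, hvR⟩
    refine ⟨hNg v hv k, ?_⟩
    rw [← Nat.cast_smul_eq_nsmul ℝ, norm_smul, Real.norm_natCast, hexp, ← zcomp]
    gcongr
    refine (zpow_norm_le B i _).trans ?_
    apply mul_le_mul _ hvR (norm_nonneg _) hM0
    exact Finset.single_le_sum (f := fun i : ℕ => ‖((B ^ (i : ℤ) : E ≃L[ℝ] E) : E →L[ℝ] E)‖)
      (fun i _ => norm_nonneg _) (Finset.mem_range.mpr (by omega))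
  apply Set.encard_le_encard_of_injOn hmaps
  intro m _ m' _ hmm'
  have h2 : ((N : ℝ)) • (B ^ (-((q : ℤ) * k))) m = ((N : ℝ)) • (B ^ (-((q : ℤ) * k))) m' := by
    rw [Nat.cast_smul_eq_nsmul, Nat.cast_smul_eq_nsmul]
    exact hmm'
  have hN0 : (N : ℝ) ≠ 0 := by exact_mod_cast hN.ne'
  have h3 := smul_right_injective E hN0 h2
  exact (B ^ (-((q : ℤ) * k))).injective h3

/-- the number of cosets of `L` in `Λ` meeting `B ^ (-j)` of the unit ball -/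
noncomputable def nco (B : E ≃L[ℝ] E) (Λ L : AddSubgroup E) (j : ℤ) : ℕ∞ :=
  ((fun v : E => ({w | w - v ∈ L} : Set E)) '' {v | v ∈ Λ ∧ ‖(B ^ j) v‖ < 1}).encard

/-- (P2) -/
theorem nco_mul_cn_le {Λ L : AddSubgroup E} (hL : L ≤ Λ) (B : E ≃L[ℝ] E) (j : ℤ) (R : ℝ) :
    nco B Λ L j * cn B L j R ≤ ({v | v ∈ Λ ∧ ‖(B ^ j) v‖ ≤ 1 + R} : Set E).encard := by
  classical
  obtain ⟨S, hS, hSb⟩ := (Set.surjOn_image (fun v : E => ({w | w - v ∈ L} : Set E))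
    {v | v ∈ Λ ∧ ‖(B ^ j) v‖ < 1}).exists_bijOn_subset
  have h1 : nco B Λ L j = S.encard := by
    unfold nco
    rw [← hSb.image_eq, hSb.injOn.encard_image]
  rw [h1]
  unfold cn
  rw [← Set.encard_prod]
  have hmaps : ∀ p ∈ S ×ˢ {v | v ∈ L ∧ ‖(B ^ j) v‖ ≤ R},
      p.1 + p.2 ∈ ({v | v ∈ Λ ∧ ‖(B ^ j) v‖ ≤ 1 + R} : Set E) := by
    rintro ⟨v, u⟩ ⟨hv, hu, huR⟩
    obtain ⟨hv1, hv2⟩ := hS hv
    refine ⟨Λ.add_mem hv1 (hL hu), ?_⟩
    rw [map_add]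
    exact (norm_add_le _ _).trans (add_le_add hv2.le huR)
  apply Set.encard_le_encard_of_injOn hmaps
  rintro ⟨v, u⟩ ⟨hv, hu, -⟩ ⟨v', u'⟩ ⟨hv', hu', -⟩ heq
  simp only at heq hv hv' hu hu'
  have h2 : v - v' = u' - u := by
    have : v + u - (v' + u) = v' + u' - (v' + u) := by rw [heq]
    have e1 : v + u - (v' + u) = v - v' := by abel
    have e2 : v' + u' - (v' + u) = u' - u := by abel
    rw [← e1, ← e2, this]
  have h3 : v - v' ∈ L := by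
    rw [h2]
    exact L.sub_mem hu' hu
  have h4 : v = v' := by
    apply hSb.injOn hv hv'
    simp only
    ext w
    constructor
    · intro hw
      have h5 : w - v' = (w - v) + (v - v') := by abel
      change w - v' ∈ L
      rw [h5]
      exact L.add_mem hw h3
    · intro hw
      have h5 : w - v = (w - v') - (v - v') := by abel
      change w - v ∈ L
      rw [h5]
      exact L.sub_mem hw h3
  subst h4
  have h5 : u = u' := add_left_cancel heq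
  rw [h5]

/-- case (a): the cosets are summable -/
theorem TM_a (h : IsONB (volume : Measure E) (fam γ B φ)) {E₀ : Set E} {ρ : ℝ}
    (hb : ∀ x ∈ E₀, ‖x‖ ≤ ρ) {L : AddSubgroup E} (hL : L ≤ dualL γ)
    (ha : ∑' k : ℕ, ((nco B (dualL γ) L k : ℕ∞) : ℝ≥0∞)⁻¹ ≠ ⊤) (R : ℝ) :
    ∑' k : ℕ, ((cn B L k R : ℕ∞) : ℝ≥0∞) * ∫⁻ x in E₀, ‖φ ((B ^ (-(k : ℤ))) x)‖ₑ ^ 2 ≠ ⊤ := by
  classical
  obtain ⟨-, hv0, hvt⟩ := map_coordT γ
  obtain ⟨C, hC⟩ := exists_cn_scale E R one_pos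
  set V' : ℝ≥0∞ := (volume (Q0 γ))⁻¹ * volume (Metric.closedBall (0 : E) (ρ + 2)) with hV'
  have hV't : V' ≠ ⊤ := ENNReal.mul_ne_top (ENNReal.inv_ne_top.mpr hv0)
    measure_closedBall_lt_top.ne
  have hterm : ∀ k : ℕ, ((cn B L k R : ℕ∞) : ℝ≥0∞) * ∫⁻ x in E₀, ‖φ ((B ^ (-(k : ℤ))) x)‖ₑ ^ 2
      ≤ (C * V') * ((nco B (dualL γ) L k : ℕ∞) : ℝ≥0∞)⁻¹ := by
    intro k
    set I := ∫⁻ x in Metric.closedBall (0 : E) ρ, ‖φ ((B ^ (-(k : ℤ))) x)‖ₑ ^ 2 with hI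
    have h0 : ∫⁻ x in E₀, ‖φ ((B ^ (-(k : ℤ))) x)‖ₑ ^ 2 ≤ I := by
      apply lintegral_mono_set
      intro x hx
      rw [mem_closedBall_zero_iff]
      exact hb x hx
    have hfin := finite_lattice_dil γ B k (1 + 1)
    have h1 := mass_count h (k : ℤ) (K := Metric.closedBall (0 : E) ρ)
      (K' := Metric.closedBall (0 : E) (ρ + 2)) Metric.isClosed_closedBall.measurableSet
      Metric.isClosed_closedBall.measurableSet hfin.toFinset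
      (fun v hv => ((Set.Finite.mem_toFinset hfin).mp hv).1)
      (by
        intro x hx v hv
        have h2 := ((Set.Finite.mem_toFinset hfin).mp hv).2
        rw [mem_closedBall_zero_iff] at hx ⊢
        refine (norm_add_le _ _).trans ?_
        linarith)
    have h2 := nco_mul_cn_le hL B (k : ℤ) 1
    have h3 : ({v | v ∈ dualL γ ∧ ‖(B ^ (k : ℤ)) v‖ ≤ 1 + 1} : Set E).encard
        = (hfin.toFinset.card : ℕ∞) := by
      rw [← Set.encard_coe_eq_coe_finsetCard, Set.Finite.coe_toFinset]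
    rw [h3] at h2
    have h4 : ((nco B (dualL γ) L k : ℕ∞) : ℝ≥0∞) * ((cn B L k 1 : ℕ∞) : ℝ≥0∞)
        ≤ (hfin.toFinset.card : ℝ≥0∞) := by
      have : (((nco B (dualL γ) L k * cn B L k 1 : ℕ∞)) : ℝ≥0∞)
          ≤ (((hfin.toFinset.card : ℕ) : ℕ∞) : ℝ≥0∞) := by exact_mod_cast h2
      rwa [ENat.toENNReal_mul, ENat.toENNReal_coe] at this
    have h5 : ((nco B (dualL γ) L k : ℕ∞) : ℝ≥0∞) * (((cn B L k 1 : ℕ∞) : ℝ≥0∞) * I) ≤ V' := by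
      rw [← mul_assoc]
      refine le_trans ?_ h1
      gcongr
    have hn0 : ((nco B (dualL γ) L k : ℕ∞) : ℝ≥0∞) ≠ 0 := by
      have : nco B (dualL γ) L k ≠ 0 := by
        unfold nco
        rw [Set.encard_ne_zero]
        exact ⟨_, 0, ⟨(dualL γ).zero_mem, by rw [map_zero, norm_zero]; exact one_pos⟩, rfl⟩
      simpa using this
    have hnt : ((nco B (dualL γ) L k : ℕ∞) : ℝ≥0∞) ≠ ⊤ := by
      have h6 : ((cn B L k 1 : ℕ∞) : ℝ≥0∞) ≠ 0 := by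
        have : cn B L k 1 ≠ 0 := by
          have := one_le_cn (B := B) (L := L) (k : ℤ) (zero_le_one)
          intro hcon
          rw [hcon] at this
          exact absurd this (by norm_num)
        simpa using this
      intro htop
      rw [htop, ENNReal.top_mul h6] at h4
      exact absurd h4 (by simp)
    have h6 : ((cn B L k 1 : ℕ∞) : ℝ≥0∞) * I ≤ V' * ((nco B (dualL γ) L k : ℕ∞) : ℝ≥0∞)⁻¹ := by
      rw [← div_eq_mul_inv, ENNReal.le_div_iff_mul_le (Or.inl hn0) (Or.inl hnt), mul_comm]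
      exact h5
    have h7 : ((cn B L k R : ℕ∞) : ℝ≥0∞) ≤ C * ((cn B L k 1 : ℕ∞) : ℝ≥0∞) := by
      have : ((cn B L k R : ℕ∞) : ℝ≥0∞) ≤ (((C : ℕ∞) * cn B L k 1 : ℕ∞) : ℝ≥0∞) := by
        exact_mod_cast hC B L k
      rwa [ENat.toENNReal_mul, ENat.toENNReal_coe] at this
    calc ((cn B L k R : ℕ∞) : ℝ≥0∞) * ∫⁻ x in E₀, ‖φ ((B ^ (-(k : ℤ))) x)‖ₑ ^ 2
        ≤ (C * ((cn B L k 1 : ℕ∞) : ℝ≥0∞)) * I := by gcongr
      _ = C * (((cn B L k 1 : ℕ∞) : ℝ≥0∞) * I) := by ring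
      _ ≤ C * (V' * ((nco B (dualL γ) L k : ℕ∞) : ℝ≥0∞)⁻¹) := by gcongr
      _ = _ := by ring
  refine ne_top_of_le_ne_top ?_ (ENNReal.tsum_le_tsum hterm)
  rw [ENNReal.tsum_mul_left]
  exact ENNReal.mul_ne_top (ENNReal.mul_ne_top (ENNReal.natCast_ne_top C) hV't) ha

/-- case (b): wandering sets -/
theorem TM_b (h : IsONB (volume : Measure E) (fam γ B φ)) {E₀ : Set E} (hE₀ : MeasurableSet E₀)
    (hφm : Measurable φ) {L : AddSubgroup E} {R : ℝ} {M C₁ : ℝ≥0∞} (hM : M ≠ ⊤) (hC₁ : C₁ ≠ ⊤)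
    (hb : ∀ k : ℕ, ENNReal.ofReal (adet B ^ k) * ((cn B L k R : ℕ∞) : ℝ≥0∞) ≤ M)
    (hw : ∀ᵐ x, ∑' k : ℕ, E₀.indicator (fun _ => (1 : ℝ≥0∞)) ((B ^ (k : ℤ)) x) ≤ C₁) :
    ∑' k : ℕ, ((cn B L k R : ℕ∞) : ℝ≥0∞) * ∫⁻ x in E₀, ‖φ ((B ^ (-(k : ℤ))) x)‖ₑ ^ 2 ≠ ⊤ := by
  classical
  have hsq : Measurable fun x => ‖φ x‖ₑ ^ 2 := hφm.enorm.pow_const 2
  have hind : ∀ k : ℕ, Measurable fun x => E₀.indicator (fun _ => (1 : ℝ≥0∞)) ((B ^ (k : ℤ)) x) :=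
    fun k => (measurable_const.indicator hE₀).comp (B ^ (k : ℤ)).continuous.measurable
  have hchange : ∀ k : ℕ, ∫⁻ x in E₀, ‖φ ((B ^ (-(k : ℤ))) x)‖ₑ ^ 2
      = ENNReal.ofReal (adet B ^ k) *
        ∫⁻ x, E₀.indicator (fun _ => (1 : ℝ≥0∞)) ((B ^ (k : ℤ)) x) * ‖φ x‖ₑ ^ 2 := by
    intro k
    have h1 := lintegral_comp_equiv (B ^ (-(k : ℤ)))
      (fun x => E₀.indicator (fun _ => (1 : ℝ≥0∞)) ((B ^ (k : ℤ)) x) * ‖φ x‖ₑ ^ 2)
    have e1 : (adet (B ^ (-(k : ℤ))))⁻¹ = adet B ^ k := by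
      rw [adet_zpow, zpow_neg, inv_inv, zpow_natCast]
    rw [e1] at h1
    rw [← h1, ← lintegral_indicator hE₀]
    congr 1
    ext x
    rw [zcancel]
    by_cases hx : x ∈ E₀
    · rw [Set.indicator_of_mem hx, Set.indicator_of_mem hx, one_mul]
    · rw [Set.indicator_of_notMem hx, Set.indicator_of_notMem hx, zero_mul]
  have h1 : ∑' k : ℕ, ((cn B L k R : ℕ∞) : ℝ≥0∞) * ∫⁻ x in E₀, ‖φ ((B ^ (-(k : ℤ))) x)‖ₑ ^ 2
      ≤ ∑' k : ℕ, M * ∫⁻ x, E₀.indicator (fun _ => (1 : ℝ≥0∞)) ((B ^ (k : ℤ)) x) * ‖φ x‖ₑ ^ 2 := by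
    apply ENNReal.tsum_le_tsum
    intro k
    rw [hchange, ← mul_assoc, mul_comm ((cn B L k R : ℕ∞) : ℝ≥0∞)]
    gcongr
    exact hb k
  refine ne_top_of_le_ne_top ?_ h1
  rw [ENNReal.tsum_mul_left]
  apply ENNReal.mul_ne_top hM
  rw [← lintegral_tsum (f := fun (k : ℕ) (x : E) =>
    E₀.indicator (fun _ => (1 : ℝ≥0∞)) ((B ^ (k : ℤ)) x) * ‖φ x‖ₑ ^ 2)
    (fun k => ((hind k).mul hsq).aemeasurable)]
  have h2 : ∫⁻ x, ∑' k : ℕ, E₀.indicator (fun _ => (1 : ℝ≥0∞)) ((B ^ (k : ℤ)) x) * ‖φ x‖ₑ ^ 2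
      ≤ ∫⁻ x, C₁ * ‖φ x‖ₑ ^ 2 := by
    apply lintegral_mono_ae
    filter_upwards [hw] with x hx
    rw [ENNReal.tsum_mul_right]
    gcongr
  refine ne_top_of_le_ne_top ?_ h2
  rw [lintegral_const_mul _ hsq, lintegral_phi_sq h, mul_one]
  exact hC₁

end Pool.Agent.Lib_helper44
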