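import Mathlib
import Pool.Agent.Lib_helper44.Count2

open MeasureTheory Filter Topology Complex Module
open scoped ENNReal NNReal ComplexConjugate InnerProductSpace

set_option linter.unusedSectionVars false

namespace Pool.Agent.Lib_helper44

variable {E : Type*} [NormedAddCommGroup E] [InnerProductSpace ℝ E] [FiniteDimensional ℝ E]
  [MeasurableSpace E] [BorelSpace E] {n : ℕ}
variable {γ : Basis (Fin n) ℝ E} {A B : E ≃L[ℝ] E} {φ : E → ℂ}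

theorem inv_zpow_app (B : E ≃L[ℝ] E) (j : ℤ) (v : E) : ((B⁻¹) ^ j) v = (B ^ (-j)) v := by
  rw [inv_zpow']

theorem mem_Lj_inv {γ : Basis (Fin n) ℝ E} {B : E ≃L[ℝ] E} {j : ℤ} {v : E} :
    v ∈ Lj γ B⁻¹ j ↔ v ∈ Lj γ B (-j) := by
  rw [mem_Lj, mem_Lj, inv_zpow_app]

theorem GoodQ.inv {Λ : AddSubgroup E} {q C : ℕ} (h : GoodQ B Λ q C) : GoodQ B⁻¹ Λ q C := by
  obtain ⟨h0, h1⟩ := h
  refine ⟨h0, fun v => ?_⟩
  rcases h1 v with h2 | h2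
  · left
    intro k
    have h3 := h2 (-k)
    rw [inv_zpow_app]
    rwa [mul_neg] at h3
  · right
    refine le_trans ?_ h2
    have hmaps : ∀ k ∈ ({k : ℤ | ((B⁻¹) ^ ((q : ℤ) * k)) v ∈ QV Λ} : Set ℤ),
        -k ∈ ({k : ℤ | (B ^ ((q : ℤ) * k)) v ∈ QV Λ} : Set ℤ) := by
      intro k hk
      change (B ^ ((q : ℤ) * -k)) v ∈ QV Λ
      have hk' : ((B⁻¹) ^ ((q : ℤ) * k)) v ∈ QV Λ := hk
      rw [inv_zpow_app] at hk'
      rwa [mul_neg]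
    exact Set.encard_le_encard_of_injOn hmaps (fun a _ b _ hab => neg_injective hab)

theorem ArithOK.neg {S : Set ℤ} {H : AddSubgroup E} (h : ArithOK γ B⁻¹ S H) :
    ArithOK γ B {j | -j ∈ S} H := by
  obtain ⟨X', K, C, h1, h2, h3, h4, h5, h6, h7⟩ := h
  refine ⟨X', K, C, h1, h2, h3, h4, ?_, h6, ?_⟩
  · intro j hj J hJ v hv hvX hvj
    exact h5 (-j) hj J (by rwa [Int.natAbs_neg]) v hv hvX (by rwa [mem_Lj_inv, neg_neg])
  · intro v hv hvX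
    refine le_trans ?_ (h7 v hv hvX)
    have hmaps : ∀ j ∈ ({j | j ∈ {j | -j ∈ S} ∧ ∃ l ∈ dualL γ, l ∈ Lj γ B j ∧ v - l ∈ X'} : Set ℤ),
        -j ∈ ({j | j ∈ S ∧ ∃ l ∈ dualL γ, l ∈ Lj γ B⁻¹ j ∧ v - l ∈ X'} : Set ℤ) := by
      rintro j ⟨hj, l, hl, hlj, hvl⟩
      exact ⟨hj, l, hl, by rwa [mem_Lj_inv, neg_neg], hvl⟩
    exact Set.encard_le_encard_of_injOn hmaps (fun a _ b _ hab => neg_injective hab)

theorem tsum_int_le (f : ℤ → ℝ≥0∞) :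
    ∑' j : ℤ, f j ≤ ∑' k : ℕ, f k + ∑' k : ℕ, f (-(k : ℤ)) := by
  rw [tsum_of_nat_of_neg_add_one ENNReal.summable ENNReal.summable]
  refine add_le_add le_rfl ?_
  have h1 : ∀ k : ℕ, f (-((k : ℤ) + 1)) = (fun m : ℕ => f (-(m : ℤ))) (k + 1) := by
    intro k
    simp only
    push_cast
    rfl
  simp only [h1]
  exact ENNReal.tsum_comp_le_tsum_of_injective (add_left_injective 1) _

/-- the ends have finite total mass, so the Calderon inequality holds -/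
theorem calderon_of_TM (hAB : IsAdj A B) (hφm : Measurable φ)
    (h : IsONB (volume : Measure E) (fam γ B φ)) {q C : ℕ} (hq : GoodQ B (dualL γ) q C)
    {E₀ : Set E} (hE₀ : MeasurableSet E₀) {ρ : ℝ} (hρ : 0 ≤ ρ) (hb : ∀ x ∈ E₀, ‖x‖ ≤ ρ)
    (hp : ∀ R : ℝ, ∑' k : ℕ, ((cn B (RQ B (dualL γ) q) k R : ℕ∞) : ℝ≥0∞) *
      ∫⁻ x in E₀, ‖φ ((B ^ (-(k : ℤ))) x)‖ₑ ^ 2 ≠ ⊤)
    (hm : ∀ R : ℝ, ∑' k : ℕ, ((cn B⁻¹ (RQ B⁻¹ (dualL γ) q) k R : ℕ∞) : ℝ≥0∞) *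
      ∫⁻ x in E₀, ‖φ (((B⁻¹) ^ (-(k : ℤ))) x)‖ₑ ^ 2 ≠ ⊤) :
    volume E₀ ≤ volume (Q0 γ) * ∫⁻ x in E₀, calS B φ x := by
  classical
  have hq0 : 0 < q := hq.1
  have hq0' : (0 : ℤ) < q := by exact_mod_cast hq0
  have hqi := hq.inv
  let S : Fin q ⊕ Fin q → Set ℤ := Sum.elim (fun c => SE q c 0) (fun c => {j | -j ∈ SE q c 0})
  let H : Fin q ⊕ Fin q → AddSubgroup E :=
    Sum.elim (fun c => HE B (dualL γ) q c) (fun c => HE B⁻¹ (dualL γ) q c)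
  obtain ⟨κ, hκ, hN1⟩ := exists_cn_HE γ B hq0
  obtain ⟨κ', hκ', hN1'⟩ := exists_cn_HE γ B⁻¹ hq0
  obtain ⟨C1, hC1⟩ := exists_cn_bdd γ B hq0 (κ * (2 * ρ))
  obtain ⟨C2, hC2⟩ := exists_cn_bdd γ B⁻¹ hq0 (κ' * (2 * ρ))
  have h2ρ : 0 ≤ 2 * ρ := by positivity
  set I : ℤ → ℝ≥0∞ := fun j => ∫⁻ x in E₀, ‖φ ((B ^ (-j)) x)‖ₑ ^ 2 with hI
  have hIneg : ∀ k : ℕ, ∫⁻ x in E₀, ‖φ (((B⁻¹) ^ (-(k : ℤ))) x)‖ₑ ^ 2 = I (-(k : ℤ)) := by
    intro k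
    rw [hI]
    simp only [inv_zpow_app]
  -- the sums
  have hp0 : ∀ R : ℝ, 0 ≤ R → ∑' k : ℕ, I k ≠ ⊤ := by
    intro R hR
    refine ne_top_of_le_ne_top (hp R) (ENNReal.tsum_le_tsum fun k => ?_)
    have h1 : (1 : ℝ≥0∞) ≤ ((cn B (RQ B (dualL γ) q) k R : ℕ∞) : ℝ≥0∞) := by
      have := one_le_cn (B := B) (L := RQ B (dualL γ) q) (k : ℤ) hR
      exact_mod_cast this
    calc I k = 1 * I k := (one_mul _).symm
      _ ≤ _ := by gcongr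
  have hm0 : ∀ R : ℝ, 0 ≤ R → ∑' k : ℕ, I (-(k : ℤ)) ≠ ⊤ := by
    intro R hR
    refine ne_top_of_le_ne_top (hm R) (ENNReal.tsum_le_tsum fun k => ?_)
    rw [hIneg]
    have h1 : (1 : ℝ≥0∞) ≤ ((cn B⁻¹ (RQ B⁻¹ (dualL γ) q) k R : ℕ∞) : ℝ≥0∞) := by
      have := one_le_cn (B := B⁻¹) (L := RQ B⁻¹ (dualL γ) q) (k : ℤ) hR
      exact_mod_cast this
    calc I (-(k : ℤ)) = 1 * I (-(k : ℤ)) := (one_mul _).symm
      _ ≤ _ := by gcongr
  refine calderon_ends (ι := Fin q ⊕ Fin q) hAB hφm h S H ∅ ?_ ?_ hE₀ hb ?_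
  · intro j _
    rcases le_total 0 j with hj | hj
    · refine ⟨Sum.inl ⟨(j % q).toNat, ?_⟩, ?_⟩
      · have := Int.emod_lt_of_pos j hq0'
        omega
      · change j ∈ SE q _ 0
        refine ⟨⟨j / q, ?_⟩, hj⟩
        have h1 : (((j % q).toNat : ℕ) : ℤ) = j % q :=
          Int.toNat_of_nonneg (Int.emod_nonneg _ hq0'.ne')
        have h2 := Int.emod_add_mul_ediv j q
        simp only [h1]
        linarith
    · refine ⟨Sum.inr ⟨((-j) % q).toNat, ?_⟩, ?_⟩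
      · have := Int.emod_lt_of_pos (-j) hq0'
        omega
      · change -j ∈ SE q _ 0
        refine ⟨⟨(-j) / q, ?_⟩, by omega⟩
        have h1 : ((((-j) % q).toNat : ℕ) : ℤ) = (-j) % q :=
          Int.toNat_of_nonneg (Int.emod_nonneg _ hq0'.ne')
        have h2 := Int.emod_add_mul_ediv (-j) q
        simp only [h1]
        linarith
  · intro e i
    rcases e with c | c
    · have h1 := arithOK_HE γ B hq ((c : ℕ) - i : ℤ) (-i)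
      have h2 : ({j | j + i ∈ S (Sum.inl c)} : Set ℤ) = SE q ((c : ℕ) - i : ℤ) (-i) := by
        ext j
        change ((∃ m : ℤ, j + i = (c : ℕ) + q * m) ∧ 0 ≤ j + i) ↔
          ((∃ m : ℤ, j = ((c : ℕ) - i) + q * m) ∧ -i ≤ j)
        constructor
        · rintro ⟨⟨m, hm⟩, h0⟩
          exact ⟨⟨m, by linarith⟩, by linarith⟩
        · rintro ⟨⟨m, hm⟩, h0⟩
          exact ⟨⟨m, by linarith⟩, by linarith⟩
      have h3 : (H (Sum.inl c)).comap ((B ^ i).toLinearEquiv.toLinearMap.toAddMonoidHom)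
          = HE B (dualL γ) q ((c : ℕ) - i : ℤ) := by
        ext v
        change (B ^ (-((c : ℕ) : ℤ))) ((B ^ i) v) ∈ UQ B (dualL γ) q ↔
          (B ^ (-(((c : ℕ) : ℤ) - i))) v ∈ UQ B (dualL γ) q
        rw [zcomp]
        have : -(((c : ℕ) : ℤ)) + i = -(((c : ℕ) : ℤ) - i) := by ring
        rw [this]
      rw [h2, h3]
      exact h1
    · have h1 := (arithOK_HE γ B⁻¹ hqi ((c : ℕ) + i : ℤ) i).neg
      have h2 : ({j | j + i ∈ S (Sum.inr c)} : Set ℤ) = {j | -j ∈ SE q ((c : ℕ) + i : ℤ) i} := by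
        ext j
        change ((∃ m : ℤ, -(j + i) = (c : ℕ) + q * m) ∧ 0 ≤ -(j + i)) ↔
          ((∃ m : ℤ, -j = ((c : ℕ) + i) + q * m) ∧ i ≤ -j)
        constructor
        · rintro ⟨⟨m, hm⟩, h0⟩
          exact ⟨⟨m, by linarith⟩, by linarith⟩
        · rintro ⟨⟨m, hm⟩, h0⟩
          exact ⟨⟨m, by linarith⟩, by linarith⟩
      have h3 : (H (Sum.inr c)).comap ((B ^ i).toLinearEquiv.toLinearMap.toAddMonoidHom)
          = HE B⁻¹ (dualL γ) q ((c : ℕ) + i : ℤ) := by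
        ext v
        change ((B⁻¹) ^ (-((c : ℕ) : ℤ))) ((B ^ i) v) ∈ UQ B⁻¹ (dualL γ) q ↔
          ((B⁻¹) ^ (-(((c : ℕ) : ℤ) + i))) v ∈ UQ B⁻¹ (dualL γ) q
        rw [inv_zpow_app, inv_zpow_app, zcomp]
        have : -(-(((c : ℕ) : ℤ))) + i = -(-(((c : ℕ) : ℤ) + i)) := by ring
        rw [this]
      rw [h2, h3]
      exact h1
  · intro e
    refine ne_top_of_le_ne_top ?_ (tsum_int_le _)
    rcases e with c | c
    · apply ENNReal.add_ne_top.mpr ⟨?_, ?_⟩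
      · refine ne_top_of_le_ne_top (hp (κ * (2 * ρ))) (ENNReal.tsum_le_tsum fun k => ?_)
        gcongr
        exact hN1 c k (2 * ρ) h2ρ
      · have h1 : ∑' k : ℕ, (C1 : ℝ≥0∞) * I (-(k : ℤ)) ≠ ⊤ := by
          rw [ENNReal.tsum_mul_left]
          exact ENNReal.mul_ne_top (ENNReal.natCast_ne_top C1) (hm0 0 le_rfl)
        refine ne_top_of_le_ne_top h1 (ENNReal.tsum_le_tsum fun k => ?_)
        gcongr
        have h2 := (hN1 c (-(k : ℤ)) (2 * ρ) h2ρ).trans (hC1 (-(k : ℤ)) (by omega))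
        rw [← ENat.toENNReal_coe]
        exact_mod_cast h2
    · have hset : ∀ j : ℤ, ({m | m ∈ Lj γ B j ∧ m ∈ H (Sum.inr c) ∧ ‖m‖ ≤ 2 * ρ} : Set E)
          = {m | m ∈ Lj γ B⁻¹ (-j) ∧ m ∈ HE B⁻¹ (dualL γ) q (c : ℕ) ∧ ‖m‖ ≤ 2 * ρ} := by
        intro j
        ext m
        simp only [Set.mem_ofPred_eq]
        rw [mem_Lj_inv, neg_neg]
        rfl
      apply ENNReal.add_ne_top.mpr ⟨?_, ?_⟩
      · have h1 : ∑' k : ℕ, (C2 : ℝ≥0∞) * I k ≠ ⊤ := by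
          rw [ENNReal.tsum_mul_left]
          exact ENNReal.mul_ne_top (ENNReal.natCast_ne_top C2) (hp0 0 le_rfl)
        refine ne_top_of_le_ne_top h1 (ENNReal.tsum_le_tsum fun k => ?_)
        gcongr
        rw [hset]
        have h2 := (hN1' c (-(k : ℤ)) (2 * ρ) h2ρ).trans (hC2 (-(k : ℤ)) (by omega))
        rw [← ENat.toENNReal_coe]
        exact_mod_cast h2
      · refine ne_top_of_le_ne_top (hm (κ' * (2 * ρ))) (ENNReal.tsum_le_tsum fun k => ?_)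
        rw [hIneg, hset, neg_neg]
        have h2 := hN1' c k (2 * ρ) h2ρ
        have h3 : ∫⁻ x in E₀, ‖φ ((B ^ (k : ℤ)) x)‖ₑ ^ 2 = I (-(k : ℤ)) := by
          rw [hI]
          simp only [neg_neg]
        rw [h3]
        gcongr

end Pool.Agent.Lib_helper44
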