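import Mathlib
import Pool.Agent.Lib_helper44.Ends

open MeasureTheory Filter Topology Complex Module
open scoped ENNReal NNReal ComplexConjugate InnerProductSpace

set_option linter.unusedSectionVars false

namespace Pool.Agent.Lib_helper44

variable {E : Type*} [NormedAddCommGroup E] [InnerProductSpace ℝ E] [FiniteDimensional ℝ E]
  [MeasurableSpace E] [BorelSpace E] {n : ℕ}
variable {γ : Basis (Fin n) ℝ E} {A B : E ≃L[ℝ] E} {φ : E → ℂ}

/-- the transpose on complex functionals -/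
noncomputable def TB (B : E ≃L[ℝ] E) : Module.End ℂ (E →ₗ[ℝ] ℂ) where
  toFun l := l ∘ₗ (B.toLinearEquiv : E →ₗ[ℝ] E)
  map_add' a b := by
    ext x
    simp
  map_smul' c a := by
    ext x
    simp

theorem TB_apply (B : E ≃L[ℝ] E) (l : E →ₗ[ℝ] ℂ) (x : E) : TB B l x = l (B x) := rfl

theorem ae_functional_ne {l : E →ₗ[ℝ] ℂ} (hl : l ≠ 0) : ∀ᵐ x : E, l x ≠ 0 := by
  have h1 : LinearMap.ker l ≠ ⊤ := by
    intro h
    exact hl (LinearMap.ker_eq_top.mp h)
  have h2 := Measure.addHaar_submodule (volume : Measure E) _ h1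
  rw [ae_iff]
  convert h2 using 2
  ext x
  simp

theorem measurable_functional (l : E →ₗ[ℝ] ℂ) : Measurable l :=
  (LinearMap.continuous_of_finiteDimensional l).measurable

theorem eigen_ne_zero {B : E ≃L[ℝ] E} {l : E →ₗ[ℝ] ℂ} (hl : l ≠ 0) {mu : ℂ}
    (h : ∀ x, l (B x) = mu * l x) : mu ≠ 0 := by
  rintro rfl
  apply hl
  ext x
  have := h (B.symm x)
  rw [B.apply_symm_apply, zero_mul] at this
  simpa using this

/-- the existence of a cocycle, or bounded powers -/
theorem wander_or_bounded (B : E ≃L[ℝ] E) :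
    (∃ (Θ : E → ℝ) (τ : ℝ), Measurable Θ ∧ τ ≠ 0 ∧ ∀ᵐ x, Θ (B x) = Θ x + τ) ∨
    (∃ M : ℝ, ∀ (k : ℤ) (x : E), ‖(B ^ k) x‖ ≤ M * ‖x‖) := by
  classical
  by_cases h1 : ∃ (l : E →ₗ[ℝ] ℂ) (mu : ℂ), l ≠ 0 ∧ ‖mu‖ ≠ 1 ∧ ∀ x, l (B x) = mu * l x
  · obtain ⟨l, mu, hl, hmu, h⟩ := h1
    left
    have hmu0 := eigen_ne_zero hl h
    refine ⟨fun x => Real.log ‖l x‖, Real.log ‖mu‖,
      Real.measurable_log.comp (measurable_functional l).norm, ?_, ?_⟩
    · intro h0
      rcases Real.log_eq_zero.mp h0 with h2 | h2 | h2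
      · exact hmu0 (norm_eq_zero.mp h2)
      · exact hmu h2
      · have := norm_nonneg mu
        linarith
    · filter_upwards [ae_functional_ne hl] with x hx
      rw [h, norm_mul, Real.log_mul (norm_ne_zero_iff.mpr hmu0) (norm_ne_zero_iff.mpr hx), add_comm]
  push Not at h1
  by_cases h2 : ∃ (l₁ l₂ : E →ₗ[ℝ] ℂ) (mu : ℂ), l₁ ≠ 0 ∧ (∀ x, l₁ (B x) = mu * l₁ x) ∧
      ∀ x, l₂ (B x) = mu * l₂ x + l₁ x
  · obtain ⟨l₁, l₂, mu, hl, h3, h4⟩ := h2
    left
    have hmu0 := eigen_ne_zero hl h3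
    refine ⟨fun x => (mu * l₂ x / l₁ x).re, 1, ?_, one_ne_zero, ?_⟩
    · exact Complex.measurable_re.comp
        ((measurable_const.mul (measurable_functional l₂)).div (measurable_functional l₁))
    · filter_upwards [ae_functional_ne hl] with x hx
      rw [h3, h4]
      have : mu * (mu * l₂ x + l₁ x) / (mu * l₁ x) = mu * l₂ x / l₁ x + 1 := by
        field_simp
      rw [this, Complex.add_re, Complex.one_re]
  push Not at h2
  right
  -- semisimple with unimodular eigenvalues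
  have hfin : FiniteDimensional ℂ (E →ₗ[ℝ] ℂ) :=
    Module.Finite.of_restrictScalars_finite ℝ ℂ (E →ₗ[ℝ] ℂ)
  have hss : ∀ mu : ℂ, (TB B).maxGenEigenspace mu ≤ (TB B).eigenspace mu := by
    intro mu l hl
    rw [Module.End.mem_maxGenEigenspace] at hl
    have hex : ∃ k : ℕ, (((TB B) - mu • (1 : Module.End ℂ (E →ₗ[ℝ] ℂ))) ^ k) l = 0 := hl
    set N : Module.End ℂ (E →ₗ[ℝ] ℂ) := (TB B) - mu • (1 : Module.End ℂ (E →ₗ[ℝ] ℂ)) with hN
    set k := Nat.find hex with hk
    have hk0 := Nat.find_spec hex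
    have hkmin : ∀ m < k, (N ^ m) l ≠ 0 := fun m hm => Nat.find_min hex hm
    rw [← hk] at hk0
    have hNapp : ∀ (l' : E →ₗ[ℝ] ℂ) (x : E), N l' x = l' (B x) - mu * l' x := by
      intro l' x
      rw [hN]
      simp [TB_apply]
    rw [Module.End.mem_eigenspace_iff]
    by_cases hk1 : k ≤ 1
    · have h3 : N l = 0 := by
        rcases Nat.le_one_iff_eq_zero_or_eq_one.mp hk1 with h4 | h4
        · rw [h4, pow_zero] at hk0
          have : l = 0 := hk0
          rw [this, map_zero]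
        · rw [h4, pow_one] at hk0
          exact hk0
      rw [hN, LinearMap.sub_apply, sub_eq_zero] at h3
      rw [h3]
      rfl
    · exfalso
      push Not at hk1
      obtain ⟨m, hm⟩ : ∃ m, k = m + 2 := ⟨k - 2, by omega⟩
      have h3 : (N ^ (m + 1)) l ≠ 0 := hkmin (m + 1) (by omega)
      have h4 : N ((N ^ (m + 1)) l) = 0 := by
        have : (N ^ (m + 2)) l = N ((N ^ (m + 1)) l) := by
          rw [pow_succ' N (m + 1)]
          rfl
        rw [← this, ← hm]
        exact hk0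
      have h5 : N ((N ^ m) l) = (N ^ (m + 1)) l := by
        rw [pow_succ' N m]
        rfl
      obtain ⟨x, hx⟩ := h2 ((N ^ (m + 1)) l) ((N ^ m) l) mu h3 (by
        intro x
        have h6 := hNapp ((N ^ (m + 1)) l) x
        rw [h4, LinearMap.zero_apply] at h6
        exact (sub_eq_zero.mp h6.symm))
      apply hx
      have h6 := hNapp ((N ^ m) l) x
      rw [h5] at h6
      rw [h6]
      ring
  have htop : ⨆ mu : ℂ, (TB B).eigenspace mu = ⊤ := by
    rw [eq_top_iff, ← Module.End.iSup_maxGenEigenspace_eq_top (TB B)]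
    exact iSup_mono hss
  have hbd : ∀ l : E →ₗ[ℝ] ℂ, ∃ M : ℝ, ∀ (k : ℤ) (x : E), ‖l ((B ^ k) x)‖ ≤ M * ‖x‖ := by
    intro l
    have hl : l ∈ ⨆ mu : ℂ, (TB B).eigenspace mu := by rw [htop]; trivial
    induction hl using Submodule.iSup_induction' with
    | mem mu l hl =>
      rw [Module.End.mem_eigenspace_iff] at hl
      have h3 : ∀ x, l (B x) = mu * l x := by
        intro x
        rw [← TB_apply, hl]
        rfl
      by_cases hl0 : l = 0
      · refine ⟨0, fun k x => ?_⟩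
        rw [hl0]
        simp
      · have hmu1 : ‖mu‖ = 1 := by
          by_contra hne
          obtain ⟨x, hx⟩ := h1 l mu hl0 hne
          exact hx (h3 x)
        have hinv : ∀ x, ‖l (B x)‖ = ‖l x‖ := by
          intro x
          rw [h3, norm_mul, hmu1, one_mul]
        have hk : ∀ (k : ℤ) (x : E), ‖l ((B ^ k) x)‖ = ‖l x‖ := by
          intro k
          induction k using Int.induction_on with
          | zero => intro x; simp
          | succ i ih =>
            intro x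
            have : (B ^ ((i : ℤ) + 1)) x = B ((B ^ (i : ℤ)) x) := by
              rw [add_comm, ← zcomp, zpow_one]
            rw [this, hinv, ih]
          | pred i ih =>
            intro x
            have : (B ^ (-(i : ℤ))) x = B ((B ^ (-(i : ℤ) - 1)) x) := by
              have h4 := zcomp B 1 (-(i : ℤ) - 1) x
              rw [zpow_one] at h4
              rw [h4]
              congr 2
              ring
            rw [← hinv, ← this, ih]
        let lc : E →L[ℝ] ℂ := LinearMap.toContinuousLinearMap l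
        refine ⟨‖lc‖, fun k x => ?_⟩
        rw [hk]
        exact lc.le_opNorm x
    | zero => exact ⟨0, fun k x => by simp⟩
    | add l l' _ _ hl hl' =>
      obtain ⟨M, hM⟩ := hl
      obtain ⟨M', hM'⟩ := hl'
      refine ⟨M + M', fun k x => ?_⟩
      rw [LinearMap.add_apply, add_mul]
      exact (norm_add_le _ _).trans (add_le_add (hM k x) (hM' k x))
  let b := stdOrthonormalBasis ℝ E
  let lb : Fin (finrank ℝ E) → (E →ₗ[ℝ] ℂ) := fun i =>
    Complex.ofRealCLM.toLinearMap ∘ₗ (innerSL ℝ (b i)).toLinearMap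
  choose M hM using fun i => hbd (lb i)
  refine ⟨∑ i, M i, fun k x => ?_⟩
  have h3 : (B ^ k) x = ∑ i, ⟪b i, (B ^ k) x⟫_ℝ • b i := (b.sum_repr' _).symm
  have h4 : ∀ i, ‖lb i ((B ^ k) x)‖ = |⟪b i, (B ^ k) x⟫_ℝ| := by
    intro i
    change ‖((⟪b i, (B ^ k) x⟫_ℝ : ℝ) : ℂ)‖ = _
    rw [Complex.norm_real]
    rfl
  calc ‖(B ^ k) x‖ = ‖∑ i, ⟪b i, (B ^ k) x⟫_ℝ • b i‖ := by rw [← h3]
    _ ≤ ∑ i, ‖⟪b i, (B ^ k) x⟫_ℝ • b i‖ := norm_sum_le _ _
    _ ≤ ∑ i, M i * ‖x‖ := by
        apply Finset.sum_le_sum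
        intro i _
        rw [norm_smul, b.norm_eq_one, mul_one, Real.norm_eq_abs, ← h4]
        exact hM i k x
    _ = (∑ i, M i) * ‖x‖ := by rw [Finset.sum_mul]

end Pool.Agent.Lib_helper44
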