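import Mathlib
import Pool.Agent.Lib_helper44.Wander

open MeasureTheory Filter Topology Complex Module
open scoped ENNReal NNReal ComplexConjugate InnerProductSpace

set_option linter.unusedSectionVars false

namespace Pool.Agent.Lib_helper44

variable {E : Type*} [NormedAddCommGroup E] [InnerProductSpace ℝ E] [FiniteDimensional ℝ E]
  [MeasurableSpace E] [BorelSpace E] {n : ℕ}
variable {γ : Basis (Fin n) ℝ E} {A B : E ≃L[ℝ] E} {φ : E → ℂ}

/-- integrable mass on balls going to infinity tends to zero -/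
theorem mass_ball_tendsto {f : E → ℝ≥0∞} (hf : Measurable f) (hfin : ∫⁻ x, f x ≠ ⊤)
    {x : ℕ → E} (hx : Tendsto (fun m => ‖x m‖) atTop atTop) :
    Tendsto (fun m => ∫⁻ y in Metric.ball (x m) 1, f y) atTop (𝓝 0) := by
  have h1 : ∀ m, ∫⁻ y in Metric.ball (x m) 1, f y
      = ∫⁻ y, (Metric.ball (x m) 1).indicator f y := fun m =>
    (lintegral_indicator Metric.isOpen_ball.measurableSet _).symm
  simp only [h1]
  have h2 : (0 : ℝ≥0∞) = ∫⁻ y : E, (fun _ => (0 : ℝ≥0∞)) y := by simp
  rw [h2]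
  apply tendsto_lintegral_of_dominated_convergence f
  · intro m
    exact hf.indicator Metric.isOpen_ball.measurableSet
  · intro m
    exact Eventually.of_forall fun y => Set.indicator_le_self _ _ _
  · exact hfin
  · filter_upwards with y
    have h3 : ∀ᶠ m in atTop, (Metric.ball (x m) 1).indicator f y = 0 := by
      filter_upwards [hx.eventually_gt_atTop (‖y‖ + 1)] with m hm
      apply Set.indicator_of_notMem
      rw [Metric.mem_ball, dist_eq_norm]
      intro hcon
      have h4 : ‖x m‖ ≤ ‖y‖ + ‖y - x m‖ := by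
        have : x m = y - (y - x m) := by abel
        calc ‖x m‖ = ‖y - (y - x m)‖ := by rw [← this]
          _ ≤ _ := norm_sub_le _ _
      linarith
    exact (tendsto_congr' h3).mpr tendsto_const_nhds

/-- **escape**: for a contracting volume, a lower Calderon bound and summability on the negative
side are contradictory -/
theorem escape [Nontrivial E] (hB : adet B < 1) (h : IsONB (volume : Measure E) (fam γ B φ))
    (hφm : Measurable φ) {c : ℝ≥0∞} (hc : c ≠ 0) (hlow : ∀ᵐ x, c ≤ calS B φ x)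
    (hsum : ∑' k : ℕ, ((cn B (dualL γ) (-(k : ℤ)) 1 : ℕ∞) : ℝ≥0∞)⁻¹ ≠ ⊤) : False := by
  classical
  obtain ⟨-, hv0, hvt⟩ := map_coordT γ
  obtain ⟨e, he⟩ := exists_ne (0 : E)
  set x : ℕ → E := fun m => (m : ℝ) • e with hx
  have hxt : Tendsto (fun m => ‖x m‖) atTop atTop := by
    have h1 : ∀ m, ‖x m‖ = (m : ℝ) * ‖e‖ := by
      intro m
      rw [hx]
      simp [norm_smul]
    simp only [h1]
    exact tendsto_natCast_atTop_atTop.atTop_mul_const (norm_pos_iff.mpr he)
  set f : ℤ → ℕ → ℝ≥0∞ := fun j m => ∫⁻ y in Metric.ball (x m) 1, ‖φ ((B ^ (-j)) y)‖ₑ ^ 2 with hf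
  have hmeas : ∀ j : ℤ, Measurable fun y => ‖φ ((B ^ (-j)) y)‖ₑ ^ 2 := fun j =>
    (hφm.comp (B ^ (-j)).continuous.measurable).enorm.pow_const 2
  have hint : ∀ j : ℤ, ∫⁻ y, ‖φ ((B ^ (-j)) y)‖ₑ ^ 2 = ENNReal.ofReal (adet B ^ j) := by
    intro j
    have h1 := lintegral_comp_equiv (B ^ (-j)) (fun y => ‖φ y‖ₑ ^ 2)
    have e1 : (adet (B ^ (-j)))⁻¹ = adet B ^ j := by
      rw [adet_zpow, zpow_neg, inv_inv]
    rw [lintegral_phi_sq h, mul_one, e1] at h1
    exact h1
  have hlim : ∀ j : ℤ, Tendsto (f j) atTop (𝓝 0) := by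
    intro j
    apply mass_ball_tendsto (hmeas j) _ hxt
    rw [hint]
    exact ENNReal.ofReal_ne_top
  -- the bound
  set V' : ℝ≥0∞ := (volume (Q0 γ))⁻¹ * volume (Metric.ball (0 : E) 2) with hV'
  have hV't : V' ≠ ⊤ := ENNReal.mul_ne_top (ENNReal.inv_ne_top.mpr hv0) measure_ball_lt_top.ne
  set g : ℤ → ℝ≥0∞ := fun j => if 0 ≤ j then ENNReal.ofReal (adet B ^ j)
    else V' * ((cn B (dualL γ) j 1 : ℕ∞) : ℝ≥0∞)⁻¹ with hg
  have hgb : ∀ j m, f j m ≤ g j := by
    intro j m
    simp only [hg]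
    by_cases hj : 0 ≤ j
    · rw [if_pos hj, ← hint j]
      exact setLIntegral_le_lintegral _ _
    · rw [if_neg hj]
      have hfinL := finite_lattice_dil γ B j 1
      have h1 := mass_count h j (K := Metric.ball (x m) 1) (K' := Metric.ball (x m) (1 + 1 + 0))
        Metric.isOpen_ball.measurableSet Metric.isOpen_ball.measurableSet hfinL.toFinset
        (fun v hv => ((Set.Finite.mem_toFinset hfinL).mp hv).1)
        (by
          intro y hy v hv
          have h2 := ((Set.Finite.mem_toFinset hfinL).mp hv).2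
          rw [Metric.mem_ball, dist_eq_norm] at hy ⊢
          have h3 : y + (B ^ j) v - x m = (y - x m) + (B ^ j) v := by abel
          rw [h3]
          refine (norm_add_le _ _).trans_lt ?_
          linarith)
      have h3 : cn B (dualL γ) j 1 = (hfinL.toFinset.card : ℕ∞) := by
        unfold cn
        rw [← Set.encard_coe_eq_coe_finsetCard, Set.Finite.coe_toFinset]
      have h4 : volume (Metric.ball (x m) (1 + 1 + 0)) = volume (Metric.ball (0 : E) 2) := by
        rw [Measure.addHaar_ball_center]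
        norm_num
      rw [h4] at h1
      have hn0 : (hfinL.toFinset.card : ℝ≥0∞) ≠ 0 := by
        have := one_le_cn (B := B) (L := dualL γ) j (zero_le_one)
        rw [h3] at this
        have h5 : 1 ≤ hfinL.toFinset.card := by exact_mod_cast this
        have h6 : hfinL.toFinset.card ≠ 0 := by omega
        exact_mod_cast h6
      rw [h3, ENat.toENNReal_coe, ← div_eq_mul_inv,
        ENNReal.le_div_iff_mul_le (Or.inl hn0) (Or.inl (ENNReal.natCast_ne_top _)), mul_comm]
      exact h1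
  have hgsum : ∑' j : ℤ, g j ≠ ⊤ := by
    rw [tsum_of_nat_of_neg_add_one ENNReal.summable ENNReal.summable]
    apply ENNReal.add_ne_top.mpr ⟨?_, ?_⟩
    · have h1 : ∀ k : ℕ, g k = (ENNReal.ofReal (adet B)) ^ k := by
        intro k
        simp only [hg]
        rw [if_pos (by omega), zpow_natCast, ENNReal.ofReal_pow (adet_pos B).le]
      simp only [h1]
      rw [ENNReal.tsum_geometric]
      apply ENNReal.inv_ne_top.mpr
      rw [← pos_iff_ne_zero, tsub_pos_iff_lt]
      rwa [ENNReal.ofReal_lt_one]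
    · have h1 : ∀ k : ℕ, g (-((k : ℤ) + 1))
          = V' * (fun m : ℕ => ((cn B (dualL γ) (-(m : ℤ)) 1 : ℕ∞) : ℝ≥0∞)⁻¹) (k + 1) := by
        intro k
        simp only [hg]
        rw [if_neg (by omega)]
        push_cast
        rfl
      simp only [h1]
      rw [ENNReal.tsum_mul_left]
      apply ENNReal.mul_ne_top hV't
      refine ne_top_of_le_ne_top hsum ?_
      exact ENNReal.tsum_comp_le_tsum_of_injective (add_left_injective 1) _
  have htend : Tendsto (fun m => ∑' j : ℤ, f j m) atTop (𝓝 (∑' _ : ℤ, 0)) := by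
    have hc1 : ∀ m, ∑' j : ℤ, f j m = ∫⁻ j : ℤ, f j m ∂Measure.count := fun m =>
      (lintegral_count _).symm
    have hc2 : (∑' _ : ℤ, (0 : ℝ≥0∞)) = ∫⁻ _ : ℤ, (0 : ℝ≥0∞) ∂Measure.count :=
      (lintegral_count _).symm
    rw [hc2]
    simp only [hc1]
    apply tendsto_lintegral_of_dominated_convergence g
    · intro m
      exact measurable_of_countable _
    · intro m
      exact Eventually.of_forall fun j => hgb j m
    · rw [lintegral_count]
      exact hgsum
    · exact Eventually.of_forall fun j => hlim j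
  rw [tsum_zero] at htend
  -- the lower bound
  have hlb : ∀ m, c * volume (Metric.ball (0 : E) 1) ≤ ∑' j : ℤ, f j m := by
    intro m
    have h1 : ∑' j : ℤ, f j m = ∫⁻ y in Metric.ball (x m) 1, calS B φ y := by
      unfold calS
      rw [lintegral_tsum (fun j => (hmeas j).aemeasurable)]
    rw [h1, ← Measure.addHaar_ball_center (volume : Measure E) (x m) 1, ← setLIntegral_const]
    exact lintegral_mono_ae (ae_restrict_of_ae hlow)
  have h1 := ge_of_tendsto' htend hlb
  have h2 : volume (Metric.ball (0 : E) 1) ≠ 0 := (Metric.measure_ball_pos volume 0 one_pos).ne'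
  have h3 : c * volume (Metric.ball (0 : E) 1) = 0 := le_antisymm h1 zero_le
  rcases mul_eq_zero.mp h3 with h4 | h4
  · exact hc h4
  · exact h2 h4

/-- reversal of the family -/
theorem isONB_inv (h : IsONB (volume : Measure E) (fam γ B φ)) :
    IsONB (volume : Measure E) (fam γ B⁻¹ φ) := by
  have h1 := h.reindex ((Equiv.neg ℤ).prodCongr (Equiv.refl (Fin n → ℤ)))
  refine h1.congr (fun i => Eventually.of_forall fun x => ?_)
  obtain ⟨j, k⟩ := i
  change fam γ B φ (-j, k) x = fam γ B⁻¹ φ (j, k) x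
  rw [fam_apply, fam_apply]
  simp only
  rw [inv_zpow_app, neg_neg]
  have h2 : adet B⁻¹ ^ (-(j : ℝ) / 2) = adet B ^ (-((-j : ℤ) : ℝ) / 2) := by
    rw [adet_inv, Real.inv_rpow (adet_pos B).le, ← Real.rpow_neg (adet_pos B).le]
    congr 1
    push_cast
    ring
  rw [h2]

theorem calS_inv (x : E) : calS B⁻¹ φ x = calS B φ x := by
  unfold calS
  simp only [inv_zpow_app]
  exact (Equiv.neg ℤ).tsum_eq (fun j : ℤ => ‖φ ((B ^ (-j)) x)‖ₑ ^ 2)

/-- bounded powers preserve the volume -/
theorem adet_of_bounded {M : ℝ} (h : ∀ (k : ℤ) (x : E), ‖(B ^ k) x‖ ≤ M * ‖x‖) : adet B = 1 := by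
  have hb0 : volume (Metric.closedBall (0 : E) 1) ≠ 0 :=
    (Metric.measure_closedBall_pos volume 0 one_pos).ne'
  have hbt : volume (Metric.closedBall (0 : E) 1) ≠ ⊤ := measure_closedBall_lt_top.ne
  set D := ((volume (Metric.closedBall (0 : E) |M|)) /
      (volume (Metric.closedBall (0 : E) 1))).toReal with hD
  have hM : ∀ k : ℤ, adet (B ^ k) ≤ D := by
    intro k
    have h1 : volume ((B ^ k) '' Metric.closedBall (0 : E) 1)
        = ENNReal.ofReal (adet (B ^ k)) * volume (Metric.closedBall (0 : E) 1) :=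
      Measure.addHaar_image_continuousLinearEquiv volume (B ^ k) _
    have h2 : (B ^ k) '' Metric.closedBall (0 : E) 1 ⊆ Metric.closedBall (0 : E) |M| := by
      rintro _ ⟨x, hx, rfl⟩
      rw [mem_closedBall_zero_iff] at hx ⊢
      have h3 := h k x
      have h4 : M * ‖x‖ ≤ |M| * ‖x‖ := by
        gcongr
        exact le_abs_self M
      have h5 : |M| * ‖x‖ ≤ |M| * 1 := by gcongr
      linarith
    have h3 := measure_mono (μ := (volume : Measure E)) h2
    rw [h1] at h3
    rw [hD, ← ENNReal.ofReal_le_iff_le_toReal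
      (ENNReal.div_ne_top measure_closedBall_lt_top.ne hb0)]
    rwa [ENNReal.le_div_iff_mul_le (Or.inl hb0) (Or.inl hbt)]
  rcases lt_trichotomy (adet B) 1 with h1 | h1 | h1
  · exfalso
    have h2 : 1 < (adet B)⁻¹ := (one_lt_inv₀ (adet_pos B)).mpr h1
    obtain ⟨m, hm⟩ := pow_unbounded_of_one_lt D h2
    have h3 := hM (-(m : ℤ))
    rw [adet_zpow, zpow_neg, zpow_natCast, ← inv_pow] at h3
    linarith
  · exact h1
  · exfalso
    obtain ⟨m, hm⟩ := pow_unbounded_of_one_lt D h1
    have h3 := hM (m : ℤ)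
    rw [adet_zpow, zpow_natCast] at h3
    linarith

theorem exists_short (γ : Basis (Fin n) ℝ E) : ∃ δ : ℝ, 0 < δ ∧ ∀ v ∈ dualL γ, v ≠ 0 → δ ≤ ‖v‖ := by
  refine ⟨(∑ i, ‖γ i‖ + 1)⁻¹, by positivity, fun v hv hv0 => ?_⟩
  have hex : ∃ i, ⟪γ i, v⟫_ℝ ≠ 0 := by
    by_contra hcon
    push Not at hcon
    apply hv0
    apply ext_inner_basis γ
    intro i
    rw [hcon i, inner_zero_right]
  obtain ⟨i, hi⟩ := hex
  obtain ⟨q, hq⟩ := hv i
  have h1 : 1 ≤ |⟪γ i, v⟫_ℝ| := by
    rw [hq]
    have hq0 : q ≠ 0 := by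
      rintro rfl
      apply hi
      rw [hq, Int.cast_zero]
    exact_mod_cast Int.one_le_abs hq0
  have h2 : |⟪γ i, v⟫_ℝ| ≤ ‖γ i‖ * ‖v‖ := abs_real_inner_le_norm _ _
  have h3 : ‖γ i‖ ≤ ∑ i, ‖γ i‖ :=
    Finset.single_le_sum (f := fun i => ‖γ i‖) (fun i _ => norm_nonneg _) (Finset.mem_univ i)
  rw [inv_le_iff_one_le_mul₀ (by positivity)]
  have h4 := norm_nonneg v
  nlinarith

theorem noShort_of_bounded {M : ℝ} (h : ∀ (k : ℤ) (x : E), ‖(B ^ k) x‖ ≤ M * ‖x‖) :
    NoShort γ B := by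
  obtain ⟨δ, hδ, h1⟩ := exists_short γ
  refine ⟨δ / (|M| + 1), by positivity, fun j v hv hv0 => ?_⟩
  have h2 := h1 _ (mem_Lj.mp hv) (by
    intro h0
    exact hv0 ((B ^ (-j)).injective (by rw [h0, map_zero])))
  rw [div_le_iff₀ (by positivity)]
  refine h2.trans ((h (-j) v).trans ?_)
  rw [mul_comm]
  gcongr
  linarith [le_abs_self M]

end Pool.Agent.Lib_helper44
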