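import Mathlib
import Pool.Agent.Lib_helper44.Escape

open MeasureTheory Filter Topology Complex Module
open scoped ENNReal NNReal ComplexConjugate InnerProductSpace

set_option linter.unusedSectionVars false

namespace Pool.Agent.Lib_helper44

variable {E : Type*} [NormedAddCommGroup E] [InnerProductSpace ℝ E] [FiniteDimensional ℝ E]
  [MeasurableSpace E] [BorelSpace E] {n : ℕ}
variable {γ : Basis (Fin n) ℝ E} {A B : E ≃L[ℝ] E} {φ : E → ℂ}

/-- one end fails to produce wavelets -/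
def NegC (B : E ≃L[ℝ] E) (Λ L : AddSubgroup E) : Prop :=
  (∑' k : ℕ, ((nco B Λ L k : ℕ∞) : ℝ≥0∞)⁻¹ ≠ ⊤) ∨
    ∃ M : ℝ≥0∞, M ≠ ⊤ ∧ ∀ k : ℕ, ENNReal.ofReal (adet B ^ k) *
      ((cn B L k (1 / 2) : ℕ∞) : ℝ≥0∞) ≤ M

theorem wander_count {Θ : E → ℝ} {τ : ℝ} (hτ : τ ≠ 0) (hΘ : ∀ᵐ x, Θ (B x) = Θ x + τ)
    {K : Set E} {T : ℝ} (hK : ∀ x ∈ K, |Θ x| ≤ T) :
    ∃ C₁ : ℝ≥0∞, C₁ ≠ ⊤ ∧
      ∀ᵐ x, ∑' k : ℕ, K.indicator (fun _ => (1 : ℝ≥0∞)) ((B ^ (k : ℤ)) x) ≤ C₁ := by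
  classical
  set D : ℕ := ⌊2 * T / |τ|⌋₊ with hD
  refine ⟨((D + 1 : ℕ) : ℝ≥0∞), ENNReal.natCast_ne_top _, ?_⟩
  have h1 : ∀ᵐ x, ∀ k : ℕ, Θ (B ((B ^ (k : ℤ)) x)) = Θ ((B ^ (k : ℤ)) x) + τ := by
    rw [ae_all_iff]
    intro k
    exact ae_comp_equiv (B ^ (k : ℤ)) hΘ
  filter_upwards [h1] with x hx
  have h2 : ∀ k : ℕ, Θ ((B ^ (k : ℤ)) x) = Θ x + k * τ := by
    intro k
    induction k with
    | zero => simp
    | succ k ih =>
      have h3 : (B ^ (((k + 1 : ℕ)) : ℤ)) x = B ((B ^ (k : ℤ)) x) := by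
        have h4 := zcomp B 1 (k : ℤ) x
        rw [zpow_one] at h4
        rw [h4]
        congr 2
        push_cast
        ring
      rw [h3, hx k, ih]
      push_cast
      ring
  rw [ENNReal.tsum_eq_iSup_sum]
  apply iSup_le
  intro F
  have h3 : ∑ k ∈ F, K.indicator (fun _ => (1 : ℝ≥0∞)) ((B ^ (k : ℤ)) x)
      = ((F.filter (fun k : ℕ => (B ^ (k : ℤ)) x ∈ K)).card : ℝ≥0∞) := by
    rw [Finset.card_filter]
    push_cast
    apply Finset.sum_congr rfl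
    intro k _
    by_cases hk : (B ^ (k : ℤ)) x ∈ K
    · rw [Set.indicator_of_mem hk, if_pos hk]
    · rw [Set.indicator_of_notMem hk, if_neg hk]
  rw [h3]
  set F' := F.filter (fun k : ℕ => (B ^ (k : ℤ)) x ∈ K) with hF'
  have h4 : F'.card ≤ D + 1 := by
    rcases F'.eq_empty_or_nonempty with h0 | h0
    · rw [h0]
      simp
    · have h5 : F' ⊆ Finset.Icc (F'.min' h0) (F'.min' h0 + D) := by
        intro k hk
        have h6 : F'.min' h0 ≤ k := F'.min'_le k hk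
        rw [Finset.mem_Icc]
        refine ⟨h6, ?_⟩
        have h7 := hK _ (Finset.mem_filter.mp hk).2
        have h8 := hK _ (Finset.mem_filter.mp (F'.min'_mem h0)).2
        rw [h2] at h7 h8
        have h9 : ((k - F'.min' h0 : ℕ) : ℝ) * |τ| ≤ 2 * T := by
          rw [Nat.cast_sub h6, ← abs_of_nonneg (sub_nonneg.mpr (Nat.cast_le.mpr h6)), ← abs_mul]
          have e1 : ((k : ℝ) - (F'.min' h0 : ℕ)) * τ
              = (Θ x + k * τ) - (Θ x + (F'.min' h0 : ℕ) * τ) := by ring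
          rw [e1]
          refine (abs_sub _ _).trans ?_
          linarith
        have h10 : ((k - F'.min' h0 : ℕ) : ℝ) ≤ 2 * T / |τ| := by
          rwa [le_div_iff₀ (abs_pos.mpr hτ)]
        have h11 : k - F'.min' h0 ≤ D := Nat.le_floor h10
        omega
      refine (Finset.card_le_card h5).trans ?_
      rw [Nat.card_Icc]
      omega
  exact_mod_cast h4

theorem TM_of_neg (h : IsONB (volume : Measure E) (fam γ B φ)) (hφm : Measurable φ)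
    {Θ : E → ℝ} {τ : ℝ} (hτ : τ ≠ 0) (hΘ : ∀ᵐ x, Θ (B x) = Θ x + τ) {L : AddSubgroup E}
    (hL : L ≤ dualL γ) (hn : NegC B (dualL γ) L) {E₀ : Set E} (hE₀ : MeasurableSet E₀)
    {ρ T : ℝ} (hb : ∀ x ∈ E₀, ‖x‖ ≤ ρ) (hK : ∀ x ∈ E₀, |Θ x| ≤ T) (R : ℝ) :
    ∑' k : ℕ, ((cn B L k R : ℕ∞) : ℝ≥0∞) * ∫⁻ x in E₀, ‖φ ((B ^ (-(k : ℤ))) x)‖ₑ ^ 2 ≠ ⊤ := by
  rcases hn with ha | ⟨M, hM, hMk⟩
  · exact TM_a h hb hL ha R
  · obtain ⟨C, hC⟩ := exists_cn_scale E R (δ := 1 / 2) (by norm_num)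
    obtain ⟨C₁, hC₁, hw⟩ := wander_count hτ hΘ hK
    refine TM_b h hE₀ hφm (M := C * M) (ENNReal.mul_ne_top (ENNReal.natCast_ne_top C) hM) hC₁ ?_ hw
    intro k
    have h1 : ((cn B L k R : ℕ∞) : ℝ≥0∞) ≤ C * ((cn B L k (1 / 2) : ℕ∞) : ℝ≥0∞) := by
      have : ((cn B L k R : ℕ∞) : ℝ≥0∞) ≤ (((C : ℕ∞) * cn B L k (1 / 2) : ℕ∞) : ℝ≥0∞) := by
        exact_mod_cast hC B L k
      rwa [ENat.toENNReal_mul, ENat.toENNReal_coe] at this
    calc ENNReal.ofReal (adet B ^ k) * ((cn B L k R : ℕ∞) : ℝ≥0∞)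
        ≤ ENNReal.ofReal (adet B ^ k) * (C * ((cn B L k (1 / 2) : ℕ∞) : ℝ≥0∞)) := by gcongr
      _ = C * (ENNReal.ofReal (adet B ^ k) * ((cn B L k (1 / 2) : ℕ∞) : ℝ≥0∞)) := by ring
      _ ≤ C * M := by gcongr; exact hMk k

theorem calderon_lower_of_neg (hAB : IsAdj A B) (hφm : Measurable φ)
    (h : IsONB (volume : Measure E) (fam γ B φ)) {q C : ℕ} (hq : GoodQ B (dualL γ) q C)
    {Θ : E → ℝ} {τ : ℝ} (hΘm : Measurable Θ) (hτ : τ ≠ 0) (hΘ : ∀ᵐ x, Θ (B x) = Θ x + τ)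
    (hn : NegC B (dualL γ) (RQ B (dualL γ) q)) (hn' : NegC B⁻¹ (dualL γ) (RQ B⁻¹ (dualL γ) q)) :
    ∀ᵐ x, (volume (Q0 γ))⁻¹ ≤ calS B φ x := by
  classical
  obtain ⟨-, hv0, hvt⟩ := map_coordT γ
  have hSm : Measurable (calS B φ) := measurable_calS hφm
  have hΘ' : ∀ᵐ x, Θ (B⁻¹ x) = Θ x + -τ := by
    have h1 := ae_comp_equiv B⁻¹ hΘ
    filter_upwards [h1] with x hx
    have h2 : B (B⁻¹ x) = x := B.apply_symm_apply x
    rw [h2] at hx
    rw [hx]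
    ring
  have h' := isONB_inv h
  have hnull : ∀ i : ℕ, volume ({x | ‖x‖ ≤ i} ∩ ({x | |Θ x| ≤ i} ∩
      {x | calS B φ x < (volume (Q0 γ))⁻¹})) = 0 := by
    intro i
    set E₀ : Set E := {x | ‖x‖ ≤ i} ∩ ({x | |Θ x| ≤ i} ∩
      {x | calS B φ x < (volume (Q0 γ))⁻¹}) with hE₀
    have hE₀m : MeasurableSet E₀ := by
      refine (measurableSet_le measurable_norm measurable_const).inter (MeasurableSet.inter ?_ ?_)
      · exact measurableSet_le (measurable_norm.comp hΘm) measurable_const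
      · exact measurableSet_lt hSm measurable_const
    have hb : ∀ x ∈ E₀, ‖x‖ ≤ (i : ℝ) := fun x hx => hx.1
    have hK : ∀ x ∈ E₀, |Θ x| ≤ (i : ℝ) := fun x hx => hx.2.1
    have h1 := calderon_of_TM hAB hφm h hq hE₀m (Nat.cast_nonneg i) hb
      (TM_of_neg h hφm hτ hΘ inf_le_left hn hE₀m hb hK)
      (TM_of_neg h' hφm (neg_ne_zero.mpr hτ) hΘ' inf_le_left hn' hE₀m hb hK)
    have hE₀t : volume E₀ ≠ ⊤ := by
      have h2 : E₀ ⊆ Metric.closedBall 0 i := fun x hx => by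
        rw [mem_closedBall_zero_iff]
        exact hx.1
      exact ((measure_mono h2).trans_lt measure_closedBall_lt_top).ne
    refine null_aux hSm (ρ := fun _ => 1) measurable_const
      (ENNReal.inv_ne_top.mpr hv0) hE₀m (fun x hx => hx.2.2)
      (fun x _ => one_ne_zero) ?_ ?_
    · rw [setLIntegral_one]
      exact hE₀t
    · simp only [mul_one]
      rw [setLIntegral_one]
      calc (volume (Q0 γ))⁻¹ * volume E₀
          ≤ (volume (Q0 γ))⁻¹ * (volume (Q0 γ) * ∫⁻ x in E₀, calS B φ x) := by gcongr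
        _ = _ := by rw [← mul_assoc, ENNReal.inv_mul_cancel hv0 hvt, one_mul]
  rw [ae_iff]
  refine measure_mono_null ?_ (measure_iUnion_null hnull)
  intro x hx
  simp only [Set.mem_ofPred_eq, not_le] at hx
  rw [Set.mem_iUnion]
  refine ⟨max ⌈‖x‖⌉₊ ⌈|Θ x|⌉₊, ?_, ?_, hx⟩
  · change ‖x‖ ≤ ((max ⌈‖x‖⌉₊ ⌈|Θ x|⌉₊ : ℕ) : ℝ)
    exact (Nat.le_ceil _).trans (by exact_mod_cast le_max_left _ _)
  · change |Θ x| ≤ ((max ⌈‖x‖⌉₊ ⌈|Θ x|⌉₊ : ℕ) : ℝ)
    exact (Nat.le_ceil _).trans (by exact_mod_cast le_max_right _ _)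

/-- if the volume is contracted, the failure on the negative side is of the first kind -/
theorem summable_of_neg (hB : adet B < 1) {L : AddSubgroup E} (hL : L ≤ dualL γ)
    (hn : NegC B⁻¹ (dualL γ) L) :
    ∑' k : ℕ, ((cn B (dualL γ) (-(k : ℤ)) 1 : ℕ∞) : ℝ≥0∞)⁻¹ ≠ ⊤ := by
  rcases hn with ha | ⟨M, hM, hMk⟩
  · refine ne_top_of_le_ne_top ha (ENNReal.tsum_le_tsum fun k => ?_)
    apply ENNReal.inv_le_inv.mpr
    have h1 : nco B⁻¹ (dualL γ) L k ≤ cn B (dualL γ) (-(k : ℤ)) 1 := by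
      unfold nco cn
      refine (Set.encard_image_le _ _).trans (Set.encard_le_encard ?_)
      rintro v ⟨hv, hv1⟩
      refine ⟨hv, ?_⟩
      rw [inv_zpow_app] at hv1
      exact hv1.le
    exact_mod_cast h1
  · exfalso
    have h1 : 1 < adet B⁻¹ := by
      rw [adet_inv]
      exact (one_lt_inv₀ (adet_pos B)).mpr hB
    obtain ⟨m, hm⟩ := pow_unbounded_of_one_lt M.toReal h1
    have h2 := hMk m
    have h3 : (1 : ℝ≥0∞) ≤ ((cn B⁻¹ L m (1 / 2) : ℕ∞) : ℝ≥0∞) := by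
      have := one_le_cn (B := B⁻¹) (L := L) (m : ℤ) (R := 1 / 2) (by norm_num)
      exact_mod_cast this
    have h4 : ENNReal.ofReal (adet B⁻¹ ^ m) ≤ M := by
      calc ENNReal.ofReal (adet B⁻¹ ^ m) = ENNReal.ofReal (adet B⁻¹ ^ m) * 1 := (mul_one _).symm
        _ ≤ _ := by gcongr
        _ ≤ M := h2
    rw [ENNReal.ofReal_le_iff_le_toReal hM] at h4
    linarith

/-- **Necessity.** -/
theorem necessity_abs [Nontrivial E] (hAB : IsAdj A B) (hφm : Measurable φ)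
    (h : IsONB (volume : Measure E) (fam γ B φ)) {q C : ℕ} (hq : GoodQ B (dualL γ) q C)
    (hn : NegC B (dualL γ) (RQ B (dualL γ) q)) (hn' : NegC B⁻¹ (dualL γ) (RQ B⁻¹ (dualL γ) q)) :
    False := by
  obtain ⟨-, hv0, hvt⟩ := map_coordT γ
  rcases wander_or_bounded B with ⟨Θ, τ, hΘm, hτ, hΘ⟩ | ⟨M, hM⟩
  · have hlow := calderon_lower_of_neg hAB hφm h hq hΘm hτ hΘ hn hn'
    rcases lt_trichotomy (adet B) 1 with h1 | h1 | h1
    · exact escape h1 h hφm (ENNReal.inv_ne_zero.mpr hvt) hlow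
        (summable_of_neg h1 inf_le_left hn')
    · exact no_wavelet_of_lower h1 h hφm (ENNReal.inv_ne_zero.mpr hvt) hlow
    · have h2 : adet B⁻¹ < 1 := by
        rw [adet_inv]
        exact inv_lt_one_of_one_lt₀ h1
      have hlow' : ∀ᵐ x, (volume (Q0 γ))⁻¹ ≤ calS B⁻¹ φ x := by
        filter_upwards [hlow] with x hx
        rwa [calS_inv]
      refine escape h2 (isONB_inv h) hφm (ENNReal.inv_ne_zero.mpr hvt) hlow'
        (summable_of_neg h2 (L := RQ B (dualL γ) q) inf_le_left ?_)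
      rw [inv_inv]
      exact hn
  · exact no_wavelet_of_noShort (adet_of_bounded hM) (noShort_of_bounded hM) h hφm

end Pool.Agent.Lib_helper44
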