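import Mathlib
import Pool.Agent.Lib_helper44.NecAbs

open MeasureTheory Filter Topology Module
open scoped ENNReal NNReal InnerProductSpace

set_option linter.unusedSectionVars false

namespace Pool.Agent.Lib_helper44

variable {W : Type*} [NormedAddCommGroup W] [InnerProductSpace ℝ W] [FiniteDimensional ℝ W]
  [MeasurableSpace W] [BorelSpace W]
variable {L : AddSubgroup W} {C : W ≃L[ℝ] W}

/-- packing sets modulo a subgroup -/
def Pk (L : AddSubgroup W) (S : Set W) : Prop := ∀ x ∈ S, ∀ y ∈ S, y - x ∈ L → x = y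

/-- the saturation of a set modulo a subgroup -/
def sat (L : AddSubgroup W) (S : Set W) : Set W := {x | ∃ v ∈ L, x + v ∈ S}

theorem measurableSet_sat (hLc : (L : Set W).Countable) {S : Set W} (hS : MeasurableSet S) :
    MeasurableSet (sat L S) := by
  have : sat L S = ⋃ v ∈ (L : Set W), (fun x => x + v) ⁻¹' S := by
    ext x
    simp [sat]
  rw [this]
  exact MeasurableSet.biUnion hLc fun v _ => (measurable_add_const v) hS

theorem subset_sat (S : Set W) : S ⊆ sat L S := fun x hx => ⟨0, L.zero_mem, by rwa [add_zero]⟩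

theorem sat_mono {S S' : Set W} (h : S ⊆ S') : sat L S ⊆ sat L S' := by
  rintro x ⟨v, hv, hx⟩
  exact ⟨v, hv, h hx⟩

theorem sat_add {S : Set W} {x v : W} (hv : v ∈ L) : x + v ∈ sat L S ↔ x ∈ sat L S := by
  constructor
  · rintro ⟨w, hw, h⟩
    exact ⟨v + w, L.add_mem hv hw, by rwa [← add_assoc]⟩
  · rintro ⟨w, hw, h⟩
    exact ⟨w - v, L.sub_mem hw hv, by
      have : x + v + (w - v) = x + w := by abel
      rwa [this]⟩

/-- every measurable set has a measurable section -/
theorem exists_sec (hLc : (L : Set W).Countable) {δ : ℝ} (hδ : 0 < δ)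
    (hL : ∀ v ∈ L, v ≠ 0 → δ ≤ ‖v‖) {Z : Set W} (hZ : MeasurableSet Z) :
    ∃ P : Set W, P ⊆ Z ∧ MeasurableSet P ∧ Pk L P ∧ Z ⊆ sat L P := by
  classical
  set b : ℕ → Set W := fun i => Metric.ball (TopologicalSpace.denseSeq W i) (δ / 2) with hb
  have hbm : ∀ i, MeasurableSet (b i) := fun i => Metric.isOpen_ball.measurableSet
  have hbcov : ∀ x : W, ∃ i, x ∈ b i := by
    intro x
    obtain ⟨i, hy⟩ := (TopologicalSpace.denseRange_denseSeq W).exists_dist_lt x
      (half_pos hδ)
    exact ⟨i, hy⟩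
  have hbd : ∀ i, ∀ x ∈ b i, ∀ y ∈ b i, ‖y - x‖ < δ := by
    intro i x hx y hy
    rw [← dist_eq_norm]
    calc dist y x ≤ dist y (TopologicalSpace.denseSeq W i) + dist (TopologicalSpace.denseSeq W i) x
          := dist_triangle _ _ _
      _ < δ / 2 + δ / 2 := by
          apply add_lt_add
          · exact hy
          · rw [dist_comm]
            exact hx
      _ = δ := by ring
  refine ⟨⋃ i, (Z ∩ b i) \ ⋃ i' ∈ Finset.range i, sat L (Z ∩ b i'), ?_, ?_, ?_, ?_⟩
  · intro x hx
    rw [Set.mem_iUnion] at hx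
    obtain ⟨i, hi⟩ := hx
    exact hi.1.1
  · apply MeasurableSet.iUnion
    intro i
    apply (hZ.inter (hbm i)).diff
    apply Finset.measurableSet_biUnion
    intro i' _
    exact measurableSet_sat hLc (hZ.inter (hbm i'))
  · intro x hx y hy hxy
    rw [Set.mem_iUnion] at hx hy
    obtain ⟨i, ⟨hxZ, hxb⟩, hxn⟩ := hx
    obtain ⟨j, ⟨hyZ, hyb⟩, hyn⟩ := hy
    rcases lt_trichotomy i j with h | h | h
    · exfalso
      apply hyn
      rw [Set.mem_iUnion₂]
      exact ⟨i, Finset.mem_range.mpr h, x - y, by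
        have := L.neg_mem hxy
        rwa [neg_sub] at this, by
        rw [add_sub_cancel]
        exact ⟨hxZ, hxb⟩⟩
    · subst h
      by_contra hne
      have h1 := hL (y - x) hxy (sub_ne_zero.mpr (Ne.symm hne))
      have h2 := hbd i x hxb y hyb
      linarith
    · exfalso
      apply hxn
      rw [Set.mem_iUnion₂]
      exact ⟨j, Finset.mem_range.mpr h, y - x, hxy, by
        rw [add_sub_cancel]
        exact ⟨hyZ, hyb⟩⟩
  · intro z hz
    have hex : ∃ i, z ∈ sat L (Z ∩ b i) := by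
      obtain ⟨i, hi⟩ := hbcov z
      exact ⟨i, subset_sat _ ⟨hz, hi⟩⟩
    have h1 := Nat.find_spec hex
    have h2 : ∀ i' < Nat.find hex, z ∉ sat L (Z ∩ b i') := fun i' hi' => Nat.find_min hex hi'
    obtain ⟨v, hv, hvz⟩ := h1
    refine ⟨v, hv, ?_⟩
    rw [Set.mem_iUnion]
    refine ⟨Nat.find hex, hvz, ?_⟩
    rw [Set.mem_iUnion₂]
    rintro ⟨i', hi', h3⟩
    exact h2 i' (Finset.mem_range.mp hi') ((sat_add hv).mp h3)

/-- the volume of a section -/
theorem volume_le_sec {Z P : Set W} (s : Finset W)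
    (hs : ∀ z ∈ Z, ∃ v ∈ s, z + v ∈ P) : volume Z ≤ s.card * volume P := by
  have h1 : Z ⊆ ⋃ v ∈ s, (fun x => x + v) ⁻¹' P := by
    intro z hz
    obtain ⟨v, hv, hvP⟩ := hs z hz
    rw [Set.mem_iUnion₂]
    exact ⟨v, hv, hvP⟩
  refine (measure_mono h1).trans ((measure_biUnion_finset_le _ _).trans ?_)
  simp only [measure_preimage_add_right]
  rw [Finset.sum_const, nsmul_eq_mul]

/-- loss of a packing set -/
theorem volume_inter_sat_le (hLc : (L : Set W).Countable) {P P' : Set W} (hP : MeasurableSet P)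
    (hP' : MeasurableSet P') (hpk : Pk L P) : volume (P ∩ sat L P') ≤ volume P' := by
  have : Countable L := hLc.to_subtype
  have h1 : P ∩ sat L P' ⊆ ⋃ v : L, P ∩ (fun x => x + (v : W)) ⁻¹' P' := by
    rintro x ⟨hx, v, hv, hxv⟩
    rw [Set.mem_iUnion]
    exact ⟨⟨v, hv⟩, hx, hxv⟩
  refine (measure_mono h1).trans ((measure_iUnion_le _).trans ?_)
  have h2 : ∀ v : L, volume (P ∩ (fun x => x + (v : W)) ⁻¹' P')
      = volume ((fun x => x + (-(v : W))) ⁻¹' P ∩ P') := by
    intro v
    rw [← measure_preimage_add_right volume (-(v : W)) (P ∩ (fun x => x + (v : W)) ⁻¹' P')]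
    congr 1
    ext x
    simp
  simp only [h2]
  rw [← measure_iUnion]
  · apply measure_mono
    intro x hx
    rw [Set.mem_iUnion] at hx
    obtain ⟨v, -, hv⟩ := hx
    exact hv
  · intro v w hvw
    rw [Function.onFun, Set.disjoint_left]
    rintro x ⟨hxv, -⟩ ⟨hxw, -⟩
    apply hvw
    have h3 := hpk _ hxv _ hxw (by
      have : x + -(w : W) - (x + -(v : W)) = v - w := by abel
      rw [this]
      exact L.sub_mem v.2 w.2)
    apply Subtype.ext
    have h4 := add_left_cancel h3
    exact neg_injective h4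
  · intro v
    exact ((measurable_add_const _) hP).inter hP'

/-- volumes of preimages under powers -/
theorem volume_preimage_zpow (C : W ≃L[ℝ] W) (m : ℤ) (S : Set W) (hS : MeasurableSet S) :
    volume ((C ^ m) ⁻¹' S) = ENNReal.ofReal (adet C ^ (-m)) * volume S := by
  have h1 := lintegral_comp_equiv (C ^ m) (S.indicator (fun _ => (1 : ℝ≥0∞)))
  have h2 : ∀ x, S.indicator (fun _ => (1 : ℝ≥0∞)) ((C ^ m) x)
      = ((C ^ m) ⁻¹' S).indicator (fun _ => (1 : ℝ≥0∞)) x := fun x => rfl
  simp only [h2] at h1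
  rw [lintegral_indicator ((C ^ m).continuous.measurable hS), lintegral_indicator hS,
    setLIntegral_one, setLIntegral_one, adet_zpow, ← zpow_neg] at h1
  exact h1

/-- divergence along a residue class -/
theorem exists_class {f : ℕ → ℝ≥0∞} (hf : ∀ m, f m ≠ ⊤) (hdiv : ∑' m, f m = ⊤) {s : ℕ}
    (hs : 0 < s) (I : ℕ) : ∃ c, ∑' i, f (c + s * (I + i)) = ⊤ := by
  have : NeZero s := ⟨hs.ne'⟩
  by_contra hcon
  push Not at hcon
  have h1 : ∀ c, ∑' i : ℕ, f (c + s * i) ≠ ⊤ := by
    intro c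
    rw [← (ENNReal.summable (f := fun i : ℕ => f (c + s * (i + I)))).sum_add_tsum_nat_add'
      (f := fun i : ℕ => f (c + s * i))]
    apply ENNReal.add_ne_top.mpr
    refine ⟨ENNReal.sum_ne_top.mpr fun i _ => hf _, ?_⟩
    have h2 := hcon c
    simpa only [add_comm I] using h2
  have h2 : ∑' m, f m = ∑ c : Fin s, ∑' i : ℕ, f (c + s * i) := by
    have e1 : ∀ p : ℕ × Fin s, f ((Nat.divModEquiv s).symm p) = f (p.2 + s * p.1) := by
      intro p
      have : (Nat.divModEquiv s).symm p = p.2 + s * p.1 := by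
        change p.1 * s + (p.2 : ℕ) = p.2 + s * p.1
        ring
      rw [this]
    rw [← (Nat.divModEquiv s).symm.tsum_eq f]
    simp only [e1]
    rw [ENNReal.tsum_prod (f := fun (i : ℕ) (c : Fin s) => f (c + s * i)), ENNReal.tsum_comm,
      tsum_fintype]
  rw [h2] at hdiv
  exact absurd hdiv (ENNReal.sum_ne_top.mpr fun c _ => h1 c)

end Pool.Agent.Lib_helper44
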