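import Mathlib
import Pool.Agent.Lib_helper44.BS1

open MeasureTheory Filter Topology Module
open scoped ENNReal NNReal InnerProductSpace

set_option linter.unusedSectionVars false

namespace Pool.Agent.Lib_helper44

variable {W : Type*} [NormedAddCommGroup W] [InnerProductSpace ℝ W] [FiniteDimensional ℝ W]
  [MeasurableSpace W] [BorelSpace W]
variable {L : AddSubgroup W} {C : W ≃L[ℝ] W}

/-- the hypotheses of the tiling lemma -/
structure BSHyp (L : AddSubgroup W) (C : W ≃L[ℝ] W) : Prop where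
  countable : (L : Set W).Countable
  sep : ∃ δ : ℝ, 0 < δ ∧ ∀ v ∈ L, v ≠ 0 → δ ≤ ‖v‖
  fin : ∀ (m : ℕ) (R : ℝ), ({v | v ∈ L ∧ ‖(C ^ (m : ℤ)) v‖ ≤ R} : Set W).Finite
  det : 1 < adet C
  div : ∀ R : ℝ, 0 ≤ R → ∑' m : ℕ, ((cn C L m R : ℕ∞) : ℝ≥0∞)⁻¹ = ⊤

theorem geom_le {η : ℝ≥0∞} (hη : η ≤ 2⁻¹) (n : ℕ) :
    ∑ i ∈ Finset.range n, η ^ (n - i) ≤ 2 * η := by
  have h1 : ∑ i ∈ Finset.range n, η ^ (n - i) = ∑ i ∈ Finset.range n, η ^ (i + 1) := by
    rw [← Finset.sum_range_reflect]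
    apply Finset.sum_congr rfl
    intro i hi
    rw [Finset.mem_range] at hi
    congr 1
    omega
  rw [h1]
  calc ∑ i ∈ Finset.range n, η ^ (i + 1) ≤ ∑' i : ℕ, η ^ (i + 1) := ENNReal.sum_le_tsum _
    _ = η * (1 - η)⁻¹ := by
        simp only [pow_succ]
        rw [ENNReal.tsum_mul_right, ENNReal.tsum_geometric, mul_comm]
    _ ≤ η * 2 := by
        gcongr
        rw [ENNReal.inv_le_iff_inv_le]
        refine ENNReal.le_sub_of_add_le_right (ne_top_of_le_ne_top (by simp) hη) ?_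
        calc (2 : ℝ≥0∞)⁻¹ + η ≤ 2⁻¹ + 2⁻¹ := by gcongr
          _ = 1 := ENNReal.inv_two_add_inv_two
    _ = 2 * η := mul_comm _ _

theorem round (h : BSHyp L C) {K : Set W} (hK : MeasurableSet K) {ρ : ℝ} (hρ : ∀ x ∈ K, ‖x‖ ≤ ρ)
    {ε : ℝ≥0∞} (hε : ε ≠ 0) (M : ℕ) :
    ∃ (F : Finset ℕ) (P : Set W), (∀ m ∈ F, M ≤ m) ∧ MeasurableSet P ∧ Pk L P ∧
      (∀ y ∈ P, ∃ m ∈ F, (C ^ (m : ℤ)) y ∈ K) ∧ volume P ≤ ε ∧
      volume (K \ {x | ∃ m ∈ F, (C ^ (-(m : ℤ))) x ∈ P}) ≤ ε := by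
  classical
  obtain ⟨δ, hδ, hsep⟩ := h.sep
  have hdet0 : 0 < adet C := adet_pos C
  set V := volume K with hV
  have hVt : V ≠ ⊤ := by
    have h1 : K ⊆ Metric.closedBall 0 ρ := fun x hx => by
      rw [mem_closedBall_zero_iff]
      exact hρ x hx
    exact ((measure_mono h1).trans_lt measure_closedBall_lt_top).ne
  set b : ℝ≥0∞ := ENNReal.ofReal (adet C)⁻¹ with hb
  have hb1 : b < 1 := by
    rw [hb, ENNReal.ofReal_lt_one]
    exact inv_lt_one_of_one_lt₀ h.det
  have hbt := ENNReal.tendsto_pow_atTop_nhds_zero_of_lt_one hb1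
  have hε2 : ε / 2 ≠ 0 := by simp [hε]
  have hbpow : ∀ k : ℕ, ENNReal.ofReal (adet C ^ (-(k : ℤ))) = b ^ k := by
    intro k
    rw [hb, zpow_neg, zpow_natCast, ← inv_pow, ENNReal.ofReal_pow (inv_nonneg.mpr hdet0.le)]
  -- the choice of the step
  obtain ⟨s, hs1, hs2, hs3⟩ : ∃ s : ℕ, 0 < s ∧ b ^ s ≤ 2⁻¹ ∧ 2 * b ^ s * V ≤ ε / 2 := by
    have h1 : ∀ᶠ s : ℕ in atTop, b ^ s ≤ 2⁻¹ :=
      hbt.eventually_le_const (by simp)
    have h2 : Tendsto (fun s : ℕ => 2 * b ^ s * V) atTop (𝓝 (2 * 0 * V)) := by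
      apply ENNReal.Tendsto.mul_const _ (Or.inr hVt)
      exact ENNReal.Tendsto.const_mul hbt (Or.inr (by norm_num))
    rw [mul_zero, zero_mul] at h2
    have h3 : ∀ᶠ s : ℕ in atTop, 2 * b ^ s * V ≤ ε / 2 :=
      h2.eventually_le_const (pos_iff_ne_zero.mpr hε2)
    obtain ⟨s, h4, h5, h6⟩ := ((eventually_gt_atTop 0).and (h1.and h3)).exists
    exact ⟨s, h4, h5, h6⟩
  obtain ⟨I₀, hI1, hI2⟩ : ∃ I₀ : ℕ, M ≤ I₀ ∧ b ^ I₀ * V ≤ ε := by
    have h2 : Tendsto (fun s : ℕ => b ^ s * V) atTop (𝓝 (0 * V)) :=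
      ENNReal.Tendsto.mul_const hbt (Or.inr hVt)
    rw [zero_mul] at h2
    have h3 : ∀ᶠ s : ℕ in atTop, b ^ s * V ≤ ε := h2.eventually_le_const (pos_iff_ne_zero.mpr hε)
    obtain ⟨s, h4, h5⟩ := ((eventually_ge_atTop M).and h3).exists
    exact ⟨s, h4, h5⟩
  set R : ℝ := 2 * |ρ| with hR
  have hR0 : 0 ≤ R := by positivity
  have hcn0 : ∀ m : ℕ, ((cn C L m R : ℕ∞) : ℝ≥0∞) ≠ 0 := by
    intro m
    have h1 := one_le_cn (B := C) (L := L) (m : ℤ) hR0
    intro h2
    have h3 : cn C L m R = 0 := by simpa using h2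
    rw [h3] at h1
    exact absurd h1 (by norm_num)
  have hcnt : ∀ m : ℕ, ((cn C L m R : ℕ∞) : ℝ≥0∞) ≠ ⊤ := by
    intro m
    have h1 : cn C L m R ≠ ⊤ := by
      unfold cn
      rw [Set.encard_ne_top_iff]
      exact h.fin m R
    simpa using h1
  obtain ⟨c, hc⟩ := exists_class (f := fun m : ℕ => ((cn C L m R : ℕ∞) : ℝ≥0∞)⁻¹)
    (fun m => ENNReal.inv_ne_top.mpr (hcn0 m)) (h.div R hR0) hs1 I₀
  set m : ℕ → ℕ := fun i => c + s * (I₀ + i) with hm
  have hmge : ∀ i, I₀ ≤ m i := by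
    intro i
    simp only [hm]
    have : 1 * (I₀ + i) ≤ s * (I₀ + i) := Nat.mul_le_mul_right _ hs1
    omega
  -- the greedy sequence
  choose! sec hsub hmeas hpk hcov using
    fun (Z : Set W) (hZ : MeasurableSet Z) => exists_sec h.countable hδ hsep hZ
  let Z : ℕ → Set W := fun i => Nat.rec K
    (fun i Z => Z \ (C ^ (-(m i : ℤ))) ⁻¹' sec ((C ^ (m i : ℤ)) ⁻¹' Z)) i
  have hZ0 : Z 0 = K := rfl
  set P : ℕ → Set W := fun i => sec ((C ^ (m i : ℤ)) ⁻¹' Z i) with hP
  have hZs : ∀ i, Z (i + 1) = Z i \ (C ^ (-(m i : ℤ))) ⁻¹' P i := fun i => rfl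
  have hcm : ∀ (k : ℤ) {S : Set W}, MeasurableSet S → MeasurableSet ((C ^ k) ⁻¹' S) :=
    fun k S hS => (C ^ k).continuous.measurable hS
  have hZm : ∀ i, MeasurableSet (Z i) := by
    intro i
    induction i with
    | zero => exact hK
    | succ i ih =>
      rw [hZs]
      exact ih.diff (hcm _ (hmeas _ (hcm _ ih)))
  have hPm : ∀ i, MeasurableSet (P i) := fun i => hmeas _ (hcm _ (hZm i))
  have hPpk : ∀ i, Pk L (P i) := fun i => hpk _ (hcm _ (hZm i))
  have hPsub : ∀ i, ∀ y ∈ P i, (C ^ (m i : ℤ)) y ∈ Z i := fun i y hy =>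
    hsub _ (hcm _ (hZm i)) hy
  have hPcov : ∀ i, ∀ y, (C ^ (m i : ℤ)) y ∈ Z i → y ∈ sat L (P i) := fun i y hy =>
    hcov _ (hcm _ (hZm i)) hy
  have hZanti : ∀ i, Z (i + 1) ⊆ Z i := fun i => by
    rw [hZs]
    exact Set.sdiff_subset
  have hZK : ∀ i, Z i ⊆ K := by
    intro i
    induction i with
    | zero => exact le_rfl
    | succ i ih => exact (hZanti i).trans ih
  have hQsub : ∀ i, (C ^ (-(m i : ℤ))) ⁻¹' P i ⊆ Z i := by
    intro i x hx
    have h1 := hPsub i _ hx
    rwa [zcancel] at h1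
  set q : ℕ → ℝ≥0∞ := fun i => volume ((C ^ (-(m i : ℤ))) ⁻¹' P i) with hq
  have hqP : ∀ i, volume (P i) = b ^ (m i) * q i := by
    intro i
    have h1 := volume_preimage_zpow C (m i : ℤ) _ (hcm (-(m i : ℤ)) (hPm i))
    have h2 : (C ^ (m i : ℤ)) ⁻¹' ((C ^ (-(m i : ℤ))) ⁻¹' P i) = P i := by
      ext x
      simp only [Set.mem_preimage]
      rw [zcancel']
    rw [h2, hbpow] at h1
    exact h1
  have hvolZ : ∀ i, volume (Z i) ≤ ((cn C L (m i) R : ℕ∞) : ℝ≥0∞) * q i := by
    intro i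
    have hfin := h.fin (m i) R
    have h1 := volume_le_sec (Z := (C ^ (m i : ℤ)) ⁻¹' Z i) (P := P i) hfin.toFinset (by
      intro z hz
      obtain ⟨v, hv, hvP⟩ := hPcov i z hz
      refine ⟨v, ?_, hvP⟩
      rw [Set.Finite.mem_toFinset]
      refine ⟨hv, ?_⟩
      have h2 := hρ _ (hZK i (hPsub i _ hvP))
      have h3 := hρ _ (hZK i hz)
      rw [map_add] at h2
      have h4 : (C ^ (m i : ℤ)) v = ((C ^ (m i : ℤ)) z + (C ^ (m i : ℤ)) v) - (C ^ (m i : ℤ)) z := by
        abel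
      rw [h4]
      refine (norm_sub_le _ _).trans ?_
      have h5 := le_abs_self ρ
      rw [hR]
      linarith)
    have h2 : cn C L (m i) R = (hfin.toFinset.card : ℕ∞) := by
      unfold cn
      rw [← Set.encard_coe_eq_coe_finsetCard, Set.Finite.coe_toFinset]
    rw [h2, ENat.toENNReal_coe]
    have h3 : volume (Z i) = ENNReal.ofReal (adet C ^ (m i : ℤ)) * volume ((C ^ (m i : ℤ)) ⁻¹' Z i) := by
      have h4 := volume_preimage_zpow C (-(m i : ℤ)) _ (hcm (m i : ℤ) (hZm i))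
      have h5 : (C ^ (-(m i : ℤ))) ⁻¹' ((C ^ (m i : ℤ)) ⁻¹' Z i) = Z i := by
        ext x
        simp only [Set.mem_preimage]
        rw [zcancel]
      rwa [h5, neg_neg] at h4
    have h6 : q i = ENNReal.ofReal (adet C ^ (m i : ℤ)) * volume (P i) := by
      have h4 := volume_preimage_zpow C (-(m i : ℤ)) _ (hPm i)
      rwa [neg_neg] at h4
    rw [h3, h6]
    calc _ ≤ ENNReal.ofReal (adet C ^ (m i : ℤ)) * (hfin.toFinset.card * volume (P i)) := by gcongr
      _ = _ := by ring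
  have hqZ : ∀ i, volume (Z (i + 1)) + q i = volume (Z i) := by
    intro i
    have h1 := measure_sdiff_add_inter (μ := (volume : Measure W)) (Z i)
      (hcm (-(m i : ℤ)) (hPm i))
    rw [Set.inter_eq_self_of_subset_right (hQsub i)] at h1
    rw [hZs]
    exact h1
  have hsumq : ∀ I, ∑ i ∈ Finset.range I, q i + volume (Z I) = V := by
    intro I
    induction I with
    | zero => simp [hZ0, hV]
    | succ I ih =>
      rw [Finset.sum_range_succ, add_assoc, add_comm (q I), hqZ, ih]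
  have hanti : ∀ i j, i ≤ j → volume (Z j) ≤ volume (Z i) := by
    intro i j hij
    induction hij with
    | refl => exact le_rfl
    | step _ ih => exact (measure_mono (hZanti _)).trans ih
  obtain ⟨I, hI⟩ : ∃ I, volume (Z I) ≤ ε / 2 := by
    by_contra hcon
    push Not at hcon
    have h1 : ∀ I, (ε / 2) * ∑ i ∈ Finset.range I, ((cn C L (m i) R : ℕ∞) : ℝ≥0∞)⁻¹ ≤ V := by
      intro I
      rw [← hsumq I]
      refine le_trans ?_ (le_add_of_nonneg_right zero_le)
      rw [Finset.mul_sum]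
      apply Finset.sum_le_sum
      intro i _
      rw [← div_eq_mul_inv, ENNReal.div_le_iff (hcn0 _) (hcnt _), mul_comm]
      exact (hcon i).le.trans (hvolZ i)
    have h2 : (ε / 2) * ∑' i, ((cn C L (m i) R : ℕ∞) : ℝ≥0∞)⁻¹ ≤ V := by
      rw [← ENNReal.tsum_mul_left, ENNReal.tsum_eq_iSup_nat]
      apply iSup_le
      intro I
      rw [← Finset.mul_sum]
      exact h1 I
    rw [hc, ENNReal.mul_top hε2] at h2
    exact hVt (top_le_iff.mp h2)
  have hsumqV : ∑ i ∈ Finset.range I, q i ≤ V := by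
    rw [← hsumq I]
    exact le_add_of_nonneg_right zero_le
  refine ⟨(Finset.range I).image m,
    ⋃ i ∈ Finset.range I, P i \ ⋃ i' ∈ Finset.Ioo i I, sat L (P i'), ?_, ?_, ?_, ?_, ?_, ?_⟩
  · intro k hk
    obtain ⟨i, -, rfl⟩ := Finset.mem_image.mp hk
    exact hI1.trans (hmge i)
  · apply Finset.measurableSet_biUnion
    intro i _
    apply (hPm i).diff
    apply Finset.measurableSet_biUnion
    intro i' _
    exact measurableSet_sat h.countable (hPm i')
  · intro x hx y hy hxy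
    rw [Set.mem_iUnion₂] at hx hy
    obtain ⟨i, hi, hxP, hxn⟩ := hx
    obtain ⟨j, hj, hyP, hyn⟩ := hy
    rw [Finset.mem_range] at hi hj
    rcases lt_trichotomy i j with h1 | h1 | h1
    · exfalso
      apply hxn
      rw [Set.mem_iUnion₂]
      exact ⟨j, Finset.mem_Ioo.mpr ⟨h1, hj⟩, y - x, hxy, by rwa [add_sub_cancel]⟩
    · subst h1
      exact hPpk i x hxP y hyP hxy
    · exfalso
      apply hyn
      rw [Set.mem_iUnion₂]
      exact ⟨i, Finset.mem_Ioo.mpr ⟨h1, hi⟩, x - y, by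
        have := L.neg_mem hxy
        rwa [neg_sub] at this, by rwa [add_sub_cancel]⟩
  · intro y hy
    rw [Set.mem_iUnion₂] at hy
    obtain ⟨i, hi, hyP, -⟩ := hy
    exact ⟨m i, Finset.mem_image_of_mem m hi, hZK i (hPsub i y hyP)⟩
  · calc volume (⋃ i ∈ Finset.range I, P i \ ⋃ i' ∈ Finset.Ioo i I, sat L (P i'))
        ≤ ∑ i ∈ Finset.range I, volume (P i \ ⋃ i' ∈ Finset.Ioo i I, sat L (P i')) :=
          measure_biUnion_finset_le _ _
      _ ≤ ∑ i ∈ Finset.range I, b ^ I₀ * q i := by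
          apply Finset.sum_le_sum
          intro i _
          refine (measure_mono Set.sdiff_subset).trans ?_
          rw [hqP]
          gcongr ?_ * _
          exact pow_le_pow_of_le_one zero_le hb1.le (hmge i)
      _ = b ^ I₀ * ∑ i ∈ Finset.range I, q i := by rw [Finset.mul_sum]
      _ ≤ b ^ I₀ * V := by gcongr
      _ ≤ ε := hI2
  · -- the unvisited part
    have hcover : K \ {x | ∃ k ∈ (Finset.range I).image m, (C ^ (-(k : ℤ))) x ∈
        ⋃ i ∈ Finset.range I, P i \ ⋃ i' ∈ Finset.Ioo i I, sat L (P i')} ⊆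
        Z I ∪ ⋃ i ∈ Finset.range I, ⋃ i' ∈ Finset.Ioo i I,
          (C ^ (-(m i : ℤ))) ⁻¹' (P i ∩ sat L (P i')) := by
      rintro x ⟨hxK, hxn⟩
      rcases Classical.em (x ∈ Z I) with hxZ | hxZ
      · exact Or.inl hxZ
      · right
        have hex : ∃ i, i < I ∧ x ∈ (C ^ (-(m i : ℤ))) ⁻¹' P i := by
          by_contra hcon
          push Not at hcon
          apply hxZ
          have h1 : ∀ i, i ≤ I → x ∈ Z i := by
            intro i
            induction i with
            | zero => exact fun _ => hxK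
            | succ i ih =>
              intro hi
              rw [hZs]
              exact ⟨ih (by omega), hcon i (by omega)⟩
          exact h1 I le_rfl
        obtain ⟨i, hi, hix⟩ := hex
        rw [Set.mem_iUnion₂]
        refine ⟨i, Finset.mem_range.mpr hi, ?_⟩
        rw [Set.mem_iUnion₂]
        by_contra hcon
        push Not at hcon
        apply hxn
        refine ⟨m i, Finset.mem_image_of_mem m (Finset.mem_range.mpr hi), ?_⟩
        rw [Set.mem_iUnion₂]
        refine ⟨i, Finset.mem_range.mpr hi, hix, ?_⟩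
        rw [Set.mem_iUnion₂]
        rintro ⟨i', hi', hsat⟩
        exact hcon i' hi' ⟨hix, hsat⟩
    refine (measure_mono hcover).trans ((measure_union_le _ _).trans ?_)
    have hsum : volume (⋃ i ∈ Finset.range I, ⋃ i' ∈ Finset.Ioo i I,
        (C ^ (-(m i : ℤ))) ⁻¹' (P i ∩ sat L (P i'))) ≤ ε / 2 := by
      calc volume (⋃ i ∈ Finset.range I, ⋃ i' ∈ Finset.Ioo i I,
            (C ^ (-(m i : ℤ))) ⁻¹' (P i ∩ sat L (P i')))
          ≤ ∑ i ∈ Finset.range I, ∑ i' ∈ Finset.Ioo i I,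
            volume ((C ^ (-(m i : ℤ))) ⁻¹' (P i ∩ sat L (P i'))) := by
            refine (measure_biUnion_finset_le _ _).trans (Finset.sum_le_sum fun i _ => ?_)
            exact measure_biUnion_finset_le _ _
        _ ≤ ∑ i ∈ Finset.range I, ∑ i' ∈ Finset.Ioo i I, (b ^ s) ^ (i' - i) * q i' := by
            apply Finset.sum_le_sum
            intro i _
            apply Finset.sum_le_sum
            intro i' hi'
            rw [Finset.mem_Ioo] at hi'
            rw [volume_preimage_zpow C _ _ ((hPm i).inter (measurableSet_sat h.countable (hPm i'))),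
              neg_neg]
            have h1 := volume_inter_sat_le h.countable (hPm i) (hPm i') (hPpk i)
            calc ENNReal.ofReal (adet C ^ (m i : ℤ)) * volume (P i ∩ sat L (P i'))
                ≤ ENNReal.ofReal (adet C ^ (m i : ℤ)) * volume (P i') := by gcongr
              _ = ENNReal.ofReal (adet C ^ (m i : ℤ)) * b ^ (m i') * q i' := by
                  rw [hqP i', mul_assoc]
              _ = (b ^ s) ^ (i' - i) * q i' := by
                  congr 1
                  rw [← hbpow, ← ENNReal.ofReal_mul (by positivity), ← zpow_add₀ hdet0.ne',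
                    ← pow_mul, ← hbpow]
                  congr 2
                  simp only [hm]
                  push_cast [Nat.cast_sub hi'.1.le]
                  ring
        _ = ∑ i' ∈ Finset.range I, ∑ i ∈ Finset.range i', (b ^ s) ^ (i' - i) * q i' := by
            apply Finset.sum_comm'
            intro i i'
            simp only [Finset.mem_range, Finset.mem_Ioo]
            omega
        _ ≤ ∑ i' ∈ Finset.range I, (2 * b ^ s) * q i' := by
            apply Finset.sum_le_sum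
            intro i' _
            rw [← Finset.sum_mul]
            gcongr
            exact geom_le hs2 i'
        _ = 2 * b ^ s * ∑ i' ∈ Finset.range I, q i' := by rw [Finset.mul_sum]
        _ ≤ 2 * b ^ s * V := by gcongr
        _ ≤ ε / 2 := hs3
    calc volume (Z I) + _ ≤ ε / 2 + ε / 2 := add_le_add hI hsum
      _ = ε := ENNReal.add_halves ε

end Pool.Agent.Lib_helper44
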