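import Mathlib
import Pool.Agent.Lib_helper44.BS2

open MeasureTheory Filter Topology Module
open scoped ENNReal NNReal InnerProductSpace

set_option linter.unusedSectionVars false

namespace Pool.Agent.Lib_helper44

variable {W : Type*} [NormedAddCommGroup W] [InnerProductSpace ℝ W] [FiniteDimensional ℝ W]
  [MeasurableSpace W] [BorelSpace W]
variable {L : AddSubgroup W} {C : W ≃L[ℝ] W}

theorem inv_set_zpow {Ω : Set W} (hΩC : ∀ x, C x ∈ Ω ↔ x ∈ Ω) (j : ℤ) (x : W) :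
    (C ^ j) x ∈ Ω ↔ x ∈ Ω := by
  induction j using Int.induction_on generalizing x with
  | zero => rw [zpow_zero]; rfl
  | succ i ih =>
    have : (C ^ ((i : ℤ) + 1)) x = (C ^ (i : ℤ)) (C x) := by
      rw [← zcomp, zpow_one]
    rw [this, ih, hΩC]
  | pred i ih =>
    have h1 : C ((C ^ (-(i : ℤ) - 1)) x) = (C ^ (-(i : ℤ))) x := by
      have h4 := zcomp C 1 (-(i : ℤ) - 1) x
      rw [zpow_one] at h4
      rw [h4]
      congr 2
      ring
    rw [← hΩC, h1, ih]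

/-- **the tiling lemma** -/
theorem bs_main (h : BSHyp L C) {Ω : Set W} (hΩ : MeasurableSet Ω) (hΩC : ∀ x, C x ∈ Ω ↔ x ∈ Ω)
    {x₀ : W} {ρ : ℝ} (hcoc : ∀ x, ∃ v ∈ L, x + v ∈ Metric.closedBall x₀ ρ)
    (hball : Metric.closedBall x₀ ρ ⊆ Ω) :
    ∃ T : Set W, T ⊆ Ω ∧ MeasurableSet T ∧ Pk L T ∧ (∀ x, ∃ v ∈ L, x + v ∈ T) ∧ volume T ≠ ⊤ ∧
      ∀ᵐ x, x ∈ Ω → {m : ℕ | (C ^ (-(m : ℤ))) x ∈ T}.Infinite := by
  classical
  obtain ⟨δ, hδ, hsep⟩ := h.sep
  set K : ℕ → Set W := fun k => Ω ∩ Metric.closedBall 0 k with hK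
  have hKm : ∀ k, MeasurableSet (K k) := fun k => hΩ.inter Metric.isClosed_closedBall.measurableSet
  have hKb : ∀ k, ∀ x ∈ K k, ‖x‖ ≤ (k : ℝ) := fun k x hx => by
    have := hx.2
    rwa [mem_closedBall_zero_iff] at this
  choose! Fc Pc hFM hPm hPpk hPK hPε hunv using
    fun (k : ℕ) (ε : ℝ≥0∞) (hε : ε ≠ 0) => round h (hKm k) (hKb k) hε k
  set wt : Finset ℕ → ℝ≥0∞ := fun F => ∑ m ∈ F, ENNReal.ofReal (adet C ^ (m : ℤ)) with hwt
  let w : ℕ → ℝ≥0∞ := fun k => Nat.rec 1 (fun k w => w + wt (Fc k ((2⁻¹ : ℝ≥0∞) ^ k / w))) k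
  set ε : ℕ → ℝ≥0∞ := fun k => (2⁻¹ : ℝ≥0∞) ^ k / w k with hεdef
  have hw0 : w 0 = 1 := rfl
  have hws : ∀ k, w (k + 1) = w k + wt (Fc k (ε k)) := fun k => rfl
  have hwt_top : ∀ F, wt F ≠ ⊤ := fun F => ENNReal.sum_ne_top.mpr fun m _ => ENNReal.ofReal_ne_top
  have hwtop : ∀ k, w k ≠ ⊤ := by
    intro k
    induction k with
    | zero => rw [hw0]; exact ENNReal.one_ne_top
    | succ k ih =>
      rw [hws]
      exact ENNReal.add_ne_top.mpr ⟨ih, hwt_top _⟩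
  have hwmono : Monotone w := monotone_nat_of_le_succ fun k => by
    rw [hws]
    exact le_self_add
  have hw1 : ∀ k, 1 ≤ w k := fun k => by
    rw [← hw0]
    exact hwmono (Nat.zero_le k)
  have h2pow : ∀ k : ℕ, ((2⁻¹ : ℝ≥0∞) ^ k) ≠ 0 := fun k => pow_ne_zero _ (by simp)
  have hε0 : ∀ k, ε k ≠ 0 := fun k => ENNReal.div_ne_zero.mpr ⟨h2pow k, hwtop k⟩
  have hεle : ∀ k, ε k ≤ (2⁻¹ : ℝ≥0∞) ^ k := by
    intro k
    rw [hεdef]
    simp only
    rw [ENNReal.div_le_iff (by have := hw1 k; intro h0; rw [h0] at this; exact absurd this (by norm_num))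
      (hwtop k)]
    calc (2⁻¹ : ℝ≥0∞) ^ k = (2⁻¹ : ℝ≥0∞) ^ k * 1 := (mul_one _).symm
      _ ≤ _ := by gcongr; exact hw1 k
  set F : ℕ → Finset ℕ := fun k => Fc k (ε k) with hF
  set P : ℕ → Set W := fun k => Pc k (ε k) with hP
  have hPm' : ∀ k, MeasurableSet (P k) := fun k => hPm k _ (hε0 k)
  have hPpk' : ∀ k, Pk L (P k) := fun k => hPpk k _ (hε0 k)
  have hPε' : ∀ k, volume (P k) ≤ ε k := fun k => hPε k _ (hε0 k)
  have hcross : ∀ k k', k < k' → wt (F k) * volume (P k') ≤ (2⁻¹ : ℝ≥0∞) ^ k' := by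
    intro k k' hkk'
    have h1 : wt (F k) ≤ w k' := by
      refine le_trans ?_ (hwmono (Nat.succ_le_of_lt hkk'))
      rw [Nat.succ_eq_add_one, hws]
      exact le_add_self
    calc wt (F k) * volume (P k') ≤ w k' * ε k' := mul_le_mul' h1 (hPε' k')
      _ = (2⁻¹ : ℝ≥0∞) ^ k' := by
          rw [hεdef]
          exact ENNReal.mul_div_cancel (by
            have := hw1 k'
            intro h0
            rw [h0] at this
            exact absurd this (by norm_num)) (hwtop k')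
  set T₀ : Set W := ⋃ k, P k \ ⋃ k' : {k' // k < k'}, sat L (P k') with hT₀
  have hsatm : ∀ k, MeasurableSet (sat L (P k)) := fun k => measurableSet_sat h.countable (hPm' k)
  have hT₀m : MeasurableSet T₀ :=
    MeasurableSet.iUnion fun k => (hPm' k).diff (MeasurableSet.iUnion fun k' => hsatm k')
  have hT₀pk : Pk L T₀ := by
    intro x hx y hy hxy
    rw [hT₀, Set.mem_iUnion] at hx hy
    obtain ⟨i, hxP, hxn⟩ := hx
    obtain ⟨j, hyP, hyn⟩ := hy
    rcases lt_trichotomy i j with h1 | h1 | h1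
    · exfalso
      apply hxn
      rw [Set.mem_iUnion]
      exact ⟨⟨j, h1⟩, y - x, hxy, by rwa [add_sub_cancel]⟩
    · subst h1
      exact hPpk' i x hxP y hyP hxy
    · exfalso
      apply hyn
      rw [Set.mem_iUnion]
      exact ⟨⟨i, h1⟩, x - y, by
        have := L.neg_mem hxy
        rwa [neg_sub] at this, by rwa [add_sub_cancel]⟩
  have hgeo : ∑' k : ℕ, (2⁻¹ : ℝ≥0∞) ^ k = 2 := by
    rw [ENNReal.tsum_geometric, ENNReal.one_sub_inv_two, inv_inv]
  have hT₀v : volume T₀ ≤ 2 := by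
    calc volume T₀ ≤ ∑' k, volume (P k \ ⋃ k' : {k' // k < k'}, sat L (P k')) :=
          measure_iUnion_le _
      _ ≤ ∑' k : ℕ, (2⁻¹ : ℝ≥0∞) ^ k := by
          apply ENNReal.tsum_le_tsum
          intro k
          exact (measure_mono Set.sdiff_subset).trans ((hPε' k).trans (hεle k))
      _ = 2 := hgeo
  have hT₀Ω : T₀ ⊆ Ω := by
    intro y hy
    rw [hT₀, Set.mem_iUnion] at hy
    obtain ⟨k, hyP, -⟩ := hy
    obtain ⟨m, -, hm⟩ := hPK k _ (hε0 k) y hyP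
    exact (inv_set_zpow hΩC (m : ℤ) y).mp hm.1
  -- the unvisited sets
  set N : ℕ → Set W := fun k => K k \ {x | ∃ m ∈ F k, (C ^ (-(m : ℤ))) x ∈ T₀} with hN
  have hNv : ∀ k, volume (N k) ≤ 2 * (2⁻¹ : ℝ≥0∞) ^ k := by
    intro k
    have hcov : N k ⊆ (K k \ {x | ∃ m ∈ F k, (C ^ (-(m : ℤ))) x ∈ P k}) ∪
        ⋃ l : ℕ, ⋃ m ∈ F k, (C ^ (-(m : ℤ))) ⁻¹' (P k ∩ sat L (P (k + 1 + l))) := by
      rintro x ⟨hxK, hxn⟩
      rcases Classical.em (∃ m ∈ F k, (C ^ (-(m : ℤ))) x ∈ P k) with hx | hx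
      · right
        obtain ⟨m, hm, hmP⟩ := hx
        have h1 : (C ^ (-(m : ℤ))) x ∉ T₀ := fun hcon => hxn ⟨m, hm, hcon⟩
        rw [hT₀, Set.mem_iUnion] at h1
        push Not at h1
        have h2 := h1 k
        rw [Set.mem_sdiff, not_and, not_not] at h2
        have h3 := h2 hmP
        rw [Set.mem_iUnion] at h3
        obtain ⟨⟨k', hk'⟩, h4⟩ := h3
        rw [Set.mem_iUnion]
        refine ⟨k' - (k + 1), ?_⟩
        rw [Set.mem_iUnion₂]
        refine ⟨m, hm, hmP, ?_⟩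
        have h5 : k + 1 + (k' - (k + 1)) = k' := by
          have : k < k' := hk'
          omega
        rw [h5]
        exact h4
      · left
        exact ⟨hxK, hx⟩
    refine (measure_mono hcov).trans ((measure_union_le _ _).trans ?_)
    have h1 : volume (⋃ l : ℕ, ⋃ m ∈ F k, (C ^ (-(m : ℤ))) ⁻¹' (P k ∩ sat L (P (k + 1 + l))))
        ≤ (2⁻¹ : ℝ≥0∞) ^ k := by
      calc _ ≤ ∑' l : ℕ, volume (⋃ m ∈ F k, (C ^ (-(m : ℤ))) ⁻¹' (P k ∩ sat L (P (k + 1 + l)))) :=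
            measure_iUnion_le _
        _ ≤ ∑' l : ℕ, (2⁻¹ : ℝ≥0∞) ^ (k + 1 + l) := by
            apply ENNReal.tsum_le_tsum
            intro l
            refine (measure_biUnion_finset_le _ _).trans ?_
            refine le_trans ?_ (hcross k (k + 1 + l) (by omega))
            rw [hwt, Finset.sum_mul]
            apply Finset.sum_le_sum
            intro m _
            rw [volume_preimage_zpow C _ _ ((hPm' k).inter (hsatm _)), neg_neg]
            exact mul_le_mul' le_rfl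
              (volume_inter_sat_le h.countable (hPm' k) (hPm' (k + 1 + l)) (hPpk' k))
        _ = (2⁻¹ : ℝ≥0∞) ^ (k + 1) * 2 := by
            simp only [pow_add _ (k + 1)]
            rw [ENNReal.tsum_mul_left, hgeo]
        _ = (2⁻¹ : ℝ≥0∞) ^ k := by
            rw [pow_succ, mul_assoc, ENNReal.inv_mul_cancel (by norm_num) (by norm_num), mul_one]
    calc _ ≤ (2⁻¹ : ℝ≥0∞) ^ k + (2⁻¹ : ℝ≥0∞) ^ k :=
          add_le_add ((hunv k _ (hε0 k)).trans (hεle k)) h1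
      _ = 2 * (2⁻¹ : ℝ≥0∞) ^ k := by ring
  have hBC : ∀ᵐ x, ∀ᶠ k in atTop, x ∉ N k := by
    apply ae_eventually_notMem
    refine ne_top_of_le_ne_top ?_ (ENNReal.tsum_le_tsum hNv)
    rw [ENNReal.tsum_mul_left, hgeo]
    norm_num
  have hvis : ∀ᵐ x, x ∈ Ω → {m : ℕ | (C ^ (-(m : ℤ))) x ∈ T₀}.Infinite := by
    filter_upwards [hBC] with x hx hxΩ
    rw [Set.infinite_iff_exists_gt]
    intro a
    obtain ⟨k, hk1, hk2⟩ := (hx.and (eventually_ge_atTop (max (a + 1) ⌈‖x‖⌉₊))).exists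
    have h1 : x ∈ K k := by
      refine ⟨hxΩ, ?_⟩
      rw [mem_closedBall_zero_iff]
      exact (Nat.le_ceil _).trans (by exact_mod_cast (le_max_right _ _).trans hk2)
    have h2 : ∃ m ∈ F k, (C ^ (-(m : ℤ))) x ∈ T₀ := by
      by_contra hcon
      exact hk1 ⟨h1, hcon⟩
    obtain ⟨m, hm, hmT⟩ := h2
    refine ⟨m, hmT, ?_⟩
    have h3 := hFM k _ (hε0 k) m hm
    have h4 := (le_max_left (a + 1) ⌈‖x‖⌉₊).trans hk2
    omega
  -- completion
  obtain ⟨Q, hQsub, hQm, hQpk, hQcov⟩ := exists_sec h.countable hδ hsep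
    (Metric.isClosed_closedBall (x := x₀) (ε := ρ)).measurableSet
  refine ⟨T₀ ∪ (Q \ sat L T₀), ?_, ?_, ?_, ?_, ?_, ?_⟩
  · rintro x (hx | hx)
    · exact hT₀Ω hx
    · exact hball (hQsub hx.1)
  · exact hT₀m.union (hQm.diff (measurableSet_sat h.countable hT₀m))
  · rintro x (hx | hx) y (hy | hy) hxy
    · exact hT₀pk x hx y hy hxy
    · exfalso
      apply hy.2
      exact ⟨x - y, by
        have := L.neg_mem hxy
        rwa [neg_sub] at this, by rwa [add_sub_cancel]⟩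
    · exfalso
      apply hx.2
      exact ⟨y - x, hxy, by rwa [add_sub_cancel]⟩
    · exact hQpk x hx.1 y hy.1 hxy
  · intro x
    rcases Classical.em (x ∈ sat L T₀) with hx | hx
    · obtain ⟨v, hv, hvT⟩ := hx
      exact ⟨v, hv, Or.inl hvT⟩
    · obtain ⟨v, hv, hvb⟩ := hcoc x
      obtain ⟨u, hu, huQ⟩ := hQcov hvb
      refine ⟨v + u, L.add_mem hv hu, Or.inr ⟨by rwa [← add_assoc], ?_⟩⟩
      rwa [sat_add (L.add_mem hv hu)]
  · refine ((measure_union_le _ _).trans_lt ?_).ne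
    apply ENNReal.add_lt_top.mpr ⟨hT₀v.trans_lt (by norm_num), ?_⟩
    exact (measure_mono (Set.sdiff_subset.trans hQsub)).trans_lt measure_closedBall_lt_top
  · filter_upwards [hvis] with x hx hxΩ
    exact (hx hxΩ).mono fun m hm => Or.inl hm

/-- a set of finite volume is visited finitely often in the forward direction -/
theorem ae_finite_forward (hC : 1 < adet C) {T : Set W} (hT : MeasurableSet T)
    (hTv : volume T ≠ ⊤) : ∀ᵐ x, ∀ᶠ m : ℕ in atTop, (C ^ (m : ℤ)) x ∉ T := by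
  have h1 : ∀ᵐ x, ∀ᶠ m : ℕ in atTop, x ∉ (C ^ (m : ℤ)) ⁻¹' T := by
    apply ae_eventually_notMem
    have h2 : ∀ m : ℕ, volume ((C ^ (m : ℤ)) ⁻¹' T)
        = (ENNReal.ofReal (adet C)⁻¹) ^ m * volume T := by
      intro m
      rw [volume_preimage_zpow C _ _ hT, zpow_neg, zpow_natCast, ← inv_pow,
        ENNReal.ofReal_pow (inv_nonneg.mpr (adet_pos C).le)]
    simp only [h2]
    rw [ENNReal.tsum_mul_right, ENNReal.tsum_geometric]
    apply ENNReal.mul_ne_top _ hTv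
    apply ENNReal.inv_ne_top.mpr
    rw [← pos_iff_ne_zero, tsub_pos_iff_lt, ENNReal.ofReal_lt_one]
    exact inv_lt_one_of_one_lt₀ hC
  exact h1

end Pool.Agent.Lib_helper44
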