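import Mathlib
import Pool.Agent.Lib_helper44.BS3

open MeasureTheory Filter Topology Complex Module
open scoped ENNReal NNReal ComplexConjugate InnerProductSpace

set_option linter.unusedSectionVars false

namespace Pool.Agent.Lib_helper44

/-- construction of sequences by strong recursion -/
theorem exists_seq_rel {α : Type*} [Inhabited α] (Rel : ℕ → (ℕ → α) → α → Prop)
    (hdep : ∀ j f g a, (∀ i < j, f i = g i) → Rel j f a → Rel j g a)
    (hstep : ∀ j f, (∀ i < j, Rel i f (f i)) → ∃ a, Rel j f a) : ∃ f, ∀ j, Rel j f (f j) := by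
  classical
  let F : (n : ℕ) → {f : ℕ → α // ∀ i < n, Rel i f (f i)} := fun n => Nat.rec
    ⟨fun _ => default, fun i hi => absurd hi (Nat.not_lt_zero i)⟩
    (fun n f => ⟨Function.update f.1 n (hstep n f.1 f.2).choose, by
      intro i hi
      have hupd : ∀ k < n, Function.update f.1 n (hstep n f.1 f.2).choose k = f.1 k := by
        intro k hk
        rw [Function.update_of_ne hk.ne]
      rcases Nat.lt_succ_iff_lt_or_eq.mp hi with h | rfl
      · rw [hupd i h]
        exact hdep i f.1 _ _ (fun k hk => (hupd k (hk.trans h)).symm) (f.2 i h)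
      · rw [Function.update_self]
        exact hdep i f.1 _ _ (fun k hk => (hupd k hk).symm) (hstep i f.1 f.2).choose_spec⟩) n
  have hF : ∀ n i, i < n → (F (n + 1)).1 i = (F n).1 i := by
    intro n i hi
    change Function.update (F n).1 n _ i = _
    rw [Function.update_of_ne hi.ne]
  have hF2 : ∀ n m i, i < n → n ≤ m → (F m).1 i = (F n).1 i := by
    intro n m i hi hnm
    induction hnm with
    | refl => rfl
    | step hm ih => rw [hF _ i (lt_of_lt_of_le hi hm), ih]
  refine ⟨fun n => (F (n + 1)).1 n, fun j => ?_⟩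
  have h1 := (F (j + 1)).2 j (Nat.lt_succ_self j)
  refine hdep j _ _ _ (fun i hi => ?_) h1
  exact hF2 (i + 1) (j + 1) i (Nat.lt_succ_self i) (by omega)

section general

variable {α : Type*} {mα : MeasurableSpace α} {μ : Measure α}

/-- projection onto an orthogonal complement -/
theorem exists_proj {𝒢 : Set (α → ℂ)} (h𝒢 : ∀ g ∈ 𝒢, MemLp g 2 μ) {f : α → ℂ}
    (hf : MemLp f 2 μ) : ∃ f' : α → ℂ, MemLp f' 2 μ ∧ (∀ g ∈ 𝒢, ∫ x, conj (g x) * f' x ∂μ = 0) ∧
      ∀ h : α → ℂ, MemLp h 2 μ → (∀ g ∈ 𝒢, ∫ x, conj (g x) * h x ∂μ = 0) →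
        ∫ x, conj (h x) * (f x - f' x) ∂μ = 0 := by
  classical
  let v : 𝒢 → Lp ℂ 2 μ := fun g => (h𝒢 g g.2).toLp g
  let S : Submodule ℂ (Lp ℂ 2 μ) := Submodule.span ℂ (Set.range v)
  have hmem : ∀ (h : α → ℂ) (hh : MemLp h 2 μ), (∀ g ∈ 𝒢, ∫ x, conj (g x) * h x ∂μ = 0) →
      hh.toLp h ∈ Sᗮ := by
    intro h hh H
    rw [Submodule.mem_orthogonal]
    intro s hs
    induction hs using Submodule.span_induction with
    | mem s hs =>
      obtain ⟨g, rfl⟩ := hs
      rw [inner_toLp_eq]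
      exact H g g.2
    | zero => exact inner_zero_left _
    | add a b _ _ ha hb => rw [inner_add_left, ha, hb, add_zero]
    | smul c a _ ha => rw [inner_smul_left, ha, mul_zero]
  set F : Lp ℂ 2 μ := hf.toLp f with hF
  set F' : Lp ℂ 2 μ := Sᗮ.starProjection F with hF'
  have hF'mem : F' ∈ Sᗮ := Submodule.starProjection_apply_mem _ _
  refine ⟨F', Lp.memLp F', ?_, ?_⟩
  · intro g hg
    have h1 := (Submodule.mem_orthogonal S F').mp hF'mem (v ⟨g, hg⟩)
      (Submodule.subset_span ⟨⟨g, hg⟩, rfl⟩)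
    rw [inner_Lp_eq] at h1
    rw [← h1]
    apply integral_congr_ae
    filter_upwards [(h𝒢 g hg).coeFn_toLp] with x hx
    change _ = conj ((h𝒢 g hg).toLp g x) * F' x
    rw [hx]
  · intro h hh H
    have h1 := hmem h hh H
    have h2 : F - F' ∈ Sᗮᗮ := Submodule.sub_starProjection_mem_orthogonal F
    have h3 := (Submodule.mem_orthogonal Sᗮ (F - F')).mp h2 _ h1
    rw [inner_Lp_eq] at h3
    rw [← h3]
    apply integral_congr_ae
    filter_upwards [hh.coeFn_toLp, Lp.coeFn_sub F F', hf.coeFn_toLp] with x hx1 hx2 hx3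
    rw [hx1, hx2, Pi.sub_apply, hF, hx3]

/-- energy on a set -/
noncomputable def esq (μ : Measure α) (S : Set α) (f : α → ℂ) : ℝ≥0∞ := ∫⁻ x in S, ‖f x‖ₑ ^ 2 ∂μ

theorem esq_mono {S S' : Set α} (h : S ⊆ S') (f : α → ℂ) : esq μ S f ≤ esq μ S' f :=
  lintegral_mono_set h

theorem esq_eq_ofReal {f : α → ℂ} (hf : MemLp f 2 μ) (S : Set α) :
    esq μ S f = ENNReal.ofReal (∫ x in S, ‖f x‖ ^ 2 ∂μ) := by
  unfold esq
  rw [ofReal_integral_eq_lintegral_ofReal ((hf.integrable_norm_pow two_ne_zero).integrableOn)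
    (Eventually.of_forall fun x => by positivity)]
  congr 1
  ext x
  rw [enorm_sq_eq]

theorem esq_ne_top {f : α → ℂ} (hf : MemLp f 2 μ) (S : Set α) : esq μ S f ≠ ⊤ := by
  rw [esq_eq_ofReal hf]
  exact ENNReal.ofReal_ne_top

/-- Pythagoras -/
theorem esq_pyth {f f' : α → ℂ} (hf : MemLp f 2 μ) (hf' : MemLp f' 2 μ) {S : Set α}
    (h : ∫ x in S, conj (f' x) * (f x - f' x) ∂μ = 0) :
    esq μ S f = esq μ S f' + esq μ S (fun x => f x - f' x) := by
  have hd : MemLp (fun x => f x - f' x) 2 μ := hf.sub hf'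
  rw [esq_eq_ofReal hf, esq_eq_ofReal hf', esq_eq_ofReal hd,
    ← ENNReal.ofReal_add (by positivity) (by positivity)]
  congr 1
  have hi1 : Integrable (fun x => ‖f' x‖ ^ 2) (μ.restrict S) :=
    (hf'.integrable_norm_pow two_ne_zero).integrableOn
  have hi2 : Integrable (fun x => ‖f x - f' x‖ ^ 2) (μ.restrict S) :=
    (hd.integrable_norm_pow two_ne_zero).integrableOn
  have hi3 : Integrable (fun x => conj (f' x) * (f x - f' x)) (μ.restrict S) :=
    (integrable_conj_mul hf' hd).integrableOn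
  have h1 : ∫ x in S, (conj (f' x) * (f x - f' x)).re ∂μ = 0 := by
    have h2 : ∫ x in S, RCLike.re (conj (f' x) * (f x - f' x)) ∂μ
        = RCLike.re (∫ x in S, conj (f' x) * (f x - f' x) ∂μ) := integral_re hi3
    rw [h] at h2
    simpa using h2
  have hi4 : Integrable (fun x => (conj (f' x) * (f x - f' x)).re) (μ.restrict S) := hi3.re
  rw [← integral_add hi1 hi2]
  have h2 : ∀ x, ‖f x‖ ^ 2 = (‖f' x‖ ^ 2 + ‖f x - f' x‖ ^ 2)
      + 2 * (conj (f' x) * (f x - f' x)).re := by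
    intro x
    have : f x = f' x + (f x - f' x) := by ring
    generalize f x - f' x = d at this ⊢
    rw [this, ← Complex.normSq_eq_norm_sq, ← Complex.normSq_eq_norm_sq,
      ← Complex.normSq_eq_norm_sq, Complex.normSq_add]
    congr 1
    congr 1
    rw [← Complex.conj_re (f' x * conj d), map_mul, Complex.conj_conj]
  have hi12 : Integrable (fun x => ‖f' x‖ ^ 2 + ‖f x - f' x‖ ^ 2) (μ.restrict S) := hi1.add hi2
  simp only [h2]
  rw [integral_add hi12 (hi4.const_mul 2), integral_const_mul, h1, mul_zero, add_zero]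

/-- vanishing on a family of sets passes to integrals against functions -/
theorem integral_mul_eq_zero_of_sets {Θ : α → ℂ} (hΘ : Integrable Θ μ) {𝒵 : Set α → Prop}
    (h : ∀ Z, MeasurableSet Z → 𝒵 Z → ∫ x in Z, Θ x ∂μ = 0) {m : α → ℂ} (hm : Measurable m)
    (hZ : ∀ S : Set ℂ, MeasurableSet S → 𝒵 (m ⁻¹' S)) (hmΘ : Integrable (fun x => m x * Θ x) μ) :
    ∫ x, m x * Θ x ∂μ = 0 := by
  have hint : ∀ σ : SimpleFunc ℂ ℂ, Integrable (fun x => σ (m x) * Θ x) μ := by
    intro σ
    obtain ⟨D, hD⟩ := σ.exists_forall_norm_le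
    exact hΘ.bdd_mul (c := D) ((σ.measurable.comp hm).aestronglyMeasurable)
      (Eventually.of_forall fun x => hD (m x))
  have h1 : ∀ σ : SimpleFunc ℂ ℂ, ∫ x, σ (m x) * Θ x ∂μ = 0 := by
    intro σ
    induction σ using SimpleFunc.induction with
    | @const c s hs =>
      have e : ∀ x, (SimpleFunc.piecewise s hs (SimpleFunc.const ℂ c) (SimpleFunc.const ℂ 0)) (m x)
          * Θ x = (m ⁻¹' s).indicator (fun x => c * Θ x) x := by
        intro x
        by_cases hx : m x ∈ s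
        · rw [Set.indicator_of_mem (by exact hx)]
          simp [hx]
        · rw [Set.indicator_of_notMem (by exact hx)]
          simp [hx]
      simp only [e]
      rw [integral_indicator (hm hs), integral_const_mul, h _ (hm hs) (hZ s hs), mul_zero]
    | @add f g hd hf hg =>
      simp only [SimpleFunc.coe_add, Pi.add_apply, add_mul]
      rw [integral_add (hint f) (hint g), hf, hg, add_zero]
  let σ : ℕ → SimpleFunc ℂ ℂ := SimpleFunc.approxOn id measurable_id Set.univ 0 trivial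
  have hlim : Tendsto (fun n => ∫ x, σ n (m x) * Θ x ∂μ) atTop (𝓝 (∫ x, m x * Θ x ∂μ)) := by
    apply tendsto_integral_of_dominated_convergence (fun x => 2 * ‖m x * Θ x‖)
    · intro n
      exact (hint (σ n)).1
    · exact hmΘ.norm.const_mul _
    · intro n
      filter_upwards with x
      rw [norm_mul, norm_mul, ← mul_assoc]
      gcongr
      have := SimpleFunc.norm_approxOn_zero_le (f := (id : ℂ → ℂ)) measurable_id
        (s := Set.univ) trivial (m x) n
      refine this.trans ?_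
      simp only [id]
      linarith
    · filter_upwards with x
      apply Tendsto.mul_const
      exact SimpleFunc.tendsto_approxOn (f := (id : ℂ → ℂ)) measurable_id
        (s := Set.univ) (y₀ := 0) trivial (by simp)
  simp only [h1] at hlim
  exact (tendsto_nhds_unique hlim tendsto_const_nhds)

end general

variable {E : Type*} [NormedAddCommGroup E] [InnerProductSpace ℝ E] [FiniteDimensional ℝ E]
  [MeasurableSpace E] [BorelSpace E]

/-- sets invariant under a subgroup -/
def Inv (N : AddSubgroup E) (Z : Set E) : Prop := ∀ x, ∀ v ∈ N, x + v ∈ Z ↔ x ∈ Z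

theorem Inv.inter {N : AddSubgroup E} {Z Z' : Set E} (h : Inv N Z) (h' : Inv N Z') :
    Inv N (Z ∩ Z') := fun x v hv => and_congr (h x v hv) (h' x v hv)

theorem Inv.mono {N N' : AddSubgroup E} (hN : N ≤ N') {Z : Set E} (h : Inv N' Z) : Inv N Z :=
  fun x v hv => h x v (hN hv)

theorem Inv.preimage {N : AddSubgroup E} {β : Type*} {m : E → β}
    (hm : ∀ x, ∀ v ∈ N, m (x + v) = m x) (S : Set β) : Inv N (m ⁻¹' S) := by
  intro x v hv
  rw [Set.mem_preimage, Set.mem_preimage, hm x v hv]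

theorem Inv.univ (N : AddSubgroup E) : Inv N (Set.univ : Set E) := fun _ _ _ => Iff.rfl

/-- orbit sums of squares -/
noncomputable def on2 (N : AddSubgroup E) (f : E → ℂ) (x : E) : ℝ≥0∞ :=
  ∑' v : N, ‖f (x + v)‖ₑ ^ 2

theorem on2_add (N : AddSubgroup E) (f : E → ℂ) (x : E) {v : E} (hv : v ∈ N) :
    on2 N f (x + v) = on2 N f x := by
  unfold on2
  rw [← (Equiv.addLeft (⟨v, hv⟩ : N)).tsum_eq (fun w : N => ‖f (x + w)‖ₑ ^ 2)]
  congr 1
  ext w
  change ‖f (x + v + w)‖ₑ ^ 2 = ‖f (x + (v + w))‖ₑ ^ 2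
  rw [add_assoc]

theorem measurable_on2 {N : AddSubgroup E} (hN : (N : Set E).Countable) {f : E → ℂ}
    (hf : Measurable f) : Measurable (on2 N f) := by
  have : Countable N := hN.to_subtype
  unfold on2
  exact Measurable.tsum fun v => (hf.comp (measurable_add_const (v : E))).enorm.pow_const 2

theorem le_on2 (N : AddSubgroup E) (f : E → ℂ) (x : E) : ‖f x‖ₑ ^ 2 ≤ on2 N f x := by
  have h1 := ENNReal.le_tsum (f := fun v : N => ‖f (x + v)‖ₑ ^ 2) 0
  unfold on2
  simpa using h1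

/-- unfolding -/
theorem esq_unfold {N : AddSubgroup E} (hN : (N : Set E).Countable) {D : Set E}
    (hD : IsAddFundamentalDomain N D (volume : Measure E)) {f : E → ℂ} (hf : Measurable f) :
    ∫⁻ x, ‖f x‖ₑ ^ 2 = ∫⁻ x in D, on2 N f x := by
  have : Countable N := hN.to_subtype
  rw [hD.lintegral_eq_tsum'' (fun x => ‖f x‖ₑ ^ 2)]
  unfold on2
  rw [lintegral_tsum (f := fun (v : N) (x : E) => ‖f (x + v)‖ₑ ^ 2)
    (fun v => ((hf.comp (measurable_add_const (v : E))).enorm.pow_const 2).aemeasurable)]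
  congr 1
  ext v
  apply lintegral_congr
  intro x
  change ‖f ((v : E) + x)‖ₑ ^ 2 = _
  rw [add_comm]

/-- invariant a.e. properties -/
theorem ae_of_ae_restrict_inv {N : AddSubgroup E} (hN : (N : Set E).Countable) {D : Set E}
    (hD : IsAddFundamentalDomain N D (volume : Measure E)) {p : E → Prop}
    (hp : ∀ x, ∀ v ∈ N, p (x + v) ↔ p x) (h : ∀ᵐ x ∂(volume.restrict D), p x) : ∀ᵐ x, p x := by
  have : Countable N := hN.to_subtype
  have h1 : volume ({x | ¬ p x} ∩ D) = 0 := by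
    have h2 : (volume.restrict D) {x | ¬ p x} = 0 := h
    exact le_antisymm ((Measure.le_restrict_apply _ _).trans h2.le) zero_le
  rw [ae_iff]
  have h3 := hD.ae_covers
  have h4 : {x | ¬ p x} ⊆ {x | ¬ ∃ g : N, g +ᵥ x ∈ D} ∪
      ⋃ g : N, (fun x => x + (g : E)) ⁻¹' ({x | ¬ p x} ∩ D) := by
    intro x hx
    rcases Classical.em (∃ g : N, g +ᵥ x ∈ D) with ⟨g, hg⟩ | hg
    · right
      rw [Set.mem_iUnion]
      refine ⟨g, ?_, ?_⟩
      · change ¬ p (x + g)
        rw [hp x g g.2]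
        exact hx
      · change x + (g : E) ∈ D
        rw [add_comm]
        exact hg
    · left
      exact hg
  refine measure_mono_null h4 (measure_union_null ?_ (measure_iUnion_null fun g => ?_))
  · rwa [ae_iff] at h3
  · rw [measure_preimage_add_right]
    exact h1

theorem on2_lt_top {N : AddSubgroup E} (hN : (N : Set E).Countable) {D : Set E}
    (hD : IsAddFundamentalDomain N D (volume : Measure E)) {f : E → ℂ} (hf : Measurable f)
    (hfin : ∫⁻ x, ‖f x‖ₑ ^ 2 ≠ ⊤) : ∀ᵐ x, on2 N f x < ⊤ := by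
  apply ae_of_ae_restrict_inv hN hD
  · intro x v hv
    rw [on2_add N f x hv]
  · rw [esq_unfold hN hD hf] at hfin
    exact ae_lt_top (measurable_on2 hN hf) hfin

/-- the normaliser -/
noncomputable def nz (t : ℝ≥0∞) : ℝ := (Real.sqrt t.toReal)⁻¹

theorem nz_nonneg (t : ℝ≥0∞) : 0 ≤ nz t := inv_nonneg.mpr (Real.sqrt_nonneg _)

theorem measurable_nz : Measurable nz :=
  (Real.continuous_sqrt.measurable.comp ENNReal.measurable_toReal).inv

theorem nz_sq {t : ℝ≥0∞} (h0 : t ≠ 0) (ht : t ≠ ⊤) : ‖((nz t : ℝ) : ℂ)‖ₑ ^ 2 * t = 1 := by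
  have hpos : 0 < t.toReal := ENNReal.toReal_pos h0 ht
  rw [enorm_sq_eq, Complex.norm_real, Real.norm_of_nonneg (nz_nonneg t)]
  unfold nz
  rw [inv_pow, Real.sq_sqrt hpos.le, ENNReal.ofReal_inv_of_pos hpos, ENNReal.ofReal_toReal ht,
    ENNReal.inv_mul_cancel h0 ht]

theorem nz_sq_le (t : ℝ≥0∞) : ‖((nz t : ℝ) : ℂ)‖ₑ ^ 2 * t ≤ 1 := by
  rcases eq_or_ne t 0 with rfl | h0
  · simp
  · rcases eq_or_ne t ⊤ with rfl | ht
    · have : nz ⊤ = 0 := by simp [nz]
      rw [this]
      simp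
    · rw [nz_sq h0 ht]

theorem nz_ne_zero {t : ℝ≥0∞} (h0 : t ≠ 0) (ht : t ≠ ⊤) : nz t ≠ 0 := by
  have hpos : 0 < t.toReal := ENNReal.toReal_pos h0 ht
  exact inv_ne_zero (Real.sqrt_pos.mpr hpos).ne'

end Pool.Agent.Lib_helper44
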