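import Mathlib
import Pool.Agent.Lib_helper44.Stage1

open MeasureTheory Filter Topology Complex Module
open scoped ENNReal NNReal ComplexConjugate InnerProductSpace

set_option linter.unusedSectionVars false

namespace Pool.Agent.Lib_helper44

variable {E : Type*} [NormedAddCommGroup E] [InnerProductSpace ℝ E] [FiniteDimensional ℝ E]
  [MeasurableSpace E] [BorelSpace E]

/-- the data of the staged construction -/
structure StageData (E : Type*) [NormedAddCommGroup E] [InnerProductSpace ℝ E]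
    [FiniteDimensional ℝ E] [MeasurableSpace E] [BorelSpace E] where
  N : ℕ → AddSubgroup E
  X' : Set E
  A : ℕ → Set E
  X : ℕ → Set E
  ti : ℕ → E → ℕ
  κ : ℕ
  Y : ℕ → Fin κ → Set E
  Rm : ℕ → Set E
  tgt : ℕ → E → ℂ
  hNmono : Monotone N
  hNc : ∀ j, (N j : Set E).Countable
  hFD : ∀ j, ∃ D, IsAddFundamentalDomain (N j) D (volume : Measure E) ∧ volume (D ∩ X j) ≠ ⊤
  hX'm : MeasurableSet X'
  hAm : ∀ j, MeasurableSet (A j)
  hXm : ∀ j, MeasurableSet (X j)
  htim : ∀ j, Measurable (ti j)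
  hYm : ∀ j a, MeasurableSet (Y j a)
  hRm : ∀ j, MeasurableSet (Rm j)
  hXinv : ∀ i j, Inv (N i) (X j)
  htiinv : ∀ i j x, ∀ v ∈ N i, ti j (x + v) = ti j x
  hYinv : ∀ j a, Inv (N j) (Y j a)
  hYcov : ∀ j x, ∃ a, x ∈ Y j a
  hκ : 0 < κ
  hAmono : Monotone A
  hRsub : ∀ j, Rm j ⊆ X' ∩ A j
  hRdisj : ∀ i j, i < j → ∀ x ∈ Rm j, x ∉ A i
  hRcov : ∀ j, ∀ x ∈ X j, ∃ v ∈ N j, x + v ∈ Rm j
  htgt : ∀ t, MemLp (tgt t) 2 (volume : Measure E)

variable (S : StageData E)

/-- the orthogonality conditions before stage `j` -/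
def InK (G : ℕ → E → ℂ) (j : ℕ) (h : E → ℂ) : Prop :=
  Measurable h ∧ MemLp h 2 (volume : Measure E) ∧ (∀ x, x ∉ S.X' → h x = 0) ∧
    ∀ i < j, ∀ Z, MeasurableSet Z → Inv (S.N i) Z → ∫ x in Z, conj (G i x) * h x = 0

/-- `f'` is the projection of `f` -/
def IsProj (G : ℕ → E → ℂ) (j : ℕ) (f f' : E → ℂ) : Prop :=
  InK S G j f' ∧ ∀ h, InK S G j h → ∫ x, conj (h x) * (f x - f' x) = 0

variable {S}

theorem InK.congr {G G' : ℕ → E → ℂ} {j : ℕ} {h : E → ℂ} (hG : ∀ i < j, G i = G' i)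
    (hh : InK S G j h) : InK S G' j h := by
  refine ⟨hh.1, hh.2.1, hh.2.2.1, fun i hi Z hZ hZi => ?_⟩
  rw [← hG i hi]
  exact hh.2.2.2 i hi Z hZ hZi

theorem IsProj.congr {G G' : ℕ → E → ℂ} {j : ℕ} {f f' : E → ℂ} (hG : ∀ i < j, G i = G' i)
    (hh : IsProj S G j f f') : IsProj S G' j f f' :=
  ⟨hh.1.congr hG, fun h hk => hh.2 h (hk.congr fun i hi => (hG i hi).symm)⟩

theorem InK.mono {G : ℕ → E → ℂ} {i j : ℕ} (hij : i ≤ j) {h : E → ℂ} (hh : InK S G j h) :
    InK S G i h :=
  ⟨hh.1, hh.2.1, hh.2.2.1, fun k hk => hh.2.2.2 k (lt_of_lt_of_le hk hij)⟩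

/-- restriction to admissible sets -/
theorem InK.indicator {G : ℕ → E → ℂ} {j : ℕ} {h : E → ℂ} (hh : InK S G j h) {Z : Set E}
    (hZ : MeasurableSet Z) (hZi : ∀ i < j, Inv (S.N i) Z) : InK S G j (Z.indicator h) := by
  refine ⟨hh.1.indicator hZ, hh.2.1.indicator hZ, fun x hx => ?_, fun i hi Z' hZ' hZ'i => ?_⟩
  · by_cases hxZ : x ∈ Z
    · rw [Set.indicator_of_mem hxZ, hh.2.2.1 x hx]
    · rw [Set.indicator_of_notMem hxZ]
  · have h1 : ∀ x, conj (G i x) * Z.indicator h x = Z.indicator (fun x => conj (G i x) * h x) x := by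
      intro x
      by_cases hxZ : x ∈ Z
      · rw [Set.indicator_of_mem hxZ, Set.indicator_of_mem hxZ]
      · rw [Set.indicator_of_notMem hxZ, Set.indicator_of_notMem hxZ, mul_zero]
    simp only [h1]
    rw [integral_indicator hZ, Measure.restrict_restrict hZ]
    exact hh.2.2.2 i hi _ (hZ.inter hZ') ((hZi i hi).inter hZ'i)

/-- restriction to sets off which all previous functions vanish, or on which they vanish -/
theorem InK.indicator' {G : ℕ → E → ℂ} {j : ℕ} {h : E → ℂ} (hh : InK S G j h) {Z : Set E}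
    (hZ : MeasurableSet Z) (hGZ : ∀ i < j, ∀ x ∈ Z, G i x = 0) : InK S G j (Z.indicator h) := by
  refine ⟨hh.1.indicator hZ, hh.2.1.indicator hZ, fun x hx => ?_, fun i hi Z' hZ' hZ'i => ?_⟩
  · by_cases hxZ : x ∈ Z
    · rw [Set.indicator_of_mem hxZ, hh.2.2.1 x hx]
    · rw [Set.indicator_of_notMem hxZ]
  · have h1 : ∀ x, conj (G i x) * Z.indicator h x = 0 := by
      intro x
      by_cases hxZ : x ∈ Z
      · rw [hGZ i hi x hxZ, map_zero, zero_mul]
      · rw [Set.indicator_of_notMem hxZ, mul_zero]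
    simp only [h1, integral_zero]

theorem InK.sub {G : ℕ → E → ℂ} (hG : ∀ i, MemLp (G i) 2 (volume : Measure E)) {j : ℕ}
    {h h' : E → ℂ} (hh : InK S G j h) (hh' : InK S G j h') : InK S G j (fun x => h x - h' x) := by
  refine ⟨hh.1.sub hh'.1, hh.2.1.sub hh'.2.1, fun x hx => ?_, fun i hi Z hZ hZi => ?_⟩
  · show h x - h' x = 0
    rw [hh.2.2.1 x hx, hh'.2.2.1 x hx, sub_zero]
  · have h1 : ∀ x, conj (G i x) * (h x - h' x) = conj (G i x) * h x - conj (G i x) * h' x := by
      intro x; ring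
    simp only [h1]
    rw [integral_sub (integrable_conj_mul (hG i) hh.2.1).integrableOn
      (integrable_conj_mul (hG i) hh'.2.1).integrableOn, hh.2.2.2 i hi Z hZ hZi,
      hh'.2.2.2 i hi Z hZ hZi, sub_zero]

theorem exists_isProj (S : StageData E) {G : ℕ → E → ℂ} {j : ℕ}
    (hG : ∀ i < j, MemLp (G i) 2 (volume : Measure E)) {f : E → ℂ}
    (hf : MemLp f 2 (volume : Measure E)) : ∃ f', IsProj S G j f f' := by
  classical
  set 𝒢 : Set (E → ℂ) := {g | ∃ i < j, ∃ Z, MeasurableSet Z ∧ Inv (S.N i) Z ∧ g = Z.indicator (G i)} ∪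
    {g | MemLp g 2 (volume : Measure E) ∧ ∀ x ∈ S.X', g x = 0} with h𝒢
  have h𝒢m : ∀ g ∈ 𝒢, MemLp g 2 (volume : Measure E) := by
    rintro g (⟨i, hi, Z, hZ, -, rfl⟩ | ⟨hg, -⟩)
    · exact (hG i hi).indicator hZ
    · exact hg
  obtain ⟨f0, hf0, hf0o, hf0p⟩ := exists_proj h𝒢m hf
  obtain ⟨f1, hf1m, hf01⟩ : ∃ f1 : E → ℂ, Measurable f1 ∧ f0 =ᵐ[volume] f1 :=
    ⟨hf0.1.mk f0, hf0.1.stronglyMeasurable_mk.measurable, hf0.1.ae_eq_mk⟩
  have hind : ∀ (Z : Set E) (g h : E → ℂ) (x : E), conj (Z.indicator g x) * h x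
      = Z.indicator (fun x => conj (g x) * h x) x := by
    intro Z g h x
    by_cases hxZ : x ∈ Z
    · rw [Set.indicator_of_mem hxZ, Set.indicator_of_mem hxZ]
    · rw [Set.indicator_of_notMem hxZ, Set.indicator_of_notMem hxZ, map_zero, zero_mul]
  have hoff : ∀ᵐ x, x ∉ S.X' → f0 x = 0 := by
    have h1 := hf0o (S.X'ᶜ.indicator f0) (Or.inr ⟨hf0.indicator S.hX'm.compl, fun x hx =>
      Set.indicator_of_notMem (by simpa using hx) _⟩)
    simp only [hind] at h1
    rw [integral_indicator S.hX'm.compl] at h1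
    have h2 : esq volume S.X'ᶜ f0 = 0 := by
      rw [esq_eq_ofReal hf0]
      have h3 : ∫ x in S.X'ᶜ, conj (f0 x) * f0 x = ((∫ x in S.X'ᶜ, ‖f0 x‖ ^ 2 : ℝ) : ℂ) := by
        rw [← integral_complex_ofReal]
        congr 1
        ext x
        rw [Complex.conj_mul']
        push_cast
        rfl
      rw [h3] at h1
      have h4 : ∫ x in S.X'ᶜ, ‖f0 x‖ ^ 2 = 0 := by exact_mod_cast h1
      rw [h4, ENNReal.ofReal_zero]
    unfold esq at h2
    rw [lintegral_eq_zero_iff' ((hf0.1.enorm.pow_const 2).restrict)] at h2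
    rw [Filter.EventuallyEq, ae_restrict_iff' S.hX'm.compl] at h2
    filter_upwards [h2] with x hx hxX
    have := hx hxX
    simpa using this
  have hae : S.X'.indicator f1 =ᵐ[volume] f0 := by
    filter_upwards [hoff, hf01] with x hx1 hx2
    by_cases hxX : x ∈ S.X'
    · rw [Set.indicator_of_mem hxX, hx2]
    · rw [Set.indicator_of_notMem hxX, hx1 hxX]
  refine ⟨S.X'.indicator f1, ⟨hf1m.indicator S.hX'm, (memLp_congr_ae hae).mpr hf0,
    fun x hx => Set.indicator_of_notMem hx _, fun i hi Z hZ hZi => ?_⟩, fun h hh => ?_⟩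
  · have h1 := hf0o (Z.indicator (G i)) (Or.inl ⟨i, hi, Z, hZ, hZi, rfl⟩)
    simp only [hind] at h1
    rw [integral_indicator hZ] at h1
    rw [← h1]
    apply integral_congr_ae
    filter_upwards [ae_restrict_of_ae hae] with x hx
    rw [hx]
  · have h1 := hf0p h hh.2.1 (by
      rintro g (⟨i, hi, Z, hZ, hZi, rfl⟩ | ⟨hg, hg0⟩)
      · simp only [hind]
        rw [integral_indicator hZ]
        exact hh.2.2.2 i hi Z hZ hZi
      · have h2 : ∀ x, conj (g x) * h x = 0 := by
          intro x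
          by_cases hxX : x ∈ S.X'
          · rw [hg0 x hxX, map_zero, zero_mul]
          · rw [hh.2.2.1 x hxX, mul_zero]
        simp only [h2, integral_zero])
    rw [← h1]
    apply integral_congr_ae
    filter_upwards [hae] with x hx
    rw [hx]

theorem IsProj.sub {G : ℕ → E → ℂ} (hG : ∀ i, MemLp (G i) 2 (volume : Measure E)) {j : ℕ}
    {f f' g : E → ℂ} (hp : IsProj S G j f f') (hg : InK S G j g) :
    IsProj S G j (fun x => f x - g x) (fun x => f' x - g x) := by
  refine ⟨hp.1.sub hG hg, fun h hh => ?_⟩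
  have h1 := hp.2 h hh
  rw [← h1]
  congr 1
  ext x
  ring

/-- energies of projections on admissible sets -/
theorem IsProj.esq_le {G : ℕ → E → ℂ} {j : ℕ} {f f' : E → ℂ} (hf : MemLp f 2 (volume : Measure E))
    (hp : IsProj S G j f f') {Z : Set E} (hZ : MeasurableSet Z) (hZi : ∀ i < j, Inv (S.N i) Z) :
    esq volume Z f' ≤ esq volume Z f := by
  have h1 := hp.2 _ (hp.1.indicator hZ hZi)
  have h2 : ∀ x, conj (Z.indicator f' x) * (f x - f' x)
      = Z.indicator (fun x => conj (f' x) * (f x - f' x)) x := by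
    intro x
    by_cases hxZ : x ∈ Z
    · rw [Set.indicator_of_mem hxZ, Set.indicator_of_mem hxZ]
    · rw [Set.indicator_of_notMem hxZ, Set.indicator_of_notMem hxZ, map_zero, zero_mul]
  simp only [h2] at h1
  rw [integral_indicator hZ] at h1
  rw [esq_pyth hf hp.1.2.1 h1]
  exact le_self_add

theorem esq_add_compl (f : E → ℂ) {Z : Set E} (hZ : MeasurableSet Z) :
    esq volume Z f + esq volume Zᶜ f = esq volume Set.univ f := by
  unfold esq
  rw [setLIntegral_univ, lintegral_add_compl _ hZ]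

/-- the energy captured at one stage -/
theorem IsProj.capture {G : ℕ → E → ℂ} {j : ℕ} {f p p' : E → ℂ}
    (hf : MemLp f 2 (volume : Measure E)) (hp : IsProj S G j f p)
    (hp' : IsProj S G (j + 1) f p') {Z : Set E} (hZ : MeasurableSet Z)
    (hcap : ∫ x in Z, conj (p x) * p' x = 0) :
    esq volume Set.univ p' + esq volume Z p ≤ esq volume Set.univ p := by
  have h1 : ∫ x, conj (p' x) * (p x - p' x) = 0 := by
    have e1 := hp'.2 p' hp'.1
    have e2 := hp.2 p' (hp'.1.mono (Nat.le_succ j))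
    have i1 : Integrable (fun x => conj (p' x) * (f x - p' x)) :=
      integrable_conj_mul hp'.1.2.1 (hf.sub hp'.1.2.1)
    have i2 : Integrable (fun x => conj (p' x) * (f x - p x)) :=
      integrable_conj_mul hp'.1.2.1 (hf.sub hp.1.2.1)
    have : ∀ x, conj (p' x) * (p x - p' x)
        = conj (p' x) * (f x - p' x) - conj (p' x) * (f x - p x) := by
      intro x; ring
    simp only [this]
    rw [integral_sub i1 i2, e1, e2, sub_zero]
  have h2 : ∫ x in Z, conj (p' x) * p x = 0 := by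
    have : ∀ x, conj (p' x) * p x = conj (conj (p x) * p' x) := by
      intro x
      rw [map_mul, Complex.conj_conj, mul_comm]
    simp only [this]
    rw [integral_conj, hcap, map_zero]
  have hpc : MemLp (Zᶜ.indicator p) 2 (volume : Measure E) := hp.1.2.1.indicator hZ.compl
  have h3 : ∫ x in Set.univ, conj (p' x) * (Zᶜ.indicator p x - p' x) = 0 := by
    rw [setIntegral_univ]
    have h4 : ∀ x, conj (p' x) * (Zᶜ.indicator p x - p' x)
        = conj (p' x) * (p x - p' x) - Z.indicator (fun x => conj (p' x) * p x) x := by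
      intro x
      by_cases hxZ : x ∈ Z
      · rw [Set.indicator_of_mem hxZ, Set.indicator_of_notMem (by simpa using hxZ)]
        ring
      · rw [Set.indicator_of_notMem hxZ, Set.indicator_of_mem (by simpa using hxZ)]
        ring
    simp only [h4]
    have i1 : Integrable (fun x => conj (p' x) * (p x - p' x)) :=
      integrable_conj_mul hp'.1.2.1 (hp.1.2.1.sub hp'.1.2.1)
    have i2 : Integrable (Z.indicator (fun x => conj (p' x) * p x)) :=
      (integrable_conj_mul hp'.1.2.1 hp.1.2.1).indicator hZ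
    rw [integral_sub i1 i2, h1, integral_indicator hZ, h2, sub_zero]
  have h4 := esq_pyth hpc hp'.1.2.1 h3
  have h5 : esq volume Set.univ (Zᶜ.indicator p) = esq volume Zᶜ p := by
    unfold esq
    rw [setLIntegral_univ, ← lintegral_indicator hZ.compl]
    congr 1
    ext x
    by_cases hxZ : x ∈ Zᶜ
    · rw [Set.indicator_of_mem hxZ, Set.indicator_of_mem hxZ]
    · rw [Set.indicator_of_notMem hxZ, Set.indicator_of_notMem hxZ]
      simp
  rw [h5] at h4
  calc esq volume Set.univ p' + esq volume Z p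
      ≤ (esq volume Set.univ p' + esq volume Set.univ (fun x => Zᶜ.indicator p x - p' x))
        + esq volume Z p := by gcongr; exact le_self_add
    _ = esq volume Zᶜ p + esq volume Z p := by rw [← h4]
    _ = esq volume Set.univ p := by rw [add_comm, esq_add_compl p hZ]

end Pool.Agent.Lib_helper44
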