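import Mathlib
import Pool.Agent.Lib_helper44.Stage2

open MeasureTheory Filter Topology Complex Module
open scoped ENNReal NNReal ComplexConjugate InnerProductSpace

set_option linter.unusedSectionVars false

namespace Pool.Agent.Lib_helper44

variable {E : Type*} [NormedAddCommGroup E] [InnerProductSpace ℝ E] [FiniteDimensional ℝ E]
  [MeasurableSpace E] [BorelSpace E]

theorem on2_of_orbit {N : AddSubgroup E} {f h : E → ℂ} {x : E} (c : ℂ)
    (H : ∀ v ∈ N, f (x + v) = c * h (x + v)) : on2 N f x = ‖c‖ₑ ^ 2 * on2 N h x := by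
  unfold on2
  rw [← ENNReal.tsum_mul_left]
  congr 1
  ext v
  rw [H v v.2, enorm_mul, mul_pow]

/-- the outcome of one stage -/
structure StageRel (S : StageData E) (G : ℕ → E → ℂ) (j : ℕ) (g : E → ℂ) (a : ℕ → Fin S.κ)
    (p : ℕ → E → ℂ) : Prop where
  meas : Measurable g
  memLp : MemLp g 2 (volume : Measure E)
  supp : ∀ x, g x ≠ 0 → x ∈ S.X' ∧ x ∈ S.A j ∧ x ∈ S.X j ∧ x ∈ S.Y j (a (S.ti j x))
  norm : ∀ᵐ x, x ∈ S.X j → x ∈ S.Y j (a (S.ti j x)) → on2 (S.N j) g x = 1
  orth : ∀ i < j, ∀ Z, MeasurableSet Z → Inv (S.N i) Z → ∫ x in Z, conj (G i x) * g x = 0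
  proj : ∀ t, IsProj S G j (S.tgt t) (p t)
  capt : ∀ t h, MemLp h 2 (volume : Measure E) →
    (∀ Z, MeasurableSet Z → Inv (S.N j) Z → ∫ x in Z, conj (g x) * h x = 0) →
    ∫ x in S.A j ∩ (S.X j ∩ {x | S.ti j x = t} ∩ S.Y j (a t)), conj (p t x) * h x = 0
  big : ∀ t, esq volume (S.A j ∩ (S.X j ∩ {x | S.ti j x = t})) (p t) ≤
    S.κ * esq volume (S.A j ∩ (S.X j ∩ {x | S.ti j x = t} ∩ S.Y j (a t))) (p t)

theorem stage_step (S : StageData E) {G : ℕ → E → ℂ} {j : ℕ}
    (hG : ∀ i < j, MemLp (G i) 2 (volume : Measure E))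
    (hGs : ∀ i < j, ∀ x, G i x ≠ 0 → x ∈ S.A i) :
    ∃ g a p, StageRel S G j g a p := by
  classical
  have hproj : ∀ t, ∃ p, IsProj S G j (S.tgt t) p := fun t => exists_isProj S hG (S.htgt t)
  choose p hp using hproj
  have hNe : Nonempty (Fin S.κ) := ⟨⟨0, S.hκ⟩⟩
  -- choice of the classes
  have hcls : ∀ t, ∃ a : Fin S.κ, ∀ b,
      esq volume (S.A j ∩ (S.X j ∩ {x | S.ti j x = t} ∩ S.Y j b)) (p t)
      ≤ esq volume (S.A j ∩ (S.X j ∩ {x | S.ti j x = t} ∩ S.Y j a)) (p t) := fun t =>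
    Finite.exists_max (fun b => esq volume (S.A j ∩ (S.X j ∩ {x | S.ti j x = t} ∩ S.Y j b)) (p t))
  choose a ha using hcls
  have htset : ∀ t, MeasurableSet {x | S.ti j x = t} := fun t =>
    S.htim j (measurableSet_singleton t)
  -- the selected set
  set Sel : Set E := {x | x ∈ S.X j ∧ x ∈ S.Y j (a (S.ti j x))} with hSel
  have hSelm : MeasurableSet Sel := by
    have : Sel = ⋃ t, (S.X j ∩ {x | S.ti j x = t} ∩ S.Y j (a t)) := by
      ext x
      simp only [hSel, Set.mem_ofPred_eq, Set.mem_iUnion, Set.mem_inter_iff]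
      constructor
      · rintro ⟨h1, h2⟩
        exact ⟨S.ti j x, ⟨h1, rfl⟩, h2⟩
      · rintro ⟨t, ⟨h1, h2⟩, h3⟩
        exact ⟨h1, by rw [h2]; exact h3⟩
    rw [this]
    exact MeasurableSet.iUnion fun t => ((S.hXm j).inter (htset t)).inter (S.hYm j _)
  have hSelinv : Inv (S.N j) Sel := by
    intro x v hv
    simp only [hSel, Set.mem_ofPred_eq]
    rw [S.hXinv j j x v hv, S.htiinv j j x v hv, S.hYinv j _ x v hv]
  set P : E → ℂ := fun x => p (S.ti j x) x with hP
  have hPm : Measurable P := by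
    have h1 : Measurable (fun q : ℕ × E => p q.1 q.2) :=
      measurable_from_prod_countable_right (fun t => (hp t).1.1)
    exact h1.comp ((S.htim j).prodMk measurable_id)
  set u : E → ℂ := (S.A j ∩ Sel).indicator P with hu
  have hum : Measurable u := hPm.indicator ((S.hAm j).inter hSelm)
  obtain ⟨w, hwpos, hwm, hwint⟩ := exists_pos_lintegral_lt_of_sigmaFinite
    (volume : Measure E) (one_ne_zero : (1 : ℝ≥0∞) ≠ 0)
  set d0 : E → ℂ := fun x => ((Real.sqrt (w x) : ℝ) : ℂ) with hd0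
  have hd0m : Measurable d0 :=
    Complex.measurable_ofReal.comp (Real.continuous_sqrt.measurable.comp hwm.coe_nnreal_real)
  have hd0sq : ∀ x, ‖d0 x‖ₑ ^ 2 = w x := by
    intro x
    rw [enorm_sq_eq, hd0, Complex.norm_real, Real.norm_of_nonneg (Real.sqrt_nonneg _)]
    have h1 : Real.sqrt (w x) ^ 2 = (w x : ℝ) := Real.sq_sqrt (w x).2
    rw [h1, ENNReal.ofReal_coe_nnreal]
  have hd0ne : ∀ x, d0 x ≠ 0 := by
    intro x h
    have h1 := hd0sq x
    rw [h] at h1
    have h2 : (w x : ℝ≥0∞) ≠ 0 := by exact_mod_cast (hwpos x).ne'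
    apply h2
    rw [← h1]
    simp
  set d : E → ℂ := (S.Rm j ∩ Sel).indicator d0 with hd
  have hdm : Measurable d := hd0m.indicator ((S.hRm j).inter hSelm)
  have hdint : ∫⁻ x, ‖d x‖ₑ ^ 2 ≠ ⊤ := by
    refine ne_of_lt (lt_of_le_of_lt (lintegral_mono (g := fun x => (w x : ℝ≥0∞)) fun x => ?_)
      (hwint.trans ENNReal.one_lt_top))
    change ‖d x‖ₑ ^ 2 ≤ (w x : ℝ≥0∞)
    rw [← hd0sq]
    rcases Classical.em (x ∈ S.Rm j ∩ Sel) with h | h
    · rw [hd, Set.indicator_of_mem h]
    · rw [hd, Set.indicator_of_notMem h]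
      simp
  set n := on2 (S.N j) u with hn
  set nd := on2 (S.N j) d with hnd
  have hnm : Measurable n := measurable_on2 (S.hNc j) hum
  have hndm : Measurable nd := measurable_on2 (S.hNc j) hdm
  set W : Set E := {x | n x ≠ 0 ∧ n x ≠ ⊤} with hW
  have hWm : MeasurableSet W := by
    have h1 : MeasurableSet {x | n x = 0} := hnm (measurableSet_singleton 0)
    have h2 : MeasurableSet {x | n x = ⊤} := hnm (measurableSet_singleton ⊤)
    exact h1.compl.inter h2.compl
  have hninv : ∀ x, ∀ v ∈ S.N j, n (x + v) = n x := fun x v hv => on2_add _ _ _ hv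
  have hndinv : ∀ x, ∀ v ∈ S.N j, nd (x + v) = nd x := fun x v hv => on2_add _ _ _ hv
  have hWinv : Inv (S.N j) W := by
    intro x v hv
    simp only [hW, Set.mem_ofPred_eq]
    rw [hninv x v hv]
  obtain ⟨g, hg1, hg2, hgm⟩ : ∃ g : E → ℂ, (∀ x ∈ W, g x = (nz (n x) : ℂ) * u x) ∧
      (∀ x, x ∉ W → g x = (nz (nd x) : ℂ) * d x) ∧ Measurable g := by
    refine ⟨W.piecewise (fun x => (nz (n x) : ℂ) * u x) (fun x => (nz (nd x) : ℂ) * d x),
      fun x hx => Set.piecewise_eq_of_mem _ _ _ hx, fun x hx => Set.piecewise_eq_of_notMem _ _ _ hx,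
      Measurable.piecewise hWm ?_ ?_⟩
    · exact (Complex.measurable_ofReal.comp (measurable_nz.comp hnm)).mul hum
    · exact (Complex.measurable_ofReal.comp (measurable_nz.comp hndm)).mul hdm
  have hon1 : ∀ x ∈ W, on2 (S.N j) g x = ‖((nz (n x) : ℝ) : ℂ)‖ₑ ^ 2 * n x := by
    intro x hx
    apply on2_of_orbit
    intro v hv
    rw [hg1 _ ((hWinv x v hv).mpr hx), hninv x v hv]
  have hon2 : ∀ x, x ∉ W → on2 (S.N j) g x = ‖((nz (nd x) : ℝ) : ℂ)‖ₑ ^ 2 * nd x := by
    intro x hx
    apply on2_of_orbit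
    intro v hv
    rw [hg2 _ (fun h => hx ((hWinv x v hv).mp h)), hndinv x v hv]
  have honle : ∀ x, on2 (S.N j) g x ≤ 1 := by
    intro x
    rcases Classical.em (x ∈ W) with h | h
    · rw [hon1 x h]
      exact nz_sq_le _
    · rw [hon2 x h]
      exact nz_sq_le _
  have hsupp : ∀ x, g x ≠ 0 → x ∈ S.X' ∧ x ∈ S.A j ∧ x ∈ S.X j ∧ x ∈ S.Y j (a (S.ti j x)) := by
    intro x hx
    rcases Classical.em (x ∈ W) with h | h
    · rw [hg1 x h] at hx
      have hux : u x ≠ 0 := right_ne_zero_of_mul hx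
      have h1 : x ∈ S.A j ∩ Sel := by
        by_contra h1
        exact hux (Set.indicator_of_notMem h1 _)
      rw [hu, Set.indicator_of_mem h1] at hux
      refine ⟨?_, h1.1, h1.2.1, h1.2.2⟩
      by_contra h2
      exact hux ((hp _).1.2.2.1 x h2)
    · rw [hg2 x h] at hx
      have hux : d x ≠ 0 := right_ne_zero_of_mul hx
      have h1 : x ∈ S.Rm j ∩ Sel := by
        by_contra h1
        exact hux (Set.indicator_of_notMem h1 _)
      have h2 := S.hRsub j h1.1
      exact ⟨h2.1, h2.2, h1.2.1, h1.2.2⟩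
  have honX : ∀ x, x ∉ S.X j → on2 (S.N j) g x = 0 := by
    intro x hx
    unfold on2
    rw [ENNReal.tsum_eq_zero]
    intro v
    have : g (x + v) = 0 := by
      by_contra h
      exact hx ((S.hXinv j j x v v.2).mp (hsupp _ h).2.2.1)
    rw [this]
    simp
  have hgL : MemLp g 2 (volume : Measure E) := by
    apply memLp_two_of_lintegral hgm.aestronglyMeasurable
    obtain ⟨D, hD, hDX⟩ := S.hFD j
    rw [esq_unfold (S.hNc j) hD hgm]
    refine lt_of_le_of_lt ?_ (lt_top_iff_ne_top.mpr hDX)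
    have h1 : ∀ x, on2 (S.N j) g x ≤ (S.X j).indicator (fun _ => (1 : ℝ≥0∞)) x := by
      intro x
      rcases Classical.em (x ∈ S.X j) with h | h
      · rw [Set.indicator_of_mem h]
        exact honle x
      · rw [Set.indicator_of_notMem h, honX x h]
    refine (lintegral_mono h1).trans ?_
    rw [lintegral_indicator (S.hXm j), lintegral_one, Measure.restrict_restrict (S.hXm j),
      Measure.restrict_apply_univ, Set.inter_comm]
  have hnfin : ∀ᵐ x, n x ≠ ⊤ := by
    obtain ⟨D, hD, -⟩ := S.hFD j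
    have h1 : ∀ᵐ x, ∀ t, on2 (S.N j) (p t) x < ⊤ := by
      rw [ae_all_iff]
      intro t
      refine on2_lt_top (S.hNc j) hD (hp t).1.1 ?_
      have := esq_ne_top (hp t).1.2.1 Set.univ
      unfold esq at this
      rwa [setLIntegral_univ] at this
    filter_upwards [h1] with x hx
    refine ne_of_lt (lt_of_le_of_lt ?_ (hx (S.ti j x)))
    apply ENNReal.tsum_le_tsum
    intro v
    rcases Classical.em (x + (v : E) ∈ S.A j ∩ Sel) with h | h
    · rw [hu, Set.indicator_of_mem h]
      simp only [hP]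
      rw [S.htiinv j j x v v.2]
    · rw [hu, Set.indicator_of_notMem h]
      simp
  have hndfin : ∀ᵐ x, nd x ≠ ⊤ := by
    obtain ⟨D, hD, -⟩ := S.hFD j
    filter_upwards [on2_lt_top (S.hNc j) hD hdm hdint] with x hx
    exact hx.ne
  refine ⟨g, a, p, hgm, hgL, hsupp, ?_, ?_, hp, ?_, ?_⟩
  · -- normalisation
    filter_upwards [hnfin, hndfin] with x hx1 hx2 hX hY
    rcases Classical.em (x ∈ W) with h | h
    · rw [hon1 x h]
      exact nz_sq h.1 h.2
    · rw [hon2 x h]
      refine nz_sq ?_ hx2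
      obtain ⟨v, hv, hvR⟩ := S.hRcov j x hX
      have h1 : x + v ∈ S.Rm j ∩ Sel := ⟨hvR, (hSelinv x v hv).mpr ⟨hX, hY⟩⟩
      have h2 := le_on2 (S.N j) d (x + v)
      rw [on2_add _ _ _ hv] at h2
      intro h3
      change nd x = 0 at h3
      rw [← hnd, h3, hd, Set.indicator_of_mem h1, hd0sq] at h2
      have h4 : (w (x + v) : ℝ≥0∞) ≠ 0 := by exact_mod_cast (hwpos _).ne'
      exact h4 (le_antisymm h2 zero_le)
  · -- orthogonality
    intro i hi Z hZ hZi
    have hint : Integrable (fun x => conj (G i x) * g x) := integrable_conj_mul (hG i hi) hgL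
    have h1 : ∀ t, ∫ x in Z ∩ {x | S.ti j x = t}, conj (G i x) * g x = 0 := by
      intro t
      obtain ⟨m, hm1, hm2, hmm⟩ : ∃ m : E → ℂ, (∀ x ∈ Sel ∩ W, m x = (nz (n x) : ℂ)) ∧
          (∀ x, x ∉ Sel ∩ W → m x = 0) ∧ Measurable m :=
        ⟨(Sel ∩ W).indicator (fun x => (nz (n x) : ℂ)), fun x hx => Set.indicator_of_mem hx _,
          fun x hx => Set.indicator_of_notMem hx _,
          (Complex.measurable_ofReal.comp (measurable_nz.comp hnm)).indicator (hSelm.inter hWm)⟩
      have hminv : ∀ x, ∀ v ∈ S.N i, m (x + v) = m x := by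
        intro x v hv
        have hv' : v ∈ S.N j := S.hNmono hi.le hv
        rcases Classical.em (x ∈ Sel ∩ W) with h | h
        · rw [hm1 x h, hm1 _ (((hSelinv.inter hWinv) x v hv').mpr h), hninv x v hv']
        · rw [hm2 x h, hm2 _ (fun h' => h (((hSelinv.inter hWinv) x v hv').mp h'))]
      have e : ∀ x ∈ Z ∩ {x | S.ti j x = t}, conj (G i x) * g x = m x * (conj (G i x) * p t x) := by
        rintro x ⟨-, hxt⟩
        have hxt' : S.ti j x = t := hxt
        rcases Classical.em (G i x = 0) with hGx | hGx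
        · rw [hGx]
          simp
        have hAi := hGs i hi x hGx
        have hAj : x ∈ S.A j := S.hAmono hi.le hAi
        have hRj : x ∉ S.Rm j := fun h => S.hRdisj i j hi x h hAi
        rcases Classical.em (x ∈ W) with hxW | hxW
        · rw [hg1 x hxW]
          rcases Classical.em (x ∈ Sel) with hxS | hxS
          · have hAS : x ∈ S.A j ∩ Sel := ⟨hAj, hxS⟩
            rw [hm1 x ⟨hxS, hxW⟩, hu, Set.indicator_of_mem hAS]
            simp only [hP]
            rw [hxt']
            ring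
          · rw [hm2 x (fun h => hxS h.1), hu, Set.indicator_of_notMem (fun h => hxS h.2)]
            ring
        · rw [hg2 x hxW, hm2 x (fun h => hxW h.2), hd, Set.indicator_of_notMem (fun h => hRj h.1)]
          ring
      rw [setIntegral_congr_fun (hZ.inter (htset t)) e]
      have hΘ : Integrable (fun x => conj (G i x) * p t x) :=
        integrable_conj_mul (hG i hi) (hp t).1.2.1
      refine integral_mul_eq_zero_of_sets (𝒵 := Inv (S.N i)) hΘ.integrableOn ?_ hmm
        (fun s _ => Inv.preimage hminv s) ?_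
      · intro Z' hZ' hZ'i
        rw [Measure.restrict_restrict hZ']
        refine (hp t).1.2.2.2 i hi _ (hZ'.inter (hZ.inter (htset t))) (hZ'i.inter (hZi.inter ?_))
        intro x v hv
        change S.ti j (x + v) = t ↔ S.ti j x = t
        rw [S.htiinv i j x v hv]
      · refine (hint.integrableOn (s := Z ∩ {x | S.ti j x = t})).congr ?_
        filter_upwards [ae_restrict_mem (hZ.inter (htset t))] with x hx
        exact e x hx
    have hdec : Z = ⋃ t, Z ∩ {x | S.ti j x = t} := by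
      ext x
      simp
    rw [hdec, integral_iUnion (fun t => hZ.inter (htset t)) ?_ hint.integrableOn]
    · simp only [h1, tsum_zero]
    · intro t t' htt'
      rw [Function.onFun, Set.disjoint_left]
      rintro x ⟨-, hx⟩ ⟨-, hx'⟩
      exact htt' (hx.symm.trans hx')
  · -- capture
    intro t h hh H
    have hVm : MeasurableSet (S.X j ∩ {x | S.ti j x = t} ∩ S.Y j (a t)) :=
      ((S.hXm j).inter (htset t)).inter (S.hYm j _)
    have hVinv : Inv (S.N j) (S.X j ∩ {x | S.ti j x = t} ∩ S.Y j (a t)) := by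
      refine ((S.hXinv j j).inter ?_).inter (S.hYinv j _)
      intro x v hv
      change S.ti j (x + v) = t ↔ S.ti j x = t
      rw [S.htiinv j j x v hv]
    set V : Set E := S.X j ∩ {x | S.ti j x = t} ∩ S.Y j (a t) with hV
    obtain ⟨m, hm1, hm2, hmm⟩ : ∃ m : E → ℂ, (∀ x ∈ V ∩ W, m x = ((nz (n x) : ℝ) : ℂ)⁻¹) ∧
        (∀ x, x ∉ V ∩ W → m x = 0) ∧ Measurable m :=
      ⟨(V ∩ W).indicator (fun x => ((nz (n x) : ℝ) : ℂ)⁻¹), fun x hx => Set.indicator_of_mem hx _,
        fun x hx => Set.indicator_of_notMem hx _,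
        (Complex.measurable_ofReal.comp (measurable_nz.comp hnm)).inv.indicator (hVm.inter hWm)⟩
    have hminv : ∀ x, ∀ v ∈ S.N j, m (x + v) = m x := by
      intro x v hv
      rcases Classical.em (x ∈ V ∩ W) with h | h
      · rw [hm1 x h, hm1 _ (((hVinv.inter hWinv) x v hv).mpr h), hninv x v hv]
      · rw [hm2 x h, hm2 _ (fun h' => h (((hVinv.inter hWinv) x v hv).mp h'))]
    have e : (S.A j ∩ V).indicator (fun x => conj (p t x) * h x)
        =ᵐ[volume] fun x => m x * (conj (g x) * h x) := by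
      filter_upwards [hnfin] with x hx
      rcases Classical.em (x ∈ V ∩ W) with hVW | hVW
      · have hnz : ((nz (n x) : ℝ) : ℂ) ≠ 0 := by
          exact_mod_cast nz_ne_zero hVW.2.1 hVW.2.2
        rw [hm1 x hVW, hg1 x hVW.2]
        have hxt : S.ti j x = t := hVW.1.1.2
        rcases Classical.em (x ∈ S.A j) with hA | hA
        · have hSx : x ∈ S.A j ∩ Sel := ⟨hA, hVW.1.1.1, by rw [hxt]; exact hVW.1.2⟩
          have hAV : x ∈ S.A j ∩ V := ⟨hA, hVW.1⟩
          rw [Set.indicator_of_mem hAV, hu, Set.indicator_of_mem hSx]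
          simp only [hP]
          rw [hxt, map_mul, Complex.conj_ofReal]
          field_simp
        · rw [Set.indicator_of_notMem (fun h => hA h.1), hu, Set.indicator_of_notMem (fun h => hA h.1)]
          simp
      · rw [hm2 x hVW, zero_mul]
        rcases Classical.em (x ∈ S.A j ∩ V) with hA | hA
        · rw [Set.indicator_of_mem hA]
          have hxt : S.ti j x = t := hA.2.1.2
          have hSx : x ∈ S.A j ∩ Sel := ⟨hA.1, hA.2.1.1, by rw [hxt]; exact hA.2.2⟩
          have hn0 : n x = 0 := by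
            by_contra h0
            exact hVW ⟨hA.2, h0, hx⟩
          have h1 := le_on2 (S.N j) u x
          rw [← hn, hn0] at h1
          have h2 : u x = 0 := by
            have h3 : ‖u x‖ₑ ^ 2 = 0 := le_antisymm h1 zero_le
            simpa using h3
          rw [hu, Set.indicator_of_mem hSx] at h2
          simp only [hP] at h2
          rw [hxt] at h2
          rw [h2]
          simp
        · rw [Set.indicator_of_notMem hA]
    rw [← integral_indicator ((S.hAm j).inter hVm), integral_congr_ae e]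
    refine integral_mul_eq_zero_of_sets (𝒵 := Inv (S.N j)) (integrable_conj_mul hgL hh) H hmm
      (fun s _ => Inv.preimage hminv s) ?_
    refine Integrable.congr ?_ e
    exact (integrable_conj_mul (hp t).1.2.1 hh).indicator ((S.hAm j).inter hVm)
  · -- the selected class carries a definite part
    intro t
    have h1 : S.A j ∩ (S.X j ∩ {x | S.ti j x = t}) ⊆
        ⋃ b, (S.A j ∩ (S.X j ∩ {x | S.ti j x = t} ∩ S.Y j b)) := by
      rintro x ⟨hx1, hx2⟩
      obtain ⟨b, hb⟩ := S.hYcov j x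
      exact Set.mem_iUnion.mpr ⟨b, hx1, hx2, hb⟩
    refine (esq_mono h1 _).trans ?_
    unfold esq
    refine (lintegral_iUnion_le _ _).trans ?_
    rw [tsum_fintype]
    have h2 := Finset.sum_le_card_nsmul (Finset.univ : Finset (Fin S.κ))
      (fun b => esq volume (S.A j ∩ (S.X j ∩ {x | S.ti j x = t} ∩ S.Y j b)) (p t)) _
      (fun b _ => ha t b)
    rw [Finset.card_univ, Fintype.card_fin, nsmul_eq_mul] at h2
    exact h2

theorem stage_exists (S : StageData E) : ∃ (G : ℕ → E → ℂ) (a : ℕ → ℕ → Fin S.κ)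
    (p : ℕ → ℕ → E → ℂ), ∀ j, StageRel S G j (G j) (a j) (p j) := by
  classical
  have hNe : Nonempty (Fin S.κ) := ⟨⟨0, S.hκ⟩⟩
  have : Inhabited ((E → ℂ) × (ℕ → Fin S.κ) × (ℕ → E → ℂ)) :=
    ⟨(fun _ => 0, fun _ => Classical.arbitrary _, fun _ _ => 0)⟩
  obtain ⟨F, hF⟩ := exists_seq_rel
    (fun j (F : ℕ → (E → ℂ) × (ℕ → Fin S.κ) × (ℕ → E → ℂ)) q =>
      StageRel S (fun i => (F i).1) j q.1 q.2.1 q.2.2) (by
      intro j f g q hfg h
      have h1 : ∀ i < j, (fun i => (f i).1) i = (fun i => (g i).1) i := by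
        intro i hi
        simp only
        rw [hfg i hi]
      refine ⟨h.meas, h.memLp, h.supp, h.norm, ?_, fun t => (h.proj t).congr h1, h.capt, h.big⟩
      intro i hi Z hZ hZi
      have h2 := h.orth i hi Z hZ hZi
      have h3 : (f i).1 = (g i).1 := h1 i hi
      simp only [h3] at h2
      exact h2) (by
      intro j f hf
      obtain ⟨g, a, p, h⟩ := stage_step S (G := fun i => (f i).1) (j := j)
        (fun i hi => (hf i hi).memLp) (fun i hi x hx => ((hf i hi).supp x hx).2.1)
      exact ⟨(g, a, p), h⟩)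
  exact ⟨fun j => (F j).1, fun j => (F j).2.1, fun j => (F j).2.2, hF⟩

end Pool.Agent.Lib_helper44
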