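import Mathlib
import Pool.Agent.Lib_helper44.Stage3

open MeasureTheory Filter Topology Complex Module
open scoped ENNReal NNReal ComplexConjugate InnerProductSpace

set_option linter.unusedSectionVars false

namespace Pool.Agent.Lib_helper44

theorem enorm_sq_le_two (a b : ℂ) : ‖a‖ₑ ^ 2 ≤ 2 * ‖b‖ₑ ^ 2 + 2 * ‖a - b‖ₑ ^ 2 := by
  rw [enorm_sq_eq, enorm_sq_eq, enorm_sq_eq]
  have h2 : (2 : ℝ≥0∞) = ENNReal.ofReal 2 := by simp
  rw [h2, ← ENNReal.ofReal_mul (by norm_num), ← ENNReal.ofReal_mul (by norm_num),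
    ← ENNReal.ofReal_add (by positivity) (by positivity)]
  apply ENNReal.ofReal_le_ofReal
  have h3 : ‖a‖ ≤ ‖b‖ + ‖a - b‖ := by
    calc ‖a‖ = ‖b + (a - b)‖ := by congr 1; ring
      _ ≤ _ := norm_add_le _ _
  nlinarith [norm_nonneg a, norm_nonneg b, norm_nonneg (a - b), sq_nonneg (‖b‖ - ‖a - b‖)]

section

variable {α : Type*} {mα : MeasurableSpace α} {μ : Measure α}

theorem esq_le_two {f g : α → ℂ} (hg : AEMeasurable g μ) (S : Set α) :
    esq μ S f ≤ 2 * esq μ S g + 2 * esq μ S (fun x => f x - g x) := by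
  unfold esq
  rw [← lintegral_const_mul' _ _ (by norm_num), ← lintegral_const_mul' _ _ (by norm_num),
    ← lintegral_add_left']
  · exact lintegral_mono fun x => enorm_sq_le_two _ _
  · exact ((hg.enorm.pow_const 2).const_mul 2).restrict

theorem esq_symm (f g : α → ℂ) (S : Set α) :
    esq μ S (fun x => f x - g x) = esq μ S (fun x => g x - f x) := by
  unfold esq
  congr 1
  ext x
  rw [← enorm_neg (f x - g x), neg_sub]

theorem esq_eq_zero_iff {f : α → ℂ} (hf : AEMeasurable f μ) :
    esq μ Set.univ f = 0 ↔ f =ᵐ[μ] 0 := by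
  unfold esq
  rw [setLIntegral_univ, lintegral_eq_zero_iff' (hf.enorm.pow_const 2)]
  constructor
  · intro h
    filter_upwards [h] with x hx
    simpa using hx
  · intro h
    filter_upwards [h] with x hx
    rw [hx]
    simp

end

variable {E : Type*} [NormedAddCommGroup E] [InnerProductSpace ℝ E] [FiniteDimensional ℝ E]
  [MeasurableSpace E] [BorelSpace E]

theorem stage_complete (S : StageData E) {G : ℕ → E → ℂ} {a : ℕ → ℕ → Fin S.κ}
    {p : ℕ → ℕ → E → ℂ} (h : ∀ j, StageRel S G j (G j) (a j) (p j))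
    (hsupp : ∀ t, ∃ i, ∀ x, x ∉ S.A i → S.tgt t x = 0)
    (hdense : ∀ f : E → ℂ, MemLp f 2 (volume : Measure E) → (∀ x, x ∉ S.X' → f x = 0) →
      ∀ ε : ℝ≥0∞, ε ≠ 0 → ∃ t, esq volume Set.univ (fun x => f x - S.tgt t x) ≤ ε)
    (hinf : ∀ᵐ x, x ∈ S.X' → ∀ t, {j | x ∈ S.X j ∧ S.ti j x = t}.Infinite)
    {f : E → ℂ} (hf : ∀ j, InK S G j f) : f =ᵐ[volume] 0 := by
  classical
  have hfL : MemLp f 2 (volume : Measure E) := (hf 0).2.1
  have hGL : ∀ i, MemLp (G i) 2 (volume : Measure E) := fun i => (h i).memLp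
  rw [← esq_eq_zero_iff hfL.1.aemeasurable]
  have key : ∀ ε : ℝ≥0∞, ε ≠ 0 → esq volume Set.univ f ≤ 2 * ε := by
    intro ε hε
    obtain ⟨t, ht⟩ := hdense f hfL (hf 0).2.2.1 ε hε
    obtain ⟨i0, hi0⟩ := hsupp t
    have htset : ∀ j, MeasurableSet {x | S.ti j x = t} := fun j =>
      S.htim j (measurableSet_singleton t)
    have hXt : ∀ j, MeasurableSet (S.X j ∩ {x | S.ti j x = t}) := fun j =>
      (S.hXm j).inter (htset j)
    have hXtinv : ∀ i j, Inv (S.N i) (S.X j ∩ {x | S.ti j x = t}) := by
      intro i j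
      refine (S.hXinv i j).inter ?_
      intro x v hv
      change S.ti j (x + v) = t ↔ S.ti j x = t
      rw [S.htiinv i j x v hv]
    set q : ℕ → E → ℂ := fun j => p j t with hq
    have hqp : ∀ j, IsProj S G j (S.tgt t) (q j) := fun j => (h j).proj t
    set Z : ℕ → Set E := fun j => S.A j ∩ (S.X j ∩ {x | S.ti j x = t} ∩ S.Y j (a j t)) with hZ
    have hZm : ∀ j, MeasurableSet (Z j) := fun j => (S.hAm j).inter ((hXt j).inter (S.hYm j _))
    have hcap : ∀ j, esq volume Set.univ (q (j + 1)) + esq volume (Z j) (q j)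
        ≤ esq volume Set.univ (q j) := by
      intro j
      refine (hqp j).capture (S.htgt t) (hqp (j + 1)) (hZm j) ?_
      exact (h j).capt t (q (j + 1)) (hqp (j + 1)).1.2.1
        (fun Z' hZ' hZ'i => (hqp (j + 1)).1.2.2.2 j (Nat.lt_succ_self j) Z' hZ' hZ'i)
    have hsum : ∀ n, ∑ j ∈ Finset.range n, esq volume (Z j) (q j) + esq volume Set.univ (q n)
        ≤ esq volume Set.univ (q 0) := by
      intro n
      induction n with
      | zero => simp
      | succ n ih =>
        rw [Finset.sum_range_succ, add_assoc, add_comm (esq volume (Z n) (q n))]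
        exact (add_le_add_right (hcap n) _).trans ih
    have htsum : ∑' j, esq volume (Z j) (q j) ≤ esq volume Set.univ (q 0) := by
      rw [ENNReal.tsum_eq_iSup_nat]
      exact iSup_le fun n => le_self_add.trans (hsum n)
    have hq0 : esq volume Set.univ (q 0) ≠ ⊤ := esq_ne_top (hqp 0).1.2.1 _
    set e : ℕ → ℝ≥0∞ := fun j => esq volume (S.A j ∩ (S.X j ∩ {x | S.ti j x = t})) (q j) with he
    have hesum : ∑' j, e j ≠ ⊤ := by
      have h1 : ∑' j, e j ≤ ∑' j, (S.κ : ℝ≥0∞) * esq volume (Z j) (q j) :=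
        ENNReal.tsum_le_tsum fun j => (h j).big t
      rw [ENNReal.tsum_mul_left] at h1
      refine ne_top_of_le_ne_top ?_ h1
      exact ENNReal.mul_ne_top (ENNReal.natCast_ne_top _) (ne_top_of_le_ne_top hq0 htsum)
    have htail := ENNReal.tendsto_sum_nat_add e hesum
    -- supports of the projections
    have hqs : ∀ j, i0 ≤ j → esq volume (S.A j)ᶜ (q j) = 0 := by
      intro j hj
      have h1 : InK S G j ((S.A j)ᶜ.indicator (q j)) := by
        refine (hqp j).1.indicator' (S.hAm j).compl ?_
        intro i hi x hx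
        by_contra hGx
        exact hx (S.hAmono hi.le ((h i).supp x hGx).2.1)
      have h2 := (hqp j).2 _ h1
      have h3 : ∀ x, conj ((S.A j)ᶜ.indicator (q j) x) * (S.tgt t x - q j x)
          = (S.A j)ᶜ.indicator (fun x => conj (q j x) * (S.tgt t x - q j x)) x := by
        intro x
        rcases Classical.em (x ∈ (S.A j)ᶜ) with hx | hx
        · rw [Set.indicator_of_mem hx, Set.indicator_of_mem hx]
        · rw [Set.indicator_of_notMem hx, Set.indicator_of_notMem hx, map_zero, zero_mul]
      simp only [h3] at h2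
      rw [integral_indicator (S.hAm j).compl] at h2
      have h4 := esq_pyth (S.htgt t) (hqp j).1.2.1 h2
      have h5 : esq volume (S.A j)ᶜ (S.tgt t) = 0 := by
        unfold esq
        rw [setLIntegral_eq_zero (S.hAm j).compl]
        intro x hx
        change ‖S.tgt t x‖ₑ ^ 2 = 0
        rw [hi0 x (fun hxi => hx (S.hAmono hj hxi))]
        simp
      rw [h5] at h4
      exact (add_eq_zero.mp h4.symm).1
    have hqe : ∀ j, i0 ≤ j → esq volume (S.X j ∩ {x | S.ti j x = t}) (q j) ≤ e j := by
      intro j hj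
      have h1 : S.X j ∩ {x | S.ti j x = t} ⊆
          (S.A j ∩ (S.X j ∩ {x | S.ti j x = t})) ∪ (S.A j)ᶜ := by
        intro x hx
        rcases Classical.em (x ∈ S.A j) with hxA | hxA
        · exact Or.inl ⟨hxA, hx⟩
        · exact Or.inr hxA
      refine (esq_mono h1 _).trans ?_
      refine (lintegral_union_le _ _ _).trans ?_
      have h2 := hqs j hj
      unfold esq at h2
      rw [h2, add_zero]
      exact le_rfl
    -- the estimate from stage `J` on
    have hJ : ∀ J, i0 ≤ J → esq volume Set.univ f ≤ 2 * ∑' k, e (k + J) + 2 * ε := by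
      intro J hJ
      set V : ℕ → Set E := fun k => S.X (k + J) ∩ {x | S.ti (k + J) x = t} with hV
      have hVm : ∀ k, MeasurableSet (V k) := fun k => hXt (k + J)
      have hDm : ∀ k, MeasurableSet (disjointed V k) := fun k =>
        MeasurableSet.disjointed hVm k
      have hDinv : ∀ i k, Inv (S.N i) (disjointed V k) := by
        intro i k x v hv
        rw [disjointed_apply]
        simp only [Set.mem_sdiff, Finset.sup_set_eq_biUnion, Set.mem_iUnion, exists_prop, not_exists,
          not_and, Finset.mem_Iio]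
        have h1 : ∀ k, x + v ∈ V k ↔ x ∈ V k := fun k => hXtinv i (k + J) x v hv
        simp only [h1]
      have hcov : ∀ᵐ x, x ∉ ⋃ k, disjointed V k → f x = 0 := by
        filter_upwards [hinf] with x hx hxn
        by_contra hfx
        have hxX : x ∈ S.X' := by
          by_contra h1
          exact hfx ((hf 0).2.2.1 x h1)
        obtain ⟨j, hj, hjJ⟩ := (hx hxX t).exists_gt J
        apply hxn
        rw [iUnion_disjointed, Set.mem_iUnion]
        refine ⟨j - J, ?_⟩
        have : j - J + J = j := by omega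
        simp only [hV]
        rw [this]
        exact hj
      have h1 : esq volume Set.univ f = ∑' k, esq volume (disjointed V k) f := by
        unfold esq
        rw [← lintegral_iUnion hDm (disjoint_disjointed V), setLIntegral_univ,
          ← lintegral_indicator (MeasurableSet.iUnion hDm)]
        apply lintegral_congr_ae
        filter_upwards [hcov] with x hx
        rcases Classical.em (x ∈ ⋃ k, disjointed V k) with hxV | hxV
        · rw [Set.indicator_of_mem hxV]
        · rw [Set.indicator_of_notMem hxV, hx hxV]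
          simp
      have h2 : ∀ k, esq volume (disjointed V k) f
          ≤ 2 * e (k + J) + 2 * esq volume (disjointed V k) (fun x => f x - S.tgt t x) := by
        intro k
        have hpk := hqp (k + J)
        have e1 := esq_le_two (f := f) hpk.1.2.1.1.aemeasurable (disjointed V k)
        have e2 : esq volume (disjointed V k) (q (k + J)) ≤ e (k + J) :=
          (esq_mono (disjointed_le V k) _).trans (hqe (k + J) (by omega))
        have e3 := (hpk.sub hGL (hf (k + J))).esq_le ((S.htgt t).sub hfL) (hDm k)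
          (fun i _ => hDinv i k)
        rw [esq_symm f (S.tgt t)]
        rw [esq_symm f (q (k + J))] at e1
        exact e1.trans (add_le_add (mul_le_mul_right e2 _) (mul_le_mul_right e3 _))
      rw [h1]
      refine (ENNReal.tsum_le_tsum h2).trans ?_
      rw [ENNReal.tsum_add, ENNReal.tsum_mul_left, ENNReal.tsum_mul_left]
      have h3 : ∑' k, esq volume (disjointed V k) (fun x => f x - S.tgt t x) ≤ ε := by
        unfold esq
        rw [← lintegral_iUnion hDm (disjoint_disjointed V)]
        refine (lintegral_mono_set (Set.subset_univ _)).trans ?_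
        exact ht
      exact add_le_add_right (mul_le_mul_right h3 _) _
    have hlim : Tendsto (fun J => 2 * ∑' k, e (k + J) + 2 * ε) atTop (𝓝 (2 * 0 + 2 * ε)) := by
      apply Tendsto.add _ tendsto_const_nhds
      exact ENNReal.Tendsto.const_mul htail (Or.inr (by norm_num))
    rw [mul_zero, zero_add] at hlim
    exact ge_of_tendsto hlim (eventually_atTop.mpr ⟨i0, fun J hJ' => hJ J hJ'⟩)
  by_contra hne
  have hfin : esq volume Set.univ f ≠ ⊤ := esq_ne_top hfL _
  have h1 := key (esq volume Set.univ f / 4) (by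
    rw [ne_eq, ENNReal.div_eq_zero_iff]
    push Not
    exact ⟨hne, by norm_num⟩)
  have h2 : 2 * (esq volume Set.univ f / 4) < esq volume Set.univ f := by
    set x := esq volume Set.univ f with hx
    have h3 : 2 * (x / 4) = x / 2 := by
      rw [div_eq_mul_inv, div_eq_mul_inv]
      have : (4 : ℝ≥0∞) = 2 * 2 := by norm_num
      rw [this, ENNReal.mul_inv (Or.inl (by norm_num)) (Or.inl (by norm_num))]
      calc 2 * (x * (2⁻¹ * 2⁻¹)) = (2 * 2⁻¹) * (x * 2⁻¹) := by ring
        _ = x * 2⁻¹ := by rw [ENNReal.mul_inv_cancel (by norm_num) (by norm_num), one_mul]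
    rw [h3]
    exact ENNReal.half_lt_self hne hfin
  exact absurd h1 (not_le.mpr h2)

/-- targets for the staged construction -/
theorem exists_targets {A : ℕ → Set E} (hAm : ∀ j, MeasurableSet (A j)) (hmono : Monotone A)
    {X' : Set E} (hcov : ∀ᵐ x, x ∈ X' → ∃ i, x ∈ A i) :
    ∃ tgt : ℕ → E → ℂ, (∀ t, MemLp (tgt t) 2 (volume : Measure E)) ∧
      (∀ t, ∃ i, ∀ x, x ∉ A i → tgt t x = 0) ∧
      ∀ f : E → ℂ, MemLp f 2 (volume : Measure E) → (∀ x, x ∉ X' → f x = 0) →
        ∀ ε : ℝ≥0∞, ε ≠ 0 → ∃ t, esq volume Set.univ (fun x => f x - tgt t x) ≤ ε := by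
  classical
  have : Fact ((2 : ℝ≥0∞) ≠ ⊤) := ⟨by norm_num⟩
  set g : ℕ → Lp ℂ 2 (volume : Measure E) := TopologicalSpace.denseSeq _ with hg
  refine ⟨fun t => (A (Nat.unpair t).2).indicator (g (Nat.unpair t).1), fun t =>
    (Lp.memLp _).indicator (hAm _), fun t => ⟨(Nat.unpair t).2, fun x hx =>
    Set.indicator_of_notMem hx _⟩, ?_⟩
  intro f hf hf0 ε hε
  -- approximation by a member of the dense sequence
  have hε4 : ε / 4 ≠ 0 := by
    rw [ne_eq, ENNReal.div_eq_zero_iff]
    push Not
    exact ⟨hε, by norm_num⟩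
  obtain ⟨n, hn⟩ : ∃ n, esq volume Set.univ (fun x => f x - g n x) < ε / 4 := by
    have h1 : ∀ G : Lp ℂ 2 (volume : Measure E),
        esq volume Set.univ (fun x => f x - G x) = ‖hf.toLp f - G‖ₑ ^ 2 := by
      intro G
      have h2 : hf.toLp f - G = (hf.sub (Lp.memLp G)).toLp _ := by
        rw [MemLp.toLp_sub hf (Lp.memLp G), Lp.toLp_coeFn]
      rw [h2, enorm_toLp_sq]
      unfold esq
      rw [setLIntegral_univ]
      rfl
    simp only [h1]
    have h3 : Tendsto (fun G : Lp ℂ 2 (volume : Measure E) => ‖hf.toLp f - G‖ₑ ^ 2)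
        (𝓝 (hf.toLp f)) (𝓝 0) := by
      have : Continuous (fun G : Lp ℂ 2 (volume : Measure E) => ‖hf.toLp f - G‖ₑ ^ 2) := by
        fun_prop
      have h4 := this.tendsto (hf.toLp f)
      simpa using h4
    have h4 := h3.eventually (gt_mem_nhds (pos_iff_ne_zero.mpr hε4))
    have hd : DenseRange g := TopologicalSpace.denseRange_denseSeq _
    obtain ⟨U, hU1, hU2, hU3⟩ := mem_nhds_iff.mp h4
    obtain ⟨n, hn⟩ := hd.exists_mem_open hU2 ⟨_, hU3⟩
    exact ⟨n, hU1 hn⟩
  -- cut off
  have hν : Tendsto (fun i => esq volume (A i)ᶜ f) atTop (𝓝 0) := by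
    set ν : Measure E := volume.withDensity (fun x => ‖f x‖ₑ ^ 2) with hν
    have h1 : ∀ s, MeasurableSet s → ν s = esq volume s f := by
      intro s hs
      rw [hν, withDensity_apply _ hs]
      rfl
    have h2 : Tendsto (ν ∘ (fun i => (A i)ᶜ)) atTop (𝓝 (ν (⋂ i, (A i)ᶜ))) := by
      apply tendsto_measure_iInter_atTop
      · intro i
        exact (hAm i).compl.nullMeasurableSet
      · intro i j hij
        exact Set.compl_subset_compl.mpr (hmono hij)
      · refine ⟨0, ?_⟩
        rw [h1 _ (hAm 0).compl]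
        exact esq_ne_top hf _
    have h3 : ν (⋂ i, (A i)ᶜ) = 0 := by
      rw [h1 _ (MeasurableSet.iInter fun i => (hAm i).compl)]
      unfold esq
      rw [← lintegral_indicator (MeasurableSet.iInter fun i => (hAm i).compl),
        lintegral_eq_zero_iff' ((hf.1.aemeasurable.enorm.pow_const 2).indicator
        (MeasurableSet.iInter fun i => (hAm i).compl))]
      filter_upwards [hcov] with x hx
      rcases Classical.em (x ∈ ⋂ i, (A i)ᶜ) with h | h
      · rw [Set.indicator_of_mem h]
        have hxX : x ∉ X' := by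
          intro hX
          obtain ⟨i, hi⟩ := hx hX
          exact (Set.mem_iInter.mp h i) hi
        rw [hf0 x hxX]
        simp
      · rw [Set.indicator_of_notMem h]
        rfl
    rw [h3] at h2
    refine h2.congr fun i => ?_
    exact h1 _ (hAm i).compl
  obtain ⟨i, hi⟩ := (hν.eventually (gt_mem_nhds (pos_iff_ne_zero.mpr hε4))).exists
  refine ⟨Nat.pair n i, ?_⟩
  simp only [Nat.unpair_pair]
  have h5 : ∀ x, ‖f x - (A i).indicator (g n) x‖ₑ ^ 2
      ≤ (A i)ᶜ.indicator (fun x => ‖f x‖ₑ ^ 2) x + ‖f x - g n x‖ₑ ^ 2 := by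
    intro x
    rcases Classical.em (x ∈ A i) with h | h
    · rw [Set.indicator_of_mem h]
      exact le_add_self
    · rw [Set.indicator_of_notMem h, sub_zero, Set.indicator_of_mem (by simpa using h)]
      exact le_self_add
  calc esq volume Set.univ (fun x => f x - (A i).indicator (g n) x)
      ≤ ∫⁻ x, ((A i)ᶜ.indicator (fun x => ‖f x‖ₑ ^ 2) x + ‖f x - g n x‖ₑ ^ 2) := by
        unfold esq
        rw [setLIntegral_univ]
        exact lintegral_mono h5
    _ = esq volume (A i)ᶜ f + esq volume Set.univ (fun x => f x - g n x) := by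
        unfold esq
        rw [lintegral_add_left' ((hf.1.aemeasurable.enorm.pow_const 2).indicator (hAm i).compl),
          lintegral_indicator (hAm i).compl, setLIntegral_univ]
    _ ≤ ε / 4 + ε / 4 := add_le_add hi.le hn.le
    _ ≤ ε := by
        have h6 : ε / 4 + ε / 4 = ε / 2 := by
          rw [← two_mul, div_eq_mul_inv, div_eq_mul_inv]
          have : (4 : ℝ≥0∞) = 2 * 2 := by norm_num
          rw [this, ENNReal.mul_inv (Or.inl (by norm_num)) (Or.inl (by norm_num))]
          calc 2 * (ε * (2⁻¹ * 2⁻¹)) = (2 * 2⁻¹) * (ε * 2⁻¹) := by ring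
            _ = ε * 2⁻¹ := by rw [ENNReal.mul_inv_cancel (by norm_num) (by norm_num), one_mul]
        rw [h6]
        exact ENNReal.half_le_self

end Pool.Agent.Lib_helper44
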