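import Mathlib
import Pool.Agent.Lib_helper44.Stage4
import Pool.Agent.Lib_helper44.Count

open MeasureTheory Filter Topology Complex Module
open scoped ENNReal NNReal ComplexConjugate InnerProductSpace

set_option linter.unusedSectionVars false

namespace Pool.Agent.Lib_helper44

variable {E : Type*} [NormedAddCommGroup E] [InnerProductSpace ℝ E] [FiniteDimensional ℝ E]
  [MeasurableSpace E] [BorelSpace E] {n : ℕ}
variable {γ : Basis (Fin n) ℝ E} {B : E ≃L[ℝ] E} {φ : E → ℂ}

theorem fam_shift (γ : Basis (Fin n) ℝ E) (B : E ≃L[ℝ] E) (φ : E → ℂ) (j i : ℤ)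
    (k : Fin n → ℤ) (x : E) : fam γ B φ (j, k) ((B ^ i) x)
      = ((adet B ^ (-(i : ℝ) / 2) : ℝ) : ℂ) * fam γ B φ (j - i, k) x := by
  rw [fam_apply, fam_apply]
  simp only
  rw [zcomp]
  have h1 : -j + i = -(j - i) := by ring
  rw [h1]
  have h2 : adet B ^ (-(j : ℝ) / 2) = adet B ^ (-(i : ℝ) / 2) * adet B ^ (-((j - i : ℤ) : ℝ) / 2) := by
    rw [← Real.rpow_add (adet_pos B)]
    congr 1
    push_cast
    ring
  rw [h2]
  push_cast
  ring

theorem inner_fam_shift (γ : Basis (Fin n) ℝ E) (B : E ≃L[ℝ] E) (φ : E → ℂ) (j j' : ℤ)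
    (k k' : Fin n → ℤ) : ∫ x, conj (fam γ B φ (j, k) x) * fam γ B φ (j', k') x
      = ∫ x, conj (fam γ B φ (0, k) x) * fam γ B φ (j' - j, k') x := by
  have h1 := integral_comp_equiv (B ^ j)
    (fun x => conj (fam γ B φ (j, k) x) * fam γ B φ (j', k') x)
  simp only [fam_shift] at h1
  have h2 : ∀ x, conj (((adet B ^ (-(j : ℝ) / 2) : ℝ) : ℂ) * fam γ B φ (j - j, k) x) *
      (((adet B ^ (-(j : ℝ) / 2) : ℝ) : ℂ) * fam γ B φ (j' - j, k') x)
      = (((adet (B ^ j))⁻¹ : ℝ) : ℂ) * (conj (fam γ B φ (0, k) x) * fam γ B φ (j' - j, k') x) := by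
    intro x
    have h3 : (adet (B ^ j))⁻¹ = adet B ^ (-(j : ℝ) / 2) * adet B ^ (-(j : ℝ) / 2) := by
      rw [← Real.rpow_add (adet_pos B), adet_zpow, ← zpow_neg, ← Real.rpow_intCast]
      congr 1
      push_cast
      ring
    rw [h3, sub_self, map_mul, Complex.conj_ofReal]
    push_cast
    ring
  simp only [h2] at h1
  rw [integral_const_mul, Complex.real_smul] at h1
  have h4 : (((adet (B ^ j))⁻¹ : ℝ) : ℂ) ≠ 0 := by
    exact_mod_cast inv_ne_zero (adet_pos (B ^ j)).ne'
  exact (mul_left_cancel₀ h4 h1).symm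

theorem on2_indicator {N : AddSubgroup E} {Z : Set E} (hZ : Inv N Z) (f : E → ℂ) (x : E) :
    on2 N (Z.indicator f) x = Z.indicator (on2 N f) x := by
  rcases Classical.em (x ∈ Z) with h | h
  · rw [Set.indicator_of_mem h]
    unfold on2
    congr 1
    ext v
    rw [Set.indicator_of_mem ((hZ x v v.2).mpr h)]
  · rw [Set.indicator_of_notMem h]
    unfold on2
    rw [ENNReal.tsum_eq_zero]
    intro v
    rw [Set.indicator_of_notMem (fun h' => h ((hZ x v v.2).mp h'))]
    simp

theorem inv_to_add {N : AddSubgroup E} {Z : Set E} (hZ : Inv N Z) :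
    ∀ x ∈ Z, ∀ v ∈ N, x + v ∈ Z := fun x hx v hv => (hZ x v hv).mpr hx

/-- a criterion for wavelets on the frequency side -/
theorem isONB_fam_of (hφm : Measurable φ)
    (h1 : ∀ᵐ x, on2 (dualL γ) φ x = (volume (Q0 γ))⁻¹)
    (h2 : ∀ m : ℕ, 1 ≤ m → ∀ k k' : Fin n → ℤ,
      ∫ x, conj (ee (-⟪kv γ k, x⟫_ℝ) * φ x) *
        (ee (-⟪kv γ k', (B ^ (-(m : ℤ))) x⟫_ℝ) * φ ((B ^ (-(m : ℤ))) x)) = 0)
    (h3 : ∀ f : E → ℂ, MemLp f 2 (volume : Measure E) →
      (∀ j : ℤ, ∀ Z, MeasurableSet Z → Inv (dualL γ) Z →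
        ∫ x in Z, conj (φ x) * f ((B ^ j) x) = 0) → f =ᵐ[volume] 0) :
    IsONB (volume : Measure E) (fam γ B φ) := by
  classical
  obtain ⟨-, hv0, hvt⟩ := map_coordT γ
  have hFD : IsAddFundamentalDomain (dualL γ) (Q0 γ) (volume : Measure E) :=
    isFD (measurableSet_Q0 γ) (isPack_Q0 γ) (isCover_Q0 γ)
  have hmass : ∀ Z, MeasurableSet Z → Inv (dualL γ) Z →
      ∫⁻ x in Z, ‖φ x‖ₑ ^ 2 = (volume (Q0 γ))⁻¹ * volume (Q0 γ ∩ Z) := by
    intro Z hZ hZi
    have e1 : ∫⁻ x in Z, ‖φ x‖ₑ ^ 2 = ∫⁻ x, ‖Z.indicator φ x‖ₑ ^ 2 := by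
      rw [← lintegral_indicator hZ]
      congr 1
      ext x
      by_cases hx : x ∈ Z
      · rw [Set.indicator_of_mem hx, Set.indicator_of_mem hx]
      · rw [Set.indicator_of_notMem hx, Set.indicator_of_notMem hx]
        simp
    rw [e1, esq_unfold (countable_dualL γ) hFD (hφm.indicator hZ)]
    simp only [on2_indicator hZi]
    rw [lintegral_indicator hZ, Measure.restrict_restrict hZ]
    have e2 : ∫⁻ x in Z ∩ Q0 γ, on2 (dualL γ) φ x = ∫⁻ x in Z ∩ Q0 γ, (volume (Q0 γ))⁻¹ := by
      apply lintegral_congr_ae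
      exact ae_restrict_of_ae h1
    rw [e2, setLIntegral_const, Set.inter_comm]
  have hφL : MemLp φ 2 (volume : Measure E) := by
    apply memLp_two_of_lintegral hφm.aestronglyMeasurable
    have := hmass Set.univ MeasurableSet.univ (Inv.univ _)
    rw [setLIntegral_univ, Set.inter_univ, ENNReal.inv_mul_cancel hv0 hvt] at this
    rw [this]
    exact ENNReal.one_lt_top
  have hfamL : ∀ i, MemLp (fam γ B φ i) 2 (volume : Measure E) := by
    intro i
    have : fam γ B φ i = fun x => ((adet B ^ (-(i.1 : ℝ) / 2) : ℝ) : ℂ) *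
      (ee (-⟪kv γ i.2, (B ^ (-i.1)) x⟫_ℝ) * φ ((B ^ (-i.1)) x)) := by
      ext x
      exact fam_apply γ B φ i x
    rw [this]
    apply MemLp.const_mul
    have h4 : MemLp (fun x => ee (-⟪kv γ i.2, x⟫_ℝ) * φ x) 2 (volume : Measure E) := by
      have := memLp_ee_mul hφL (-(kv γ i.2))
      simpa only [inner_neg_left] using this
    exact memLp_comp_equiv (B ^ (-i.1)) h4
  have hpos : ∀ m : ℕ, 1 ≤ m → ∀ k k', ∫ x, conj (fam γ B φ (0, k) x) *
      fam γ B φ ((m : ℤ), k') x = 0 := by
    intro m hm k k'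
    have h4 := h2 m hm k k'
    have h5 : ∀ x, conj (fam γ B φ (0, k) x) * fam γ B φ ((m : ℤ), k') x
        = ((adet B ^ (-((m : ℤ) : ℝ) / 2) : ℝ) : ℂ) * (conj (ee (-⟪kv γ k, x⟫_ℝ) * φ x) *
        (ee (-⟪kv γ k', (B ^ (-(m : ℤ))) x⟫_ℝ) * φ ((B ^ (-(m : ℤ))) x))) := by
      intro x
      rw [fam_zero, fam_apply]
      ring
    simp only [h5]
    rw [integral_const_mul, h4, mul_zero]
  have hzero : ∀ k k', ∫ x, conj (fam γ B φ (0, k) x) * fam γ B φ (0, k') x
      = if k = k' then 1 else 0 := by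
    intro k k'
    set V := (volume (Q0 γ)).toReal with hV
    have hVpos : 0 < V := ENNReal.toReal_pos hv0 hvt
    have hint1 : Integrable (fun x => conj (φ x) * φ x) (volume : Measure E) :=
      integrable_conj_mul hφL hφL
    have hint2 : Integrable ((Q0 γ).indicator (fun _ => ((V⁻¹ : ℝ) : ℂ))) (volume : Measure E) :=
      (integrable_indicator_iff (measurableSet_Q0 γ)).mpr (integrableOn_const hvt)
    have hΘ := hint1.sub hint2
    have hmee : Measurable (fun x : E => ee (⟪kv γ (k - k'), x⟫_ℝ)) :=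
      (ee_continuous.comp (continuous_const.inner continuous_id)).measurable
    have key := integral_mul_eq_zero_of_sets (𝒵 := Inv (dualL γ)) hΘ ?_ hmee
      (fun s _ => Inv.preimage (fun x v hv => ee_inner_periodic γ (k - k') hv x) s) ?_
    · have hb1 : Integrable (fun x => ee (⟪kv γ (k - k'), x⟫_ℝ) * (conj (φ x) * φ x)) volume := by
        refine hint1.bdd_mul (c := 1) hmee.aestronglyMeasurable ?_
        exact Eventually.of_forall fun x => (norm_ee _).le
      have hb2 : Integrable (fun x => ee (⟪kv γ (k - k'), x⟫_ℝ) *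
          (Q0 γ).indicator (fun _ => ((V⁻¹ : ℝ) : ℂ)) x) volume := by
        refine hint2.bdd_mul (c := 1) hmee.aestronglyMeasurable ?_
        exact Eventually.of_forall fun x => (norm_ee _).le
      simp only [Pi.sub_apply, mul_sub] at key
      rw [integral_sub hb1 hb2, sub_eq_zero] at key
      have e1 : ∀ x, conj (fam γ B φ (0, k) x) * fam γ B φ (0, k') x
          = ee (⟪kv γ (k - k'), x⟫_ℝ) * (conj (φ x) * φ x) := by
        intro x
        rw [fam_zero, fam_zero, map_mul, conj_ee, neg_neg]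
        have e2 : ee (⟪kv γ (k - k'), x⟫_ℝ) = ee (⟪kv γ k, x⟫_ℝ) * ee (-⟪kv γ k', x⟫_ℝ) := by
          rw [← ee_add]
          congr 1
          rw [inner_kv, inner_kv, inner_kv, ← sub_eq_add_neg, ← Finset.sum_sub_distrib]
          apply Finset.sum_congr rfl
          intro i _
          rw [Pi.sub_apply]
          push_cast
          ring
        rw [e2]
        ring
      simp only [e1]
      rw [key]
      have e3 : ∀ x, ee (⟪kv γ (k - k'), x⟫_ℝ) * (Q0 γ).indicator (fun _ => ((V⁻¹ : ℝ) : ℂ)) x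
          = (Q0 γ).indicator (fun x => ((V⁻¹ : ℝ) : ℂ) * ee (⟪kv γ (k - k'), x⟫_ℝ)) x := by
        intro x
        by_cases hx : x ∈ Q0 γ
        · rw [Set.indicator_of_mem hx, Set.indicator_of_mem hx, mul_comm]
        · rw [Set.indicator_of_notMem hx, Set.indicator_of_notMem hx, mul_zero]
      simp only [e3]
      rw [integral_indicator (measurableSet_Q0 γ), integral_const_mul, integral_ee_Q0]
      by_cases hk : k = k'
      · subst hk
        rw [if_pos rfl, if_pos (sub_self k), ← Complex.ofReal_mul, inv_mul_cancel₀ hVpos.ne',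
          Complex.ofReal_one]
      · rw [if_neg hk, if_neg (fun h => hk (sub_eq_zero.mp h)), mul_zero]
    · intro Z hZ hZi
      simp only [Pi.sub_apply]
      rw [integral_sub hint1.integrableOn hint2.integrableOn, sub_eq_zero]
      have e1 : ∫ x in Z, (Q0 γ).indicator (fun _ => ((V⁻¹ : ℝ) : ℂ)) x
          = (((volume (Q0 γ ∩ Z)).toReal * V⁻¹ : ℝ) : ℂ) := by
        rw [integral_indicator (measurableSet_Q0 γ), Measure.restrict_restrict (measurableSet_Q0 γ),
          setIntegral_const]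
        rw [Complex.real_smul, ← Complex.ofReal_mul]
        rfl
      have e2 : ∫ x in Z, conj (φ x) * φ x = ((∫ x in Z, ‖φ x‖ ^ 2 : ℝ) : ℂ) := by
        rw [← integral_complex_ofReal]
        congr 1
        ext x
        rw [Complex.conj_mul']
        push_cast
        rfl
      rw [e1, e2]
      congr 1
      have e3 := hmass Z hZ hZi
      have e4 := esq_eq_ofReal hφL Z
      unfold esq at e4
      rw [e4] at e3
      have e5 : (0 : ℝ) ≤ ∫ x in Z, ‖φ x‖ ^ 2 := by positivity
      rw [← ENNReal.toReal_ofReal e5, e3, ENNReal.toReal_mul, ENNReal.toReal_inv, mul_comm]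
    · refine hΘ.bdd_mul (c := 1) hmee.aestronglyMeasurable ?_
      exact Eventually.of_forall fun x => (norm_ee _).le
  refine ⟨hfamL, ?_, ?_⟩
  · rintro ⟨j, k⟩ ⟨j', k'⟩
    rcases lt_trichotomy j j' with h | h | h
    · rw [if_neg (by simp [h.ne]), inner_fam_shift]
      obtain ⟨m, hm⟩ := Int.eq_ofNat_of_zero_le (by omega : 0 ≤ j' - j)
      rw [hm]
      exact hpos m (by omega) k k'
    · subst h
      rw [inner_fam_shift, sub_self, hzero]
      by_cases hk : k = k'
      · rw [if_pos hk, if_pos (by rw [hk])]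
      · rw [if_neg hk, if_neg (by simp [hk])]
    · rw [if_neg (by simp [h.ne'])]
      have e1 : ∀ x, conj (fam γ B φ (j, k) x) * fam γ B φ (j', k') x
          = conj (conj (fam γ B φ (j', k') x) * fam γ B φ (j, k) x) := by
        intro x
        rw [map_mul, Complex.conj_conj, mul_comm]
      simp only [e1]
      rw [integral_conj, inner_fam_shift]
      obtain ⟨m, hm⟩ := Int.eq_ofNat_of_zero_le (by omega : 0 ≤ j - j')
      rw [hm, hpos m (by omega) k' k, map_zero]
  · intro f hf horth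
    apply h3 f hf
    intro j Z hZ hZi
    have hΘ : Integrable (fun x => conj (φ x) * f ((B ^ j) x)) (volume : Measure E) :=
      integrable_conj_mul hφL (memLp_comp_equiv (B ^ j) hf)
    refine setIntegral_saturated_eq_zero hΘ (torusP_measurable γ) ?_ hZ ?_
    · intro N
      simp only [mFourier_torusP]
      have e1 := horth (j, N)
      have e2 := integral_comp_equiv (B ^ j) (fun x => conj (fam γ B φ (j, N) x) * f x)
      rw [e1, smul_zero] at e2
      have e3 : ∀ x, conj (fam γ B φ (j, N) ((B ^ j) x)) * f ((B ^ j) x)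
          = ((adet B ^ (-(j : ℝ) / 2) : ℝ) : ℂ) *
            (ee (⟪kv γ N, x⟫_ℝ) * (conj (φ x) * f ((B ^ j) x))) := by
        intro x
        rw [fam_shift, sub_self, fam_zero, map_mul, map_mul, Complex.conj_ofReal, conj_ee, neg_neg]
        ring
      simp only [e3] at e2
      rw [integral_const_mul] at e2
      refine (mul_eq_zero.mp e2).resolve_left ?_
      exact Complex.ofReal_ne_zero.mpr (Real.rpow_pos_of_pos (adet_pos B) _).ne'
    · intro x hx y hxy
      have e1 := hZi x (y - x) (torusP_eq hxy)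
      rw [add_sub_cancel] at e1
      exact e1.mpr hx

end Pool.Agent.Lib_helper44
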