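import Mathlib
import Pool.Agent.Lib_helper44.ExCrit
import Pool.Agent.Lib_helper44.BS3

open MeasureTheory Filter Topology Complex Module
open scoped ENNReal NNReal ComplexConjugate InnerProductSpace

set_option linter.unusedSectionVars false

namespace Pool.Agent.Lib_helper44

variable {E : Type*} [NormedAddCommGroup E] [InnerProductSpace ℝ E] [FiniteDimensional ℝ E]
  [MeasurableSpace E] [BorelSpace E] {n : ℕ}

/-- the geometric input of the construction -/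
structure Asm (γ : Basis (Fin n) ℝ E) (B C : E ≃L[ℝ] E) (q : ℕ) where
  R : AddSubgroup E
  D : AddSubgroup E
  U : AddSubgroup E
  κ : ℕ
  rep : Fin κ → E
  T : Set E
  Om : Set E
  Rm : ℕ → Set E
  hq : 0 < q
  hCB : C = B ^ (q : ℤ)
  hRL : R ≤ dualL γ
  hDR : D ≤ R
  hRU : R ≤ U
  hDC : ∀ v ∈ D, (C ^ (-1 : ℤ)) v ∈ D
  hUC : ∀ v, C v ∈ U ↔ v ∈ U
  hrepm : ∀ a, rep a ∈ R
  hrep : ∀ r ∈ R, ∃ a, r - rep a ∈ D
  hTm : MeasurableSet T
  hTU : Inv U T
  hTpk : ∀ x ∈ T, ∀ y ∈ T, y - x ∈ dualL γ → y - x ∈ R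
  hTcov : ∀ x, ∃ v ∈ dualL γ, x + v ∈ T
  hOm : MeasurableSet Om
  hO1 : ∀ (m : ℤ) x, x ∈ Om → (B ^ m) x ∈ Om → (q : ℤ) ∣ m
  hO2 : ∀ᵐ x : E, ∃ c : ℤ, (B ^ c) x ∈ Om
  hOC : ∀ x, C x ∈ Om ↔ x ∈ Om
  hfwd : ∀ᵐ x : E, ∀ᶠ m : ℕ in atTop, (C ^ (m : ℤ)) x ∉ T
  hrec : ∀ᵐ x : E, x ∈ Om → {m : ℕ | (C ^ (-(m : ℤ))) x ∈ T}.Infinite
  hFD : ∃ F, IsAddFundamentalDomain D F (volume : Measure E) ∧ volume (F ∩ T) ≠ ⊤
  hRm : ∀ k, MeasurableSet (Rm k)
  hRd : ∀ i j x, x ∈ Rm i → x ∈ Rm j → i = j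
  hRT : ∀ k, ∀ x ∈ Rm k, x ∈ T → x ∈ Om
  hRc : ∀ k, ∀ x ∈ T, ∃ v ∈ D, x + v ∈ Rm k

variable {γ : Basis (Fin n) ℝ E} {B C : E ≃L[ℝ] E} {q : ℕ}

namespace Asm

variable (P : Asm γ B C q)

theorem uz (j : ℤ) (v : E) : (C ^ j) v ∈ P.U ↔ v ∈ P.U :=
  inv_set_zpow (Ω := (P.U : Set E)) P.hUC j v

theorem oz (j : ℤ) (v : E) : (C ^ j) v ∈ P.Om ↔ v ∈ P.Om :=
  inv_set_zpow (Ω := P.Om) P.hOC j v

theorem dz (j : ℕ) {v : E} (hv : v ∈ P.D) : (C ^ (-(j : ℤ))) v ∈ P.D := by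
  induction j with
  | zero => simpa using hv
  | succ j ih =>
    have h1 := P.hDC _ ih
    rw [zcomp] at h1
    have h2 : (-1 : ℤ) + -(j : ℤ) = -((j + 1 : ℕ) : ℤ) := by push_cast; ring
    rwa [h2] at h1

/-- last visits -/
def X : Set E := {x | x ∈ P.T ∧ ∀ m : ℕ, 1 ≤ m → (C ^ (m : ℤ)) x ∉ P.T}

/-- last visits after `j` steps -/
def XX (j : ℕ) : Set E := {x | x ∈ P.X ∧ (C ^ (-(j : ℤ))) x ∈ P.T}

/-- the dilated groups -/
def N (j : ℕ) : AddSubgroup E :=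
  P.D.comap ((C ^ (-(j : ℤ))).toLinearEquiv.toLinearMap.toAddMonoidHom)

theorem mem_N {j : ℕ} {v : E} : v ∈ P.N j ↔ (C ^ (-(j : ℤ))) v ∈ P.D := Iff.rfl

theorem hDU : P.D ≤ P.U := P.hDR.trans P.hRU

theorem N_le_U (j : ℕ) : P.N j ≤ P.U := fun v hv => (P.uz _ v).mp (P.hDU (P.mem_N.mp hv))

theorem N_mono : Monotone P.N := by
  intro i j hij v hv
  rw [mem_N] at hv ⊢
  have h1 := P.dz (j - i) hv
  rw [zcomp] at h1
  have h2 : -((j - i : ℕ) : ℤ) + -(i : ℤ) = -(j : ℤ) := by omega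
  rwa [h2] at h1

theorem D_le_N (j : ℕ) : P.D ≤ P.N j := fun v hv => P.dz j hv

theorem countable_N (j : ℕ) : (P.N j : Set E).Countable := by
  have h1 : (P.D : Set E).Countable :=
    (countable_dualL γ).mono (fun v hv => P.hRL (P.hDR hv))
  exact h1.preimage (C ^ (-(j : ℤ))).injective

theorem measurable_C (j : ℤ) : Measurable (fun x : E => (C ^ j) x) :=
  (C ^ j).continuous.measurable

theorem measurableSet_X : MeasurableSet P.X := by
  have : P.X = P.T ∩ ⋂ m : ℕ, ⋂ _ : 1 ≤ m, (fun x : E => (C ^ (m : ℤ)) x) ⁻¹' P.Tᶜ := by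
    ext x
    simp only [X, Set.mem_ofPred_eq, Set.mem_inter_iff, Set.mem_iInter, Set.mem_preimage,
      Set.mem_compl_iff]
  rw [this]
  exact P.hTm.inter (MeasurableSet.iInter fun m => MeasurableSet.iInter fun _ =>
    (C ^ (m : ℤ)).continuous.measurable P.hTm.compl)

theorem measurableSet_XX (j : ℕ) : MeasurableSet (P.XX j) :=
  P.measurableSet_X.inter ((C ^ (-(j : ℤ))).continuous.measurable P.hTm)

theorem T_zpow (j : ℤ) (x : E) {v : E} (hv : v ∈ P.U) :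
    (C ^ j) (x + v) ∈ P.T ↔ (C ^ j) x ∈ P.T := by
  rw [map_add]
  exact P.hTU _ _ ((P.uz j v).mpr hv)

theorem inv_X : Inv P.U P.X := by
  intro x v hv
  have h1 : x + v ∈ P.T ↔ x ∈ P.T := P.hTU x v hv
  constructor
  · rintro ⟨h2, h3⟩
    exact ⟨h1.mp h2, fun m hm h4 => h3 m hm ((P.T_zpow m x hv).mpr h4)⟩
  · rintro ⟨h2, h3⟩
    exact ⟨h1.mpr h2, fun m hm h4 => h3 m hm ((P.T_zpow m x hv).mp h4)⟩

theorem inv_XX (j : ℕ) : Inv P.U (P.XX j) := by
  intro x v hv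
  exact and_congr (P.inv_X x v hv) (P.T_zpow _ x hv)

/-- the class of a point -/
noncomputable def cls (y : E) : E :=
  lamv γ 0 y - (QuotientAddGroup.mk (lamv γ 0 y) : E ⧸ P.R).out

theorem cls_mem (y : E) : P.cls y ∈ P.R := by
  unfold cls
  have h1 : (QuotientAddGroup.mk ((QuotientAddGroup.mk (lamv γ 0 y) : E ⧸ P.R).out) : E ⧸ P.R)
      = QuotientAddGroup.mk (lamv γ 0 y) := QuotientAddGroup.out_eq' _
  have h2 := QuotientAddGroup.eq.mp h1
  rwa [neg_add_eq_sub] at h2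

theorem cls_add (y : E) {r : E} (hr : r ∈ P.R) : P.cls (y + r) = P.cls y + r := by
  unfold cls
  rw [lamv_add γ 0 y (P.hRL hr)]
  have h1 : (QuotientAddGroup.mk (lamv γ 0 y + r) : E ⧸ P.R) = QuotientAddGroup.mk (lamv γ 0 y) := by
    apply Eq.symm
    rw [QuotientAddGroup.eq, neg_add_cancel_left]
    exact hr
  rw [h1]
  abel

/-- the selected classes -/
def Y (j : ℕ) (a : Fin P.κ) : Set E := {x | P.cls ((C ^ (-(j : ℤ))) x) - P.rep a ∈ P.D}

theorem measurableSet_Y (j : ℕ) (a : Fin P.κ) : MeasurableSet (P.Y j a) := by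
  have h1 : MeasurableSet {y : E | lamv γ 0 y ∈
      {v : E | v - (QuotientAddGroup.mk v : E ⧸ P.R).out - P.rep a ∈ P.D}} :=
    measurableSet_lamv_mem γ 0 _
  exact (C ^ (-(j : ℤ))).continuous.measurable h1

theorem inv_Y (j : ℕ) (a : Fin P.κ) : Inv (P.N j) (P.Y j a) := by
  intro x v hv
  change P.cls ((C ^ (-(j : ℤ))) (x + v)) - P.rep a ∈ P.D ↔
    P.cls ((C ^ (-(j : ℤ))) x) - P.rep a ∈ P.D
  have hv' : (C ^ (-(j : ℤ))) v ∈ P.D := P.mem_N.mp hv
  rw [map_add, P.cls_add _ (P.hDR hv')]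
  have h1 : P.cls ((C ^ (-(j : ℤ))) x) + (C ^ (-(j : ℤ))) v - P.rep a
      = (P.cls ((C ^ (-(j : ℤ))) x) - P.rep a) + (C ^ (-(j : ℤ))) v := by abel
  rw [h1]
  exact ⟨fun h => by simpa using P.D.sub_mem h hv', fun h => P.D.add_mem h hv'⟩

open Classical in
/-- the number of earlier visits -/
noncomputable def cnt (j : ℕ) (x : E) : ℕ := Nat.count (fun i => x ∈ P.XX i) j

/-- the target served at a visit -/
noncomputable def ti (j : ℕ) (x : E) : ℕ := (Nat.unpair (P.cnt j x)).1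

theorem measurable_cnt (j : ℕ) : Measurable (P.cnt j) := by
  classical
  induction j with
  | zero =>
    have : P.cnt 0 = fun _ => 0 := by
      ext x
      simp [cnt]
    rw [this]
    exact measurable_const
  | succ j ih =>
    have : P.cnt (j + 1) = fun x => P.cnt j x + (P.XX j).indicator (fun _ => 1) x := by
      ext x
      unfold cnt
      rw [Nat.count_succ]
      rfl
    rw [this]
    exact ih.add (measurable_const.indicator (P.measurableSet_XX j))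

theorem measurable_ti (j : ℕ) : Measurable (P.ti j) :=
  (measurable_from_top (f := fun m : ℕ => (Nat.unpair m).1)).comp (P.measurable_cnt j)

theorem cnt_inv (j : ℕ) (x : E) {v : E} (hv : v ∈ P.U) : P.cnt j (x + v) = P.cnt j x := by
  classical
  unfold cnt
  have h1 : (fun i => x + v ∈ P.XX i) = fun i => x ∈ P.XX i := by
    ext i
    exact P.inv_XX i x v hv
  simp only [h1]

theorem ti_inv (j : ℕ) (x : E) {v : E} (hv : v ∈ P.U) : P.ti j (x + v) = P.ti j x := by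
  unfold ti
  rw [P.cnt_inv j x hv]

theorem infinite_ti {x : E} (hx : {j | x ∈ P.XX j}.Infinite) (t : ℕ) :
    {j | x ∈ P.XX j ∧ P.ti j x = t}.Infinite := by
  classical
  have h1 : (Set.ofPred (fun j => x ∈ P.XX j)).Infinite := hx
  have h2 : Set.range (fun m : ℕ => Nat.nth (fun j => x ∈ P.XX j) (Nat.pair t m)) ⊆
      {j | x ∈ P.XX j ∧ P.ti j x = t} := by
    rintro _ ⟨m, rfl⟩
    refine ⟨Nat.nth_mem_of_infinite h1 _, ?_⟩
    unfold ti cnt
    rw [Nat.count_nth_of_infinite h1, Nat.unpair_pair]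
  refine Set.Infinite.mono h2 (Set.infinite_range_of_injective ?_)
  intro m m' hmm'
  have h3 := Nat.nth_injective h1 hmm'
  rw [Nat.pair_eq_pair] at h3
  exact h3.2

theorem hκ : 0 < P.κ := by
  obtain ⟨a, -⟩ := P.hrep 0 P.R.zero_mem
  exact a.pos

theorem exists_fd (j : ℕ) : ∃ F, IsAddFundamentalDomain (P.N j) F (volume : Measure E) ∧
    volume (F ∩ P.XX j) ≠ ⊤ := by
  obtain ⟨F, hF, hFT⟩ := P.hFD
  refine ⟨(fun x : E => (C ^ (-(j : ℤ))) x) ⁻¹' F, ?_, ?_⟩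
  · let e : P.D → P.N j := fun v => ⟨(C ^ (j : ℤ)) v, by
      rw [mem_N, zcancel']
      exact v.2⟩
    refine IsAddFundamentalDomain.preimage_of_equiv hF (quasiMeasurePreserving_equiv _)
      (e := e) ⟨?_, ?_⟩ ?_
    · intro v w hvw
      have h1 : (C ^ (j : ℤ)) (v : E) = (C ^ (j : ℤ)) (w : E) := congrArg Subtype.val hvw
      exact Subtype.ext ((C ^ (j : ℤ)).injective h1)
    · rintro ⟨w, hw⟩
      refine ⟨⟨(C ^ (-(j : ℤ))) w, P.mem_N.mp hw⟩, ?_⟩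
      apply Subtype.ext
      exact zcancel C (j : ℤ) w
    · intro g x
      change (C ^ (-(j : ℤ))) ((C ^ (j : ℤ)) (g : E) + x) = (g : E) + (C ^ (-(j : ℤ))) x
      rw [map_add, zcancel']
  · have h1 : (fun x : E => (C ^ (-(j : ℤ))) x) ⁻¹' F ∩ P.XX j ⊆
        (C ^ (-(j : ℤ))) ⁻¹' (F ∩ P.T) := by
      rintro x ⟨hx1, -, hx2⟩
      exact ⟨hx1, hx2⟩
    refine ne_top_of_le_ne_top ?_ (measure_mono h1)
    have h2 : volume ((C ^ (-(j : ℤ))) ⁻¹' (F ∩ P.T)) ≤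
        ENNReal.ofReal (adet (C ^ (-(j : ℤ))))⁻¹ * volume (F ∩ P.T) := by
      have h3 := lintegral_comp_equiv (C ^ (-(j : ℤ)))
        ((toMeasurable volume (F ∩ P.T)).indicator (fun _ => (1 : ℝ≥0∞)))
      have h4 : ∀ x, (toMeasurable volume (F ∩ P.T)).indicator (fun _ => (1 : ℝ≥0∞))
          ((C ^ (-(j : ℤ))) x) = ((C ^ (-(j : ℤ))) ⁻¹' (toMeasurable volume (F ∩ P.T))).indicator
          (fun _ => (1 : ℝ≥0∞)) x := fun x => rfl
      simp only [h4] at h3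
      rw [lintegral_indicator ((C ^ (-(j : ℤ))).continuous.measurable
        (measurableSet_toMeasurable _ _)), lintegral_indicator (measurableSet_toMeasurable _ _),
        setLIntegral_one, setLIntegral_one, measure_toMeasurable] at h3
      rw [← h3]
      exact measure_mono (Set.preimage_mono (subset_toMeasurable _ _))
    exact ne_top_of_le_ne_top (ENNReal.mul_ne_top ENNReal.ofReal_ne_top hFT) h2

/-- the allowed regions -/
def A (j : ℕ) : Set E := (P.X ∩ P.Om) \ ⋃ k : ℕ, ⋃ _ : j < k, P.Rm k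

theorem mem_A {j : ℕ} {x : E} : x ∈ P.A j ↔ (x ∈ P.X ∧ x ∈ P.Om) ∧ ∀ k, j < k → x ∉ P.Rm k := by
  unfold A
  simp only [Set.mem_sdiff, Set.mem_inter_iff, Set.mem_iUnion, not_exists]

theorem measurableSet_A (j : ℕ) : MeasurableSet (P.A j) :=
  (P.measurableSet_X.inter P.hOm).diff (MeasurableSet.iUnion fun k =>
    MeasurableSet.iUnion fun _ => P.hRm k)

theorem A_mono : Monotone P.A := by
  intro i j hij x hx
  rw [mem_A] at hx ⊢
  exact ⟨hx.1, fun k hk => hx.2 k (lt_of_le_of_lt hij hk)⟩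

theorem exists_mem_A {x : E} (hx : x ∈ P.X ∩ P.Om) : ∃ i, x ∈ P.A i := by
  rcases Classical.em (∃ k, x ∈ P.Rm k) with ⟨k, hk⟩ | h
  · refine ⟨k, P.mem_A.mpr ⟨hx, fun k' hk' hx' => ?_⟩⟩
    exact absurd (P.hRd _ _ _ hk hx') hk'.ne
  · exact ⟨0, P.mem_A.mpr ⟨hx, fun k _ hk => h ⟨k, hk⟩⟩⟩

end Asm

/-- the staged construction applies -/
theorem Asm.exists_stage (P : Asm γ B C q) : ∃ (G : ℕ → E → ℂ) (a : ℕ → ℕ → Fin P.κ),
    (∀ j, Measurable (G j)) ∧ (∀ j, MemLp (G j) 2 (volume : Measure E)) ∧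
    (∀ j x, G j x ≠ 0 → x ∈ P.Om ∧ x ∈ P.XX j ∧ x ∈ P.Y j (a j (P.ti j x))) ∧
    (∀ j, ∀ᵐ x, x ∈ P.XX j → x ∈ P.Y j (a j (P.ti j x)) → on2 (P.N j) (G j) x = 1) ∧
    (∀ i j, i < j → ∀ Z, MeasurableSet Z → Inv (P.N i) Z →
      ∫ x in Z, conj (G i x) * G j x = 0) ∧
    (∀ f : E → ℂ, Measurable f → MemLp f 2 (volume : Measure E) →
      (∀ x, x ∉ P.X ∩ P.Om → f x = 0) →
      (∀ i, ∀ Z, MeasurableSet Z → Inv (P.N i) Z → ∫ x in Z, conj (G i x) * f x = 0) →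
      f =ᵐ[volume] 0) := by
  classical
  obtain ⟨tgt, htL, hts, htd⟩ := exists_targets (E := E) P.measurableSet_A P.A_mono
    (X' := P.X ∩ P.Om) (Eventually.of_forall fun x hx => P.exists_mem_A hx)
  let S : StageData E :=
    { N := P.N
      X' := P.X ∩ P.Om
      A := P.A
      X := P.XX
      ti := P.ti
      κ := P.κ
      Y := P.Y
      Rm := fun j => P.X ∩ P.Rm j
      tgt := tgt
      hNmono := P.N_mono
      hNc := P.countable_N
      hFD := P.exists_fd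
      hX'm := P.measurableSet_X.inter P.hOm
      hAm := P.measurableSet_A
      hXm := P.measurableSet_XX
      htim := P.measurable_ti
      hYm := P.measurableSet_Y
      hRm := fun j => P.measurableSet_X.inter (P.hRm j)
      hXinv := fun i j => (P.inv_XX j).mono (P.N_le_U i)
      htiinv := fun i j x v hv => P.ti_inv j x (P.N_le_U i hv)
      hYinv := P.inv_Y
      hYcov := fun j x => P.hrep _ (P.cls_mem _)
      hκ := P.hκ
      hAmono := P.A_mono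
      hRsub := by
        rintro j x ⟨hx1, hx2⟩
        have h1 : x ∈ P.X ∩ P.Om := ⟨hx1, P.hRT j x hx2 hx1.1⟩
        refine ⟨h1, P.mem_A.mpr ⟨h1, fun k hk hxk => ?_⟩⟩
        exact absurd (P.hRd _ _ _ hx2 hxk) hk.ne
      hRdisj := by
        rintro i j hij x ⟨-, hx2⟩ hxA
        exact (P.mem_A.mp hxA).2 j hij hx2
      hRcov := by
        rintro j x hx
        obtain ⟨v, hv, hxv⟩ := P.hRc j x hx.1.1
        exact ⟨v, P.D_le_N j hv, (P.inv_X x v (P.hDU hv)).mpr hx.1, hxv⟩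
      htgt := htL }
  obtain ⟨G, a, p, hG⟩ := stage_exists S
  refine ⟨G, a, fun j => (hG j).meas, fun j => (hG j).memLp, fun j x hx => ?_,
    fun j => (hG j).norm, fun i j hij => (hG j).orth i hij, ?_⟩
  · obtain ⟨h1, -, h2, h3⟩ := (hG j).supp x hx
    exact ⟨h1.2, h2, h3⟩
  · intro f hfm hfL hf0 hforth
    refine stage_complete S hG hts htd ?_ (f := f) (fun j => ⟨hfm, hfL, hf0, fun i _ => hforth i⟩)
    filter_upwards [P.hrec] with x hx hxX t
    apply P.infinite_ti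
    refine Set.Infinite.mono ?_ (hx hxX.2)
    intro m hm
    exact ⟨hxX.1, hm⟩

end Pool.Agent.Lib_helper44
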