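import Mathlib
import Pool.Agent.Lib_helper44.Asm

open MeasureTheory Filter Topology Complex Module
open scoped ENNReal NNReal ComplexConjugate InnerProductSpace

set_option linter.unusedSectionVars false

namespace Pool.Agent.Lib_helper44

variable {E : Type*} [NormedAddCommGroup E] [InnerProductSpace ℝ E] [FiniteDimensional ℝ E]
  [MeasurableSpace E] [BorelSpace E] {n : ℕ}

/-- orbit sums over a subgroup -/
theorem on2_subgroup {G H : AddSubgroup E} (hHG : H ≤ G) {f : E → ℂ} {y r₀ : E} (hr : r₀ ∈ G)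
    (h : ∀ v ∈ G, f (y + v) ≠ 0 → v - r₀ ∈ H) : on2 G f y = on2 H f (y + r₀) := by
  rw [← on2_add G f y hr]
  unfold on2
  have hinj : Function.Injective (fun v : H => (⟨v, hHG v.2⟩ : G)) := by
    intro v w hvw
    exact Subtype.ext (congrArg (fun u : G => (u : E)) hvw)
  rw [← hinj.tsum_eq (f := fun v : G => ‖f (y + r₀ + v)‖ₑ ^ 2)]
  intro v hv
  have h1 : f (y + r₀ + v) ≠ 0 := by
    intro h0
    apply hv
    change ‖f (y + r₀ + v)‖ₑ ^ 2 = 0
    rw [h0]
    simp
  have h2 := h (r₀ + v) (G.add_mem hr v.2) (by rwa [← add_assoc])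
  rw [add_sub_cancel_left] at h2
  exact ⟨⟨v, h2⟩, rfl⟩

theorem measurable_of_lamv {γ : Basis (Fin n) ℝ E} {β : Type*} [MeasurableSpace β] (g : E → β) :
    Measurable (fun y => g (lamv γ 0 y)) := by
  have h1 : (fun y => g (lamv γ 0 y)) = (fun k : Fin n → ℤ =>
      g ((coordT γ).symm (fun i => ((k i : ℤ) : ℝ)))) ∘ (fun y i => ⌊⟪γ i, y⟫_ℝ⌋) := by
    ext y
    simp only [Function.comp, lamv, Pi.zero_apply, sub_zero]
  rw [h1]
  apply (measurable_of_countable _).comp
  apply measurable_pi_lambda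
  intro i
  exact (continuous_const.inner continuous_id).measurable.floor

variable {γ : Basis (Fin n) ℝ E} {B C : E ≃L[ℝ] E} {q : ℕ}

namespace Asm

variable (P : Asm γ B C q)

theorem cpow (P : Asm γ B C q) (j : ℤ) (x : E) : (C ^ j) x = (B ^ ((q : ℤ) * j)) x := by
  rw [P.hCB, ← zpow_mul]

/-- the pieces of the domain -/
def TT (j : ℕ) : Set E := (fun x : E => (C ^ (j : ℤ)) x) ⁻¹' P.XX j

theorem mem_TT {j : ℕ} {y : E} : y ∈ P.TT j ↔ (C ^ (j : ℤ)) y ∈ P.X ∧ y ∈ P.T := by
  unfold TT XX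
  change (C ^ (j : ℤ)) y ∈ P.X ∧ (C ^ (-(j : ℤ))) ((C ^ (j : ℤ)) y) ∈ P.T ↔ _
  rw [zcancel']

theorem measurableSet_TT (j : ℕ) : MeasurableSet (P.TT j) :=
  (C ^ (j : ℤ)).continuous.measurable (P.measurableSet_XX j)

theorem TT_disj {i j : ℕ} {y : E} (hi : y ∈ P.TT i) (hj : y ∈ P.TT j) : i = j := by
  rw [mem_TT] at hi hj
  by_contra hne
  wlog hij : i < j generalizing i j
  · exact this hj hi (fun h => hne h.symm) (by omega)
  apply hi.1.2 (j - i) (by omega)
  rw [zcomp]
  have : ((j - i : ℕ) : ℤ) + (i : ℤ) = j := by omega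
  rw [this]
  exact hj.1.1

theorem inv_TT (j : ℕ) : Inv P.U (P.TT j) := by
  intro x v hv
  change (C ^ (j : ℤ)) (x + v) ∈ P.XX j ↔ (C ^ (j : ℤ)) x ∈ P.XX j
  rw [map_add]
  exact P.inv_XX j _ _ ((P.uz _ v).mpr hv)

theorem measurable_cls : Measurable P.cls :=
  measurable_of_lamv (fun v => v - (QuotientAddGroup.mk v : E ⧸ P.R).out)

/-- existence of the last visit -/
theorem exists_last {y : E} (hf : ∀ᶠ m : ℕ in atTop, (C ^ (m : ℤ)) y ∉ P.T) (hy : y ∈ P.T) :
    ∃ J, y ∈ P.TT J := by
  classical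
  obtain ⟨M, hM⟩ := eventually_atTop.mp hf
  set s : Finset ℕ := (Finset.range (M + 1)).filter (fun m => (C ^ (m : ℤ)) y ∈ P.T) with hs
  have h0 : 0 ∈ s := by
    rw [hs, Finset.mem_filter]
    exact ⟨by simp, by simpa using hy⟩
  have hne : s.Nonempty := ⟨0, h0⟩
  refine ⟨s.max' hne, P.mem_TT.mpr ⟨⟨?_, ?_⟩, hy⟩⟩
  · exact (Finset.mem_filter.mp (s.max'_mem hne)).2
  · intro m hm hmT
    rw [zcomp] at hmT
    have h1 : ((m : ℤ) + (s.max' hne : ℕ)) = ((m + s.max' hne : ℕ) : ℤ) := by push_cast; ring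
    rw [h1] at hmT
    have h2 : m + s.max' hne ∈ s := by
      refine Finset.mem_filter.mpr ⟨?_, hmT⟩
      by_contra h3
      rw [Finset.mem_range, not_lt] at h3
      exact hM _ (by omega) hmT
    have := s.le_max' _ h2
    omega

theorem on2_N (j : ℕ) (f : E → ℂ) (z : E) :
    on2 (P.N j) f ((C ^ (j : ℤ)) z) = on2 P.D (fun x => f ((C ^ (j : ℤ)) x)) z := by
  unfold on2
  let e : P.D ≃ P.N j :=
    { toFun := fun v => ⟨(C ^ (j : ℤ)) v, by
        rw [mem_N, zcancel']
        exact v.2⟩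
      invFun := fun w => ⟨(C ^ (-(j : ℤ))) w, P.mem_N.mp w.2⟩
      left_inv := fun v => Subtype.ext (zcancel' C (j : ℤ) v)
      right_inv := fun w => Subtype.ext (zcancel C (j : ℤ) w) }
  rw [← e.tsum_eq]
  congr 1
  ext v
  change ‖f ((C ^ (j : ℤ)) z + (C ^ (j : ℤ)) (v : E))‖ₑ ^ 2 = ‖f ((C ^ (j : ℤ)) (z + v))‖ₑ ^ 2
  rw [map_add]

end Asm

/-- **the assembly** -/
theorem Asm.exists_wavelet (P : Asm γ B C q) :
    ∃ φ : E → ℂ, Measurable φ ∧ IsONB (volume : Measure E) (fam γ B φ) := by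
  classical
  obtain ⟨G, a, hGm, hGL, hGs, hGn, hGo, hGc⟩ := P.exists_stage
  obtain ⟨-, hv0, hvt⟩ := map_coordT γ
  -- the function
  obtain ⟨φ0, hφ0m, hφ0⟩ := exists_measurable_piecewise P.TT P.measurableSet_TT
    (fun j x => G j ((C ^ (j : ℤ)) x)) (fun j => (hGm j).comp (C ^ (j : ℤ)).continuous.measurable)
    (by
      intro i j hij x hx
      exact absurd (P.TT_disj hx.1 hx.2) hij)
  set c₀ : ℝ := Real.sqrt ((volume (Q0 γ)).toReal)⁻¹ with hc₀
  have hVpos : 0 < (volume (Q0 γ)).toReal := ENNReal.toReal_pos hv0 hvt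
  have hc₀pos : 0 < c₀ := Real.sqrt_pos.mpr (inv_pos.mpr hVpos)
  have hc₀ne : (c₀ : ℂ) ≠ 0 := by exact_mod_cast hc₀pos.ne'
  have hc₀sq : ‖(c₀ : ℂ)‖ₑ ^ 2 = (volume (Q0 γ))⁻¹ := by
    rw [enorm_sq_eq, Complex.norm_real, Real.norm_of_nonneg hc₀pos.le, hc₀,
      Real.sq_sqrt (inv_nonneg.mpr hVpos.le), ENNReal.ofReal_inv_of_pos hVpos,
      ENNReal.ofReal_toReal hvt]
  set φ : E → ℂ := (⋃ j, P.TT j).indicator (fun x => (c₀ : ℂ) * φ0 x) with hφ
  have hφm : Measurable φ :=
    (measurable_const.mul hφ0m).indicator (MeasurableSet.iUnion P.measurableSet_TT)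
  have hφ1 : ∀ j, ∀ y ∈ P.TT j, φ y = (c₀ : ℂ) * G j ((C ^ (j : ℤ)) y) := by
    intro j y hy
    rw [hφ, Set.indicator_of_mem (Set.mem_iUnion.mpr ⟨j, hy⟩), hφ0 j hy]
  have hφ2 : ∀ y, (∀ j, y ∉ P.TT j) → φ y = 0 := by
    intro y hy
    rw [hφ, Set.indicator_of_notMem]
    rw [Set.mem_iUnion]
    rintro ⟨j, hj⟩
    exact hy j hj
  have hφT : ∀ y, φ y ≠ 0 → y ∈ P.T := by
    intro y hy
    by_contra h
    exact hy (hφ2 y fun j hj => h (P.mem_TT.mp hj).2)
  have hφO : ∀ y, φ y ≠ 0 → y ∈ P.Om := by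
    intro y hy
    rcases Classical.em (∃ j, y ∈ P.TT j) with ⟨j, hj⟩ | h
    · rw [hφ1 j y hj] at hy
      exact (P.oz _ y).mp (hGs j _ (right_ne_zero_of_mul hy)).1
    · push Not at h
      exact absurd (hφ2 y h) hy
  have hGTT : ∀ j y, y ∉ P.TT j → G j ((C ^ (j : ℤ)) y) = 0 := by
    intro j y hy
    by_contra h
    exact hy (hGs j _ h).2.1
  have hper : ∀ᵐ x, on2 (dualL γ) φ x = (volume (Q0 γ))⁻¹ := by
    -- the periodisation
    have hgood : ∀ᵐ y : E, (∀ᶠ m : ℕ in atTop, (C ^ (m : ℤ)) y ∉ P.T) ∧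
        ∀ j, (C ^ (j : ℤ)) y ∈ P.XX j → (C ^ (j : ℤ)) y ∈ P.Y j (a j (P.ti j ((C ^ (j : ℤ)) y))) →
          on2 (P.N j) (G j) ((C ^ (j : ℤ)) y) = 1 := by
      have h1 : ∀ᵐ y : E, ∀ j, (C ^ (j : ℤ)) y ∈ P.XX j →
          (C ^ (j : ℤ)) y ∈ P.Y j (a j (P.ti j ((C ^ (j : ℤ)) y))) →
          on2 (P.N j) (G j) ((C ^ (j : ℤ)) y) = 1 := by
        rw [ae_all_iff]
        intro j
        exact ae_comp_equiv (C ^ (j : ℤ)) (hGn j)
      filter_upwards [P.hfwd, h1] with y hy1 hy2
      exact ⟨hy1, hy2⟩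
    have hcount : Countable (dualL γ) := (countable_dualL γ).to_subtype
    have hgood' : ∀ᵐ x : E, ∀ v : dualL γ, (∀ᶠ m : ℕ in atTop, (C ^ (m : ℤ)) (x + v) ∉ P.T) ∧
        ∀ j, (C ^ (j : ℤ)) (x + v) ∈ P.XX j →
          (C ^ (j : ℤ)) (x + v) ∈ P.Y j (a j (P.ti j ((C ^ (j : ℤ)) (x + v)))) →
          on2 (P.N j) (G j) ((C ^ (j : ℤ)) (x + v)) = 1 := by
      rw [ae_all_iff]
      intro v
      exact (measurePreserving_add_right (volume : Measure E) (v : E)).quasiMeasurePreserving.ae
        hgood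
    filter_upwards [hgood'] with x hx
    obtain ⟨v₀, hv₀, hT⟩ := P.hTcov x
    rw [← on2_add (dualL γ) φ x hv₀]
    obtain ⟨J, hJ⟩ := P.exists_last (hx ⟨v₀, hv₀⟩).1 hT
    set y := x + v₀ with hy
    have hJX : (C ^ (J : ℤ)) y ∈ P.XX J := hJ
    set b := a J (P.ti J ((C ^ (J : ℤ)) y)) with hb
    set r₀ := P.rep b - P.cls y with hr₀
    have hr₀R : r₀ ∈ P.R := P.R.sub_mem (P.hrepm _) (P.cls_mem _)
    -- first reduction
    have e1 : on2 (dualL γ) φ y = on2 P.R φ y := by
      have := on2_subgroup P.hRL (f := φ) (y := y) (r₀ := 0) (dualL γ).zero_mem (by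
        intro v hv hne
        rw [sub_zero]
        have := P.hTpk y hT (y + v) (hφT _ hne) (by rwa [add_sub_cancel_left])
        rwa [add_sub_cancel_left] at this)
      rwa [add_zero] at this
    have e2 : on2 P.R φ y = ‖(c₀ : ℂ)‖ₑ ^ 2 * on2 P.R (fun x => G J ((C ^ (J : ℤ)) x)) y := by
      apply on2_of_orbit
      intro v hv
      exact hφ1 J _ ((P.inv_TT J y v (P.hRU hv)).mpr hJ)
    have hti : ∀ v ∈ P.R, P.ti J ((C ^ (J : ℤ)) (y + v)) = P.ti J ((C ^ (J : ℤ)) y) := by
      intro v hv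
      rw [map_add]
      exact P.ti_inv J _ ((P.uz _ v).mpr (P.hRU hv))
    have e3 : on2 P.R (fun x => G J ((C ^ (J : ℤ)) x)) y
        = on2 P.D (fun x => G J ((C ^ (J : ℤ)) x)) (y + r₀) := by
      apply on2_subgroup P.hDR hr₀R
      intro v hv hne
      have h1 := (hGs J _ hne).2.2
      rw [hti v hv] at h1
      have h2 : P.cls ((C ^ (-(J : ℤ))) ((C ^ (J : ℤ)) (y + v))) - P.rep b ∈ P.D := h1
      rw [zcancel', P.cls_add y hv] at h2
      have h3 : v - r₀ = P.cls y + v - P.rep b := by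
        rw [hr₀]
        abel
      rw [h3]
      exact h2
    rw [e1, e2, e3, ← P.on2_N]
    have h4 := (hx ⟨v₀ + r₀, (dualL γ).add_mem hv₀ (P.hRL hr₀R)⟩).2 J
    have h5 : x + (v₀ + r₀) = y + r₀ := by rw [hy, add_assoc]
    simp only at h4
    rw [h5] at h4
    rw [h4, mul_one, hc₀sq]
    · change y + r₀ ∈ P.TT J
      exact (P.inv_TT J y r₀ (P.hRU hr₀R)).mpr hJ
    · rw [hti r₀ hr₀R]
      change P.cls ((C ^ (-(J : ℤ))) ((C ^ (J : ℤ)) (y + r₀))) - P.rep b ∈ P.D
      rw [zcancel', P.cls_add y hr₀R]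
      have h6 : P.cls y + r₀ - P.rep b = 0 := by
        rw [hr₀]
        abel
      rw [h6]
      exact P.D.zero_mem
  have hL : MemLp φ 2 (volume : Measure E) := by
    apply memLp_two_of_lintegral hφm.aestronglyMeasurable
    rw [esq_unfold (countable_dualL γ)
      (isFD (measurableSet_Q0 γ) (isPack_Q0 γ) (isCover_Q0 γ)) hφm]
    have e2 : ∫⁻ x in Q0 γ, on2 (dualL γ) φ x = ∫⁻ x in Q0 γ, (volume (Q0 γ))⁻¹ := by
      apply lintegral_congr_ae
      exact ae_restrict_of_ae hper
    rw [e2, setLIntegral_const, ENNReal.inv_mul_cancel hv0 hvt]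
    exact ENNReal.one_lt_top
  refine ⟨φ, hφm, isONB_fam_of hφm hper ?_ ?_⟩
  · -- orthogonality of different scales
    intro m hm k k'
    by_cases hqm : (q : ℤ) ∣ (m : ℤ)
    · obtain ⟨l', hl'⟩ := hqm
      have hq : (0 : ℤ) < q := by exact_mod_cast P.hq
      have hl'pos : 0 < l' := by
        by_contra h
        push Not at h
        have : (q : ℤ) * l' ≤ 0 := mul_nonpos_of_nonneg_of_nonpos hq.le h
        omega
      obtain ⟨l, hl⟩ := Int.eq_ofNat_of_zero_le hl'pos.le
      have hl1 : 1 ≤ l := by omega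
      have hBC : ∀ x, (B ^ (-(m : ℤ))) x = (C ^ (-(l : ℤ))) x := by
        intro x
        rw [P.cpow, hl', hl]
        congr 2
        ring
      simp only [hBC]
      have hφint : Integrable (fun x => conj (φ x) * φ ((C ^ (-(l : ℤ))) x)) :=
        integrable_conj_mul hL (memLp_comp_equiv (C ^ (-(l : ℤ))) hL)
      set M : E → ℂ := fun x => ee (⟪kv γ k, x⟫_ℝ) *
        ee (-⟪kv γ k', (C ^ (-(l : ℤ))) x⟫_ℝ) with hM
      have hMm : Measurable M := by
        apply Measurable.mul
        · exact (ee_continuous.comp (continuous_const.inner continuous_id)).measurable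
        · exact (ee_continuous.comp
            (continuous_const.inner (C ^ (-(l : ℤ))).continuous).neg).measurable
      have hMn : ∀ x, ‖M x‖ ≤ 1 := by
        intro x
        rw [hM, norm_mul, norm_ee, norm_ee, one_mul]
      set F : E → ℂ := fun x => conj (ee (-⟪kv γ k, x⟫_ℝ) * φ x) *
        (ee (-⟪kv γ k', (C ^ (-(l : ℤ))) x⟫_ℝ) * φ ((C ^ (-(l : ℤ))) x)) with hF
      have hFM : ∀ x, F x = M x * (conj (φ x) * φ ((C ^ (-(l : ℤ))) x)) := by
        intro x
        simp only [hF, hM]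
        rw [map_mul, conj_ee, neg_neg]
        ring
      have hFint : Integrable F := by
        have h1 : F = fun x => M x * (conj (φ x) * φ ((C ^ (-(l : ℤ))) x)) := by
          ext x
          exact hFM x
        rw [h1]
        exact hφint.bdd_mul (c := 1) hMm.aestronglyMeasurable (Eventually.of_forall hMn)
      have hpiece : ∀ j, ∫ x in P.TT j, F x = 0 := by
        intro j
        have e1 : ∀ x, (P.TT j).indicator F x = ((c₀ : ℂ) * (c₀ : ℂ)) *
            (M ((C ^ (-(j : ℤ))) ((C ^ (j : ℤ)) x)) *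
              (conj (G j ((C ^ (j : ℤ)) x)) * G (j + l) ((C ^ (j : ℤ)) x))) := by
          intro x
          rw [zcancel']
          rcases Classical.em (x ∈ P.TT j) with hx | hx
          · rw [Set.indicator_of_mem hx, hFM, hφ1 j x hx]
            have e3 : φ ((C ^ (-(l : ℤ))) x) = (c₀ : ℂ) * G (j + l) ((C ^ (j : ℤ)) x) := by
              have hz : (C ^ ((j + l : ℕ) : ℤ)) ((C ^ (-(l : ℤ))) x) = (C ^ (j : ℤ)) x := by
                rw [zcomp]
                congr 2
                push_cast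
                ring
              rcases Classical.em ((C ^ (-(l : ℤ))) x ∈ P.T) with hT | hT
              · have hTT : (C ^ (-(l : ℤ))) x ∈ P.TT (j + l) := by
                  rw [mem_TT, hz]
                  exact ⟨(P.mem_TT.mp hx).1, hT⟩
                rw [hφ1 _ _ hTT, hz]
              · have h4 : φ ((C ^ (-(l : ℤ))) x) = 0 := by
                  by_contra h
                  exact hT (hφT _ h)
                have h5 : G (j + l) ((C ^ (j : ℤ)) x) = 0 := by
                  by_contra h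
                  have h6 := (hGs _ _ h).2.1.2
                  rw [zcomp] at h6
                  have h7 : -((j + l : ℕ) : ℤ) + (j : ℤ) = -(l : ℤ) := by push_cast; ring
                  rw [h7] at h6
                  exact hT h6
                rw [h4, h5, mul_zero]
            rw [e3, map_mul, Complex.conj_ofReal]
            ring
          · rw [Set.indicator_of_notMem hx, hGTT j x hx, map_zero, zero_mul, mul_zero, mul_zero]
        rw [← integral_indicator (P.measurableSet_TT j)]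
        simp only [e1]
        rw [integral_const_mul, integral_comp_equiv (C ^ (j : ℤ))
          (fun z => M ((C ^ (-(j : ℤ))) z) * (conj (G j z) * G (j + l) z))]
        have hMm' : Measurable (fun z => M ((C ^ (-(j : ℤ))) z)) :=
          hMm.comp (C ^ (-(j : ℤ))).continuous.measurable
        have key := integral_mul_eq_zero_of_sets (𝒵 := Inv (P.N j))
          (integrable_conj_mul (hGL j) (hGL (j + l))) (hGo j (j + l) (by omega))
          hMm' (fun s _ => Inv.preimage (fun x v hv => by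
            have hv' : (C ^ (-(j : ℤ))) v ∈ P.D := P.mem_N.mp hv
            simp only [hM]
            rw [map_add, ee_inner_periodic γ k (P.hRL (P.hDR hv')), map_add]
            have hv2 : (C ^ (-(l : ℤ))) ((C ^ (-(j : ℤ))) v) ∈ dualL γ :=
              P.hRL (P.hDR (P.dz l hv'))
            have e5 : ∀ z : E, ee (-⟪kv γ k', z + (C ^ (-(l : ℤ))) ((C ^ (-(j : ℤ))) v)⟫_ℝ)
                = ee (-⟪kv γ k', z⟫_ℝ) := by
              intro z
              rw [← conj_ee, ee_inner_periodic γ k' hv2, conj_ee]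
            rw [e5]) s)
          ((integrable_conj_mul (hGL j) (hGL (j + l))).bdd_mul (c := 1)
            hMm'.aestronglyMeasurable (Eventually.of_forall fun z => hMn _))
        rw [key, smul_zero, mul_zero]
      have hcompl : ∀ x, x ∉ ⋃ j, P.TT j → F x = 0 := by
        intro x hx
        have h1 : φ x = 0 := hφ2 x fun j hj => hx (Set.mem_iUnion.mpr ⟨j, hj⟩)
        rw [hFM, h1, map_zero, zero_mul, mul_zero]
      change ∫ x, F x = 0
      rw [← setIntegral_eq_integral_of_forall_compl_eq_zero hcompl,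
        integral_iUnion P.measurableSet_TT ?_ hFint.integrableOn]
      · simp only [hpiece, tsum_zero]
      · intro i j hij
        rw [Function.onFun, Set.disjoint_left]
        intro x hx hx'
        exact hij (P.TT_disj hx hx')
    · have h1 : ∀ x, conj (ee (-⟪kv γ k, x⟫_ℝ) * φ x) *
          (ee (-⟪kv γ k', (B ^ (-(m : ℤ))) x⟫_ℝ) * φ ((B ^ (-(m : ℤ))) x)) = 0 := by
        intro x
        by_cases h2 : φ x = 0
        · rw [h2, mul_zero, map_zero, zero_mul]
        · by_cases h3 : φ ((B ^ (-(m : ℤ))) x) = 0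
          · rw [h3, mul_zero, mul_zero]
          · exfalso
            have h4 := P.hO1 (-(m : ℤ)) x (hφO x h2) (hφO _ h3)
            exact hqm ((dvd_neg).mp h4)
      simp only [h1, integral_zero]
  · -- totality
    intro f hf horth
    obtain ⟨g, hgm, hfg⟩ : ∃ g : E → ℂ, Measurable g ∧ f =ᵐ[volume] g :=
      ⟨hf.1.mk f, hf.1.stronglyMeasurable_mk.measurable, hf.1.ae_eq_mk⟩
    have hgL : MemLp g 2 (volume : Measure E) := (memLp_congr_ae hfg).mp hf
    have horth' : ∀ j : ℤ, ∀ Z, MeasurableSet Z → Inv (dualL γ) Z →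
        ∫ x in Z, conj (φ x) * g ((B ^ j) x) = 0 := by
      intro j Z hZ hZi
      rw [← horth j Z hZ hZi]
      apply integral_congr_ae
      filter_upwards [ae_restrict_of_ae (ae_comp_equiv (B ^ j) hfg)] with x hx
      rw [hx]
    have hcomp : ∀ i : ℤ, (P.X ∩ P.Om).indicator (fun x => g ((B ^ i) x)) =ᵐ[volume] 0 := by
      intro i
      have hXO : MeasurableSet (P.X ∩ P.Om) := P.measurableSet_X.inter P.hOm
      refine hGc _ ((hgm.comp (B ^ i).continuous.measurable).indicator hXO)
        ((memLp_comp_equiv (B ^ i) hgL).indicator hXO)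
        (fun x hx => Set.indicator_of_notMem hx _) ?_
      intro j Z hZ hZi
      -- the selected representative
      set sh : E → E := fun y => P.rep (a j (P.ti j ((C ^ (j : ℤ)) y))) - P.cls y with hsh
      have hshm : Measurable sh := by
        apply Measurable.sub _ P.measurable_cls
        exact (measurable_from_top (f := fun t : ℕ => P.rep (a j t))).comp
          ((P.measurable_ti j).comp (C ^ (j : ℤ)).continuous.measurable)
      set S : Set E := P.TT j ∩ {y | (C ^ (j : ℤ)) (y + sh y) ∈ Z} with hS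
      have hSm : MeasurableSet S := by
        apply (P.measurableSet_TT j).inter
        exact ((C ^ (j : ℤ)).continuous.measurable.comp (measurable_id.add hshm)) hZ
      have hSinv : Inv P.R S := by
        intro y r hr
        have hrU := P.hRU hr
        have h1 : sh (y + r) = sh y - r := by
          simp only [hsh]
          rw [map_add, P.ti_inv j _ ((P.uz _ r).mpr hrU), P.cls_add y hr]
          abel
        have h2 : y + r + (sh y - r) = y + sh y := by abel
        refine and_congr (P.inv_TT j y r hrU) ?_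
        change (C ^ (j : ℤ)) (y + r + sh (y + r)) ∈ Z ↔ (C ^ (j : ℤ)) (y + sh y) ∈ Z
        rw [h1, h2]
      have hZL : MeasurableSet (sat (dualL γ) S) := measurableSet_sat (countable_dualL γ) hSm
      have h0 := horth' (i + q * j) (sat (dualL γ) S) hZL (fun x v hv => sat_add hv)
      rw [← integral_indicator hZL] at h0
      have hpt : ∀ y, (sat (dualL γ) S).indicator
          (fun x => conj (φ x) * g ((B ^ (i + q * j)) x)) y
          = (c₀ : ℂ) * Z.indicator (fun x => conj (G j x) * g ((B ^ i) x)) ((C ^ (j : ℤ)) y) := by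
        intro y
        have hBy : (B ^ (i + q * j)) y = (B ^ i) ((C ^ (j : ℤ)) y) := by
          rw [P.cpow, zcomp]
        by_cases hG0 : G j ((C ^ (j : ℤ)) y) = 0
        · have h1 : Z.indicator (fun x => conj (G j x) * g ((B ^ i) x)) ((C ^ (j : ℤ)) y) = 0 := by
            by_cases hz : (C ^ (j : ℤ)) y ∈ Z
            · rw [Set.indicator_of_mem hz, hG0, map_zero, zero_mul]
            · rw [Set.indicator_of_notMem hz]
          rw [h1, mul_zero]
          by_cases hy : y ∈ sat (dualL γ) S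
          · rw [Set.indicator_of_mem hy]
            have h2 : φ y = 0 := by
              by_contra hne
              have hyT := hφT y hne
              obtain ⟨v, hv, hvS⟩ := hy
              have hvR := P.hTpk y hyT (y + v) (P.mem_TT.mp hvS.1).2 (by rwa [add_sub_cancel_left])
              rw [add_sub_cancel_left] at hvR
              have h3 := (P.inv_TT j y v (P.hRU hvR)).mp hvS.1
              rw [hφ1 j y h3, hG0, mul_zero] at hne
              exact hne rfl
            rw [h2, map_zero, zero_mul]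
          · rw [Set.indicator_of_notMem hy]
        · have hyTT : y ∈ P.TT j := by
            by_contra h
            exact hG0 (hGTT j y h)
          have hyY := (hGs j _ hG0).2.2
          have hyY' : P.cls ((C ^ (-(j : ℤ))) ((C ^ (j : ℤ)) y))
              - P.rep (a j (P.ti j ((C ^ (j : ℤ)) y))) ∈ P.D := hyY
          rw [zcancel'] at hyY'
          have hshD : sh y ∈ P.D := by
            have := P.D.neg_mem hyY'
            rwa [neg_sub] at this
          have hiff : y ∈ sat (dualL γ) S ↔ (C ^ (j : ℤ)) y ∈ Z := by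
            have e1 : (C ^ (j : ℤ)) (y + sh y) ∈ Z ↔ (C ^ (j : ℤ)) y ∈ Z := by
              rw [map_add]
              apply hZi
              rw [mem_N, zcancel']
              exact hshD
            constructor
            · rintro ⟨v, hv, hvS⟩
              have hvR := P.hTpk y (P.mem_TT.mp hyTT).2 (y + v) (P.mem_TT.mp hvS.1).2
                (by rwa [add_sub_cancel_left])
              rw [add_sub_cancel_left] at hvR
              exact e1.mp ((hSinv y v hvR).mp hvS).2
            · intro h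
              exact subset_sat S ⟨hyTT, e1.mpr h⟩
          by_cases hz : (C ^ (j : ℤ)) y ∈ Z
          · rw [Set.indicator_of_mem (hiff.mpr hz), Set.indicator_of_mem hz, hφ1 j y hyTT, hBy,
              map_mul, Complex.conj_ofReal]
            ring
          · rw [Set.indicator_of_notMem (fun h => hz (hiff.mp h)), Set.indicator_of_notMem hz,
              mul_zero]
      simp only [hpt] at h0
      rw [integral_const_mul, integral_comp_equiv (C ^ (j : ℤ))
        (Z.indicator (fun x => conj (G j x) * g ((B ^ i) x))), integral_indicator hZ] at h0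
      have h1 := (mul_eq_zero.mp h0).resolve_left hc₀ne
      have h2 := (smul_eq_zero.mp h1).resolve_left (inv_ne_zero (adet_pos _).ne')
      rw [← h2]
      apply integral_congr_ae
      filter_upwards with x
      by_cases hG0 : G j x = 0
      · rw [hG0, map_zero, zero_mul, zero_mul]
      · have h3 := hGs j x hG0
        have h4 : x ∈ P.X ∩ P.Om := ⟨h3.2.1.1, h3.1⟩
        rw [Set.indicator_of_mem h4]
    -- conclusion
    refine hfg.trans ?_
    have hA : ∀ᵐ y : E, ∀ i : ℤ, (B ^ (-i)) y ∈ P.X ∩ P.Om → g y = 0 := by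
      rw [ae_all_iff]
      intro i
      filter_upwards [ae_comp_equiv (B ^ (-i)) (hcomp i)] with y hy hyX
      rw [Set.indicator_of_mem hyX, zcancel] at hy
      exact hy
    have hB : ∀ᵐ y : E, ∀ c : ℤ, (∀ᶠ m : ℕ in atTop, (C ^ (m : ℤ)) ((B ^ c) y) ∉ P.T) ∧
        ((B ^ c) y ∈ P.Om → {m : ℕ | (C ^ (-(m : ℤ))) ((B ^ c) y) ∈ P.T}.Infinite) := by
      rw [ae_all_iff]
      intro c
      filter_upwards [ae_comp_equiv (B ^ c) P.hfwd, ae_comp_equiv (B ^ c) P.hrec] with y h1 h2
      exact ⟨h1, h2⟩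
    filter_upwards [hA, hB, P.hO2] with y hyA hyB ⟨c, hc⟩
    obtain ⟨h1, h2⟩ := hyB c
    obtain ⟨m, hm⟩ := (h2 hc).nonempty
    have hm' : (C ^ (-(m : ℤ))) ((B ^ c) y) ∈ P.T := hm
    have h3 : ∀ᶠ k : ℕ in atTop, (C ^ (k : ℤ)) ((C ^ (-(m : ℤ))) ((B ^ c) y)) ∉ P.T := by
      obtain ⟨K, hK⟩ := eventually_atTop.mp h1
      rw [eventually_atTop]
      refine ⟨K + m, fun k hk => ?_⟩
      rw [zcomp]
      have h4 : (k : ℤ) + -(m : ℤ) = ((k - m : ℕ) : ℤ) := by omega
      rw [h4]
      exact hK _ (by omega)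
    obtain ⟨J, hJ⟩ := P.exists_last h3 hm'
    have h5 := (P.mem_TT.mp hJ).1
    have h6 : (C ^ (J : ℤ)) ((C ^ (-(m : ℤ))) ((B ^ c) y)) = (B ^ (-(-(q * J - q * m + c) : ℤ))) y := by
      rw [zcomp, P.cpow, zcomp]
      congr 2
      ring
    apply hyA (-(q * J - q * m + c))
    rw [← h6]
    refine ⟨h5, ?_⟩
    rw [P.oz, P.oz]
    exact hc

end Pool.Agent.Lib_helper44
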