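import Mathlib
import Pool.Agent.Lib_helper44.BS3

open MeasureTheory Filter Topology Complex Module
open scoped ENNReal NNReal ComplexConjugate InnerProductSpace

set_option linter.unusedSectionVars false

namespace Pool.Agent.Lib_helper44

variable {E : Type*} [NormedAddCommGroup E] [InnerProductSpace ℝ E] [FiniteDimensional ℝ E]
  [MeasurableSpace E] [BorelSpace E]

/-- projection onto a subspace -/
noncomputable def pU (U : Submodule ℝ E) : E →L[ℝ] U := U.orthogonalProjectionOnto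

/-- projection onto the orthogonal complement -/
noncomputable def pW (U : Submodule ℝ E) : E →L[ℝ] Uᗮ := Uᗮ.orthogonalProjectionOnto

variable (U : Submodule ℝ E)

theorem pU_add_pW (x : E) : (pU U x : E) + (pW U x : E) = x := by
  unfold pU pW
  rw [Submodule.coe_orthogonalProjectionOnto_apply, Submodule.coe_orthogonalProjectionOnto_apply]
  exact Submodule.starProjection_add_starProjection_orthogonal x

theorem pU_coe (u : U) : pU U u = u := U.orthogonalProjectionOnto_mem_subspace_eq_self u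

theorem pW_coe (w : Uᗮ) : pW U w = w := Uᗮ.orthogonalProjectionOnto_mem_subspace_eq_self w

theorem pU_coeW (w : Uᗮ) : pU U w = 0 := by
  unfold pU
  rw [Submodule.orthogonalProjectionOnto_eq_zero_iff]
  exact w.2

theorem pW_eq_zero_iff {x : E} : pW U x = 0 ↔ x ∈ U := by
  constructor
  · intro h
    have h1 := pU_add_pW U x
    rw [h, Submodule.coe_zero, add_zero] at h1
    rw [← h1]
    exact (pU U x).2
  · intro h
    unfold pW
    rw [Submodule.orthogonalProjectionOnto_eq_zero_iff]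
    exact Submodule.le_orthogonal_orthogonal U h

theorem pW_of_mem {x : E} (h : x ∈ U) : pW U x = 0 := (pW_eq_zero_iff U).mpr h

theorem pW_eq_iff {x y : E} : pW U x = pW U y ↔ x - y ∈ U := by
  rw [← pW_eq_zero_iff U, map_sub, sub_eq_zero]

theorem norm_pU_le (x : E) : ‖pU U x‖ ≤ ‖x‖ := U.norm_orthogonalProjectionOnto_apply_le x

theorem norm_pW_le (x : E) : ‖pW U x‖ ≤ ‖x‖ := Uᗮ.norm_orthogonalProjectionOnto_apply_le x

theorem pW_surjective : Function.Surjective (pW U) := fun w => ⟨w, pW_coe U w⟩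

theorem norm_le_pU_pW (x : E) : ‖x‖ ≤ ‖pU U x‖ + ‖pW U x‖ := by
  calc ‖x‖ = ‖(pU U x : E) + (pW U x : E)‖ := by rw [pU_add_pW]
    _ ≤ _ := norm_add_le _ _

theorem ae_pW {p : Uᗮ → Prop} (hp : MeasurableSet {w | p w}) (h : ∀ᵐ w, p w) :
    ∀ᵐ x : E, p (pW U x) :=
  (ae_comp_linearMap_mem_iff (L := (pW U : E →ₗ[ℝ] Uᗮ)) (μ := (volume : Measure E))
    (ν := (volume : Measure Uᗮ)) (pW_surjective U) hp).mpr h

theorem ae_pW' {p : Uᗮ → Prop} (h : ∀ᵐ w, p w) : ∀ᵐ x : E, p (pW U x) := by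
  have h1 : volume (toMeasurable volume {w | ¬ p w}) = 0 := by
    rw [measure_toMeasurable]
    exact h
  have h2 : ∀ᵐ w, w ∉ toMeasurable volume {w : Uᗮ | ¬ p w} := by
    rw [ae_iff]
    simpa using h1
  have h3 := ae_pW U (p := fun w => w ∉ toMeasurable volume {w : Uᗮ | ¬ p w})
    (measurableSet_toMeasurable _ _).compl h2
  filter_upwards [h3] with x hx
  by_contra hcon
  exact hx (subset_toMeasurable _ _ hcon)

section

variable {U}
variable {C : E ≃L[ℝ] E}

theorem symm_mem (hC : ∀ v, C v ∈ U ↔ v ∈ U) {v : E} (hv : v ∈ U) : C.symm v ∈ U := by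
  rw [← hC, C.apply_symm_apply]
  exact hv

/-- the quotient action -/
noncomputable def CW (hC : ∀ v, C v ∈ U ↔ v ∈ U) : Uᗮ ≃L[ℝ] Uᗮ :=
  ContinuousLinearEquiv.equivOfInverse
    ((pW U).comp ((C : E →L[ℝ] E).comp Uᗮ.subtypeL))
    ((pW U).comp ((C.symm : E →L[ℝ] E).comp Uᗮ.subtypeL))
    (by
      intro w
      change pW U (C.symm (pW U (C w))) = w
      have h1 : C.symm ((pW U (C w) : Uᗮ) : E) = (w : E) - C.symm (pU U (C w)) := by
        have h2 : ((pW U (C w) : Uᗮ) : E) = C w - (pU U (C w) : E) := by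
          rw [eq_sub_iff_add_eq, add_comm, pU_add_pW]
        rw [h2, map_sub, C.symm_apply_apply]
      rw [h1, map_sub, pW_coe, pW_of_mem U (symm_mem hC (pU U (C w)).2), sub_zero])
    (by
      intro w
      change pW U (C (pW U (C.symm w))) = w
      have h1 : C ((pW U (C.symm w) : Uᗮ) : E) = (w : E) - C (pU U (C.symm w)) := by
        have h2 : ((pW U (C.symm w) : Uᗮ) : E) = C.symm w - (pU U (C.symm w) : E) := by
          rw [eq_sub_iff_add_eq, add_comm, pU_add_pW]
        rw [h2, map_sub, C.apply_symm_apply]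
      rw [h1, map_sub, pW_coe, pW_of_mem U ((hC _).mpr (pU U (C.symm w)).2), sub_zero])

theorem CW_pW (hC : ∀ v, C v ∈ U ↔ v ∈ U) (x : E) : CW hC (pW U x) = pW U (C x) := by
  change pW U (C (pW U x)) = pW U (C x)
  rw [pW_eq_iff, ← map_sub, hC]
  have h1 : ((pW U x : Uᗮ) : E) - x = -(pU U x : E) := by
    have := pU_add_pW U x
    rw [sub_eq_iff_eq_add, neg_add_eq_sub, eq_sub_iff_add_eq, add_comm]
    exact this
  rw [h1]
  exact U.neg_mem (pU U x).2

theorem CW_zpow (hC : ∀ v, C v ∈ U ↔ v ∈ U) (j : ℤ) (x : E) :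
    ((CW hC) ^ j) (pW U x) = pW U ((C ^ j) x) := by
  induction j using Int.induction_on generalizing x with
  | zero => simp
  | succ i ih =>
    have h1 : (C ^ ((i : ℤ) + 1)) x = (C ^ (i : ℤ)) (C x) := by
      rw [← zcomp, zpow_one]
    have h2 : ((CW hC) ^ ((i : ℤ) + 1)) (pW U x) = ((CW hC) ^ (i : ℤ)) ((CW hC) (pW U x)) := by
      rw [← zcomp, zpow_one]
    rw [h1, h2, CW_pW, ih]
  | pred i ih =>
    have h1 : ∀ x, (C ^ (-(i : ℤ))) x = (C ^ (-(i : ℤ) - 1)) (C x) := by
      intro x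
      have := zcomp C (-(i : ℤ) - 1) 1 x
      rw [zpow_one, sub_add_cancel] at this
      exact this.symm
    have h2 : ∀ w, ((CW hC) ^ (-(i : ℤ) - 1)) ((CW hC) w) = ((CW hC) ^ (-(i : ℤ))) w := by
      intro w
      have := zcomp (CW hC) (-(i : ℤ) - 1) 1 w
      rw [zpow_one, sub_add_cancel] at this
      exact this
    obtain ⟨y, rfl⟩ := C.surjective x
    rw [← CW_pW hC, h2, ih, h1]

end

/-- covering radius -/
theorem exists_cov {U : Submodule ℝ E} {G : AddSubgroup E}
    (hspan : Submodule.span ℝ (G : Set E) = U) : ∃ ρ : ℝ, 0 ≤ ρ ∧ ∀ x ∈ U, ∃ g ∈ G, ‖x + g‖ ≤ ρ := by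
  classical
  have hfg : (Submodule.span ℝ (G : Set E)).FG := Submodule.FG.of_finite
  obtain ⟨s, hs, hspan'⟩ := (Submodule.fg_span_iff_fg_span_finset_subset _).mp hfg
  refine ⟨∑ g ∈ s, ‖g‖, Finset.sum_nonneg fun _ _ => norm_nonneg _, fun x hx => ?_⟩
  rw [← hspan, hspan', Submodule.mem_span_finset] at hx
  obtain ⟨c, -, hc⟩ := hx
  refine ⟨-∑ g ∈ s, ⌊c g⌋ • g, ?_, ?_⟩
  · apply G.neg_mem
    exact AddSubgroup.sum_mem _ fun g hg => G.zsmul_mem (hs hg) _
  · have h1 : x + -∑ g ∈ s, ⌊c g⌋ • g = ∑ g ∈ s, Int.fract (c g) • g := by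
      rw [← hc, ← sub_eq_add_neg, ← Finset.sum_sub_distrib]
      apply Finset.sum_congr rfl
      intro g _
      rw [← Int.cast_smul_eq_zsmul ℝ, ← sub_smul]
      rfl
    rw [h1]
    refine (norm_sum_le _ _).trans (Finset.sum_le_sum fun g _ => ?_)
    rw [norm_smul, Real.norm_of_nonneg (Int.fract_nonneg _)]
    exact mul_le_of_le_one_left (norm_nonneg _) (Int.fract_lt_one _).le

/-- fundamental domains of lattices in subspaces -/
theorem exists_fdU {U : Submodule ℝ E} {G : AddSubgroup E} (hGc : (G : Set E).Countable)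
    (hGU : ∀ v ∈ G, v ∈ U) {δ : ℝ} (hδ : 0 < δ) (hsep : ∀ v ∈ G, v ≠ 0 → δ ≤ ‖v‖) {ρ : ℝ}
    (hcov : ∀ x ∈ U, ∃ g ∈ G, ‖x + g‖ ≤ ρ) :
    ∃ F : Set E, MeasurableSet F ∧ IsAddFundamentalDomain G F (volume : Measure E) ∧
      ∃ c : ℝ≥0, c ≠ 0 ∧ ∀ S : Set Uᗮ, MeasurableSet S →
        volume (F ∩ (pW U) ⁻¹' S) = c * volume S := by
  classical
  set GU : AddSubgroup U := G.comap U.subtype.toAddMonoidHom with hGUdef
  have hGUc : (GU : Set U).Countable := hGc.preimage Subtype.val_injective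
  have hsepU : ∀ v ∈ GU, v ≠ 0 → δ ≤ ‖v‖ := by
    intro v hv hv0
    exact hsep v hv (fun h => hv0 (Subtype.ext h))
  obtain ⟨S₀, hS₀sub, hS₀m, hS₀pk, hS₀cov⟩ := exists_sec hGUc hδ hsepU
    (Z := Metric.closedBall (0 : U) ρ) Metric.isClosed_closedBall.measurableSet
  set F : Set E := (pU U) ⁻¹' S₀ with hF
  have hFm : MeasurableSet F := (pU U).continuous.measurable hS₀m
  have hpUadd : ∀ g ∈ G, ∀ x, ∃ g' ∈ GU, pU U (g + x) = pU U x + g' ∧ (g' : E) = g := by
    intro g hg x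
    refine ⟨⟨g, hGU g hg⟩, hg, ?_, rfl⟩
    rw [map_add, add_comm]
    congr 1
    exact pU_coe U ⟨g, hGU g hg⟩
  have hFD : IsAddFundamentalDomain G F (volume : Measure E) := by
    apply IsAddFundamentalDomain.mk' hFm.nullMeasurableSet
    intro x
    obtain ⟨g, hg, hgx⟩ := hcov (pU U x) (pU U x).2
    have h1 : (pU U x : U) + ⟨g, hGU g hg⟩ ∈ Metric.closedBall (0 : U) ρ := by
      rw [mem_closedBall_zero_iff]
      exact hgx
    obtain ⟨g', hg', h2⟩ := hS₀cov h1
    refine ⟨⟨g + g', G.add_mem hg hg'⟩, ?_, ?_⟩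
    · change pU U (g + g' + x) ∈ S₀
      obtain ⟨w, hw, hw1, hw2⟩ := hpUadd (g + g') (G.add_mem hg hg') x
      rw [hw1]
      have h3 : w = ⟨g, hGU g hg⟩ + g' := Subtype.ext hw2
      rw [h3, ← add_assoc]
      exact h2
    · rintro ⟨w, hw⟩ hwF
      change pU U (w + x) ∈ S₀ at hwF
      obtain ⟨w1, hw1, hw2, hw3⟩ := hpUadd w hw x
      rw [hw2] at hwF
      have h4 := hS₀pk _ hwF _ h2 (by
        have h5 : (pU U x + (⟨g, hGU g hg⟩ : U) + g') - (pU U x + w1)
            = (⟨g, hGU g hg⟩ : U) + g' - w1 := by abel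
        rw [h5]
        exact GU.sub_mem (GU.add_mem hg hg') hw1)
      rw [add_assoc, add_left_cancel_iff] at h4
      apply Subtype.ext
      change w = g + g'
      rw [← hw3, h4]
      rfl
  refine ⟨F, hFm, hFD, ?_⟩
  set ν : Measure Uᗮ := (volume.restrict F).map (pW U) with hν
  have hνS : ∀ S : Set Uᗮ, MeasurableSet S → ν S = volume (F ∩ (pW U) ⁻¹' S) := by
    intro S hS
    rw [hν, Measure.map_apply (pW U).continuous.measurable hS,
      Measure.restrict_apply ((pW U).continuous.measurable hS), Set.inter_comm]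
  have hinv : ν.IsAddLeftInvariant := by
    refine ⟨fun w => ?_⟩
    ext S hS
    rw [Measure.map_apply (measurable_const_add w) hS, hνS S hS,
      hνS _ ((measurable_const_add w) hS)]
    rw [← measure_preimage_add (volume : Measure E) (w : E) (F ∩ (pW U) ⁻¹' S)]
    congr 1
    ext x
    simp only [Set.mem_inter_iff, Set.mem_preimage, hF]
    rw [map_add, map_add, pU_coeW, pW_coe, zero_add]
  have hfin : IsFiniteMeasureOnCompacts ν := by
    refine ⟨fun K hK => ?_⟩
    obtain ⟨r, hr⟩ := hK.isBounded.exists_norm_le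
    rw [hνS K hK.measurableSet]
    have h1 : F ∩ (pW U) ⁻¹' K ⊆ Metric.closedBall (0 : E) (ρ + r) := by
      rintro x ⟨hx1, hx2⟩
      rw [mem_closedBall_zero_iff]
      refine (norm_le_pU_pW U x).trans (add_le_add ?_ (hr _ hx2))
      have := hS₀sub hx1
      rwa [mem_closedBall_zero_iff] at this
    exact (measure_mono h1).trans_lt measure_closedBall_lt_top
  have hsmul := Measure.isAddLeftInvariant_eq_smul ν (volume : Measure Uᗮ)
  refine ⟨Measure.addHaarScalarFactor ν (volume : Measure Uᗮ), ?_, ?_⟩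
  · intro h0
    rw [h0, zero_smul] at hsmul
    have h1 : volume F = 0 := by
      have h2 := hνS Set.univ MeasurableSet.univ
      rw [hsmul] at h2
      simpa using h2.symm
    have hcnt : Countable G := hGc.to_subtype
    exact hFD.measure_ne_zero (NeZero.ne _) h1
  · intro S hS
    rw [← hνS S hS]
    conv_lhs => rw [hsmul]
    rfl

end Pool.Agent.Lib_helper44
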