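import Mathlib
import Pool.Agent.Lib_helper44.Dec
import Pool.Agent.Lib_helper44.Count2

open MeasureTheory Filter Topology Complex Module
open scoped ENNReal NNReal ComplexConjugate InnerProductSpace

set_option linter.unusedSectionVars false

namespace Pool.Agent.Lib_helper44

variable {E : Type*} [NormedAddCommGroup E] [InnerProductSpace ℝ E] [FiniteDimensional ℝ E]
  [MeasurableSpace E] [BorelSpace E] {n : ℕ}

theorem Cz (B : E ≃L[ℝ] E) (q : ℕ) (j : ℤ) (x : E) :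
    ((B ^ (q : ℤ)) ^ j) x = (B ^ ((q : ℤ) * j)) x := by
  rw [← zpow_mul]

/-- the stable part of `R` -/
def DQ (B : E ≃L[ℝ] E) (Λ : AddSubgroup E) (q : ℕ) : AddSubgroup E where
  carrier := {v | ∀ k : ℕ, ((B ^ (q : ℤ)) ^ (-(k : ℤ))) v ∈ RQ B Λ q}
  zero_mem' := fun k => by rw [map_zero]; exact (RQ B Λ q).zero_mem
  add_mem' := fun ha hb k => by rw [map_add]; exact (RQ B Λ q).add_mem (ha k) (hb k)
  neg_mem' := fun ha k => by rw [map_neg]; exact (RQ B Λ q).neg_mem (ha k)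

theorem mem_DQ {B : E ≃L[ℝ] E} {Λ : AddSubgroup E} {q : ℕ} {v : E} :
    v ∈ DQ B Λ q ↔ ∀ k : ℕ, ((B ^ (q : ℤ)) ^ (-(k : ℤ))) v ∈ RQ B Λ q := Iff.rfl

theorem DQ_le {B : E ≃L[ℝ] E} {Λ : AddSubgroup E} {q : ℕ} : DQ B Λ q ≤ RQ B Λ q := by
  intro v hv
  have := hv 0
  simpa using this

theorem DQ_step {B : E ≃L[ℝ] E} {Λ : AddSubgroup E} {q : ℕ} {v : E} (hv : v ∈ DQ B Λ q) :
    ((B ^ (q : ℤ)) ^ (-1 : ℤ)) v ∈ DQ B Λ q := by
  intro k
  rw [zcomp]
  have h1 : -(k : ℤ) + -1 = -((k + 1 : ℕ) : ℤ) := by push_cast; ring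
  rw [h1]
  exact hv (k + 1)

theorem DQ_pow {B : E ≃L[ℝ] E} {Λ : AddSubgroup E} {q : ℕ} (j : ℕ) {v : E} (hv : v ∈ DQ B Λ q) :
    ((B ^ (q : ℤ)) ^ (-(j : ℤ))) v ∈ DQ B Λ q := by
  intro k
  rw [zcomp]
  have h1 : -(k : ℤ) + -(j : ℤ) = -((k + j : ℕ) : ℤ) := by push_cast; ring
  rw [h1]
  exact hv (k + j)

/-- a multiple of `R` lies in the stable part -/
theorem exists_mul_DQ (γ : Basis (Fin n) ℝ E) (B : E ≃L[ℝ] E) (q : ℕ) :
    ∃ N : ℕ, 0 < N ∧ ∀ v ∈ RQ B (dualL γ) q, N • v ∈ DQ B (dualL γ) q := by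
  obtain ⟨N, hN, h1⟩ := fg_common (κ := ℕ) (Λ := dualL γ) (G := RQ B (dualL γ) q)
    (dualL_fg γ _ inf_le_left) (fun k => B ^ (-((q : ℤ) * k))) (by
      rintro g ⟨-, hg⟩
      exact hg.2)
  refine ⟨N, hN, fun v hv k => ?_⟩
  rw [map_nsmul, Cz, mul_neg]
  refine ⟨h1 v hv k, (UQ B (dualL γ) q).nsmul_mem ?_ N⟩
  have := UQ_stable (-(k : ℤ)) hv.2
  rwa [mul_neg] at this

/-- the real span of `R` -/
def UR (B : E ≃L[ℝ] E) (Λ : AddSubgroup E) (q : ℕ) : Submodule ℝ E :=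
  Submodule.span ℝ (RQ B Λ q : Set E)

theorem RQ_le_UR {B : E ≃L[ℝ] E} {Λ : AddSubgroup E} {q : ℕ} {v : E} (hv : v ∈ RQ B Λ q) :
    v ∈ UR B Λ q := Submodule.subset_span hv

theorem span_DQ (γ : Basis (Fin n) ℝ E) (B : E ≃L[ℝ] E) (q : ℕ) :
    Submodule.span ℝ (DQ B (dualL γ) q : Set E) = UR B (dualL γ) q := by
  apply le_antisymm
  · exact Submodule.span_mono DQ_le
  · obtain ⟨N, hN, h1⟩ := exists_mul_DQ γ B q
    unfold UR
    rw [Submodule.span_le]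
    intro v hv
    have h2 : (N : ℝ) • v ∈ Submodule.span ℝ (DQ B (dualL γ) q : Set E) := by
      rw [Nat.cast_smul_eq_nsmul]
      exact Submodule.subset_span (h1 v hv)
    have hN' : (N : ℝ) ≠ 0 := by exact_mod_cast hN.ne'
    have h3 := Submodule.smul_mem _ ((N : ℝ)⁻¹) h2
    rwa [smul_smul, inv_mul_cancel₀ hN', one_smul] at h3

theorem mem_UR_iff (γ : Basis (Fin n) ℝ E) (B : E ≃L[ℝ] E) (q : ℕ) (v : E) :
    (B ^ (q : ℤ)) v ∈ UR B (dualL γ) q ↔ v ∈ UR B (dualL γ) q := by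
  set C := B ^ (q : ℤ) with hC
  set U := UR B (dualL γ) q with hU
  have h1 : ∀ v ∈ U, (C ^ (-1 : ℤ)) v ∈ U := by
    intro v hv
    rw [hU, ← span_DQ γ B q] at hv ⊢
    induction hv using Submodule.span_induction with
    | mem x hx => exact Submodule.subset_span (DQ_step hx)
    | zero => rw [map_zero]; exact Submodule.zero_mem _
    | add x y _ _ hx hy => rw [map_add]; exact Submodule.add_mem _ hx hy
    | smul c x _ hx => rw [map_smul]; exact Submodule.smul_mem _ c hx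
  let f : U →ₗ[ℝ] U := LinearMap.restrict ((C ^ (-1 : ℤ)).toLinearEquiv : E →ₗ[ℝ] E) h1
  have hf : ∀ u : U, (f u : E) = (C ^ (-1 : ℤ)) u := fun u => rfl
  have hinj : Function.Injective f := by
    intro u u' huu'
    have h2 : (f u : E) = (f u' : E) := by rw [huu']
    rw [hf, hf] at h2
    exact Subtype.ext ((C ^ (-1 : ℤ)).injective h2)
  have hsurj : Function.Surjective f := LinearMap.injective_iff_surjective.mp hinj
  have h3 : ∀ v, (C ^ (-1 : ℤ)) (C v) = v := by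
    intro v
    have := zcomp C (-1) 1 v
    rw [zpow_one] at this
    rw [this]
    simp
  constructor
  · intro h
    have := h1 _ h
    rwa [h3] at this
  · intro h
    obtain ⟨u, hu⟩ := hsurj ⟨v, h⟩
    have h4 : (C ^ (-1 : ℤ)) u = v := by
      rw [← hf, hu]
    rw [← h4]
    have h5 : C ((C ^ (-1 : ℤ)) u) = u := by
      have := zcomp C 1 (-1) u
      rw [zpow_one] at this
      rw [this]
      simp
    rw [h5]
    exact u.2

/-- covering radius of the stable part -/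
theorem exists_cov_DQ (γ : Basis (Fin n) ℝ E) (B : E ≃L[ℝ] E) (q : ℕ) :
    ∃ ρ : ℝ, 0 ≤ ρ ∧ ∀ x ∈ UR B (dualL γ) q, ∃ g ∈ DQ B (dualL γ) q, ‖x + g‖ ≤ ρ :=
  exists_cov (span_DQ γ B q)

/-- lattice points in the span -/
theorem mem_RQ_of_mem_UR {γ : Basis (Fin n) ℝ E} {B : E ≃L[ℝ] E} {q : ℕ} {v : E}
    (hv : v ∈ dualL γ) (hvU : v ∈ UR B (dualL γ) q) : v ∈ RQ B (dualL γ) q := by
  classical
  obtain ⟨ρ, -, hcov⟩ := exists_cov_DQ γ B q
  have h1 : ∀ k : ℕ, ∃ g ∈ DQ B (dualL γ) q, ‖k • v + g‖ ≤ ρ := by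
    intro k
    apply hcov
    rw [← Nat.cast_smul_eq_nsmul ℝ]
    exact Submodule.smul_mem _ _ hvU
  choose g hg hgn using h1
  have hfin := finite_lattice_ball γ ρ
  have hmem : ∀ k : ℕ, k • v + g k ∈ ({v | v ∈ dualL γ ∧ ‖v‖ ≤ ρ} : Set E) := fun k =>
    ⟨(dualL γ).add_mem ((dualL γ).nsmul_mem hv k) (DQ_le (hg k)).1, hgn k⟩
  have hninj : ¬ Function.Injective (fun k : ℕ => k • v + g k) := by
    intro hinj
    have h2 : (Set.range (fun k : ℕ => k • v + g k)).Infinite := Set.infinite_range_of_injective hinj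
    exact h2 (hfin.subset (Set.range_subset_iff.mpr hmem))
  rw [Function.not_injective_iff] at hninj
  obtain ⟨k, k', hkk', hne⟩ := hninj
  wlog hlt : k' < k generalizing k k'
  · exact this k' k hkk'.symm (Ne.symm hne) (by omega)
  refine ⟨hv, UQ_of_nsmul (N := k - k') (by omega) ?_⟩
  have h3 : (k - k') • v = g k' - g k := by
    have h4 : k • v = (k - k') • v + k' • v := by
      rw [← add_smul]
      congr 1
      omega
    rw [h4] at hkk'
    have h5 : (k - k') • v + k' • v + g k - (k' • v + g k) = k' • v + g k' - (k' • v + g k) := by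
      rw [hkk']
    have e1 : (k - k') • v + k' • v + g k - (k' • v + g k) = (k - k') • v := by abel
    have e2 : k' • v + g k' - (k' • v + g k) = g k' - g k := by abel
    rw [e1, e2] at h5
    exact h5
  rw [h3]
  exact (UQ B (dualL γ) q).sub_mem (DQ_le (hg k')).2 (DQ_le (hg k)).2

/-- representatives of `R` modulo the stable part -/
theorem exists_reps (γ : Basis (Fin n) ℝ E) (B : E ≃L[ℝ] E) (q : ℕ) :
    ∃ (κ : ℕ) (rep : Fin κ → E), (∀ a, rep a ∈ RQ B (dualL γ) q) ∧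
      ∀ r ∈ RQ B (dualL γ) q, ∃ a, r - rep a ∈ DQ B (dualL γ) q := by
  classical
  obtain ⟨ρ, -, hcov⟩ := exists_cov_DQ γ B q
  have hfin : ({v | v ∈ RQ B (dualL γ) q ∧ ‖v‖ ≤ ρ} : Set E).Finite := by
    apply (finite_lattice_ball γ ρ).subset
    rintro v ⟨hv, hvρ⟩
    exact ⟨hv.1, hvρ⟩
  have hs : ∀ v, v ∈ hfin.toFinset ↔ v ∈ RQ B (dualL γ) q ∧ ‖v‖ ≤ ρ := fun v =>
    Set.Finite.mem_toFinset hfin
  generalize hfin.toFinset = s at hs
  refine ⟨s.card, fun a => (s.equivFin.symm a : E), fun a =>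
    ((hs _).mp (s.equivFin.symm a).2).1, fun r hr => ?_⟩
  obtain ⟨g, hg, hgn⟩ := hcov r (RQ_le_UR hr)
  have h1 : r + g ∈ s := (hs _).mpr ⟨(RQ B (dualL γ) q).add_mem hr (DQ_le hg), hgn⟩
  refine ⟨s.equivFin ⟨r + g, h1⟩, ?_⟩
  simp only [Equiv.symm_apply_apply]
  have h2 : r - (r + g) = -g := by abel
  rw [h2]
  exact (DQ B (dualL γ) q).neg_mem hg

end Pool.Agent.Lib_helper44
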