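import Mathlib
import Pool.Agent.Lib_helper44.LatR

open MeasureTheory Filter Topology Complex Module
open scoped ENNReal NNReal ComplexConjugate InnerProductSpace

set_option linter.unusedSectionVars false

namespace Pool.Agent.Lib_helper44

variable {E : Type*} [NormedAddCommGroup E] [InnerProductSpace ℝ E] [FiniteDimensional ℝ E]
  [MeasurableSpace E] [BorelSpace E] {n : ℕ}

/-- the number of cosets meeting a larger ball -/
noncomputable def ncoR (B : E ≃L[ℝ] E) (Λ L : AddSubgroup E) (j : ℤ) (R : ℝ) : ℕ∞ :=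
  ((fun v : E => ({w | w - v ∈ L} : Set E)) '' {v | v ∈ Λ ∧ ‖(B ^ j) v‖ ≤ R}).encard

theorem exists_nco_scale (E : Type*) [NormedAddCommGroup E] [InnerProductSpace ℝ E]
    [FiniteDimensional ℝ E] (R : ℝ) : ∃ K : ℕ, ∀ (B : E ≃L[ℝ] E) (Λ L : AddSubgroup E) (j : ℤ),
      ncoR B Λ L j R ≤ K * nco B Λ L j := by
  classical
  have hcomp : IsCompact (Metric.closedBall (0 : E) R) := isCompact_closedBall _ _
  obtain ⟨t, ht, htf, hcov⟩ := hcomp.finite_cover_balls (e := 1 / 2) (by norm_num)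
  have htfin : t.Finite := htf
  set T := htfin.toFinset with hT
  refine ⟨T.card, fun B Λ L j => ?_⟩
  set cs : E → Set E := fun v => {w | w - v ∈ L} with hcs
  have hsub : (cs '' {v | v ∈ Λ ∧ ‖(B ^ j) v‖ ≤ R} : Set (Set E))
      ⊆ ⋃ x ∈ T, cs '' {v | v ∈ Λ ∧ ‖(B ^ j) v - x‖ < 1 / 2} := by
    rintro _ ⟨v, ⟨hv, hvR⟩, rfl⟩
    have h1 : (B ^ j) v ∈ Metric.closedBall (0 : E) R := by
      rwa [mem_closedBall_zero_iff]
    have h2 := hcov h1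
    rw [Set.mem_iUnion₂] at h2 ⊢
    obtain ⟨x, hx, hxv⟩ := h2
    refine ⟨x, by rwa [hT, Set.Finite.mem_toFinset], v, ⟨hv, ?_⟩, rfl⟩
    rwa [← dist_eq_norm]
  have hpiece : ∀ x ∈ T, (cs '' {v | v ∈ Λ ∧ ‖(B ^ j) v - x‖ < 1 / 2} : Set (Set E)).encard
      ≤ nco B Λ L j := by
    intro x _
    rcases Set.eq_empty_or_nonempty ({v | v ∈ Λ ∧ ‖(B ^ j) v - x‖ < 1 / 2} : Set E) with h0 | h0
    · rw [h0, Set.image_empty, Set.encard_empty]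
      exact zero_le
    · obtain ⟨v₀, hv₀, hv₀x⟩ := h0
      unfold nco
      have hmaps : ∀ S ∈ (cs '' {v | v ∈ Λ ∧ ‖(B ^ j) v - x‖ < 1 / 2} : Set (Set E)),
          (fun w => w + v₀) ⁻¹' S ∈ (cs '' {v | v ∈ Λ ∧ ‖(B ^ j) v‖ < 1} : Set (Set E)) := by
        rintro _ ⟨v, ⟨hv, hvx⟩, rfl⟩
        refine ⟨v - v₀, ⟨Λ.sub_mem hv hv₀, ?_⟩, ?_⟩
        · rw [map_sub]
          have h3 : (B ^ j) v - (B ^ j) v₀ = ((B ^ j) v - x) - ((B ^ j) v₀ - x) := by abel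
          rw [h3]
          refine (norm_sub_le _ _).trans_lt ?_
          linarith
        · ext w
          simp only [hcs, Set.mem_ofPred_eq, Set.mem_preimage]
          have h4 : w - (v - v₀) = w + v₀ - v := by abel
          rw [h4]
      refine Set.encard_le_encard_of_injOn hmaps (fun S _ S' _ hSS' => ?_)
      have hsurj : Function.Surjective (fun w : E => w + v₀) := fun w => ⟨w - v₀, by simp⟩
      exact hsurj.preimage_injective hSS'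
  calc ncoR B Λ L j R ≤ (⋃ x ∈ T, cs '' {v | v ∈ Λ ∧ ‖(B ^ j) v - x‖ < 1 / 2} :
        Set (Set E)).encard := Set.encard_le_encard hsub
    _ ≤ ∑ x ∈ T, (cs '' {v | v ∈ Λ ∧ ‖(B ^ j) v - x‖ < 1 / 2} : Set (Set E)).encard := by
        clear hsub hpiece hcov
        induction T using Finset.induction_on with
        | empty => simp
        | insert a s ha ih =>
          rw [Finset.sum_insert ha]
          have : (⋃ x ∈ insert a s, cs '' {v | v ∈ Λ ∧ ‖(B ^ j) v - x‖ < 1 / 2} : Set (Set E))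
              = (cs '' {v | v ∈ Λ ∧ ‖(B ^ j) v - a‖ < 1 / 2}) ∪
                (⋃ x ∈ s, cs '' {v | v ∈ Λ ∧ ‖(B ^ j) v - x‖ < 1 / 2}) := by
            exact Finset.set_biUnion_insert a s
              (fun x => cs '' {v | v ∈ Λ ∧ ‖(B ^ j) v - x‖ < 1 / 2})
          rw [this]
          exact (Set.encard_union_le _ _).trans (by gcongr)
    _ ≤ ∑ x ∈ T, nco B Λ L j := Finset.sum_le_sum hpiece
    _ = T.card * nco B Λ L j := by rw [Finset.sum_const, nsmul_eq_mul]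

theorem exists_sep_finite {S : Set E} (hS : S.Finite) :
    ∃ δ : ℝ, 0 < δ ∧ ∀ w ∈ S, w ≠ 0 → δ ≤ ‖w‖ := by
  classical
  refine Set.Finite.induction_on (motive := fun S _ => ∃ δ : ℝ, 0 < δ ∧ ∀ w ∈ S, w ≠ 0 → δ ≤ ‖w‖)
    S hS ⟨1, one_pos, fun w hw => absurd hw (Set.notMem_empty w)⟩ ?_
  intro a s _ _ ih
  obtain ⟨δ, hδ, h⟩ := ih
  by_cases ha : a = 0
  · refine ⟨δ, hδ, fun w hw hw0 => ?_⟩
    rcases hw with rfl | hw
    · exact absurd ha hw0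
    · exact h w hw hw0
  · refine ⟨min δ ‖a‖, lt_min hδ (norm_pos_iff.mpr ha), fun w hw hw0 => ?_⟩
    rcases hw with rfl | hw
    · exact min_le_right _ _
    · exact (min_le_left _ _).trans (h w hw hw0)

/-- the end condition, abstract form -/
def PosC (B : E ≃L[ℝ] E) (Λ L : AddSubgroup E) : Prop :=
  (∑' k : ℕ, ((nco B Λ L k : ℕ∞) : ℝ≥0∞)⁻¹ = ⊤) ∧
    ∀ M : ℝ≥0∞, M ≠ ⊤ → ∃ k : ℕ, M < ENNReal.ofReal (adet B ^ k) *
      ((cn B L k 1 : ℕ∞) : ℝ≥0∞)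

/-- the projected lattice -/
noncomputable def LW (γ : Basis (Fin n) ℝ E) (U : Submodule ℝ E) : AddSubgroup Uᗮ :=
  (dualL γ).map (pW U).toLinearMap.toAddMonoidHom

theorem mem_LW {γ : Basis (Fin n) ℝ E} {U : Submodule ℝ E} {w : Uᗮ} :
    w ∈ LW γ U ↔ ∃ v ∈ dualL γ, pW U v = w := Iff.rfl

/-- adjusting lattice vectors -/
theorem adjust (γ : Basis (Fin n) ℝ E) (B : E ≃L[ℝ] E) (q : ℕ) {ρ : ℝ}
    (hcov : ∀ x ∈ UR B (dualL γ) q, ∃ g ∈ DQ B (dualL γ) q, ‖x + g‖ ≤ ρ) (m : ℕ) {v : E}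
    (hv : v ∈ dualL γ) : ∃ v' ∈ dualL γ, v' - v ∈ DQ B (dualL γ) q ∧
      pW (UR B (dualL γ) q) v' = pW (UR B (dualL γ) q) v ∧
      ‖((B ^ (q : ℤ)) ^ (m : ℤ)) v'‖ ≤
        ρ + ‖pW (UR B (dualL γ) q) (((B ^ (q : ℤ)) ^ (m : ℤ)) v)‖ := by
  set U := UR B (dualL γ) q with hU
  set C := B ^ (q : ℤ) with hC
  obtain ⟨g, hg, hgn⟩ := hcov (pU U ((C ^ (m : ℤ)) v)) (pU U ((C ^ (m : ℤ)) v)).2
  have hg' : (C ^ (-(m : ℤ))) g ∈ DQ B (dualL γ) q := DQ_pow m hg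
  refine ⟨v + (C ^ (-(m : ℤ))) g, (dualL γ).add_mem hv (DQ_le hg').1, ?_, ?_, ?_⟩
  · rw [add_sub_cancel_left]
    exact hg'
  · rw [map_add, pW_of_mem U (RQ_le_UR (DQ_le hg')), add_zero]
  · rw [map_add, zcancel]
    refine (norm_le_pU_pW U _).trans (add_le_add ?_ ?_)
    · have h1 : ((pU U ((C ^ (m : ℤ)) v + g) : U) : E) = (pU U ((C ^ (m : ℤ)) v) : E) + g := by
        rw [map_add]
        have h2 := pU_coe U ⟨g, RQ_le_UR (DQ_le hg)⟩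
        change ((pU U ((C ^ (m : ℤ)) v) : U) : E) + ((pU U g : U) : E) = _
        have h3 : ((pU U g : U) : E) = g := congrArg Subtype.val h2
        rw [h3]
      have h4 : ‖pU U ((C ^ (m : ℤ)) v + g)‖ = ‖((pU U ((C ^ (m : ℤ)) v + g) : U) : E)‖ := rfl
      rw [h4, h1]
      exact hgn
    · rw [map_add, pW_of_mem U (RQ_le_UR (DQ_le hg)), add_zero]

theorem countable_LW (γ : Basis (Fin n) ℝ E) (U : Submodule ℝ E) :
    (LW γ U : Set Uᗮ).Countable := (countable_dualL γ).image _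

theorem LW_fin (γ : Basis (Fin n) ℝ E) (B : E ≃L[ℝ] E) (q : ℕ) (m : ℕ) (R : ℝ) :
    ({w | w ∈ LW γ (UR B (dualL γ) q) ∧ ‖((CW (mem_UR_iff γ B q)) ^ (m : ℤ)) w‖ ≤ R} :
      Set (UR B (dualL γ) q)ᗮ).Finite := by
  obtain ⟨ρ, hρ, hcov⟩ := exists_cov_DQ γ B q
  apply ((finite_lattice_dil γ (B ^ (q : ℤ)) (m : ℤ) (ρ + R)).image
    (pW (UR B (dualL γ) q))).subset
  rintro _ ⟨⟨v, hv, rfl⟩, hw⟩
  obtain ⟨v', hv', -, h1, h2⟩ := adjust γ B q hcov m hv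
  refine ⟨v', ⟨hv', h2.trans ?_⟩, h1⟩
  have h3 : ‖((CW (mem_UR_iff γ B q)) ^ (m : ℤ)) (pW (UR B (dualL γ) q) v)‖ ≤ R := hw
  rw [CW_zpow] at h3
  linarith

theorem LW_sep (γ : Basis (Fin n) ℝ E) (B : E ≃L[ℝ] E) (q : ℕ) :
    ∃ δ : ℝ, 0 < δ ∧ ∀ w ∈ LW γ (UR B (dualL γ) q), w ≠ 0 → δ ≤ ‖w‖ := by
  obtain ⟨δ, hδ, h⟩ := exists_sep_finite (LW_fin γ B q 0 1)
  refine ⟨min δ 1, lt_min hδ one_pos, fun w hw hw0 => ?_⟩
  by_cases h1 : ‖w‖ ≤ 1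
  · exact (min_le_left _ _).trans (h w ⟨hw, by simpa using h1⟩ hw0)
  · exact (min_le_right _ _).trans (not_le.mp h1).le

/-- divergence passes to the quotient -/
theorem LW_div (γ : Basis (Fin n) ℝ E) (B : E ≃L[ℝ] E) {q : ℕ} (hq : 0 < q)
    (hdiv : ∑' k : ℕ, ((nco B (dualL γ) (RQ B (dualL γ) q) k : ℕ∞) : ℝ≥0∞)⁻¹ = ⊤) {R : ℝ}
    (hR : 0 ≤ R) :
    ∑' m : ℕ, ((cn (CW (mem_UR_iff γ B q)) (LW γ (UR B (dualL γ) q)) m R : ℕ∞) : ℝ≥0∞)⁻¹ = ⊤ := by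
  classical
  obtain ⟨ρ, hρ, hcov⟩ := exists_cov_DQ γ B q
  set U := UR B (dualL γ) q with hU
  set C := B ^ (q : ℤ) with hC
  have hn0 : ∀ k : ℕ, ((nco B (dualL γ) (RQ B (dualL γ) q) k : ℕ∞) : ℝ≥0∞) ≠ 0 := by
    intro k
    have : nco B (dualL γ) (RQ B (dualL γ) q) k ≠ 0 := by
      unfold nco
      rw [Set.encard_ne_zero]
      exact ⟨_, 0, ⟨(dualL γ).zero_mem, by rw [map_zero, norm_zero]; exact one_pos⟩, rfl⟩
    simpa using this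
  obtain ⟨c, hc⟩ := exists_class (fun k => ENNReal.inv_ne_top.mpr (hn0 k)) hdiv hq 0
  obtain ⟨K, hK⟩ := exists_nco_scale E (‖((B ^ (c : ℤ) : E ≃L[ℝ] E) : E →L[ℝ] E)‖ * (ρ + R))
  have hcn : ∀ m : ℕ, cn (CW (mem_UR_iff γ B q)) (LW γ U) m R
      ≤ K * nco B (dualL γ) (RQ B (dualL γ) q) ((c + q * (0 + m) : ℕ) : ℤ) := by
    intro m
    refine le_trans ?_ (hK B (dualL γ) (RQ B (dualL γ) q) ((c + q * (0 + m) : ℕ) : ℤ))
    unfold cn ncoR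
    have hex : ∀ w ∈ ({w | w ∈ LW γ U ∧ ‖((CW (mem_UR_iff γ B q)) ^ (m : ℤ)) w‖ ≤ R} : Set Uᗮ),
        ∃ v ∈ dualL γ, pW U v = w ∧ ‖(C ^ (m : ℤ)) v‖ ≤ ρ + R := by
      rintro _ ⟨⟨v, hv, rfl⟩, hw⟩
      obtain ⟨v', hv', -, h1, h2⟩ := adjust γ B q hcov m hv
      refine ⟨v', hv', h1, h2.trans ?_⟩
      have h3 : ‖((CW (mem_UR_iff γ B q)) ^ (m : ℤ)) (pW U v)‖ ≤ R := hw
      rw [CW_zpow] at h3
      linarith
    choose! f hf1 hf2 hf3 using hex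
    have hmaps : ∀ w ∈ ({w | w ∈ LW γ U ∧ ‖((CW (mem_UR_iff γ B q)) ^ (m : ℤ)) w‖ ≤ R} : Set Uᗮ),
        ({u | u - f w ∈ RQ B (dualL γ) q} : Set E) ∈
          ((fun v : E => ({u | u - v ∈ RQ B (dualL γ) q} : Set E)) ''
          {v | v ∈ dualL γ ∧ ‖(B ^ ((c + q * (0 + m) : ℕ) : ℤ)) v‖ ≤
            ‖((B ^ (c : ℤ) : E ≃L[ℝ] E) : E →L[ℝ] E)‖ * (ρ + R)}) := by
      intro w hw
      refine ⟨f w, ⟨hf1 w hw, ?_⟩, rfl⟩
      have h4 : (B ^ ((c + q * (0 + m) : ℕ) : ℤ)) (f w) = (B ^ (c : ℤ)) ((C ^ (m : ℤ)) (f w)) := by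
        rw [hC, Cz, zcomp]
        congr 2
        push_cast
        ring
      rw [h4]
      refine (zpow_norm_le B c _).trans ?_
      exact mul_le_mul_of_nonneg_left (hf3 w hw) (norm_nonneg _)
    refine Set.encard_le_encard_of_injOn hmaps (fun w hw w' hw' hww' => ?_)
    have h5 : f w ∈ ({u | u - f w' ∈ RQ B (dualL γ) q} : Set E) := by
      have h6 : ({u | u - f w ∈ RQ B (dualL γ) q} : Set E)
        = {u | u - f w' ∈ RQ B (dualL γ) q} := hww'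
      rw [← h6]
      change f w - f w ∈ RQ B (dualL γ) q
      rw [sub_self]
      exact (RQ B (dualL γ) q).zero_mem
    rw [← hf2 w hw, ← hf2 w' hw', pW_eq_iff]
    exact RQ_le_UR h5
  have hterm : ∀ m : ℕ, ((nco B (dualL γ) (RQ B (dualL γ) q) ((c + q * (0 + m) : ℕ) : ℤ) : ℕ∞) :
      ℝ≥0∞)⁻¹ ≤ K * ((cn (CW (mem_UR_iff γ B q)) (LW γ U) m R : ℕ∞) : ℝ≥0∞)⁻¹ := by
    intro m
    set a := ((nco B (dualL γ) (RQ B (dualL γ) q) ((c + q * (0 + m) : ℕ) : ℤ) : ℕ∞) : ℝ≥0∞) with ha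
    set b := ((cn (CW (mem_UR_iff γ B q)) (LW γ U) m R : ℕ∞) : ℝ≥0∞) with hb
    have hab : b ≤ K * a := by
      have h1 : b ≤ ((((K : ℕ∞) * nco B (dualL γ) (RQ B (dualL γ) q)
          ((c + q * (0 + m) : ℕ) : ℤ)) : ℕ∞) : ℝ≥0∞) := by
        rw [hb, ENat.toENNReal_le]
        exact hcn m
      rw [ENat.toENNReal_mul] at h1
      exact h1
    have ha0 : a ≠ 0 := hn0 _
    have hb0 : b ≠ 0 := by
      have h3 := one_le_cn (B := CW (mem_UR_iff γ B q)) (L := LW γ U) (m : ℤ) hR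
      intro h0
      have hb0' : cn (CW (mem_UR_iff γ B q)) (LW γ U) m R = 0 := by
        simpa [hb] using h0
      rw [hb0'] at h3
      exact absurd h3 (by norm_num)
    have hK0 : (K : ℝ≥0∞) ≠ 0 := by
      intro h0
      rw [h0, zero_mul] at hab
      exact hb0 (le_antisymm hab zero_le)
    calc a⁻¹ = K * (K * a)⁻¹ := by
          rw [ENNReal.mul_inv (Or.inl hK0) (Or.inl (ENNReal.natCast_ne_top K)), ← mul_assoc,
            ENNReal.mul_inv_cancel hK0 (ENNReal.natCast_ne_top K), one_mul]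
      _ ≤ K * b⁻¹ := mul_le_mul_right (ENNReal.inv_le_inv.mpr hab) _
  have h1 : (⊤ : ℝ≥0∞) ≤ K * ∑' m : ℕ, ((cn (CW (mem_UR_iff γ B q)) (LW γ U) m R : ℕ∞) :
      ℝ≥0∞)⁻¹ := by
    rw [← ENNReal.tsum_mul_left, ← hc]
    exact ENNReal.tsum_le_tsum hterm
  by_contra hne
  exact absurd (top_le_iff.mp h1) (ENNReal.mul_ne_top (ENNReal.natCast_ne_top K) hne)

end Pool.Agent.Lib_helper44
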