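import Mathlib
import Pool.Agent.Lib_helper44.BSW1

open MeasureTheory Filter Topology Complex Module
open scoped ENNReal NNReal ComplexConjugate InnerProductSpace

set_option linter.unusedSectionVars false

namespace Pool.Agent.Lib_helper44

variable {E : Type*} [NormedAddCommGroup E] [InnerProductSpace ℝ E] [FiniteDimensional ℝ E]
  [MeasurableSpace E] [BorelSpace E] {n : ℕ}

theorem tsum_sub_ge {G : AddSubgroup E} {F : E → ℝ≥0∞} {x g : E} (hg : g ∈ G) (s : Finset E)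
    (hs : ∀ v ∈ s, v ∈ G ∧ 1 ≤ F (x + g + v)) : (s.card : ℝ≥0∞) ≤ ∑' v : G, F (x + v) := by
  classical
  have h1 : ∑' v : G, F (x + v) = ∑' v : G, F (x + g + v) := by
    rw [← (Equiv.addLeft (⟨g, hg⟩ : G)).tsum_eq (fun w : G => F (x + w))]
    congr 1
    ext w
    change F (x + (g + w)) = _
    rw [add_assoc]
  have h2 : ∑' v : G, F (x + g + v)
      = ∑' v : E, (G : Set E).indicator (fun v => F (x + g + v)) v :=
    tsum_subtype (G : Set E) (fun v => F (x + g + v))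
  rw [h1, h2]
  refine le_trans ?_ (ENNReal.sum_le_tsum s)
  calc (s.card : ℝ≥0∞) = ∑ _v ∈ s, (1 : ℝ≥0∞) := by simp
    _ ≤ _ := Finset.sum_le_sum fun v hv => by
        rw [Set.indicator_of_mem (hs v hv).1]
        exact (hs v hv).2

theorem volume_unfoldG {G : AddSubgroup E} (hG : (G : Set E).Countable) {F : Set E}
    (hF : IsAddFundamentalDomain G F (volume : Measure E)) {K : Set E} (hK : MeasurableSet K) :
    volume K = ∫⁻ x in F, ∑' v : G, K.indicator (fun _ => (1 : ℝ≥0∞)) (x + v) := by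
  have : Countable G := hG.to_subtype
  have h1 := hF.lintegral_eq_tsum'' (K.indicator (fun _ => (1 : ℝ≥0∞)))
  rw [lintegral_indicator hK, setLIntegral_one] at h1
  rw [h1, lintegral_tsum (f := fun (v : G) (x : E) => K.indicator (fun _ => (1 : ℝ≥0∞)) (x + v))]
  · congr 1
    ext v
    apply lintegral_congr
    intro x
    change K.indicator (fun _ => (1 : ℝ≥0∞)) ((v : E) + x) = _
    rw [add_comm]
  · intro v
    exact ((measurable_const.indicator hK).comp (measurable_add_const (v : E))).aemeasurable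

theorem det_bound (γ : Basis (Fin n) ℝ E) (B : E ≃L[ℝ] E) (q : ℕ) {ρ' : ℝ} (hρ' : 0 ≤ ρ') :
    ∃ K : ℝ≥0∞, K ≠ ⊤ ∧ ∀ m : ℕ, ENNReal.ofReal (adet (B ^ (q : ℤ)) ^ m) *
      ((cn (B ^ (q : ℤ)) (RQ B (dualL γ) q) m ρ' : ℕ∞) : ℝ≥0∞)
      ≤ K * ENNReal.ofReal (adet (CW (mem_UR_iff γ B q)) ^ m) := by
  classical
  obtain ⟨ρ, hρ, hcov⟩ := exists_cov_DQ γ B q
  set U := UR B (dualL γ) q with hU
  set C := B ^ (q : ℤ) with hC
  set R := RQ B (dualL γ) q with hR
  set C' := CW (mem_UR_iff γ B q) with hC'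
  have hRL : R ≤ dualL γ := inf_le_left
  have hRc : (R : Set E).Countable := (countable_dualL γ).mono (fun v hv => hRL hv)
  obtain ⟨δ, hδ, hsep⟩ := dualL_discrete γ
  obtain ⟨F, hFm, hFD, c, hc0, hc⟩ := exists_fdU (U := U) hRc (fun v hv => RQ_le_UR hv) hδ
    (fun v hv hv0 => hsep v (hRL hv) hv0) (ρ := ρ)
    (fun x hx => by
      obtain ⟨g, hg, h⟩ := hcov x hx
      exact ⟨g, DQ_le hg, h⟩)
  set K' : Set E := {x | ‖pU U x‖ ≤ ρ + ρ' ∧ ‖pW U x‖ ≤ 1} with hK'
  have hK'm : MeasurableSet K' := by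
    apply MeasurableSet.inter
    · exact measurableSet_le ((pU U).continuous.norm.measurable) measurable_const
    · exact measurableSet_le ((pW U).continuous.norm.measurable) measurable_const
  have hK'fin : volume K' ≠ ⊤ := by
    have h1 : K' ⊆ Metric.closedBall (0 : E) (ρ + ρ' + 1) := by
      rintro x ⟨hx1, hx2⟩
      rw [mem_closedBall_zero_iff]
      exact (norm_le_pU_pW U x).trans (add_le_add hx1 hx2)
    exact ((measure_mono h1).trans_lt measure_closedBall_lt_top).ne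
  set V1 := volume (Metric.closedBall (0 : Uᗮ) 1) with hV1
  have hV10 : V1 ≠ 0 := (Metric.measure_closedBall_pos volume (0 : Uᗮ) one_pos).ne'
  have hV1t : V1 ≠ ⊤ := measure_closedBall_lt_top.ne
  have hcE0 : (c : ℝ≥0∞) ≠ 0 := by exact_mod_cast hc0
  refine ⟨volume K' / (c * V1), ENNReal.div_ne_top hK'fin (mul_ne_zero hcE0 hV10), fun m => ?_⟩
  have hfin : ({v | v ∈ R ∧ ‖(C ^ (m : ℤ)) v‖ ≤ ρ'} : Set E).Finite := by
    apply (finite_lattice_dil γ C (m : ℤ) ρ').subset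
    rintro v ⟨hv, hvρ⟩
    exact ⟨hRL hv, hvρ⟩
  have hcard : ((cn C R m ρ' : ℕ∞) : ℝ≥0∞) = (hfin.toFinset.card : ℝ≥0∞) := by
    unfold cn
    have : ({v | v ∈ R ∧ ‖(C ^ (m : ℤ)) v‖ ≤ ρ'} : Set E).encard = (hfin.toFinset.card : ℕ∞) := by
      rw [← Set.encard_coe_eq_coe_finsetCard, Set.Finite.coe_toFinset]
    rw [this]
    simp
  rw [hcard]
  set K'm : Set E := (C ^ (m : ℤ)) ⁻¹' K' with hK'm'
  have hK'mm : MeasurableSet K'm := (C ^ (m : ℤ)).continuous.measurable hK'm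
  set Sm : Set Uᗮ := (C' ^ (m : ℤ)) ⁻¹' (Metric.closedBall (0 : Uᗮ) 1) with hSm
  have hSmm : MeasurableSet Sm :=
    (C' ^ (m : ℤ)).continuous.measurable Metric.isClosed_closedBall.measurableSet
  have h1 : volume K'm = ENNReal.ofReal (adet C ^ (-(m : ℤ))) * volume K' :=
    volume_preimage_zpow C m K' hK'm
  have h2 : volume Sm = ENNReal.ofReal (adet C' ^ (-(m : ℤ))) * V1 :=
    volume_preimage_zpow C' m _ Metric.isClosed_closedBall.measurableSet
  have h3 : (hfin.toFinset.card : ℝ≥0∞) * (c * volume Sm) ≤ volume K'm := by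
    rw [← hc Sm hSmm, volume_unfoldG hRc hFD hK'mm]
    have h4 : ∀ x ∈ (pW U) ⁻¹' Sm, (hfin.toFinset.card : ℝ≥0∞)
        ≤ ∑' v : R, K'm.indicator (fun _ => (1 : ℝ≥0∞)) (x + v) := by
      intro x hx
      have hxn : ‖(C' ^ (m : ℤ)) (pW U x)‖ ≤ 1 := by
        have : (C' ^ (m : ℤ)) (pW U x) ∈ Metric.closedBall (0 : Uᗮ) 1 := hx
        rwa [mem_closedBall_zero_iff] at this
      rw [hC', CW_zpow] at hxn
      obtain ⟨g, hg, hgn⟩ := hcov (pU U ((C ^ (m : ℤ)) x)) (pU U ((C ^ (m : ℤ)) x)).2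
      have hg' : (C ^ (-(m : ℤ))) g ∈ DQ B (dualL γ) q := DQ_pow m hg
      refine tsum_sub_ge (DQ_le hg') _ (fun v hv => ?_)
      rw [Set.Finite.mem_toFinset] at hv
      refine ⟨hv.1, ?_⟩
      rw [Set.indicator_of_mem]
      change (C ^ (m : ℤ)) (x + (C ^ (-(m : ℤ))) g + v) ∈ K'
      rw [map_add, map_add, zcancel]
      have hgU : g ∈ U := RQ_le_UR (DQ_le hg)
      have hvU : (C ^ (m : ℤ)) v ∈ U := by
        have := inv_set_zpow (Ω := (U : Set E)) (mem_UR_iff γ B q) (m : ℤ) v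
        exact this.mpr (RQ_le_UR hv.1)
      refine ⟨?_, ?_⟩
      · rw [map_add, map_add]
        have e1 : ((pU U g : U) : E) = g := congrArg Subtype.val (pU_coe U ⟨g, hgU⟩)
        have e2 : ((pU U ((C ^ (m : ℤ)) v) : U) : E) = (C ^ (m : ℤ)) v :=
          congrArg Subtype.val (pU_coe U ⟨_, hvU⟩)
        refine (norm_add_le _ _).trans (add_le_add ?_ ?_)
        · change ‖((pU U ((C ^ (m : ℤ)) x) : U) : E) + ((pU U g : U) : E)‖ ≤ ρ
          rw [e1]
          exact hgn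
        · change ‖((pU U ((C ^ (m : ℤ)) v) : U) : E)‖ ≤ ρ'
          rw [e2]
          exact hv.2
      · rw [map_add, map_add, pW_of_mem U hgU, pW_of_mem U hvU, add_zero, add_zero]
        exact hxn
    have hpm : MeasurableSet ((pW U) ⁻¹' Sm) := (pW U).continuous.measurable hSmm
    calc (hfin.toFinset.card : ℝ≥0∞) * volume (F ∩ (pW U) ⁻¹' Sm)
        = ∫⁻ x in F ∩ (pW U) ⁻¹' Sm, (hfin.toFinset.card : ℝ≥0∞) := by
          rw [setLIntegral_const]
      _ ≤ ∫⁻ x in F ∩ (pW U) ⁻¹' Sm,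
            ∑' v : R, K'm.indicator (fun _ => (1 : ℝ≥0∞)) (x + v) := by
          apply setLIntegral_mono' (hFm.inter hpm)
          intro x hx
          exact h4 x hx.2
      _ ≤ _ := lintegral_mono_set Set.inter_subset_left
  rw [h1, h2] at h3
  set a := adet C with ha
  set b := adet C' with hb
  have ha0 : 0 < a := adet_pos C
  have hb0 : 0 < b := adet_pos C'
  have e1 : ENNReal.ofReal (a ^ m) * ENNReal.ofReal (a ^ (-(m : ℤ))) = 1 := by
    rw [← ENNReal.ofReal_mul (by positivity), ← zpow_natCast, ← zpow_add₀ ha0.ne', add_neg_cancel,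
      zpow_zero, ENNReal.ofReal_one]
  have e2 : ENNReal.ofReal (b ^ m) * ENNReal.ofReal (b ^ (-(m : ℤ))) = 1 := by
    rw [← ENNReal.ofReal_mul (by positivity), ← zpow_natCast, ← zpow_add₀ hb0.ne', add_neg_cancel,
      zpow_zero, ENNReal.ofReal_one]
  have h5 : (ENNReal.ofReal (a ^ m) * (hfin.toFinset.card : ℝ≥0∞)) * (c * V1)
      ≤ volume K' * ENNReal.ofReal (b ^ m) := by
    calc (ENNReal.ofReal (a ^ m) * (hfin.toFinset.card : ℝ≥0∞)) * (c * V1)
        = (ENNReal.ofReal (a ^ m) * ENNReal.ofReal (b ^ m)) *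
          ((hfin.toFinset.card : ℝ≥0∞) * (c * (ENNReal.ofReal (b ^ (-(m : ℤ))) * V1))) := by
          calc _ = (ENNReal.ofReal (a ^ m) * (hfin.toFinset.card : ℝ≥0∞)) * (c * V1) * 1 := by ring
            _ = (ENNReal.ofReal (a ^ m) * (hfin.toFinset.card : ℝ≥0∞)) * (c * V1) *
                (ENNReal.ofReal (b ^ m) * ENNReal.ofReal (b ^ (-(m : ℤ)))) := by rw [e2]
            _ = _ := by ring
      _ ≤ (ENNReal.ofReal (a ^ m) * ENNReal.ofReal (b ^ m)) *
          (ENNReal.ofReal (a ^ (-(m : ℤ))) * volume K') := mul_le_mul_right h3 _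
      _ = (ENNReal.ofReal (a ^ m) * ENNReal.ofReal (a ^ (-(m : ℤ)))) *
          (volume K' * ENNReal.ofReal (b ^ m)) := by ring
      _ = _ := by rw [e1, one_mul]
  have hcV0 : (c : ℝ≥0∞) * V1 ≠ 0 := mul_ne_zero hcE0 hV10
  have hcVt : (c : ℝ≥0∞) * V1 ≠ ⊤ := ENNReal.mul_ne_top ENNReal.coe_ne_top hV1t
  have h6 := (ENNReal.le_div_iff_mul_le (Or.inl hcV0) (Or.inl hcVt)).mpr h5
  refine h6.trans (le_of_eq ?_)
  rw [div_eq_mul_inv, div_eq_mul_inv]
  ring

/-- the quotient action expands volumes -/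
theorem one_lt_adet_CW (γ : Basis (Fin n) ℝ E) (B : E ≃L[ℝ] E) {q : ℕ} (hq : 0 < q)
    (h : ∀ M : ℝ≥0∞, M ≠ ⊤ → ∃ k : ℕ, M < ENNReal.ofReal (adet B ^ k) *
      ((cn B (RQ B (dualL γ) q) k 1 : ℕ∞) : ℝ≥0∞)) :
    1 < adet (CW (mem_UR_iff γ B q)) := by
  classical
  by_contra hcon
  push Not at hcon
  set C := B ^ (q : ℤ) with hC
  set R := RQ B (dualL γ) q with hR
  set ρ' : ℝ := ∑ i ∈ Finset.range q, ‖((B ^ (-(i : ℤ)) : E ≃L[ℝ] E) : E →L[ℝ] E)‖ with hρ'
  have hρ'0 : 0 ≤ ρ' := Finset.sum_nonneg fun _ _ => norm_nonneg _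
  obtain ⟨K, hK, hKb⟩ := det_bound γ B q hρ'0
  set M : ℝ≥0∞ := (∑ i ∈ Finset.range q, ENNReal.ofReal (adet B ^ i)) * K with hM
  have hMt : M ≠ ⊤ := ENNReal.mul_ne_top (ENNReal.sum_ne_top.mpr fun _ _ => ENNReal.ofReal_ne_top) hK
  obtain ⟨k, hk⟩ := h M hMt
  set m := k / q with hm
  set i := k % q with hi
  have hkq : k = q * m + i := (Nat.div_add_mod k q).symm
  have hiq : i < q := Nat.mod_lt _ hq
  have hcn : cn B R k 1 ≤ cn C R m ρ' := by
    unfold cn
    apply Set.encard_le_encard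
    rintro v ⟨hv, hv1⟩
    refine ⟨hv, ?_⟩
    have e1 : (C ^ (m : ℤ)) v = (B ^ (-(i : ℤ))) ((B ^ (k : ℤ)) v) := by
      rw [hC, Cz, zcomp, hkq]
      congr 2
      push_cast
      ring
    rw [e1]
    refine (zpow_norm_le B _ _).trans ?_
    calc ‖((B ^ (-(i : ℤ)) : E ≃L[ℝ] E) : E →L[ℝ] E)‖ * ‖(B ^ (k : ℤ)) v‖
        ≤ ‖((B ^ (-(i : ℤ)) : E ≃L[ℝ] E) : E →L[ℝ] E)‖ * 1 := by gcongr
      _ = ‖((B ^ (-(i : ℤ)) : E ≃L[ℝ] E) : E →L[ℝ] E)‖ := mul_one _
      _ ≤ ρ' := Finset.single_le_sum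
          (f := fun i : ℕ => ‖((B ^ (-(i : ℤ)) : E ≃L[ℝ] E) : E →L[ℝ] E)‖)
          (fun _ _ => norm_nonneg _) (Finset.mem_range.mpr hiq)
  have hadet : adet B ^ k = adet B ^ i * adet C ^ m := by
    have e1 : adet C = adet B ^ q := by
      rw [hC, adet_zpow, zpow_natCast]
    rw [e1, ← pow_mul, ← pow_add, hkq]
    congr 1
    ring
  have hle : ENNReal.ofReal (adet B ^ k) * ((cn B R k 1 : ℕ∞) : ℝ≥0∞) ≤ M := by
    rw [hadet, ENNReal.ofReal_mul (by have := adet_pos B; positivity)]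
    calc ENNReal.ofReal (adet B ^ i) * ENNReal.ofReal (adet C ^ m) *
          ((cn B R k 1 : ℕ∞) : ℝ≥0∞)
        ≤ ENNReal.ofReal (adet B ^ i) * ENNReal.ofReal (adet C ^ m) *
          ((cn C R m ρ' : ℕ∞) : ℝ≥0∞) := by
          apply mul_le_mul_right
          rw [ENat.toENNReal_le]
          exact hcn
      _ = ENNReal.ofReal (adet B ^ i) * (ENNReal.ofReal (adet C ^ m) *
          ((cn C R m ρ' : ℕ∞) : ℝ≥0∞)) := by ring
      _ ≤ ENNReal.ofReal (adet B ^ i) *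
          (K * ENNReal.ofReal (adet (CW (mem_UR_iff γ B q)) ^ m)) := mul_le_mul_right (hKb m) _
      _ ≤ ENNReal.ofReal (adet B ^ i) * (K * 1) := by
          apply mul_le_mul_right
          apply mul_le_mul_right
          rw [← ENNReal.ofReal_one]
          apply ENNReal.ofReal_le_ofReal
          exact pow_le_one₀ (adet_pos _).le hcon
      _ = ENNReal.ofReal (adet B ^ i) * K := by rw [mul_one]
      _ ≤ M := by
          apply mul_le_mul_left
          exact Finset.single_le_sum (f := fun i : ℕ => ENNReal.ofReal (adet B ^ i))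
            (fun _ _ => zero_le) (Finset.mem_range.mpr hiq)
  exact absurd hk (not_lt.mpr hle)

/-- the hypotheses of the covering theorem hold for the quotient -/
theorem bsHyp_W (γ : Basis (Fin n) ℝ E) (B : E ≃L[ℝ] E) {q : ℕ} (hq : 0 < q)
    (h : PosC B (dualL γ) (RQ B (dualL γ) q)) :
    BSHyp (LW γ (UR B (dualL γ) q)) (CW (mem_UR_iff γ B q)) where
  countable := countable_LW γ _
  sep := LW_sep γ B q
  fin := LW_fin γ B q
  det := one_lt_adet_CW γ B hq h.2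
  div := fun R hR => LW_div γ B hq h.1 hR

end Pool.Agent.Lib_helper44
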