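import Mathlib
import Pool.Agent.Lib_helper44.Existence

open MeasureTheory FourierTransform Complex Module Filter
open scoped ENNReal InnerProductSpace ComplexConjugate

set_option linter.unusedSectionVars false

namespace Pool.Agent.Lib_helper44

theorem IsOrthonormalWavelet.inv {n : ℕ} {A : GL (Fin n) ℝ}
    {Γ : Submodule ℤ (EuclideanSpace ℝ (Fin n))}
    {ψ : Lp ℂ 2 (volume : Measure (EuclideanSpace ℝ (Fin n)))} (h : IsOrthonormalWavelet A Γ ψ) :
    IsOrthonormalWavelet A⁻¹ Γ ψ := by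
  classical
  obtain ⟨b, hb⟩ := h
  have h1 : IsONB (volume : Measure (EuclideanSpace ℝ (Fin n))) (fun i : ℤ × Γ =>
      (b i : EuclideanSpace ℝ (Fin n) → ℂ)) :=
    isONB_of_hilbertBasis b (fun i => Filter.EventuallyEq.rfl)
  obtain ⟨b', hb'⟩ := (h1.reindex ((Equiv.neg ℤ).prodCongr (Equiv.refl Γ))).exists_hilbertBasis
  refine ⟨b', fun i => ?_⟩
  obtain ⟨j, k⟩ := i
  refine (hb' (j, k)).trans ?_
  refine (hb (-j, k)).trans (Filter.Eventually.of_forall fun x => ?_)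
  have hdet : |((A⁻¹ : GL (Fin n) ℝ) : Matrix (Fin n) (Fin n) ℝ).det|
      = |(A : Matrix (Fin n) (Fin n) ℝ).det|⁻¹ := by
    have h3 : ((A⁻¹ : GL (Fin n) ℝ) : Matrix (Fin n) (Fin n) ℝ).det *
        (A : Matrix (Fin n) (Fin n) ℝ).det = 1 := by
      rw [← Matrix.det_mul, ← Units.val_mul, inv_mul_cancel, Units.val_one, Matrix.det_one]
    rw [eq_inv_of_mul_eq_one_left h3, abs_inv]
  have e1 : |((A⁻¹ : GL (Fin n) ℝ) : Matrix (Fin n) (Fin n) ℝ).det| ^ ((j : ℝ) / 2)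
      = |(A : Matrix (Fin n) (Fin n) ℝ).det| ^ (((-j : ℤ) : ℝ) / 2) := by
    rw [hdet, Real.inv_rpow (abs_nonneg _), ← Real.rpow_neg (abs_nonneg _)]
    congr 1
    push_cast
    ring
  have e2 : (A⁻¹ : GL (Fin n) ℝ) ^ j = A ^ (-j) := by rw [inv_zpow']
  simp only [wav]
  rw [e1, e2]

end Pool.Agent.Lib_helper44
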