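import Mathlib
import Pool.Agent.Lib_helper44.InvLemma

open MeasureTheory FourierTransform Complex Module Filter
open scoped ENNReal InnerProductSpace ComplexConjugate

set_option linter.unusedSectionVars false

namespace Pool.Agent.Lib_helper44

theorem det_eq_of_eigen (M : Matrix (Fin 2) (Fin 2) ℝ) (v w : EuclideanSpace ℝ (Fin 2))
    (hv : v ≠ 0) (hw : w ≠ 0) (mu lam : ℝ) (hMv : Matrix.toEuclideanLin M v = mu • v)
    (hMw : Matrix.toEuclideanLin M w = lam • w) (hne : lam ≠ mu) : M.det = lam * mu := by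
  have hli : LinearIndependent ℝ ![w, v] := by
    rw [LinearIndependent.pair_iff]
    intro a b hab
    have h1 : Matrix.toEuclideanLin M (a • w + b • v) = 0 := by rw [hab, map_zero]
    rw [map_add, map_smul, map_smul, hMv, hMw] at h1
    have h2 : (b * (mu - lam)) • v = 0 := by
      have h3 : (b * (mu - lam)) • v = (a • lam • w + b • mu • v) - lam • (a • w + b • v) := by
        module
      rw [h3, h1, hab]
      simp
    have hb : b = 0 := by
      rcases smul_eq_zero.mp h2 with h4 | h4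
      · rcases mul_eq_zero.mp h4 with h5 | h5
        · exact h5
        · exact absurd (by linarith) hne
      · exact absurd h4 hv
    rw [hb, zero_smul, add_zero] at hab
    exact ⟨(smul_eq_zero.mp hab).resolve_right hw, hb⟩
  let b := basisOfLinearIndependentOfCardEqFinrank hli (by simp)
  have hb0 : b 0 = w := by simp [b]
  have hb1 : b 1 = v := by simp [b]
  have h1 : LinearMap.det (Matrix.toEuclideanLin M) = M.det := by
    have h : Matrix.toEuclideanLin M
      = Matrix.toLin (PiLp.basisFun 2 ℝ (Fin 2)) (PiLp.basisFun 2 ℝ (Fin 2)) M := rfl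
    rw [h, LinearMap.det_toLin]
  rw [← h1, ← LinearMap.det_toMatrix b, Matrix.det_fin_two]
  simp only [LinearMap.toMatrix_apply, hb0, hb1, hMv, hMw, map_smul]
  rw [← hb0, ← hb1, b.repr_self, b.repr_self]
  simp

theorem exists_wavelet_of_integral_inv (A : GL (Fin 2) ℝ)
    (Γ : Submodule ℤ (EuclideanSpace ℝ (Fin 2))) [DiscreteTopology Γ]
    [IsZLattice ℝ Γ] (v : EuclideanSpace ℝ (Fin 2)) (hv : v ≠ 0) (mu : ℝ)
    (hB : Matrix.toEuclideanLin (A : Matrix (Fin 2) (Fin 2) ℝ).transpose v = mu • v)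
    (hmu : |mu| < 1)
    (w : EuclideanSpace ℝ (Fin 2)) (hw : w ≠ 0)
    (hwdual : ∀ γ ∈ Γ, ∃ q : ℤ, ⟪γ, w⟫_ℝ = q) (lam : ℝ)
    (hBw : Matrix.toEuclideanLin (A : Matrix (Fin 2) (Fin 2) ℝ).transpose w = lam • w)
    (hlam : 1 < |lam|) (m : ℕ) (hm : 0 < m) (K : ℤ) (hK : lam ^ m = K) :
    ∃ ψ : Lp ℂ 2 (volume : Measure (EuclideanSpace ℝ (Fin 2))), IsOrthonormalWavelet A Γ ψ := by
  have hne : lam ≠ mu := by
    rintro rfl
    linarith
  have hdet := det_eq_of_eigen _ v w hv hw mu lam hB hBw hne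
  rw [Matrix.det_transpose] at hdet
  have hl0 : lam ≠ 0 := by
    intro h
    rw [h, abs_zero] at hlam
    linarith
  have hdet0 : (A : Matrix (Fin 2) (Fin 2) ℝ).det ≠ 0 := (A.isUnit.map Matrix.detMonoidHom).ne_zero
  have hmu0 : mu ≠ 0 := by
    intro h
    rw [h, mul_zero] at hdet
    exact hdet0 hdet
  have hmain := exists_wavelet_of_integral A⁻¹ Γ w hw hwdual lam⁻¹ (by
    have h1 : Matrix.toEuclideanLin ((A⁻¹ : GL (Fin 2) ℝ) : Matrix (Fin 2) (Fin 2) ℝ).transpose
        (Matrix.toEuclideanLin (A : Matrix (Fin 2) (Fin 2) ℝ).transpose w) = w := by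
      have h2 : glE (glT A⁻¹) (glE (glT A) w) = w := by
        have h3 : glT A⁻¹ * glT A = 1 := by
          ext1
          simp only [glT, Units.val_mul, Units.val_one]
          rw [← Matrix.transpose_mul, ← Units.val_mul, mul_inv_cancel, Units.val_one,
            Matrix.transpose_one]
        have h4 : glE (glT A⁻¹) * glE (glT A) = 1 := by rw [← map_mul, h3, map_one]
        have h5 := congrArg (fun f : (EuclideanSpace ℝ (Fin 2) ≃L[ℝ] EuclideanSpace ℝ (Fin 2)) =>
          f w) h4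
        exact h5
      exact h2
    rw [hBw, map_smul] at h1
    rw [eq_inv_smul_iff₀ hl0]
    exact h1) (by
    have h3 : ((A⁻¹ : GL (Fin 2) ℝ) : Matrix (Fin 2) (Fin 2) ℝ).det *
        (A : Matrix (Fin 2) (Fin 2) ℝ).det = 1 := by
      rw [← Matrix.det_mul, ← Units.val_mul, inv_mul_cancel, Units.val_one, Matrix.det_one]
    rw [eq_inv_of_mul_eq_one_left h3, abs_inv, abs_inv, hdet]
    apply inv_strictAnti₀
    · exact abs_pos.mpr (mul_ne_zero hl0 hmu0)
    · rw [abs_mul]
      have : 0 < |lam| := abs_pos.mpr hl0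
      nlinarith) m hm K (by
    rw [inv_pow, hK]
    apply inv_mul_cancel₀
    rw [← hK]
    exact pow_ne_zero _ hl0)
  obtain ⟨ψ, hψ⟩ := hmain
  refine ⟨ψ, ?_⟩
  have := hψ.inv
  rwa [inv_inv] at this

end Pool.Agent.Lib_helper44
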