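import Mathlib

open Filter Topology

set_option linter.unusedSectionVars false

namespace Pool.Agent.Lib_helper44

/-- divisibility forced by a real number no positive power of which is an integer -/
theorem div_lemma (c : ℝ) (hc : ∀ m : ℕ, 0 < m → ∀ K : ℤ, c ^ m ≠ K) :
    ∃ q κ : ℕ, 2 ≤ q ∧ 0 < κ ∧ ∀ j : ℕ, 0 < j → ∀ y y' : ℤ, c ^ j * y = y' →
      (q : ℤ) ^ (j / κ) ∣ y := by
  classical
  have hc0 : c ≠ 0 := by
    rintro rfl
    exact hc 1 one_pos 0 (by simp)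
  by_cases hex : ∃ m : ℕ, 0 < m ∧ ∃ r : ℚ, c ^ m = r
  · set κ := Nat.find hex with hκ
    obtain ⟨hκ0, r, hr⟩ := Nat.find_spec hex
    have hmin : ∀ m : ℕ, m < κ → ¬ (0 < m ∧ ∃ r : ℚ, c ^ m = r) := fun m hm => Nat.find_min hex hm
    have hq : r.den ≠ 1 := by
      intro h1
      apply hc κ hκ0 r.num
      rw [hr]
      have : (r : ℝ) = ((r.num : ℚ) : ℝ) := by
        congr 1
        exact (Rat.coe_int_num_of_den_eq_one h1).symm
      rw [this]
      norm_cast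
    refine ⟨r.den, κ, ?_, hκ0, fun j hj y y' hy => ?_⟩
    · have := r.den_pos
      omega
    · by_cases hy0 : y = 0
      · rw [hy0]
        exact dvd_zero _
      · have hyR : (y : ℝ) ≠ 0 := by exact_mod_cast hy0
        have hcj : c ^ j = ((y' / y : ℚ) : ℝ) := by
          push_cast
          rw [eq_div_iff hyR, hy]
        set i := j / κ with hi
        have hr0 : (r : ℝ) ≠ 0 := by
          rw [← hr]
          exact pow_ne_zero _ hc0
        have hmod : j % κ = 0 := by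
          by_contra hne
          have hlt : j % κ < κ := Nat.mod_lt _ hκ0
          refine hmin _ hlt ⟨Nat.pos_of_ne_zero hne, (y' / y : ℚ) / r ^ i, ?_⟩
          push_cast
          rw [eq_div_iff (pow_ne_zero _ hr0), ← hr, ← pow_mul, ← pow_add]
          have h1 : j % κ + κ * i = j := Nat.mod_add_div j κ
          rw [h1, hcj]
          push_cast
          rfl
        have hj' : j = κ * i := by
          have h1 : j % κ + κ * i = j := Nat.mod_add_div j κ
          omega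
        have h2 : (r : ℝ) ^ i * y = y' := by
          rw [← hy, hj', pow_mul, hr]
        have h3 : r ^ i * (y : ℚ) = y' := by exact_mod_cast h2
        have h4 : (r.num : ℚ) ^ i * y = (r.den : ℚ) ^ i * y' := by
          have h5 : (r.den : ℚ) ≠ 0 := by exact_mod_cast r.den_pos.ne'
          rw [← h3]
          have h6 : (r.den : ℚ) * r = r.num := by
            rw [mul_comm]
            exact Rat.mul_den_eq_num r
          rw [← h6]
          ring
        have h5 : (r.num) ^ i * y = (r.den : ℤ) ^ i * y' := by exact_mod_cast h4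
        have h6 : IsCoprime ((r.den : ℤ) ^ i) (r.num ^ i) := by
          apply IsCoprime.pow
          rw [Int.isCoprime_iff_gcd_eq_one]
          have := r.reduced
          rw [Int.gcd, Int.natAbs_natCast]
          exact Nat.Coprime.symm this
        exact h6.dvd_of_dvd_mul_left ⟨y', h5⟩
  · push Not at hex
    refine ⟨2, 1, le_rfl, one_pos, fun j hj y y' hy => ?_⟩
    by_cases hy0 : y = 0
    · rw [hy0]
      exact dvd_zero _
    · exfalso
      have hyR : (y : ℝ) ≠ 0 := by exact_mod_cast hy0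
      apply hex j hj (y' / y : ℚ)
      push_cast
      rw [eq_div_iff hyR, hy]

theorem pow_small {β : ℝ} (hβ0 : 0 < β) (hβ : β < 1) {δ : ℝ} (hδ : 0 < δ) :
    ∃ N : ℕ, ∀ j ≥ N, β ^ j ≤ δ := by
  obtain ⟨N, hN⟩ := exists_pow_lt_of_lt_one hδ hβ
  exact ⟨N, fun j hj => (pow_le_pow_of_le_one hβ0.le hβ.le hj).trans hN.le⟩

/-- the strong form of the inequality when `|a| > max(1, |b|)` -/
theorem ineq_aux1 {a b : ℂ} (hb0 : b ≠ 0) (ha1 : 1 < ‖a‖) (hab : ‖b‖ < ‖a‖) (hb1 : ‖b‖ ≠ 1) :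
    ∃ N : ℕ, 0 < N ∧ ∀ j ≥ N, ∀ k > j, (a ^ k - 1) * (b ^ j - 1) ≠ (a ^ j - 1) * (b ^ k - 1) := by
  set α := ‖a‖ with hα
  set β := ‖b‖ with hβ
  have hα0 : 0 < α := by linarith
  have hβ0 : 0 < β := norm_pos_iff.mpr hb0
  set M := max β 1 with hM
  have hM1 : 1 ≤ M := le_max_right _ _
  have hMβ : β ≤ M := le_max_left _ _
  have hM0 : 0 < M := by linarith
  have hMα : M < α := max_lt hab ha1
  -- choose δ
  obtain ⟨δ, hδ0, hδ1, hδ2⟩ : ∃ δ : ℝ, 0 < δ ∧ δ < 1 ∧ M * (1 + δ) ^ 2 < α * (1 - δ) ^ 2 := by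
    have hc : Continuous (fun δ : ℝ => α * (1 - δ) ^ 2 - M * (1 + δ) ^ 2) := by fun_prop
    have h0 : (0 : ℝ) < α * (1 - 0) ^ 2 - M * (1 + 0) ^ 2 := by
      simp only [sub_zero, add_zero, one_pow, mul_one]
      linarith
    have hev := (hc.tendsto 0).eventually (lt_mem_nhds h0)
    obtain ⟨ε, hε, hball⟩ := Metric.eventually_nhds_iff.mp hev
    refine ⟨min (ε / 2) (1 / 2), by positivity, by
      exact lt_of_le_of_lt (min_le_right _ _) (by norm_num), ?_⟩
    have := hball (y := min (ε / 2) (1 / 2)) (by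
      rw [dist_zero_right, Real.norm_of_nonneg (by positivity)]
      exact lt_of_le_of_lt (min_le_left _ _) (by linarith))
    linarith
  -- choose N
  have hαi : (0 : ℝ) < α⁻¹ := inv_pos.mpr hα0
  have hαi1 : α⁻¹ < 1 := inv_lt_one_of_one_lt₀ ha1
  obtain ⟨N1, hN1⟩ := pow_small hαi hαi1 hδ0
  rcases lt_or_gt_of_ne hb1 with hb | hb
  · -- |b| < 1
    obtain ⟨N2, hN2⟩ := pow_small hβ0 hb hδ0
    refine ⟨max (max N1 N2) 1, by positivity, fun j hj k hk heq => ?_⟩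
    have hj1 : N1 ≤ j := le_trans (le_max_left _ _) (le_trans (le_max_left _ _) hj)
    have hj2 : N2 ≤ j := le_trans (le_max_right _ _) (le_trans (le_max_left _ _) hj)
    have e1 := congrArg norm heq
    rw [norm_mul, norm_mul] at e1
    have hβj := hN2 j hj2
    have hβk : β ^ k ≤ δ := hN2 k (by omega)
    have hαj : α⁻¹ ^ j ≤ δ := hN1 j hj1
    have hαjpos : 0 < α ^ j := pow_pos hα0 j
    have hone : (1 : ℝ) ≤ δ * α ^ j := by
      have : α⁻¹ ^ j * α ^ j = 1 := by rw [← mul_pow, inv_mul_cancel₀ hα0.ne', one_pow]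
      nlinarith
    have l1 : α ^ k - 1 ≤ ‖a ^ k - 1‖ := by
      have := norm_sub_norm_le (a ^ k) 1
      rw [norm_pow, norm_one] at this
      exact this
    have l2 : 1 - β ^ j ≤ ‖b ^ j - 1‖ := by
      have := norm_sub_norm_le 1 (b ^ j)
      rw [norm_pow, norm_one, norm_sub_rev] at this
      exact this
    have u1 : ‖a ^ j - 1‖ ≤ α ^ j + 1 := by
      have := norm_sub_le (a ^ j) 1
      rw [norm_pow, norm_one] at this
      exact this
    have u2 : ‖b ^ k - 1‖ ≤ β ^ k + 1 := by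
      have := norm_sub_le (b ^ k) 1
      rw [norm_pow, norm_one] at this
      exact this
    have hαk : α * α ^ j ≤ α ^ k := by
      rw [← pow_succ']
      exact pow_le_pow_right₀ ha1.le hk
    have A1 : α * α ^ j * (1 - δ) ≤ ‖a ^ k - 1‖ := by
      have : (1 : ℝ) ≤ δ * (α * α ^ j) := by nlinarith
      nlinarith
    have A2 : (1 - δ) ≤ ‖b ^ j - 1‖ := by linarith
    have A3 : ‖a ^ j - 1‖ ≤ α ^ j * (1 + δ) := by nlinarith
    have A4 : ‖b ^ k - 1‖ ≤ 1 + δ := by linarith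
    have B1 : α * α ^ j * (1 - δ) * (1 - δ) ≤ ‖a ^ k - 1‖ * ‖b ^ j - 1‖ := by
      apply mul_le_mul A1 A2 (by linarith) (norm_nonneg _)
    have B2 : ‖a ^ j - 1‖ * ‖b ^ k - 1‖ ≤ α ^ j * (1 + δ) * (1 + δ) := by
      apply mul_le_mul A3 A4 (norm_nonneg _) (by positivity)
    have B3 : α * (1 - δ) ^ 2 ≤ 1 * (1 + δ) ^ 2 := by
      have h1 : α ^ j * (α * (1 - δ) ^ 2) ≤ α ^ j * (1 * (1 + δ) ^ 2) := by
        calc α ^ j * (α * (1 - δ) ^ 2) = α * α ^ j * (1 - δ) * (1 - δ) := by ring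
          _ ≤ α ^ j * (1 + δ) * (1 + δ) := by rw [e1] at B1; exact B1.trans B2
          _ = _ := by ring
      exact le_of_mul_le_mul_left h1 hαjpos
    nlinarith [sq_nonneg (1 + δ)]
  · -- |b| > 1
    have hβi : (0 : ℝ) < β⁻¹ := inv_pos.mpr hβ0
    have hβi1 : β⁻¹ < 1 := inv_lt_one_of_one_lt₀ hb
    obtain ⟨N2, hN2⟩ := pow_small hβi hβi1 hδ0
    refine ⟨max (max N1 N2) 1, by positivity, fun j hj k hk heq => ?_⟩
    have hj1 : N1 ≤ j := le_trans (le_max_left _ _) (le_trans (le_max_left _ _) hj)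
    have hj2 : N2 ≤ j := le_trans (le_max_right _ _) (le_trans (le_max_left _ _) hj)
    have e1 := congrArg norm heq
    rw [norm_mul, norm_mul] at e1
    have hαjpos : 0 < α ^ j := pow_pos hα0 j
    have hβjpos : 0 < β ^ j := pow_pos hβ0 j
    have hαkpos : 0 < α ^ k := pow_pos hα0 k
    have hβkpos : 0 < β ^ k := pow_pos hβ0 k
    have hone : ∀ i ≥ j, (1 : ℝ) ≤ δ * α ^ i := by
      intro i hi
      have h1 : α⁻¹ ^ i * α ^ i = 1 := by rw [← mul_pow, inv_mul_cancel₀ hα0.ne', one_pow]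
      have h2 := hN1 i (by omega)
      have h3 : 0 < α ^ i := pow_pos hα0 i
      nlinarith
    have hone' : ∀ i ≥ j, (1 : ℝ) ≤ δ * β ^ i := by
      intro i hi
      have h1 : β⁻¹ ^ i * β ^ i = 1 := by rw [← mul_pow, inv_mul_cancel₀ hβ0.ne', one_pow]
      have h2 := hN2 i (by omega)
      have h3 : 0 < β ^ i := pow_pos hβ0 i
      nlinarith
    have l1 : α ^ k - 1 ≤ ‖a ^ k - 1‖ := by
      have := norm_sub_norm_le (a ^ k) 1
      rw [norm_pow, norm_one] at this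
      exact this
    have l2 : β ^ j - 1 ≤ ‖b ^ j - 1‖ := by
      have := norm_sub_norm_le (b ^ j) 1
      rw [norm_pow, norm_one] at this
      exact this
    have u1 : ‖a ^ j - 1‖ ≤ α ^ j + 1 := by
      have := norm_sub_le (a ^ j) 1
      rw [norm_pow, norm_one] at this
      exact this
    have u2 : ‖b ^ k - 1‖ ≤ β ^ k + 1 := by
      have := norm_sub_le (b ^ k) 1
      rw [norm_pow, norm_one] at this
      exact this
    have A1 : α ^ k * (1 - δ) ≤ ‖a ^ k - 1‖ := by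
      have := hone k (by omega)
      nlinarith
    have A2 : β ^ j * (1 - δ) ≤ ‖b ^ j - 1‖ := by
      have := hone' j le_rfl
      nlinarith
    have A3 : ‖a ^ j - 1‖ ≤ α ^ j * (1 + δ) := by
      have := hone j le_rfl
      nlinarith
    have A4 : ‖b ^ k - 1‖ ≤ β ^ k * (1 + δ) := by
      have := hone' k (by omega)
      nlinarith
    have B1 : α ^ k * (1 - δ) * (β ^ j * (1 - δ)) ≤ ‖a ^ k - 1‖ * ‖b ^ j - 1‖ := by
      apply mul_le_mul A1 A2 (by nlinarith) (norm_nonneg _)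
    have B2 : ‖a ^ j - 1‖ * ‖b ^ k - 1‖ ≤ α ^ j * (1 + δ) * (β ^ k * (1 + δ)) := by
      apply mul_le_mul A3 A4 (norm_nonneg _) (by positivity)
    obtain ⟨n, rfl⟩ : ∃ n, k = j + (n + 1) := ⟨k - j - 1, by omega⟩
    have hβn : β ^ n ≤ α ^ n := pow_le_pow_left₀ hβ0.le hab.le n
    have hαn : 0 < α ^ n := pow_pos hα0 n
    have B3 : α ^ n * (α * (1 - δ) ^ 2) ≤ β ^ n * (β * (1 + δ) ^ 2) := by
      have h1 : (α ^ j * β ^ j) * (α ^ n * (α * (1 - δ) ^ 2)) ≤
          (α ^ j * β ^ j) * (β ^ n * (β * (1 + δ) ^ 2)) := by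
        calc (α ^ j * β ^ j) * (α ^ n * (α * (1 - δ) ^ 2))
            = α ^ (j + (n + 1)) * (1 - δ) * (β ^ j * (1 - δ)) := by ring
          _ ≤ α ^ j * (1 + δ) * (β ^ (j + (n + 1)) * (1 + δ)) := by
              rw [e1] at B1; exact B1.trans B2
          _ = _ := by ring
      exact le_of_mul_le_mul_left h1 (by positivity)
    have B4 : β * (1 + δ) ^ 2 ≤ M * (1 + δ) ^ 2 := by gcongr
    have B5 : α ^ n * (α * (1 - δ) ^ 2) ≤ α ^ n * (M * (1 + δ) ^ 2) := by
      calc _ ≤ β ^ n * (β * (1 + δ) ^ 2) := B3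
        _ ≤ α ^ n * (M * (1 + δ) ^ 2) := by gcongr
    have B6 := le_of_mul_le_mul_left B5 hαn
    linarith

/-- the case `1 > |a| > |b|` -/
theorem ineq_aux2 {a b : ℂ} (hb0 : b ≠ 0) (ha1 : ‖a‖ < 1) (hab : ‖b‖ < ‖a‖) :
    ∃ N : ℕ, 0 < N ∧ ∀ j ≥ N, ∀ k > j, (a ^ k - 1) * (b ^ j - 1) ≠ (a ^ j - 1) * (b ^ k - 1) := by
  set α := ‖a‖ with hα
  set β := ‖b‖ with hβ
  have hβ0 : 0 < β := norm_pos_iff.mpr hb0
  have hα0 : 0 < α := by linarith
  have hρ0 : 0 < β / α := div_pos hβ0 hα0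
  have hρ1 : β / α < 1 := (div_lt_one hα0).mpr hab
  obtain ⟨N, hN⟩ := pow_small hρ0 hρ1 (show (0 : ℝ) < (1 - α) / 5 by linarith)
  refine ⟨max N 1, by positivity, fun j hj k hk heq => ?_⟩
  have hjN := hN j (le_trans (le_max_left _ _) hj)
  obtain ⟨n, rfl⟩ : ∃ n, k = j + (n + 1) := ⟨k - j - 1, by omega⟩
  have h1 : a ^ j * (1 - a ^ (n + 1)) = b ^ j * (1 - b ^ (n + 1) - a ^ (j + (n + 1)) +
      a ^ j * b ^ (n + 1)) := by
    rw [pow_add, pow_add] at heq
    rw [pow_add]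
    linear_combination heq
  have e1 := congrArg norm h1
  rw [norm_mul, norm_mul, norm_pow, norm_pow] at e1
  have hαj : 0 < α ^ j := pow_pos hα0 j
  have hβj : 0 < β ^ j := pow_pos hβ0 j
  have hαn : α ^ (n + 1) ≤ α := by
    calc α ^ (n + 1) ≤ α ^ 1 := pow_le_pow_of_le_one hα0.le ha1.le (by omega)
      _ = α := pow_one α
  have l1 : 1 - α ≤ ‖1 - a ^ (n + 1)‖ := by
    have := norm_sub_norm_le 1 (a ^ (n + 1))
    rw [norm_pow, norm_one] at this
    linarith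
  have hle1 : ∀ i : ℕ, α ^ i ≤ 1 := fun i => pow_le_one₀ hα0.le ha1.le
  have hle2 : ∀ i : ℕ, β ^ i ≤ 1 := fun i => pow_le_one₀ hβ0.le (by linarith)
  have u1 : ‖1 - b ^ (n + 1) - a ^ (j + (n + 1)) + a ^ j * b ^ (n + 1)‖ ≤ 4 := by
    calc ‖1 - b ^ (n + 1) - a ^ (j + (n + 1)) + a ^ j * b ^ (n + 1)‖
        ≤ ‖(1 : ℂ)‖ + ‖b ^ (n + 1)‖ + ‖a ^ (j + (n + 1))‖ + ‖a ^ j * b ^ (n + 1)‖ := by
          refine (norm_add_le _ _).trans ?_
          gcongr
          refine (norm_sub_le _ _).trans ?_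
          gcongr
          exact norm_sub_le _ _
      _ ≤ 1 + 1 + 1 + 1 * 1 := by
          rw [norm_mul, norm_pow, norm_pow, norm_pow, norm_one]
          have := hle2 (n + 1)
          have := hle1 (j + (n + 1))
          have h3 : α ^ j * β ^ (n + 1) ≤ 1 * 1 :=
            mul_le_mul (hle1 j) (hle2 (n + 1)) (by positivity) zero_le_one
          linarith
      _ = 4 := by norm_num
  have h2 : α ^ j * (1 - α) ≤ β ^ j * 4 := by
    calc α ^ j * (1 - α) ≤ α ^ j * ‖1 - a ^ (n + 1)‖ := by gcongr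
      _ = β ^ j * ‖1 - b ^ (n + 1) - a ^ (j + (n + 1)) + a ^ j * b ^ (n + 1)‖ := e1
      _ ≤ β ^ j * 4 := by gcongr
  rw [div_pow, div_le_iff₀ hαj] at hjN
  nlinarith

/-- the general inequality -/
theorem ineq_main {a b : ℂ} (ha0 : a ≠ 0) (hb0 : b ≠ 0) (ha1 : ‖a‖ ≠ 1) (hb1 : ‖b‖ ≠ 1)
    (hab : ‖a‖ ≠ ‖b‖) :
    ∃ N : ℕ, 0 < N ∧ ∀ j ≥ N, ∀ k > j, (a ^ k - 1) * (b ^ j - 1) ≠ (a ^ j - 1) * (b ^ k - 1) := by
  rcases lt_or_gt_of_ne hab with h | h
  · -- |a| < |b|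
    have hmain : ∃ N : ℕ, 0 < N ∧ ∀ j ≥ N, ∀ k > j,
        (b ^ k - 1) * (a ^ j - 1) ≠ (b ^ j - 1) * (a ^ k - 1) := by
      rcases lt_or_gt_of_ne hb1 with h1 | h1
      · exact ineq_aux2 ha0 h1 h
      · exact ineq_aux1 ha0 h1 h ha1
    obtain ⟨N, hN0, hN⟩ := hmain
    refine ⟨N, hN0, fun j hj k hk heq => hN j hj k hk ?_⟩
    linear_combination -heq
  · rcases lt_or_gt_of_ne ha1 with h1 | h1
    · exact ineq_aux2 hb0 h1 h
    · exact ineq_aux1 hb0 h1 h hb1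

end Pool.Agent.Lib_helper44
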