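import Mathlib
import Pool.Agent.Lib_helper44.NT1

open Filter Topology Polynomial

set_option linter.unusedSectionVars false

namespace Pool.Agent.Lib_helper44

/-- rational real numbers -/
def IsRat (x : ℝ) : Prop := ∃ r : ℚ, x = r

theorem IsRat.mul {x y : ℝ} (hx : IsRat x) (hy : IsRat y) : IsRat (x * y) := by
  obtain ⟨r, rfl⟩ := hx
  obtain ⟨s, rfl⟩ := hy
  exact ⟨r * s, by push_cast; rfl⟩

theorem IsRat.add {x y : ℝ} (hx : IsRat x) (hy : IsRat y) : IsRat (x + y) := by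
  obtain ⟨r, rfl⟩ := hx
  obtain ⟨s, rfl⟩ := hy
  exact ⟨r + s, by push_cast; rfl⟩

theorem IsRat.sub {x y : ℝ} (hx : IsRat x) (hy : IsRat y) : IsRat (x - y) := by
  obtain ⟨r, rfl⟩ := hx
  obtain ⟨s, rfl⟩ := hy
  exact ⟨r - s, by push_cast; rfl⟩

theorem IsRat.inv {x : ℝ} (hx : IsRat x) : IsRat x⁻¹ := by
  obtain ⟨r, rfl⟩ := hx
  exact ⟨r⁻¹, by push_cast; rfl⟩

theorem IsRat.div {x y : ℝ} (hx : IsRat x) (hy : IsRat y) : IsRat (x / y) := by
  rw [div_eq_mul_inv]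
  exact hx.mul hy.inv

theorem IsRat.neg {x : ℝ} (hx : IsRat x) : IsRat (-x) := by
  obtain ⟨r, rfl⟩ := hx
  exact ⟨-r, by push_cast; rfl⟩

theorem IsRat.pow {x : ℝ} (hx : IsRat x) (n : ℕ) : IsRat (x ^ n) := by
  obtain ⟨r, rfl⟩ := hx
  exact ⟨r ^ n, by push_cast; rfl⟩

theorem IsRat.zpow {x : ℝ} (hx : IsRat x) (n : ℤ) : IsRat (x ^ n) := by
  obtain ⟨r, rfl⟩ := hx
  exact ⟨r ^ n, by push_cast; rfl⟩

theorem isRat_int (n : ℤ) : IsRat (n : ℝ) := ⟨n, by push_cast; rfl⟩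

theorem isRat_one : IsRat 1 := ⟨1, by push_cast; rfl⟩

/-- a real number with rational absolute value is rational -/
theorem IsRat.of_abs {x : ℝ} (h : IsRat |x|) : IsRat x := by
  rcases abs_choice x with hx | hx
  · rwa [hx] at h
  · have := h.neg
    rwa [hx, neg_neg] at this

theorem prod_norm_aux (R : Multiset ℂ) (α β : ℝ) (h : ∀ z ∈ R, ‖z‖ = α ∨ ‖z‖ = β) (hα : ∃ z ∈ R, ‖z‖ = α) :
    ∃ r s : ℕ, 0 < r ∧ (R.map (fun z => ‖z‖)).prod = α ^ r * β ^ s := by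
  classical
  set R1 := R.filter (fun z => ‖z‖ = α) with hR1
  set R2 := R.filter (fun z => ¬ ‖z‖ = α) with hR2
  have hR : R1 + R2 = R := Multiset.filter_add_not _ R
  refine ⟨Multiset.card R1, Multiset.card R2, ?_, ?_⟩
  · obtain ⟨z, hz, hzα⟩ := hα
    rw [Multiset.card_pos]
    intro h0
    have : z ∈ R1 := Multiset.mem_filter.mpr ⟨hz, hzα⟩
    rw [h0] at this
    exact Multiset.notMem_zero z this
  · rw [← hR, Multiset.map_add, Multiset.prod_add]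
    congr 1
    · have h1 : R1.map (fun z => ‖z‖) = Multiset.replicate (Multiset.card R1) α := by
        rw [Multiset.eq_replicate]
        refine ⟨Multiset.card_map _ _, fun x hx => ?_⟩
        obtain ⟨z, hz, rfl⟩ := Multiset.mem_map.mp hx
        exact (Multiset.mem_filter.mp hz).2
      rw [h1, Multiset.prod_replicate]
    · have h1 : R2.map (fun z => ‖z‖) = Multiset.replicate (Multiset.card R2) β := by
        rw [Multiset.eq_replicate]
        refine ⟨Multiset.card_map _ _, fun x hx => ?_⟩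
        obtain ⟨z, hz, rfl⟩ := Multiset.mem_map.mp hx
        have h1 := Multiset.mem_filter.mp hz
        exact (h z h1.1).resolve_left h1.2
      rw [h1, Multiset.prod_replicate]

/-- existence of a conjugate with new absolute value -/
theorem exists_conj (c u : ℝ) (hc0 : c ≠ 0) (hu0 : u ≠ 0) (hcalg : IsIntegral ℚ c)
    (hc : ∀ m : ℕ, 0 < m → ¬ IsRat (c ^ m)) (hu : ∃ g : ℕ, 0 < g ∧ IsRat (u ^ g)) :
    ∃ c' : ℂ, aeval c' (minpoly ℚ c) = 0 ∧ c' ≠ 0 ∧ ‖c'‖ ≠ |c| ∧ ‖c'‖ ≠ |u| := by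
  classical
  by_contra hcon
  push Not at hcon
  set P := minpoly ℚ c with hP
  have hmonic : P.Monic := minpoly.monic hcalg
  have hirr : Irreducible P := minpoly.irreducible hcalg
  set PC := P.map (algebraMap ℚ ℂ) with hPC
  have hPCmonic : PC.Monic := hmonic.map _
  have hPC0 : PC ≠ 0 := hPCmonic.ne_zero
  have hcoeff0 : P.coeff 0 ≠ 0 := minpoly.coeff_zero_ne_zero hcalg hc0
  have hroot : ∀ z ∈ PC.roots, ‖z‖ = |c| ∨ ‖z‖ = |u| := by
    intro z hz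
    rw [mem_roots hPC0, IsRoot.def, eval_map_algebraMap] at hz
    have hz0 : z ≠ 0 := by
      rintro rfl
      apply hcoeff0
      have h5 : aeval (0 : ℂ) P = (algebraMap ℚ ℂ) (P.coeff 0) := by
        rw [aeval_def, eval₂_at_zero]
      rw [h5] at hz
      exact (map_eq_zero _).mp hz
    by_cases h1 : ‖z‖ = |c|
    · exact Or.inl h1
    · exact Or.inr (hcon z hz hz0 h1)
  have hcroot : ∃ z ∈ PC.roots, ‖z‖ = |c| := by
    refine ⟨(c : ℂ), ?_, by rw [Complex.norm_real, Real.norm_eq_abs]⟩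
    rw [mem_roots hPC0, IsRoot.def, eval_map_algebraMap]
    have h1 : aeval (algebraMap ℝ ℂ c) P = algebraMap ℝ ℂ (aeval c P) :=
      aeval_algebraMap_apply ℂ c P
    have h2 : (algebraMap ℝ ℂ c) = (c : ℂ) := rfl
    rw [← h2, h1, minpoly.aeval, map_zero]
  obtain ⟨r, s, hr, hrs⟩ := prod_norm_aux PC.roots |c| |u| hroot hcroot
  have hprod : (PC.roots.map (fun z => ‖z‖)).prod = |(P.coeff 0 : ℝ)| := by
    have h1 := (IsAlgClosed.splits PC).coeff_zero_eq_prod_roots_of_monic hPCmonic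
    have h2 := congrArg norm h1
    rw [norm_mul, norm_pow, norm_neg, norm_one, one_pow, one_mul] at h2
    have h3 : ‖PC.roots.prod‖ = (PC.roots.map (fun z => ‖z‖)).prod := by
      exact map_multiset_prod (normHom : ℂ →*₀ ℝ) PC.roots
    rw [h3] at h2
    rw [← h2, hPC, coeff_map]
    simp
  obtain ⟨g, hg, hgr⟩ := hu
  -- now |c|^(r g) is rational
  have h1 : |c| ^ (r * g) = |(P.coeff 0 : ℝ)| ^ g / (|u| ^ g) ^ s := by
    have hu' : (|u| ^ g) ^ s ≠ 0 := pow_ne_zero _ (pow_ne_zero _ (abs_ne_zero.mpr hu0))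
    rw [eq_div_iff hu', ← hprod, hrs]
    ring
  have habs : ∀ x : ℝ, IsRat x → IsRat |x| := by
    rintro x ⟨q, rfl⟩
    exact ⟨|q|, by push_cast; rfl⟩
  have h2 : IsRat (|c| ^ (r * g)) := by
    rw [h1]
    apply IsRat.div
    · exact (habs _ ⟨P.coeff 0, rfl⟩).pow g
    · rw [← abs_pow]
      exact (habs _ hgr).pow s
  rw [← abs_pow] at h2
  exact hc (r * g) (Nat.mul_pos hr hg) h2.of_abs

/-- the exceptional exponents for a given slope -/
def excSet (c u θ : ℝ) : Set ℤ :=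
  {j : ℤ | j ≠ 0 ∧ IsRat (u ^ j) ∧ ¬ IsRat (c ^ j) ∧ IsRat ((c ^ j - u ^ j) * θ)}

theorem zpow_ne_of_abs {c u : ℝ} (hc : 1 < |c|) (hu0 : u ≠ 0) (hu : |u| < 1) {i : ℤ} (hi : i ≠ 0) :
    u ^ i ≠ c ^ i := by
  intro h
  have h1 := congrArg abs h
  rw [abs_zpow, abs_zpow] at h1
  have hu' : 0 < |u| := abs_pos.mpr hu0
  rcases lt_or_gt_of_ne hi with h2 | h2
  · have h3 : |c| ^ i < 1 := zpow_lt_one_of_neg₀ hc h2
    have h4 : 1 < |u| ^ i := one_lt_zpow_of_neg₀ hu' hu h2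
    linarith
  · have h3 : 1 < |c| ^ i := one_lt_zpow₀ hc h2
    have h4 : |u| ^ i < 1 := by
      have h5 := one_lt_zpow_of_neg₀ hu' hu (show -i < 0 by omega)
      rw [zpow_neg] at h5
      exact (one_lt_inv₀ (zpow_pos hu' i)).mp h5
    linarith

/-- two exceptional exponents give a rational relation -/
theorem exc_relation {c u θ : ℝ} (hc : 1 < |c|) (hu0 : u ≠ 0) (hu : |u| < 1) (hθ : ¬ IsRat θ)
    {j k : ℤ} (hj : j ∈ excSet c u θ) (hk : k ∈ excSet c u θ) :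
    ∃ ρ : ℚ, c ^ j - u ^ j = ρ * (c ^ k - u ^ k) := by
  have hθ0 : θ ≠ 0 := by
    rintro rfl
    exact hθ ⟨0, by push_cast; rfl⟩
  have hk0 : c ^ k - u ^ k ≠ 0 := sub_ne_zero.mpr (zpow_ne_of_abs hc hu0 hu hk.1).symm
  obtain ⟨ρ, hρ⟩ := hj.2.2.2.div hk.2.2.2
  refine ⟨ρ, ?_⟩
  rw [← hρ]
  field_simp

theorem exc_relation_conj {c u θ : ℝ} (hc : 1 < |c|) (hu0 : u ≠ 0) (hu : |u| < 1) (hθ : ¬ IsRat θ)
    {j k : ℤ} (hj : j ∈ excSet c u θ) (hk : k ∈ excSet c u θ) (hjk : j ≠ k) :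
    IsIntegral ℚ c ∧ ∀ c' : ℂ, aeval c' (minpoly ℚ c) = 0 → c' ≠ 0 →
      (((c : ℂ) / u) ^ j - 1) * ((c' / u) ^ k - 1) = (((c : ℂ) / u) ^ k - 1) * ((c' / u) ^ j - 1) := by
  have hc0 : c ≠ 0 := by
    rintro rfl
    rw [abs_zero] at hc
    linarith
  obtain ⟨ρ, hρ⟩ := exc_relation hc hu0 hu hθ hj hk
  obtain ⟨rj, hrj⟩ := hj.2.1
  obtain ⟨rk, hrk⟩ := hk.2.1
  -- the polynomial
  set M : ℕ := j.natAbs + k.natAbs with hM
  set aj : ℕ := (j + M).toNat with haj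
  set ak : ℕ := (k + M).toNat with hak
  have haj' : (aj : ℤ) = j + M := Int.toNat_of_nonneg (by omega)
  have hak' : (ak : ℤ) = k + M := Int.toNat_of_nonneg (by omega)
  set F : ℚ[X] := X ^ aj - C ρ * X ^ ak - C (rj - ρ * rk) * X ^ M with hF
  have hFne : F ≠ 0 := by
    intro h0
    have h1 : F.coeff aj = 1 := by
      rw [hF]
      simp only [coeff_sub, coeff_X_pow, coeff_C_mul]
      rw [if_neg (by omega : ¬ aj = ak), if_neg (by
        have := hj.1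
        omega : ¬ aj = M)]
      simp
    rw [h0, coeff_zero] at h1
    exact zero_ne_one h1
  have hFc : aeval c F = 0 := by
    rw [hF]
    simp only [map_sub, map_mul, map_pow, aeval_X, aeval_C]
    have e1 : c ^ aj = c ^ j * c ^ M := by
      rw [← zpow_natCast, haj', zpow_add₀ hc0, zpow_natCast]
    have e2 : c ^ ak = c ^ k * c ^ M := by
      rw [← zpow_natCast, hak', zpow_add₀ hc0, zpow_natCast]
    rw [e1, e2]
    have e3 : (algebraMap ℚ ℝ) ρ = (ρ : ℝ) := rfl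
    have e4 : (algebraMap ℚ ℝ) rj = (rj : ℝ) := rfl
    have e5 : (algebraMap ℚ ℝ) rk = (rk : ℝ) := rfl
    rw [e3, e4, e5, ← hrj, ← hrk]
    linear_combination (c ^ M) * hρ
  have hint : IsIntegral ℚ c := isAlgebraic_iff_isIntegral.mp ⟨F, hFne, hFc⟩
  refine ⟨hint, fun c' hc' hc'0 => ?_⟩
  have hdvd : minpoly ℚ c ∣ F := minpoly.dvd ℚ c hFc
  obtain ⟨Q, hQ⟩ := hdvd
  have hFc' : aeval c' F = 0 := by rw [hQ, map_mul, hc', zero_mul]
  have hrel : c' ^ j - (u : ℂ) ^ j = ρ * (c' ^ k - (u : ℂ) ^ k) := by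
    rw [hF] at hFc'
    simp only [map_sub, map_mul, map_pow, aeval_X, aeval_C] at hFc'
    have e1 : c' ^ aj = c' ^ j * c' ^ M := by
      rw [← zpow_natCast, haj', zpow_add₀ hc'0, zpow_natCast]
    have e2 : c' ^ ak = c' ^ k * c' ^ M := by
      rw [← zpow_natCast, hak', zpow_add₀ hc'0, zpow_natCast]
    rw [e1, e2] at hFc'
    have e3 : (algebraMap ℚ ℂ) ρ = (ρ : ℂ) := rfl
    have e4 : (algebraMap ℚ ℂ) rj = (rj : ℂ) := rfl
    have e5 : (algebraMap ℚ ℂ) rk = (rk : ℂ) := rfl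
    rw [e3, e4, e5] at hFc'
    have e6 : (u : ℂ) ^ j = rj := by exact_mod_cast congrArg (fun x : ℝ => (x : ℂ)) hrj
    have e7 : (u : ℂ) ^ k = rk := by exact_mod_cast congrArg (fun x : ℝ => (x : ℂ)) hrk
    rw [e6, e7]
    have hM0 : c' ^ M ≠ 0 := pow_ne_zero _ hc'0
    apply mul_right_cancel₀ hM0
    linear_combination hFc'
  have hrelc : (c : ℂ) ^ j - (u : ℂ) ^ j = ρ * ((c : ℂ) ^ k - (u : ℂ) ^ k) := by
    exact_mod_cast congrArg (fun x : ℝ => (x : ℂ)) hρ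
  have huC : (u : ℂ) ≠ 0 := by exact_mod_cast hu0
  have huj : (u : ℂ) ^ j ≠ 0 := zpow_ne_zero _ huC
  have huk : (u : ℂ) ^ k ≠ 0 := zpow_ne_zero _ huC
  rw [div_zpow, div_zpow, div_zpow, div_zpow]
  field_simp
  linear_combination (c' ^ k - (u : ℂ) ^ k) * hrelc - ((c : ℂ) ^ k - (u : ℂ) ^ k) * hrel

end Pool.Agent.Lib_helper44
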