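import Mathlib
import Pool.Agent.Lib_helper44.NT2

open Filter Topology Polynomial

set_option linter.unusedSectionVars false

namespace Pool.Agent.Lib_helper44

theorem encard_le_of_subsingleton {S : Set ℤ} (h : S.Subsingleton) : S.encard ≤ 1 :=
  Set.encard_le_one_iff.mpr fun _ _ ha hb => h ha hb

/-- case of a rational power -/
theorem count_caseA {c u : ℝ} (hc : 1 < |c|) (hu0 : u ≠ 0) (hu : |u| < 1)
    {m : ℕ} (hm : 0 < m) (hcm : IsRat (c ^ m)) {θ : ℝ} (hθ : ¬ IsRat θ) :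
    (excSet c u θ).encard ≤ m := by
  have hc0 : c ≠ 0 := by
    rintro rfl
    rw [abs_zero] at hc
    linarith
  have hmZ : (0 : ℤ) < m := by exact_mod_cast hm
  have hinj : Set.InjOn (fun j : ℤ => j % m) (excSet c u θ) := by
    intro j hj k hk hjk
    by_contra hne
    have hjk' : j % m = k % m := hjk
    -- k = j + m i
    obtain ⟨i, hi⟩ : (m : ℤ) ∣ k - j := by
      have := Int.emod_emod_of_dvd j (dvd_refl (m : ℤ))
      exact Int.ModEq.dvd hjk'
    set ρ : ℝ := (c ^ m) ^ i with hρ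
    have hρr : IsRat ρ := hcm.zpow i
    have hρ2 : ρ = c ^ (k - j) := by
      rw [hρ, hi, zpow_mul, zpow_natCast]
    have hck : c ^ k = ρ * c ^ j := by
      rw [hρ2, ← zpow_add₀ hc0]
      congr 1
      ring
    have h1 : IsRat ((ρ * u ^ j - u ^ k) * θ) := by
      have h2 := hk.2.2.2.sub (hρr.mul hj.2.2.2)
      have h3 : (c ^ k - u ^ k) * θ - ρ * ((c ^ j - u ^ j) * θ) = (ρ * u ^ j - u ^ k) * θ := by
        rw [hck]
        ring
      rwa [h3] at h2
    have h2 : IsRat (ρ * u ^ j - u ^ k) := (hρr.mul hj.2.1).sub hk.2.1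
    have h3 : ρ * u ^ j - u ^ k = 0 := by
      by_contra hne0
      apply hθ
      have h4 := h1.div h2
      rwa [mul_div_cancel_left₀ _ hne0] at h4
    have h4 : u ^ (k - j) = c ^ (k - j) := by
      rw [← hρ2, zpow_sub₀ hu0, div_eq_iff (zpow_ne_zero _ hu0)]
      linarith
    exact zpow_ne_of_abs hc hu0 hu (sub_ne_zero.mpr (Ne.symm hne)) h4
  rw [← hinj.encard_image]
  have hsub : (fun j : ℤ => j % m) '' (excSet c u θ) ⊆ ((Finset.Ico (0 : ℤ) m : Finset ℤ) : Set ℤ) := by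
    rintro _ ⟨j, _, rfl⟩
    rw [Finset.coe_Ico]
    exact ⟨Int.emod_nonneg _ hmZ.ne', Int.emod_lt_of_pos _ hmZ⟩
  refine (Set.encard_le_encard hsub).trans ?_
  rw [Set.encard_coe_eq_coe_finsetCard, Int.card_Ico]
  simp

theorem pow_cast_pos {a : ℂ} (j : ℕ) : a ^ (j : ℤ) = a ^ j := zpow_natCast a j

theorem pow_cast_neg {a : ℂ} (j : ℕ) : a ^ (-(j : ℤ)) = (a⁻¹) ^ j := by
  rw [zpow_neg, zpow_natCast, inv_pow]

/-- the uniform count -/
theorem count_lemma {c u : ℝ} (hc : 1 < |c|) (hu0 : u ≠ 0) (hu : |u| < 1) :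
    ∃ C : ℕ, ∀ θ : ℝ, ¬ IsRat θ → (excSet c u θ).encard ≤ C := by
  classical
  have hc0 : c ≠ 0 := by
    rintro rfl
    rw [abs_zero] at hc
    linarith
  by_cases hA : ∃ m : ℕ, 0 < m ∧ IsRat (c ^ m)
  · obtain ⟨m, hm, hcm⟩ := hA
    exact ⟨m, fun θ hθ => count_caseA hc hu0 hu hm hcm hθ⟩
  push Not at hA
  by_cases hU : ∃ g : ℕ, 0 < g ∧ IsRat (u ^ g)
  swap
  · refine ⟨0, fun θ hθ => ?_⟩
    have : excSet c u θ = ∅ := by
      ext j
      simp only [Set.mem_empty_iff_false, iff_false]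
      rintro ⟨hj0, hju, -, -⟩
      apply hU
      refine ⟨j.natAbs, Int.natAbs_pos.mpr hj0, ?_⟩
      rcases Int.natAbs_eq j with h | h
      · rw [h, zpow_natCast] at hju
        exact hju
      · rw [h, zpow_neg, zpow_natCast] at hju
        have := hju.inv
        rwa [inv_inv] at this
    rw [this, Set.encard_empty]
    exact zero_le
  by_cases hI : IsIntegral ℚ c
  swap
  · refine ⟨1, fun θ hθ => ?_⟩
    apply encard_le_of_subsingleton
    intro j hj k hk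
    by_contra hne
    exact hI (exc_relation_conj hc hu0 hu hθ hj hk hne).1
  obtain ⟨c', hc'root, hc'0, hc'c, hc'u⟩ := exists_conj c u hc0 hu0 hI hA hU
  set a : ℂ := (c : ℂ) / u with ha
  set b : ℂ := c' / u with hb
  have huC : (u : ℂ) ≠ 0 := by exact_mod_cast hu0
  have hu' : 0 < |u| := abs_pos.mpr hu0
  have ha0 : a ≠ 0 := div_ne_zero (by exact_mod_cast hc0) huC
  have hb0 : b ≠ 0 := div_ne_zero hc'0 huC
  have hna : ‖a‖ = |c| / |u| := by
    rw [ha, norm_div, Complex.norm_real, Complex.norm_real]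
    rfl
  have hnb : ‖b‖ = ‖c'‖ / |u| := by
    rw [hb, norm_div, Complex.norm_real]
    rfl
  have ha1 : ‖a‖ ≠ 1 := by
    rw [hna]
    intro h
    rw [div_eq_one_iff_eq hu'.ne'] at h
    linarith
  have hb1 : ‖b‖ ≠ 1 := by
    rw [hnb]
    intro h
    rw [div_eq_one_iff_eq hu'.ne'] at h
    exact hc'u h
  have hab : ‖a‖ ≠ ‖b‖ := by
    rw [hna, hnb]
    intro h
    rw [div_left_inj' hu'.ne'] at h
    exact hc'c h.symm
  obtain ⟨N1, hN1, hpos⟩ := ineq_main ha0 hb0 ha1 hb1 hab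
  obtain ⟨N2, hN2, hneg⟩ := ineq_main (inv_ne_zero ha0) (inv_ne_zero hb0)
    (by rw [norm_inv]; intro h; exact ha1 (inv_eq_one.mp h))
    (by rw [norm_inv]; intro h; exact hb1 (inv_eq_one.mp h))
    (by rw [norm_inv, norm_inv]; intro h; exact hab (inv_injective h))
  refine ⟨1 + 1 + (N1 + N2), fun θ hθ => ?_⟩
  have hrel : ∀ j ∈ excSet c u θ, ∀ k ∈ excSet c u θ, j ≠ k →
      (a ^ j - 1) * (b ^ k - 1) = (a ^ k - 1) * (b ^ j - 1) := fun j hj k hk hjk =>
    (exc_relation_conj hc hu0 hu hθ hj hk hjk).2 c' hc'root hc'0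
  have hS1 : (excSet c u θ ∩ {j | (N1 : ℤ) ≤ j}).Subsingleton := by
    have key : ∀ j k : ℤ, j ∈ excSet c u θ → k ∈ excSet c u θ → (N1 : ℤ) ≤ j → ¬ (j < k) := by
      intro j k hj hk hjN hlt
      have h1 := hrel j hj k hk hlt.ne
      obtain ⟨j', rfl⟩ : ∃ j' : ℕ, j = j' := ⟨j.toNat, by omega⟩
      obtain ⟨k', rfl⟩ : ∃ k' : ℕ, k = k' := ⟨k.toNat, by omega⟩
      rw [pow_cast_pos, pow_cast_pos, pow_cast_pos, pow_cast_pos] at h1
      exact hpos j' (by exact_mod_cast hjN) k' (by exact_mod_cast hlt) h1.symm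
    rintro j ⟨hj, hjN⟩ k ⟨hk, hkN⟩
    rcases lt_trichotomy j k with h | h | h
    · exact absurd h (key j k hj hk hjN)
    · exact h
    · exact absurd h (key k j hk hj hkN)
  have hS2 : (excSet c u θ ∩ {j | j ≤ -(N2 : ℤ)}).Subsingleton := by
    have key : ∀ j k : ℤ, j ∈ excSet c u θ → k ∈ excSet c u θ → j ≤ -(N2 : ℤ) → ¬ (k < j) := by
      intro j k hj hk hjN hlt
      have h1 := hrel j hj k hk hlt.ne'
      obtain ⟨j', rfl⟩ : ∃ j' : ℕ, j = -(j' : ℤ) := ⟨(-j).toNat, by omega⟩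
      obtain ⟨k', rfl⟩ : ∃ k' : ℕ, k = -(k' : ℤ) := ⟨(-k).toNat, by omega⟩
      rw [pow_cast_neg, pow_cast_neg, pow_cast_neg, pow_cast_neg] at h1
      exact hneg j' (by omega) k' (by omega) h1.symm
    rintro j ⟨hj, hjN⟩ k ⟨hk, hkN⟩
    rcases lt_trichotomy j k with h | h | h
    · exact absurd h (key k j hk hj hkN)
    · exact h
    · exact absurd h (key j k hj hk hjN)
  have hcover : excSet c u θ ⊆ ((excSet c u θ ∩ {j | (N1 : ℤ) ≤ j}) ∪
      (excSet c u θ ∩ {j | j ≤ -(N2 : ℤ)})) ∪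
      ((Finset.Ico (-(N2 : ℤ)) N1 : Finset ℤ) : Set ℤ) := by
    intro j hj
    by_cases h1 : (N1 : ℤ) ≤ j
    · exact Or.inl (Or.inl ⟨hj, h1⟩)
    · by_cases h2 : j ≤ -(N2 : ℤ)
      · exact Or.inl (Or.inr ⟨hj, h2⟩)
      · right
        rw [Finset.coe_Ico]
        exact ⟨by omega, by omega⟩
  refine (Set.encard_le_encard hcover).trans ?_
  refine (Set.encard_union_le _ _).trans ?_
  push_cast
  gcongr
  · refine (Set.encard_union_le _ _).trans ?_
    exact add_le_add (encard_le_of_subsingleton hS1) (encard_le_of_subsingleton hS2)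
  · rw [← Finset.coe_Ico, Set.encard_coe_eq_coe_finsetCard, Int.card_Ico]
    have : ((N1 : ℤ) - -(N2 : ℤ)).toNat = N1 + N2 := by omega
    rw [this]
    push_cast
    exact le_rfl

end Pool.Agent.Lib_helper44
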