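import Mathlib
import Pool.Agent.Lib_helper44.Adapt3
import Pool.Agent.Lib_helper44.NT3

open MeasureTheory Complex Module
open scoped ENNReal InnerProductSpace

set_option linter.unusedSectionVars false

namespace Pool.Agent.Lib_helper44

variable {E : Type*} [NormedAddCommGroup E] [InnerProductSpace ℝ E] [FiniteDimensional ℝ E]
  [MeasurableSpace E] [BorelSpace E]
variable {γ : Basis (Fin 2) ℝ E} {B : E ≃L[ℝ] E} {φ : E → ℂ}

theorem noInt_of_lt {p : ℝ} (hp0 : p ≠ 0) (hp : |p| < 1) : ∀ m : ℕ, 0 < m → ∀ K : ℤ, p ^ m ≠ K := by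
  intro m hm K h
  have h1 : |p ^ m| < 1 := by
    rw [abs_pow]
    exact pow_lt_one₀ (abs_nonneg _) hp hm.ne'
  have h2 : 0 < |p ^ m| := abs_pos.mpr (pow_ne_zero _ hp0)
  rw [h] at h1 h2
  rw [← Int.cast_abs] at h1 h2
  have h3 : |K| < 1 := by exact_mod_cast h1
  have h4 : 0 < |K| := by exact_mod_cast h2
  omega

/-- tails controlled by divisibility -/
theorem tail_rat (h : IsONB (volume : Measure E) (fam γ B φ)) (S : Set ℤ)
    (hS0 : (0 : ℤ) ∉ S) (N s : ℤ) (hN : N ≠ 0) (p1 p2 : ℝ)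
    (hp1 : ∀ m : ℕ, 0 < m → ∀ K : ℤ, p1 ^ m ≠ K) (hp2 : ∀ m : ℕ, 0 < m → ∀ K : ℤ, p2 ^ m ≠ K)
    (hS : ∀ j ∈ S, ∀ v, v ∈ dualL γ → v ∈ Lj γ B j →
      (∃ a : ℤ, p2 ^ j.natAbs * ⟪γ 0, v⟫_ℝ = a) ∧
      (∃ a : ℤ, p1 ^ j.natAbs * (N * ⟪γ 1, v⟫_ℝ - s * ⟪γ 0, v⟫_ℝ) = a)) :
    TailOK γ B φ S := by
  obtain ⟨q1, κ1, hq1, hκ1, hdiv1⟩ := div_lemma p1 hp1
  obtain ⟨q2, κ2, hq2, hκ2, hdiv2⟩ := div_lemma p2 hp2
  let L : ℕ → AddSubgroup E := fun J =>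
    { carrier := {v | v ∈ dualL γ ∧ (∃ a : ℤ, ⟪γ 0, v⟫_ℝ = ((q2 : ℤ) ^ (J / κ2) * a : ℤ)) ∧
        (∃ a : ℤ, N * ⟪γ 1, v⟫_ℝ - s * ⟪γ 0, v⟫_ℝ = ((q1 : ℤ) ^ (J / κ1) * a : ℤ))}
      add_mem' := by
        rintro v w ⟨hv0, ⟨a, ha⟩, ⟨b, hb⟩⟩ ⟨hw0, ⟨a', ha'⟩, ⟨b', hb'⟩⟩
        refine ⟨(dualL γ).add_mem hv0 hw0, ⟨a + a', ?_⟩, ⟨b + b', ?_⟩⟩
        · rw [inner_add_right, ha, ha']
          push_cast
          ring
        · rw [inner_add_right, inner_add_right]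
          push_cast at hb hb' ⊢
          linear_combination hb + hb'
      zero_mem' := ⟨(dualL γ).zero_mem, ⟨0, by simp⟩, ⟨0, by simp⟩⟩
      neg_mem' := by
        rintro v ⟨hv0, ⟨a, ha⟩, ⟨b, hb⟩⟩
        refine ⟨(dualL γ).neg_mem hv0, ⟨-a, ?_⟩, ⟨-b, ?_⟩⟩
        · rw [inner_neg_right, ha]
          push_cast
          ring
        · rw [inner_neg_right, inner_neg_right]
          push_cast at hb ⊢
          linear_combination -hb }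
  have hmem : ∀ J v, v ∈ L J ↔ (v ∈ dualL γ ∧
        (∃ a : ℤ, ⟪γ 0, v⟫_ℝ = ((q2 : ℤ) ^ (J / κ2) * a : ℤ)) ∧
        (∃ a : ℤ, N * ⟪γ 1, v⟫_ℝ - s * ⟪γ 0, v⟫_ℝ = ((q1 : ℤ) ^ (J / κ1) * a : ℤ))) :=
    fun J v => Iff.rfl
  have hdvd : ∀ (q κ J J' : ℕ), J ≤ J' → (q : ℤ) ^ (J / κ) ∣ (q : ℤ) ^ (J' / κ) := fun q κ J J' h =>
    pow_dvd_pow _ (Nat.div_le_div_right h)
  refine tailOK_of_F1 h S L ?_ ?_ ?_
  · intro J J' hJJ' v hv
    rw [hmem] at hv ⊢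
    obtain ⟨hv0, ⟨a, ha⟩, ⟨b, hb⟩⟩ := hv
    obtain ⟨d2, hd2⟩ := hdvd q2 κ2 J J' hJJ'
    obtain ⟨d1, hd1⟩ := hdvd q1 κ1 J J' hJJ'
    refine ⟨hv0, ⟨d2 * a, ?_⟩, ⟨d1 * b, ?_⟩⟩
    · rw [ha, hd2]
      congr 1
      ring
    · rw [hb, hd1]
      congr 1
      ring
  · intro v hv hall
    have hzero : ∀ (q κ : ℕ), 2 ≤ q → 0 < κ → ∀ x : ℤ, (∀ J : ℕ, (q : ℤ) ^ (J / κ) ∣ x) → x = 0 := by
      intro q κ hq hκ x hx
      by_contra hne
      have h1 := hx (κ * x.natAbs)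
      rw [Nat.mul_div_cancel_left _ hκ] at h1
      have h2 := Int.natAbs_dvd_natAbs.mpr h1
      rw [Int.natAbs_pow, Int.natAbs_natCast] at h2
      have h3 := Nat.le_of_dvd (Int.natAbs_pos.mpr hne) h2
      have h4 : x.natAbs < q ^ x.natAbs := Nat.lt_pow_self (by omega)
      omega
    obtain ⟨x, hx⟩ := mem_dualL.mp hv 0
    obtain ⟨y, hy⟩ := mem_dualL.mp hv 1
    have hx0 : x = 0 := by
      apply hzero q2 κ2 hq2 hκ2
      intro J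
      obtain ⟨_, ⟨a, ha⟩, _⟩ := (hmem J v).mp (hall J)
      rw [hx] at ha
      exact ⟨a, by exact_mod_cast ha⟩
    have hw0 : N * y - s * x = 0 := by
      apply hzero q1 κ1 hq1 hκ1
      intro J
      obtain ⟨_, _, ⟨a, ha⟩⟩ := (hmem J v).mp (hall J)
      rw [hx, hy] at ha
      exact ⟨a, by exact_mod_cast ha⟩
    rw [hx0, mul_zero, sub_zero] at hw0
    have hy0 : y = 0 := (mul_eq_zero.mp hw0).resolve_left hN
    apply ext_inner_basis γ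
    intro i
    rw [inner_zero_right]
    fin_cases i
    · change ⟪γ 0, v⟫_ℝ = 0
      rw [hx, hx0, Int.cast_zero]
    · change ⟪γ 1, v⟫_ℝ = 0
      rw [hy, hy0, Int.cast_zero]
  · intro j hj J hJ v hv hvj
    have hj0 : 0 < j.natAbs := Int.natAbs_pos.mpr (fun h0 => hS0 (h0 ▸ hj))
    obtain ⟨⟨a, ha⟩, ⟨b, hb⟩⟩ := hS j hj v hv hvj
    obtain ⟨x, hx⟩ := mem_dualL.mp hv 0
    obtain ⟨y, hy⟩ := mem_dualL.mp hv 1
    rw [hmem]
    refine ⟨hv, ?_, ?_⟩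
    · rw [hx] at ha
      obtain ⟨d, hd⟩ := (hdvd q2 κ2 J _ hJ).trans (hdiv2 j.natAbs hj0 x a ha)
      exact ⟨d, by rw [hx, hd]⟩
    · have hw : p1 ^ j.natAbs * ((N * y - s * x : ℤ) : ℝ) = b := by
        rw [← hb, hx, hy]
        push_cast
        ring
      obtain ⟨d, hd⟩ := (hdvd q1 κ1 J _ hJ).trans (hdiv1 j.natAbs hj0 _ b hw)
      refine ⟨d, ?_⟩
      rw [← hd, hx, hy]
      push_cast
      ring

variable {lam mu t : ℝ}

/-- coordinates of a dilated lattice vector -/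
theorem coords_of_mem (hl0 : lam ≠ 0) (hm0 : mu ≠ 0)
    (h0 : ∀ x, ⟪γ 0, B x⟫_ℝ = lam * ⟪γ 0, x⟫_ℝ)
    (h1 : ∀ x, ⟪γ 1, B x⟫_ℝ - t * ⟪γ 0, B x⟫_ℝ = mu * (⟪γ 1, x⟫_ℝ - t * ⟪γ 0, x⟫_ℝ))
    {j : ℤ} {v : E} (hv : v ∈ Lj γ B j) :
    ∃ a b : ℤ, (a : ℝ) = lam⁻¹ ^ j * ⟪γ 0, v⟫_ℝ ∧
      (b : ℝ) - t * a = mu⁻¹ ^ j * (⟪γ 1, v⟫_ℝ - t * ⟪γ 0, v⟫_ℝ) := by
  rw [mem_Lj] at hv
  obtain ⟨a, ha⟩ := mem_dualL.mp hv 0
  obtain ⟨b, hb⟩ := mem_dualL.mp hv 1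
  have e0 := functional_zpow (B := B) (f := fun x => ⟪γ 0, x⟫_ℝ) hl0 h0 (-j) v
  have e1 := functional_zpow (B := B) (f := fun x => ⟪γ 1, x⟫_ℝ - t * ⟪γ 0, x⟫_ℝ) hm0 h1 (-j) v
  beta_reduce at e0 e1
  rw [ha] at e0 e1
  rw [hb] at e1
  refine ⟨a, b, ?_, ?_⟩
  · rw [e0, inv_zpow']
  · rw [e1, inv_zpow']

theorem tailOK_plane (hφm : Measurable φ) (h : IsONB (volume : Measure E) (fam γ B φ))
    (hl1 : 1 < |lam|) (hm0 : mu ≠ 0) (hmu : |mu| < 1)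
    (h0 : ∀ x, ⟪γ 0, B x⟫_ℝ = lam * ⟪γ 0, x⟫_ℝ)
    (h1 : ∀ x, ⟪γ 1, B x⟫_ℝ - t * ⟪γ 0, B x⟫_ℝ = mu * (⟪γ 1, x⟫_ℝ - t * ⟪γ 0, x⟫_ℝ))
    (hc : ∀ m : ℕ, 0 < m → ∀ K : ℤ, mu⁻¹ ^ m ≠ K)
    (hlt : IsRat t → ∀ m : ℕ, 0 < m → ∀ K : ℤ, lam ^ m ≠ K) :
    TailOK γ B φ {j | j ≠ 0} := by
  have hl0 : lam ≠ 0 := by
    rintro rfl
    rw [abs_zero] at hl1
    linarith
  have hli : |lam⁻¹| < 1 := by
    rw [abs_inv]
    exact inv_lt_one_of_one_lt₀ hl1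
  have hli0 : lam⁻¹ ≠ 0 := inv_ne_zero hl0
  have hmi : 1 < |mu⁻¹| := by
    rw [abs_inv]
    exact (one_lt_inv₀ (abs_pos.mpr hm0)).mpr hmu
  have hu' := noInt_of_lt hli0 hli
  have hmu' := noInt_of_lt hm0 hmu
  have hpos : ∀ (p : ℝ) (j : ℤ), 0 < j → p ^ j.natAbs = p ^ j := by
    intro p j hj
    rw [← zpow_natCast]
    congr 1
    omega
  have hneg : ∀ (p : ℝ) (j : ℤ), j < 0 → p ^ j.natAbs = p⁻¹ ^ j := by
    intro p j hj
    rw [← zpow_natCast, inv_zpow', ← Int.natAbs_neg]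
    congr 1
    omega
  by_cases ht : IsRat t
  · -- rational slope
    have hlam := hlt ht
    obtain ⟨r, hr⟩ := ht
    have hN0 : (r.den : ℤ) ≠ 0 := by exact_mod_cast r.den_pos.ne'
    have hNR : (r.den : ℝ) ≠ 0 := by exact_mod_cast r.den_pos.ne'
    have hrt : (r.den : ℝ) * t = r.num := by
      rw [hr]
      have := Rat.mul_den_eq_num r
      have h2 : ((r * r.den : ℚ) : ℝ) = ((r.num : ℚ) : ℝ) := by rw [this]
      push_cast at h2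
      linarith
    have key : ∀ (j : ℤ) (v : E), v ∈ Lj γ B j →
        (∃ a : ℤ, lam⁻¹ ^ j * ⟪γ 0, v⟫_ℝ = a) ∧
        (∃ a : ℤ, mu⁻¹ ^ j * (((r.den : ℤ) : ℝ) * ⟪γ 1, v⟫_ℝ - r.num * ⟪γ 0, v⟫_ℝ) = a) := by
      intro j v hv
      obtain ⟨a, b, ha, hb⟩ := coords_of_mem hl0 hm0 h0 h1 hv
      refine ⟨⟨a, ha.symm⟩, ⟨r.den * b - r.num * a, ?_⟩⟩
      push_cast
      rw [← hrt]
      linear_combination -(r.den : ℝ) * hb
    have hS1 : TailOK γ B φ {j | 0 < j} := by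
      refine tail_rat h _ (by simp) (r.den : ℤ) r.num hN0 mu⁻¹ lam⁻¹ hc hu' ?_
      intro j hj v _ hvj
      have hj' : 0 < j := hj
      rw [hpos _ j hj', hpos _ j hj']
      exact key j v hvj
    have hS2 : TailOK γ B φ {j | j < 0} := by
      refine tail_rat h _ (by simp) (r.den : ℤ) r.num hN0 mu lam hmu' hlam ?_
      intro j hj v _ hvj
      have hj' : j < 0 := hj
      rw [hneg _ j hj', hneg _ j hj']
      exact key j v hvj
    refine (hS1.union hS2).mono ?_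
    intro j hj
    have hj' : j ≠ 0 := hj
    rcases lt_or_gt_of_ne hj' with h2 | h2
    · exact Or.inr h2
    · exact Or.inl h2
  · -- irrational slope
    have hhalf : ∀ m : ℕ, 0 < m → ∀ K : ℤ, (1 / 2 : ℝ) ^ m ≠ K :=
      noInt_of_lt (by norm_num) (by rw [abs_of_pos] <;> norm_num)
    have key : ∀ (j : ℤ), j ≠ 0 → IsRat (mu⁻¹ ^ j) → ∀ v, v ∈ dualL γ → v ∈ Lj γ B j →
        ⟪γ 0, v⟫_ℝ = 0 ∧ ∃ b : ℤ, mu⁻¹ ^ j * ⟪γ 1, v⟫_ℝ = b := by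
      intro j hj hrat v hv hvj
      obtain ⟨a, b, ha, hb⟩ := coords_of_mem hl0 hm0 h0 h1 hvj
      obtain ⟨x, hx⟩ := mem_dualL.mp hv 0
      obtain ⟨y, hy⟩ := mem_dualL.mp hv 1
      rw [hx] at ha hb ⊢
      rw [hy] at hb ⊢
      have e1 : t * (a - mu⁻¹ ^ j * x) = b - mu⁻¹ ^ j * y := by linear_combination -hb
      have hr1 : IsRat ((a : ℝ) - mu⁻¹ ^ j * x) := (isRat_int a).sub (hrat.mul (isRat_int x))
      have hr2 : IsRat ((b : ℝ) - mu⁻¹ ^ j * y) := (isRat_int b).sub (hrat.mul (isRat_int y))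
      have e2 : (a : ℝ) - mu⁻¹ ^ j * x = 0 := by
        by_contra hne
        apply ht
        have h3 : t = (b - mu⁻¹ ^ j * y) / (a - mu⁻¹ ^ j * x) := by
          rw [eq_div_iff hne, e1]
        rw [h3]
        exact hr2.div hr1
      rw [e2, mul_zero] at e1
      have hx0 : (x : ℝ) = 0 := by
        by_contra hne
        have h3 : (lam⁻¹ ^ j - mu⁻¹ ^ j) * (x : ℝ) = 0 := by linear_combination e2 - ha
        have h4 := (mul_eq_zero.mp h3).resolve_right hne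
        exact zpow_ne_of_abs hmi hli0 hli hj (sub_eq_zero.mp h4)
      exact ⟨hx0, b, by linarith⟩
    have hS1 : TailOK γ B φ {j | 0 < j ∧ IsRat (mu⁻¹ ^ j)} := by
      refine tail_rat h _ (by simp) 1 0 one_ne_zero mu⁻¹ (1 / 2) hc hhalf ?_
      rintro j ⟨hj, hrat⟩ v hv hvj
      obtain ⟨k1, b, k2⟩ := key j hj.ne' hrat v hv hvj
      refine ⟨⟨0, by rw [k1]; simp⟩, ⟨b, ?_⟩⟩
      rw [hpos _ j hj, ← k2]
      push_cast
      ring
    have hS2 : TailOK γ B φ {j | j < 0 ∧ IsRat (mu⁻¹ ^ j)} := by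
      refine tail_rat h _ (by simp) 1 0 one_ne_zero mu (1 / 2) hmu' hhalf ?_
      rintro j ⟨hj, hrat⟩ v hv hvj
      obtain ⟨k1, b, k2⟩ := key j hj.ne hrat v hv hvj
      refine ⟨⟨0, by rw [k1]; simp⟩, ⟨b, ?_⟩⟩
      rw [hneg _ j hj, ← k2]
      push_cast
      ring
    have hS3 : TailOK γ B φ {j | j ≠ 0 ∧ ¬ IsRat (mu⁻¹ ^ j)} := by
      obtain ⟨C, hC⟩ := count_lemma hmi hli0 hli
      refine tailOK_of_F2 hφm h _ (by simp) C ?_
      intro v hv hv0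
      obtain ⟨x, hx⟩ := mem_dualL.mp hv 0
      obtain ⟨y, hy⟩ := mem_dualL.mp hv 1
      by_cases hx0 : (x : ℝ) = 0
      · -- no such j
        have hempty : ({j | j ∈ {j : ℤ | j ≠ 0 ∧ ¬ IsRat (mu⁻¹ ^ j)} ∧ v ∈ Lj γ B j} : Set ℤ) = ∅ := by
          ext j
          simp only [Set.mem_empty_iff_false, iff_false]
          rintro ⟨⟨hj0, hjr⟩, hvj⟩
          obtain ⟨a, b, ha, hb⟩ := coords_of_mem hl0 hm0 h0 h1 hvj
          rw [hx, hx0, mul_zero] at ha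
          rw [hx, hx0, hy, ha, mul_zero, sub_zero, sub_zero] at hb
          have hy0 : (y : ℝ) ≠ 0 := by
            intro hy0
            apply hv0
            apply ext_inner_basis γ
            intro i
            rw [inner_zero_right]
            fin_cases i
            · change ⟪γ 0, v⟫_ℝ = 0
              rw [hx, hx0]
            · change ⟪γ 1, v⟫_ℝ = 0
              rw [hy, hy0]
          apply hjr
          have h3 : mu⁻¹ ^ j = b / y := by rw [eq_div_iff hy0, hb]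
          rw [h3]
          exact (isRat_int b).div (isRat_int y)
        rw [hempty, Set.encard_empty]
        exact zero_le
      · -- at most `C` such j
        have hθ : ¬ IsRat ((y : ℝ) / x - t) := by
          intro hr
          apply ht
          have := ((isRat_int y).div (isRat_int x)).sub hr
          rwa [sub_sub_cancel] at this
        refine (Set.encard_le_encard ?_).trans (hC _ hθ)
        rintro j ⟨⟨hj0, hjr⟩, hvj⟩
        obtain ⟨a, b, ha, hb⟩ := coords_of_mem hl0 hm0 h0 h1 hvj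
        rw [hx] at ha hb
        rw [hy] at hb
        have hu : lam⁻¹ ^ j = a / x := by rw [eq_div_iff hx0, ha]
        refine ⟨hj0, ?_, hjr, ?_⟩
        · rw [hu]
          exact (isRat_int a).div (isRat_int x)
        · have h3 : (mu⁻¹ ^ j - lam⁻¹ ^ j) * ((y : ℝ) / x - t) = (b - y / x * a) / x := by
            rw [hu]
            clear hu ha
            generalize mu⁻¹ ^ j = cj at hb ⊢
            field_simp
            linear_combination (-(x : ℝ)) * hb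
          rw [h3]
          exact ((isRat_int b).sub (((isRat_int y).div (isRat_int x)).mul (isRat_int a))).div
            (isRat_int x)
    refine ((hS1.union hS2).union hS3).mono ?_
    intro j hj
    have hj' : j ≠ 0 := hj
    by_cases hr : IsRat (mu⁻¹ ^ j)
    · rcases lt_or_gt_of_ne hj' with h2 | h2
      · exact Or.inl (Or.inr ⟨h2, hr⟩)
      · exact Or.inl (Or.inl ⟨h2, hr⟩)
    · exact Or.inr ⟨hj', hr⟩

end Pool.Agent.Lib_helper44
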