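import Mathlib
import Pool.Agent.Lib_helper44.T2
import Pool.Agent.Lib_helper44.Existence2

open MeasureTheory Filter Topology Complex Module FourierTransform
open scoped ENNReal NNReal ComplexConjugate InnerProductSpace

set_option linter.unusedSectionVars false

namespace Pool.Agent.Lib_helper44

theorem wavelet_necessary (A : GL (Fin 2) ℝ) (Γ : Lat 2) [DiscreteTopology Γ] [IsZLattice ℝ Γ]
    (v : Sp 2) (μ : ℝ) (hv : DualEigen A Γ v μ)
    (hμ : |μ| < 1) (hdet : 1 ≤ |(A : Matrix (Fin 2) (Fin 2) ℝ).det|) (h : HasWavelet A Γ) :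
    (∃ m : ℕ, 0 < m ∧ ∃ K : ℤ, μ ^ m * K = 1) ∨
      (∃ w lam, DualEigen A Γ w lam ∧ 1 < |lam| ∧ ∃ m : ℕ, 0 < m ∧ ∃ K : ℤ, lam ^ m = K) := by
  classical
  by_contra hcon
  push Not at hcon
  obtain ⟨hcon1, hcon2⟩ := hcon
  obtain ⟨ψ, hψ⟩ := h
  obtain ⟨hv0, hdual, hB⟩ := hv
  have hB' : glE (glT A) v = μ • v := hB
  obtain ⟨lam, γ, e, hl, hmu, hadet, he, h0, hrest⟩ :=
    adapted_basis (glE (glT A)) Γ v hv0 hdual μ hB'
  have hadet2 : adet (glE (glT A)) = |(A : Matrix (Fin 2) (Fin 2) ℝ).det| := by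
    rw [← (isAdj_glE A).adet_eq, adet_glE]
  have hmupos : 0 < |μ| := abs_pos.mpr hmu
  have hdet' : 1 ≤ |lam * μ| := by rw [← hadet, hadet2]; exact hdet
  have hl1 : 1 < |lam| := by
    rw [abs_mul] at hdet'
    by_contra h
    push Not at h
    have : |lam| * |μ| ≤ 1 * |μ| := mul_le_mul_of_nonneg_right h hmupos.le
    linarith
  have hlm : lam ≠ μ := by
    rintro rfl
    linarith
  obtain ⟨t, h1⟩ := hrest hlm
  have hc : ∀ m : ℕ, 0 < m → ∀ K : ℤ, μ⁻¹ ^ m ≠ K := by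
    intro m hm K hK
    apply hcon1 m hm K
    rw [← hK, ← mul_pow, mul_inv_cancel₀ hmu, one_pow]
  have hlt : IsRat t → ∀ m : ℕ, 0 < m → ∀ K : ℤ, lam ^ m ≠ K := by
    rintro ⟨r, hr⟩ m hm K hK
    obtain ⟨w, hw⟩ : ∃ w : Sp 2, coordT γ w = ![(r.den : ℝ), (r.num : ℝ)] :=
      ⟨(coordT γ).symm _, (coordT γ).apply_symm_apply _⟩
    have hw0 : ⟪γ 0, w⟫_ℝ = r.den := by
      rw [← coordT_apply, hw]
      rfl
    have hw1 : ⟪γ 1, w⟫_ℝ = r.num := by
      rw [← coordT_apply, hw]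
      rfl
    have hden : (r.den : ℝ) ≠ 0 := by exact_mod_cast r.den_ne_zero
    refine hcon2 w lam ⟨?_, ?_, ?_⟩ hl1 m hm K hK
    · rintro rfl
      rw [inner_zero_right] at hw0
      exact hden hw0.symm
    · intro g hg
      obtain ⟨k, hk⟩ := e.surjective ⟨g, hg⟩
      have h2 : g = kv γ k := by rw [← he, hk]
      refine ⟨k 0 * r.den + k 1 * r.num, ?_⟩
      rw [h2]
      unfold kv
      rw [sum_inner, Fin.sum_univ_two]
      simp only [real_inner_smul_left]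
      rw [hw0, hw1]
      push_cast
      ring
    · have h3 : actT A w = glE (glT A) w := by rw [actT_eq]
      rw [h3]
      apply ext_inner_basis γ
      intro i
      rw [real_inner_smul_right]
      fin_cases i
      · exact h0 w
      · change ⟪γ 1, glE (glT A) w⟫_ℝ = lam * ⟪γ 1, w⟫_ℝ
        have h4 := h1 w
        rw [h0, hw0, hw1] at h4
        rw [hw1]
        have h5 : t * r.den = r.num := by
          rw [hr]
          have := Rat.mul_den_eq_num r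
          exact_mod_cast this
        linear_combination h4 + (lam - μ) * h5
  have h5 := calderonAtLeast_of_tail A Γ γ e he ψ hψ (fun φ hφm hφ =>
    tailOK_plane hφm hφ hl1 hmu hμ h0 h1 hc hlt)
  exact (wavelet_not_calderon A Γ v hv0 hdual μ hB hμ hdet ψ hψ).1 _
    (volume_fundamentalDomain_ne_zero γ) h5

theorem hasWavelet_iff (A : GL (Fin 2) ℝ) (Γ : Lat 2) [DiscreteTopology Γ] [IsZLattice ℝ Γ]
    (v : Sp 2) (μ : ℝ) (hv : DualEigen A Γ v μ)
    (hμ : |μ| < 1) (hdet : 1 ≤ |(A : Matrix (Fin 2) (Fin 2) ℝ).det|) :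
    HasWavelet A Γ ↔ (∃ m : ℕ, 0 < m ∧ ∃ K : ℤ, μ ^ m * K = 1) ∨
      (∃ w lam, DualEigen A Γ w lam ∧ 1 < |lam| ∧ ∃ m : ℕ, 0 < m ∧ ∃ K : ℤ, lam ^ m = K) := by
  constructor
  · exact wavelet_necessary A Γ v μ hv hμ hdet
  · rintro (⟨m, hm, K, hK⟩ | ⟨w, lam, ⟨hw, hwdual, hBw⟩, hlam, m, hm, K, hK⟩)
    · exact exists_wavelet_of_integral A Γ v hv.1 hv.2.1 μ hv.2.2 (by linarith) m hm K hK
    · exact exists_wavelet_of_integral_inv A Γ v hv.1 μ hv.2.2 hμ w hw hwdual lam hBw hlam m hm K hK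

end Pool.Agent.Lib_helper44
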