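import Mathlib
import Pool.Agent.Lib_helper44.WaveletDef

open MeasureTheory
open scoped ENNReal InnerProductSpace Matrix

namespace Pool.Agent.Lib_helper44

/-- `v` lies in the subgroup `R(A, Γ)` of the dual lattice `Γ*`: for some positive integers `q, N`
all the vectors `N (Aᵀ)^{-qk} v`, `k = 0, 1, 2, ...`, lie in `Γ*`. -/
def InR {n : ℕ} (A : GL (Fin n) ℝ) (Γ : Lat n) (v : Sp n) : Prop :=
  InDual Γ v ∧ ∃ q N : ℕ, 0 < q ∧ 0 < N ∧ ∀ k : ℕ, InDual Γ ((N : ℝ) • actT (A⁻¹ ^ (q * k)) v)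

/-- `r_k`: the number of `v` in `R(A, Γ)` with `|(Aᵀ)^k v| < 1`. -/
noncomputable def shortCount {n : ℕ} (A : GL (Fin n) ℝ) (Γ : Lat n) (k : ℕ) : ℕ :=
  Set.ncard {v : Sp n | InR A Γ v ∧ ‖actT (A ^ k) v‖ < 1}

/-- `n_k`: the number of cosets `v + R(A, Γ)` with `v` in `Γ*` and `|(Aᵀ)^k v| < 1`. -/
noncomputable def cosetCount {n : ℕ} (A : GL (Fin n) ℝ) (Γ : Lat n) (k : ℕ) : ℕ :=
  Set.ncard ((fun v : Sp n => {w : Sp n | InR A Γ (w - v)}) ''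
    {v : Sp n | InDual Γ v ∧ ‖actT (A ^ k) v‖ < 1})

/-- The series `∑ 1 / n_k` diverges, and the sequence `|det A|^k r_k` is unbounded. -/
def EndCond {n : ℕ} (A : GL (Fin n) ℝ) (Γ : Lat n) : Prop :=
  (¬ Summable fun k : ℕ => (1 : ℝ) / cosetCount A Γ k) ∧
    ∀ C : ℝ, ∃ k : ℕ, C < |(A : Matrix (Fin n) (Fin n) ℝ).det| ^ k * shortCount A Γ k

end Pool.Agent.Lib_helper44
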