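import Mathlib
import Pool.Agent.Lib_helper44.KI
import Pool.Agent.Lib_helper44.NT2
import Pool.Agent.Lib_helper44.Upper

open MeasureTheory Filter Topology Complex Module
open scoped ENNReal NNReal ComplexConjugate InnerProductSpace

set_option linter.unusedSectionVars false

namespace Pool.Agent.Lib_helper44

variable {E : Type*} [NormedAddCommGroup E] [InnerProductSpace ℝ E] [FiniteDimensional ℝ E]
  [MeasurableSpace E] [BorelSpace E]

section Rat

variable {n : ℕ}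

/-- vectors with rational coordinates -/
def VQ (γ : Basis (Fin n) ℝ E) : Set E := {v | ∀ i, IsRat ⟪γ i, v⟫_ℝ}

variable {γ : Basis (Fin n) ℝ E}

theorem dualL_sub_VQ {v : E} (hv : v ∈ dualL γ) : v ∈ VQ γ := by
  intro i
  obtain ⟨q, hq⟩ := mem_dualL.mp hv i
  rw [hq]
  exact isRat_int q

theorem VQ_add {v w : E} (hv : v ∈ VQ γ) (hw : w ∈ VQ γ) : v + w ∈ VQ γ := by
  intro i
  rw [inner_add_right]
  exact (hv i).add (hw i)

theorem VQ_smul {v : E} (hv : v ∈ VQ γ) {c : ℝ} (hc : IsRat c) : c • v ∈ VQ γ := by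
  intro i
  rw [real_inner_smul_right]
  exact hc.mul (hv i)

theorem VQ_neg {v : E} (hv : v ∈ VQ γ) : -v ∈ VQ γ := by
  intro i
  rw [inner_neg_right]
  exact (hv i).neg

theorem VQ_clear {v : E} (hv : v ∈ VQ γ) : ∃ N : ℕ, 0 < N ∧ (N : ℝ) • v ∈ dualL γ := by
  choose q hq using hv
  refine ⟨∏ i, (q i).den, Finset.prod_pos fun i _ => (q i).den_pos, ?_⟩
  intro i
  obtain ⟨c, hc⟩ := Finset.dvd_prod_of_mem (fun i => (q i).den) (Finset.mem_univ i)
  refine ⟨c * (q i).num, ?_⟩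
  rw [real_inner_smul_right, hq, hc]
  have h1 : ((q i : ℚ) : ℝ) * ((q i).den : ℝ) = (q i).num := by
    have := Rat.mul_den_eq_num (q i)
    exact_mod_cast this
  push_cast
  linear_combination (c : ℝ) * h1

end Rat

variable {γ : Basis (Fin 2) ℝ E}

/-- the area form in lattice coordinates -/
noncomputable def Df (γ : Basis (Fin 2) ℝ E) (v w : E) : ℝ :=
  ⟪γ 0, v⟫_ℝ * ⟪γ 1, w⟫_ℝ - ⟪γ 1, v⟫_ℝ * ⟪γ 0, w⟫_ℝ

theorem Df_rat {v w : E} (hv : v ∈ VQ γ) (hw : w ∈ VQ γ) : IsRat (Df γ v w) :=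
  ((hv 0).mul (hw 1)).sub ((hv 1).mul (hw 0))

theorem Df_cramer (v w z : E) : Df γ v w • z = Df γ z w • v + Df γ v z • w := by
  apply ext_inner_basis γ
  intro i
  rw [inner_add_right, real_inner_smul_right, real_inner_smul_right, real_inner_smul_right]
  unfold Df
  fin_cases i
  · change _ * ⟪γ 0, z⟫_ℝ = _ * ⟪γ 0, v⟫_ℝ + _ * ⟪γ 0, w⟫_ℝ
    ring
  · change _ * ⟪γ 1, z⟫_ℝ = _ * ⟪γ 1, v⟫_ℝ + _ * ⟪γ 1, w⟫_ℝ
    ring

theorem Df_self (v : E) : Df γ v v = 0 := by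
  unfold Df
  ring

theorem Df_add_right (v w z : E) : Df γ v (w + z) = Df γ v w + Df γ v z := by
  unfold Df
  rw [inner_add_right, inner_add_right]
  ring

theorem Df_add_left (v w z : E) : Df γ (v + w) z = Df γ v z + Df γ w z := by
  unfold Df
  rw [inner_add_right, inner_add_right]
  ring

theorem Df_smul_right (v w : E) (c : ℝ) : Df γ v (c • w) = c * Df γ v w := by
  unfold Df
  rw [real_inner_smul_right, real_inner_smul_right]
  ring

theorem Df_smul_left (v w : E) (c : ℝ) : Df γ (c • v) w = c * Df γ v w := by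
  unfold Df
  rw [real_inner_smul_right, real_inner_smul_right]
  ring

theorem Df_swap (v w : E) : Df γ w v = -Df γ v w := by
  unfold Df
  ring

theorem eq_smul_of_Df {v w : E} (hv : v ≠ 0) (h : Df γ v w = 0) : ∃ c : ℝ, w = c • v := by
  unfold Df at h
  by_cases h0 : ⟪γ 0, v⟫_ℝ = 0
  · have h1 : ⟪γ 1, v⟫_ℝ ≠ 0 := by
      intro h1
      apply hv
      apply ext_inner_basis γ
      intro i
      rw [inner_zero_right]
      fin_cases i
      · exact h0
      · exact h1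
    refine ⟨⟪γ 1, w⟫_ℝ / ⟪γ 1, v⟫_ℝ, ?_⟩
    apply ext_inner_basis γ
    intro i
    rw [real_inner_smul_right]
    fin_cases i
    · change ⟪γ 0, w⟫_ℝ = _ * ⟪γ 0, v⟫_ℝ
      rw [h0, mul_zero]
      rw [h0, zero_mul, zero_sub, neg_eq_zero] at h
      exact (mul_eq_zero.mp h).resolve_left h1
    · change ⟪γ 1, w⟫_ℝ = _ * ⟪γ 1, v⟫_ℝ
      field_simp
  · refine ⟨⟪γ 0, w⟫_ℝ / ⟪γ 0, v⟫_ℝ, ?_⟩
    apply ext_inner_basis γ
    intro i
    rw [real_inner_smul_right]
    fin_cases i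
    · change ⟪γ 0, w⟫_ℝ = _ * ⟪γ 0, v⟫_ℝ
      field_simp
    · change ⟪γ 1, w⟫_ℝ = _ * ⟪γ 1, v⟫_ℝ
      field_simp
      linarith

/-- the determinant -/
noncomputable def ldet (M : E ≃L[ℝ] E) : ℝ := LinearMap.det (M.toLinearEquiv : E →ₗ[ℝ] E)

theorem abs_ldet (M : E ≃L[ℝ] E) : |ldet M| = adet M := rfl

theorem Df_map (M : E ≃L[ℝ] E) (v w : E) : Df γ (M v) (M w) = ldet M * Df γ v w := by
  let e : Basis (Fin 2) ℝ E := Basis.ofEquivFun (coordT γ).toLinearEquiv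
  have he : ∀ x i, e.repr x i = ⟪γ i, x⟫_ℝ := by
    intro x i
    rw [← coordT_apply]
    rfl
  have h1 : ∀ x y, e.det ![x, y] = Df γ x y := by
    intro x y
    rw [Basis.det_apply, Matrix.det_fin_two]
    simp only [Basis.toMatrix_apply, Matrix.cons_val_zero, Matrix.cons_val_one, he]
    unfold Df
    ring
  rw [← h1, ← h1]
  have h2 : (![M v, M w] : Fin 2 → E) = (M.toLinearEquiv : E →ₗ[ℝ] E) ∘ ![v, w] := by
    ext i
    fin_cases i <;> rfl
  rw [h2, Basis.det_comp]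
  rfl

/-- the quadratic relation -/
theorem quad_rel (C : E ≃L[ℝ] E) {v : E} (hv : Df γ v (C v) ≠ 0) (x : E) :
    C (C x) = (-ldet C) • x + (Df γ v (C (C v)) / Df γ v (C v)) • C x := by
  set d := Df γ v (C v) with hd
  obtain ⟨β, hβ⟩ : ∃ β, β = Df γ v (C (C v)) / d := ⟨_, rfl⟩
  rw [← hβ]
  have hv1 : C (C v) = (-ldet C) • v + β • C v := by
    have h1 := Df_cramer (γ := γ) v (C v) (C (C v))
    have h2 : Df γ (C (C v)) (C v) = -ldet C * d := by
      rw [Df_swap, Df_map, hd]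
      ring
    rw [← hd, h2] at h1
    have h3 := congrArg (fun z => d⁻¹ • z) h1
    simp only [smul_add, smul_smul] at h3
    rw [inv_mul_cancel₀ hv, one_smul] at h3
    refine h3.trans ?_
    congr 2
    · field_simp
    · rw [hβ]
      field_simp
  have h4 := Df_cramer (γ := γ) v (C v) x
  rw [← hd] at h4
  have hx : x = (d⁻¹ * Df γ x (C v)) • v + (d⁻¹ * Df γ v x) • C v := by
    have h3 := congrArg (fun z => d⁻¹ • z) h4
    simp only [smul_add, smul_smul] at h3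
    rwa [inv_mul_cancel₀ hv, one_smul] at h3
  obtain ⟨p, hp⟩ : ∃ p, p = d⁻¹ * Df γ x (C v) := ⟨_, rfl⟩
  obtain ⟨q, hq⟩ : ∃ q, q = d⁻¹ * Df γ v x := ⟨_, rfl⟩
  rw [← hp, ← hq] at hx
  rw [hx]
  simp only [map_add, map_smul, hv1]
  module

end Pool.Agent.Lib_helper44
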