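import Mathlib
import Pool.Agent.Lib_helper44.Wander
import Pool.Agent.Lib_helper44.Dec

open MeasureTheory Filter Topology Complex Module
open scoped ENNReal NNReal ComplexConjugate InnerProductSpace

set_option linter.unusedSectionVars false

namespace Pool.Agent.Lib_helper44

variable {E : Type*} [NormedAddCommGroup E] [InnerProductSpace ℝ E] [FiniteDimensional ℝ E]
  [MeasurableSpace E] [BorelSpace E]

/-- an eigenfunctional off the unit circle -/
theorem exists_eig_of_adet {F : Type*} [NormedAddCommGroup F] [InnerProductSpace ℝ F]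
    [FiniteDimensional ℝ F] (M : F ≃L[ℝ] F) (hM : adet M ≠ 1) :
    ∃ (l : F →ₗ[ℝ] ℂ) (mu : ℂ), l ≠ 0 ∧ ‖mu‖ ≠ 1 ∧ ∀ x, l (M x) = mu * l x := by
  classical
  set b := Module.finBasis ℝ F with hb
  set A : Matrix (Fin (finrank ℝ F)) (Fin (finrank ℝ F)) ℝ :=
    LinearMap.toMatrix b b (M.toLinearEquiv : F →ₗ[ℝ] F) with hA
  set A' : Matrix (Fin (finrank ℝ F)) (Fin (finrank ℝ F)) ℂ := A.map Complex.ofRealHom with hA'
  have hdet : A'.det = ((LinearMap.det (M.toLinearEquiv : F →ₗ[ℝ] F) : ℝ) : ℂ) := by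
    rw [hA', ← RingHom.mapMatrix_apply, ← RingHom.map_det, hA, LinearMap.det_toMatrix]
    rfl
  have hn : ‖A'.det‖ ≠ 1 := by
    rw [hdet, Complex.norm_real]
    exact hM
  have hroot : ∃ mu ∈ A'.charpoly.roots, ‖mu‖ ≠ 1 := by
    by_contra hcon
    push Not at hcon
    apply hn
    rw [Matrix.det_eq_prod_roots_charpoly]
    have key : ∀ s : Multiset ℂ, (∀ z ∈ s, ‖z‖ = 1) → ‖s.prod‖ = 1 := by
      intro s
      induction s using Multiset.induction_on with
      | empty => intro _; simp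
      | cons a s ih =>
        intro h
        rw [Multiset.prod_cons, norm_mul, h a (Multiset.mem_cons_self a s), one_mul]
        exact ih fun z hz => h z (Multiset.mem_cons_of_mem hz)
    exact key _ hcon
  obtain ⟨mu, hmu, hmun⟩ := hroot
  have h1 : A'.charpoly.IsRoot mu := (Polynomial.mem_roots'.mp hmu).2
  have h2 : (Matrix.scalar _ mu - A').det = 0 := by
    rw [← Matrix.eval_charpoly]
    exact h1
  obtain ⟨v, hv0, hv⟩ := Matrix.exists_vecMul_eq_zero_iff.mpr h2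
  have h3 : Matrix.vecMul v A' = mu • v := by
    rw [Matrix.vecMul_sub, sub_eq_zero] at hv
    rw [← hv]
    ext i
    simp [Matrix.scalar, Matrix.vecMul_diagonal, mul_comm]
  let l : F →ₗ[ℝ] ℂ :=
    { toFun := fun x => ∑ i, v i * ((b.repr x i : ℝ) : ℂ)
      map_add' := fun x y => by
        simp only [map_add, Finsupp.add_apply, Complex.ofReal_add, mul_add, Finset.sum_add_distrib]
      map_smul' := fun c x => by
        simp only [map_smul, Finsupp.smul_apply, smul_eq_mul, Complex.ofReal_mul, RingHom.id_apply,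
          Complex.real_smul, Finset.mul_sum]
        apply Finset.sum_congr rfl
        intro i _
        ring }
  have hl : ∀ x, l x = ∑ i, v i * ((b.repr x i : ℝ) : ℂ) := fun x => rfl
  refine ⟨l, mu, ?_, hmun, fun x => ?_⟩
  · intro h0
    apply hv0
    ext i
    have h4 : l (b i) = 0 := by rw [h0]; rfl
    rw [hl, Finset.sum_eq_single i] at h4
    · simpa using h4
    · intro j _ hj
      rw [Basis.repr_self, Finsupp.single_eq_of_ne hj]
      simp
    · intro h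
      exact absurd (Finset.mem_univ i) h
  · have h5 : ∀ i, b.repr (M x) i = ∑ j, A i j * b.repr x j := by
      intro i
      have h6 := LinearMap.toMatrix_mulVec_repr b b (M.toLinearEquiv : F →ₗ[ℝ] F) x
      have h7 := congrFun h6 i
      rw [Matrix.mulVec, dotProduct] at h7
      exact h7.symm
    have h8 : ∀ j, ∑ i, v i * A' i j = mu * v j := by
      intro j
      have := congrFun h3 j
      rw [Matrix.vecMul, dotProduct] at this
      exact this
    rw [hl, hl]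
    simp only [h5]
    push_cast
    simp only [Finset.mul_sum]
    rw [Finset.sum_comm]
    apply Finset.sum_congr rfl
    intro j _
    rw [← mul_assoc, ← h8 j, Finset.sum_mul]
    apply Finset.sum_congr rfl
    intro i _
    simp only [hA', Matrix.map_apply, Complex.ofRealHom_eq_coe]
    ring

theorem TB_pow (B : E ≃L[ℝ] E) (q : ℕ) (l : E →ₗ[ℝ] ℂ) (x : E) :
    ((TB B) ^ q) l x = l ((B ^ (q : ℤ)) x) := by
  induction q generalizing x with
  | zero => simp
  | succ q ih =>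
    have h1 : ((TB B) ^ (q + 1)) l = TB B (((TB B) ^ q) l) := by
      rw [pow_succ']
      rfl
    rw [h1, TB_apply, ih]
    congr 1

theorem eig_root (B : E ≃L[ℝ] E) {q : ℕ} (hq : 0 < q) {l' : E →ₗ[ℝ] ℂ} (hl' : l' ≠ 0) {mu : ℂ}
    (h : ∀ x, l' ((B ^ (q : ℤ)) x) = mu * l' x) (hmu : ‖mu‖ ≠ 1) :
    ∃ (l : E →ₗ[ℝ] ℂ) (nu : ℂ), l ≠ 0 ∧ ‖nu‖ ≠ 1 ∧ ∀ x, l (B x) = nu * l x := by
  have hfin : FiniteDimensional ℂ (E →ₗ[ℝ] ℂ) :=
    Module.Finite.of_restrictScalars_finite ℝ ℂ (E →ₗ[ℝ] ℂ)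
  have h1 : Module.End.HasEigenvector ((TB B) ^ q) mu l' := by
    refine ⟨?_, hl'⟩
    rw [Module.End.mem_eigenspace_iff]
    ext x
    rw [TB_pow, h]
    rfl
  have h2 := Module.End.hasEigenvalue_of_hasEigenvector h1
  rw [Module.End.hasEigenvalue_iff_mem_spectrum, spectrum.map_pow_of_pos _ hq] at h2
  obtain ⟨nu, hnu, hnumu⟩ := h2
  rw [← Module.End.hasEigenvalue_iff_mem_spectrum] at hnu
  obtain ⟨l, hl⟩ := hnu.exists_hasEigenvector
  refine ⟨l, nu, hl.2, ?_, fun x => ?_⟩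
  · intro h3
    apply hmu
    simp only at hnumu
    rw [← hnumu, norm_pow, h3, one_pow]
  · have h3 := hl.1
    rw [Module.End.mem_eigenspace_iff] at h3
    rw [← TB_apply, h3]
    rfl

/-- data for the shells -/
structure ShellD (B : E ≃L[ℝ] E) where
  l : E →ₗ[ℝ] ℂ
  σ : ℝ
  s : ℤ
  hσ : 1 < σ
  hs : s = 1 ∨ s = -1
  hl0 : l ≠ 0
  hl : ∀ x, ‖l (B x)‖ = (σ ^ 2) ^ s * ‖l x‖

theorem exists_shellD {B : E ≃L[ℝ] E} {l : E →ₗ[ℝ] ℂ} {nu : ℂ} (hl : l ≠ 0) (hnu : ‖nu‖ ≠ 1)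
    (h : ∀ x, l (B x) = nu * l x) : Nonempty (ShellD B) := by
  have hnu0 : 0 < ‖nu‖ := norm_pos_iff.mpr (eigen_ne_zero hl h)
  rcases lt_or_gt_of_ne hnu with h1 | h1
  · have h2 : 1 < ‖nu‖⁻¹ := (one_lt_inv₀ hnu0).mpr h1
    refine ⟨⟨l, Real.sqrt ‖nu‖⁻¹, -1, ?_, Or.inr rfl, hl, fun x => ?_⟩⟩
    · rw [Real.lt_sqrt (by norm_num)]
      simpa using h2
    · rw [h, norm_mul, Real.sq_sqrt (by positivity), zpow_neg_one, inv_inv]
  · refine ⟨⟨l, Real.sqrt ‖nu‖, 1, ?_, Or.inl rfl, hl, fun x => ?_⟩⟩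
    · rw [Real.lt_sqrt (by norm_num)]
      simpa using h1
    · rw [h, norm_mul, Real.sq_sqrt (by positivity), zpow_one]

namespace ShellD

variable {B : E ≃L[ℝ] E} (S : ShellD B)

/-- the shell index -/
noncomputable def fl (x : E) : ℤ := ⌊Real.logb (S.σ ^ 2) ‖S.l x‖⌋

theorem one_lt_sq : 1 < S.σ ^ 2 := one_lt_pow₀ S.hσ two_ne_zero

theorem norm_l_zpow (m : ℤ) (x : E) : ‖S.l ((B ^ m) x)‖ = (S.σ ^ 2) ^ (S.s * m) * ‖S.l x‖ := by
  have hpos : 0 < S.σ ^ 2 := by have := S.one_lt_sq; linarith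
  induction m using Int.induction_on generalizing x with
  | zero => simp
  | succ i ih =>
    have h1 : (B ^ ((i : ℤ) + 1)) x = (B ^ (i : ℤ)) (B x) := by
      rw [← zcomp, zpow_one]
    rw [h1, ih, S.hl, ← mul_assoc, ← zpow_add₀ hpos.ne']
    congr 2
    ring
  | pred i ih =>
    have h1 : (B ^ (-(i : ℤ))) x = (B ^ (-(i : ℤ) - 1)) (B x) := by
      have := zcomp B (-(i : ℤ) - 1) 1 x
      rw [zpow_one, sub_add_cancel] at this
      exact this.symm
    obtain ⟨y, rfl⟩ := B.surjective x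
    have h2 : (B ^ (-(i : ℤ) - 1)) (B y) = (B ^ (-(i : ℤ))) y := by
      have := zcomp B (-(i : ℤ) - 1) 1 y
      rw [zpow_one, sub_add_cancel] at this
      exact this
    rw [h2, ih, S.hl, ← mul_assoc, ← zpow_add₀ hpos.ne']
    congr 2
    ring

theorem l_zpow_ne {m : ℤ} {x : E} : S.l ((B ^ m) x) ≠ 0 ↔ S.l x ≠ 0 := by
  have hpos : 0 < S.σ ^ 2 := by have := S.one_lt_sq; linarith
  rw [← norm_ne_zero_iff, S.norm_l_zpow, mul_ne_zero_iff, norm_ne_zero_iff]
  exact ⟨fun h => h.2, fun h => ⟨(zpow_pos hpos _).ne', h⟩⟩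

theorem fl_zpow {x : E} (hx : S.l x ≠ 0) (m : ℤ) : S.fl ((B ^ m) x) = S.fl x + S.s * m := by
  have h1 := S.one_lt_sq
  have hpos : 0 < S.σ ^ 2 := by linarith
  unfold fl
  have h2 : Real.logb (S.σ ^ 2) ((S.σ ^ 2) ^ (S.s * m)) = ((S.s * m : ℤ) : ℝ) := by
    rw [← Real.rpow_intCast, Real.logb_rpow hpos h1.ne']
  rw [S.norm_l_zpow, Real.logb_mul (zpow_pos hpos _).ne' (norm_ne_zero_iff.mpr hx),
    h2, add_comm, Int.floor_add_intCast]

theorem measurable_fl : Measurable S.fl := by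
  unfold fl
  apply Measurable.floor
  have h1 : Measurable fun x : E => ‖S.l x‖ := (measurable_functional S.l).norm
  unfold Real.logb
  exact (Real.measurable_log.comp h1).div_const _

/-- the union of the shells with indices divisible by `q` -/
def Om (q : ℕ) : Set E := {x | S.l x ≠ 0 ∧ (q : ℤ) ∣ S.fl x}

theorem measurableSet_Om (q : ℕ) : MeasurableSet (S.Om q) := by
  apply MeasurableSet.inter
  · exact (measurable_functional S.l (measurableSet_singleton 0)).compl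
  · exact S.measurable_fl (MeasurableSet.of_discrete (s := {z : ℤ | (q : ℤ) ∣ z}))

theorem Om_dvd {q : ℕ} (m : ℤ) {x : E} (hx : x ∈ S.Om q) (hx' : (B ^ m) x ∈ S.Om q) :
    (q : ℤ) ∣ m := by
  have h1 := hx'.2
  rw [S.fl_zpow hx.1, dvd_add_right hx.2] at h1
  rcases S.hs with h | h
  · rwa [h, one_mul] at h1
  · rw [h, neg_one_mul, dvd_neg] at h1
    exact h1

theorem Om_hit (q : ℕ) : ∀ᵐ x : E, ∃ c : ℤ, (B ^ c) x ∈ S.Om q := by
  filter_upwards [ae_functional_ne S.hl0] with x hx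
  refine ⟨-(S.s * S.fl x), S.l_zpow_ne.mpr hx, ?_⟩
  rw [S.fl_zpow hx]
  have h1 : S.s * S.s = 1 := by
    rcases S.hs with h | h
    · rw [h]; norm_num
    · rw [h]; norm_num
  have h2 : S.fl x + S.s * -(S.s * S.fl x) = 0 := by
    have : S.fl x + S.s * -(S.s * S.fl x) = S.fl x - (S.s * S.s) * S.fl x := by ring
    rw [this, h1]
    ring
  rw [h2]
  exact dvd_zero _

theorem Om_inv {q : ℕ} (x : E) : (B ^ (q : ℤ)) x ∈ S.Om q ↔ x ∈ S.Om q := by
  constructor
  · rintro ⟨h1, h2⟩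
    have h3 := S.l_zpow_ne.mp h1
    rw [S.fl_zpow h3] at h2
    refine ⟨h3, ?_⟩
    have h4 : (q : ℤ) ∣ S.s * q := Dvd.intro_left _ rfl
    exact (dvd_add_left h4).mp h2
  · rintro ⟨h1, h2⟩
    refine ⟨S.l_zpow_ne.mpr h1, ?_⟩
    rw [S.fl_zpow h1]
    exact dvd_add h2 (Dvd.intro_left _ rfl)

/-- the centres of the shells -/
noncomputable def ctr (e : E) (k : ℕ) : E := (S.σ ^ (2 * k + 1) / ‖S.l e‖) • e

theorem norm_l_ctr {e : E} (he : S.l e ≠ 0) (k : ℕ) : ‖S.l (S.ctr e k)‖ = S.σ ^ (2 * k + 1) := by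
  have h1 := S.hσ
  have h2 : 0 < ‖S.l e‖ := norm_pos_iff.mpr he
  unfold ctr
  rw [map_smul, norm_smul, Real.norm_of_nonneg (by positivity), div_mul_cancel₀ _ h2.ne']

theorem mem_shell {e : E} (he : S.l e ≠ 0) {k : ℕ} {x : E}
    (hx : ‖S.l (x - S.ctr e k)‖ ≤ S.σ ^ (2 * k) * (S.σ - 1)) : S.l x ≠ 0 ∧ S.fl x = k := by
  have h1 := S.hσ
  have h2 := S.norm_l_ctr he k
  have hp : 0 < S.σ ^ (2 * k) := by positivity
  have h3 : S.σ ^ (2 * k + 1) = S.σ ^ (2 * k) * S.σ := pow_succ _ _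
  rw [map_sub] at hx
  have h4 : S.σ ^ (2 * k) ≤ ‖S.l x‖ := by
    have h5 : ‖S.l (S.ctr e k)‖ ≤ ‖S.l x‖ + ‖S.l x - S.l (S.ctr e k)‖ := by
      have : S.l (S.ctr e k) = S.l x - (S.l x - S.l (S.ctr e k)) := by ring
      conv_lhs => rw [this]
      exact norm_sub_le _ _
    rw [h2, h3] at h5
    nlinarith
  have h6 : ‖S.l x‖ < S.σ ^ (2 * k) * S.σ ^ 2 := by
    have h5 : ‖S.l x‖ ≤ ‖S.l (S.ctr e k)‖ + ‖S.l x - S.l (S.ctr e k)‖ := by
      have : S.l x = S.l (S.ctr e k) + (S.l x - S.l (S.ctr e k)) := by ring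
      conv_lhs => rw [this]
      exact norm_add_le _ _
    rw [h2, h3] at h5
    have h7 : 0 < S.σ ^ (2 * k) * (S.σ - 1) ^ 2 := by
      have : 0 < S.σ - 1 := by linarith
      positivity
    nlinarith
  have hpos : 0 < ‖S.l x‖ := lt_of_lt_of_le hp h4
  refine ⟨norm_pos_iff.mp hpos, ?_⟩
  unfold fl
  rw [Int.floor_eq_iff]
  constructor
  · rw [Real.le_logb_iff_rpow_le S.one_lt_sq hpos]
    push_cast
    rw [Real.rpow_natCast, ← pow_mul]
    exact h4
  · rw [Real.logb_lt_iff_lt_rpow S.one_lt_sq hpos]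
    have h8 : (((k : ℤ) : ℝ) + 1) = ((k + 1 : ℕ) : ℝ) := by push_cast; ring
    rw [h8, Real.rpow_natCast, pow_succ, ← pow_mul]
    exact h6

end ShellD

end Pool.Agent.Lib_helper44
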