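import Mathlib
import Pool.Agent.Lib_helper44.BSW2
import Pool.Agent.Lib_helper44.Stage1

open MeasureTheory Filter Topology Complex Module
open scoped ENNReal NNReal ComplexConjugate InnerProductSpace

set_option linter.unusedSectionVars false

namespace Pool.Agent.Lib_helper44

variable {E : Type*} [NormedAddCommGroup E] [InnerProductSpace ℝ E] [FiniteDimensional ℝ E]
  [MeasurableSpace E] [BorelSpace E] {n : ℕ}

/-- covering radius of the dual lattice -/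
theorem exists_cov_dualL (γ : Basis (Fin n) ℝ E) :
    ∃ ρ : ℝ, 0 ≤ ρ ∧ ∀ x : E, ∃ v ∈ dualL γ, ‖x + v‖ ≤ ρ := by
  have hb : Bornology.IsBounded (Q0 γ) := by
    rw [Q0_eq]
    have h1 : Bornology.IsBounded (cubeN n) := by
      unfold cubeN
      apply Bornology.IsBounded.pi
      intro i
      exact Metric.isBounded_Ico _ _
    have h2 : (coordT γ) ⁻¹' cubeN n = (coordT γ).symm '' cubeN n := by
      ext x
      constructor
      · intro hx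
        exact ⟨coordT γ x, hx, (coordT γ).symm_apply_apply x⟩
      · rintro ⟨y, hy, rfl⟩
        change coordT γ ((coordT γ).symm y) ∈ cubeN n
        rwa [(coordT γ).apply_symm_apply]
    rw [h2]
    obtain ⟨R, hR⟩ := h1.exists_norm_le
    rw [isBounded_iff_forall_norm_le]
    refine ⟨‖((coordT γ).symm : (Fin n → ℝ) →L[ℝ] E)‖ * R, ?_⟩
    rintro _ ⟨y, hy, rfl⟩
    have h3 := ContinuousLinearMap.le_opNorm ((coordT γ).symm : (Fin n → ℝ) →L[ℝ] E) y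
    refine h3.trans ?_
    exact mul_le_mul_of_nonneg_left (hR y hy) (norm_nonneg _)
  obtain ⟨R, hR⟩ := hb.exists_norm_le
  refine ⟨max R 0, le_max_right _ _, fun x => ?_⟩
  obtain ⟨v, hv, hx⟩ := isCover_Q0 γ x
  exact ⟨v, hv, (hR _ hx).trans (le_max_left _ _)⟩

/-- **the tile** -/
theorem exists_T (γ : Basis (Fin n) ℝ E) (B : E ≃L[ℝ] E) {q : ℕ} (hq : 0 < q)
    (h : PosC B (dualL γ) (RQ B (dualL γ) q)) {Ω : Set E} (hΩ : MeasurableSet Ω)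
    (hΩU : ∀ x, ∀ v ∈ UR B (dualL γ) q, x + v ∈ Ω ↔ x ∈ Ω)
    (hΩC : ∀ x, (B ^ (q : ℤ)) x ∈ Ω ↔ x ∈ Ω) {x₀ : E} {ρ : ℝ}
    (hcov : ∀ x : E, ∃ v ∈ dualL γ, ‖x + v‖ ≤ ρ) (hball : ∀ x, ‖x - x₀‖ ≤ ρ → x ∈ Ω) :
    ∃ T : Set E, T ⊆ Ω ∧ MeasurableSet T ∧ (∀ x, ∀ v ∈ UR B (dualL γ) q, x + v ∈ T ↔ x ∈ T) ∧
      (∀ x ∈ T, ∀ y ∈ T, y - x ∈ dualL γ → y - x ∈ RQ B (dualL γ) q) ∧
      (∀ x, ∃ v ∈ dualL γ, x + v ∈ T) ∧
      (∀ᵐ x : E, ∀ᶠ m : ℕ in atTop, ((B ^ (q : ℤ)) ^ (m : ℤ)) x ∉ T) ∧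
      (∀ᵐ x : E, x ∈ Ω → {m : ℕ | ((B ^ (q : ℤ)) ^ (-(m : ℤ))) x ∈ T}.Infinite) ∧
      ∃ F, IsAddFundamentalDomain (DQ B (dualL γ) q) F (volume : Measure E) ∧
        volume (F ∩ T) ≠ ⊤ := by
  classical
  set U := UR B (dualL γ) q with hU
  set C := B ^ (q : ℤ) with hC
  set C' := CW (mem_UR_iff γ B q) with hC'
  have hbs := bsHyp_W γ B hq h
  set ΩW : Set Uᗮ := {w | (w : E) ∈ Ω} with hΩW
  have hΩWm : MeasurableSet ΩW := measurable_subtype_coe hΩ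
  have hmemΩ : ∀ x : E, pW U x ∈ ΩW ↔ x ∈ Ω := by
    intro x
    change ((pW U x : Uᗮ) : E) ∈ Ω ↔ x ∈ Ω
    rw [← hΩU _ _ (pU U x).2, add_comm, pU_add_pW]
  have hΩWC : ∀ w, C' w ∈ ΩW ↔ w ∈ ΩW := by
    intro w
    have h1 : C' w = pW U (C w) := by
      have h2 := CW_pW (mem_UR_iff γ B q) (w : E)
      rw [pW_coe] at h2
      exact h2
    rw [h1, hmemΩ, hΩC]
    exact Iff.rfl
  have hcoc : ∀ w : Uᗮ, ∃ v ∈ LW γ U, w + v ∈ Metric.closedBall (pW U x₀) ρ := by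
    intro w
    obtain ⟨v, hv, hvρ⟩ := hcov ((w : E) - x₀)
    refine ⟨pW U v, ⟨v, hv, rfl⟩, ?_⟩
    rw [mem_closedBall_iff_norm]
    have h1 : w + pW U v - pW U x₀ = pW U ((w : E) - x₀ + v) := by
      rw [map_add, map_sub, pW_coe]
      abel
    rw [h1]
    exact (norm_pW_le U _).trans hvρ
  have hballW : Metric.closedBall (pW U x₀) ρ ⊆ ΩW := by
    intro w hw
    rw [mem_closedBall_iff_norm] at hw
    have h1 : (w : E) + (pU U x₀ : E) ∈ Ω := by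
      apply hball
      have h2 : (w : E) + (pU U x₀ : E) - x₀ = ((w - pW U x₀ : Uᗮ) : E) := by
        rw [Submodule.coe_sub, sub_eq_sub_iff_add_eq_add, add_assoc, pU_add_pW]
      rw [h2]
      exact hw
    exact (hΩU _ _ (pU U x₀).2).mp h1
  obtain ⟨TW, hTWΩ, hTWm, hTWpk, hTWcov, hTWv, hTWrec⟩ := bs_main hbs hΩWm hΩWC hcoc hballW
  refine ⟨(pW U) ⁻¹' TW, ?_, (pW U).continuous.measurable hTWm, ?_, ?_, ?_, ?_, ?_, ?_⟩
  · intro x hx
    exact (hmemΩ x).mp (hTWΩ hx)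
  · intro x v hv
    change pW U (x + v) ∈ TW ↔ pW U x ∈ TW
    rw [map_add, pW_of_mem U hv, add_zero]
  · intro x hx y hy hxy
    have h1 := hTWpk _ hx _ hy ⟨y - x, hxy, map_sub _ _ _⟩
    apply mem_RQ_of_mem_UR hxy
    exact (pW_eq_iff U).mp h1.symm
  · intro x
    obtain ⟨w, ⟨v, hv, rfl⟩, hw⟩ := hTWcov (pW U x)
    refine ⟨v, hv, ?_⟩
    change pW U (x + v) ∈ TW
    rw [map_add]
    exact hw
  · have h1 := ae_pW' U (ae_finite_forward hbs.det hTWm hTWv)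
    filter_upwards [h1] with x hx
    filter_upwards [hx] with m hm
    change pW U ((C ^ (m : ℤ)) x) ∉ TW
    rw [← CW_zpow (mem_UR_iff γ B q)]
    exact hm
  · have h1 := ae_pW' U hTWrec
    filter_upwards [h1] with x hx hxΩ
    have h2 := hx ((hmemΩ x).mpr hxΩ)
    refine h2.mono (fun m hm => ?_)
    change pW U ((C ^ (-(m : ℤ))) x) ∈ TW
    rw [← CW_zpow (mem_UR_iff γ B q)]
    exact hm
  · obtain ⟨ρD, -, hcovD⟩ := exists_cov_DQ γ B q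
    obtain ⟨δ, hδ, hsep⟩ := dualL_discrete γ
    have hDL : ∀ v ∈ DQ B (dualL γ) q, v ∈ dualL γ := fun v hv => (DQ_le hv).1
    obtain ⟨F, -, hFD, c, -, hc⟩ := exists_fdU (U := U) ((countable_dualL γ).mono hDL)
      (fun v hv => RQ_le_UR (DQ_le hv)) hδ (fun v hv hv0 => hsep v (hDL v hv) hv0) hcovD
    refine ⟨F, hFD, ?_⟩
    rw [hc TW hTWm]
    exact ENNReal.mul_ne_top ENNReal.coe_ne_top hTWv

end Pool.Agent.Lib_helper44
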