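import Mathlib
import Pool.Agent.Lib_helper44.Asm2
import Pool.Agent.Lib_helper44.TEx
import Pool.Agent.Lib_helper44.Shell

open MeasureTheory Filter Topology Complex Module
open scoped ENNReal NNReal ComplexConjugate InnerProductSpace

set_option linter.unusedSectionVars false

namespace Pool.Agent.Lib_helper44

variable {E : Type*} [NormedAddCommGroup E] [InnerProductSpace ℝ E] [FiniteDimensional ℝ E]
  [MeasurableSpace E] [BorelSpace E] {n : ℕ}

theorem wavelet_of_rooms (γ : Basis (Fin n) ℝ E) (B : E ≃L[ℝ] E) {q : ℕ} (hq : 0 < q)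
    (S : ShellD B) {T : Set E} (hTm : MeasurableSet T)
    (hTU : ∀ x, ∀ v ∈ UR B (dualL γ) q, x + v ∈ T ↔ x ∈ T)
    (hTpk : ∀ x ∈ T, ∀ y ∈ T, y - x ∈ dualL γ → y - x ∈ RQ B (dualL γ) q)
    (hTcov : ∀ x, ∃ v ∈ dualL γ, x + v ∈ T)
    (hfwd : ∀ᵐ x : E, ∀ᶠ m : ℕ in atTop, ((B ^ (q : ℤ)) ^ (m : ℤ)) x ∉ T)
    (hrec : ∀ᵐ x : E, x ∈ S.Om q → {m : ℕ | ((B ^ (q : ℤ)) ^ (-(m : ℤ))) x ∈ T}.Infinite)
    (hFD : ∃ F, IsAddFundamentalDomain (DQ B (dualL γ) q) F (volume : Measure E) ∧
      volume (F ∩ T) ≠ ⊤) {Rm : ℕ → Set E} (hRm : ∀ k, MeasurableSet (Rm k))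
    (hRd : ∀ i j x, x ∈ Rm i → x ∈ Rm j → i = j)
    (hRT : ∀ k, ∀ x ∈ Rm k, x ∈ T → x ∈ S.Om q)
    (hRc : ∀ k, ∀ x ∈ T, ∃ v ∈ DQ B (dualL γ) q, x + v ∈ Rm k) :
    ∃ φ : E → ℂ, Measurable φ ∧ IsONB (volume : Measure E) (fam γ B φ) := by
  obtain ⟨κ, rep, hrepm, hrep⟩ := exists_reps γ B q
  let P : Asm γ B (B ^ (q : ℤ)) q :=
    { R := RQ B (dualL γ) q
      D := DQ B (dualL γ) q
      U := (UR B (dualL γ) q).toAddSubgroup
      κ := κ
      rep := rep
      T := T
      Om := S.Om q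
      Rm := Rm
      hq := hq
      hCB := rfl
      hRL := inf_le_left
      hDR := DQ_le
      hRU := fun v hv => RQ_le_UR hv
      hDC := fun v hv => DQ_step hv
      hUC := mem_UR_iff γ B q
      hrepm := hrepm
      hrep := hrep
      hTm := hTm
      hTU := hTU
      hTpk := hTpk
      hTcov := hTcov
      hOm := S.measurableSet_Om q
      hO1 := fun m x hx hx' => S.Om_dvd m hx hx'
      hO2 := S.Om_hit q
      hOC := S.Om_inv
      hfwd := hfwd
      hrec := hrec
      hFD := hFD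
      hRm := hRm
      hRd := hRd
      hRT := hRT
      hRc := hRc }
  exact P.exists_wavelet

theorem exists_shell_of_PosC (γ : Basis (Fin n) ℝ E) (B : E ≃L[ℝ] E) {q : ℕ} (hq : 0 < q)
    (h : PosC B (dualL γ) (RQ B (dualL γ) q)) : Nonempty (ShellD B) := by
  have hdet := one_lt_adet_CW γ B hq h.2
  obtain ⟨l0, mu, hl0, hmu, hl⟩ := exists_eig_of_adet _ hdet.ne'
  let l' : E →ₗ[ℝ] ℂ := l0 ∘ₗ (pW (UR B (dualL γ) q)).toLinearMap
  have hl'0 : l' ≠ 0 := by
    intro h0
    apply hl0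
    ext w
    have h1 : l' (w : E) = 0 := by rw [h0]; rfl
    change l0 (pW (UR B (dualL γ) q) (w : E)) = 0 at h1
    rw [pW_coe] at h1
    rw [h1]
    rfl
  obtain ⟨l, nu, hl1, hl2, hl3⟩ := eig_root B hq hl'0 (mu := mu) (fun x => by
    change l0 (pW (UR B (dualL γ) q) ((B ^ (q : ℤ)) x)) = mu * l0 (pW (UR B (dualL γ) q) x)
    rw [← CW_pW (mem_UR_iff γ B q), hl]) hmu
  exact exists_shellD hl1 hl2 hl3

theorem pU_add_mem {U : Submodule ℝ E} (x : E) {v : E} (hv : v ∈ U) :
    ((pU U (x + v) : U) : E) = (pU U x : E) + v := by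
  rw [map_add]
  have h1 : ((pU U v : U) : E) = v := congrArg Subtype.val (pU_coe U ⟨v, hv⟩)
  change ((pU U x : U) : E) + ((pU U v : U) : E) = _
  rw [h1]

theorem exists_bound_l (l : E →ₗ[ℝ] ℂ) : ∃ L : ℝ, 0 < L ∧ ∀ x, ‖l x‖ ≤ L * ‖x‖ := by
  refine ⟨‖LinearMap.toContinuousLinearMap l‖ + 1, by positivity, fun x => ?_⟩
  have h1 := ContinuousLinearMap.le_opNorm (LinearMap.toContinuousLinearMap l) x
  have h2 : (LinearMap.toContinuousLinearMap l) x = l x := rfl
  rw [h2] at h1
  refine h1.trans ?_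
  gcongr
  linarith

/-- growth of the shells -/
theorem ShellD.growth {B : E ≃L[ℝ] E} (S : ShellD B) {q : ℕ} (hq : 0 < q) (i : ℕ) :
    i * (S.σ - 1) ^ 2 ≤ S.σ ^ (2 * (q * i)) * (S.σ - 1) := by
  have h1 := S.hσ
  have h2 : (1 : ℝ) + i * (S.σ - 1) ≤ S.σ ^ i := by
    have := one_add_mul_le_pow (a := S.σ - 1) (by linarith) i
    simpa using this
  have h3 : S.σ ^ i ≤ S.σ ^ (2 * (q * i)) := by
    apply pow_le_pow_right₀ h1.le
    nlinarith
  have h4 : (i : ℝ) * (S.σ - 1) ≤ S.σ ^ (2 * (q * i)) := by linarith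
  have h5 : 0 < S.σ - 1 := by linarith
  nlinarith

theorem exists_wavelet_NZ (γ : Basis (Fin n) ℝ E) (B : E ≃L[ℝ] E) {q : ℕ} (hq : 0 < q)
    (h : PosC B (dualL γ) (RQ B (dualL γ) q)) (hU0 : UR B (dualL γ) q ≠ ⊥) :
    ∃ φ : E → ℂ, Measurable φ ∧ IsONB (volume : Measure E) (fam γ B φ) := by
  classical
  obtain ⟨S⟩ := exists_shell_of_PosC γ B hq h
  obtain ⟨ρL, hρL, hcovL⟩ := exists_cov_dualL γ
  obtain ⟨ρD, hρD, hcovD⟩ := exists_cov_DQ γ B q
  obtain ⟨L, hL, hlL⟩ := exists_bound_l S.l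
  have hσ := S.hσ
  have hσ1 : 0 < S.σ - 1 := by linarith
  have hσ2 : 0 < (S.σ - 1) ^ 2 := by positivity
  set U := UR B (dualL γ) q with hU
  have hbig : ∀ a : ℝ, ∀ i : ℕ, a / (S.σ - 1) ^ 2 ≤ i → a ≤ S.σ ^ (2 * (q * i)) * (S.σ - 1) := by
    intro a i hi
    rw [div_le_iff₀ hσ2] at hi
    exact hi.trans (S.growth hq i)
  by_cases hcase : ∀ u ∈ U, S.l u = 0
  · -- the functional vanishes on `U`
    obtain ⟨e, he⟩ : ∃ e, S.l e ≠ 0 := by
      by_contra hcon
      push Not at hcon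
      exact S.hl0 (LinearMap.ext hcon)
    set i₀ := ⌈L * ρL / (S.σ - 1) ^ 2⌉₊ with hi₀
    obtain ⟨T, hTΩ, hTm, hTU, hTpk, hTcov, hfwd, hrec, hFD⟩ := exists_T γ B hq h
      (S.measurableSet_Om q) (by
        intro x v hv
        have h1 : S.l (x + v) = S.l x := by rw [map_add, hcase v hv, add_zero]
        unfold ShellD.Om ShellD.fl
        simp only [Set.mem_ofPred_eq]
        rw [h1]) S.Om_inv (x₀ := S.ctr e (q * i₀)) (ρ := ρL) hcovL (by
        intro x hx
        have h1 : ‖S.l (x - S.ctr e (q * i₀))‖ ≤ S.σ ^ (2 * (q * i₀)) * (S.σ - 1) := by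
          refine (hlL _).trans ?_
          refine le_trans (mul_le_mul_of_nonneg_left hx hL.le) ?_
          exact hbig _ i₀ (Nat.le_ceil _)
        obtain ⟨h2, h3⟩ := S.mem_shell he h1
        refine ⟨h2, ?_⟩
        rw [h3]
        push_cast
        exact Dvd.intro _ rfl)
    obtain ⟨e', he'U, he'0⟩ := Submodule.exists_mem_ne_zero_of_ne_bot hU0
    have he'n : 0 < ‖e'‖ := norm_pos_iff.mpr he'0
    set c : ℕ → E := fun k => ((k : ℝ) * (2 * ρD + 1) / ‖e'‖) • e' with hc
    have hcU : ∀ k, c k ∈ U := fun k => U.smul_mem _ he'U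
    refine wavelet_of_rooms γ B hq S hTm hTU hTpk hTcov hfwd hrec hFD
      (Rm := fun k => {x | ‖(pU U x : E) - c k‖ ≤ ρD}) ?_ ?_ (fun k x _ hx => hTΩ hx) ?_
    · intro k
      have : Continuous (fun x : E => ‖(pU U x : E) - c k‖) :=
        ((continuous_subtype_val.comp (pU U).continuous).sub continuous_const).norm
      exact measurableSet_le this.measurable measurable_const
    · intro i j x hi hj
      by_contra hij
      have h1 : ‖c i - c j‖ ≤ 2 * ρD := by
        have h2 : c i - c j = ((pU U x : E) - c j) - ((pU U x : E) - c i) := by abel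
        rw [h2]
        refine (norm_sub_le _ _).trans ?_
        have hi' : ‖(pU U x : E) - c i‖ ≤ ρD := hi
        have hj' : ‖(pU U x : E) - c j‖ ≤ ρD := hj
        linarith
      have h3 : c i - c j = (((i : ℝ) - j) * (2 * ρD + 1) / ‖e'‖) • e' := by
        simp only [hc]
        rw [← sub_smul]
        congr 1
        ring
      rw [h3, norm_smul, Real.norm_eq_abs, abs_div, abs_mul, abs_of_pos he'n,
        abs_of_pos (by linarith : 0 < 2 * ρD + 1), div_mul_cancel₀ _ he'n.ne'] at h1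
      have h4 : (1 : ℝ) ≤ |(i : ℝ) - j| := by
        have h5 : ((i : ℤ) - j) ≠ 0 := by omega
        have h6 : (1 : ℤ) ≤ |(i : ℤ) - j| := Int.one_le_abs h5
        exact_mod_cast h6
      nlinarith
    · intro k x hx
      obtain ⟨v, hv, hvn⟩ := hcovD ((pU U x : E) - c k) (U.sub_mem (pU U x).2 (hcU k))
      refine ⟨v, hv, ?_⟩
      change ‖((pU U (x + v) : U) : E) - c k‖ ≤ ρD
      rw [pU_add_mem x (RQ_le_UR (DQ_le hv))]
      have h1 : (pU U x : E) + v - c k = (pU U x : E) - c k + v := by abel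
      rw [h1]
      exact hvn
  · -- the functional does not vanish on `U`
    push Not at hcase
    obtain ⟨e, heU, he⟩ := hcase
    obtain ⟨T, hTΩ, hTm, hTU, hTpk, hTcov, hfwd, hrec, hFD⟩ := exists_T γ B hq h
      MeasurableSet.univ (fun _ _ _ => Iff.rfl) (fun _ => Iff.rfl) (x₀ := 0) (ρ := ρL) hcovL
      (fun _ _ => trivial)
    set I : E → ℕ := fun x => ⌈L * (‖pW U x‖ + 2 * ρD + 1) / (S.σ - 1) ^ 2⌉₊ with hI
    have hIm : Measurable I := by
      apply Measurable.nat_ceil
      apply Measurable.div_const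
      apply Measurable.const_mul
      exact ((pW U).continuous.norm.measurable.add_const _).add_const _
    have hIinv : ∀ x, ∀ v ∈ U, I (x + v) = I x := by
      intro x v hv
      simp only [hI]
      rw [map_add, pW_of_mem U hv, add_zero]
    have hIb : ∀ x k, L * (‖pW U x‖ + 2 * ρD + 1) ≤
        S.σ ^ (2 * (q * (I x + k))) * (S.σ - 1) := by
      intro x k
      apply hbig
      refine (Nat.le_ceil _).trans ?_
      push_cast
      have : (0 : ℝ) ≤ k := Nat.cast_nonneg k
      simp only [hI]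
      linarith
    have hctrU : ∀ k, S.ctr e k ∈ U := fun k => U.smul_mem _ heU
    refine wavelet_of_rooms γ B hq S hTm hTU hTpk hTcov hfwd
      (by filter_upwards [hrec] with x hx _ using hx trivial) hFD
      (Rm := fun k => {x | ‖(pU U x : E) - S.ctr e (q * (I x + k))‖ ≤ ρD}) ?_ ?_ ?_ ?_
    · intro k
      have h1 : Measurable (fun x : E => S.ctr e (q * (I x + k))) :=
        (measurable_from_top (f := fun i : ℕ => S.ctr e (q * (i + k)))).comp hIm
      have h2 : Measurable (fun x : E => ((pU U x : U) : E)) :=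
        (continuous_subtype_val.comp (pU U).continuous).measurable
      exact measurableSet_le (h2.sub h1).norm measurable_const
    · intro i j x hi hj
      by_contra hij
      wlog hlt : i < j generalizing i j
      · exact this j i hj hi (fun h => hij h.symm) (by omega)
      set a := S.ctr e (q * (I x + i)) with ha
      set b := S.ctr e (q * (I x + j)) with hb
      have h1 : ‖b - a‖ ≤ 2 * ρD := by
        have h2 : b - a = ((pU U x : E) - a) - ((pU U x : E) - b) := by abel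
        rw [h2]
        refine (norm_sub_le _ _).trans ?_
        have hi' : ‖(pU U x : E) - a‖ ≤ ρD := hi
        have hj' : ‖(pU U x : E) - b‖ ≤ ρD := hj
        linarith
      have h3 : ‖S.l b‖ ≤ ‖S.l a‖ + L * (2 * ρD) := by
        have h4 : S.l b = S.l a + S.l (b - a) := by rw [map_sub]; ring
        rw [h4]
        refine (norm_add_le _ _).trans ?_
        have := (hlL (b - a)).trans (mul_le_mul_of_nonneg_left h1 hL.le)
        linarith
      rw [S.norm_l_ctr he, S.norm_l_ctr he] at h3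
      have h5 := hIb x i
      set p := S.σ ^ (2 * (q * (I x + i))) with hp
      have hp1 : 1 ≤ p := one_le_pow₀ hσ.le
      have h6 : p * S.σ ^ 3 ≤ S.σ ^ (2 * (q * (I x + j)) + 1) := by
        rw [hp, ← pow_add]
        apply pow_le_pow_right₀ hσ.le
        have h7 : q * (I x + i) + 1 ≤ q * (I x + j) := by
          have : q * (I x + i) + q ≤ q * (I x + j) := by
            rw [← Nat.mul_succ]
            exact Nat.mul_le_mul_left q (by omega)
          omega
        omega
      have h8 : S.σ ^ (2 * (q * (I x + i)) + 1) = p * S.σ := pow_succ _ _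
      rw [h8] at h3
      have h9 : 0 ≤ ‖pW U x‖ := norm_nonneg _
      have h10 : p * (S.σ - 1) ≤ p * S.σ ^ 3 - p * S.σ := by
        have h11 : S.σ - 1 ≤ S.σ ^ 3 - S.σ := by
          have h12 : S.σ ^ 3 - S.σ - (S.σ - 1) = (S.σ - 1) * (S.σ ^ 2 + S.σ - 1) := by ring
          have h13 : 0 ≤ (S.σ - 1) * (S.σ ^ 2 + S.σ - 1) := by
            apply mul_nonneg hσ1.le
            nlinarith
          linarith
        nlinarith
      nlinarith
    · intro k x hx _
      have hx' : ‖(pU U x : E) - S.ctr e (q * (I x + k))‖ ≤ ρD := hx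
      have h1 : ‖S.l (x - S.ctr e (q * (I x + k)))‖ ≤
          S.σ ^ (2 * (q * (I x + k))) * (S.σ - 1) := by
        refine (hlL _).trans ?_
        refine le_trans (mul_le_mul_of_nonneg_left ?_ hL.le) (hIb x k)
        have h2 : x - S.ctr e (q * (I x + k))
            = ((pU U x : E) - S.ctr e (q * (I x + k))) + (pW U x : E) := by
          rw [sub_add_eq_add_sub, pU_add_pW]
        rw [h2]
        refine (norm_add_le _ _).trans ?_
        have h3 : ‖((pW U x : Uᗮ) : E)‖ = ‖pW U x‖ := rfl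
        rw [h3]
        linarith
      obtain ⟨h2, h3⟩ := S.mem_shell he h1
      refine ⟨h2, ?_⟩
      rw [h3]
      push_cast
      exact Dvd.intro _ rfl
    · intro k x _
      obtain ⟨v, hv, hvn⟩ := hcovD ((pU U x : E) - S.ctr e (q * (I x + k)))
        (U.sub_mem (pU U x).2 (hctrU _))
      refine ⟨v, hv, ?_⟩
      change ‖((pU U (x + v) : U) : E) - S.ctr e (q * (I (x + v) + k))‖ ≤ ρD
      rw [hIinv x v (RQ_le_UR (DQ_le hv)), pU_add_mem x (RQ_le_UR (DQ_le hv))]
      have h1 : (pU U x : E) + v - S.ctr e (q * (I x + k))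
          = (pU U x : E) - S.ctr e (q * (I x + k)) + v := by abel
      rw [h1]
      exact hvn

end Pool.Agent.Lib_helper44
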