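import Mathlib
import Pool.Agent.Lib_helper44.ExistNZ

open MeasureTheory Filter Topology Complex Module
open scoped ENNReal NNReal ComplexConjugate InnerProductSpace

set_option linter.unusedSectionVars false

namespace Pool.Agent.Lib_helper44

variable {E : Type*} [NormedAddCommGroup E] [InnerProductSpace ℝ E] [FiniteDimensional ℝ E]
  [MeasurableSpace E] [BorelSpace E] {n : ℕ}

/-- saturation under the dilations -/
def satB (B : E ≃L[ℝ] E) (S : Set E) : Set E := {x | ∃ i : ℤ, (B ^ i) x ∈ S}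

theorem measurableSet_satB (B : E ≃L[ℝ] E) {S : Set E} (hS : MeasurableSet S) :
    MeasurableSet (satB B S) := by
  have : satB B S = ⋃ i : ℤ, (B ^ i) ⁻¹' S := by
    ext x
    simp [satB]
  rw [this]
  exact MeasurableSet.iUnion fun i => (B ^ i).continuous.measurable hS

/-- the Cantor-Bernstein construction of wavelet sets -/
theorem exists_waveletSet (B : E ≃L[ℝ] E) {L : AddSubgroup E} (hLc : (L : Set E).Countable)
    {W₁ W₂ : Set E} (h1m : MeasurableSet W₁) (h2m : MeasurableSet W₂)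
    (h1p : ∀ x ∈ W₁, ∀ y ∈ W₁, y - x ∈ L → x = y)
    (h1B : ∀ (m : ℤ) x, x ∈ W₁ → (B ^ m) x ∈ W₁ → m = 0)
    (h1c : ∀ᵐ x : E, ∃ i : ℤ, (B ^ i) x ∈ W₁)
    (h2p : ∀ x ∈ W₂, ∀ y ∈ W₂, y - x ∈ L → x = y)
    (h2B : ∀ (m : ℤ) x, x ∈ W₂ → (B ^ m) x ∈ W₂ → m = 0)
    (h2c : ∀ x, ∃ v ∈ L, x + v ∈ W₂) :
    ∃ W : Set E, MeasurableSet W ∧ (∀ x ∈ W, ∀ y ∈ W, y - x ∈ L → x = y) ∧
      (∀ x, ∃ v ∈ L, x + v ∈ W) ∧ (∀ (m : ℤ) x, x ∈ W → (B ^ m) x ∈ W → m = 0) ∧
      ∀ᵐ x : E, ∃ i : ℤ, (B ^ i) x ∈ W := by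
  classical
  set Φ : Set E → Set E := fun A => W₁ \ satB B (W₂ \ sat L A) with hΦ
  set A' : ℕ → Set E := fun k => Φ^[k] ∅ with hA'
  have hA'0 : A' 0 = ∅ := rfl
  have hA's : ∀ k, A' (k + 1) = Φ (A' k) := fun k => Function.iterate_succ_apply' Φ k ∅
  have hΦm : ∀ A, MeasurableSet A → MeasurableSet (Φ A) := fun A hA =>
    h1m.diff (measurableSet_satB B (h2m.diff (measurableSet_sat hLc hA)))
  have hA'm : ∀ k, MeasurableSet (A' k) := by
    intro k
    induction k with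
    | zero => exact MeasurableSet.empty
    | succ k ih => rw [hA's]; exact hΦm _ ih
  have hΦmono : ∀ A A₂, A ⊆ A₂ → Φ A ⊆ Φ A₂ := by
    intro A A₂ hAA x hx
    refine ⟨hx.1, fun hx2 => hx.2 ?_⟩
    obtain ⟨i, hi1, hi2⟩ := hx2
    exact ⟨i, hi1, fun h => hi2 (sat_mono hAA h)⟩
  have hmono : ∀ k, A' k ⊆ A' (k + 1) := by
    intro k
    induction k with
    | zero => rw [hA'0]; exact Set.empty_subset _
    | succ k ih => rw [hA's k, hA's (k + 1)]; exact hΦmono _ _ ih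
  have hmono' : Monotone A' := monotone_nat_of_le_succ hmono
  set A : Set E := ⋃ k, A' k with hA
  have hAm : MeasurableSet A := MeasurableSet.iUnion hA'm
  have hfix : A = Φ A := by
    apply Set.Subset.antisymm
    · intro x hx
      obtain ⟨k, hk⟩ := Set.mem_iUnion.mp hx
      have h1 : x ∈ A' (k + 1) := hmono k hk
      rw [hA's] at h1
      exact hΦmono _ _ (Set.subset_iUnion A' k) h1
    · intro x hx
      -- the index is unique
      have key : ∃ k, x ∉ satB B (W₂ \ sat L (A' k)) := by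
        by_contra hcon
        push Not at hcon
        apply hx.2
        obtain ⟨i, hi1, -⟩ := hcon 0
        refine ⟨i, hi1, fun h => ?_⟩
        obtain ⟨v, hv, hvA⟩ := h
        obtain ⟨k, hk⟩ := Set.mem_iUnion.mp hvA
        obtain ⟨i', hi'1, hi'2⟩ := hcon k
        have h3 : i' - i = 0 := by
          apply h2B (i' - i) ((B ^ i) x) hi1
          rw [zcomp, sub_add_cancel]
          exact hi'1
        have h4 : i' = i := by omega
        rw [h4] at hi'2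
        exact hi'2 ⟨v, hv, hk⟩
      obtain ⟨k, hk⟩ := key
      apply Set.mem_iUnion.mpr
      refine ⟨k + 1, ?_⟩
      rw [hA's]
      exact ⟨hx.1, hk⟩
  set Y : Set E := W₂ \ sat L A with hY
  have hYm : MeasurableSet Y := h2m.diff (measurableSet_sat hLc hAm)
  have hAW1 : A ⊆ W₁ := by
    rw [hfix]
    exact fun x hx => hx.1
  have hAY : ∀ x ∈ A, x ∉ satB B Y := by
    intro x hx
    rw [hfix] at hx
    exact hx.2
  refine ⟨A ∪ Y, hAm.union hYm, ?_, ?_, ?_, ?_⟩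
  · rintro x (hx | hx) y (hy | hy) hxy
    · exact h1p x (hAW1 hx) y (hAW1 hy) hxy
    · exfalso
      apply hy.2
      refine ⟨x - y, ?_, ?_⟩
      · rw [← neg_sub]
        exact L.neg_mem hxy
      · rwa [add_sub_cancel]
    · exfalso
      apply hx.2
      exact ⟨y - x, hxy, by rwa [add_sub_cancel]⟩
    · exact h2p x hx.1 y hy.1 hxy
  · intro x
    obtain ⟨v, hv, hvW⟩ := h2c x
    by_cases hs : x + v ∈ sat L A
    · obtain ⟨v', hv', h⟩ := hs
      exact ⟨v + v', L.add_mem hv hv', Or.inl (by rwa [← add_assoc])⟩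
    · exact ⟨v, hv, Or.inr ⟨hvW, hs⟩⟩
  · rintro m x (hx | hx) (hy | hy)
    · exact h1B m x (hAW1 hx) (hAW1 hy)
    · exact absurd ⟨m, hy⟩ (hAY x hx)
    · exfalso
      apply hAY _ hy
      refine ⟨-m, ?_⟩
      rw [zcancel']
      exact hx
    · exact h2B m x hx.1 hy.1
  · filter_upwards [h1c] with x ⟨i, hi⟩
    by_cases hA2 : (B ^ i) x ∈ A
    · exact ⟨i, Or.inl hA2⟩
    · have h3 : (B ^ i) x ∈ satB B Y := by
        by_contra h
        apply hA2
        rw [hfix]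
        exact ⟨hi, h⟩
      obtain ⟨i', hi'⟩ := h3
      rw [zcomp] at hi'
      exact ⟨i' + i, Or.inr hi'⟩

/-- wavelets from wavelet sets -/
theorem isONB_of_waveletSet (γ : Basis (Fin n) ℝ E) (B : E ≃L[ℝ] E) {W : Set E}
    (hWm : MeasurableSet W) (hWp : ∀ x ∈ W, ∀ y ∈ W, y - x ∈ dualL γ → x = y)
    (hWc : ∀ x, ∃ v ∈ dualL γ, x + v ∈ W) (hWB : ∀ (m : ℤ) x, x ∈ W → (B ^ m) x ∈ W → m = 0)
    (hWBc : ∀ᵐ x : E, ∃ i : ℤ, (B ^ i) x ∈ W) :
    ∃ φ : E → ℂ, Measurable φ ∧ IsONB (volume : Measure E) (fam γ B φ) := by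
  classical
  obtain ⟨-, hv0, hvt⟩ := map_coordT γ
  set c₀ : ℝ := Real.sqrt ((volume (Q0 γ)).toReal)⁻¹ with hc₀
  have hVpos : 0 < (volume (Q0 γ)).toReal := ENNReal.toReal_pos hv0 hvt
  have hc₀pos : 0 < c₀ := Real.sqrt_pos.mpr (inv_pos.mpr hVpos)
  have hc₀ne : (c₀ : ℂ) ≠ 0 := by exact_mod_cast hc₀pos.ne'
  have hc₀sq : ‖(c₀ : ℂ)‖ₑ ^ 2 = (volume (Q0 γ))⁻¹ := by
    rw [enorm_sq_eq, Complex.norm_real, Real.norm_of_nonneg hc₀pos.le, hc₀,
      Real.sq_sqrt (inv_nonneg.mpr hVpos.le), ENNReal.ofReal_inv_of_pos hVpos,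
      ENNReal.ofReal_toReal hvt]
  set φ : E → ℂ := W.indicator (fun _ => (c₀ : ℂ)) with hφ
  have hφm : Measurable φ := measurable_const.indicator hWm
  have hφ1 : ∀ x ∈ W, φ x = (c₀ : ℂ) := fun x hx => Set.indicator_of_mem hx _
  have hφ2 : ∀ x, x ∉ W → φ x = 0 := fun x hx => Set.indicator_of_notMem hx _
  have hper : ∀ x, on2 (dualL γ) φ x = (volume (Q0 γ))⁻¹ := by
    intro x
    obtain ⟨v, hv, hvW⟩ := hWc x
    unfold on2
    rw [tsum_eq_single (⟨v, hv⟩ : dualL γ)]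
    · rw [hφ1 _ hvW, hc₀sq]
    · rintro ⟨w, hw⟩ hne
      have h1 : x + w ∉ W := by
        intro h
        apply hne
        have h2 := hWp _ h _ hvW (by
          have : x + v - (x + w) = v - w := by abel
          rw [this]
          exact (dualL γ).sub_mem hv hw)
        exact Subtype.ext (add_left_cancel h2)
      change ‖φ (x + w)‖ₑ ^ 2 = 0
      rw [hφ2 _ h1]
      simp
  have hφL : MemLp φ 2 (volume : Measure E) := by
    apply memLp_two_of_lintegral hφm.aestronglyMeasurable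
    rw [esq_unfold (countable_dualL γ)
      (isFD (measurableSet_Q0 γ) (isPack_Q0 γ) (isCover_Q0 γ)) hφm]
    simp only [hper]
    rw [setLIntegral_const, ENNReal.inv_mul_cancel hv0 hvt]
    exact ENNReal.one_lt_top
  refine ⟨φ, hφm, isONB_fam_of hφm (Eventually.of_forall hper) ?_ ?_⟩
  · intro m hm k k'
    have h1 : ∀ x, conj (ee (-⟪kv γ k, x⟫_ℝ) * φ x) *
        (ee (-⟪kv γ k', (B ^ (-(m : ℤ))) x⟫_ℝ) * φ ((B ^ (-(m : ℤ))) x)) = 0 := by
      intro x
      by_cases h2 : x ∈ W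
      · by_cases h3 : (B ^ (-(m : ℤ))) x ∈ W
        · have := hWB _ x h2 h3
          omega
        · rw [hφ2 _ h3, mul_zero, mul_zero]
      · rw [hφ2 _ h2, mul_zero, map_zero, zero_mul]
    simp only [h1, integral_zero]
  · intro f hf horth
    have h0 : ∀ j : ℤ, (fun x => conj (φ x) * f ((B ^ j) x)) =ᵐ[volume] 0 := by
      intro j
      have hint : Integrable (fun x => conj (φ x) * f ((B ^ j) x)) (volume : Measure E) :=
        integrable_conj_mul hφL (memLp_comp_equiv (B ^ j) hf)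
      apply hint.ae_eq_zero_of_forall_setIntegral_eq_zero
      intro S hS _
      have hSW : MeasurableSet (S ∩ W) := hS.inter hWm
      have hsm := measurableSet_sat (countable_dualL γ) hSW
      have h1 := horth j (sat (dualL γ) (S ∩ W)) hsm (fun x v hv => sat_add hv)
      rw [← h1, ← integral_indicator hS, ← integral_indicator hsm]
      congr 1
      ext x
      by_cases hx : x ∈ W
      · have hiff : x ∈ sat (dualL γ) (S ∩ W) ↔ x ∈ S := by
          constructor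
          · rintro ⟨v, hv, hvS⟩
            have := hWp x hx _ hvS.2 (by rwa [add_sub_cancel_left])
            rw [this]
            exact hvS.1
          · intro h
            exact subset_sat _ ⟨h, hx⟩
        by_cases hxS : x ∈ S
        · rw [Set.indicator_of_mem hxS, Set.indicator_of_mem (hiff.mpr hxS)]
        · rw [Set.indicator_of_notMem hxS, Set.indicator_of_notMem (fun h => hxS (hiff.mp h))]
      · have h2 : conj (φ x) * f ((B ^ j) x) = 0 := by rw [hφ2 x hx, map_zero, zero_mul]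
        by_cases hxS : x ∈ S
        · rw [Set.indicator_of_mem hxS]
          by_cases hxs : x ∈ sat (dualL γ) (S ∩ W)
          · rw [Set.indicator_of_mem hxs]
          · rw [Set.indicator_of_notMem hxs, h2]
        · rw [Set.indicator_of_notMem hxS]
          by_cases hxs : x ∈ sat (dualL γ) (S ∩ W)
          · rw [Set.indicator_of_mem hxs, h2]
          · rw [Set.indicator_of_notMem hxs]
    have hA : ∀ᵐ y : E, ∀ i : ℤ, (B ^ i) y ∈ W → f y = 0 := by
      rw [ae_all_iff]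
      intro i
      filter_upwards [ae_comp_equiv (B ^ i) (h0 (-i))] with y hy hyW
      have h1 : conj (φ ((B ^ i) y)) * f ((B ^ (-i)) ((B ^ i) y)) = 0 := hy
      rw [zcancel', hφ1 _ hyW] at h1
      exact (mul_eq_zero.mp h1).resolve_left (by simpa using hc₀ne)
    filter_upwards [hA, hWBc] with y hy ⟨i, hi⟩
    exact hy i hi

theorem exists_wavelet_Z (γ : Basis (Fin n) ℝ E) (B : E ≃L[ℝ] E) {q : ℕ} (hq : 0 < q)
    (h : PosC B (dualL γ) (RQ B (dualL γ) q)) (hU0 : UR B (dualL γ) q = ⊥) :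
    ∃ φ : E → ℂ, Measurable φ ∧ IsONB (volume : Measure E) (fam γ B φ) := by
  classical
  obtain ⟨S⟩ := exists_shell_of_PosC γ B hq h
  obtain ⟨ρL, hρL, hcovL⟩ := exists_cov_dualL γ
  obtain ⟨L, hL, hlL⟩ := exists_bound_l S.l
  have hσ := S.hσ
  have hσ1 : 0 < S.σ - 1 := by linarith
  have hσ2 : 0 < (S.σ - 1) ^ 2 := by positivity
  have hbig : ∀ a : ℝ, ∀ i : ℕ, a / (S.σ - 1) ^ 2 ≤ i → a ≤ S.σ ^ (2 * (q * i)) * (S.σ - 1) := by
    intro a i hi
    rw [div_le_iff₀ hσ2] at hi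
    exact hi.trans (S.growth hq i)
  obtain ⟨e, he⟩ : ∃ e, S.l e ≠ 0 := by
    by_contra hcon
    push Not at hcon
    exact S.hl0 (LinearMap.ext hcon)
  set i₀ := ⌈L * ρL / (S.σ - 1) ^ 2⌉₊ with hi₀
  have hshell : ∀ x, ‖x - S.ctr e (q * i₀)‖ ≤ ρL → S.l x ≠ 0 ∧ S.fl x = (q * i₀ : ℕ) := by
    intro x hx
    apply S.mem_shell he
    refine (hlL _).trans ?_
    refine le_trans (mul_le_mul_of_nonneg_left hx hL.le) ?_
    exact hbig _ i₀ (Nat.le_ceil _)
  have hUv : ∀ v ∈ UR B (dualL γ) q, v = 0 := by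
    intro v hv
    rw [hU0, Submodule.mem_bot] at hv
    exact hv
  obtain ⟨T, hTΩ, hTm, hTU, hTpk, hTcov, hfwd, hrec, hFD⟩ := exists_T γ B hq h
    (S.measurableSet_Om q) (by
      intro x v hv
      rw [hUv v hv, add_zero]) S.Om_inv (x₀ := S.ctr e (q * i₀)) (ρ := ρL) hcovL (by
      intro x hx
      obtain ⟨h2, h3⟩ := hshell x hx
      refine ⟨h2, ?_⟩
      rw [h3]
      push_cast
      exact Dvd.intro _ rfl)
  -- the dilation tile
  set W₁ : Set E := {x | x ∈ T ∧ ∀ m : ℕ, 1 ≤ m → ((B ^ (q : ℤ)) ^ (m : ℤ)) x ∉ T} with hW₁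
  have hW₁m : MeasurableSet W₁ := by
    have : W₁ = T ∩ ⋂ m : ℕ, ⋂ _ : 1 ≤ m,
        (fun x : E => ((B ^ (q : ℤ)) ^ (m : ℤ)) x) ⁻¹' Tᶜ := by
      ext x
      simp only [hW₁, Set.mem_ofPred_eq, Set.mem_inter_iff, Set.mem_iInter, Set.mem_preimage,
        Set.mem_compl_iff]
    rw [this]
    exact hTm.inter (MeasurableSet.iInter fun m => MeasurableSet.iInter fun _ =>
      ((B ^ (q : ℤ)) ^ (m : ℤ)).continuous.measurable hTm.compl)
  have hTp : ∀ x ∈ T, ∀ y ∈ T, y - x ∈ dualL γ → x = y := by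
    intro x hx y hy hxy
    have h1 := hUv _ (RQ_le_UR (hTpk x hx y hy hxy))
    exact (sub_eq_zero.mp h1).symm
  have hW₁B : ∀ (m : ℤ) x, x ∈ W₁ → (B ^ m) x ∈ W₁ → m = 0 := by
    intro m x hx hmx
    obtain ⟨j, hj⟩ := S.Om_dvd m (hTΩ hx.1) (hTΩ hmx.1)
    have hq' : (0 : ℤ) < q := by exact_mod_cast hq
    rcases lt_trichotomy j 0 with hj0 | hj0 | hj0
    · exfalso
      obtain ⟨k, hk⟩ := Int.eq_ofNat_of_zero_le (by omega : 0 ≤ -j)
      apply hmx.2 k (by omega)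
      rw [Cz, zcomp, ← hk, hj]
      have h3 : (q : ℤ) * -j + q * j = 0 := by ring
      rw [h3, zpow_zero]
      exact hx.1
    · rw [hj, hj0, mul_zero]
    · exfalso
      obtain ⟨k, hk⟩ := Int.eq_ofNat_of_zero_le hj0.le
      apply hx.2 k (by omega)
      rw [Cz, ← hk, ← hj]
      exact hmx.1
  have hW₁c : ∀ᵐ x : E, ∃ i : ℤ, (B ^ i) x ∈ W₁ := by
    have hB : ∀ᵐ y : E, ∀ c : ℤ,
        (∀ᶠ m : ℕ in atTop, ((B ^ (q : ℤ)) ^ (m : ℤ)) ((B ^ c) y) ∉ T) ∧
        ((B ^ c) y ∈ S.Om q →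
          {m : ℕ | ((B ^ (q : ℤ)) ^ (-(m : ℤ))) ((B ^ c) y) ∈ T}.Infinite) := by
      rw [ae_all_iff]
      intro c
      filter_upwards [ae_comp_equiv (B ^ c) hfwd, ae_comp_equiv (B ^ c) hrec] with y h1 h2
      exact ⟨h1, h2⟩
    filter_upwards [hB, S.Om_hit q] with y hyB ⟨c, hc⟩
    obtain ⟨h1, h2⟩ := hyB c
    obtain ⟨m, hm⟩ := (h2 hc).nonempty
    have hm' : ((B ^ (q : ℤ)) ^ (-(m : ℤ))) ((B ^ c) y) ∈ T := hm
    obtain ⟨K, hK⟩ := eventually_atTop.mp h1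
    -- the last visit
    obtain ⟨J, hJ1, hJ2⟩ : ∃ J : ℤ, ((B ^ (q : ℤ)) ^ J) ((B ^ c) y) ∈ T ∧
        ∀ J' : ℤ, J < J' → ((B ^ (q : ℤ)) ^ J') ((B ^ c) y) ∉ T := by
      have hbdd : ∃ b : ℤ, ∀ z : ℤ, ((B ^ (q : ℤ)) ^ z) ((B ^ c) y) ∈ T → z ≤ b := by
        refine ⟨K, fun z hz => ?_⟩
        by_contra hlt
        push Not at hlt
        obtain ⟨k, hk⟩ := Int.eq_ofNat_of_zero_le (by omega : 0 ≤ z)
        rw [hk] at hz
        exact hK k (by omega) hz
      obtain ⟨J, hJ1, hJ2⟩ := Int.exists_greatest_of_bdd hbdd ⟨_, hm'⟩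
      refine ⟨J, hJ1, fun J' hJ' hT' => ?_⟩
      exact absurd (hJ2 J' hT') (not_le.mpr hJ')
    refine ⟨q * J + c, ?_⟩
    have h5 : (B ^ (q * J + c : ℤ)) y = ((B ^ (q : ℤ)) ^ J) ((B ^ c) y) := by
      rw [Cz, zcomp]
    rw [h5]
    refine ⟨hJ1, fun m hm => ?_⟩
    rw [zcomp]
    exact hJ2 _ (by omega)
  -- the translation tile
  obtain ⟨δ, hδ, hsep⟩ := dualL_discrete γ
  obtain ⟨W₂, hW₂sub, hW₂m, hW₂pk, hW₂cov⟩ := exists_sec (countable_dualL γ) hδ hsep
    (Z := Metric.closedBall (S.ctr e (q * i₀)) ρL) Metric.isClosed_closedBall.measurableSet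
  have hW₂c : ∀ x, ∃ v ∈ dualL γ, x + v ∈ W₂ := by
    intro x
    obtain ⟨v, hv, hvn⟩ := hcovL (x - S.ctr e (q * i₀))
    have h1 : x + v ∈ Metric.closedBall (S.ctr e (q * i₀)) ρL := by
      rw [mem_closedBall_iff_norm]
      have : x + v - S.ctr e (q * i₀) = x - S.ctr e (q * i₀) + v := by abel
      rw [this]
      exact hvn
    obtain ⟨v', hv', h2⟩ := hW₂cov h1
    exact ⟨v + v', (dualL γ).add_mem hv hv', by rwa [← add_assoc]⟩
  have hW₂B : ∀ (m : ℤ) x, x ∈ W₂ → (B ^ m) x ∈ W₂ → m = 0 := by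
    intro m x hx hmx
    have h1 := hshell x (by
      have := hW₂sub hx
      rwa [mem_closedBall_iff_norm] at this)
    have h2 := hshell _ (by
      have := hW₂sub hmx
      rwa [mem_closedBall_iff_norm] at this)
    have h3 := S.fl_zpow h1.1 m
    rw [h1.2, h2.2] at h3
    have h4 : S.s * m = 0 := by linarith
    rcases S.hs with h5 | h5
    · rw [h5, one_mul] at h4
      exact h4
    · rw [h5] at h4
      omega
  obtain ⟨W, hWm, hWp, hWc, hWB, hWBc⟩ := exists_waveletSet B (countable_dualL γ) hW₁m hW₂m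
    (fun x hx y hy hxy => hTp x hx.1 y hy.1 hxy) hW₁B hW₁c hW₂pk hW₂B hW₂c
  exact isONB_of_waveletSet γ B hWm hWp hWc hWB hWBc

/-- **existence** -/
theorem exists_wavelet_of_PosC (γ : Basis (Fin n) ℝ E) (B : E ≃L[ℝ] E) {q : ℕ} (hq : 0 < q)
    (h : PosC B (dualL γ) (RQ B (dualL γ) q)) :
    ∃ φ : E → ℂ, Measurable φ ∧ IsONB (volume : Measure E) (fam γ B φ) := by
  by_cases hU0 : UR B (dualL γ) q = ⊥
  · exact exists_wavelet_Z γ B hq h hU0
  · exact exists_wavelet_NZ γ B hq h hU0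

end Pool.Agent.Lib_helper44
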