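import Mathlib
import Pool.Agent.Lib_helper44.D2

open MeasureTheory Filter Topology Complex Module
open scoped ENNReal NNReal ComplexConjugate InnerProductSpace

set_option linter.unusedSectionVars false

namespace Pool.Agent.Lib_helper44

variable {E : Type*} [NormedAddCommGroup E] [InnerProductSpace ℝ E] [FiniteDimensional ℝ E]
  [MeasurableSpace E] [BorelSpace E]
variable {γ : Basis (Fin 2) ℝ E} {B : E ≃L[ℝ] E}

/-- `B ^ j` preserves the rational vectors -/
def Pres (γ : Basis (Fin 2) ℝ E) (B : E ≃L[ℝ] E) (j : ℤ) : Prop := ∀ z ∈ VQ γ, (B ^ j) z ∈ VQ γ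

/-- no nontrivial power of `B` has a rational eigenvector -/
def NoEig (γ : Basis (Fin 2) ℝ E) (B : E ≃L[ℝ] E) : Prop :=
  ∀ j : ℤ, j ≠ 0 → ∀ v ∈ VQ γ, v ≠ 0 → ∀ c : ℝ, (B ^ j) v ≠ c • v

theorem abs_ldet_zpow (hB : adet B = 1) (j : ℤ) : |ldet (B ^ j)| = 1 := by
  rw [abs_ldet, adet_zpow, hB, one_zpow]

theorem isRat_of_abs_one {x : ℝ} (h : |x| = 1) : IsRat x := by
  apply IsRat.of_abs
  rw [h]
  exact isRat_one

theorem Df_ne (hne : NoEig γ B) {v : E} (hv : v ∈ VQ γ) (hv0 : v ≠ 0) {j : ℤ} (hj : j ≠ 0) :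
    Df γ v ((B ^ j) v) ≠ 0 := by
  intro h
  obtain ⟨c, hc⟩ := eq_smul_of_Df hv0 h
  exact hne j hj v hv hv0 c hc

theorem zpow_apply_add (B : E ≃L[ℝ] E) (i j : ℤ) (x : E) :
    (B ^ i) ((B ^ j) x) = (B ^ (i + j)) x := by
  rw [zpow_add]
  rfl

theorem two_idx (hB : adet B = 1) (hne : NoEig γ B) {v : E} (hv : v ∈ VQ γ) (hv0 : v ≠ 0)
    {j k : ℤ} (hj : j ≠ 0) (hk : k ≠ 0) (hjk : j ≠ k) (hjv : (B ^ j) v ∈ VQ γ)
    (hkv : (B ^ k) v ∈ VQ γ) :
    Pres γ B j ∧ IsRat (Df γ v ((B ^ j) ((B ^ j) v)) / Df γ v ((B ^ j) v)) := by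
  have hd := Df_ne hne hv hv0 hj
  have hdr : IsRat (Df γ v ((B ^ j) v)) := Df_rat hv hjv
  have hrel := quad_rel (γ := γ) (B ^ j) hd
  set C := B ^ j with hC
  set T := B ^ k with hT
  set d := Df γ v (C v) with hdd
  obtain ⟨β, hβ⟩ : ∃ β, β = Df γ v (C (C v)) / d := ⟨_, rfl⟩
  obtain ⟨α, hα⟩ : ∃ α, α = -ldet C := ⟨_, rfl⟩
  rw [← hβ] at hrel ⊢
  simp only [← hα] at hrel
  have hαr : IsRat α := by
    rw [hα]
    exact (isRat_of_abs_one (abs_ldet_zpow hB j)).neg
  have hTr : IsRat (ldet T) := isRat_of_abs_one (abs_ldet_zpow hB k)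
  obtain ⟨x, hx⟩ : ∃ x, x = Df γ (T v) (C v) / d := ⟨_, rfl⟩
  obtain ⟨y, hy⟩ : ∃ y, y = Df γ v (T v) / d := ⟨_, rfl⟩
  have hxr : IsRat x := by rw [hx]; exact (Df_rat hkv hjv).div hdr
  have hyr : IsRat y := by rw [hy]; exact (Df_rat hv hkv).div hdr
  have hcr : ∀ z, z = (Df γ z (C v) / d) • v + (Df γ v z / d) • C v := by
    intro z
    have h1 := Df_cramer (γ := γ) v (C v) z
    rw [← hdd] at h1
    have h2 := congrArg (fun z => d⁻¹ • z) h1
    simp only [smul_add, smul_smul] at h2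
    rw [inv_mul_cancel₀ hd, one_smul] at h2
    refine h2.trans ?_
    congr 2
    · field_simp
    · field_simp
  have hTv : T v = x • v + y • C v := by
    rw [hx, hy]
    exact hcr (T v)
  have hcomm : T (C v) = C (T v) := by
    rw [hC, hT, zpow_apply_add, zpow_apply_add, add_comm]
  have hTC : T (C v) = (y * α) • v + (x + y * β) • C v := by
    rw [hcomm, hTv, map_add, map_smul, map_smul, hrel v]
    module
  have hdet : ldet T = x * (x + y * β) - y * (y * α) := by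
    have h1 := Df_map (γ := γ) T v (C v)
    rw [hTC, hTv, ← hdd] at h1
    simp only [Df_add_left, Df_add_right, Df_smul_left, Df_smul_right, Df_self] at h1
    rw [Df_swap v (C v), ← hdd] at h1
    have h2 : ldet T * d = (x * (x + y * β) - y * (y * α)) * d := by
      rw [← h1]
      ring
    exact mul_right_cancel₀ hd h2
  have hy0 : y ≠ 0 := by
    intro h0
    rw [h0, zero_smul, add_zero] at hTv
    exact hne k hk v hv hv0 x hTv
  have hx0 : x ≠ 0 := by
    intro h0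
    rw [h0, zero_smul, zero_add] at hTv
    have h1 := congrArg (B ^ (-j)) hTv
    rw [map_smul, hC, hT, zpow_apply_neg, zpow_apply_add] at h1
    exact hne (-j + k) (by omega) v hv hv0 y h1
  have hβr : IsRat β := by
    have h1 : β = (ldet T - x * x + y * y * α) / (x * y) := by
      rw [eq_div_iff (mul_ne_zero hx0 hy0)]
      linarith
    rw [h1]
    exact ((hTr.sub (hxr.mul hxr)).add ((hyr.mul hyr).mul hαr)).div (hxr.mul hyr)
  refine ⟨fun z hz => ?_, hβr⟩
  rw [hcr z, map_add, map_smul, map_smul, hrel v]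
  exact VQ_add (VQ_smul hjv ((Df_rat hz hjv).div hdr))
    (VQ_smul (VQ_add (VQ_smul hv hαr) (VQ_smul hjv hβr)) ((Df_rat hv hz).div hdr))

theorem exists_VQ (γ : Basis (Fin 2) ℝ E) : ∃ v ∈ VQ γ, v ≠ 0 := by
  refine ⟨(coordT γ).symm ![1, 0], ?_, ?_⟩
  · intro i
    rw [← coordT_apply, ContinuousLinearEquiv.apply_symm_apply]
    fin_cases i
    · exact isRat_one
    · exact ⟨0, by simp⟩
  · intro h
    have h1 := congrArg (coordT γ) h
    rw [ContinuousLinearEquiv.apply_symm_apply, map_zero] at h1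
    have := congrFun h1 0
    simp at this

/-- the rational quadratic relation of a power preserving the rational vectors -/
theorem pres_rel (hB : adet B = 1) (hne : NoEig γ B) {j : ℤ} (hj : j ≠ 0) (hp : Pres γ B j) :
    ∃ α β : ℝ, |α| = 1 ∧ IsRat β ∧ ∀ x, (B ^ j) ((B ^ j) x) = α • x + β • (B ^ j) x := by
  obtain ⟨v, hv, hv0⟩ := exists_VQ γ
  have h2 : (B ^ (2 * j)) v ∈ VQ γ := by
    have := hp _ (hp v hv)
    rwa [zpow_apply_add, ← two_mul] at this
  obtain ⟨-, h3⟩ := two_idx hB hne hv hv0 hj (by omega : 2 * j ≠ 0) (by omega) (hp v hv) h2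
  refine ⟨-ldet (B ^ j), _, ?_, h3, quad_rel (B ^ j) (Df_ne hne hv hv0 hj)⟩
  rw [abs_neg]
  exact abs_ldet_zpow hB j

theorem abs_one_cases {x : ℝ} (h : |x| = 1) : x = 1 ∨ x = -1 := by
  rcases abs_choice x with h1 | h1
  · left
    linarith
  · right
    linarith

/-- inverse of the relation -/
theorem rel_inv {j : ℤ} {α β : ℝ} (hα : |α| = 1)
    (h : ∀ x, (B ^ j) ((B ^ j) x) = α • x + β • (B ^ j) x) (x : E) :
    (B ^ (-j)) x = α • ((B ^ j) x - β • x) := by
  have h1 := h ((B ^ (-j)) x)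
  rw [zpow_apply_neg'] at h1
  rw [h1, add_sub_cancel_right, smul_smul]
  have : α * α = 1 := by
    rcases abs_one_cases hα with h2 | h2 <;> rw [h2] <;> ring
  rw [this, one_smul]

theorem rel_inv_quad {j : ℤ} {α β : ℝ} (hα : |α| = 1)
    (h : ∀ x, (B ^ j) ((B ^ j) x) = α • x + β • (B ^ j) x) (x : E) :
    (B ^ (-j)) ((B ^ (-j)) x) = α • x + (-α * β) • (B ^ (-j)) x := by
  have hα2 : α * α = 1 := by
    rcases abs_one_cases hα with h2 | h2 <;> rw [h2] <;> ring
  have h1 := rel_inv hα h ((B ^ (-j)) x)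
  rw [zpow_apply_neg'] at h1
  rw [h1, smul_sub, smul_smul]
  module

theorem pres_neg (hB : adet B = 1) (hne : NoEig γ B) {j : ℤ} (hp : Pres γ B j) :
    Pres γ B (-j) := by
  rcases eq_or_ne j 0 with rfl | hj
  · simpa using hp
  · obtain ⟨α, β, hα, hβ, hrel⟩ := pres_rel hB hne hj hp
    intro z hz
    rw [rel_inv hα hrel, sub_eq_add_neg]
    exact VQ_smul (VQ_add (hp z hz) (VQ_neg (VQ_smul hz hβ))) (isRat_of_abs_one hα)

/-- the set of exponents preserving the rational vectors is a subgroup -/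
def presGroup (hB : adet B = 1) (hne : NoEig γ B) : AddSubgroup ℤ where
  carrier := {j | Pres γ B j}
  add_mem' := by
    intro i j hi hj z hz
    have := hi _ (hj z hz)
    rwa [zpow_apply_add] at this
  zero_mem' := by
    intro z hz
    rw [zpow_zero]
    exact hz
  neg_mem' := fun hj => pres_neg hB hne hj

theorem not_mem_of_not_pres (hB : adet B = 1) (hne : NoEig γ B) {m : ℤ} (hm : m ≠ 0)
    (hpm : Pres γ B m) {j : ℤ} (hj : ¬ Pres γ B j) {v : E} (hv : v ∈ VQ γ) (hv0 : v ≠ 0) :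
    (B ^ (-j)) v ∉ VQ γ := by
  intro h
  have hj0 : j ≠ 0 := by
    rintro rfl
    exact hj (presGroup hB hne).zero_mem
  have hjm : -j ≠ m := by
    intro h1
    apply hj
    have := pres_neg hB hne hpm
    rwa [← h1, neg_neg] at this
  obtain ⟨h1, -⟩ := two_idx hB hne hv hv0 (by omega : -j ≠ 0) hm hjm h (hpm v hv)
  apply hj
  have := pres_neg hB hne h1
  rwa [neg_neg] at this

end Pool.Agent.Lib_helper44
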