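import Mathlib
import Pool.Agent.Lib_helper44.TwoIdx

open MeasureTheory Filter Topology Complex Module
open scoped ENNReal NNReal ComplexConjugate InnerProductSpace

set_option linter.unusedSectionVars false

namespace Pool.Agent.Lib_helper44

/-- a rational number which is not an integer is large for some prime -/
theorem exists_prime_norm {b : ℚ} (hb : ∀ K : ℤ, b ≠ K) :
    ∃ p : ℕ, ∃ _ : Fact p.Prime, 1 < padicNorm p b := by
  have hden : b.den ≠ 1 := by
    intro h
    apply hb b.num
    have := Rat.num_div_den b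
    rw [h] at this
    simpa using this.symm
  refine ⟨b.den.minFac, ⟨Nat.minFac_prime hden⟩, ?_⟩
  have hp : Fact (b.den.minFac).Prime := ⟨Nat.minFac_prime hden⟩
  have h1 : padicNorm b.den.minFac (b.den : ℚ) < 1 :=
    (padicNorm.nat_lt_one_iff _).mpr (Nat.minFac_dvd _)
  have h0 : (b.den : ℚ) ≠ 0 := by exact_mod_cast b.den_ne_zero
  have h1' : 0 < padicNorm b.den.minFac (b.den : ℚ) :=
    lt_of_le_of_ne (padicNorm.nonneg _) (padicNorm.nonzero h0).symm
  have h2 : padicNorm b.den.minFac (b.num : ℚ) = 1 := by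
    rw [padicNorm.int_eq_one_iff]
    intro hdvd
    have h3 : b.den.minFac ∣ b.num.natAbs := Int.natCast_dvd.mp hdvd
    have h4 := Nat.dvd_gcd h3 (Nat.minFac_dvd b.den)
    rw [b.reduced] at h4
    exact hp.out.one_lt.ne' (Nat.dvd_one.mp h4)
  have h3 : padicNorm b.den.minFac b = padicNorm b.den.minFac ((b.num : ℚ) / b.den) := by
    rw [Rat.num_div_den]
  rw [h3, padicNorm.div, h2]
  exact (one_lt_div h1').mpr h1

/-- the Lucas type recursion -/
def us (a b : ℚ) : ℕ → ℚ
  | 0 => 0
  | 1 => 1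
  | (k + 2) => b * us a b (k + 1) + a * us a b k

theorem us_succ_succ (a b : ℚ) (k : ℕ) : us a b (k + 2) = b * us a b (k + 1) + a * us a b k := rfl

section

variable {p : ℕ} [hp : Fact p.Prime] {a b : ℚ}

theorem norm_us (ha : padicNorm p a = 1) (hb : 1 < padicNorm p b) (k : ℕ) :
    padicNorm p (us a b (k + 1)) = padicNorm p b ^ k ∧
      padicNorm p (us a b k) < padicNorm p b ^ k := by
  have hb0 : 0 < padicNorm p b := by linarith
  induction k with
  | zero =>
    refine ⟨?_, ?_⟩
    · change padicNorm p 1 = _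
      simp
    · change padicNorm p 0 < _
      simp
  | succ k ih =>
    obtain ⟨h1, h2⟩ := ih
    have h3 : padicNorm p (b * us a b (k + 1)) = padicNorm p b ^ (k + 1) := by
      rw [padicNorm.mul, h1, pow_succ]
      ring
    have h4 : padicNorm p (a * us a b k) < padicNorm p b ^ (k + 1) := by
      rw [padicNorm.mul, ha, one_mul]
      refine h2.trans_le ?_
      exact pow_le_pow_right₀ hb.le (Nat.le_succ k)
    refine ⟨?_, ?_⟩
    · rw [us_succ_succ, padicNorm.add_eq_max_of_ne (by rw [h3]; exact h4.ne'), h3]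
      exact max_eq_left h4.le
    · rw [h1]
      exact pow_lt_pow_right₀ hb (Nat.lt_succ_self k)

theorem us_ne (ha : padicNorm p a = 1) (hb : 1 < padicNorm p b) (k : ℕ) : us a b (k + 1) ≠ 0 := by
  intro h
  have h1 := (norm_us ha hb k).1
  rw [h, padicNorm.zero] at h1
  have : 0 < padicNorm p b ^ k := pow_pos (by linarith) k
  linarith

/-- the approximations -/
def ts (a b : ℚ) (k : ℕ) : ℚ := a * us a b k / us a b (k + 1)

theorem wronsk (k : ℕ) : us a b (k + 1) * us a b (k + 1) - us a b k * us a b (k + 2) = (-a) ^ k := by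
  induction k with
  | zero =>
    change (1 : ℚ) * 1 - 0 * _ = _
    simp
  | succ k ih =>
    rw [pow_succ, ← ih, us_succ_succ a b (k + 1)]
    have h1 := us_succ_succ a b k
    linear_combination (us a b (k + 2)) * h1

theorem ts_step (ha : padicNorm p a = 1) (hb : 1 < padicNorm p b) (k : ℕ) :
    padicNorm p (ts a b (k + 1) - ts a b k) ≤ (padicNorm p b ^ k)⁻¹ := by
  have h1 : ts a b (k + 1) - ts a b k = a * (-a) ^ k / (us a b (k + 2) * us a b (k + 1)) := by
    unfold ts
    have hk := us_ne ha hb k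
    have hk1 := us_ne ha hb (k + 1)
    rw [div_sub_div _ _ hk1 hk]
    congr 1
    rw [← wronsk k]
    ring
  have h2 : padicNorm p ((-a) ^ k) = 1 := by
    induction k with
    | zero => simp
    | succ k ih =>
      rw [pow_succ, padicNorm.mul, padicNorm.neg, ha, mul_one]
      apply ih
      · unfold ts
        have hk := us_ne ha hb k
        have hk1 := us_ne ha hb (k + 1)
        rw [div_sub_div _ _ hk1 hk]
        congr 1
        rw [← wronsk k]
        ring
  rw [h1, padicNorm.div, padicNorm.mul, padicNorm.mul, h2, ha, (norm_us ha hb k).1,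
    (norm_us ha hb (k + 1)).1, one_mul, one_div]
  have hb0 : 0 < padicNorm p b := by linarith
  rw [inv_le_inv₀ (by positivity) (by positivity)]
  have h3 : 1 ≤ padicNorm p b ^ (k + 1) := one_le_pow₀ hb.le
  have h4 : 0 < padicNorm p b ^ k := by positivity
  nlinarith

theorem ts_close (ha : padicNorm p a = 1) (hb : 1 < padicNorm p b) (K d : ℕ) :
    padicNorm p (ts a b (K + d) - ts a b K) ≤ (padicNorm p b ^ K)⁻¹ := by
  have hb0 : 0 < padicNorm p b := by linarith
  induction d with
  | zero => simp [pow_nonneg hb0.le K]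
  | succ d ih =>
    have h1 : ts a b (K + (d + 1)) - ts a b K
        = (ts a b (K + d + 1) - ts a b (K + d)) + (ts a b (K + d) - ts a b K) := by
      rw [← add_assoc]
      ring
    rw [h1]
    refine padicNorm.nonarchimedean.trans (max_le ?_ ih)
    refine (ts_step ha hb (K + d)).trans ?_
    rw [inv_le_inv₀ (by positivity) (by positivity)]
    exact pow_le_pow_right₀ hb.le (Nat.le_add_right K d)

end

variable {E : Type*} [NormedAddCommGroup E] [InnerProductSpace ℝ E] [FiniteDimensional ℝ E]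
  [MeasurableSpace E] [BorelSpace E]
variable {γ : Basis (Fin 2) ℝ E}

/-- `p`-adically small vectors -/
def Small (p : ℕ) (γ : Basis (Fin 2) ℝ E) (r : ℚ) (w : E) : Prop :=
  ∀ i, ∃ q : ℚ, ⟪γ i, w⟫_ℝ = q ∧ padicNorm p q ≤ r

section

variable {p : ℕ} [hp : Fact p.Prime]

theorem Small.add {r : ℚ} {v w : E} (hv : Small p γ r v) (hw : Small p γ r w) :
    Small p γ r (v + w) := by
  intro i
  obtain ⟨q, hq, hq2⟩ := hv i
  obtain ⟨s, hs, hs2⟩ := hw i
  exact ⟨q + s, by rw [inner_add_right, hq, hs]; push_cast; rfl,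
    padicNorm.nonarchimedean.trans (max_le hq2 hs2)⟩

theorem Small.neg {r : ℚ} {v : E} (hv : Small p γ r v) : Small p γ r (-v) := by
  intro i
  obtain ⟨q, hq, hq2⟩ := hv i
  exact ⟨-q, by rw [inner_neg_right, hq]; push_cast; rfl, by rwa [padicNorm.neg]⟩

theorem Small.smul {r s : ℚ} {v : E} (hv : Small p γ r v) (c : ℚ) (hc : padicNorm p c ≤ s) :
    Small p γ (s * r) ((c : ℝ) • v) := by
  intro i
  obtain ⟨q, hq, hq2⟩ := hv i
  refine ⟨c * q, by rw [real_inner_smul_right, hq]; push_cast; rfl, ?_⟩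
  rw [padicNorm.mul]
  exact mul_le_mul hc hq2 (padicNorm.nonneg _) ((padicNorm.nonneg _).trans hc)

theorem Small.mono {r s : ℚ} {v : E} (hv : Small p γ r v) (h : r ≤ s) : Small p γ s v := by
  intro i
  obtain ⟨q, hq, hq2⟩ := hv i
  exact ⟨q, hq, hq2.trans h⟩

theorem small_of_mem {v : E} (hv : v ∈ dualL γ) : Small p γ 1 v := by
  intro i
  obtain ⟨q, hq⟩ := mem_dualL.mp hv i
  exact ⟨q, by rw [hq]; push_cast; rfl, padicNorm.of_int q⟩

theorem small_zero {r : ℚ} (hr : 0 ≤ r) : Small p γ r 0 := by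
  intro i
  exact ⟨0, by simp, by simpa using hr⟩

theorem Df_small {r : ℚ} {v w : E} (hv : Small p γ 1 v) (hw : Small p γ r w) :
    ∃ q : ℚ, Df γ v w = q ∧ padicNorm p q ≤ r := by
  obtain ⟨v0, hv0, hv0'⟩ := hv 0
  obtain ⟨v1, hv1, hv1'⟩ := hv 1
  obtain ⟨w0, hw0, hw0'⟩ := hw 0
  obtain ⟨w1, hw1, hw1'⟩ := hw 1
  refine ⟨v0 * w1 - v1 * w0, ?_, ?_⟩
  · unfold Df
    rw [hv0, hv1, hw0, hw1]
    push_cast
    rfl
  · refine padicNorm.sub.trans (max_le ?_ ?_)
    · rw [padicNorm.mul]
      calc padicNorm p v0 * padicNorm p w1 ≤ 1 * r :=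
            mul_le_mul hv0' hw1' (padicNorm.nonneg _) zero_le_one
        _ = r := one_mul r
    · rw [padicNorm.mul]
      calc padicNorm p v1 * padicNorm p w0 ≤ 1 * r :=
            mul_le_mul hv1' hw0' (padicNorm.nonneg _) zero_le_one
        _ = r := one_mul r

end

theorem pow_rel {C : E → E} {a b : ℚ} (hC : ∀ x, C (C x) = (a : ℝ) • x + (b : ℝ) • C x)
    (k : ℕ) (x : E) :
    C^[k + 1] x = ((us a b (k + 1) : ℚ) : ℝ) • C x + ((a * us a b k : ℚ) : ℝ) • x := by
  induction k generalizing x with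
  | zero =>
    simp [us]
  | succ k ih =>
    rw [Function.iterate_succ_apply, ih (C x), hC x, us_succ_succ a b k]
    push_cast
    module

/-- **quadratic irrationals which are not integral**: the lattice points which stay in the lattice
for large powers disappear -/
theorem quad_inter {C : E → E} {a b : ℚ} (ha : a = 1 ∨ a = -1) (hb : ∀ K : ℤ, b ≠ K)
    (hC : ∀ x, C (C x) = (a : ℝ) • x + (b : ℝ) • C x) (hadd : ∀ x y, C (x + y) = C x + C y)
    (hne : ∀ v ∈ dualL γ, v ≠ 0 → Df γ v (C v) ≠ 0) {v : E} (hv : v ∈ dualL γ)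
    (hall : ∀ K : ℕ, v ∈ AddSubgroup.closure {w | w ∈ dualL γ ∧ ∃ k : ℕ, K ≤ k ∧
      C^[k + 1] w ∈ dualL γ}) : v = 0 := by
  obtain ⟨p, hp, hbp⟩ := exists_prime_norm hb
  have hap : padicNorm p a = 1 := by
    rcases ha with rfl | rfl
    · exact padicNorm.one
    · rw [padicNorm.neg]
      exact padicNorm.one
  have hb0 : 0 < padicNorm p b := by linarith
  have hC0 : C 0 = 0 := by
    have := hadd 0 0
    rw [add_zero] at this
    simpa using this
  have hCneg : ∀ x, C (-x) = -C x := by
    intro x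
    have := hadd x (-x)
    rw [add_neg_cancel, hC0] at this
    exact (neg_eq_of_add_eq_zero_right this.symm).symm
  have key : ∀ K : ℕ, ∀ w ∈ AddSubgroup.closure {w | w ∈ dualL γ ∧ ∃ k : ℕ, K ≤ k ∧
      C^[k + 1] w ∈ dualL γ}, Small p γ (padicNorm p b ^ K)⁻¹ (C w + ((ts a b K : ℚ) : ℝ) • w) := by
    intro K w hw
    have hr0 : (0 : ℚ) ≤ (padicNorm p b ^ K)⁻¹ := by positivity
    induction hw using AddSubgroup.closure_induction with
    | mem w hw =>
      obtain ⟨hw1, k, hk, hw2⟩ := hw
      have h1 := pow_rel hC k w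
      have hu := us_ne hap hbp k
      have h2 : C w + ((ts a b k : ℚ) : ℝ) • w = (((us a b (k + 1))⁻¹ : ℚ) : ℝ) • C^[k + 1] w := by
        rw [h1, smul_add, smul_smul, smul_smul]
        have e1 : (((us a b (k + 1))⁻¹ : ℚ) : ℝ) * ((us a b (k + 1) : ℚ) : ℝ) = 1 := by
          rw [← Rat.cast_mul, inv_mul_cancel₀ hu, Rat.cast_one]
        have e2 : (((us a b (k + 1))⁻¹ : ℚ) : ℝ) * ((a * us a b k : ℚ) : ℝ)
            = ((ts a b k : ℚ) : ℝ) := by
          rw [← Rat.cast_mul]
          congr 1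
          unfold ts
          rw [div_eq_mul_inv]
          ring
        rw [e1, e2, one_smul]
      have h3 : Small p γ (padicNorm p b ^ K)⁻¹ (C w + ((ts a b k : ℚ) : ℝ) • w) := by
        rw [h2]
        have h4 := (small_of_mem (p := p) hw2).smul (us a b (k + 1))⁻¹
          (s := (padicNorm p b ^ k)⁻¹) (by
            have : padicNorm p ((us a b (k + 1))⁻¹) = (padicNorm p b ^ k)⁻¹ := by
              rw [← one_div, padicNorm.div, padicNorm.one, (norm_us hap hbp k).1, one_div]
            rw [this])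
        rw [mul_one] at h4
        refine h4.mono ?_
        rw [inv_le_inv₀ (by positivity) (by positivity)]
        exact pow_le_pow_right₀ hbp.le hk
      obtain ⟨d, rfl⟩ := Nat.exists_eq_add_of_le hk
      have h5 := (small_of_mem (p := p) hw1).smul (ts a b (K + d) - ts a b K)
        (ts_close hap hbp K d)
      rw [mul_one] at h5
      have h6 : C w + ((ts a b K : ℚ) : ℝ) • w = (C w + ((ts a b (K + d) : ℚ) : ℝ) • w) +
          -(((ts a b (K + d) - ts a b K : ℚ) : ℝ) • w) := by
        push_cast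
        module
      rw [h6]
      exact h3.add h5.neg
    | zero =>
      rw [hC0, smul_zero, add_zero]
      exact small_zero hr0
    | add x y _ _ hx hy =>
      have h1 : C (x + y) + ((ts a b K : ℚ) : ℝ) • (x + y)
          = (C x + ((ts a b K : ℚ) : ℝ) • x) + (C y + ((ts a b K : ℚ) : ℝ) • y) := by
        rw [hadd, smul_add]
        abel
      rw [h1]
      exact hx.add hy
    | neg x _ hx =>
      have h1 : C (-x) + ((ts a b K : ℚ) : ℝ) • (-x) = -(C x + ((ts a b K : ℚ) : ℝ) • x) := by
        rw [hCneg, smul_neg]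
        abel
      rw [h1]
      exact hx.neg
  by_contra hv0
  apply hne v hv hv0
  have h1 : ∀ K : ℕ, ∃ q : ℚ, Df γ v (C v) = q ∧ padicNorm p q ≤ (padicNorm p b ^ K)⁻¹ := by
    intro K
    have h2 := Df_small (small_of_mem (p := p) hv) (key K v (hall K))
    rw [Df_add_right, Df_smul_right, Df_self, mul_zero, add_zero] at h2
    exact h2
  obtain ⟨q, hq, -⟩ := h1 0
  have h2 : ∀ K : ℕ, padicNorm p q ≤ (padicNorm p b ^ K)⁻¹ := by
    intro K
    obtain ⟨q', hq', h3⟩ := h1 K
    have : q = q' := by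
      have := hq.symm.trans hq'
      exact_mod_cast this
    rwa [this]
  have h3 : padicNorm p q = 0 := by
    apply le_antisymm _ (padicNorm.nonneg q)
    have hlim : Tendsto (fun K : ℕ => ((padicNorm p b ^ K)⁻¹ : ℚ)) atTop (𝓝 0) := by
      have h4 : Tendsto (fun K : ℕ => ((padicNorm p b)⁻¹ ^ K : ℚ)) atTop (𝓝 0) := by
        apply tendsto_pow_atTop_nhds_zero_of_lt_one (by positivity)
        exact inv_lt_one_of_one_lt₀ hbp
      refine h4.congr fun K => ?_
      rw [inv_pow]
    exact ge_of_tendsto' hlim h2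
  rw [hq, padicNorm.zero_of_padicNorm_eq_zero h3, Rat.cast_zero]

end Pool.Agent.Lib_helper44
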