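import Mathlib
import Pool.Agent.Lib_helper44.Quad
import Pool.Agent.Lib_helper44.Det1
import Pool.Agent.Lib_helper44.Adapt3

open MeasureTheory Filter Topology Complex Module
open scoped ENNReal NNReal ComplexConjugate InnerProductSpace

set_option linter.unusedSectionVars false

namespace Pool.Agent.Lib_helper44

variable {E : Type*} [NormedAddCommGroup E] [InnerProductSpace ℝ E] [FiniteDimensional ℝ E]
  [MeasurableSpace E] [BorelSpace E]
variable {γ : Basis (Fin 2) ℝ E} {B : E ≃L[ℝ] E} {φ : E → ℂ}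

theorem scalar_zpow {M : E ≃L[ℝ] E} {c : ℝ} (hc : c ≠ 0) (h : ∀ x, M x = c • x) (q : ℤ) (x : E) :
    (M ^ q) x = c ^ q • x := by
  apply ext_inner_left ℝ
  intro y
  rw [real_inner_smul_right]
  exact functional_zpow (B := M) (f := fun x => ⟪y, x⟫_ℝ) hc (fun x => by
    rw [h, real_inner_smul_right]) q x

theorem exists_Df_ne (γ : Basis (Fin 2) ℝ E) : ∃ v w : E, Df γ v w = 1 := by
  refine ⟨(coordT γ).symm ![1, 0], (coordT γ).symm ![0, 1], ?_⟩
  unfold Df
  simp only [← coordT_apply, ContinuousLinearEquiv.apply_symm_apply]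
  simp

theorem noShort_of_scalar (γ : Basis (Fin 2) ℝ E) (hB : adet B = 1) {J : ℕ} (hJ : 0 < J) {c : ℝ}
    (h : ∀ x, (B ^ (J : ℤ)) x = c • x) : NoShort γ B := by
  have hc : |c| = 1 := by
    obtain ⟨v, w, hvw⟩ := exists_Df_ne γ
    have h1 := Df_map (γ := γ) (B ^ (J : ℤ)) v w
    rw [h, h, Df_smul_left, Df_smul_right, hvw, mul_one, mul_one] at h1
    have h2 := abs_ldet_zpow hB J
    rw [← h1, abs_mul] at h2
    have h3 : 0 ≤ |c| := abs_nonneg c
    nlinarith
  have hc0 : c ≠ 0 := by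
    rintro rfl
    rw [abs_zero] at hc
    exact zero_ne_one hc
  obtain ⟨ε, hε, hd⟩ := Lj_discrete_finite γ B ((Finset.range J).image (fun r : ℕ => (r : ℤ)))
  refine ⟨ε, hε, fun j v hv hv0 => ?_⟩
  have hJ' : (0 : ℤ) < J := by exact_mod_cast hJ
  set r := j % J with hr
  have hr0 : 0 ≤ r := Int.emod_nonneg j hJ'.ne'
  have hr1 : r < J := Int.emod_lt_of_pos j hJ'
  apply hd r _ v _ hv0
  · rw [Finset.mem_image]
    refine ⟨r.toNat, ?_, Int.toNat_of_nonneg hr0⟩
    rw [Finset.mem_range]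
    omega
  · rw [mem_Lj] at hv ⊢
    have h1 : -r = (J : ℤ) * (j / J) + (-j) := by
      have := Int.emod_add_mul_ediv j J
      rw [hr]
      linarith
    have h2 : (B ^ (-r)) v = c ^ (j / J) • (B ^ (-j)) v := by
      rw [h1, ← zpow_apply_add, zpow_mul]
      exact scalar_zpow hc0 h _ _
    rw [h2]
    have h3 : c ^ (j / J) = 1 ∨ c ^ (j / J) = -1 := by
      apply abs_one_cases
      rw [abs_zpow, hc, one_zpow]
    rcases h3 with h3 | h3
    · rw [h3, one_smul]
      exact hv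
    · rw [h3, neg_one_smul]
      exact (dualL γ).neg_mem hv

/-- iterates -/
theorem iterate_zpow (M : E ≃L[ℝ] E) (k : ℕ) (x : E) : (⇑M)^[k] x = (M ^ (k : ℤ)) x := by
  induction k generalizing x with
  | zero =>
    rw [Function.iterate_zero, Nat.cast_zero, zpow_zero]
    rfl
  | succ k ih =>
    rw [Function.iterate_succ_apply, ih, Nat.cast_succ, zpow_add_one]
    rfl

theorem int_powers {C : E → E} {a b : ℤ} (hC : ∀ x, C (C x) = (a : ℝ) • x + (b : ℝ) • C x)
    {d : ℕ} (hd : ∀ w ∈ dualL γ, (d : ℝ) • C w ∈ dualL γ) (k : ℕ) :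
    ∀ w ∈ dualL γ, (d : ℝ) • C^[k] w ∈ dualL γ ∧ (d : ℝ) • C^[k + 1] w ∈ dualL γ := by
  induction k with
  | zero =>
    intro w hw
    refine ⟨?_, ?_⟩
    · rw [Function.iterate_zero, id, Nat.cast_smul_eq_nsmul]
      exact (dualL γ).nsmul_mem hw d
    · exact hd w hw
  | succ k ih =>
    intro w hw
    obtain ⟨h1, h2⟩ := ih w hw
    refine ⟨h2, ?_⟩
    have h3 : C^[k + 1 + 1] w = (a : ℝ) • C^[k] w + (b : ℝ) • C^[k + 1] w := by
      rw [Function.iterate_succ_apply', Function.iterate_succ_apply', hC]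
    rw [h3, smul_add, smul_comm (d : ℝ) (a : ℝ), smul_comm (d : ℝ) (b : ℝ),
      Int.cast_smul_eq_zsmul, Int.cast_smul_eq_zsmul]
    exact (dualL γ).add_mem ((dualL γ).zsmul_mem h1 a) ((dualL γ).zsmul_mem h2 b)

theorem exists_clear (M : E ≃L[ℝ] E) (hM : ∀ z ∈ VQ γ, M z ∈ VQ γ) :
    ∃ d : ℕ, 0 < d ∧ ∀ w ∈ dualL γ, (d : ℝ) • M w ∈ dualL γ := by
  let e : Fin 2 → E := fun i => (coordT γ).symm (Pi.single i 1)
  have he : ∀ i, e i ∈ VQ γ := by
    intro i l
    rw [← coordT_apply, ContinuousLinearEquiv.apply_symm_apply]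
    by_cases h : l = i
    · subst h
      simpa using isRat_one
    · rw [Pi.single_eq_of_ne h]
      exact ⟨0, by simp⟩
  choose N hN0 hN using fun i => VQ_clear (hM _ (he i))
  refine ⟨N 0 * N 1, Nat.mul_pos (hN0 0) (hN0 1), fun w hw => ?_⟩
  obtain ⟨p, hp⟩ := mem_dualL.mp hw 0
  obtain ⟨q, hq⟩ := mem_dualL.mp hw 1
  have hwe : w = (p : ℝ) • e 0 + (q : ℝ) • e 1 := by
    apply ext_inner_basis γ
    intro i
    rw [inner_add_right, real_inner_smul_right, real_inner_smul_right]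
    simp only [e, ← coordT_apply γ (_ : E), ContinuousLinearEquiv.apply_symm_apply]
    fin_cases i
    · change coordT γ w 0 = _
      rw [coordT_apply, hp]
      simp
    · change coordT γ w 1 = _
      rw [coordT_apply, hq]
      simp
  have h1 : ((N 0 * N 1 : ℕ) : ℝ) • M w = (p * N 1 : ℤ) • ((N 0 : ℝ) • M (e 0)) +
      (q * N 0 : ℤ) • ((N 1 : ℝ) • M (e 1)) := by
    rw [hwe, map_add, map_smul, map_smul, ← Int.cast_smul_eq_zsmul ℝ, ← Int.cast_smul_eq_zsmul ℝ]
    push_cast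
    module
  rw [h1]
  exact (dualL γ).add_mem ((dualL γ).zsmul_mem (hN 0) _) ((dualL γ).zsmul_mem (hN 1) _)

theorem noShort_of_integral (hB : adet B = 1) (hne : NoEig γ B) {m : ℤ} (hm : m ≠ 0)
    (hp : Pres γ B m) {a b : ℤ} (ha : |(a : ℝ)| = 1)
    (hrel : ∀ x, (B ^ m) ((B ^ m) x) = (a : ℝ) • x + (b : ℝ) • (B ^ m) x) : NoShort γ B := by
  obtain ⟨d, hd0, hd⟩ := exists_clear (γ := γ) (B ^ m) hp
  obtain ⟨d', hd'0, hd'⟩ := exists_clear (γ := γ) (B ^ (-m)) (pres_neg hB hne hp)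
  have hrel' : ∀ x, (B ^ (-m)) ((B ^ (-m)) x)
      = (a : ℝ) • x + ((-a * b : ℤ) : ℝ) • (B ^ (-m)) x := by
    intro x
    rw [rel_inv_quad ha hrel x]
    push_cast
    rfl
  have hall : ∀ q : ℤ, ∀ w ∈ dualL γ, ((d * d' : ℕ) : ℝ) • (B ^ (m * q)) w ∈ dualL γ := by
    intro q w hw
    rcases le_or_gt 0 q with hq | hq
    · obtain ⟨k, rfl⟩ := Int.eq_ofNat_of_zero_le hq
      have h1 := (int_powers (γ := γ) hrel hd k w hw).1
      rw [iterate_zpow, ← zpow_mul] at h1
      have h2 : ((d * d' : ℕ) : ℝ) • (B ^ (m * (k : ℤ))) w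
          = d' • ((d : ℝ) • (B ^ (m * (k : ℤ))) w) := by
        rw [← Nat.cast_smul_eq_nsmul ℝ]
        push_cast
        module
      rw [h2]
      exact (dualL γ).nsmul_mem h1 d'
    · obtain ⟨k, hk⟩ := Int.eq_ofNat_of_zero_le (show 0 ≤ -q by omega)
      have h1 := (int_powers (γ := γ) hrel' hd' k w hw).1
      rw [iterate_zpow, ← zpow_mul] at h1
      have h3 : m * q = -m * (k : ℤ) := by
        rw [← hk]
        ring
      have h2 : ((d * d' : ℕ) : ℝ) • (B ^ (m * q)) w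
          = d • ((d' : ℝ) • (B ^ (-m * (k : ℤ))) w) := by
        rw [← Nat.cast_smul_eq_nsmul ℝ, h3]
        push_cast
        module
      rw [h2]
      exact (dualL γ).nsmul_mem h1 d
  have hdd : (0 : ℝ) < ((d * d' : ℕ) : ℝ) := by exact_mod_cast Nat.mul_pos hd0 hd'0
  set M := m.natAbs with hM
  have hM0 : (0 : ℤ) < M := by omega
  obtain ⟨ε, hε, hdisc⟩ := Lj_discrete_finite γ B ((Finset.range M).image (fun r : ℕ => (r : ℤ)))
  refine ⟨ε / ((d * d' : ℕ) : ℝ), by positivity, fun j v hv hv0 => ?_⟩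
  set r := j % m with hr
  have hr0 : 0 ≤ r := Int.emod_nonneg j hm
  have hr1 : r < M := by
    have := Int.emod_lt_abs j hm
    rwa [Int.abs_eq_natAbs] at this
  have h2 : (B ^ (-r)) v = (B ^ (m * (j / m))) ((B ^ (-j)) v) := by
    rw [zpow_apply_add]
    congr 2
    have := Int.emod_add_mul_ediv j m
    rw [hr]
    linarith
  have h1 := hdisc r (by
    rw [Finset.mem_image]
    refine ⟨r.toNat, ?_, Int.toNat_of_nonneg hr0⟩
    rw [Finset.mem_range]
    omega) (((d * d' : ℕ) : ℝ) • v) (by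
    rw [mem_Lj, map_smul, h2]
    exact hall _ _ (mem_Lj.mp hv)) (smul_ne_zero hdd.ne' hv0)
  rw [norm_smul, Real.norm_of_nonneg hdd.le] at h1
  rw [div_le_iff₀ hdd, mul_comm]
  exact h1

theorem tail_quad (h : IsONB (volume : Measure E) (fam γ B φ)) {m : ℤ} (hm : m ≠ 0) {a b : ℚ}
    (ha : a = 1 ∨ a = -1) (hb : ∀ K : ℤ, b ≠ K)
    (hrel : ∀ x, (B ^ m) ((B ^ m) x) = (a : ℝ) • x + (b : ℝ) • (B ^ m) x)
    (hne : ∀ v ∈ dualL γ, v ≠ 0 → Df γ v ((B ^ m) v) ≠ 0) :
    TailOK γ B φ {j | ∃ k : ℕ, j = -m * ((k : ℤ) + 1)} := by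
  have hM : 0 < m.natAbs := Int.natAbs_pos.mpr hm
  have habs : ∀ k : ℕ, (-m * ((k : ℤ) + 1)).natAbs = m.natAbs * (k + 1) := by
    intro k
    rw [Int.natAbs_mul, Int.natAbs_neg]
    congr 1
  have hit : ∀ (k : ℕ) (w : E), (⇑(B ^ m))^[k + 1] w = (B ^ (-(-m * ((k : ℤ) + 1)))) w := by
    intro k w
    rw [iterate_zpow, ← zpow_mul]
    congr 2
    push_cast
    ring
  refine tailOK_of_F1 h _ (fun J => AddSubgroup.closure {w | w ∈ dualL γ ∧ ∃ k : ℕ,
    J ≤ m.natAbs * (k + 1) ∧ (⇑(B ^ m))^[k + 1] w ∈ dualL γ}) ?_ ?_ ?_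
  · intro J J' hJJ'
    apply AddSubgroup.closure_mono
    rintro w ⟨hw, k, hk, hw2⟩
    exact ⟨hw, k, hJJ'.trans hk, hw2⟩
  · intro v hv hall
    refine quad_inter (γ := γ) (C := ⇑(B ^ m)) ha hb hrel (fun x y => map_add _ x y) hne hv
      (fun K => ?_)
    have h1 := hall (m.natAbs * (K + 1))
    refine AddSubgroup.closure_mono ?_ h1
    rintro w ⟨hw, k, hk, hw2⟩
    refine ⟨hw, k, ?_, hw2⟩
    have := Nat.le_of_mul_le_mul_left hk hM
    omega
  · rintro j ⟨k, rfl⟩ J hJ v hv hvj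
    apply AddSubgroup.subset_closure
    rw [habs] at hJ
    refine ⟨hv, k, hJ, ?_⟩
    rw [hit]
    exact mem_Lj.mp hvj

theorem tail_quad_union (hφm : Measurable φ) (h : IsONB (volume : Measure E) (fam γ B φ))
    (hB : adet B = 1) (hne : NoEig γ B) {m : ℤ} (hm : m ≠ 0) (hpm : Pres γ B m)
    (hgen : ∀ j, Pres γ B j → m ∣ j) {α β : ℝ} (hα : |α| = 1) (hβ : IsRat β)
    (hβZ : ∀ K : ℤ, β ≠ K)
    (hrel : ∀ x, (B ^ m) ((B ^ m) x) = α • x + β • (B ^ m) x) :
    TailOK γ B φ {j | j ≠ 0} := by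
  obtain ⟨b, hb⟩ := hβ
  obtain ⟨a, ha, haα⟩ : ∃ a : ℚ, (a = 1 ∨ a = -1) ∧ α = a := by
    rcases abs_one_cases hα with h1 | h1
    · exact ⟨1, Or.inl rfl, by rw [h1]; simp⟩
    · exact ⟨-1, Or.inr rfl, by rw [h1]; simp⟩
  have hbZ : ∀ K : ℤ, b ≠ K := by
    intro K hK
    apply hβZ K
    rw [hb, hK]
    simp
  have hrel2 : ∀ x, (B ^ m) ((B ^ m) x) = (a : ℝ) • x + (b : ℝ) • (B ^ m) x := by
    intro x
    rw [hrel x, haα, hb]
  have hrel3 : ∀ x, (B ^ (-m)) ((B ^ (-m)) x)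
      = (a : ℝ) • x + (((-a * b : ℚ)) : ℝ) • (B ^ (-m)) x := by
    intro x
    rw [rel_inv_quad hα hrel x, haα, hb]
    push_cast
    rfl
  have hab : ∀ K : ℤ, -a * b ≠ K := by
    intro K hK
    rcases ha with rfl | rfl
    · apply hbZ (-K)
      push_cast
      linarith
    · apply hbZ K
      linarith
  have hD : ∀ j : ℤ, j ≠ 0 → ∀ v ∈ dualL γ, v ≠ 0 → Df γ v ((B ^ j) v) ≠ 0 :=
    fun j hj v hv hv0 => Df_ne hne (dualL_sub_VQ hv) hv0 hj
  have h1 := tail_quad h hm ha hbZ hrel2 (hD m hm)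
  have h2 := tail_quad h (neg_ne_zero.mpr hm) ha hab hrel3 (hD (-m) (neg_ne_zero.mpr hm))
  have h3 : TailOK γ B φ {j | ¬ Pres γ B j} := by
    refine tailOK_of_F2 hφm h _ ?_ 0 ?_
    · intro h0
      exact h0 (presGroup hB hne).zero_mem
    · intro v hv hv0
      have hempty : ({j | j ∈ {j : ℤ | ¬ Pres γ B j} ∧ v ∈ Lj γ B j} : Set ℤ) = ∅ := by
        ext j
        simp only [Set.mem_empty_iff_false, iff_false]
        rintro ⟨hj, hvj⟩
        exact not_mem_of_not_pres hB hne hm hpm hj (dualL_sub_VQ hv) hv0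
          (dualL_sub_VQ (mem_Lj.mp hvj))
      rw [hempty, Set.encard_empty]
      exact zero_le
  refine ((h1.union h2).union h3).mono ?_
  intro j hj
  have hj' : j ≠ 0 := hj
  by_cases hp : Pres γ B j
  · left
    obtain ⟨q, hq⟩ := hgen j hp
    have hq0 : q ≠ 0 := by
      rintro rfl
      exact hj' (by rw [hq, mul_zero])
    rcases lt_or_gt_of_ne hq0 with h4 | h4
    · left
      refine ⟨(-q - 1).toNat, ?_⟩
      rw [Int.toNat_of_nonneg (by omega), hq]
      ring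
    · right
      refine ⟨(q - 1).toNat, ?_⟩
      rw [Int.toNat_of_nonneg (by omega), hq]
      ring
  · exact Or.inr hp

/-- the arithmetic trichotomy for volume preserving planar maps without rational eigenvectors -/
theorem det_one_cases {φ : E → ℂ} (hφm : Measurable φ)
    (h : IsONB (volume : Measure E) (fam γ B φ)) (hB : adet B = 1)
    (hno : ∀ v ∈ dualL γ, v ≠ 0 → ∀ c : ℝ, B v ≠ c • v) :
    NoShort γ B ∨ TailOK γ B φ {j | j ≠ 0} := by
  classical
  by_cases hsc : ∃ j : ℤ, j ≠ 0 ∧ ∃ c : ℝ, ∀ x, (B ^ j) x = c • x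
  · left
    obtain ⟨j, hj, c, hc⟩ := hsc
    have hc0 : c ≠ 0 := by
      rintro rfl
      obtain ⟨v, -, hv0⟩ := exists_VQ γ
      have := hc v
      rw [zero_smul] at this
      exact hv0 ((B ^ j).map_eq_zero_iff.mp this)
    refine noShort_of_scalar γ hB (J := j.natAbs) (by omega)
      (c := if 0 < j then c else c⁻¹) (fun x => ?_)
    split_ifs with hpos
    · have : (j.natAbs : ℤ) = j := by omega
      rw [this]
      exact hc x
    · have : (j.natAbs : ℤ) = -j := by omega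
      rw [this]
      have h1 := scalar_zpow hc0 hc (-1) x
      rw [← zpow_mul, mul_neg_one, zpow_neg_one] at h1
      exact h1
  · push Not at hsc
    have hne : NoEig γ B := by
      intro j hj v hv hv0 c hcv
      have hd : Df γ v (B v) ≠ 0 := by
        intro hd
        obtain ⟨t, ht⟩ := eq_smul_of_Df hv0 hd
        obtain ⟨N, hN, hNv⟩ := VQ_clear hv
        have hN' : (N : ℝ) ≠ 0 := by exact_mod_cast hN.ne'
        apply hno _ hNv (smul_ne_zero hN' hv0) t
        rw [map_smul, ht, smul_comm]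
      obtain ⟨x, hx⟩ := hsc j hj c
      apply hx
      have hcomm : (B ^ j) (B v) = c • B v := by
        have h1 : (B ^ j) ((B ^ (1 : ℤ)) v) = (B ^ (1 : ℤ)) ((B ^ j) v) := by
          rw [zpow_apply_add, zpow_apply_add, add_comm]
        rw [zpow_one] at h1
        rw [h1, hcv, map_smul]
      have h4 := Df_cramer (γ := γ) v (B v) x
      have h3 := congrArg (fun z => (Df γ v (B v))⁻¹ • z) h4
      simp only [smul_add, smul_smul] at h3
      rw [inv_mul_cancel₀ hd, one_smul] at h3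
      obtain ⟨p, hp⟩ : ∃ p, p = (Df γ v (B v))⁻¹ * Df γ x (B v) := ⟨_, rfl⟩
      obtain ⟨q, hq⟩ : ∃ q, q = (Df γ v (B v))⁻¹ * Df γ v x := ⟨_, rfl⟩
      rw [← hp, ← hq] at h3
      rw [h3, map_add, map_smul, map_smul, hcv, hcomm]
      module
    obtain ⟨m, hm⟩ := Int.subgroup_cyclic (presGroup hB hne)
    have hgen : ∀ j, Pres γ B j → m ∣ j := by
      intro j hj
      have h1 : j ∈ presGroup hB hne := hj
      rw [hm, AddSubgroup.mem_closure_singleton] at h1
      obtain ⟨q, hq⟩ := h1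
      exact ⟨q, by rw [← hq, smul_eq_mul, mul_comm]⟩
    have hpm : Pres γ B m := by
      have h1 : m ∈ presGroup hB hne := by
        rw [hm]
        exact AddSubgroup.subset_closure rfl
      exact h1
    rcases eq_or_ne m 0 with hm0 | hm0
    · right
      refine tailOK_of_F2 hφm h _ (by simp) 1 ?_
      intro v hv hv0
      rw [Nat.cast_one, Set.encard_le_one_iff]
      rintro j k ⟨hj, hvj⟩ ⟨hk, hvk⟩
      have hj' : j ≠ 0 := hj
      have hk' : k ≠ 0 := hk
      by_contra hjk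
      obtain ⟨h1, -⟩ := two_idx hB hne (dualL_sub_VQ hv) hv0 (neg_ne_zero.mpr hj')
        (neg_ne_zero.mpr hk') (fun h => hjk (neg_injective h)) (dualL_sub_VQ (mem_Lj.mp hvj))
        (dualL_sub_VQ (mem_Lj.mp hvk))
      have h2 := hgen _ h1
      rw [hm0, zero_dvd_iff] at h2
      omega
    · obtain ⟨α, β, hα, hβ, hrel⟩ := pres_rel hB hne hm0 hpm
      by_cases hβZ : ∃ K : ℤ, β = K
      · left
        obtain ⟨b, hb⟩ := hβZ
        obtain ⟨a, ha⟩ : ∃ a : ℤ, α = a := by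
          rcases abs_one_cases hα with h1 | h1
          · exact ⟨1, by rw [h1]; simp⟩
          · exact ⟨-1, by rw [h1]; simp⟩
        rw [ha] at hα
        rw [ha, hb] at hrel
        exact noShort_of_integral hB hne hm0 hpm hα hrel
      · right
        push Not at hβZ
        exact tail_quad_union hφm h hB hne hm0 hpm hgen hα hβ hβZ hrel

end Pool.Agent.Lib_helper44
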