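import Mathlib
import Pool.Agent.Lib_helper44.N2Det1
import Pool.Agent.Lib_helper44.Classify

open MeasureTheory Filter Topology Complex Module FourierTransform
open scoped ENNReal NNReal ComplexConjugate InnerProductSpace

set_option linter.unusedSectionVars false

namespace Pool.Agent.Lib_helper44

theorem noShort_of_eig {E : Type*} [NormedAddCommGroup E] [InnerProductSpace ℝ E]
    [FiniteDimensional ℝ E] [MeasurableSpace E] [BorelSpace E]
    {γ : Basis (Fin 2) ℝ E} {B : E ≃L[ℝ] E} {lam mu : ℝ} (hl : |lam| = 1) (hm : |mu| = 1)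
    (h0 : ∀ x, ⟪γ 0, B x⟫_ℝ = lam * ⟪γ 0, x⟫_ℝ) {v : E} (hv0 : v ≠ 0)
    (hv : ⟪γ 0, v⟫_ℝ = 0) (hBv : B v = mu • v) : NoShort γ B := by
  obtain ⟨ε, hε, hd⟩ := dualL_discrete γ
  have hγ0 : 0 < ‖γ 0‖ := norm_pos_iff.mpr (γ.ne_zero 0)
  have hl0 : lam ≠ 0 := by
    rintro rfl
    rw [abs_zero] at hl
    exact zero_ne_one hl
  have hm0 : mu ≠ 0 := by
    rintro rfl
    rw [abs_zero] at hm
    exact zero_ne_one hm
  refine ⟨min ε (‖γ 0‖)⁻¹, lt_min hε (by positivity), fun j w hw hw0 => ?_⟩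
  have h1 := functional_zpow (B := B) (f := fun x => ⟪γ 0, x⟫_ℝ) hl0 h0 (-j) w
  have hwj := mem_Lj.mp hw
  obtain ⟨q, hq⟩ := mem_dualL.mp hwj 0
  by_cases hz : ⟪γ 0, w⟫_ℝ = 0
  · refine (min_le_left _ _).trans ?_
    have hD : Df γ v w = 0 := by
      unfold Df
      rw [hv, hz]
      ring
    obtain ⟨c, hc⟩ := eq_smul_of_Df hv0 hD
    have h2 : (B ^ (-j)) w = mu ^ (-j) • w := by
      rw [hc, map_smul]
      have h3 : (B ^ (-j)) v = mu ^ (-j) • v := by
        apply ext_inner_left ℝ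
        intro y
        rw [real_inner_smul_right]
        have h5 : ∀ q : ℤ, (B ^ q) v = mu ^ q • v := by
          have hup : ∀ k : ℕ, (B ^ (k : ℤ)) v = mu ^ (k : ℤ) • v := by
            intro k
            induction k with
            | zero =>
              rw [Nat.cast_zero, zpow_zero, zpow_zero, one_smul]
              rfl
            | succ k ih =>
              have : (B ^ ((k + 1 : ℕ) : ℤ)) v = (B ^ (k : ℤ)) (B v) := by
                rw [Nat.cast_succ, zpow_add_one]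
                rfl
              rw [this, hBv, map_smul, ih, smul_smul, Nat.cast_succ, zpow_add_one₀ hm0, mul_comm]
          intro q
          obtain ⟨k, rfl | rfl⟩ := Int.eq_nat_or_neg q
          · exact hup k
          · have h6 := congrArg (B ^ (-(k : ℤ))) (hup k)
            rw [zpow_apply_neg, map_smul] at h6
            have h7 := congrArg (fun z => mu ^ (-(k : ℤ)) • z) h6
            simp only [smul_smul] at h7
            rw [← zpow_add₀ hm0, neg_add_cancel, zpow_zero, one_smul] at h7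
            exact h7.symm
        rw [h5, real_inner_smul_right]
      rw [h3, smul_comm]
    have h3 : ‖w‖ = ‖(B ^ (-j)) w‖ := by
      rw [h2, norm_smul, Real.norm_eq_abs, abs_zpow, hm, one_zpow, one_mul]
    rw [h3]
    apply hd _ hwj
    rw [← norm_ne_zero_iff, ← h3, norm_ne_zero_iff]
    exact hw0
  · refine (min_le_right _ _).trans ?_
    have h2 : |⟪γ 0, w⟫_ℝ| = |(q : ℝ)| := by
      rw [← hq, h1, abs_mul, abs_zpow, hl, one_zpow, one_mul]
    have hq0 : q ≠ 0 := by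
      rintro rfl
      rw [Int.cast_zero, abs_zero, abs_eq_zero] at h2
      exact hz h2
    have h3 : (1 : ℝ) ≤ |⟪γ 0, w⟫_ℝ| := by
      rw [h2, ← Int.cast_abs]
      exact_mod_cast Int.one_le_abs hq0
    have h4 : |⟪γ 0, w⟫_ℝ| ≤ ‖γ 0‖ * ‖w‖ := abs_real_inner_le_norm _ _
    rw [inv_le_iff_one_le_mul₀ hγ0, mul_comm]
    exact h3.trans h4

theorem exists_zbasis {n : ℕ} (Γ : Submodule ℤ (EuclideanSpace ℝ (Fin n)))
    [DiscreteTopology Γ] [IsZLattice ℝ Γ] :
    ∃ (γ : Basis (Fin n) ℝ (EuclideanSpace ℝ (Fin n))) (e : (Fin n → ℤ) ≃ Γ),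
      ∀ k, (e k : EuclideanSpace ℝ (Fin n)) = kv γ k := by
  have : Module.Free ℤ Γ := ZLattice.module_free ℝ Γ
  have : Module.Finite ℤ Γ := ZLattice.module_finite ℝ Γ
  have hr : finrank ℤ Γ = n := by
    rw [ZLattice.rank ℝ Γ]
    simp
  let b : Basis (Fin n) ℤ Γ := Module.finBasisOfFinrankEq ℤ Γ hr
  refine ⟨b.ofZLatticeBasis ℝ Γ, b.equivFun.symm.toEquiv, fun k => ?_⟩
  change ((b.equivFun.symm k : Γ) : EuclideanSpace ℝ (Fin n)) = _
  rw [Basis.equivFun_symm_apply]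
  unfold kv
  push_cast
  apply Finset.sum_congr rfl
  intro i _
  rw [Basis.ofZLatticeBasis_apply, Int.cast_smul_eq_zsmul]

theorem wavelet_rep {n : ℕ} (A : GL (Fin n) ℝ)
    (Γ : Submodule ℤ (EuclideanSpace ℝ (Fin n)))
    (γ : Basis (Fin n) ℝ (EuclideanSpace ℝ (Fin n))) (e : (Fin n → ℤ) ≃ Γ)
    (he : ∀ k, (e k : EuclideanSpace ℝ (Fin n)) = kv γ k) (h : HasWavelet A Γ) :
    ∃ φ : EuclideanSpace ℝ (Fin n) → ℂ, Measurable φ ∧
      IsONB (volume : Measure (EuclideanSpace ℝ (Fin n))) (fam γ (glE (glT A)) φ) := by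
  obtain ⟨ψ, hψ⟩ := h
  have h1 := (wavelet_iff_fam A Γ γ e he ψ).mp hψ
  set f : Lp ℂ 2 (volume : Measure (EuclideanSpace ℝ (Fin n))) := 𝓕 ψ with hf
  set φ := (Lp.memLp f).1.mk f with hφ
  have hmeas : Measurable φ := (Lp.memLp f).1.stronglyMeasurable_mk.measurable
  have hae : f =ᵐ[volume] φ := (Lp.memLp f).1.ae_eq_mk
  exact ⟨φ, hmeas, h1.congr (fun i => fam_congr hae i)⟩

/-- **no wavelets for planar volume preserving pairs without hyperbolic dual eigenvectors** -/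
theorem no_wavelet_det_one (A : GL (Fin 2) ℝ) (Γ : Lat 2) [DiscreteTopology Γ] [IsZLattice ℝ Γ]
    (hdet : |(A : Matrix (Fin 2) (Fin 2) ℝ).det| = 1)
    (hno : ∀ v μ, DualEigen A Γ v μ → |μ| = 1) : ¬ HasWavelet A Γ := by
  classical
  intro hW
  have hadet2 : adet (glE (glT A)) = 1 := by
    rw [← (isAdj_glE A).adet_eq, adet_glE, hdet]
  by_cases hex : ∃ v μ, DualEigen A Γ v μ
  · obtain ⟨v, μ, hv⟩ := hex
    have hμ := hno v μ hv
    obtain ⟨hv0, hdual, hB⟩ := hv
    have hB' : glE (glT A) v = μ • v := hB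
    obtain ⟨lam, γ, e, hγv, hl, hmu, hadet, he, h0, -⟩ :=
      adapted_basis_ext (glE (glT A)) Γ v hv0 hdual μ hB'
    have hl1 : |lam| = 1 := by
      rw [hadet2, abs_mul, hμ, mul_one] at hadet
      exact hadet.symm
    obtain ⟨φ, hφm, hφ⟩ := wavelet_rep A Γ γ e he hW
    exact no_wavelet_of_noShort hadet2 (noShort_of_eig hl1 hμ h0 hv0 hγv hB') hφ hφm
  · push Not at hex
    obtain ⟨γ, e, he⟩ := exists_zbasis Γ
    obtain ⟨φ, hφm, hφ⟩ := wavelet_rep A Γ γ e he hW
    have hno' : ∀ v ∈ dualL γ, v ≠ 0 → ∀ c : ℝ, glE (glT A) v ≠ c • v := by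
      intro v hv hv0 c hc
      refine hex v c ⟨hv0, ?_, hc⟩
      intro g hg
      obtain ⟨k, hk⟩ := e.surjective ⟨g, hg⟩
      have h2 : g = kv γ k := by rw [← he, hk]
      obtain ⟨p, hp⟩ := mem_dualL.mp hv 0
      obtain ⟨q, hq⟩ := mem_dualL.mp hv 1
      refine ⟨k 0 * p + k 1 * q, ?_⟩
      rw [h2]
      unfold kv
      rw [sum_inner, Fin.sum_univ_two]
      simp only [real_inner_smul_left]
      rw [hp, hq]
      push_cast
      rfl
    rcases det_one_cases hφm hφ hadet2 hno' with h | h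
    · exact no_wavelet_of_noShort hadet2 h hφ hφm
    · exact no_wavelet_of_tail (isAdj_glE A) hadet2 h hφ hφm

end Pool.Agent.Lib_helper44
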