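import Mathlib
import Pool.Agent.Lib_helper44.CritDef
import Pool.Agent.Lib_helper44.NecAbs
import Pool.Agent.Lib_helper44.N2Det1b

open MeasureTheory Filter Topology Complex Module
open scoped ENNReal NNReal ComplexConjugate InnerProductSpace

set_option linter.unusedSectionVars false

namespace Pool.Agent.Lib_helper44

variable {n : ℕ}

theorem inDual_iff {Γ : Lat n} {γ : Basis (Fin n) ℝ (EuclideanSpace ℝ (Fin n))}
    {e : (Fin n → ℤ) ≃ Γ} (he : ∀ k, (e k : EuclideanSpace ℝ (Fin n)) = kv γ k) (v : Sp n) :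
    InDual Γ v ↔ v ∈ dualL γ := by
  classical
  constructor
  · intro h i
    have h1 : (e (Pi.single i 1) : EuclideanSpace ℝ (Fin n)) = γ i := by
      rw [he]
      unfold kv
      rw [Finset.sum_eq_single i]
      · simp
      · intro j _ hj
        rw [Pi.single_eq_of_ne hj]
        simp
      · intro hi
        exact absurd (Finset.mem_univ i) hi
    have h2 := h (e (Pi.single i 1)) (e (Pi.single i 1)).2
    rwa [h1] at h2
  · intro h g hg
    obtain ⟨k, hk⟩ := e.surjective ⟨g, hg⟩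
    have h2 : g = kv γ k := by rw [← he, hk]
    choose p hp using mem_dualL.mp h
    refine ⟨∑ i, k i * p i, ?_⟩
    rw [h2, inner_kv]
    push_cast
    apply Finset.sum_congr rfl
    intro i _
    rw [hp i]

theorem actT_zpow (A : GL (Fin n) ℝ) (j : ℤ) (v : Sp n) :
    actT (A ^ j) v = ((glE (glT A)) ^ j) v := by
  rw [actT_eq, ← map_zpow, glT_zpow]

theorem actT_pow (A : GL (Fin n) ℝ) (k : ℕ) (v : Sp n) :
    actT (A ^ k) v = ((glE (glT A)) ^ (k : ℤ)) v := by
  rw [← actT_zpow, zpow_natCast]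

theorem actT_inv_pow (A : GL (Fin n) ℝ) (k : ℕ) (v : Sp n) :
    actT (A⁻¹ ^ k) v = ((glE (glT A)) ^ (-(k : ℤ))) v := by
  rw [← actT_zpow, zpow_neg, zpow_natCast, inv_pow]

theorem glE_glT_inv (A : GL (Fin n) ℝ) : glE (glT A⁻¹) = (glE (glT A))⁻¹ := by
  have h := glT_zpow A (-1)
  rw [zpow_neg_one, zpow_neg_one] at h
  rw [← h, map_inv]

theorem mem_RQ_iff {γ : Basis (Fin n) ℝ (EuclideanSpace ℝ (Fin n))}
    {B : EuclideanSpace ℝ (Fin n) ≃L[ℝ] EuclideanSpace ℝ (Fin n)} {q C : ℕ}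
    (hq : GoodQ B (dualL γ) q C) (v : EuclideanSpace ℝ (Fin n)) :
    v ∈ RQ B (dualL γ) q ↔ v ∈ dualL γ ∧ ∃ q' N : ℕ, 0 < q' ∧ 0 < N ∧
      ∀ k : ℕ, N • (B ^ (-((q' * k : ℕ) : ℤ))) v ∈ dualL γ := by
  classical
  constructor
  · rintro ⟨hv, -, N, hN, h⟩
    refine ⟨hv, q, N, hq.1, hN, fun k => ?_⟩
    have := h k
    push_cast
    exact this
  · rintro ⟨hv, q', N, hq', hN, h⟩
    have hX0 : v ∈ X0 B (dualL γ) q := by
      rcases hq.2 v with h1 | h1
      · exact h1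
      · exfalso
        have hinf : ({k : ℤ | (B ^ ((q : ℤ) * k)) v ∈ QV (dualL γ)} : Set ℤ).Infinite := by
          have h2 : Set.range (fun m : ℕ => -((q' : ℤ) * m)) ⊆
              ({k : ℤ | (B ^ ((q : ℤ) * k)) v ∈ QV (dualL γ)} : Set ℤ) := by
            rintro _ ⟨m, rfl⟩
            refine ⟨N, hN, ?_⟩
            have h3 := h (q * m)
            have h4 : -(((q' * (q * m) : ℕ)) : ℤ) = (q : ℤ) * -((q' : ℤ) * m) := by
              push_cast
              ring
            rwa [h4] at h3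
          refine Set.Infinite.mono h2 (Set.infinite_range_of_injective ?_)
          intro a b hab
          simp only [neg_inj] at hab
          have h5 : (q' : ℤ) ≠ 0 := by exact_mod_cast hq'.ne'
          exact_mod_cast mul_left_cancel₀ h5 hab
        rw [← Set.encard_eq_top_iff] at hinf
        rw [hinf] at h1
        exact absurd h1 (by simp)
    refine ⟨hv, hX0, ?_⟩
    obtain ⟨N₁, hN₁, h1⟩ := fg_common (κ := Fin q') (Λ := dualL γ)
      (dualL_fg γ (dualL γ ⊓ X0 B (dualL γ) q) inf_le_left)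
      (fun i => B ^ (-((q : ℤ) * (i : ℕ)))) (by
        rintro g ⟨-, hg⟩
        obtain ⟨M, hM, h2⟩ := exists_common (Λ := dualL γ)
          (f := fun m : ℕ => (B ^ (-((q : ℤ) * m))) g) (fun m => by
            have := hg (-(m : ℤ))
            rwa [mul_neg] at this) q'
        exact ⟨M, hM, fun i => h2 i i.2⟩)
    refine ⟨N₁ * N, Nat.mul_pos hN₁ hN, fun k => ?_⟩
    have hdm := Nat.mod_add_div k q'
    have hlt : k % q' < q' := Nat.mod_lt _ hq'
    have h2 : N • (B ^ (-((q : ℤ) * (q' * (k / q') : ℕ)))) v ∈ dualL γ ⊓ X0 B (dualL γ) q := by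
      refine ⟨?_, ?_⟩
      · have h3 := h (q * (k / q'))
        have h4 : -(((q' * (q * (k / q')) : ℕ)) : ℤ) = -((q : ℤ) * (q' * (k / q') : ℕ)) := by
          push_cast
          ring
        rwa [h4] at h3
      · apply (X0 B (dualL γ) q).nsmul_mem
        have h3 := X0_stable (-((q' * (k / q') : ℕ) : ℤ)) hX0
        rwa [mul_neg] at h3
    have h3 := h1 _ h2 ⟨k % q', hlt⟩
    simp only at h3
    rw [map_nsmul, zcomp, ← mul_smul] at h3
    have h4 : -((q : ℤ) * ((k % q' : ℕ) : ℤ)) + -((q : ℤ) * (q' * (k / q') : ℕ))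
        = -((q : ℤ) * k) := by
      have h5 : (k : ℤ) = ((k % q' + q' * (k / q') : ℕ) : ℤ) := by rw [hdm]
      rw [h5]
      push_cast
      ring
    rwa [h4] at h3

theorem inR_iff {A : GL (Fin n) ℝ} {Γ : Lat n}
    {γ : Basis (Fin n) ℝ (EuclideanSpace ℝ (Fin n))}
    {e : (Fin n → ℤ) ≃ Γ} (he : ∀ k, (e k : EuclideanSpace ℝ (Fin n)) = kv γ k) {q C : ℕ}
    (hq : GoodQ (glE (glT A)) (dualL γ) q C) (v : Sp n) :
    InR A Γ v ↔ v ∈ RQ (glE (glT A)) (dualL γ) q := by
  rw [mem_RQ_iff hq]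
  unfold InR
  simp only [inDual_iff he, actT_inv_pow, Nat.cast_smul_eq_nsmul]

/-- the failure of the criterion, in the abstract form -/
theorem negC_of_not_endCond {A : GL (Fin n) ℝ} {Γ : Lat n}
    {γ : Basis (Fin n) ℝ (EuclideanSpace ℝ (Fin n))}
    {e : (Fin n → ℤ) ≃ Γ} (he : ∀ k, (e k : EuclideanSpace ℝ (Fin n)) = kv γ k) {q C : ℕ}
    (hq : GoodQ (glE (glT A)) (dualL γ) q C) (h : ¬ EndCond A Γ) :
    NegC (glE (glT A)) (dualL γ) (RQ (glE (glT A)) (dualL γ) q) := by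
  classical
  set B := glE (glT A) with hB
  have hadet : adet B = |(A : Matrix (Fin n) (Fin n) ℝ).det| := by
    rw [← (isAdj_glE A).adet_eq, adet_glE]
  have hfinΛ : ∀ k : ℕ, ({v | v ∈ dualL γ ∧ ‖(B ^ (k : ℤ)) v‖ < 1} : Set (Sp n)).Finite := by
    intro k
    apply (finite_lattice_dil γ B k 1).subset
    rintro v ⟨hv, hv1⟩
    exact ⟨hv, hv1.le⟩
  have hco : ∀ k : ℕ, nco B (dualL γ) (RQ B (dualL γ) q) k = (cosetCount A Γ k : ℕ∞) := by
    intro k
    unfold cosetCount nco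
    have h1 : ({v : Sp n | InDual Γ v ∧ ‖actT (A ^ k) v‖ < 1} : Set (Sp n))
        = {v | v ∈ dualL γ ∧ ‖(B ^ (k : ℤ)) v‖ < 1} := by
      ext v
      simp only [Set.mem_ofPred_eq]
      rw [inDual_iff he, actT_pow]
    have h2 : (fun v : Sp n => {w : Sp n | InR A Γ (w - v)})
        = fun v : Sp n => ({w | w - v ∈ RQ B (dualL γ) q} : Set (Sp n)) := by
      ext v w
      simp only [Set.mem_ofPred_eq]
      exact inR_iff he hq _
    rw [h1, h2, ((hfinΛ k).image _).cast_ncard_eq]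
  have hsh : ∀ k : ℕ, cn B (RQ B (dualL γ) q) k (1 / 2) ≤ (shortCount A Γ k : ℕ∞) := by
    intro k
    unfold shortCount cn
    have h1 : ({v : Sp n | InR A Γ v ∧ ‖actT (A ^ k) v‖ < 1} : Set (Sp n))
        = {v | v ∈ RQ B (dualL γ) q ∧ ‖(B ^ (k : ℤ)) v‖ < 1} := by
      ext v
      simp only [Set.mem_ofPred_eq]
      rw [inR_iff he hq, actT_pow]
    have h2 : ({v | v ∈ RQ B (dualL γ) q ∧ ‖(B ^ (k : ℤ)) v‖ < 1} : Set (Sp n)).Finite := by
      apply (hfinΛ k).subset
      rintro v ⟨hv, hv1⟩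
      exact ⟨hv.1, hv1⟩
    rw [h1, h2.cast_ncard_eq]
    apply Set.encard_le_encard
    rintro v ⟨hv, hv1⟩
    exact ⟨hv, hv1.trans_lt (by norm_num)⟩
  unfold EndCond at h
  rw [not_and_or, not_not] at h
  rcases h with h | h
  · left
    have h1 : ∀ k : ℕ, ((nco B (dualL γ) (RQ B (dualL γ) q) k : ℕ∞) : ℝ≥0∞)⁻¹
        = ENNReal.ofReal ((1 : ℝ) / cosetCount A Γ k) := by
      intro k
      rw [hco, ENat.toENNReal_coe]
      have h2 : 0 < cosetCount A Γ k := by
        have h3 : nco B (dualL γ) (RQ B (dualL γ) q) k ≠ 0 := by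
          unfold nco
          rw [Set.encard_ne_zero]
          exact ⟨_, 0, ⟨(dualL γ).zero_mem, by rw [map_zero, norm_zero]; exact one_pos⟩, rfl⟩
        rw [hco] at h3
        exact Nat.pos_of_ne_zero (by exact_mod_cast h3)
      rw [one_div, ENNReal.ofReal_inv_of_pos (by exact_mod_cast h2), ENNReal.ofReal_natCast]
    simp only [h1]
    rw [← ENNReal.ofReal_tsum_of_nonneg (fun k => by positivity) h]
    exact ENNReal.ofReal_ne_top
  · right
    push Not at h
    obtain ⟨C', hC'⟩ := h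
    refine ⟨ENNReal.ofReal C', ENNReal.ofReal_ne_top, fun k => ?_⟩
    have h1 : ((cn B (RQ B (dualL γ) q) k (1 / 2) : ℕ∞) : ℝ≥0∞)
        ≤ ENNReal.ofReal (shortCount A Γ k) := by
      rw [ENNReal.ofReal_natCast, ← ENat.toENNReal_coe]
      exact_mod_cast hsh k
    calc ENNReal.ofReal (adet B ^ k) * ((cn B (RQ B (dualL γ) q) k (1 / 2) : ℕ∞) : ℝ≥0∞)
        ≤ ENNReal.ofReal (adet B ^ k) * ENNReal.ofReal (shortCount A Γ k) := by gcongr
      _ = ENNReal.ofReal (adet B ^ k * shortCount A Γ k) := by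
          rw [← ENNReal.ofReal_mul (by have := adet_pos B; positivity)]
      _ ≤ _ := by
          apply ENNReal.ofReal_le_ofReal
          rw [hadet]
          exact hC' k

/-- **Necessity of the end conditions.** -/
theorem necessity [NeZero n] (A : GL (Fin n) ℝ) (Γ : Lat n) [DiscreteTopology Γ] [IsZLattice ℝ Γ]
    (hW : HasWavelet A Γ) : EndCond A Γ ∨ EndCond A⁻¹ Γ := by
  classical
  by_contra hcon
  rw [not_or] at hcon
  obtain ⟨h1, h2⟩ := hcon
  obtain ⟨γ, e, he⟩ := exists_zbasis Γ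
  obtain ⟨φ, hφm, hφ⟩ := wavelet_rep A Γ γ e he hW
  obtain ⟨q, C, hq⟩ := skolem_E (glE (glT A)) (dualL γ) (dualL_fg γ _ le_rfl)
  have hq' : GoodQ (glE (glT A)) (dualL γ) q C := hq
  have hqi := hq'.inv
  have hn := negC_of_not_endCond he hq' h1
  have hn' : NegC (glE (glT A))⁻¹ (dualL γ) (RQ (glE (glT A))⁻¹ (dualL γ) q) := by
    rw [← glE_glT_inv] at hqi ⊢
    exact negC_of_not_endCond he hqi h2
  have hpos : 0 < n := Nat.pos_of_ne_zero (NeZero.ne n)
  have : Nontrivial (EuclideanSpace ℝ (Fin n)) := by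
    have : Nonempty (Fin n) := ⟨⟨0, hpos⟩⟩
    infer_instance
  exact necessity_abs (isAdj_glE A) hφm hφ hq' hn hn'

end Pool.Agent.Lib_helper44
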