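import Mathlib
import Pool.Agent.Lib_helper44.ExistZ
import Pool.Agent.Lib_helper44.NecFinal
import Pool.Agent.Lib_helper44.InvLemma

open MeasureTheory Filter Topology Complex Module
open scoped ENNReal NNReal ComplexConjugate InnerProductSpace FourierTransform

set_option linter.unusedSectionVars false

namespace Pool.Agent.Lib_helper44

variable {n : ℕ}

theorem hasWavelet_of_fam (A : GL (Fin n) ℝ) (Γ : Submodule ℤ (EuclideanSpace ℝ (Fin n)))
    (γ : Basis (Fin n) ℝ (EuclideanSpace ℝ (Fin n))) (e : (Fin n → ℤ) ≃ Γ)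
    (he : ∀ k, (e k : EuclideanSpace ℝ (Fin n)) = kv γ k)
    {φ : EuclideanSpace ℝ (Fin n) → ℂ}
    (h : IsONB (volume : Measure (EuclideanSpace ℝ (Fin n))) (fam γ (glE (glT A)) φ)) :
    HasWavelet A Γ := by
  have hφ := memLp_of_isONB h
  refine ⟨𝓕⁻ (hφ.toLp φ), (wavelet_iff_fam A Γ γ e he _).mpr ?_⟩
  rw [FourierTransform.fourier_fourierInv_eq]
  refine h.congr (fun i => ?_)
  have h1 : φ =ᵐ[volume] (hφ.toLp φ) := hφ.coeFn_toLp.symm
  have h2 := ae_comp_equiv ((glE (glT A)) ^ (-i.1)) h1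
  filter_upwards [h2] with x hx
  rw [fam_apply, fam_apply, hx]

/-- the criterion, in the abstract form -/
theorem posC_of_endCond {A : GL (Fin n) ℝ} {Γ : Lat n}
    {γ : Basis (Fin n) ℝ (EuclideanSpace ℝ (Fin n))}
    {e : (Fin n → ℤ) ≃ Γ} (he : ∀ k, (e k : EuclideanSpace ℝ (Fin n)) = kv γ k) {q C : ℕ}
    (hq : GoodQ (glE (glT A)) (dualL γ) q C) (h : EndCond A Γ) :
    PosC (glE (glT A)) (dualL γ) (RQ (glE (glT A)) (dualL γ) q) := by
  classical
  set B := glE (glT A) with hB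
  have hadet : adet B = |(A : Matrix (Fin n) (Fin n) ℝ).det| := by
    rw [← (isAdj_glE A).adet_eq, adet_glE]
  have hfinΛ : ∀ k : ℕ, ({v | v ∈ dualL γ ∧ ‖(B ^ (k : ℤ)) v‖ < 1} : Set (Sp n)).Finite := by
    intro k
    apply (finite_lattice_dil γ B k 1).subset
    rintro v ⟨hv, hv1⟩
    exact ⟨hv, hv1.le⟩
  have hco : ∀ k : ℕ, nco B (dualL γ) (RQ B (dualL γ) q) k = (cosetCount A Γ k : ℕ∞) := by
    intro k
    unfold cosetCount nco
    have h1 : ({v : Sp n | InDual Γ v ∧ ‖actT (A ^ k) v‖ < 1} : Set (Sp n))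
        = {v | v ∈ dualL γ ∧ ‖(B ^ (k : ℤ)) v‖ < 1} := by
      ext v
      simp only [Set.mem_ofPred_eq]
      rw [inDual_iff he, actT_pow]
    have h2 : (fun v : Sp n => {w : Sp n | InR A Γ (w - v)})
        = fun v : Sp n => ({w | w - v ∈ RQ B (dualL γ) q} : Set (Sp n)) := by
      ext v w
      simp only [Set.mem_ofPred_eq]
      exact inR_iff he hq _
    rw [h1, h2, ((hfinΛ k).image _).cast_ncard_eq]
  have hsh : ∀ k : ℕ, (shortCount A Γ k : ℕ∞) ≤ cn B (RQ B (dualL γ) q) k 1 := by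
    intro k
    unfold shortCount cn
    have h1 : ({v : Sp n | InR A Γ v ∧ ‖actT (A ^ k) v‖ < 1} : Set (Sp n))
        = {v | v ∈ RQ B (dualL γ) q ∧ ‖(B ^ (k : ℤ)) v‖ < 1} := by
      ext v
      simp only [Set.mem_ofPred_eq]
      rw [inR_iff he hq, actT_pow]
    have h2 : ({v | v ∈ RQ B (dualL γ) q ∧ ‖(B ^ (k : ℤ)) v‖ < 1} : Set (Sp n)).Finite := by
      apply (hfinΛ k).subset
      rintro v ⟨hv, hv1⟩
      exact ⟨hv.1, hv1⟩
    rw [h1, h2.cast_ncard_eq]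
    apply Set.encard_le_encard
    rintro v ⟨hv, hv1⟩
    exact ⟨hv, hv1.le⟩
  obtain ⟨ha, hb⟩ := h
  refine ⟨?_, fun M hM => ?_⟩
  · by_contra hne
    apply ha
    have h1 : ∀ k : ℕ, ((nco B (dualL γ) (RQ B (dualL γ) q) k : ℕ∞) : ℝ≥0∞)⁻¹.toReal
        = (1 : ℝ) / cosetCount A Γ k := by
      intro k
      rw [hco, ENat.toENNReal_coe, ENNReal.toReal_inv, ENNReal.toReal_natCast, one_div]
    have h2 := ENNReal.summable_toReal hne
    simp only [h1] at h2
    exact h2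
  · obtain ⟨k, hk⟩ := hb M.toReal
    refine ⟨k, ?_⟩
    have h1 : M < ENNReal.ofReal (adet B ^ k * shortCount A Γ k) := by
      rw [ENNReal.lt_ofReal_iff_toReal_lt hM, hadet]
      exact hk
    refine h1.trans_le ?_
    rw [ENNReal.ofReal_mul (by have := adet_pos B; positivity), ENNReal.ofReal_natCast]
    apply mul_le_mul_right
    have h2 : (((shortCount A Γ k : ℕ) : ℕ∞) : ℝ≥0∞)
        ≤ ((cn B (RQ B (dualL γ) q) k 1 : ℕ∞) : ℝ≥0∞) := by
      rw [ENat.toENNReal_le]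
      exact hsh k
    rwa [ENat.toENNReal_coe] at h2

theorem existence_of_endCond (A : GL (Fin n) ℝ) (Γ : Lat n) [DiscreteTopology Γ] [IsZLattice ℝ Γ]
    (h : EndCond A Γ) : HasWavelet A Γ := by
  classical
  obtain ⟨γ, e, he⟩ := exists_zbasis Γ
  obtain ⟨q, C, hq⟩ := skolem_E (glE (glT A)) (dualL γ) (dualL_fg γ _ le_rfl)
  have hq' : GoodQ (glE (glT A)) (dualL γ) q C := hq
  obtain ⟨φ, -, hφ⟩ := exists_wavelet_of_PosC γ (glE (glT A)) hq'.1 (posC_of_endCond he hq' h)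
  exact hasWavelet_of_fam A Γ γ e he hφ

/-- **The characterisation.** -/
theorem hasWavelet_iff_endCond [NeZero n] (A : GL (Fin n) ℝ) (Γ : Lat n) [DiscreteTopology Γ]
    [IsZLattice ℝ Γ] : HasWavelet A Γ ↔ EndCond A Γ ∨ EndCond A⁻¹ Γ := by
  constructor
  · exact necessity A Γ
  · rintro (h | h)
    · exact existence_of_endCond A Γ h
    · obtain ⟨ψ, hψ⟩ := existence_of_endCond A⁻¹ Γ h
      have h1 := IsOrthonormalWavelet.inv hψ
      rw [inv_inv] at h1
      exact ⟨ψ, h1⟩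

end Pool.Agent.Lib_helper44
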