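import Mathlib
import Pool.Agent.Lib_helper44.Det1
import Pool.Agent.Lib_helper44.WLower
import Pool.Agent.Lib_helper44.InvLemma

open MeasureTheory Filter Topology Complex Module FourierTransform
open scoped ENNReal NNReal ComplexConjugate InnerProductSpace

set_option linter.unusedSectionVars false

namespace Pool.Agent.Lib_helper44

section gen

variable {E : Type*} [NormedAddCommGroup E] [InnerProductSpace ℝ E] [FiniteDimensional ℝ E]
  [MeasurableSpace E] [BorelSpace E] {n : ℕ}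
variable {γ : Basis (Fin n) ℝ E} {A B : E ≃L[ℝ] E} {φ : E → ℂ}

/-- the Calderon sum does not vanish -/
theorem calS_ne_zero (h : IsONB (volume : Measure E) (fam γ B φ)) (hφm : Measurable φ) :
    ∀ᵐ x, calS B φ x ≠ 0 := by
  rw [ae_iff]
  set Z : Set E := {x | ¬ calS B φ x ≠ 0} with hZ
  have hZm : MeasurableSet Z := by
    have : Z = calS B φ ⁻¹' {0} := by
      ext x
      simp [hZ]
    rw [this]
    exact measurable_calS hφm (measurableSet_singleton 0)
  apply measure_null_of_locally_null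
  intro x _
  refine ⟨Z ∩ Metric.ball x 1, inter_mem_nhdsWithin _ (Metric.ball_mem_nhds x one_pos), ?_⟩
  set D := Z ∩ Metric.ball x 1 with hDdef
  have hDm : MeasurableSet D := hZm.inter measurableSet_ball
  have hDt : volume D ≠ ⊤ :=
    ((measure_mono Set.inter_subset_right).trans_lt measure_ball_lt_top).ne
  have h1 := h.parseval (indicator_memLp hDm hDt)
  rw [lintegral_indicator_sq hDm] at h1
  rw [← h1]
  rw [ENNReal.tsum_eq_zero]
  intro i
  have h2 : (fun x => conj (fam γ B φ i x) * D.indicator (fun _ => (1 : ℂ)) x) = fun _ => 0 := by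
    ext y
    by_cases hy : y ∈ D
    · have hy0 : calS B φ y = 0 := by
        have := hy.1
        rw [hZ] at this
        simpa using this
      unfold calS at hy0
      rw [ENNReal.tsum_eq_zero] at hy0
      have h3 := hy0 i.1
      have h4 : φ ((B ^ (-i.1)) y) = 0 := by simpa using h3
      rw [fam_apply, h4]
      simp
    · rw [Set.indicator_of_notMem hy, mul_zero]
  rw [h2]
  simp

end gen

/-- a uniform statement: a wavelet whose Fourier transform takes at most two absolute values has a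
Calderon sum bounded below -/
theorem calderonAtLeast_of_msf {n : ℕ} (A : GL (Fin n) ℝ)
    (Γ : Submodule ℤ (EuclideanSpace ℝ (Fin n)))
    (γ : Basis (Fin n) ℝ (EuclideanSpace ℝ (Fin n))) (e : (Fin n → ℤ) ≃ Γ)
    (he : ∀ k, (e k : EuclideanSpace ℝ (Fin n)) = kv γ k)
    (ψ : Lp ℂ 2 (volume : Measure (EuclideanSpace ℝ (Fin n)))) (h : IsOrthonormalWavelet A Γ ψ)
    (hm : IsMSF ψ) : ∃ c : ℝ≥0∞, c ≠ 0 ∧ CalderonAtLeast A ψ c := by
  have h1 := (wavelet_iff_fam A Γ γ e he ψ).mp h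
  set f : Lp ℂ 2 (volume : Measure (EuclideanSpace ℝ (Fin n))) := 𝓕 ψ with hf
  set φ := (Lp.memLp f).1.mk f with hφ
  have hmeas : Measurable φ := (Lp.memLp f).1.stronglyMeasurable_mk.measurable
  have hae : f =ᵐ[volume] φ := (Lp.memLp f).1.ae_eq_mk
  have h2 : IsONB (volume : Measure (EuclideanSpace ℝ (Fin n))) (fam γ (glE (glT A)) φ) :=
    h1.congr (fun i => fam_congr hae i)
  have h3 := calS_ne_zero h2 hmeas
  have h4 : ∀ᵐ x : EuclideanSpace ℝ (Fin n), ∀ j : ℤ,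
      f ((glE (glT A) ^ j) x) = φ ((glE (glT A) ^ j) x) := by
    rw [ae_all_iff]
    intro j
    exact ae_comp_equiv (glE (glT A) ^ j) hae
  obtain ⟨W, c, hW⟩ := hm
  have hW' : (fun ξ => ‖f ξ‖) =ᵐ[volume] W.indicator (fun _ => c) := hW
  have h5 : ∀ᵐ x : EuclideanSpace ℝ (Fin n), ∀ j : ℤ,
      ‖f ((glE (glT A) ^ j) x)‖ = W.indicator (fun _ => c) ((glE (glT A) ^ j) x) := by
    rw [ae_all_iff]
    intro j
    exact ae_comp_equiv (glE (glT A) ^ j) hW'
  have hc : c ≠ 0 := by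
    rintro rfl
    have h6 : ∀ᵐ _x : EuclideanSpace ℝ (Fin n), False := by
      filter_upwards [h3, h4, h5] with x hx3 hx4 hx5
      apply hx3
      unfold calS
      rw [ENNReal.tsum_eq_zero]
      intro j
      have h7 := hx5 (-j)
      rw [Set.indicator_zero, hx4, norm_eq_zero] at h7
      rw [h7]
      simp
    rw [ae_iff] at h6
    simp only [not_false_eq_true, Set.ofPred_true] at h6
    exact isOpen_univ.measure_ne_zero _ Set.univ_nonempty h6
  refine ⟨‖c‖ₑ ^ 2, by simpa using hc, ?_⟩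
  unfold CalderonAtLeast
  filter_upwards [h3, h4, h5] with x hx3 hx4 hx5
  have h6 : ∃ j : ℤ, φ ((glE (glT A) ^ j) x) ≠ 0 := by
    by_contra hcon
    push Not at hcon
    apply hx3
    unfold calS
    rw [ENNReal.tsum_eq_zero]
    intro j
    rw [hcon (-j)]
    simp
  obtain ⟨j, hj⟩ := h6
  rw [calderonSum_eq]
  refine le_trans ?_ (ENNReal.le_tsum j)
  have h7 := hx5 j
  have h8 : W.indicator (fun _ => c) ((glE (glT A) ^ j) x) = c := by
    by_cases hx : (glE (glT A) ^ j) x ∈ W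
    · rw [Set.indicator_of_mem hx]
    · rw [Set.indicator_of_notMem hx, hx4, norm_eq_zero] at h7
      exact absurd h7 hj
  rw [h8] at h7
  have h9 : ‖c‖ₑ = ‖f ((glE (glT A) ^ j) x)‖ₑ := by
    rw [← h7, enorm_norm]
  rw [h9]

/-- for volume preserving dilations no wavelet has a Calderon sum bounded below -/
theorem not_calderonAtLeast_of_det_one {n : ℕ} (hn : 0 < n) (A : GL (Fin n) ℝ)
    (hdet : |(A : Matrix (Fin n) (Fin n) ℝ).det| = 1)
    (Γ : Submodule ℤ (EuclideanSpace ℝ (Fin n)))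
    (γ : Basis (Fin n) ℝ (EuclideanSpace ℝ (Fin n))) (e : (Fin n → ℤ) ≃ Γ)
    (he : ∀ k, (e k : EuclideanSpace ℝ (Fin n)) = kv γ k)
    (ψ : Lp ℂ 2 (volume : Measure (EuclideanSpace ℝ (Fin n)))) (h : IsOrthonormalWavelet A Γ ψ)
    (c : ℝ≥0∞) (hc : c ≠ 0) : ¬ CalderonAtLeast A ψ c := by
  intro H
  have hnt : Nontrivial (EuclideanSpace ℝ (Fin n)) := by
    have : Nonempty (Fin n) := ⟨⟨0, hn⟩⟩
    infer_instance
  have h1 := (wavelet_iff_fam A Γ γ e he ψ).mp h
  set f : Lp ℂ 2 (volume : Measure (EuclideanSpace ℝ (Fin n))) := 𝓕 ψ with hf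
  set φ := (Lp.memLp f).1.mk f with hφ
  have hmeas : Measurable φ := (Lp.memLp f).1.stronglyMeasurable_mk.measurable
  have hae : f =ᵐ[volume] φ := (Lp.memLp f).1.ae_eq_mk
  have h2 : IsONB (volume : Measure (EuclideanSpace ℝ (Fin n))) (fam γ (glE (glT A)) φ) :=
    h1.congr (fun i => fam_congr hae i)
  have h4 : ∀ᵐ x : EuclideanSpace ℝ (Fin n), ∀ j : ℤ,
      f ((glE (glT A) ^ j) x) = φ ((glE (glT A) ^ j) x) := by
    rw [ae_all_iff]
    intro j
    exact ae_comp_equiv (glE (glT A) ^ j) hae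
  have hadet2 : adet (glE (glT A)) = 1 := by
    rw [← (isAdj_glE A).adet_eq, adet_glE, hdet]
  refine no_wavelet_of_lower hadet2 h2 hmeas hc ?_
  unfold CalderonAtLeast at H
  filter_upwards [H, h4] with x hx1 hx2
  rw [calderonSum_eq] at hx1
  refine hx1.trans (le_of_eq ?_)
  unfold calS
  simp only [← hx2]
  exact ((Equiv.neg ℤ).tsum_eq (fun j : ℤ => ‖f ((glE (glT A) ^ j) x)‖ₑ ^ 2)).symm

theorem glE_glT_inv {n : ℕ} (A : GL (Fin n) ℝ) (w : EuclideanSpace ℝ (Fin n)) :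
    glE (glT A⁻¹) (glE (glT A) w) = w := by
  have h3 : glT A⁻¹ * glT A = 1 := by
    ext1
    simp only [glT, Units.val_mul, Units.val_one]
    rw [← Matrix.transpose_mul, ← Units.val_mul, mul_inv_cancel, Units.val_one,
      Matrix.transpose_one]
  have h4 : glE (glT A⁻¹) * glE (glT A) = 1 := by rw [← map_mul, h3, map_one]
  have h5 := congrArg (fun f : (EuclideanSpace ℝ (Fin n) ≃L[ℝ] EuclideanSpace ℝ (Fin n)) =>
    f w) h4
  exact h5

theorem DualEigen.ne_zero {n : ℕ} {A : GL (Fin n) ℝ} {Γ : Lat n} {v : Sp n} {μ : ℝ}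
    (h : DualEigen A Γ v μ) : μ ≠ 0 := by
  rintro rfl
  have h1 : glE (glT A) v = 0 := by
    have := h.2.2
    rw [zero_smul] at this
    exact this
  have h2 := glE_glT_inv A v
  rw [h1, map_zero] at h2
  exact h.1 h2.symm

theorem DualEigen.inv {n : ℕ} {A : GL (Fin n) ℝ} {Γ : Lat n} {v : Sp n} {μ : ℝ}
    (h : DualEigen A Γ v μ) : DualEigen A⁻¹ Γ v μ⁻¹ := by
  refine ⟨h.1, h.2.1, ?_⟩
  have h2 := glE_glT_inv A v
  have h1 : glE (glT A) v = μ • v := h.2.2
  rw [h1, map_smul] at h2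
  have h3 : glE (glT A⁻¹) v = μ⁻¹ • v := by
    rw [eq_inv_smul_iff₀ h.ne_zero]
    exact h2
  exact h3

theorem HasWavelet.inv {n : ℕ} {A : GL (Fin n) ℝ} {Γ : Lat n} (h : HasWavelet A Γ) :
    HasWavelet A⁻¹ Γ := by
  obtain ⟨ψ, hψ⟩ := h
  exact ⟨ψ, hψ.inv⟩

theorem CalderonAtLeast.inv {n : ℕ} {A : GL (Fin n) ℝ} {ψ : L2 n} {c : ℝ≥0∞}
    (h : CalderonAtLeast A ψ c) : CalderonAtLeast A⁻¹ ψ c := by
  unfold CalderonAtLeast at h ⊢
  filter_upwards [h] with x hx
  refine hx.trans (le_of_eq ?_)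
  unfold calderonSum
  rw [← (Equiv.neg ℤ).tsum_eq (fun j : ℤ => ‖FT ψ (actT (A⁻¹ ^ j) x)‖ₑ ^ 2)]
  congr 1
  ext j
  rw [Equiv.neg_apply, inv_zpow, zpow_neg, inv_inv]

theorem abs_det_inv {n : ℕ} (A : GL (Fin n) ℝ) :
    |((A⁻¹ : GL (Fin n) ℝ) : Matrix (Fin n) (Fin n) ℝ).det|
      = |(A : Matrix (Fin n) (Fin n) ℝ).det|⁻¹ := by
  have h3 : ((A⁻¹ : GL (Fin n) ℝ) : Matrix (Fin n) (Fin n) ℝ).det *
      (A : Matrix (Fin n) (Fin n) ℝ).det = 1 := by
    rw [← Matrix.det_mul, ← Units.val_mul, inv_mul_cancel, Units.val_one, Matrix.det_one]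
  rw [eq_inv_of_mul_eq_one_left h3, abs_inv]

end Pool.Agent.Lib_helper44
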