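import Mathlib
import Pool.Agent.Lib_helper44.N2Det1b
import Pool.Agent.Lib_helper44.MSF

open MeasureTheory Filter Topology Complex Module FourierTransform
open scoped ENNReal NNReal ComplexConjugate InnerProductSpace

set_option linter.unusedSectionVars false

namespace Pool.Agent.Lib_helper44

/-- Some nonzero integer power of `μ` is an integer. -/
def PowInt (μ : ℝ) : Prop := ∃ m : ℤ, m ≠ 0 ∧ ∃ K : ℤ, μ ^ m = K

/-- `Aᵀ` has an eigenvector in the dual lattice `Γ*`, with eigenvalue off the unit circle, some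
nonzero integer power of which is an integer. -/
def GoodEigen (A : GL (Fin 2) ℝ) (Γ : Lat 2) : Prop :=
  ∃ v μ, DualEigen A Γ v μ ∧ |μ| ≠ 1 ∧ PowInt μ

/-- The planar pairs without wavelet sets: `|det A| = 1`, or `Aᵀ` has an eigenvector in the dual
lattice which it contracts while `|det A| ≥ 1`, or expands while `|det A| ≤ 1`. -/
def Exceptional (A : GL (Fin 2) ℝ) (Γ : Lat 2) : Prop :=
  |(A : Matrix (Fin 2) (Fin 2) ℝ).det| = 1 ∨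
  (1 ≤ |(A : Matrix (Fin 2) (Fin 2) ℝ).det| ∧ ∃ v μ, DualEigen A Γ v μ ∧ |μ| < 1) ∨
  (|(A : Matrix (Fin 2) (Fin 2) ℝ).det| ≤ 1 ∧ ∃ v μ, DualEigen A Γ v μ ∧ 1 < |μ|)

theorem PowInt.inv {μ : ℝ} (h : PowInt μ) : PowInt μ⁻¹ := by
  obtain ⟨m, hm, K, hK⟩ := h
  exact ⟨-m, neg_ne_zero.mpr hm, K, by rw [inv_zpow', neg_neg, hK]⟩

theorem GoodEigen.inv {A : GL (Fin 2) ℝ} {Γ : Lat 2} (h : GoodEigen A Γ) : GoodEigen A⁻¹ Γ := by
  obtain ⟨v, μ, hv, hμ, hp⟩ := h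
  refine ⟨v, μ⁻¹, hv.inv, ?_, hp.inv⟩
  rw [abs_inv]
  intro h
  exact hμ (inv_eq_one.mp h)

theorem powInt_lt {μ : ℝ} (hμ0 : μ ≠ 0) (hμ : |μ| < 1) (h : PowInt μ) :
    ∃ m : ℕ, 0 < m ∧ ∃ K : ℤ, μ ^ m * K = 1 := by
  obtain ⟨m, hm, K, hK⟩ := h
  rcases lt_or_gt_of_ne hm with h1 | h1
  · obtain ⟨k, hk⟩ := Int.eq_ofNat_of_zero_le (show 0 ≤ -m by omega)
    refine ⟨k, by omega, K, ?_⟩
    rw [← hK, ← zpow_natCast, ← hk, ← zpow_add₀ hμ0, neg_add_cancel, zpow_zero]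
  · obtain ⟨k, rfl⟩ := Int.eq_ofNat_of_zero_le h1.le
    exact absurd hK (noInt_of_lt hμ0 hμ k (by omega) K)

theorem goodEigen_lt {A : GL (Fin 2) ℝ} {Γ : Lat 2} {v : Sp 2} {μ : ℝ} (hv : DualEigen A Γ v μ)
    (hμ : |μ| < 1) (hdet : 1 ≤ |(A : Matrix (Fin 2) (Fin 2) ℝ).det|) (h : GoodEigen A Γ) :
    (∃ m : ℕ, 0 < m ∧ ∃ K : ℤ, μ ^ m * K = 1) ∨
      (∃ w lam, DualEigen A Γ w lam ∧ 1 < |lam| ∧ ∃ m : ℕ, 0 < m ∧ ∃ K : ℤ, lam ^ m = K) := by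
  obtain ⟨w, lam, hw, hlam, hp⟩ := h
  rcases lt_or_gt_of_ne hlam with h1 | h1
  · left
    have heq : lam = μ := by
      by_contra hne
      have hd := det_eq_of_eigen _ v w hv.1 hw.1 μ lam hv.2.2 hw.2.2 hne
      rw [Matrix.det_transpose] at hd
      rw [hd, abs_mul] at hdet
      have h2 : 0 ≤ |lam| := abs_nonneg _
      have h3 : 0 ≤ |μ| := abs_nonneg _
      nlinarith
    rw [heq] at hp
    exact powInt_lt hv.ne_zero hμ hp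
  · right
    obtain ⟨m, hm, K, hK⟩ := hp
    obtain ⟨m', hm', K', hK'⟩ : ∃ m : ℕ, 0 < m ∧ ∃ K : ℤ, lam⁻¹ ^ m * K = 1 := by
      apply powInt_lt (inv_ne_zero hw.ne_zero)
      · rw [abs_inv]
        exact inv_lt_one_of_one_lt₀ h1
      · exact (show PowInt lam from ⟨m, hm, K, hK⟩).inv
    refine ⟨w, lam, hw, h1, m', hm', K', ?_⟩
    rw [inv_pow] at hK'
    exact (inv_mul_eq_one₀ (pow_ne_zero _ hw.ne_zero)).mp hK'

theorem goodEigen_of {A : GL (Fin 2) ℝ} {Γ : Lat 2} {v : Sp 2} {μ : ℝ} (hv : DualEigen A Γ v μ)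
    (hμ : |μ| < 1)
    (h : (∃ m : ℕ, 0 < m ∧ ∃ K : ℤ, μ ^ m * K = 1) ∨
      (∃ w lam, DualEigen A Γ w lam ∧ 1 < |lam| ∧ ∃ m : ℕ, 0 < m ∧ ∃ K : ℤ, lam ^ m = K)) :
    GoodEigen A Γ := by
  rcases h with ⟨m, hm, K, hK⟩ | ⟨w, lam, hw, hlam, m, hm, K, hK⟩
  · refine ⟨v, μ, hv, hμ.ne, -(m : ℤ), by omega, K, ?_⟩
    rw [zpow_neg, zpow_natCast]
    exact inv_eq_of_mul_eq_one_right hK
  · exact ⟨w, lam, hw, hlam.ne', m, by omega, K, by rw [zpow_natCast, hK]⟩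

theorem planar_contracting {A : GL (Fin 2) ℝ} {Γ : Lat 2} [DiscreteTopology Γ] [IsZLattice ℝ Γ]
    {v : Sp 2} {μ : ℝ} (hv : DualEigen A Γ v μ)
    (hμ : |μ| < 1) (hdet : 1 ≤ |(A : Matrix (Fin 2) (Fin 2) ℝ).det|) :
    (HasWavelet A Γ ↔ GoodEigen A Γ) ∧
    (∀ ψ : L2 2, IsOrthonormalWavelet A Γ ψ →
      ¬ IsMSF ψ ∧ ∀ c : ENNReal, c ≠ 0 → ¬ CalderonAtLeast A ψ c) := by
  refine ⟨?_, fun ψ h => ?_⟩
  · rw [hasWavelet_iff A Γ v μ hv hμ hdet]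
    exact ⟨goodEigen_of hv hμ, goodEigen_lt hv hμ hdet⟩
  · obtain ⟨h1, h2⟩ := wavelet_not_calderon A Γ v hv.1 hv.2.1 μ hv.2.2 hμ hdet ψ h
    exact ⟨h2, h1⟩

theorem planar_expanding {A : GL (Fin 2) ℝ} {Γ : Lat 2} [DiscreteTopology Γ] [IsZLattice ℝ Γ]
    {v : Sp 2} {μ : ℝ} (hv : DualEigen A Γ v μ)
    (hμ : 1 < |μ|) (hdet : |(A : Matrix (Fin 2) (Fin 2) ℝ).det| ≤ 1) :
    (HasWavelet A Γ ↔ GoodEigen A Γ) ∧
    (∀ ψ : L2 2, IsOrthonormalWavelet A Γ ψ →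
      ¬ IsMSF ψ ∧ ∀ c : ENNReal, c ≠ 0 → ¬ CalderonAtLeast A ψ c) := by
  have hμ' : |μ⁻¹| < 1 := by
    rw [abs_inv]
    exact inv_lt_one_of_one_lt₀ hμ
  have hd : 1 ≤ |((A⁻¹ : GL (Fin 2) ℝ) : Matrix (Fin 2) (Fin 2) ℝ).det| := by
    rw [abs_det_inv]
    apply one_le_inv_iff₀.mpr ⟨?_, hdet⟩
    exact abs_pos.mpr (A.isUnit.map Matrix.detMonoidHom).ne_zero
  obtain ⟨h1, h2⟩ := planar_contracting (Γ := Γ) hv.inv hμ' hd
  refine ⟨⟨fun h => ?_, fun h => ?_⟩, fun ψ h => ?_⟩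
  · have := (h1.mp h.inv).inv
    rwa [inv_inv] at this
  · have := (h1.mpr h.inv).inv
    rwa [inv_inv] at this
  · obtain ⟨h3, h4⟩ := h2 ψ h.inv
    exact ⟨h3, fun c hc hcal => h4 c hc hcal.inv⟩

/-- **planar pairs without wavelet sets** -/
theorem planar (A : GL (Fin 2) ℝ) (Γ : Lat 2) [DiscreteTopology Γ] [IsZLattice ℝ Γ]
    (hE : Exceptional A Γ) :
    (HasWavelet A Γ ↔ GoodEigen A Γ) ∧
    (∀ ψ : L2 2, IsOrthonormalWavelet A Γ ψ →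
      ¬ IsMSF ψ ∧ ∀ c : ENNReal, c ≠ 0 → ¬ CalderonAtLeast A ψ c) := by
  rcases hE with hdet | ⟨hdet, v, μ, hv, hμ⟩ | ⟨hdet, v, μ, hv, hμ⟩
  · constructor
    · by_cases hno : ∀ v μ, DualEigen A Γ v μ → |μ| = 1
      · constructor
        · intro h
          exact absurd h (no_wavelet_det_one A Γ hdet hno)
        · rintro ⟨v, μ, hv, hμ, -⟩
          exact absurd (hno v μ hv) hμ
      · push Not at hno
        obtain ⟨v, μ, hv, hμ⟩ := hno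
        rcases lt_or_gt_of_ne hμ with h1 | h1
        · exact (planar_contracting hv h1 hdet.ge).1
        · exact (planar_expanding hv h1 hdet.le).1
    · intro ψ h
      obtain ⟨γ, e, he⟩ := exists_zbasis Γ
      have h1 := not_calderonAtLeast_of_det_one two_pos A hdet Γ γ e he ψ h
      refine ⟨fun hm => ?_, h1⟩
      obtain ⟨c, hc, hcal⟩ := calderonAtLeast_of_msf A Γ γ e he ψ h hm
      exact h1 c hc hcal
  · exact planar_contracting hv hμ hdet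
  · exact planar_expanding hv hμ hdet

end Pool.Agent.Lib_helper44
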